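import Mathlib
import Pool.Agent.H772R2.NS.Defs

/-!
Project MH: the explicit objects of the construction.
-/

open MeasureTheory Set Filter Topology
open scoped InnerProductSpace ENNReal ContDiff

namespace N979MH

open H772R2.NS

/-! ### Elementary geometry -/

/-- The field `Λ(x) = (-x₂, x₁, 0)`. -/
noncomputable def lam (x : E3) : E3 := WithLp.toLp 2 ![-x 1, x 0, 0]

/-- `z = x₁ + i x₂`. -/
noncomputable def zc (x : E3) : ℂ := ⟨x 0, x 1⟩

/-- `z / |z|`. -/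
noncomputable def uz (x : E3) : ℂ := zc x / (‖zc x‖ : ℂ)

/-- `L²(ℝ³)` norm of a matrix field. -/
noncomputable def nM (z : E3 → M3) : ℝ := Real.sqrt (∫ x, ‖z x‖ ^ 2)

/-- `L²(ℝ³)` norm of a vector field. -/
noncomputable def nV (v : E3 → E3) : ℝ := Real.sqrt (∫ x, ‖v x‖ ^ 2)

/-! ### Profiles -/

/-- `0` for `v ≤ 1`, `1` for `v ≥ 6/5`. -/
noncomputable def chi (v : ℝ) : ℝ := Real.smoothTransition (5 * (v - 1))

noncomputable def psi (v : ℝ) : ℝ := chi v * v ^ (-(5 / 2) : ℝ) / 2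

noncomputable def Psi (y : ℝ) : ℝ := ∫ v in Ioi y, psi v

noncomputable def hh (v : ℝ) : ℝ := 2 * deriv chi v * v ^ (-(3 / 2) : ℝ)

/-- cutoff: `1` for `y ≤ d²`, `0` for `y ≥ 4 d²`. -/
noncomputable def zeta (d y : ℝ) : ℝ := Real.smoothTransition ((4 * d ^ 2 - y) / (3 * d ^ 2))

noncomputable def bump (s : ℝ) : ℝ := 30 * (max 0 (s * (1 - s))) ^ 2

noncomputable def bumpI (s : ℝ) : ℝ := ∫ v in (0 : ℝ)..s, bump v

/-- the total phase. -/
noncomputable def phie : ℝ := 99 * Real.pi / 100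

noncomputable def gc : ℝ := Real.cos (Real.pi / 200)

noncomputable def Gf (y : ℝ) : ℝ := max (y - gc) 0 + min (y + gc) 0

noncomputable def Gm : ℝ := (∫ θ in (0 : ℝ)..(2 * Real.pi), max (Real.sin θ - gc) 0) / (2 * Real.pi)

/-! ### Parameters -/

/-- Parameters: `d` cutoff radius, `r0` outer radius, `T` final time, `k0` basic frequency. -/
structure Par where
  d : ℝ
  r0 : ℝ
  T : ℝ
  k0 : ℕ
  hd : 0 < d
  hd1 : d ≤ 1
  hr : 0 < r0
  hrd : 4 * r0 ≤ d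
  hk : 0 < k0
  hT : 0 < T

namespace Par

variable (P : Par)

noncomputable def r (j : ℕ) : ℝ := P.r0 / 2 ^ j

def k (j : ℕ) : ℕ := P.k0 * 8 ^ j

noncomputable def A (j : ℕ) : ℝ := 3 * phie * (P.r j) ^ 3 / (P.k j : ℝ)

noncomputable def dA (j : ℕ) : ℝ := P.A j - P.A (j + 1)

noncomputable def t (j : ℕ) : ℝ := P.T * (3 / 4) ^ j

noncomputable def dl (j : ℕ) : ℝ := P.t j - P.t (j + 1)

/-- Stage `j` is the time interval `[t (j+1), t j]`; `F j` is the amplitude in this stage. -/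
noncomputable def F (j : ℕ) (s : ℝ) : ℝ := P.dA j / P.dl j * bump ((s - P.t (j + 1)) / P.dl j)

/-- `Phi j s = ∫_{-∞}^s F j`. -/
noncomputable def Phi (j : ℕ) (s : ℝ) : ℝ := P.dA j * bumpI ((s - P.t (j + 1)) / P.dl j)

/-- radial profile of the vortex `j`. -/
noncomputable def et (j : ℕ) (s : ℝ) : ℝ :=
  (P.r j ^ 3)⁻¹ * Psi (s ^ 2 / P.r j ^ 2) * zeta P.d (s ^ 2)

/-- the vortex `j`. -/
noncomputable def W (j : ℕ) (x : E3) : E3 := P.et j ‖x‖ • lam x

/-- the source of the vortex `j`: `-ΔW j = g j + smooth bounded error`. -/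
noncomputable def g (j : ℕ) (x : E3) : E3 :=
  ((P.r j ^ 5)⁻¹ * hh (‖x‖ ^ 2 / P.r j ^ 2)) • lam x

/-- static force of stage `j`. -/
noncomputable def fs (j : ℕ) (x : E3) : E3 :=
  (Gm⁻¹ * Gf ((uz x ^ P.k j).im)) • P.g j x

/-- `density × static force` in the predicted configuration, `σ = ±1`. -/
noncomputable def bs (σ : ℝ) (j : ℕ) (x : E3) : E3 :=
  (if 0 < σ * (uz x ^ P.k j).im then (2 : ℝ) else 1) • P.fs j x

/-- the force. -/
noncomputable def f (s : ℝ) (x : E3) : E3 := ∑' j, P.F j s • P.fs j x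

/-- the shell `j`. -/
def shell (j : ℕ) : Set E3 := {x | P.r j ^ 2 / 2 < ‖x‖ ^ 2 ∧ ‖x‖ ^ 2 < 3 * P.r j ^ 2 / 2}

open Classical in
/-- the density at time `t J`, `σ = ±1`; shells `j ≥ J` are not rotated. -/
noncomputable def a (σ : ℝ) (J : ℕ) (x : E3) : ℝ :=
  if ∃ j, x ∈ P.shell j ∧ 0 < (uz x ^ P.k j *
      Complex.exp (((-(σ * P.k j * (if j < J then P.A J / (3 * ‖x‖ ^ 3) else 0)) : ℝ) : ℂ)
        * Complex.I)).re
  then 2 else 1

open Classical in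
/-- the initial density. -/
noncomputable def rho0 (x : E3) : ℝ :=
  if ∃ j, x ∈ P.shell j ∧ 0 < (uz x ^ P.k j).re then 2 else 1

/-- the main flow, on `[t J, T]`. -/
noncomputable def us (σ : ℝ) (J : ℕ) (s : ℝ) (x : E3) : E3 :=
  σ • ∑ j ∈ Finset.range J, P.F j s • P.W j x

end Par

/-! ### Galerkin solutions -/

/-- the field `∑ c_k φ_k`. -/
noncomputable def fld {N : ℕ} (φ : Fin N → E3 → E3) (c : Fin N → ℝ) (x : E3) : E3 :=
  ∑ k, c k • φ k x

/-- Galerkin solutions of the density dependent Navier-Stokes equations on `[t0,T]`, with initial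
density `a` and zero initial velocity. `X` is the flow, `Y t` the inverse of `X t`; the density at
time `t` is `a ∘ Y t`. -/
structure IsGal {N : ℕ} (φ : Fin N → E3 → E3) (t0 T : ℝ) (a : E3 → ℝ) (f : ℝ → E3 → E3)
    (c c' : ℝ → Fin N → ℝ) (X Y : ℝ → E3 → E3) : Prop where
  cc : Continuous c
  cc' : Continuous c'
  dc : ∀ t ∈ Icc t0 T, HasDerivWithinAt c (c' t) (Icc t0 T) t
  c0 : ∀ t ≤ t0, c t = 0
  Xc : Continuous (fun p : ℝ × E3 => X p.1 p.2)
  Yc : Continuous (fun p : ℝ × E3 => Y p.1 p.2)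
  X0 : ∀ t ≤ t0, ∀ x, X t x = x
  XY : ∀ t x, X t (Y t x) = x
  YX : ∀ t x, Y t (X t x) = x
  dX : ∀ t ∈ Icc t0 T, ∀ x,
    HasDerivWithinAt (fun s => X s x) (fld φ (c t) (X t x)) (Icc t0 T) t
  mp : ∀ t, MeasurePreserving (X t) volume volume
  fix : ∀ x, (∀ k, φ k x = 0) → ∀ t, X t x = x
  eqn : ∀ t ∈ Icc t0 T, ∀ l,
    (∫ x, a x * ⟪fld φ (c' t) (X t x)
        + fderiv ℝ (fld φ (c t)) (X t x) (fld φ (c t) (X t x)) - f t (X t x), φ l (X t x)⟫_ℝ)
      + ∫ x, ⟪jac (fld φ (c t)) x, jac (φ l) x⟫_ℝ = 0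

end N979MH
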