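import Mathlib
import Pool.Agent.H772R2.NS.Defs

/-!
The multifluid incompressible MHD system in a bounded domain: weak solutions.
`E3`, `M3`, `jac`, `IsTest`, `L2V`, `L2M`, `L2sigma`, `H1graph` are those of
`Pool/Agent/H772R2/NS/Defs.lean`.
-/

open MeasureTheory Set Filter Topology
open scoped InnerProductSpace ENNReal ContDiff

namespace N979MH

open H772R2.NS

/-- The Hilbert space `L²(Ω)` of real functions. -/
noncomputable abbrev L2S (Ω : Set E3) := Lp ℝ 2 (volume.restrict Ω)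

/-- The vector product. -/
noncomputable def cross (a b : E3) : E3 :=
  WithLp.toLp 2 ![a 1 * b 2 - a 2 * b 1, a 2 * b 0 - a 0 * b 2, a 0 * b 1 - a 1 * b 0]

/-- The curl of a field whose Jacobian matrix is `z` (`z (i, j) = ∂_j v_i`). -/
noncomputable def curlM (z : M3) : E3 :=
  WithLp.toLp 2 ![z (2, 1) - z (1, 2), z (0, 2) - z (2, 0), z (1, 0) - z (0, 1)]

/-- `z` is the weak gradient of `v ∈ L²(Ω)³`: `∫ v_i ∂_j ψ = - ∫ z_ij ψ` for all smooth `ψ` with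
compact support in `Ω`. -/
def IsWeakGrad (Ω : Set E3) (v : L2V Ω) (z : L2M Ω) : Prop :=
  ∀ ψ : E3 → ℝ, ContDiff ℝ ∞ ψ → HasCompactSupport ψ → tsupport ψ ⊆ Ω → ∀ i j : Fin 3,
    ∫ x in Ω, v x i * fderiv ℝ ψ x (EuclideanSpace.single j 1) = - ∫ x in Ω, z x (i, j) * ψ x

/-- Divergence free vector test fields on `Ω × [0,T)`: smooth on `ℝ × ℝ³`, with compact support
contained in `(-∞,T) × Ω`. -/
structure IsTestT (Ω : Set E3) (T : ℝ) (φ : ℝ → E3 → E3) : Prop where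
  smooth : ContDiff ℝ ∞ (fun p : ℝ × E3 => φ p.1 p.2)
  compact : HasCompactSupport (fun p : ℝ × E3 => φ p.1 p.2)
  supp : tsupport (fun p : ℝ × E3 => φ p.1 p.2) ⊆ Iio T ×ˢ Ω
  divfree : ∀ t x, ∑ i, jac (φ t) x (i, i) = 0

/-- The time derivative. -/
noncomputable def dt {E : Type*} [NormedAddCommGroup E] [NormedSpace ℝ E] (φ : ℝ → E3 → E)
    (t : ℝ) (x : E3) : E := deriv (fun s => φ s x) t

/-- `(ρ, u, B)` is a weak solution on `Ω × [0,T]` of the multifluid MHD system with viscosity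
`η(ρ)`, conductivity `σ(ρ)`, force `f` and initial data `(ρ₀, u₀, B₀)`; `G = ∇u`, `D = ∇B`.
* `ρ ∈ L^∞ ∩ C([0,T]; L^p)` for all finite `p`, and the continuity equation holds, tested with
  smooth functions with compact support in `(-∞,T) × ℝ³` (so with initial datum `ρ₀`);
* `u ∈ L^∞(0,T; H)`, weakly continuous, `H = L2sigma Ω` the closure in `L²` of the divergence free
  test fields; `u ∈ L²(0,T; V)`, `V` the closure of the same fields in `H¹`, and the same for `B`,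
  with `W = {B ∈ H : ∇B ∈ L²}` in place of `V`;
* the momentum equation, tested with all divergence free test fields `φ` on `Ω × [0,T)`;
* the induction equation, tested with all smooth fields with compact support in `(-∞,T) × ℝ³` (so
  up to the boundary: this contains the boundary condition `curl B × n = 0`). -/
structure IsMHDSolution (Ω : Set E3) (T : ℝ) (η σ : ℝ → ℝ) (f : ℝ → L2V Ω)
    (ρ₀ : L2S Ω) (u₀ B₀ : L2V Ω) (ρ : ℝ → L2S Ω) (u B : ℝ → L2V Ω) (G D : ℝ → L2M Ω) :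
    Prop where
  dens_bdd : ∃ M, ∀ t ∈ Icc 0 T, ∀ᵐ x ∂(volume.restrict Ω), |ρ t x| ≤ M
  dens_cont : ∀ p : ℝ≥0∞, 1 ≤ p → p ≠ ⊤ → ∀ t ∈ Icc 0 T,
    Tendsto (fun s => eLpNorm (fun x => ρ s x - ρ t x) p (volume.restrict Ω)) (𝓝[Icc 0 T] t) (𝓝 0)
  dens_init : ρ 0 = ρ₀
  dens_eqn : ∀ ψ : ℝ → E3 → ℝ, ContDiff ℝ ∞ (fun p : ℝ × E3 => ψ p.1 p.2) →
    HasCompactSupport (fun p : ℝ × E3 => ψ p.1 p.2) →
    tsupport (fun p : ℝ × E3 => ψ p.1 p.2) ⊆ Iio T ×ˢ univ →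
    ∫ t in Ioo 0 T, ∫ x in Ω, ρ t x * (dt ψ t x + fderiv ℝ (ψ t) x (u t x))
      = - ∫ x in Ω, ρ₀ x * ψ 0 x
  u_bdd : ∃ M, ∀ t ∈ Icc 0 T, ‖u t‖ ≤ M
  u_sol : ∀ t ∈ Icc 0 T, u t ∈ L2sigma Ω
  u_wcont : ∀ v : L2V Ω, ContinuousOn (fun t => ⟪u t, v⟫_ℝ) (Icc 0 T)
  u_grad : ∀ᵐ t ∂(volume.restrict (Ioo 0 T)), (u t, G t) ∈ H1graph Ω
  u_gradL2 : MemLp G 2 (volume.restrict (Ioo 0 T))
  B_bdd : ∃ M, ∀ t ∈ Icc 0 T, ‖B t‖ ≤ M
  B_sol : ∀ t ∈ Icc 0 T, B t ∈ L2sigma Ω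
  B_wcont : ∀ v : L2V Ω, ContinuousOn (fun t => ⟪B t, v⟫_ℝ) (Icc 0 T)
  B_grad : ∀ᵐ t ∂(volume.restrict (Ioo 0 T)), IsWeakGrad Ω (B t) (D t)
  B_gradL2 : MemLp D 2 (volume.restrict (Ioo 0 T))
  momentum : ∀ φ, IsTestT Ω T φ →
    ∫ t in Ioo 0 T, ∫ x in Ω,
      (ρ t x * ⟪u t x, dt φ t x⟫_ℝ
        + ρ t x * ∑ i, ∑ j, u t x i * u t x j * jac (φ t) x (i, j)
        - η (ρ t x) * ∑ i, ∑ j, (G t x (i, j) + G t x (j, i)) * jac (φ t) x (i, j)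
        + ρ t x * ⟪f t x, φ t x⟫_ℝ
        + ⟪cross (curlM (D t x)) (B t x), φ t x⟫_ℝ)
      = - ∫ x in Ω, ρ₀ x * ⟪u₀ x, φ 0 x⟫_ℝ
  induction : ∀ φ : ℝ → E3 → E3, ContDiff ℝ ∞ (fun p : ℝ × E3 => φ p.1 p.2) →
    HasCompactSupport (fun p : ℝ × E3 => φ p.1 p.2) →
    tsupport (fun p : ℝ × E3 => φ p.1 p.2) ⊆ Iio T ×ˢ univ →
    ∫ t in Ioo 0 T, ∫ x in Ω,
      (⟪B t x, dt φ t x⟫_ℝ - (σ (ρ t x))⁻¹ * ⟪curlM (D t x), curlM (jac (φ t) x)⟫_ℝ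
        + ⟪cross (u t x) (B t x), curlM (jac (φ t) x)⟫_ℝ)
      = - ∫ x in Ω, ⟪B₀ x, φ 0 x⟫_ℝ

end N979MH
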