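import Mathlib
import Pool.Agent.H772R2.NS.Space3
import Pool.Agent.N979.MH.Def
import Pool.Agent.N979.MH.Pub

/-!
Project MH: statements of the modules.
-/

open MeasureTheory Set Filter Topology
open scoped InnerProductSpace ENNReal ContDiff NNReal

namespace N979MH

open H772R2.NS

/-! ### Profiles, vortices, force -/

/-- module PROF -/
def StmProf : Prop :=
  ContDiff ℝ ∞ Psi ∧ ContDiff ℝ ∞ psi ∧ ContDiff ℝ ∞ hh ∧ (∀ y, HasDerivAt Psi (-psi y) y) ∧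
  (∀ y, 6 / 5 ≤ y → Psi y = y ^ (-(3 / 2) : ℝ) / 3) ∧ (∀ y ≤ 1, Psi y = Psi 1) ∧ (∀ y, 0 < Psi y) ∧
  Antitone Psi ∧ (∀ y, 0 < y → Psi y ≤ y ^ (-(3 / 2) : ℝ) / 3) ∧ (∀ y, 0 ≤ psi y) ∧
  (∀ y ≤ 1, psi y = 0) ∧ (∀ y, 0 < y → psi y ≤ y ^ (-(5 / 2) : ℝ) / 2) ∧
  (∀ v, 0 ≤ hh v) ∧ (∀ v, hh v ≠ 0 → 1 < v ∧ v < 6 / 5) ∧ (∃ C, ∀ v, hh v ≤ C) ∧
  (∀ y, 4 * y * deriv psi y + 10 * psi y = hh y)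

/-- module BUMP -/
def StmBump : Prop :=
  ContDiff ℝ 1 bump ∧ (∀ s, 0 ≤ bump s) ∧ (∀ s, bump s ≤ 2) ∧ (∀ s ≤ 0, bump s = 0) ∧
  (∀ s, 1 ≤ s → bump s = 0) ∧ (∀ s, |deriv bump s| ≤ 6) ∧ (∀ s ≤ 0, bumpI s = 0) ∧
  (∀ s, 1 ≤ s → bumpI s = 1) ∧ (∀ s, 0 ≤ bumpI s) ∧ (∀ s, bumpI s ≤ 1) ∧
  (∀ s, HasDerivAt bumpI (bump s) s) ∧ 0 < Gm ∧ Gm < 1

/-- module W -/
def StmW : Prop := ∀ d : ℝ, 0 < d → d ≤ 1 → ∃ C c₁ : ℝ, 0 < C ∧ 0 < c₁ ∧ ∀ P : Par, P.d = d →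
  ∀ j : ℕ,
    (∀ Ω : Set E3, Metric.closedBall 0 (2 * d) ⊆ Ω → IsTest Ω (P.W j)) ∧
    nV (P.W j) ^ 2 ≤ C / P.r j ∧
    (∀ x, ‖fderiv ℝ (P.W j) x‖ ≤ C / P.r j ^ 3) ∧
    c₁ / P.r j ^ 3 ≤ nM (jac (P.W j)) ^ 2 ∧
    (∀ (Ω : Set E3) (w : E3 → E3), IsTest Ω w →
      |(∫ x, ⟪jac (P.W j) x, jac w x⟫_ℝ) - ∫ x, ⟪P.g j x, w x⟫_ℝ| ≤ C * nV w)

/-- module FORCE -/
def StmForce : Prop := ∀ P : Par,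
  (∃ K : ℝ, ∀ s, Integrable (fun x => ‖P.f s x‖ ^ 2) ∧ ∫ x, ‖P.f s x‖ ^ 2 ≤ K) ∧
  Measurable (fun p : ℝ × E3 => P.f p.1 p.2) ∧
  (∀ s ≤ 0, P.f s = 0) ∧
  (∀ s x, P.f s x ≠ 0 → ‖x‖ ≤ 2 * P.r0) ∧
  (∀ j, ∀ s ∈ Icc (P.t (j + 1)) (P.t j), ∀ x, P.f s x = P.F j s • P.fs j x) ∧
  (∀ J : ℕ, ∃ L : ℝ, (∀ s ∈ Icc (P.t J) P.T, ∀ x y, ‖P.f s x - P.f s y‖ ≤ L * ‖x - y‖) ∧
    (∀ s ∈ Icc (P.t J) P.T, ∀ x, ‖P.f s x‖ ≤ L) ∧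
    (∀ x, ContinuousOn (fun s => P.f s x) (Icc (P.t J) P.T)))

/-- module FORCEL -/
def StmForceL : Prop := ∀ (P : Par) (Ω : Set E3), MeasurableSet Ω →
  ∃ fL : ℝ → L2V Ω, (∀ s, (fL s : E3 → E3) =ᵐ[volume.restrict Ω] P.f s) ∧
    StronglyMeasurable fL ∧ ∃ K, ∀ s, ‖fL s‖ ≤ K

/-- module POINC -/
def StmPoinc : Prop := ∀ Ω : Set E3, IsOpen Ω → Bornology.IsBounded Ω →
  ∃ C : ℝ, 0 < C ∧ ∀ w, IsTest Ω w → nV w ≤ C * nM (jac w)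

/-! ### Estimates -/

/-- module I1 -/
def StmI1 : Prop := ∃ C : ℝ, 0 < C ∧ ∀ (P : Par) (j : ℕ) (σ : ℝ), (σ = 1 ∨ σ = -1) →
  ∀ (Ω : Set E3) (w : E3 → E3), IsTest Ω w →
    |∫ x, ⟪P.bs σ j x - σ • P.g j x, w x⟫_ℝ|
      ≤ C / (P.k j : ℝ) * (P.r j ^ (-(5 / 2) : ℝ) * nV w + P.r j ^ (-(3 / 2) : ℝ) * nM (jac w))

/-- module TRAJ -/
def StmTraj : Prop := ∀ d : ℝ, 0 < d → d ≤ 1 → ∃ K : ℕ, ∀ P : Par, P.d = d → K ≤ P.k0 →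
  ∀ σ : ℝ, (σ = 1 ∨ σ = -1) → ∀ j J : ℕ, j < J → ∀ t ∈ Icc (P.t (j + 1)) (P.t j),
  ∀ y v : ℝ → E3, ContinuousOn v (Icc (P.t J) t) →
    (∀ s ∈ Icc (P.t J) t, HasDerivWithinAt y (P.us σ J s (y s) + v s) (Icc (P.t J) t) s) →
    P.fs j (y t) ≠ 0 →
    ∫ s in P.t J..t, ‖v s‖ ≤ ‖zc (y t)‖ / (400 * P.k j) →
    P.a σ J (y (P.t J)) = if 0 < σ * (uz (y t) ^ P.k j).im then 2 else 1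

/-- module D6 -/
def StmD6 : Prop := ∀ Ω : Set E3, Bornology.IsBounded Ω → ∀ (N : ℕ) (φ : Fin N → E3 → E3),
  (∀ k, IsTest Ω (φ k)) → ∀ (b : ℝ → Fin N → ℝ), Continuous b → ∀ X : ℝ → E3 → E3,
  Continuous (fun p : ℝ × E3 => X p.1 p.2) → (∀ s, MeasurePreserving (X s) volume volume) →
  ∀ t0 t : ℝ, t0 ≤ t →
    Continuous (fun α => ∫ s in t0..t, ‖fld φ (b s) (X s α)‖) ∧
    eLpNorm (fun α => ∫ s in t0..t, ‖fld φ (b s) (X s α)‖) 6 (volume : Measure E3)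
      ≤ ENNReal.ofReal (CS * ∫ s in t0..t, nM (jac (fld φ (b s))))

/-- module I2 -/
def StmI2 : Prop := ∃ C : ℝ, 0 < C ∧ ∀ (P : Par) (j : ℕ) (σ : ℝ), (σ = 1 ∨ σ = -1) →
  ∀ (Ω : Set E3) (w : E3 → E3), IsTest Ω w → ∀ (a : E3 → ℝ) (X : E3 → E3) (D : E3 → ℝ) (G : ℝ),
    Measurable a → (∀ x, 1 ≤ a x ∧ a x ≤ 2) → Continuous X →
    MeasurePreserving X volume volume → Continuous D → (∀ α, 0 ≤ D α) → 0 ≤ G →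
    eLpNorm D 6 (volume : Measure E3) ≤ ENNReal.ofReal G →
    (∀ α, P.fs j (X α) ≠ 0 → D α ≤ ‖zc (X α)‖ / (400 * P.k j) →
      a α = if 0 < σ * (uz (X α) ^ P.k j).im then 2 else 1) →
    ∀ μ : ℝ, 0 < μ → μ ≤ 1 →
    |(∫ α, a α * ⟪P.fs j (X α), w (X α)⟫_ℝ) - ∫ x, ⟪P.bs σ j x, w x⟫_ℝ|
      ≤ C * P.r j ^ (-(3 / 2) : ℝ)
        * (μ ^ 8 + (G / (P.A j * P.r j ^ (-(3 / 2) : ℝ))) ^ 5 * (μ ^ 15)⁻¹) * nM (jac w)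

/-- module I4 -/
def StmI4 : Prop := ∀ Ω : Set E3, IsOpen Ω → Bornology.IsBounded Ω → ∀ d : ℝ, 0 < d → d ≤ 1 →
  Metric.closedBall 0 (2 * d) ⊆ Ω → ∃ C : ℝ, 0 < C ∧ ∀ P : Par, P.d = d → ∀ (j : ℕ) (A A' : ℝ)
  (w : E3 → E3), IsTest Ω w → ∀ (a : E3 → ℝ) (X : E3 → E3), Measurable a →
  (∀ x, 1 ≤ a x ∧ a x ≤ 2) → Continuous X → MeasurePreserving X volume volume →
    |∫ α, a α * ⟪A' • P.W j (X α)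
        + fderiv ℝ (fun x => A • P.W j x) (X α) (A • P.W j (X α) + w (X α)), w (X α)⟫_ℝ|
      ≤ C * (|A'| * P.r j ^ (-(1 / 2) : ℝ) + A ^ 2 * P.r j ^ (-(7 / 2) : ℝ)) * nM (jac w)
        + C * |A| * P.r j ^ (-(3 : ℝ)) * nM (jac w) ^ 2

/-- module EN: the energy identity for the difference of a Galerkin solution and `fld φ (d t)`. -/
def StmEN : Prop := ∀ (Ω : Set E3) (N : ℕ) (φ : Fin N → E3 → E3), (∀ k, IsTest Ω (φ k)) →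
  ∀ (t0 T : ℝ) (a : E3 → ℝ) (f : ℝ → E3 → E3) (c c' : ℝ → Fin N → ℝ) (X Y : ℝ → E3 → E3),
  t0 < T → Measurable a → (∀ x, 1 ≤ a x ∧ a x ≤ 2) → (∀ t ∈ Icc t0 T, Continuous (f t)) →
  IsGal φ t0 T a f c c' X Y → ∀ d d' : ℝ → Fin N → ℝ,
  (∀ t ∈ Icc t0 T, HasDerivWithinAt d (d' t) (Icc t0 T) t) → ContinuousOn d' (Icc t0 T) →
  ∀ t ∈ Icc t0 T,
    HasDerivWithinAt (fun s => (1 / 2) * ∫ x, a x * ‖fld φ (c s - d s) (X s x)‖ ^ 2)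
      (- nM (jac (fld φ (c t - d t))) ^ 2
        - (∫ x, ⟪jac (fld φ (d t)) x, jac (fld φ (c t - d t)) x⟫_ℝ)
        + (∫ x, a x * ⟪f t (X t x), fld φ (c t - d t) (X t x)⟫_ℝ)
        - ∫ x, a x * ⟪fld φ (d' t) (X t x)
            + fderiv ℝ (fld φ (d t)) (X t x) (fld φ (c t) (X t x)), fld φ (c t - d t) (X t x)⟫_ℝ)
      (Icc t0 T) t

/-- module BOOT -/
def StmBoot : Prop := ∀ (C T d ε : ℝ) (K : ℕ), 0 < C → 0 < T → 0 < d → d ≤ 1 → 0 < ε →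
  ∃ P : Par, P.T = T ∧ P.d = d ∧ K ≤ P.k0 ∧ ∀ (J : ℕ) (e e' n : ℝ → ℝ), 1 ≤ J →
    Continuous n → (∀ s, 0 ≤ n s) → (∀ s ∈ Icc (P.t J) T, 0 ≤ e s) → e (P.t J) = 0 →
    (∀ s ∈ Icc (P.t J) T, HasDerivWithinAt e (e' s) (Icc (P.t J) T) s) →
    (∀ j < J, ∀ s ∈ Icc (P.t (j + 1)) (P.t j), ∀ μ : ℝ, 0 < μ → μ ≤ 1 →
      e' s ≤ - n s ^ 2
        + C * P.F j s * P.r j ^ (-(3 / 2) : ℝ) * (((P.k j : ℝ) * P.r j)⁻¹ + P.r j ^ (3 / 2 : ℝ)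
          + μ ^ 8 + ((∫ τ in P.t J..s, n τ) / (P.A j * P.r j ^ (-(3 / 2) : ℝ))) ^ 5 * (μ ^ 15)⁻¹)
          * n s
        + C * (P.dA j / P.dl j ^ 2 * P.r j ^ (-(1 / 2) : ℝ)
          + P.F j s ^ 2 * P.r j ^ (-(7 / 2) : ℝ)) * n s
        + C * P.F j s * P.r j ^ (-(3 : ℝ)) * n s ^ 2) →
    ∫ τ in P.t J..T, n τ ≤ ε * (P.A 0 * P.r 0 ^ (-(3 / 2) : ℝ))

/-- module EST: the solution follows the main flow. -/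
def StmEst : Prop := ∀ (Ω : Set E3) (d T : ℝ), IsOpen Ω → Bornology.IsBounded Ω → 0 < d → d ≤ 1 →
  Metric.closedBall 0 (2 * d) ⊆ Ω → 0 < T → ∃ P : Par, P.d = d ∧ P.T = T ∧ ∃ γ : ℝ, 0 < γ ∧
  ∀ (σ : ℝ) (J N : ℕ) (φ : Fin N → E3 → E3) (c c' : ℝ → Fin N → ℝ) (X Y : ℝ → E3 → E3),
    (σ = 1 ∨ σ = -1) → 1 ≤ J → (∀ k, IsTest Ω (φ k)) → (∀ j < J, ∃ b, P.W j = fld φ b) →
    IsGal φ (P.t J) T (P.a σ J) P.f c c' X Y →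
    γ ≤ σ * ∫ s in P.t 1..T, ∫ x, ⟪jac (fld φ (c s)) x, jac (P.W 0) x⟫_ℝ

/-! ### Galerkin solutions -/

/-- module GAL -/
def StmGal : Prop := ∀ (Ω : Set E3) (N : ℕ) (φ : Fin N → E3 → E3), Bornology.IsBounded Ω →
  (∀ k, IsTest Ω (φ k)) → LinearIndependent ℝ φ → ∀ (t0 T : ℝ) (a : E3 → ℝ) (f : ℝ → E3 → E3)
  (L : ℝ), t0 < T → Measurable a → (∀ x, 1 ≤ a x ∧ a x ≤ 2) →
  (∀ s ∈ Icc t0 T, ∀ x y, ‖f s x - f s y‖ ≤ L * ‖x - y‖) →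
  (∀ s ∈ Icc t0 T, ∀ x, ‖f s x‖ ≤ L) → (∀ x, ContinuousOn (fun s => f s x) (Icc t0 T)) →
  ∃ (c c' : ℝ → Fin N → ℝ) (X Y : ℝ → E3 → E3), IsGal φ t0 T a f c c' X Y

/-- module FLOW: flows of time dependent divergence free fields with compact support. -/
def StmFlow : Prop := ∀ (Ω : Set E3) (N : ℕ) (φ : Fin N → E3 → E3), Bornology.IsBounded Ω →
  (∀ k, IsTest Ω (φ k)) → ∀ b : ℝ → Fin N → ℝ, Continuous b → (∃ M, ∀ s, ‖b s‖ ≤ M) →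
  ∀ t0 : ℝ, ∃ X Y : ℝ → E3 → E3,
    Continuous (fun p : ℝ × E3 => X p.1 p.2) ∧ Continuous (fun p : ℝ × E3 => Y p.1 p.2) ∧
    (∀ x, X t0 x = x) ∧ (∀ t x, X t (Y t x) = x) ∧ (∀ t x, Y t (X t x) = x) ∧
    (∀ t x, HasDerivAt (fun s => X s x) (fld φ (b t) (X t x)) t) ∧
    (∀ t, MeasurePreserving (X t) volume volume) ∧
    (∀ t x, x ∉ Ω → X t x = x)

/-- module CONV -/
def StmConv : Prop := ∀ (P : Par) (σ : ℝ), (σ = 1 ∨ σ = -1) →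
  (∀ J, Measurable (P.a σ J)) ∧ Measurable P.rho0 ∧ (∀ J x, P.a σ J x = 1 ∨ P.a σ J x = 2) ∧
  (∀ x, P.rho0 x = 1 ∨ P.rho0 x = 2) ∧
  ∀ Ω : Set E3, Bornology.IsBounded Ω →
    Tendsto (fun J => ∫ x in Ω, |P.a σ J x - P.rho0 x| ^ 2) atTop (𝓝 0)

/-- module DENSE -/
def StmDense : Prop := ∀ Ω : Set E3, IsOpen Ω → ∃ ψ : ℕ → E3 → E3, (∀ n, IsTest Ω (ψ n)) ∧
  ∀ φ, IsTest Ω φ → ∀ ε : ℝ, 0 < ε → ∃ n, nV (fun x => φ x - ψ n x) < ε ∧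
    nM (fun x => jac φ x - jac (ψ n) x) < ε

/-- module BASIS -/
def StmBasis : Prop := ∀ (Ω : Set E3) (m : ℕ) (v : Fin m → E3 → E3), (∀ i, IsTest Ω (v i)) →
  ∃ (N : ℕ) (φ : Fin N → E3 → E3), (∀ k, IsTest Ω (φ k)) ∧ LinearIndependent ℝ φ ∧
    ∀ i, ∃ b, v i = fld φ b

/-! ### Abstract limit theorems in Hilbert spaces -/

/-- Compact injection and density. -/
structure AFrame {H K : Type} [NormedAddCommGroup H] [InnerProductSpace ℝ H]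
    [NormedAddCommGroup K] [InnerProductSpace ℝ K] (W : Submodule ℝ (H × K)) (D : Set H) :
    Prop where
  closedW : IsClosed (W : Set (H × K))
  uniq : ∀ z : K, ((0 : H), z) ∈ W → z = 0
  comp : TotallyBounded {v : H | ∃ z, (v, z) ∈ W ∧ ‖z‖ ≤ 1}
  dens : ∀ p ∈ W, p.1 ∈ closure D
  mem : ∀ φ ∈ D, ∃ ψ, (φ, ψ) ∈ W

/-- module A1a: uniform convergence of asymptotically equicontinuous bounded families. -/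
def StmA1a : Prop := ∀ (H : Type) [NormedAddCommGroup H] [InnerProductSpace ℝ H] (D : Set H)
  (F : Filter ℕ) [F.NeBot] (T B : ℝ) (m : ℕ → ℝ → H) (m0 : ℝ → H),
  (∀ i, ∀ t ∈ Icc 0 T, ‖m i t‖ ≤ B) → (∀ t ∈ Icc 0 T, ‖m0 t‖ ≤ B) →
  (∀ φ ∈ D, ∀ ε : ℝ, 0 < ε → ∃ δ : ℝ, 0 < δ ∧ ∀ᶠ i in F, ∀ a ∈ Icc 0 T, ∀ b ∈ Icc 0 T,
    |a - b| < δ → |⟪m i a - m i b, φ⟫_ℝ| ≤ ε) →
  (∀ φ ∈ D, ∀ t ∈ Icc 0 T, Tendsto (fun i => ⟪m i t, φ⟫_ℝ) F (𝓝 ⟪m0 t, φ⟫_ℝ)) →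
  (∀ φ ∈ closure D, ContinuousOn (fun t => ⟪m0 t, φ⟫_ℝ) (Icc 0 T)) ∧
  (∀ φ ∈ closure D, ∀ ε : ℝ, 0 < ε → ∀ᶠ i in F, ∀ t ∈ Icc 0 T, |⟪m i t - m0 t, φ⟫_ℝ| ≤ ε)

/-- module A1b: uniformity on the unit ball of `W`, by compactness. -/
def StmA1b : Prop := ∀ (H K : Type) [NormedAddCommGroup H] [InnerProductSpace ℝ H]
  [NormedAddCommGroup K] [InnerProductSpace ℝ K]
  (W : Submodule ℝ (H × K)) (D : Set H), AFrame W D → ∀ (F : Filter ℕ) [F.NeBot] (T B : ℝ)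
  (m : ℕ → ℝ → H) (m0 : ℝ → H), (∀ i, ∀ t ∈ Icc 0 T, ‖m i t‖ ≤ B) →
  (∀ t ∈ Icc 0 T, ‖m0 t‖ ≤ B) →
  (∀ φ ∈ closure D, ∀ ε : ℝ, 0 < ε → ∀ᶠ i in F, ∀ t ∈ Icc 0 T, |⟪m i t - m0 t, φ⟫_ℝ| ≤ ε) →
  ∀ ε : ℝ, 0 < ε → ∀ᶠ i in F, ∀ t ∈ Icc 0 T, ∀ p ∈ W, |⟪m i t - m0 t, p.1⟫_ℝ| ≤ ε * ‖p.2‖

/-- Densities as operators: uniform bounds and uniform (in time) weak convergence. -/
structure AOps {H : Type} [NormedAddCommGroup H] [InnerProductSpace ℝ H] (F : Filter ℕ) (T : ℝ)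
    (R : ℕ → ℝ → H →L[ℝ] H) (R0 : ℝ → H →L[ℝ] H) : Prop where
  sa : ∀ i, ∀ t ∈ Icc 0 T, ∀ v w, ⟪R i t v, w⟫_ℝ = ⟪v, R i t w⟫_ℝ
  sa0 : ∀ t ∈ Icc 0 T, ∀ v w, ⟪R0 t v, w⟫_ℝ = ⟪v, R0 t w⟫_ℝ
  low : ∀ i, ∀ t ∈ Icc 0 T, ∀ v, ‖v‖ ^ 2 ≤ ⟪R i t v, v⟫_ℝ
  low0 : ∀ t ∈ Icc 0 T, ∀ v, ‖v‖ ^ 2 ≤ ⟪R0 t v, v⟫_ℝ
  up : ∀ i, ∀ t ∈ Icc 0 T, ∀ v, ‖R i t v‖ ≤ 2 * ‖v‖
  up0 : ∀ t ∈ Icc 0 T, ∀ v, ‖R0 t v‖ ≤ 2 * ‖v‖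
  cont : ∀ i v w, ContinuousOn (fun t => ⟪R i t v, w⟫_ℝ) (Icc 0 T)
  cont0 : ∀ v w, ContinuousOn (fun t => ⟪R0 t v, w⟫_ℝ) (Icc 0 T)
  unif : ∀ v w, ∀ ε : ℝ, 0 < ε → ∀ᶠ i in F, ∀ t ∈ Icc 0 T, |⟪R i t v - R0 t v, w⟫_ℝ| ≤ ε

/-- module A2 -/
def StmA2 : Prop := ∀ (H : Type) [NormedAddCommGroup H] [InnerProductSpace ℝ H]
  [CompleteSpace H] [SecondCountableTopology H] (F : Filter ℕ) [F.NeBot] (T : ℝ)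
  (R : ℕ → ℝ → H →L[ℝ] H) (R0 : ℝ → H →L[ℝ] H), 0 < T → AOps F T R R0 →
  ∀ (V Z : ℕ → ℝ → H) (V0 Z0 : ℝ → H), (∀ i, MemLp (V i) 2 (volume.restrict (Ioc 0 T))) →
  (∀ i, MemLp (Z i) 2 (volume.restrict (Ioc 0 T))) → MemLp V0 2 (volume.restrict (Ioc 0 T)) →
  MemLp Z0 2 (volume.restrict (Ioc 0 T)) →
  Tendsto (fun i => ∫ t in Ioc 0 T, ‖V i t - V0 t‖ ^ 2) F (𝓝 0) →
  Tendsto (fun i => ∫ t in Ioc 0 T, ‖Z i t - Z0 t‖ ^ 2) F (𝓝 0) →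
  AEStronglyMeasurable (fun t => R0 t (V0 t)) (volume.restrict (Ioc 0 T)) ∧
  (∀ i, AEStronglyMeasurable (fun t => R i t (V i t)) (volume.restrict (Ioc 0 T))) ∧
  ∀ s t, 0 ≤ s → s ≤ t → t ≤ T →
    Tendsto (fun i => ∫ τ in s..t, ⟪R i τ (V i τ), Z i τ⟫_ℝ) F
      (𝓝 (∫ τ in s..t, ⟪R0 τ (V0 τ), Z0 τ⟫_ℝ))

/-- The approximating family for A3. -/
structure AFam {H K : Type} [NormedAddCommGroup H] [InnerProductSpace ℝ H]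
    [NormedAddCommGroup K] [InnerProductSpace ℝ K] (W : Submodule ℝ (H × K)) (D : Set H)
    (F : Filter ℕ) (T M : ℝ) (R : ℕ → ℝ → H →L[ℝ] H) (u : ℕ → ℝ → H) (z : ℕ → ℝ → K) :
    Prop where
  memW : ∀ i, ∀ t ∈ Icc 0 T, (u i t, z i t) ∈ W
  ub : ∀ i, ∀ t ∈ Icc 0 T, ‖u i t‖ ≤ M
  uc : ∀ i, ContinuousOn (u i) (Icc 0 T)
  zc : ∀ i, ContinuousOn (z i) (Icc 0 T)
  zb : ∀ i, ∫ t in Ioc 0 T, ‖z i t‖ ^ 2 ≤ M ^ 2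
  equi : ∀ φ ∈ D, ∀ ε : ℝ, 0 < ε → ∃ δ : ℝ, 0 < δ ∧ ∀ᶠ i in F, ∀ a ∈ Icc 0 T, ∀ b ∈ Icc 0 T,
    |a - b| < δ → |⟪R i a (u i a) - R i b (u i b), φ⟫_ℝ| ≤ ε

/-- module A3: strong compactness. -/
def StmA3 : Prop := ∀ (H K : Type) [NormedAddCommGroup H] [InnerProductSpace ℝ H]
  [CompleteSpace H] [SecondCountableTopology H] [NormedAddCommGroup K] [InnerProductSpace ℝ K]
  [CompleteSpace K] [SecondCountableTopology K] (W : Submodule ℝ (H × K)) (D : Set H),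
  AFrame W D → ∀ (F : Ultrafilter ℕ) (T M : ℝ) (R : ℕ → ℝ → H →L[ℝ] H) (R0 : ℝ → H →L[ℝ] H)
  (u : ℕ → ℝ → H) (z : ℕ → ℝ → K), 0 < T → AOps (F : Filter ℕ) T R R0 →
  AFam W D (F : Filter ℕ) T M R u z →
  ∃ (U : ℝ → H) (Z : ℝ → K), MemLp U 2 (volume.restrict (Ioc 0 T)) ∧
    MemLp Z 2 (volume.restrict (Ioc 0 T)) ∧
    (∀ᵐ t ∂(volume.restrict (Ioc 0 T)), (U t, Z t) ∈ W) ∧
    Tendsto (fun i => ∫ t in Ioc 0 T, ‖u i t - U t‖ ^ 2) F (𝓝 0) ∧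
    (∀ y : ℝ → K, MemLp y 2 (volume.restrict (Ioc 0 T)) →
      Tendsto (fun i => ∫ t in Ioc 0 T, ⟪z i t, y t⟫_ℝ) F (𝓝 (∫ t in Ioc 0 T, ⟪Z t, y t⟫_ℝ))) ∧
    (∀ φ ∈ D, ∀ᵐ t ∂(volume.restrict (Ioc 0 T)),
      Tendsto (fun i => ⟪R i t (u i t), φ⟫_ℝ) F (𝓝 ⟪R0 t (U t), φ⟫_ℝ))

/-- module A4: weak continuity of the limit, if the densities converge strongly. -/
def StmA4 : Prop := ∀ (H K : Type) [NormedAddCommGroup H] [InnerProductSpace ℝ H]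
  [CompleteSpace H] [SecondCountableTopology H] [NormedAddCommGroup K] [InnerProductSpace ℝ K]
  [CompleteSpace K] [SecondCountableTopology K] (W : Submodule ℝ (H × K)) (D : Set H),
  AFrame W D → ∀ (F : Ultrafilter ℕ) (T M : ℝ) (R : ℕ → ℝ → H →L[ℝ] H) (R0 : ℝ → H →L[ℝ] H)
  (u : ℕ → ℝ → H) (z : ℕ → ℝ → K) (U : ℝ → H) (Z : ℝ → K), 0 < T →
  AOps (F : Filter ℕ) T R R0 → AFam W D (F : Filter ℕ) T M R u z →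
  MemLp U 2 (volume.restrict (Ioc 0 T)) → MemLp Z 2 (volume.restrict (Ioc 0 T)) →
  (∀ᵐ t ∂(volume.restrict (Ioc 0 T)), (U t, Z t) ∈ W) →
  Tendsto (fun i => ∫ t in Ioc 0 T, ‖u i t - U t‖ ^ 2) F (𝓝 0) →
  (∀ y : ℝ → K, MemLp y 2 (volume.restrict (Ioc 0 T)) →
      Tendsto (fun i => ∫ t in Ioc 0 T, ⟪z i t, y t⟫_ℝ) F (𝓝 (∫ t in Ioc 0 T, ⟪Z t, y t⟫_ℝ))) →
  (∀ φ ∈ D, ∀ᵐ t ∂(volume.restrict (Ioc 0 T)),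
      Tendsto (fun i => ⟪R i t (u i t), φ⟫_ℝ) F (𝓝 ⟪R0 t (U t), φ⟫_ℝ)) →
  -- strong convergence of the densities, at each time, and strong continuity in time
  (∀ t ∈ Icc 0 T, ∀ v, Tendsto (fun i => R i t v) F (𝓝 (R0 t v))) →
  (∀ v, ContinuousOn (fun t => R0 t v) (Icc 0 T)) →
  ∃ û : ℝ → H, (∀ t ∈ Icc 0 T, ‖û t‖ ≤ M) ∧ (∀ t ∈ Icc 0 T, û t ∈ closure D) ∧
    (∀ t ∈ Icc 0 T, ∀ v, Tendsto (fun i => ⟪u i t, v⟫_ℝ) F (𝓝 ⟪û t, v⟫_ℝ)) ∧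
    (∀ v, ContinuousOn (fun t => ⟪û t, v⟫_ℝ) (Icc 0 T)) ∧
    (∀ᵐ t ∂(volume.restrict (Ioc 0 T)), û t = U t) ∧
    (∀ t ∈ Icc 0 T, ∀ v, Tendsto (fun i => ⟪R i t (u i t), v⟫_ℝ) F (𝓝 ⟪R0 t (û t), v⟫_ℝ)) ∧
    -- lower semicontinuity of the energy
    (∀ t ∈ Icc 0 T, ∀ b : ℝ, (∀ᶠ i in F, ⟪R i t (u i t), u i t⟫_ℝ
        + 2 * (∫ s in (0 : ℝ)..t, ‖z i s‖ ^ 2) ≤ b) →
      ⟪R0 t (û t), û t⟫_ℝ + 2 * (∫ s in (0 : ℝ)..t, ‖Z s‖ ^ 2) ≤ b)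

/-! ### Multiplication operators -/

open Classical in
/-- multiplication by `ρ` (for `|ρ| ≤ 2`). -/
noncomputable def mulV {Ω : Set E3} (ρ : L2S Ω) (v : L2V Ω) : L2V Ω :=
  if h : MemLp (fun x => ρ x • v x) 2 (volume.restrict Ω) then h.toLp _ else 0

/-- module MULA: the operator `v ↦ Dφ v`, `φ` a test field, and multiplication tensor estimates. -/
def StmMulA : Prop := ∀ (Ω : Set E3) (φ : E3 → E3), IsTest Ω φ →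
  ∃ A : L2V Ω →L[ℝ] L2V Ω, ∀ v : L2V Ω,
    (A v : E3 → E3) =ᵐ[volume.restrict Ω] fun x => fderiv ℝ φ x (v x)

/-- module MUL -/
def StmMul : Prop := ∀ (Ω : Set E3), MeasurableSet Ω → ∀ ρ : L2S Ω,
  (∀ᵐ x ∂(volume.restrict Ω), 1 ≤ ρ x ∧ ρ x ≤ 2) →
  (∃ R : L2V Ω →L[ℝ] L2V Ω, (∀ v, R v = mulV ρ v)) ∧
  (∀ v : L2V Ω, (mulV ρ v : E3 → E3) =ᵐ[volume.restrict Ω] fun x => ρ x • v x) ∧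
  (∀ v w : L2V Ω, ⟪mulV ρ v, w⟫_ℝ = ∫ x in Ω, ρ x * ⟪v x, w x⟫_ℝ) ∧
  (∀ v w : L2V Ω, ⟪mulV ρ v, w⟫_ℝ = ⟪v, mulV ρ w⟫_ℝ) ∧
  (∀ v : L2V Ω, ‖v‖ ^ 2 ≤ ⟪mulV ρ v, v⟫_ℝ) ∧ (∀ v : L2V Ω, ‖mulV ρ v‖ ≤ 2 * ‖v‖) ∧
  -- strong convergence
  (∀ (ι : Type) (F : Filter ι) (ρi : ι → L2S Ω),
    (∀ i, ∀ᵐ x ∂(volume.restrict Ω), 1 ≤ ρi i x ∧ ρi i x ≤ 2) → Tendsto ρi F (𝓝 ρ) →
    ∀ v : L2V Ω, Tendsto (fun i => mulV (ρi i) v) F (𝓝 (mulV ρ v))) ∧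
  -- weak convergence, uniform in a parameter
  (∀ (ι S : Type) (F : Filter ι) (ρi : ι → S → L2S Ω) (ρ0 : S → L2S Ω),
    (∀ i s, ∀ᵐ x ∂(volume.restrict Ω), 1 ≤ ρi i s x ∧ ρi i s x ≤ 2) →
    (∀ s, ∀ᵐ x ∂(volume.restrict Ω), 1 ≤ ρ0 s x ∧ ρ0 s x ≤ 2) →
    (∀ g : L2S Ω, ∀ ε : ℝ, 0 < ε → ∀ᶠ i in F, ∀ s, |⟪ρi i s - ρ0 s, g⟫_ℝ| ≤ ε) →
    ∀ v w : L2V Ω, ∀ ε : ℝ, 0 < ε → ∀ᶠ i in F, ∀ s, |⟪mulV (ρi i s) v - mulV (ρ0 s) v, w⟫_ℝ| ≤ ε)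

/-! ### PDE modules -/

/-- module DPL: conservation of the `L²` norm of the density. -/
def StmDPL : Prop := ∀ (Ω : Set E3) (T : ℝ) (ρ : ℝ → L2S Ω) (u : ℝ → L2V Ω) (G : ℝ → L2M Ω),
  IsOpen Ω → Bornology.IsBounded Ω → 0 < T →
  (∀ t ∈ Icc 0 T, ∀ᵐ x ∂(volume.restrict Ω), 1 ≤ ρ t x ∧ ρ t x ≤ 2) →
  (∀ g : L2S Ω, ContinuousOn (fun t => ⟪ρ t, g⟫_ℝ) (Icc 0 T)) →
  MemLp u 2 (volume.restrict (Ioc 0 T)) → MemLp G 2 (volume.restrict (Ioc 0 T)) →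
  (∀ᵐ t ∂(volume.restrict (Ioc 0 T)), (u t, G t) ∈ H1graph Ω) →
  (∀ q : E3 → ℝ, ContDiff ℝ ∞ q → HasCompactSupport q → ∀ s t, 0 ≤ s → s ≤ t → t ≤ T →
    (∫ x in Ω, ρ t x * q x) - (∫ x in Ω, ρ s x * q x)
      = ∫ τ in s..t, ∫ x in Ω, ρ τ x * fderiv ℝ q x (u τ x)) →
  ∀ t ∈ Icc 0 T, ‖ρ t‖ = ‖ρ 0‖

/-- Solutions of the density dependent Navier-Stokes equations, integrated in time. -/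
structure IsIntSol (Ω : Set E3) (T : ℝ) (f : ℝ → L2V Ω) (ρ : ℝ → L2S Ω) (u : ℝ → L2V Ω)
    (G : ℝ → L2M Ω) : Prop where
  bd : ∀ t ∈ Icc 0 T, ∀ᵐ x ∂(volume.restrict Ω), 1 ≤ ρ t x ∧ ρ t x ≤ 2
  rcont : ContinuousOn ρ (Icc 0 T)
  ubd : ∃ M, ∀ t ∈ Icc 0 T, ‖u t‖ ≤ M
  usol : ∀ t ∈ Icc 0 T, u t ∈ L2sigma Ω
  ucont : ∀ v : L2V Ω, ContinuousOn (fun t => ⟪u t, v⟫_ℝ) (Icc 0 T)
  grad : ∀ᵐ t ∂(volume.restrict (Ioc 0 T)), (u t, G t) ∈ H1graph Ω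
  gradL2 : MemLp G 2 (volume.restrict (Ioc 0 T))
  force : MemLp f 2 (volume.restrict (Ioc 0 T))
  transport : ∀ q : E3 → ℝ, ContDiff ℝ ∞ q → HasCompactSupport q → ∀ s t, 0 ≤ s → s ≤ t → t ≤ T →
    (∫ x in Ω, ρ t x * q x) - (∫ x in Ω, ρ s x * q x)
      = ∫ τ in s..t, ∫ x in Ω, ρ τ x * fderiv ℝ q x (u τ x)
  momentum : ∀ φ, IsTest Ω φ → ∀ s t, 0 ≤ s → s ≤ t → t ≤ T →
    (∫ x in Ω, ρ t x * ⟪u t x, φ x⟫_ℝ) - (∫ x in Ω, ρ s x * ⟪u s x, φ x⟫_ℝ)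
      = ∫ τ in s..t, ((∫ x in Ω, ρ τ x * ⟪u τ x, fderiv ℝ φ x (u τ x)⟫_ℝ)
          - (∫ x in Ω, ⟪G τ x, jac φ x⟫_ℝ) + ∫ x in Ω, ρ τ x * ⟪f τ x, φ x⟫_ℝ)

/-- module TESTR: the continuity equation with space-time test functions. -/
def StmTestR : Prop := ∀ (Ω : Set E3) (T : ℝ) (f : ℝ → L2V Ω) (ρ : ℝ → L2S Ω) (u : ℝ → L2V Ω)
  (G : ℝ → L2M Ω), IsOpen Ω → Bornology.IsBounded Ω → 0 < T → IsIntSol Ω T f ρ u G →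
  ∀ ψ : ℝ → E3 → ℝ, ContDiff ℝ ∞ (fun p : ℝ × E3 => ψ p.1 p.2) →
    HasCompactSupport (fun p : ℝ × E3 => ψ p.1 p.2) →
    tsupport (fun p : ℝ × E3 => ψ p.1 p.2) ⊆ Iio T ×ˢ univ →
    ∫ t in Ioo 0 T, ∫ x in Ω, ρ t x * (dt ψ t x + fderiv ℝ (ψ t) x (u t x))
      = - ∫ x in Ω, ρ 0 x * ψ 0 x

/-- module TESTM: the momentum equation with space-time test fields, full symmetric gradient. -/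
def StmTestM : Prop := ∀ (Ω : Set E3) (T : ℝ) (f : ℝ → L2V Ω) (ρ : ℝ → L2S Ω) (u : ℝ → L2V Ω)
  (G : ℝ → L2M Ω), IsOpen Ω → Bornology.IsBounded Ω → 0 < T → IsIntSol Ω T f ρ u G → u 0 = 0 →
  ∀ φ, IsTestT Ω T φ →
    ∫ t in Ioo 0 T, ∫ x in Ω,
      (ρ t x * ⟪u t x, dt φ t x⟫_ℝ
        + ρ t x * ∑ i, ∑ j, u t x i * u t x j * jac (φ t) x (i, j)
        - ∑ i, ∑ j, (G t x (i, j) + G t x (j, i)) * jac (φ t) x (i, j)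
        + ρ t x * ⟪f t x, φ t x⟫_ℝ) = 0

/-- classes of functions -/
def ClsV {Ω : Set E3} (v : L2V Ω) (φ : E3 → E3) : Prop := (v : E3 → E3) =ᵐ[volume.restrict Ω] φ
def ClsS {Ω : Set E3} (v : L2S Ω) (φ : E3 → ℝ) : Prop := (v : E3 → ℝ) =ᵐ[volume.restrict Ω] φ

def ClsM {Ω : Set E3} (v : L2M Ω) (φ : E3 → M3) : Prop := (v : E3 → M3) =ᵐ[volume.restrict Ω] φ

/-- The integrand of the momentum equation. -/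
noncomputable def momI {Ω : Set E3} (ρ : L2S Ω) (u : L2V Ω) (z : L2M Ω) (g : L2V Ω)
    (φ : E3 → E3) : ℝ :=
  (∫ x in Ω, ρ x * ⟪u x, fderiv ℝ φ x (u x)⟫_ℝ) - (∫ x in Ω, ⟪z x, jac φ x⟫_ℝ)
    + ∫ x in Ω, ρ x * ⟪g x, φ x⟫_ℝ

/-- One approximate solution in terms of classes. -/
structure JSol (Ω : Set E3) (t0 T M : ℝ) (fL : ℝ → L2V Ω) (ρ : ℝ → L2S Ω)
    (u : ℝ → L2V Ω) (z : ℝ → L2M Ω) : Prop where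
  bd : ∀ t ∈ Icc 0 T, ∀ᵐ x ∂(volume.restrict Ω), 1 ≤ ρ t x ∧ ρ t x ≤ 2
  rc : ContinuousOn ρ (Icc 0 T)
  rn : ∀ t ∈ Icc 0 T, ‖ρ t‖ = ‖ρ 0‖
  tr : ∀ q : E3 → ℝ, ContDiff ℝ ∞ q → HasCompactSupport q → ∀ s t, 0 ≤ s → s ≤ t → t ≤ T →
    (∫ x in Ω, ρ t x * q x) - (∫ x in Ω, ρ s x * q x)
      = ∫ τ in s..t, ∫ x in Ω, ρ τ x * fderiv ℝ q x (u τ x)
  memW : ∀ t ∈ Icc 0 T, (u t, z t) ∈ graphW Ω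
  ub : ∀ t ∈ Icc 0 T, ‖u t‖ ≤ M
  uc : ContinuousOn u (Icc 0 T)
  zc : ContinuousOn z (Icc 0 T)
  zb : ∫ t in Ioc 0 T, ‖z t‖ ^ 2 ≤ M ^ 2
  u0 : ∀ t ∈ Icc 0 t0, u t = 0
  en : ∀ t ∈ Icc 0 T, (1 / 2) * ⟪mulV (ρ t) (u t), u t⟫_ℝ + (∫ s in (0 : ℝ)..t, ‖z s‖ ^ 2)
    = ∫ s in (0 : ℝ)..t, ⟪mulV (ρ s) (fL s), u s⟫_ℝ

/-- module J: a Galerkin solution in terms of classes. -/
def StmJ : Prop := ∀ T K : ℝ, 0 < T → ∃ M : ℝ, ∀ (Ω : Set E3) (N : ℕ) (φ : Fin N → E3 → E3)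
  (t0 : ℝ) (a : E3 → ℝ) (f : ℝ → E3 → E3) (c c' : ℝ → Fin N → ℝ) (X Y : ℝ → E3 → E3)
  (fL : ℝ → L2V Ω), IsOpen Ω → Bornology.IsBounded Ω → (∀ k, IsTest Ω (φ k)) → 0 < t0 → t0 < T →
  Measurable a → (∀ x, 1 ≤ a x ∧ a x ≤ 2) → (∀ t ∈ Icc t0 T, Continuous (f t)) →
  (∀ s, Integrable (fun x => ‖f s x‖ ^ 2) ∧ ∫ x, ‖f s x‖ ^ 2 ≤ K) →
  (∀ s, ClsV (fL s) (f s)) → StronglyMeasurable fL → IsGal φ t0 T a f c c' X Y →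
  ∃ (ρ : ℝ → L2S Ω) (u : ℝ → L2V Ω) (z : ℝ → L2M Ω), JSol Ω t0 T M fL ρ u z ∧
    ClsS (ρ 0) a ∧ (∀ t, ClsV (u t) (fld φ (c t))) ∧ (∀ t, ClsM (z t) (jac (fld φ (c t)))) ∧
    ∀ b : Fin N → ℝ, ∀ s t, t0 ≤ s → s ≤ t → t ≤ T →
      (∫ x in Ω, ρ t x * ⟪u t x, fld φ b x⟫_ℝ) - (∫ x in Ω, ρ s x * ⟪u s x, fld φ b x⟫_ℝ)
        = ∫ τ in s..t, momI (ρ τ) (u τ) (z τ) (fL τ) (fld φ b)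

/-- module LIMJ: limit of a sequence of approximate solutions. -/
def StmLimJ : Prop := ∀ (Ω : Set E3) (T M K : ℝ) (fL : ℝ → L2V Ω) (τ : ℕ → ℝ) (ρ : ℕ → ℝ → L2S Ω)
  (u : ℕ → ℝ → L2V Ω) (z : ℕ → ℝ → L2M Ω) (ψ : ℕ → E3 → E3) (ρ0L : L2S Ω),
  IsOpen Ω → Bornology.IsBounded Ω → 0 < T → StronglyMeasurable fL → (∀ s, ‖fL s‖ ≤ K) →
  (∀ J, 0 < τ J ∧ τ J < T) → Tendsto τ atTop (𝓝 0) →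
  (∀ J, JSol Ω (τ J) T M fL (ρ J) (u J) (z J)) → Tendsto (fun J => ρ J 0) atTop (𝓝 ρ0L) →
  (∀ n, IsTest Ω (ψ n)) →
  (∀ φ, IsTest Ω φ → ∀ ε : ℝ, 0 < ε → ∃ n, nV (fun x => φ x - ψ n x) < ε ∧
    nM (fun x => jac φ x - jac (ψ n) x) < ε) →
  (∀ n, ∀ᶠ J in atTop, ∀ s t, τ J ≤ s → s ≤ t → t ≤ T →
      (∫ x in Ω, ρ J t x * ⟪u J t x, ψ n x⟫_ℝ) - (∫ x in Ω, ρ J s x * ⟪u J s x, ψ n x⟫_ℝ)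
        = ∫ r in s..t, momI (ρ J r) (u J r) (z J r) (fL r) (ψ n)) →
  ∃ (ρ' : ℝ → L2S Ω) (u' : ℝ → L2V Ω) (G : ℝ → L2M Ω), IsIntSol Ω T fL ρ' u' G ∧ ρ' 0 = ρ0L ∧
    u' 0 = 0 ∧
    (∀ t ∈ Icc 0 T, (1 / 2) * (∫ x in Ω, ρ' t x * ‖u' t x‖ ^ 2) + (∫ s in (0 : ℝ)..t, ‖G s‖ ^ 2)
      ≤ ∫ s in (0 : ℝ)..t, ∫ x in Ω, ρ' s x * ⟪fL s x, u' s x⟫_ℝ) ∧
    (∀ Z, IsTest Ω Z → ∀ s ∈ Icc 0 T, ∀ (σ γ : ℝ), (∀ᶠ J in atTop,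
        γ ≤ σ * ∫ t in s..T, ∫ x in Ω, ⟪z J t x, jac Z x⟫_ℝ) →
      γ ≤ σ * ∫ t in s..T, ∫ x in Ω, ⟪G t x, jac Z x⟫_ℝ)

/-- module LIM: limit of Galerkin solutions. -/
def StmLim : Prop := ∀ (Ω : Set E3) (T K : ℝ) (ρ0 : E3 → ℝ) (f : ℝ → E3 → E3) (τ : ℕ → ℝ)
  (a : ℕ → E3 → ℝ) (N : ℕ → ℕ) (φ : ∀ J, Fin (N J) → E3 → E3) (c c' : ∀ J, ℝ → Fin (N J) → ℝ)
  (X Y : ℕ → ℝ → E3 → E3) (ψ : ℕ → E3 → E3) (ρ0L : L2S Ω) (fL : ℝ → L2V Ω),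
  IsOpen Ω → Bornology.IsBounded Ω → 0 < T → Measurable ρ0 → (∀ x, 1 ≤ ρ0 x ∧ ρ0 x ≤ 2) →
  ClsS ρ0L ρ0 → (∀ s, ClsV (fL s) (f s)) →
  StronglyMeasurable fL →
  (∀ s, Integrable (fun x => ‖f s x‖ ^ 2) ∧ ∫ x, ‖f s x‖ ^ 2 ≤ K) →
  (∀ J, 0 < τ J ∧ τ J < T) → Tendsto τ atTop (𝓝 0) →
  (∀ J, ∀ t ∈ Icc (τ J) T, Continuous (f t)) →
  (∀ J, Measurable (a J)) → (∀ J x, 1 ≤ a J x ∧ a J x ≤ 2) →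
  Tendsto (fun J => ∫ x in Ω, |a J x - ρ0 x| ^ 2) atTop (𝓝 0) →
  (∀ J k, IsTest Ω (φ J k)) →
  (∀ n, IsTest Ω (ψ n)) →
  (∀ φ, IsTest Ω φ → ∀ ε : ℝ, 0 < ε → ∃ n, nV (fun x => φ x - ψ n x) < ε ∧
    nM (fun x => jac φ x - jac (ψ n) x) < ε) →
  (∀ n, ∀ᶠ J in atTop, ∃ b, ψ n = fld (φ J) b) →
  (∀ J, IsGal (φ J) (τ J) T (a J) f (c J) (c' J) (X J) (Y J)) →
  ∃ (ρ : ℝ → L2S Ω) (u : ℝ → L2V Ω) (G : ℝ → L2M Ω), IsIntSol Ω T fL ρ u G ∧ ρ 0 = ρ0L ∧ u 0 = 0 ∧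
    (∀ t ∈ Icc 0 T, (1 / 2) * (∫ x in Ω, ρ t x * ‖u t x‖ ^ 2) + (∫ s in (0 : ℝ)..t, ‖G s‖ ^ 2)
      ≤ ∫ s in (0 : ℝ)..t, ∫ x in Ω, ρ s x * ⟪fL s x, u s x⟫_ℝ) ∧
    (∀ Z, IsTest Ω Z → ∀ s ∈ Icc 0 T, ∀ (σ γ : ℝ), (∀ᶠ J in atTop,
        γ ≤ σ * ∫ t in s..T, ∫ x, ⟪jac (fld (φ J) (c J t)) x, jac Z x⟫_ℝ) →
      γ ≤ σ * ∫ t in s..T, ∫ x in Ω, ⟪G t x, jac Z x⟫_ℝ)

end N979MH
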