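import Mathlib
import Pool.Agent.N979.MH.Stm

/-!
Project MH, module A1 (helper50): uniform convergence of equicontinuous families.
-/

open MeasureTheory Set Filter Topology
open scoped InnerProductSpace

namespace N979MH.A1

/-- An asymptotically equicontinuous, pointwise convergent family converges uniformly. -/
theorem unif {F : Filter ℕ} [F.NeBot] {T : ℝ} {f : ℕ → ℝ → ℝ} {g : ℝ → ℝ}
    (heq : ∀ ε : ℝ, 0 < ε → ∃ δ : ℝ, 0 < δ ∧ ∀ᶠ i in F, ∀ a ∈ Icc 0 T, ∀ b ∈ Icc 0 T,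
      |a - b| < δ → |f i a - f i b| ≤ ε)
    (hlim : ∀ t ∈ Icc 0 T, Tendsto (fun i => f i t) F (𝓝 (g t))) :
    (∀ ε : ℝ, 0 < ε → ∀ᶠ i in F, ∀ t ∈ Icc 0 T, |f i t - g t| ≤ ε) ∧ ContinuousOn g (Icc 0 T) := by
  have hg : ∀ ε : ℝ, 0 < ε → ∃ δ : ℝ, 0 < δ ∧ ∀ a ∈ Icc 0 T, ∀ b ∈ Icc 0 T, |a - b| < δ →
      |g a - g b| ≤ ε := by
    intro ε hε
    obtain ⟨δ, hδ, h⟩ := heq ε hε
    refine ⟨δ, hδ, fun a ha b hb hab => ?_⟩
    exact le_of_tendsto ((hlim a ha).sub (hlim b hb)).abs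
      (h.mono fun i hi => hi a ha b hb hab)
  constructor
  · intro ε hε
    obtain ⟨δ1, hδ1, h1⟩ := heq (ε / 3) (by positivity)
    obtain ⟨δ2, hδ2, h2⟩ := hg (ε / 3) (by positivity)
    set δ := min δ1 δ2 with hδ
    have hδ0 : 0 < δ := lt_min hδ1 hδ2
    obtain ⟨t, htI, htfin, htcov⟩ : ∃ t ⊆ Icc (0 : ℝ) T, t.Finite ∧
        Icc (0 : ℝ) T ⊆ ⋃ y ∈ t, Metric.ball y δ :=
      (isCompact_Icc (a := (0 : ℝ)) (b := T)).finite_cover_balls hδ0
    have hev : ∀ᶠ i in F, ∀ s ∈ t, |f i s - g s| ≤ ε / 3 := by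
      rw [eventually_all_finite htfin]
      intro s hs
      have := (tendsto_iff_norm_sub_tendsto_zero.mp (hlim s (htI hs)))
      have h3 := this.eventually (gt_mem_nhds (show (0 : ℝ) < ε / 3 by positivity))
      filter_upwards [h3] with i hi using (by rw [Real.norm_eq_abs] at hi; exact hi.le)
    filter_upwards [hev, h1] with i hi h1i s hs
    obtain ⟨y, hy, hsy⟩ := mem_iUnion₂.mp (htcov hs)
    have hd : |s - y| < δ := by rwa [Metric.mem_ball, Real.dist_eq] at hsy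
    have k1 := h1i s hs y (htI hy) (hd.trans_le (min_le_left _ _))
    have k2 := h2 s hs y (htI hy) (hd.trans_le (min_le_right _ _))
    have k3 := hi y hy
    rw [abs_le] at *
    constructor <;> linarith [k1.1, k1.2, k2.1, k2.2, k3.1, k3.2]
  · intro t ht
    rw [Metric.continuousWithinAt_iff]
    intro ε hε
    obtain ⟨δ, hδ, h⟩ := hg (ε / 2) (by positivity)
    refine ⟨δ, hδ, fun s hs hst => ?_⟩
    rw [Real.dist_eq] at hst ⊢
    have := h s hs t ht hst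
    linarith

end N979MH.A1

namespace N979MH

theorem a1a_holds : StmA1a := by
  intro H _ _ D F _ T B m m0 hm hm0 heq hlim
  have hB : 0 < |B| + 1 := by positivity
  have hmb : ∀ i, ∀ t ∈ Icc 0 T, ‖m i t‖ ≤ |B| + 1 := fun i t ht =>
    (hm i t ht).trans (by linarith [le_abs_self B])
  have hm0b : ∀ t ∈ Icc 0 T, ‖m0 t‖ ≤ |B| + 1 := fun t ht =>
    (hm0 t ht).trans (by linarith [le_abs_self B])
  have hD : ∀ φ ∈ D, (∀ ε : ℝ, 0 < ε → ∀ᶠ i in F, ∀ t ∈ Icc 0 T, |⟪m i t, φ⟫_ℝ - ⟪m0 t, φ⟫_ℝ| ≤ ε) ∧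
      ContinuousOn (fun t => ⟪m0 t, φ⟫_ℝ) (Icc 0 T) := by
    intro φ hφ
    refine A1.unif (f := fun i t => ⟪m i t, φ⟫_ℝ) ?_ (hlim φ hφ)
    intro ε hε
    obtain ⟨δ, hδ, h⟩ := heq φ hφ ε hε
    refine ⟨δ, hδ, h.mono fun i hi a ha b hb hab => ?_⟩
    rw [← inner_sub_left]
    exact hi a ha b hb hab
  -- comparison
  have key : ∀ φ ψ x : H, ∀ C : ℝ, ‖x‖ ≤ C → |⟪x, φ⟫_ℝ| ≤ |⟪x, ψ⟫_ℝ| + C * ‖φ - ψ‖ := by
    intro φ ψ x C hx
    have h1 : ⟪x, φ⟫_ℝ = ⟪x, ψ⟫_ℝ + ⟪x, φ - ψ⟫_ℝ := by rw [inner_sub_right]; ring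
    rw [h1]
    refine (abs_add_le _ _).trans ?_
    have h2 := abs_real_inner_le_norm x (φ - ψ)
    have h3 : ‖x‖ * ‖φ - ψ‖ ≤ C * ‖φ - ψ‖ := mul_le_mul_of_nonneg_right hx (norm_nonneg _)
    linarith
  constructor
  · intro φ hφ t ht
    rw [Metric.continuousWithinAt_iff]
    intro ε hε
    obtain ⟨ψ, hψ, hd⟩ := Metric.mem_closure_iff.1 hφ (ε / (4 * (|B| + 1))) (by positivity)
    rw [dist_eq_norm] at hd
    have hc := (hD ψ hψ).2 t ht
    rw [Metric.continuousWithinAt_iff] at hc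
    obtain ⟨δ, hδ, h⟩ := hc (ε / 2) (by positivity)
    refine ⟨δ, hδ, fun s hs hst => ?_⟩
    have h1 := h hs hst
    rw [Real.dist_eq, ← inner_sub_left] at h1 ⊢
    have h2 := key φ ψ (m0 s - m0 t) (2 * (|B| + 1)) (by
      refine (norm_sub_le _ _).trans ?_
      linarith [hm0b s hs, hm0b t ht])
    have h3 : 2 * (|B| + 1) * ‖φ - ψ‖ < ε / 2 := by
      have : 2 * (|B| + 1) * ‖φ - ψ‖ < 2 * (|B| + 1) * (ε / (4 * (|B| + 1))) :=
        mul_lt_mul_of_pos_left hd (by positivity)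
      refine this.trans_le (le_of_eq ?_)
      field_simp
      ring
    linarith
  · intro φ hφ ε hε
    obtain ⟨ψ, hψ, hd⟩ := Metric.mem_closure_iff.1 hφ (ε / (4 * (|B| + 1))) (by positivity)
    rw [dist_eq_norm] at hd
    filter_upwards [(hD ψ hψ).1 (ε / 2) (by positivity)] with i hi t ht
    have h1 := hi t ht
    rw [← inner_sub_left] at h1
    have h2 := key φ ψ (m i t - m0 t) (2 * (|B| + 1)) (by
      refine (norm_sub_le _ _).trans ?_
      linarith [hm0b t ht, hmb i t ht])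
    have h3 : 2 * (|B| + 1) * ‖φ - ψ‖ < ε / 2 := by
      have : 2 * (|B| + 1) * ‖φ - ψ‖ < 2 * (|B| + 1) * (ε / (4 * (|B| + 1))) :=
        mul_lt_mul_of_pos_left hd (by positivity)
      refine this.trans_le (le_of_eq ?_)
      field_simp
      ring
    linarith

theorem a1b_holds : StmA1b := by
  intro H K _ _ _ _ W D hW F _ T B m m0 hm hm0 hconv ε hε
  have hB : 0 < |B| + 1 := by positivity
  set S : Set H := {v : H | ∃ z, (v, z) ∈ W ∧ ‖z‖ ≤ 1} with hS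
  obtain ⟨t, htS, htfin, htcov⟩ := Metric.finite_approx_of_totallyBounded hW.comp
    (ε / (4 * (|B| + 1))) (by positivity)
  have hev : ∀ᶠ i in F, ∀ y ∈ t, ∀ s ∈ Icc 0 T, |⟪m i s - m0 s, y⟫_ℝ| ≤ ε / 2 := by
    rw [eventually_all_finite htfin]
    intro y hy
    obtain ⟨z, hz, -⟩ := htS hy
    exact hconv y (hW.dens _ hz) (ε / 2) (by positivity)
  filter_upwards [hev] with i hi s hs
  have hbd : ‖m i s - m0 s‖ ≤ 2 * (|B| + 1) := by
    refine (norm_sub_le _ _).trans ?_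
    linarith [hm i s hs, hm0 s hs, le_abs_self B]
  have hSb : ∀ v ∈ S, |⟪m i s - m0 s, v⟫_ℝ| ≤ ε := by
    intro v hv
    obtain ⟨y, hy, hvy⟩ := mem_iUnion₂.mp (htcov hv)
    rw [Metric.mem_ball, dist_eq_norm] at hvy
    have h1 : ⟪m i s - m0 s, v⟫_ℝ = ⟪m i s - m0 s, y⟫_ℝ + ⟪m i s - m0 s, v - y⟫_ℝ := by
      rw [inner_sub_right]; ring
    rw [h1]
    refine (abs_add_le _ _).trans ?_
    have h2 := abs_real_inner_le_norm (m i s - m0 s) (v - y)
    have h3 : ‖m i s - m0 s‖ * ‖v - y‖ ≤ 2 * (|B| + 1) * (ε / (4 * (|B| + 1))) :=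
      mul_le_mul hbd hvy.le (norm_nonneg _) (by positivity)
    have h4 : 2 * (|B| + 1) * (ε / (4 * (|B| + 1))) = ε / 2 := by field_simp; ring
    have h5 := hi y hy s hs
    linarith
  intro p hp
  rcases eq_or_lt_of_le (norm_nonneg p.2) with h0 | h0
  · rw [← h0, mul_zero]
    have hz : p.2 = 0 := norm_eq_zero.1 h0.symm
    have hn : ∀ n : ℕ, (n : ℝ) * |⟪m i s - m0 s, p.1⟫_ℝ| ≤ ε := by
      intro n
      have hmem : (n : ℝ) • p.1 ∈ S := by
        refine ⟨(n : ℝ) • p.2, ?_, ?_⟩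
        · exact W.smul_mem (n : ℝ) hp
        · rw [hz, smul_zero, norm_zero]; exact zero_le_one
      have := hSb _ hmem
      rwa [inner_smul_right, abs_mul, Nat.abs_cast] at this
    by_contra hcon
    push Not at hcon
    obtain ⟨n, hn'⟩ := exists_nat_gt (ε / |⟪m i s - m0 s, p.1⟫_ℝ|)
    have := hn n
    rw [div_lt_iff₀ hcon] at hn'
    linarith
  · have hmem : (‖p.2‖)⁻¹ • p.1 ∈ S := by
      refine ⟨(‖p.2‖)⁻¹ • p.2, W.smul_mem _ hp, ?_⟩
      rw [norm_smul, norm_inv, norm_norm, inv_mul_cancel₀ h0.ne']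
    have h1 := hSb _ hmem
    rw [inner_smul_right, abs_mul, abs_of_pos (inv_pos.2 h0)] at h1
    have h2 := mul_le_mul_of_nonneg_left h1 h0.le
    rw [← mul_assoc, mul_inv_cancel₀ h0.ne', one_mul] at h2
    linarith

end N979MH
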