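import Pool.Agent.N979.MH.Stm

/-!
Project MH, module A2: integrals of `⟪R_i V_i, Z_i⟫` converge.
-/

set_option autoImplicit false

open MeasureTheory Set Filter Topology
open scoped InnerProductSpace ENNReal ContDiff NNReal

namespace N979MH

namespace A2

variable {H : Type} [NormedAddCommGroup H] [InnerProductSpace ℝ H]
  [CompleteSpace H] [SecondCountableTopology H]

/-- an orthonormal family in a separable space is countable -/
theorem countable_of_orthonormal {w : Set H} (h : Orthonormal ℝ ((↑) : w → H)) : Countable w := by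
  have hd : ∀ x ∈ w, ∀ y ∈ w, x ≠ y → 1 < dist x y := by
    intro x hx y hy hxy
    have h1 : ‖x‖ = 1 := h.1 ⟨x, hx⟩
    have h2 : ‖y‖ = 1 := h.1 ⟨y, hy⟩
    have h3 : ⟪x, y⟫_ℝ = 0 := h.2 (i := ⟨x, hx⟩) (j := ⟨y, hy⟩)
      (fun he => hxy (congrArg Subtype.val he))
    have h4 : ‖x - y‖ ^ 2 = 2 := by
      rw [norm_sub_sq_real, h1, h2, h3]; norm_num
    rw [dist_eq_norm]
    nlinarith [norm_nonneg (x - y)]
  have hc : w.Countable := by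
    refine Set.PairwiseDisjoint.countable_of_isOpen (s := fun x => Metric.ball x (1 / 2)) ?_
      (fun _ _ => Metric.isOpen_ball) (fun x _ => ⟨x, Metric.mem_ball_self (by norm_num)⟩)
    intro x hx y hy hxy
    refine Metric.ball_disjoint_ball ?_
    have := hd x hx y hy hxy
    linarith
  exact hc.to_subtype

/-- weak measurability implies measurability -/
theorem aesm_of_weak {α : Type*} [MeasurableSpace α] {μ : Measure α} {f : α → H}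
    (h : ∀ w, AEStronglyMeasurable (fun t => ⟪w, f t⟫_ℝ) μ) : AEStronglyMeasurable f μ := by
  obtain ⟨w, b, hb⟩ := exists_hilbertBasis ℝ H
  have hc : Countable w := countable_of_orthonormal (hb ▸ b.orthonormal)
  refine aestronglyMeasurable_of_tendsto_ae atTop
    (f := fun (s : Finset w) t => ∑ i ∈ s, ⟪b i, f t⟫_ℝ • b i) (fun s => ?_) ?_
  · refine Finset.aestronglyMeasurable_fun_sum _ fun i _ => ?_
    exact (h (b i)).smul_const _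
  · refine Eventually.of_forall fun t => ?_
    have := b.hasSum_repr (f t)
    simp only [b.repr_apply_apply] at this
    exact this

/-- data of a family of operators on an interval -/
structure Fam (T : ℝ) (S : ℝ → H →L[ℝ] H) : Prop where
  sa : ∀ t ∈ Icc 0 T, ∀ v w, ⟪S t v, w⟫_ℝ = ⟪v, S t w⟫_ℝ
  up : ∀ t ∈ Icc 0 T, ∀ v, ‖S t v‖ ≤ 2 * ‖v‖
  cont : ∀ v w, ContinuousOn (fun t => ⟪S t v, w⟫_ℝ) (Icc 0 T)

omit [CompleteSpace H] [SecondCountableTopology H] in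
theorem ae_mem (s t : ℝ) {T : ℝ} (hs : 0 ≤ s) (ht : t ≤ T) :
    ∀ᵐ τ ∂(volume.restrict (Ioc s t)), τ ∈ Icc 0 T := by
  filter_upwards [ae_restrict_mem measurableSet_Ioc] with τ hτ
  exact ⟨hs.trans hτ.1.le, hτ.2.trans ht⟩

theorem Fam.aesm_const {T : ℝ} {S : ℝ → H →L[ℝ] H} (hS : Fam T S) {s t : ℝ} (hs : 0 ≤ s)
    (ht : t ≤ T) (v : H) : AEStronglyMeasurable (fun τ => S τ v) (volume.restrict (Ioc s t)) := by
  refine aesm_of_weak fun w => ?_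
  have h1 : ContinuousOn (fun τ => ⟪w, S τ v⟫_ℝ) (Ioc s t) := by
    refine ((hS.cont v w).mono fun τ hτ => ⟨hs.trans hτ.1.le, hτ.2.trans ht⟩).congr ?_
    intro τ _
    simp only [real_inner_comm]
  exact h1.aestronglyMeasurable measurableSet_Ioc

theorem Fam.aesm {T : ℝ} {S : ℝ → H →L[ℝ] H} (hS : Fam T S) {s t : ℝ} (hs : 0 ≤ s)
    (ht : t ≤ T) {V : ℝ → H} (hV : AEStronglyMeasurable V (volume.restrict (Ioc s t))) :
    AEStronglyMeasurable (fun τ => S τ (V τ)) (volume.restrict (Ioc s t)) := by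
  refine aesm_of_weak fun w => ?_
  refine ((hS.aesm_const hs ht w).inner hV).congr ?_
  filter_upwards [ae_mem s t hs ht] with τ hτ
  exact hS.sa τ hτ w (V τ)

variable {T s t : ℝ} {S : ℝ → H →L[ℝ] H}

theorem Fam.memLp (hS : Fam T S) (hs : 0 ≤ s) (ht : t ≤ T)
    (v : Lp H 2 (volume.restrict (Ioc s t))) :
    MemLp (fun τ => S τ (v τ)) 2 (volume.restrict (Ioc s t)) := by
  refine MemLp.of_le_mul (c := 2) (Lp.memLp v) (hS.aesm hs ht (Lp.aestronglyMeasurable v)) ?_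
  filter_upwards [ae_mem s t hs ht] with τ hτ
  exact hS.up τ hτ _

/-- the operator on `L²(s,t;H)` -/
noncomputable def Fam.op (hS : Fam T S) (hs : 0 ≤ s) (ht : t ≤ T)
    (v : Lp H 2 (volume.restrict (Ioc s t))) : Lp H 2 (volume.restrict (Ioc s t)) :=
  (hS.memLp hs ht v).toLp _

theorem Fam.op_coe (hS : Fam T S) (hs : 0 ≤ s) (ht : t ≤ T)
    (v : Lp H 2 (volume.restrict (Ioc s t))) :
    (hS.op hs ht v : ℝ → H) =ᵐ[volume.restrict (Ioc s t)] fun τ => S τ (v τ) :=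
  (hS.memLp hs ht v).coeFn_toLp

theorem Fam.norm_op (hS : Fam T S) (hs : 0 ≤ s) (ht : t ≤ T)
    (v : Lp H 2 (volume.restrict (Ioc s t))) : ‖hS.op hs ht v‖ ≤ 2 * ‖v‖ := by
  refine Lp.norm_le_mul_norm_of_ae_le_mul ?_
  filter_upwards [hS.op_coe hs ht v, ae_mem s t hs ht] with τ h1 hτ
  rw [h1]
  exact hS.up τ hτ _

theorem Fam.op_sub (hS : Fam T S) (hs : 0 ≤ s) (ht : t ≤ T)
    (v w : Lp H 2 (volume.restrict (Ioc s t))) :
    hS.op hs ht v - hS.op hs ht w = hS.op hs ht (v - w) := by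
  ext1
  filter_upwards [hS.op_coe hs ht v, hS.op_coe hs ht w, hS.op_coe hs ht (v - w),
    Lp.coeFn_sub v w, Lp.coeFn_sub (hS.op hs ht v) (hS.op hs ht w)] with τ h1 h2 h3 h4 h5
  rw [h5, h3, h4, Pi.sub_apply, Pi.sub_apply, h1, h2, map_sub]

theorem Fam.form_sub (hS : Fam T S) (hs : 0 ≤ s) (ht : t ≤ T)
    (v z v' z' : Lp H 2 (volume.restrict (Ioc s t))) :
    |⟪hS.op hs ht v, z⟫_ℝ - ⟪hS.op hs ht v', z'⟫_ℝ|
      ≤ 2 * (‖v - v'‖ * ‖z‖ + ‖v'‖ * ‖z - z'‖) := by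
  have e : ⟪hS.op hs ht v, z⟫_ℝ - ⟪hS.op hs ht v', z'⟫_ℝ
      = ⟪hS.op hs ht (v - v'), z⟫_ℝ + ⟪hS.op hs ht v', z - z'⟫_ℝ := by
    rw [← hS.op_sub, inner_sub_left, inner_sub_right]
    ring
  rw [e]
  have h1 := abs_real_inner_le_norm (hS.op hs ht (v - v')) z
  have h2 := abs_real_inner_le_norm (hS.op hs ht v') (z - z')
  have h3 := hS.norm_op hs ht (v - v')
  have h4 := hS.norm_op hs ht v'
  calc |⟪hS.op hs ht (v - v'), z⟫_ℝ + ⟪hS.op hs ht v', z - z'⟫_ℝ|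
      ≤ |⟪hS.op hs ht (v - v'), z⟫_ℝ| + |⟪hS.op hs ht v', z - z'⟫_ℝ| := abs_add_le _ _
    _ ≤ ‖hS.op hs ht (v - v')‖ * ‖z‖ + ‖hS.op hs ht v'‖ * ‖z - z'‖ := add_le_add h1 h2
    _ ≤ (2 * ‖v - v'‖) * ‖z‖ + (2 * ‖v'‖) * ‖z - z'‖ := by gcongr
    _ = _ := by ring

/-- density of simple functions -/
theorem exists_simple {ν : Measure ℝ} (v : Lp H 2 ν) (ε : ℝ) (hε : 0 < ε) :
    ∃ (g : SimpleFunc ℝ H) (hg : MemLp g 2 ν), ‖v - hg.toLp _‖ ≤ ε := by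
  obtain ⟨g, hg1, hg2⟩ := (Lp.memLp v).exists_simpleFunc_eLpNorm_sub_lt (by norm_num)
    (ε := ENNReal.ofReal ε) (by simpa using hε)
  refine ⟨g, hg2, ?_⟩
  rw [Lp.norm_def]
  have e : eLpNorm ((v - hg2.toLp _ : Lp H 2 ν) : ℝ → H) 2 ν
      = eLpNorm ((v : ℝ → H) - ⇑g) 2 ν := by
    refine eLpNorm_congr_ae ?_
    filter_upwards [Lp.coeFn_sub v (hg2.toLp _), hg2.coeFn_toLp] with x h1 h2
    rw [h1, Pi.sub_apply, Pi.sub_apply, h2]
  rw [e]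
  exact ENNReal.toReal_le_of_le_ofReal hε.le hg1.le

/-- the form of a family on simple functions -/
theorem form_simple (hS : Fam T S) {S' : ℝ → H →L[ℝ] H} (hS' : Fam T S') (hs : 0 ≤ s)
    (hst : s ≤ t) (ht : t ≤ T)
    (g k : SimpleFunc ℝ H) (hg : MemLp g 2 (volume.restrict (Ioc s t)))
    (hk : MemLp k 2 (volume.restrict (Ioc s t))) (ε : ℝ)
    (h : ∀ a ∈ g.range, ∀ b ∈ k.range, ∀ τ ∈ Icc 0 T, |⟪S τ a - S' τ a, b⟫_ℝ| ≤ ε) :
    |⟪hS.op hs ht (hg.toLp _), hk.toLp _⟫_ℝ - ⟪hS'.op hs ht (hg.toLp _), hk.toLp _⟫_ℝ|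
      ≤ ε * (t - s) := by
  rw [← inner_sub_left, L2.inner_def]
  have h1 : ∀ᵐ τ ∂(volume.restrict (Ioc s t)),
      ‖⟪(hS.op hs ht (hg.toLp _) - hS'.op hs ht (hg.toLp _) : Lp H 2 _) τ,
        (hk.toLp k : Lp H 2 (volume.restrict (Ioc s t))) τ⟫_ℝ‖ ≤ ε := by
    filter_upwards [hS.op_coe hs ht (hg.toLp _), hS'.op_coe hs ht (hg.toLp _),
      hg.coeFn_toLp, hk.coeFn_toLp, ae_mem s t hs ht,
      Lp.coeFn_sub (hS.op hs ht (hg.toLp _)) (hS'.op hs ht (hg.toLp _))] with τ h1 h2 h3 h4 h5 h6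
    rw [h6, Pi.sub_apply, h1, h2, h3, h4, Real.norm_eq_abs]
    exact h _ (g.mem_range_self τ) _ (k.mem_range_self τ) τ h5
  have h2 := norm_integral_le_of_norm_le_const h1
  rw [Real.norm_eq_abs] at h2
  refine h2.trans (le_of_eq ?_)
  congr 1
  rw [Measure.real, Measure.restrict_apply MeasurableSet.univ, univ_inter, Real.volume_Ioc,
    ENNReal.toReal_ofReal (by linarith)]

theorem norm_sq_toLp {ν : Measure ℝ} {f : ℝ → H} (hf : MemLp f 2 ν) :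
    ‖hf.toLp f‖ ^ 2 = ∫ τ, ‖f τ‖ ^ 2 ∂ν := by
  rw [← real_inner_self_eq_norm_sq, L2.inner_def]
  refine integral_congr_ae ?_
  filter_upwards [hf.coeFn_toLp] with τ hτ
  rw [hτ, real_inner_self_eq_norm_sq]

theorem tendsto_toLp {F : Filter ℕ} {V : ℕ → ℝ → H} {V0 : ℝ → H}
    (hV : ∀ i, MemLp (V i) 2 (volume.restrict (Ioc 0 T)))
    (hV0 : MemLp V0 2 (volume.restrict (Ioc 0 T)))
    (h : Tendsto (fun i => ∫ t in Ioc 0 T, ‖V i t - V0 t‖ ^ 2) F (𝓝 0)) (hs : 0 ≤ s)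
    (ht : t ≤ T) (hVs : ∀ i, MemLp (V i) 2 (volume.restrict (Ioc s t)))
    (hV0s : MemLp V0 2 (volume.restrict (Ioc s t))) :
    Tendsto (fun i => (hVs i).toLp (V i)) F (𝓝 (hV0s.toLp V0)) := by
  rw [tendsto_iff_norm_sub_tendsto_zero]
  have h1 : Tendsto (fun i => ‖(hVs i).toLp (V i) - hV0s.toLp V0‖ ^ 2) F (𝓝 0) := by
    refine squeeze_zero (fun i => by positivity) (fun i => ?_) h
    have e : (hVs i).toLp (V i) - hV0s.toLp V0 = ((hVs i).sub hV0s).toLp (V i - V0) :=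
      (MemLp.toLp_sub _ _).symm
    rw [e, norm_sq_toLp]
    have hi : Integrable (fun τ => ‖V i τ - V0 τ‖ ^ 2) (volume.restrict (Ioc 0 T)) :=
      ((hV i).sub hV0).integrable_norm_pow (by norm_num)
    exact setIntegral_mono_set hi (Eventually.of_forall fun τ => by positivity)
      (HasSubset.Subset.eventuallyLE fun τ hτ => ⟨hs.trans_lt hτ.1, hτ.2.trans ht⟩)
  have h2 := h1.sqrt
  simp only [Real.sqrt_zero, Real.sqrt_sq (norm_nonneg _)] at h2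
  exact h2

end A2

open A2 in
theorem a2_holds : StmA2 := by
  intro H _ _ _ _ F _ T R R0 hT hA V Z V0 Z0 hV hZ hV0 hZ0 hVt hZt
  have hR : ∀ i, Fam T (R i) := fun i => ⟨hA.sa i, hA.up i, hA.cont i⟩
  have hR0 : Fam T R0 := ⟨hA.sa0, hA.up0, hA.cont0⟩
  refine ⟨hR0.aesm le_rfl le_rfl hV0.1, fun i => (hR i).aesm le_rfl le_rfl (hV i).1, ?_⟩
  intro s t hs hst ht
  have hm : volume.restrict (Ioc s t) ≤ volume.restrict (Ioc 0 T) :=
    Measure.restrict_mono (Ioc_subset_Ioc hs ht) le_rfl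
  have hV' : ∀ i, MemLp (V i) 2 (volume.restrict (Ioc s t)) := fun i => (hV i).mono_measure hm
  have hZ' : ∀ i, MemLp (Z i) 2 (volume.restrict (Ioc s t)) := fun i => (hZ i).mono_measure hm
  have hV0' : MemLp V0 2 (volume.restrict (Ioc s t)) := hV0.mono_measure hm
  have hZ0' : MemLp Z0 2 (volume.restrict (Ioc s t)) := hZ0.mono_measure hm
  have tV := tendsto_toLp hV hV0 hVt hs ht hV' hV0'
  have tZ := tendsto_toLp hZ hZ0 hZt hs ht hZ' hZ0'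
  have form : ∀ {S : ℝ → H →L[ℝ] H} (hS : Fam T S) {v z : ℝ → H}
      (hv : MemLp v 2 (volume.restrict (Ioc s t))) (hz : MemLp z 2 (volume.restrict (Ioc s t))),
      ∫ τ in s..t, ⟪S τ (v τ), z τ⟫_ℝ = ⟪hS.op hs ht (hv.toLp v), hz.toLp z⟫_ℝ := by
    intro S hS v z hv hz
    rw [intervalIntegral.integral_of_le hst, L2.inner_def]
    refine integral_congr_ae ?_
    filter_upwards [hS.op_coe hs ht (hv.toLp v), hv.coeFn_toLp, hz.coeFn_toLp] with τ h1 h2 h3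
    rw [h1, h2, h3]
  rw [form hR0 hV0' hZ0']
  have e : (fun i => ∫ τ in s..t, ⟪R i τ (V i τ), Z i τ⟫_ℝ)
      = fun i => ⟪(hR i).op hs ht ((hV' i).toLp (V i)), (hZ' i).toLp (Z i)⟫_ℝ :=
    funext fun i => form (hR i) (hV' i) (hZ' i)
  rw [e]
  set v0 := hV0'.toLp V0
  set z0 := hZ0'.toLp Z0
  rw [Metric.tendsto_nhds]
  intro ε hε
  set M : ℝ := 2 * (‖v0‖ + ‖z0‖ + 3) with hM
  have hMpos : 0 < M := by positivity
  -- approximation
  set η : ℝ := min 1 (ε / (8 * M)) with hη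
  have hη0 : 0 < η := by positivity
  have hη1 : η ≤ 1 := min_le_left _ _
  have hη2 : η * (8 * M) ≤ ε := by
    have : η ≤ ε / (8 * M) := min_le_right _ _
    calc η * (8 * M) ≤ (ε / (8 * M)) * (8 * M) := by gcongr
      _ = ε := by field_simp
  obtain ⟨g, hg, hgv⟩ := exists_simple v0 η hη0
  obtain ⟨k, hk, hkz⟩ := exists_simple z0 η hη0
  have ev1 : ∀ᶠ i in F, ∀ a ∈ g.range, ∀ b ∈ k.range, ∀ τ ∈ Icc 0 T,
      |⟪R i τ a - R0 τ a, b⟫_ℝ| ≤ ε / (4 * (T + 1)) := by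
    rw [Filter.eventually_all_finset]
    intro a _
    rw [Filter.eventually_all_finset]
    intro b _
    exact hA.unif a b _ (by positivity)
  have ev2 : ∀ᶠ i in F, dist ((hV' i).toLp (V i)) v0 < η := Metric.tendsto_nhds.1 tV η hη0
  have ev3 : ∀ᶠ i in F, dist ((hZ' i).toLp (Z i)) z0 < η := Metric.tendsto_nhds.1 tZ η hη0
  filter_upwards [ev1, ev2, ev3] with i h1 h2 h3
  set vi := (hV' i).toLp (V i)
  set zi := (hZ' i).toLp (Z i)
  set vg := hg.toLp g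
  set zk := hk.toLp k
  rw [dist_eq_norm] at h2 h3
  rw [Real.dist_eq]
  have a1 := (hR i).form_sub hs ht vi zi vg zk
  have a2 := hR0.form_sub hs ht v0 z0 vg zk
  have a3 := form_simple (hR i) hR0 hs hst ht g k hg hk _ h1
  have n1 : ‖vi - vg‖ ≤ 2 * η := by
    calc ‖vi - vg‖ = ‖(vi - v0) + (v0 - vg)‖ := by congr 1; abel
      _ ≤ ‖vi - v0‖ + ‖v0 - vg‖ := norm_add_le _ _
      _ ≤ 2 * η := by linarith
  have n2 : ‖zi - zk‖ ≤ 2 * η := by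
    calc ‖zi - zk‖ = ‖(zi - z0) + (z0 - zk)‖ := by congr 1; abel
      _ ≤ ‖zi - z0‖ + ‖z0 - zk‖ := norm_add_le _ _
      _ ≤ 2 * η := by linarith
  have n3 : ‖zi‖ ≤ ‖z0‖ + 1 := by
    calc ‖zi‖ = ‖(zi - z0) + z0‖ := by congr 1; abel
      _ ≤ ‖zi - z0‖ + ‖z0‖ := norm_add_le _ _
      _ ≤ ‖z0‖ + 1 := by linarith
  have n4 : ‖vg‖ ≤ ‖v0‖ + 1 := by
    calc ‖vg‖ = ‖v0 - (v0 - vg)‖ := by congr 1; abel
      _ ≤ ‖v0‖ + ‖v0 - vg‖ := norm_sub_le _ _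
      _ ≤ ‖v0‖ + 1 := by linarith
  have b1 : 2 * (‖vi - vg‖ * ‖zi‖ + ‖vg‖ * ‖zi - zk‖) ≤ 2 * (η * M) := by
    have : ‖vi - vg‖ * ‖zi‖ ≤ 2 * η * (‖z0‖ + 1) := by gcongr
    have : ‖vg‖ * ‖zi - zk‖ ≤ (‖v0‖ + 1) * (2 * η) := by gcongr
    rw [hM]
    nlinarith [hη0]
  have b2 : 2 * (‖v0 - vg‖ * ‖z0‖ + ‖vg‖ * ‖z0 - zk‖) ≤ 2 * (η * M) := by
    have : ‖v0 - vg‖ * ‖z0‖ ≤ η * ‖z0‖ := by gcongr
    have : ‖vg‖ * ‖z0 - zk‖ ≤ (‖v0‖ + 1) * η := by gcongr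
    rw [hM]
    nlinarith [hη0, mul_nonneg hη0.le (norm_nonneg v0), mul_nonneg hη0.le (norm_nonneg z0)]
  have b3 : ε / (4 * (T + 1)) * (t - s) ≤ ε / 4 := by
    have h5 : t - s ≤ T + 1 := by linarith
    calc ε / (4 * (T + 1)) * (t - s) ≤ ε / (4 * (T + 1)) * (T + 1) := by gcongr
      _ = ε / 4 := by field_simp
  have c1 : |⟪(hR i).op hs ht vi, zi⟫_ℝ - ⟪hR0.op hs ht v0, z0⟫_ℝ|
      ≤ |⟪(hR i).op hs ht vi, zi⟫_ℝ - ⟪(hR i).op hs ht vg, zk⟫_ℝ|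
        + |⟪(hR i).op hs ht vg, zk⟫_ℝ - ⟪hR0.op hs ht vg, zk⟫_ℝ|
        + |⟪hR0.op hs ht v0, z0⟫_ℝ - ⟪hR0.op hs ht vg, zk⟫_ℝ| := by
    rw [abs_sub_comm (⟪hR0.op hs ht v0, z0⟫_ℝ)]
    have := abs_add_three (⟪(hR i).op hs ht vi, zi⟫_ℝ - ⟪(hR i).op hs ht vg, zk⟫_ℝ)
      (⟪(hR i).op hs ht vg, zk⟫_ℝ - ⟪hR0.op hs ht vg, zk⟫_ℝ)
      (⟪hR0.op hs ht vg, zk⟫_ℝ - ⟪hR0.op hs ht v0, z0⟫_ℝ)
    refine le_trans (le_of_eq ?_) this
    congr 1
    ring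
  nlinarith

end N979MH
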