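import Pool.Agent.N979.MH.Stm
import Pool.Agent.H772R2.NSR.Weak

/-!
Project MH, module A3: strong compactness (Aubin-Lions type lemma for variable density).
-/

set_option linter.unusedSectionVars false

open MeasureTheory Set Filter Topology
open scoped InnerProductSpace ENNReal ContDiff NNReal

namespace N979MH
namespace A3

open H772R2.NSR

variable {H K : Type} [NormedAddCommGroup H] [InnerProductSpace ℝ H]
  [NormedAddCommGroup K] [InnerProductSpace ℝ K]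

theorem int_inner {μ : Measure ℝ} {f g : ℝ → H} (hf : MemLp f 2 μ) (hg : MemLp g 2 μ) :
    Integrable (fun t => ⟪f t, g t⟫_ℝ) μ := by
  have h1 : Integrable (fun t => ‖f t‖ * ‖g t‖) μ := hf.norm.integrable_mul hg.norm
  refine Integrable.mono' h1 (hf.1.inner hg.1) ?_
  filter_upwards with t
  exact norm_inner_le_norm _ _

/-- The closed subspace of pairs which are in `W` almost everywhere. -/
theorem exists_WL (W : Submodule ℝ (H × K)) (hW : IsClosed (W : Set (H × K))) (μ : Measure ℝ) :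
    ∃ WL : Submodule ℝ (Lp H 2 μ × Lp K 2 μ), IsClosed (WL : Set (Lp H 2 μ × Lp K 2 μ)) ∧
      ∀ p, p ∈ WL ↔ ∀ᵐ t ∂μ, ((p.1 t : H), (p.2 t : K)) ∈ W := by
  let WL : Submodule ℝ (Lp H 2 μ × Lp K 2 μ) :=
    { carrier := {p | ∀ᵐ t ∂μ, ((p.1 t : H), (p.2 t : K)) ∈ W}
      add_mem' := by
        intro a b ha hb
        simp only [mem_ofPred_eq] at ha hb ⊢
        filter_upwards [ha, hb, Lp.coeFn_add a.1 b.1, Lp.coeFn_add a.2 b.2] with t h1 h2 h3 h4
        rw [Prod.fst_add, Prod.snd_add, h3, h4]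
        exact W.add_mem h1 h2
      zero_mem' := by
        simp only [mem_ofPred_eq, Prod.fst_zero, Prod.snd_zero]
        filter_upwards [Lp.coeFn_zero H 2 μ, Lp.coeFn_zero K 2 μ] with t h1 h2
        rw [h1, h2]
        exact W.zero_mem
      smul_mem' := by
        intro c a ha
        simp only [mem_ofPred_eq] at ha ⊢
        filter_upwards [ha, Lp.coeFn_smul c a.1, Lp.coeFn_smul c a.2] with t h1 h3 h4
        rw [Prod.smul_fst, Prod.smul_snd, h3, h4]
        exact W.smul_mem c h1 }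
  refine ⟨WL, ?_, fun p => Iff.rfl⟩
  refine IsSeqClosed.isClosed ?_
  intro x p hx hlim
  have h1 : Tendsto (fun n => (x n).1) atTop (𝓝 p.1) := (continuous_fst.tendsto _).comp hlim
  have h2 : Tendsto (fun n => (x n).2) atTop (𝓝 p.2) := (continuous_snd.tendsto _).comp hlim
  obtain ⟨ns, hns, hae⟩ := (tendstoInMeasure_of_tendsto_Lp h1).exists_seq_tendsto_ae
  obtain ⟨ms, hms, hae2⟩ := (tendstoInMeasure_of_tendsto_Lp
    (h2.comp hns.tendsto_atTop)).exists_seq_tendsto_ae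
  have h3 : ∀ᵐ t ∂μ, ∀ n, (((x n).1 t : H), ((x n).2 t : K)) ∈ W := by
    rw [ae_all_iff]
    intro n
    exact hx n
  show ∀ᵐ t ∂μ, ((p.1 t : H), (p.2 t : K)) ∈ W
  filter_upwards [hae, hae2, h3] with t k1 k2 k3
  have k1' := k1.comp hms.tendsto_atTop
  have := k1'.prodMk_nhds k2
  refine hW.mem_of_tendsto this ?_
  filter_upwards with n
  exact k3 _

theorem exists_weak [CompleteSpace H] {μ : Measure ℝ} (F : Ultrafilter ℕ) {G : ℕ → ℝ → H} {C : ℝ}
    (hG : ∀ i, MemLp (G i) 2 μ) (hC : ∀ i, ∫ t, ‖G i t‖ ^ 2 ∂μ ≤ C) :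
    ∃ U : Lp H 2 μ, (∀ Y : Lp H 2 μ,
      Tendsto (fun i => ⟪(hG i).toLp (G i), Y⟫_ℝ) F (𝓝 ⟪U, Y⟫_ℝ)) ∧
      ∀ y : ℝ → H, MemLp y 2 μ →
        Tendsto (fun i => ∫ t, ⟪G i t, y t⟫_ℝ ∂μ) F (𝓝 (∫ t, ⟪U t, y t⟫_ℝ ∂μ)) := by
  have hn : ∀ i, ‖(hG i).toLp (G i)‖ ≤ Real.sqrt C := by
    intro i
    refine Real.le_sqrt_of_sq_le ?_
    rw [← real_inner_self_eq_norm_sq, L2.inner_def]
    refine le_trans (le_of_eq ?_) (hC i)
    refine integral_congr_ae ?_
    filter_upwards [(hG i).coeFn_toLp] with t ht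
    rw [ht, real_inner_self_eq_norm_sq]
  obtain ⟨U, -, hU⟩ := exists_weak_limit F (fun i => (hG i).toLp (G i)) (Real.sqrt C)
    (Eventually.of_forall hn)
  refine ⟨U, hU, fun y hy => ?_⟩
  have h1 := hU (hy.toLp y)
  have e1 : ⟪U, hy.toLp y⟫_ℝ = ∫ t, ⟪U t, y t⟫_ℝ ∂μ := by
    rw [L2.inner_def]
    refine integral_congr_ae ?_
    filter_upwards [hy.coeFn_toLp] with t ht
    rw [ht]
  rw [e1] at h1
  refine h1.congr (fun i => ?_)
  rw [L2.inner_def]
  refine integral_congr_ae ?_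
  filter_upwards [hy.coeFn_toLp, (hG i).coeFn_toLp] with t ht ht2
  rw [ht, ht2]

theorem tend0 {F : Filter ℕ} {μ : Measure ℝ} {f h : ℕ → ℝ → ℝ} {C : ℝ}
    (hf : ∀ i, Integrable (f i) μ) (hh : ∀ i, Integrable (h i) μ)
    (hC : ∀ i, ∫ t, h i t ∂μ ≤ C)
    (hε : ∀ ε : ℝ, 0 < ε → ∀ᶠ i in F, ∀ᵐ t ∂μ, |f i t| ≤ ε * h i t)
    (s : Set ℝ) :
    Tendsto (fun i => ∫ t in s, f i t ∂μ) F (𝓝 0) := by
  rw [Metric.tendsto_nhds]
  intro ε he
  have hpos : 0 < ε / (2 * (|C| + 1)) := by positivity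
  filter_upwards [hε _ hpos] with i hi
  rw [Real.dist_eq, sub_zero]
  calc |∫ t in s, f i t ∂μ| ≤ ∫ t in s, |f i t| ∂μ := by
        have := norm_integral_le_integral_norm (μ := μ.restrict s) (f i)
        simpa [Real.norm_eq_abs] using this
    _ ≤ ∫ t, |f i t| ∂μ := by
        refine setIntegral_le_integral (hf i).abs ?_
        filter_upwards with t
        exact abs_nonneg _
    _ ≤ ∫ t, ε / (2 * (|C| + 1)) * h i t ∂μ := by
        refine integral_mono_ae (hf i).abs ((hh i).const_mul _) hi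
    _ = ε / (2 * (|C| + 1)) * ∫ t, h i t ∂μ := integral_const_mul _ _
    _ ≤ ε / (2 * (|C| + 1)) * |C| := by
        gcongr
        exact (hC i).trans (le_abs_self C)
    _ < ε := by
        rw [div_mul_eq_mul_div, div_lt_iff₀ (by positivity)]
        nlinarith [abs_nonneg C]

end A3

open A3 H772R2.NSR

theorem a3_holds (h1 : StmA1a) (h2 : StmA1b) (h3 : StmA2) : StmA3 := by
  intro H K _ _ _ _ _ _ _ _ W D Fr F T M R R0 u z hT O S
  set μ : Measure ℝ := volume.restrict (Ioc 0 T) with hμ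
  have : IsFiniteMeasure μ := by
    rw [hμ, isFiniteMeasure_restrict]; simp
  have hM : 0 ≤ M := (norm_nonneg _).trans (S.ub 0 0 ⟨le_rfl, hT.le⟩)
  have hmem : ∀ᵐ t ∂μ, t ∈ Icc 0 T := by
    filter_upwards [ae_restrict_mem measurableSet_Ioc] with t ht
    exact Ioc_subset_Icc_self ht
  -- continuous functions are in `L²`
  have hcontL : ∀ {Y : Type} [NormedAddCommGroup Y] [InnerProductSpace ℝ Y]
      [SecondCountableTopology Y] {g : ℝ → Y}, ContinuousOn g (Icc 0 T) → MemLp g 2 μ := by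
    intro Y _ _ _ g hg
    have hgm : AEStronglyMeasurable g μ :=
      (hg.mono Ioc_subset_Icc_self).aestronglyMeasurable measurableSet_Ioc
    obtain ⟨B, hB⟩ := (isCompact_Icc.image_of_continuousOn hg).isBounded.exists_norm_le
    refine MemLp.of_bound hgm B ?_
    filter_upwards [hmem] with t ht
    exact hB _ ⟨t, ht, rfl⟩
  have hu2 : ∀ i, MemLp (u i) 2 μ := fun i => hcontL (S.uc i)
  have hz2 : ∀ i, MemLp (z i) 2 μ := fun i => hcontL (S.zc i)
  have hvol : μ.real univ = T := by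
    rw [hμ, measureReal_restrict_apply_univ]
    simp [Real.volume_real_Ioc_of_le hT.le]
  -- bound of the integral of a constant
  have hun : ∀ i, ∫ t, ‖u i t‖ ^ 2 ∂μ ≤ T * M ^ 2 := by
    intro i
    calc ∫ t, ‖u i t‖ ^ 2 ∂μ ≤ ∫ t, M ^ 2 ∂μ := by
          refine integral_mono_ae (hu2 i).integrable_norm_pow' (integrable_const _) ?_
          filter_upwards [hmem] with t ht
          have := S.ub i t ht
          have h0 := norm_nonneg (u i t)
          gcongr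
      _ = T * M ^ 2 := by
          rw [integral_const, hvol, smul_eq_mul]
  obtain ⟨U, hUw, hUt⟩ := exists_weak F hu2 hun
  obtain ⟨Z, hZw, hZt⟩ := exists_weak F hz2 S.zb
  obtain ⟨WL, hWLc, hWL⟩ := exists_WL W Fr.closedW μ
  have hUZ : ∀ᵐ t ∂μ, (U t, Z t) ∈ W := by
    have : (U, Z) ∈ WL := by
      refine mem_of_weak_limit WL hWLc (F : Filter ℕ) (fun i => (hu2 i).toLp (u i))
        (fun i => (hz2 i).toLp (z i)) U Z ?_ hUw hZw
      filter_upwards with i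
      rw [hWL]
      filter_upwards [hmem, (hu2 i).coeFn_toLp, (hz2 i).coeFn_toLp] with t ht k1 k2
      simp only [k1, k2]
      exact S.memW i t ht
    exact (hWL _).mp this
  have hU2 : MemLp U 2 μ := Lp.memLp U
  have hZ2 : MemLp Z 2 μ := Lp.memLp Z
  -- momentum
  have hRb : ∀ i, ∀ t ∈ Icc 0 T, ‖R i t (u i t)‖ ≤ 2 * M := by
    intro i t ht
    have k1 := O.up i t ht (u i t)
    have k2 := S.ub i t ht
    linarith
  have hex : ∀ t, ∃ m : H, t ∈ Icc 0 T → ‖m‖ ≤ 2 * M ∧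
      ∀ y : H, Tendsto (fun i => ⟪R i t (u i t), y⟫_ℝ) F (𝓝 ⟪m, y⟫_ℝ) := by
    intro t
    by_cases ht : t ∈ Icc 0 T
    · obtain ⟨m, hm1, hm2⟩ := exists_weak_limit F (fun i => R i t (u i t)) (2 * M)
        (Eventually.of_forall fun i => hRb i t ht)
      exact ⟨m, fun _ => ⟨hm1, hm2⟩⟩
    · exact ⟨0, fun h => absurd h ht⟩
  choose m0 hm0 using hex
  obtain ⟨hm0c, hm0u⟩ := h1 H D (F : Filter ℕ) T (2 * M) (fun i t => R i t (u i t)) m0 hRb
    (fun t ht => (hm0 t ht).1) S.equi (fun φ _ t ht => (hm0 t ht).2 φ)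
  have hm0W := h2 H K W D Fr (F : Filter ℕ) T (2 * M) (fun i t => R i t (u i t)) m0 hRb
    (fun t ht => (hm0 t ht).1) hm0u
  -- measurability of `R0 t (V t)` and `R i t (V t)`
  have hmeas : ∀ V : ℝ → H, MemLp V 2 μ → AEStronglyMeasurable (fun t => R0 t (V t)) μ ∧
      (∀ i, AEStronglyMeasurable (fun t => R i t (V t)) μ) ∧
      Tendsto (fun i => ∫ t, ⟪R i t (V t), V t⟫_ℝ ∂μ) F (𝓝 (∫ t, ⟪R0 t (V t), V t⟫_ℝ ∂μ)) := by
    intro V hV
    obtain ⟨k1, k2, k3⟩ := h3 H (F : Filter ℕ) T R R0 hT O (fun _ => V) (fun _ => V) V V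
      (fun _ => hV) (fun _ => hV) hV hV (by simp) (by simp)
    refine ⟨k1, k2, ?_⟩
    have := k3 0 T le_rfl hT.le le_rfl
    simpa only [intervalIntegral.integral_of_le hT.le] using this
  have hR0L : ∀ V : ℝ → H, MemLp V 2 μ → MemLp (fun t => R0 t (V t)) 2 μ := by
    intro V hV
    refine MemLp.of_le_mul (c := 2) hV (hmeas V hV).1 ?_
    filter_upwards [hmem] with t ht
    exact O.up0 t ht _
  have hRL : ∀ i, ∀ V : ℝ → H, MemLp V 2 μ → MemLp (fun t => R i t (V t)) 2 μ := by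
    intro i V hV
    refine MemLp.of_le_mul (c := 2) hV ((hmeas V hV).2.1 i) ?_
    filter_upwards [hmem] with t ht
    exact O.up i t ht _
  have hmm2 : ∀ i, MemLp (fun t => R i t (u i t)) 2 μ := fun i => hRL i _ (hu2 i)
  have hn2 : MemLp (fun t => R0 t (U t)) 2 μ := hR0L _ hU2
  -- bounds for the integrals of norms
  have hzint : ∀ i, Integrable (fun t => ‖z i t‖) μ := fun i =>
    ((hz2 i).integrable (by norm_num)).norm
  have hZint : Integrable (fun t => ‖Z t‖) μ := (hZ2.integrable (by norm_num)).norm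
  have hzC : ∀ i, ∫ t, ‖z i t‖ ∂μ ≤ T + M ^ 2 := by
    intro i
    calc ∫ t, ‖z i t‖ ∂μ ≤ ∫ t, (1 + ‖z i t‖ ^ 2) ∂μ := by
          refine integral_mono_ae (hzint i)
            ((integrable_const _).add (hz2 i).integrable_norm_pow') ?_
          filter_upwards with t
          nlinarith [sq_nonneg (‖z i t‖ - 1), norm_nonneg (z i t)]
      _ = T + ∫ t, ‖z i t‖ ^ 2 ∂μ := by
          rw [integral_add (integrable_const _) (hz2 i).integrable_norm_pow', integral_const,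
            hvol, smul_eq_mul, mul_one]
      _ ≤ T + M ^ 2 := by
          gcongr
          exact S.zb i
  -- Step 3: identification
  have hid : ∀ φ ∈ closure D, ∀ᵐ t ∂μ, ⟪m0 t, φ⟫_ℝ = ⟪R0 t (U t), φ⟫_ℝ := by
    intro φ hφ
    have hc2 : MemLp (fun _ : ℝ => φ) 2 μ := memLp_const φ
    have hi1 : Integrable (fun t => ⟪m0 t, φ⟫_ℝ) μ := (hcontL (hm0c φ hφ)).integrable (by norm_num)
    have hi2 : Integrable (fun t => ⟪R0 t (U t), φ⟫_ℝ) μ := int_inner hn2 hc2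
    refine Integrable.ae_eq_of_forall_setIntegral_eq _ _ hi1 hi2 ?_
    intro s hs _
    have himm : ∀ i, Integrable (fun t => ⟪R i t (u i t), φ⟫_ℝ) μ := fun i =>
      int_inner (hmm2 i) hc2
    -- first limit
    have l1 : Tendsto (fun i => ∫ t in s, (⟪R i t (u i t), φ⟫_ℝ - ⟪m0 t, φ⟫_ℝ) ∂μ) F (𝓝 0) := by
      refine tend0 (f := fun i t => ⟪R i t (u i t), φ⟫_ℝ - ⟪m0 t, φ⟫_ℝ) (h := fun _ _ => 1) (C := T)
        (fun i => (himm i).sub hi1)
        (fun _ => integrable_const _) (fun _ => by rw [integral_const, hvol]; simp) ?_ s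
      intro ε hε
      filter_upwards [hm0u φ hφ ε hε] with i hi
      filter_upwards [hmem] with t ht
      rw [mul_one, ← inner_sub_left]
      exact hi t ht
    have l1' : Tendsto (fun i => ∫ t in s, ⟪R i t (u i t), φ⟫_ℝ ∂μ) F
        (𝓝 (∫ t in s, ⟪m0 t, φ⟫_ℝ ∂μ)) := by
      have := l1.add_const (∫ t in s, ⟪m0 t, φ⟫_ℝ ∂μ)
      rw [zero_add] at this
      refine this.congr (fun i => ?_)
      rw [integral_sub (himm i).restrict hi1.restrict, sub_add_cancel]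
    -- second limit
    have hi3 : ∀ i, Integrable (fun t => ⟪u i t, R0 t φ⟫_ℝ) μ := fun i =>
      int_inner (hu2 i) (hR0L _ hc2)
    have l2 : Tendsto (fun i => ∫ t in s, (⟪R i t (u i t), φ⟫_ℝ - ⟪u i t, R0 t φ⟫_ℝ) ∂μ) F
        (𝓝 0) := by
      refine tend0 (f := fun i t => ⟪R i t (u i t), φ⟫_ℝ - ⟪u i t, R0 t φ⟫_ℝ)
        (h := fun i t => ‖z i t‖) (C := T + M ^ 2) (fun i => (himm i).sub (hi3 i))
        hzint hzC ?_ s
      intro ε hε
      have hB : ∀ i, ∀ t ∈ Icc 0 T, ‖R i t φ‖ ≤ 2 * ‖φ‖ := fun i t ht => O.up i t ht φ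
      have hB0 : ∀ t ∈ Icc 0 T, ‖R0 t φ‖ ≤ 2 * ‖φ‖ := fun t ht => O.up0 t ht φ
      have := h2 H K W D Fr (F : Filter ℕ) T (2 * ‖φ‖) (fun i t => R i t φ) (fun t => R0 t φ)
        hB hB0 (fun ψ _ ε hε => O.unif φ ψ ε hε) ε hε
      filter_upwards [this] with i hi
      filter_upwards [hmem] with t ht
      have k1 := hi t ht _ (S.memW i t ht)
      have k2 : ⟪R i t (u i t), φ⟫_ℝ - ⟪u i t, R0 t φ⟫_ℝ = ⟪R i t φ - R0 t φ, u i t⟫_ℝ := by
        rw [O.sa i t ht, ← inner_sub_right, real_inner_comm]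
      rw [k2]
      exact k1
    have l3 : Tendsto (fun i => ∫ t in s, ⟪u i t, R0 t φ⟫_ℝ ∂μ) F
        (𝓝 (∫ t in s, ⟪R0 t (U t), φ⟫_ℝ ∂μ)) := by
      have hy : MemLp (s.indicator (fun t => R0 t φ)) 2 μ := (hR0L _ hc2).indicator hs
      have := hUt _ hy
      have e : ∀ v : ℝ → H, ∫ t, ⟪v t, s.indicator (fun t => R0 t φ) t⟫_ℝ ∂μ
          = ∫ t in s, ⟪v t, R0 t φ⟫_ℝ ∂μ := by
        intro v
        rw [← integral_indicator hs]
        congr 1
        ext t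
        by_cases hts : t ∈ s
        · simp [indicator_of_mem hts]
        · simp [indicator_of_notMem hts]
      rw [e] at this
      have e2 : ∫ t in s, ⟪U t, R0 t φ⟫_ℝ ∂μ = ∫ t in s, ⟪R0 t (U t), φ⟫_ℝ ∂μ := by
        refine integral_congr_ae ?_
        filter_upwards [ae_restrict_of_ae hmem] with t ht
        exact (O.sa0 t ht _ _).symm
      rw [e2] at this
      exact this.congr (fun i => e _)
    have l4 : Tendsto (fun i => ∫ t in s, ⟪R i t (u i t), φ⟫_ℝ ∂μ) F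
        (𝓝 (∫ t in s, ⟪R0 t (U t), φ⟫_ℝ ∂μ)) := by
      have := l2.add l3
      rw [zero_add] at this
      refine this.congr (fun i => ?_)
      rw [integral_sub (himm i).restrict (hi3 i).restrict, sub_add_cancel]
    exact tendsto_nhds_unique l1' l4
  -- for almost all `t`, all test vectors
  have hidall : ∀ᵐ t ∂μ, ∀ φ ∈ closure D, ⟪m0 t, φ⟫_ℝ = ⟪R0 t (U t), φ⟫_ℝ := by
    obtain ⟨Q, hQc, hQD, hQd⟩ : ∃ Q : Set H, Q.Countable ∧ Q ⊆ D ∧ D ⊆ closure Q := by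
      obtain ⟨Q, hQD, hQc, hQd⟩ := TopologicalSpace.IsSeparable.exists_countable_dense_subset
        (TopologicalSpace.IsSeparable.of_separableSpace D)
      exact ⟨Q, hQc, hQD, hQd⟩
    have : ∀ᵐ t ∂μ, ∀ φ ∈ Q, ⟪m0 t, φ⟫_ℝ = ⟪R0 t (U t), φ⟫_ℝ := by
      rw [ae_ball_iff hQc]
      intro φ hφ
      exact hid φ (subset_closure (hQD hφ))
    filter_upwards [this] with t ht φ hφ
    have hcl : φ ∈ closure Q := closure_minimal hQd isClosed_closure hφ
    have hclosed : IsClosed {φ : H | ⟪m0 t, φ⟫_ℝ = ⟪R0 t (U t), φ⟫_ℝ} :=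
      isClosed_eq (by fun_prop) (by fun_prop)
    exact closure_minimal (s := Q) (fun ψ hψ => ht ψ hψ) hclosed hcl
  -- Step 4
  have hiu : ∀ i, Integrable (fun t => ⟪R i t (u i t), u i t⟫_ℝ) μ := fun i =>
    int_inner (hmm2 i) (hu2 i)
  have hinu : ∀ i, Integrable (fun t => ⟪R0 t (U t), u i t⟫_ℝ) μ := fun i =>
    int_inner hn2 (hu2 i)
  have hiU : ∀ i, Integrable (fun t => ⟪R i t (u i t), U t⟫_ℝ) μ := fun i =>
    int_inner (hmm2 i) hU2
  have hinU : Integrable (fun t => ⟪R0 t (U t), U t⟫_ℝ) μ := int_inner hn2 hU2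
  set L : ℝ := ∫ t, ⟪R0 t (U t), U t⟫_ℝ ∂μ with hL
  have hmainε : ∀ ε : ℝ, 0 < ε → ∀ᶠ i in (F : Filter ℕ), ∀ᵐ t ∂μ, ∀ p ∈ W,
      |⟪R i t (u i t), p.1⟫_ℝ - ⟪R0 t (U t), p.1⟫_ℝ| ≤ ε * ‖p.2‖ := by
    intro ε hε
    filter_upwards [hm0W ε hε] with i hi
    filter_upwards [hmem, hidall] with t ht hid p hp
    rw [← hid p.1 (Fr.dens p hp), ← inner_sub_left]
    exact hi t ht p hp
  have l1 : Tendsto (fun i => ∫ t, ⟪R i t (u i t), u i t⟫_ℝ ∂μ) F (𝓝 L) := by
    have k1 : Tendsto (fun i => ∫ t in univ, (⟪R i t (u i t), u i t⟫_ℝ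
        - ⟪R0 t (U t), u i t⟫_ℝ) ∂μ) F (𝓝 0) := by
      refine tend0 (f := fun i t => ⟪R i t (u i t), u i t⟫_ℝ - ⟪R0 t (U t), u i t⟫_ℝ)
        (h := fun i t => ‖z i t‖) (C := T + M ^ 2) (fun i => (hiu i).sub (hinu i))
        hzint hzC ?_ univ
      intro ε hε
      filter_upwards [hmainε ε hε] with i hi
      filter_upwards [hi, hmem] with t k1 ht
      exact k1 _ (S.memW i t ht)
    have k2 : Tendsto (fun i => ∫ t, ⟪R0 t (U t), u i t⟫_ℝ ∂μ) F (𝓝 L) := by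
      have := hUt _ hn2
      simp only [real_inner_comm] at this ⊢
      rw [hL]
      simp only [real_inner_comm]
      exact this
    have k3 := k1.add k2
    rw [zero_add] at k3
    refine k3.congr (fun i => ?_)
    rw [setIntegral_univ, integral_sub (hiu i) (hinu i), sub_add_cancel]
  have l2 : Tendsto (fun i => ∫ t, ⟪R i t (u i t), U t⟫_ℝ ∂μ) F (𝓝 L) := by
    have k1 : Tendsto (fun i => ∫ t in univ, (⟪R i t (u i t), U t⟫_ℝ
        - ⟪R0 t (U t), U t⟫_ℝ) ∂μ) F (𝓝 0) := by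
      refine tend0 (f := fun i t => ⟪R i t (u i t), U t⟫_ℝ - ⟪R0 t (U t), U t⟫_ℝ)
        (h := fun i t => ‖Z t‖) (C := ∫ t, ‖Z t‖ ∂μ) (fun i => (hiU i).sub hinU)
        (fun _ => hZint) (fun _ => le_rfl) ?_ univ
      intro ε hε
      filter_upwards [hmainε ε hε] with i hi
      filter_upwards [hi, hUZ] with t k1 ht
      exact k1 _ ht
    have k3 := k1.add_const L
    rw [zero_add] at k3
    refine k3.congr (fun i => ?_)
    rw [setIntegral_univ, integral_sub (hiU i) hinU, ← hL, sub_add_cancel]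
  have l3 : Tendsto (fun i => ∫ t, ⟪R i t (U t), U t⟫_ℝ ∂μ) F (𝓝 L) := (hmeas _ hU2).2.2
  have hstrong : Tendsto (fun i => ∫ t in Ioc 0 T, ‖u i t - U t‖ ^ 2) F (𝓝 0) := by
    have k1 := (l1.sub (l2.const_mul 2)).add l3
    have e : L - 2 * L + L = 0 := by ring
    rw [e] at k1
    refine squeeze_zero (fun i => integral_nonneg fun t => by positivity) (fun i => ?_) k1
    have hRU : Integrable (fun t => ⟪R i t (U t), U t⟫_ℝ) μ := int_inner (hRL i _ hU2) hU2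
    have e1 : ∫ t, ⟪R i t (u i t), u i t⟫_ℝ ∂μ - 2 * ∫ t, ⟪R i t (u i t), U t⟫_ℝ ∂μ
        + ∫ t, ⟪R i t (U t), U t⟫_ℝ ∂μ
        = ∫ t, (⟪R i t (u i t), u i t⟫_ℝ - 2 * ⟪R i t (u i t), U t⟫_ℝ
          + ⟪R i t (U t), U t⟫_ℝ) ∂μ := by
      have q : Integrable (fun t => ⟪R i t (u i t), u i t⟫_ℝ - 2 * ⟪R i t (u i t), U t⟫_ℝ) μ :=
        (hiu i).sub ((hiU i).const_mul 2)
      rw [integral_add q hRU, integral_sub (hiu i) ((hiU i).const_mul 2), integral_const_mul]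
    rw [e1]
    refine integral_mono_ae ((hu2 i).sub hU2).integrable_norm_pow'
      (((hiu i).sub ((hiU i).const_mul 2)).add hRU) ?_
    filter_upwards [hmem] with t ht
    have q1 := O.low i t ht (u i t - U t)
    have q2 : ⟪R i t (u i t - U t), u i t - U t⟫_ℝ = ⟪R i t (u i t), u i t⟫_ℝ
        - 2 * ⟪R i t (u i t), U t⟫_ℝ + ⟪R i t (U t), U t⟫_ℝ := by
      have q3 : ⟪R i t (U t), u i t⟫_ℝ = ⟪R i t (u i t), U t⟫_ℝ := by
        rw [O.sa i t ht, real_inner_comm]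
      rw [map_sub, inner_sub_left, inner_sub_right, inner_sub_right, q3]
      ring
    rw [← q2]
    exact q1
  refine ⟨U, Z, hU2, hZ2, hUZ, hstrong, hZt, ?_⟩
  intro φ hφ
  filter_upwards [hmem, hidall] with t ht hid
  rw [← hid φ (subset_closure hφ)]
  exact (hm0 t ht).2 φ

end N979MH
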