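import Mathlib
import Pool.Agent.N979.MH.Stm
import Pool.Agent.H772R2.NSR.Weak

/-!
Project MH (helper979), module A4: weak continuity in time of the limit velocity and lower
semicontinuity of the energy (by helper645).
-/

set_option linter.unusedSectionVars false

open MeasureTheory Set Filter Topology
open scoped InnerProductSpace ENNReal ContDiff NNReal

namespace N979MH

namespace A4

open H772R2.NSR (exists_weak_limit tendsto_inner_weak_strong)

variable {H K : Type} [NormedAddCommGroup H] [InnerProductSpace ℝ H]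
  [NormedAddCommGroup K] [InnerProductSpace ℝ K]

/-- The closure of `D` is a closed subspace. -/
theorem closure_eq {W : Submodule ℝ (H × K)} {D : Set H} (hW : AFrame W D) :
    ((W.map (LinearMap.fst ℝ H K)).topologicalClosure : Set H) = closure D := by
  rw [Submodule.topologicalClosure_coe]
  apply subset_antisymm
  · refine closure_minimal ?_ isClosed_closure
    rintro v hv
    obtain ⟨p, hp, rfl⟩ := hv
    exact hW.dens p hp
  · refine closure_mono ?_
    intro φ hφ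
    obtain ⟨ψ, hψ⟩ := hW.mem φ hφ
    exact ⟨(φ, ψ), hψ, rfl⟩

/-- Weak limits of elements of a closed subspace. -/
theorem weak_mem [CompleteSpace H] {ι : Type*} (S : Submodule ℝ H) (hS : IsClosed (S : Set H))
    (F : Filter ι) [F.NeBot] (a : ι → H) (a0 : H) (ha : ∀ᶠ i in F, a i ∈ S)
    (h : ∀ v : H, Tendsto (fun i => ⟪a i, v⟫_ℝ) F (𝓝 ⟪a0, v⟫_ℝ)) : a0 ∈ S := by
  have h1 : a0 ∈ Sᗮᗮ := by
    rw [Submodule.mem_orthogonal]
    intro v hv
    have h2 : Tendsto (fun i => ⟪a i, v⟫_ℝ) F (𝓝 0) := by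
      refine (tendsto_congr' ?_).mpr (tendsto_const_nhds (x := (0 : ℝ)))
      filter_upwards [ha] with i hi
      exact Submodule.inner_right_of_mem_orthogonal hi hv
    have h3 := tendsto_nhds_unique (h v) h2
    rw [real_inner_comm]
    exact h3
  rw [Submodule.orthogonal_orthogonal_eq_closure] at h1
  rwa [IsClosed.submodule_topologicalClosure_eq hS] at h1

/-- Lower bound by the first order expansion of a nonnegative quadratic form. -/
theorem quad_low (A : H →L[ℝ] H) (sa : ∀ v w, ⟪A v, w⟫_ℝ = ⟪v, A w⟫_ℝ)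
    (low : ∀ v, ‖v‖ ^ 2 ≤ ⟪A v, v⟫_ℝ) (a b : H) :
    2 * ⟪A a, b⟫_ℝ - ⟪A b, b⟫_ℝ ≤ ⟪A a, a⟫_ℝ := by
  have h1 := low (a - b)
  rw [map_sub, inner_sub_left, inner_sub_right, inner_sub_right] at h1
  have h2 : ⟪A b, a⟫_ℝ = ⟪A a, b⟫_ℝ := by
    rw [sa, real_inner_comm]
  rw [h2] at h1
  nlinarith [sq_nonneg ‖a - b‖]

/-- The coercivity argument. -/
theorem eq_of_inner (A : H →L[ℝ] H) (low : ∀ v, ‖v‖ ^ 2 ≤ ⟪A v, v⟫_ℝ) (a b : H)
    (h : ⟪A a, a - b⟫_ℝ = ⟪A b, a - b⟫_ℝ) : a = b := by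
  have h1 := low (a - b)
  rw [map_sub, inner_sub_left, h, sub_self] at h1
  have h2 : ‖a - b‖ = 0 := by
    have := norm_nonneg (a - b)
    nlinarith
  exact sub_eq_zero.mp (norm_eq_zero.mp h2)

end A4

open H772R2.NSR (exists_weak_limit tendsto_inner_weak_strong)

theorem a4_holds (h1 : StmA1a) : StmA4 := by
  intro H K _ _ _ _ _ _ _ _ W D hW F T M R R0 u z U Z hT hO hF hU hZ hUZ hconv hweak hD hstr hc0
  -- the closed subspace
  set S : Submodule ℝ H := (W.map (LinearMap.fst ℝ H K)).topologicalClosure with hSdef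
  have hSD : (S : Set H) = closure D := A4.closure_eq hW
  have hSc : IsClosed (S : Set H) := by rw [hSD]; exact isClosed_closure
  have hSmem : ∀ v, v ∈ S ↔ v ∈ closure D := fun v => by rw [← hSD]; rfl
  have huS : ∀ i, ∀ t ∈ Icc 0 T, u i t ∈ S := fun i t ht =>
    (hSmem _).2 (hW.dens _ (hF.memW i t ht))
  -- weak limits
  have hex : ∀ t, ∃ v : H, t ∈ Icc 0 T → ‖v‖ ≤ M ∧
      ∀ y : H, Tendsto (fun i => ⟪u i t, y⟫_ℝ) F (𝓝 ⟪v, y⟫_ℝ) := by
    intro t
    by_cases ht : t ∈ Icc 0 T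
    · obtain ⟨v, hv1, hv2⟩ := exists_weak_limit F (fun i => u i t) M
        (Eventually.of_forall fun i => hF.ub i t ht)
      exact ⟨v, fun _ => ⟨hv1, hv2⟩⟩
    · exact ⟨0, fun h => absurd h ht⟩
  choose û hû using hex
  have hûn : ∀ t ∈ Icc 0 T, ‖û t‖ ≤ M := fun t ht => (hû t ht).1
  have hûw : ∀ t ∈ Icc 0 T, ∀ v, Tendsto (fun i => ⟪u i t, v⟫_ℝ) F (𝓝 ⟪û t, v⟫_ℝ) :=
    fun t ht => (hû t ht).2
  have hûS : ∀ t ∈ Icc 0 T, û t ∈ S := fun t ht =>
    A4.weak_mem S hSc (F : Filter ℕ) (fun i => u i t) (û t)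
      (Eventually.of_forall fun i => huS i t ht) (hûw t ht)
  have hM : 0 ≤ M := (norm_nonneg _).trans (hûn 0 ⟨le_rfl, hT.le⟩)
  -- the momenta
  have hRw : ∀ t ∈ Icc 0 T, ∀ v, Tendsto (fun i => ⟪R i t (u i t), v⟫_ℝ) F
      (𝓝 ⟪R0 t (û t), v⟫_ℝ) := by
    intro t ht v
    have h2 := tendsto_inner_weak_strong (F := (F : Filter ℕ)) (a := fun i => u i t)
      (b := fun i => R i t v) (a0 := û t) (b0 := R0 t v) (c := M)
      (Eventually.of_forall fun i => hF.ub i t ht) (hûw t ht) (hstr t ht v)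
    rw [hO.sa0 t ht]
    exact h2.congr fun i => (hO.sa i t ht _ _).symm
  obtain ⟨hcm, -⟩ := h1 H D (F : Filter ℕ) T (2 * M) (fun i t => R i t (u i t))
    (fun t => R0 t (û t))
    (fun i t ht => (hO.up i t ht _).trans (by linarith [hF.ub i t ht]))
    (fun t ht => (hO.up0 t ht _).trans (by linarith [hûn t ht]))
    hF.equi (fun φ _ t ht => hRw t ht φ)
  -- û = U almost everywhere
  have hae : ∀ᵐ t ∂(volume.restrict (Ioc 0 T)), û t = U t := by
    obtain ⟨D0, hD0D, hD0c, hD0d⟩ := TopologicalSpace.IsSeparable.exists_countable_dense_subset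
      (TopologicalSpace.IsSeparable.of_separableSpace D)
    have hall : ∀ᵐ t ∂(volume.restrict (Ioc 0 T)), ∀ φ ∈ D0,
        Tendsto (fun i => ⟪R i t (u i t), φ⟫_ℝ) F (𝓝 ⟪R0 t (U t), φ⟫_ℝ) := by
      rw [ae_ball_iff hD0c]
      exact fun φ hφ => hD φ (hD0D hφ)
    filter_upwards [hall, hUZ, ae_restrict_mem measurableSet_Ioc] with t ht1 ht2 ht3
    have ht : t ∈ Icc 0 T := Ioc_subset_Icc_self ht3
    have hUS : U t ∈ S := (hSmem _).2 (hW.dens _ ht2)
    have hz : ∀ φ ∈ closure D, ⟪R0 t (û t) - R0 t (U t), φ⟫_ℝ = 0 := by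
      intro φ hφ
      have hcl : IsClosed {φ : H | ⟪R0 t (û t) - R0 t (U t), φ⟫_ℝ = 0} :=
        isClosed_eq (by fun_prop) continuous_const
      have hsub : D0 ⊆ {φ : H | ⟪R0 t (û t) - R0 t (U t), φ⟫_ℝ = 0} := by
        intro φ hφ
        change ⟪R0 t (û t) - R0 t (U t), φ⟫_ℝ = 0
        rw [inner_sub_left, sub_eq_zero]
        exact tendsto_nhds_unique (hRw t ht φ) (ht1 φ hφ)
      have hsub2 : closure D ⊆ {φ : H | ⟪R0 t (û t) - R0 t (U t), φ⟫_ℝ = 0} := by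
        refine (closure_mono hD0d).trans ?_
        rw [closure_closure]
        exact closure_minimal hsub hcl
      exact hsub2 hφ
    refine A4.eq_of_inner (R0 t) (hO.low0 t ht) _ _ ?_
    have := hz (û t - U t) ((hSmem _).1 (S.sub_mem (hûS t ht) hUS))
    rw [inner_sub_left, sub_eq_zero] at this
    exact this
  -- weak continuity
  have hwc : ∀ v, ContinuousOn (fun t => ⟪û t, v⟫_ℝ) (Icc 0 T) := by
    intro v t ht
    rw [ContinuousWithinAt, tendsto_iff_ultrafilter]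
    intro G hG
    have hGI : ∀ᶠ s in (G : Filter ℝ), s ∈ Icc 0 T := by
      have : (G : Filter ℝ) ≤ 𝓝[Icc 0 T] t := hG
      exact this self_mem_nhdsWithin
    obtain ⟨v0, -, hv0⟩ := exists_weak_limit G û M (by
      filter_upwards [hGI] with s hs using hûn s hs)
    have hv0S : v0 ∈ S := A4.weak_mem S hSc (G : Filter ℝ) û v0 (by
      filter_upwards [hGI] with s hs using hûS s hs) hv0
    have heq : v0 = û t := by
      refine A4.eq_of_inner (R0 t) (hO.low0 t ht) _ _ ?_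
      have hφ : v0 - û t ∈ closure D := (hSmem _).1 (S.sub_mem hv0S (hûS t ht))
      set φ := v0 - û t
      have k1 : Tendsto (fun s => ⟪R0 s (û s), φ⟫_ℝ) G (𝓝 ⟪R0 t (û t), φ⟫_ℝ) :=
        (hcm φ hφ t ht).mono_left hG
      have k2 : Tendsto (fun s => ⟪û s, R0 s φ⟫_ℝ) G (𝓝 ⟪v0, R0 t φ⟫_ℝ) := by
        refine tendsto_inner_weak_strong (c := M) ?_ hv0 ?_
        · filter_upwards [hGI] with s hs using hûn s hs
        · exact (hc0 φ t ht).mono_left hG
      have k3 : Tendsto (fun s => ⟪R0 s (û s), φ⟫_ℝ) G (𝓝 ⟪v0, R0 t φ⟫_ℝ) := by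
        refine (tendsto_congr' ?_).mpr k2
        filter_upwards [hGI] with s hs using hO.sa0 s hs _ _
      rw [hO.sa0 t ht v0 φ]
      exact tendsto_nhds_unique k3 k1
    have := hv0 v
    rwa [heq] at this
  refine ⟨û, hûn, fun t ht => (hSmem _).1 (hûS t ht), hûw, hwc, hae, hRw, ?_⟩
  -- lower semicontinuity
  intro t ht b hb
  have hZt : MemLp ((Ioc 0 t).indicator Z) 2 (volume.restrict (Ioc 0 T)) :=
    hZ.indicator measurableSet_Ioc
  have hsub : Ioc 0 t ⊆ Ioc 0 T := Ioc_subset_Ioc_right ht.2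
  have hint : ∀ f : ℝ → ℝ, ∫ s in Ioc 0 T, (Ioc 0 t).indicator f s = ∫ s in Ioc 0 t, f s := by
    intro f
    rw [setIntegral_indicator measurableSet_Ioc, inter_eq_self_of_subset_right hsub]
  have hzZ : ∀ g : ℝ → K, ∫ s in Ioc 0 T, ⟪g s, (Ioc 0 t).indicator Z s⟫_ℝ =
      ∫ s in Ioc 0 t, ⟪g s, Z s⟫_ℝ := by
    intro g
    rw [← hint]
    refine integral_congr_ae (Eventually.of_forall fun s => ?_)
    by_cases hs : s ∈ Ioc 0 t
    · simp [indicator_of_mem hs]
    · simp [indicator_of_notMem hs]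
  have hlim1 : Tendsto (fun i => ∫ s in Ioc 0 t, ⟪z i s, Z s⟫_ℝ) F
      (𝓝 (∫ s in Ioc 0 t, ⟪Z s, Z s⟫_ℝ)) := by
    have := hweak _ hZt
    simp only [hzZ] at this
    exact this
  have hZ2 : MemLp Z 2 (volume.restrict (Ioc 0 t)) := hZ.mono_measure
    (Measure.restrict_mono hsub le_rfl)
  have hzi : ∀ i, MemLp (z i) 2 (volume.restrict (Ioc 0 t)) := by
    intro i
    have hcont : ContinuousOn (z i) (Icc 0 t) := (hF.zc i).mono (Icc_subset_Icc_right ht.2)
    obtain ⟨C, hC⟩ := (isCompact_Icc.image_of_continuousOn hcont).isBounded.exists_norm_le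
    have hm : AEStronglyMeasurable (z i) (volume.restrict (Ioc 0 t)) :=
      (hcont.mono Ioc_subset_Icc_self).aestronglyMeasurable measurableSet_Ioc
    refine MemLp.of_bound hm C ?_
    filter_upwards [ae_restrict_mem measurableSet_Ioc] with s hs
    exact hC _ (mem_image_of_mem _ (Ioc_subset_Icc_self hs))
  have hI : ∀ f g : ℝ → K, MemLp f 2 (volume.restrict (Ioc 0 t)) →
      MemLp g 2 (volume.restrict (Ioc 0 t)) →
      Integrable (fun s => ⟪f s, g s⟫_ℝ) (volume.restrict (Ioc 0 t)) := by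
    intro f g hf hg
    refine (hf.norm.integrable_mul hg.norm).mono' (hf.1.inner hg.1)
      (Eventually.of_forall fun s => ?_)
    exact norm_inner_le_norm _ _
  have hIn : ∀ f : ℝ → K, MemLp f 2 (volume.restrict (Ioc 0 t)) →
      Integrable (fun s => ‖f s‖ ^ 2) (volume.restrict (Ioc 0 t)) := by
    intro f hf
    refine (hI f f hf hf).congr (Eventually.of_forall fun s => ?_)
    exact real_inner_self_eq_norm_sq _
  have hZZ : ∫ s in Ioc 0 t, ⟪Z s, Z s⟫_ℝ = ∫ s in Ioc 0 t, ‖Z s‖ ^ 2 :=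
    integral_congr_ae (Eventually.of_forall fun s => real_inner_self_eq_norm_sq _)
  have hlow : ∀ i, 2 * (∫ s in Ioc 0 t, ⟪z i s, Z s⟫_ℝ) - (∫ s in Ioc 0 t, ‖Z s‖ ^ 2) ≤
      ∫ s in Ioc 0 t, ‖z i s‖ ^ 2 := by
    intro i
    rw [← integral_const_mul, ← integral_sub ((hI _ _ (hzi i) hZ2).const_mul 2) (hIn Z hZ2)]
    refine integral_mono_ae (((hI _ _ (hzi i) hZ2).const_mul 2).sub (hIn Z hZ2)) (hIn _ (hzi i))
      (Eventually.of_forall fun s => ?_)
    have := norm_sub_sq_real (z i s) (Z s)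
    simp only
    nlinarith [sq_nonneg ‖z i s - Z s‖]
  have hR0 : Tendsto (fun i => ⟪R i t (û t), û t⟫_ℝ) F (𝓝 ⟪R0 t (û t), û t⟫_ℝ) :=
    (hstr t ht (û t)).inner tendsto_const_nhds
  have hlim : Tendsto (fun i => (2 * ⟪R i t (u i t), û t⟫_ℝ - ⟪R i t (û t), û t⟫_ℝ) +
      2 * (2 * (∫ s in Ioc 0 t, ⟪z i s, Z s⟫_ℝ) - (∫ s in Ioc 0 t, ‖Z s‖ ^ 2))) F
      (𝓝 ((2 * ⟪R0 t (û t), û t⟫_ℝ - ⟪R0 t (û t), û t⟫_ℝ) +
      2 * (2 * (∫ s in Ioc 0 t, ⟪Z s, Z s⟫_ℝ) - (∫ s in Ioc 0 t, ‖Z s‖ ^ 2)))) :=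
    (((hRw t ht (û t)).const_mul 2).sub hR0).add
      (((hlim1.const_mul 2).sub tendsto_const_nhds).const_mul 2)
  have hfin := le_of_tendsto hlim (b := b) (by
    filter_upwards [hb] with i hi
    rw [intervalIntegral.integral_of_le ht.1] at hi
    have e1 := A4.quad_low (R i t) (hO.sa i t ht) (hO.low i t ht) (u i t) (û t)
    have e2 := hlow i
    linarith)
  rw [hZZ] at hfin
  rw [intervalIntegral.integral_of_le ht.1]
  linarith

end N979MH
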