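import Pool.Agent.N979.MH.Stm

/-! MH/BASIS (written by helper282 for project MH of helper979). -/

open MeasureTheory Set Filter Topology
open scoped InnerProductSpace ENNReal ContDiff NNReal

namespace N979MH

open H772R2.NS

/-- the span of test fields consists of test fields -/
theorem isTest_span {Ω : Set E3} {m : ℕ} {v : Fin m → E3 → E3} (hv : ∀ i, IsTest Ω (v i))
    {φ : E3 → E3} (h : φ ∈ Submodule.span ℝ (Set.range v)) : IsTest Ω φ := by
  induction h using Submodule.span_induction with
  | mem x hx =>
    obtain ⟨i, rfl⟩ := hx
    exact hv i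
  | zero => exact IsTest.zero
  | add x y _ _ hx hy => exact hx.add hy
  | smul c x _ hx => exact hx.smul c

theorem basis_holds : StmBasis := by
  intro Ω m v hv
  let S : Submodule ℝ (E3 → E3) := Submodule.span ℝ (Set.range v)
  have : Module.Finite ℝ S := Module.Finite.span_of_finite ℝ (Set.finite_range v)
  let b : Module.Basis (Fin (Module.finrank ℝ S)) ℝ S := Module.finBasis ℝ S
  refine ⟨Module.finrank ℝ S, fun k => (b k : E3 → E3), fun k => isTest_span hv (b k).2, ?_, ?_⟩
  · have := b.linearIndependent.map' S.subtype (Submodule.ker_subtype S)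
    exact this
  · intro i
    have hi : v i ∈ S := Submodule.subset_span (Set.mem_range_self i)
    refine ⟨b.repr ⟨v i, hi⟩, ?_⟩
    have h1 := b.sum_repr ⟨v i, hi⟩
    have h2 := congrArg (fun w : S => (w : E3 → E3)) h1
    simp only [Submodule.coe_sum, Submodule.coe_smul] at h2
    funext x
    have h3 := congrFun h2 x
    rw [← h3]
    simp [fld, Finset.sum_apply]

end N979MH
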