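import Pool.Agent.N979.MH.Stm

/-!
Project MH, module BOOT: the bootstrap.
-/

open MeasureTheory Set Filter Topology

namespace N979MH

/-- one stage of the bootstrap -/
lemma boot_stage {n e e' : ℝ → ℝ} (hn : Continuous n) (hn0 : ∀ s, 0 ≤ n s) {t0 a b T c G H m B2 : ℝ}
    (h0 : t0 ≤ a) (hab : a < b) (hbT : b ≤ T) (hc : 0 < c) (hcm : c ≤ m / 2) (hG : 0 < G)
    (he : ∀ s ∈ Icc t0 T, HasDerivWithinAt e (e' s) (Icc t0 T) s)
    (he0 : ∀ s ∈ Icc t0 T, 0 ≤ e s)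
    (hineq : ∀ s ∈ Icc a b, (∫ τ in t0..s, n τ) ≤ m * G →
      e' s ≤ -(1 / 2) * n s ^ 2 + c ^ 2 / 16 * B2)
    (hB0 : 0 ≤ B2) (hB : B2 * (b - a) ≤ H) (hH : H = G ^ 2 / (b - a))
    (hEa : e a + 1 / 2 * (∫ τ in t0..a, n τ ^ 2) ≤ c ^ 2 / 16 * (H / 2))
    (hga : (∫ τ in t0..a, n τ) ≤ c * G / 2) :
    e b + 1 / 2 * (∫ τ in t0..b, n τ ^ 2) ≤ 2 * (c ^ 2 / 16) * H ∧ (∫ τ in t0..b, n τ) ≤ c * G := by
  have hL : 0 < b - a := by linarith
  have hH0 : 0 < H := by rw [hH]; positivity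
  have hm : 0 < m := by linarith
  have hint : ∀ x y, IntervalIntegrable n volume x y := fun x y => hn.intervalIntegrable x y
  have hint2 : ∀ x y, IntervalIntegrable (fun τ => n τ ^ 2) volume x y :=
    fun x y => (hn.pow 2).intervalIntegrable x y
  have hmono : ∀ x y, x ≤ y → (∫ τ in t0..x, n τ) ≤ ∫ τ in t0..y, n τ := by
    intro x y hxy
    have h1 := intervalIntegral.integral_add_adjacent_intervals (hint t0 x) (hint x y)
    have h2 : 0 ≤ ∫ τ in x..y, n τ := intervalIntegral.integral_nonneg hxy fun τ _ => hn0 τ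
    linarith
  have hN0 : ∀ x, t0 ≤ x → 0 ≤ ∫ τ in t0..x, n τ ^ 2 := fun x hx =>
    intervalIntegral.integral_nonneg hx fun τ _ => sq_nonneg _
  have claim : ∀ s ∈ Icc a b, (∫ τ in t0..s, n τ) ≤ m * G →
      e s + 1 / 2 * (∫ τ in t0..s, n τ ^ 2) ≤ 2 * (c ^ 2 / 16) * H ∧
        (∫ τ in t0..s, n τ) ≤ c * G := by
    intro s hs hgs
    have hNd : ∀ τ, HasDerivAt (fun τ => ∫ x in t0..τ, n x ^ 2) (n τ ^ 2) τ := fun τ =>
      intervalIntegral.integral_hasDerivAt_right (hint2 t0 τ)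
        ((hn.pow 2).stronglyMeasurableAtFilter volume (𝓝 τ)) (hn.pow 2).continuousAt
    have hed : ∀ τ ∈ Ioo a s, HasDerivAt e (e' τ) τ := by
      intro τ hτ
      have h1 : τ ∈ Icc t0 T := ⟨by linarith [hτ.1], by linarith [hτ.2, hs.2]⟩
      exact (he τ h1).hasDerivAt (Icc_mem_nhds (by linarith [hτ.1]) (by linarith [hτ.2, hs.2]))
    have hφd : ∀ τ ∈ Ioo a s, HasDerivAt (fun τ => e τ + 1 / 2 * (∫ x in t0..τ, n x ^ 2)
        - c ^ 2 / 16 * B2 * (τ - a)) (e' τ + 1 / 2 * n τ ^ 2 - c ^ 2 / 16 * B2 * 1) τ := by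
      intro τ hτ
      exact ((hed τ hτ).add ((hNd τ).const_mul _)).sub
        (((hasDerivAt_id τ).sub_const a).const_mul _)
    have hanti : AntitoneOn (fun τ => e τ + 1 / 2 * (∫ x in t0..τ, n x ^ 2)
        - c ^ 2 / 16 * B2 * (τ - a)) (Icc a s) := by
      apply antitoneOn_of_deriv_nonpos (convex_Icc a s)
      · have h1 : ContinuousOn e (Icc a s) := by
          intro τ hτ
          have h2 : τ ∈ Icc t0 T := ⟨by linarith [hτ.1], by linarith [hτ.2, hs.2]⟩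
          exact (he τ h2).continuousWithinAt.mono
            (Icc_subset_Icc h0 (by linarith [hs.2]))
        have h3 : Continuous (fun τ => ∫ x in t0..τ, n x ^ 2) :=
          continuous_iff_continuousAt.2 fun τ => (hNd τ).continuousAt
        exact (h1.add (h3.continuousOn.const_smul (1 / 2 : ℝ))).sub
          (by fun_prop)
      · intro τ hτ
        rw [interior_Icc] at hτ
        exact (hφd τ hτ).differentiableAt.differentiableWithinAt
      · intro τ hτ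
        rw [interior_Icc] at hτ
        rw [(hφd τ hτ).deriv]
        have h1 := hineq τ ⟨hτ.1.le, by linarith [hτ.2, hs.2]⟩ ((hmono τ s hτ.2.le).trans hgs)
        linarith
    have h1 := hanti (left_mem_Icc.2 hs.1) (right_mem_Icc.2 hs.1) hs.1
    simp only [sub_self, mul_zero, sub_zero] at h1
    have h2 : B2 * (s - a) ≤ H := by
      have : B2 * (s - a) ≤ B2 * (b - a) := mul_le_mul_of_nonneg_left (by linarith [hs.2]) hB0
      linarith
    have h3 : c ^ 2 / 16 * (B2 * (s - a)) ≤ c ^ 2 / 16 * H :=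
      mul_le_mul_of_nonneg_left h2 (by positivity)
    have hc16 : 0 ≤ c ^ 2 / 16 * H := by positivity
    have hE : e s + 1 / 2 * (∫ τ in t0..s, n τ ^ 2) ≤ 2 * (c ^ 2 / 16) * H := by
      nlinarith [h1, h3, hEa, hc16]
    refine ⟨hE, ?_⟩
    have hes : 0 ≤ e s := he0 s ⟨by linarith [hs.1], by linarith [hs.2]⟩
    have hNs : (∫ τ in t0..s, n τ ^ 2) ≤ c ^ 2 / 4 * H := by nlinarith
    set lm : ℝ := c * G / (2 * (b - a)) with hlm
    have hlm0 : 0 < lm := by positivity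
    have hpt : ∀ τ, n τ ≤ 1 / (2 * lm) * n τ ^ 2 + lm / 2 := by
      intro τ
      have h4 : 0 ≤ (n τ - lm) ^ 2 / (2 * lm) := by positivity
      have h5 : (n τ - lm) ^ 2 / (2 * lm) = 1 / (2 * lm) * n τ ^ 2 + lm / 2 - n τ := by
        field_simp
        ring
      linarith
    have h6 : (∫ τ in a..s, n τ) ≤ ∫ τ in a..s, (1 / (2 * lm) * n τ ^ 2 + lm / 2) :=
      intervalIntegral.integral_mono_on hs.1 (hint a s)
        (((hn.pow 2).const_mul _ |>.add continuous_const).intervalIntegrable a s)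
        fun τ _ => hpt τ
    have h7 : (∫ τ in a..s, (1 / (2 * lm) * n τ ^ 2 + lm / 2)) =
        1 / (2 * lm) * (∫ τ in a..s, n τ ^ 2) + lm / 2 * (s - a) := by
      rw [intervalIntegral.integral_add ((hint2 a s).const_mul _)
        intervalIntegrable_const, intervalIntegral.integral_const_mul,
        intervalIntegral.integral_const, smul_eq_mul]
      ring
    have h8 := intervalIntegral.integral_add_adjacent_intervals (hint t0 a) (hint a s)
    have h9 := intervalIntegral.integral_add_adjacent_intervals (hint2 t0 a) (hint2 a s)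
    have h10 : (∫ τ in a..s, n τ ^ 2) ≤ c ^ 2 / 4 * H := by linarith [hN0 a h0]
    have h11 : 1 / (2 * lm) * (∫ τ in a..s, n τ ^ 2) ≤ 1 / (2 * lm) * (c ^ 2 / 4 * H) :=
      mul_le_mul_of_nonneg_left h10 (by positivity)
    have h12 : 1 / (2 * lm) * (c ^ 2 / 4 * H) = c * G / 4 := by
      rw [hH, hlm]
      field_simp
    have h13 : lm / 2 * (s - a) ≤ lm / 2 * (b - a) :=
      mul_le_mul_of_nonneg_left (by linarith [hs.2]) (by positivity)
    have h14 : lm / 2 * (b - a) = c * G / 4 := by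
      rw [hlm]
      field_simp
      ring
    linarith
  have hgc : ContinuousOn (fun s => ∫ τ in t0..s, n τ) (Icc a b) := by
    have : Continuous (fun s => ∫ τ in t0..s, n τ) :=
      intervalIntegral.continuous_primitive (fun x y => hint x y) t0
    exact this.continuousOn
  have hmG : 0 < m * G := by positivity
  have hcG : c * G ≤ m * G / 2 := by nlinarith
  have hb : (∫ τ in t0..b, n τ) ≤ m * G := by
    by_contra hcon
    push Not at hcon
    have h1 : m * G ∈ Icc (∫ τ in t0..a, n τ) (∫ τ in t0..b, n τ) := ⟨by nlinarith, hcon.le⟩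
    obtain ⟨s, hs, hs'⟩ := intermediate_value_Icc hab.le hgc h1
    have hs'' : (∫ τ in t0..s, n τ) = m * G := hs'
    have h2 := (claim s hs hs''.le).2
    nlinarith
  exact claim b (right_mem_Icc.2 hab.le) hb

/-! ### the parameters -/

lemma phie_pos : 0 < phie := by
  unfold phie
  positivity

lemma phie_lt : phie < 4 := by
  unfold phie
  linarith [Real.pi_lt_d2]

lemma r_pos (P : Par) (j : ℕ) : 0 < P.r j := by
  unfold Par.r
  have := P.hr
  positivity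

lemma r_le (P : Par) (j : ℕ) : P.r j ≤ P.r0 := by
  unfold Par.r
  exact div_le_self P.hr.le (one_le_pow₀ (by norm_num))

lemma r_succ (P : Par) (j : ℕ) : P.r (j + 1) = P.r j / 2 := by
  unfold Par.r
  rw [pow_succ]
  field_simp

lemma k_pos (P : Par) (j : ℕ) : (0 : ℝ) < P.k j := by
  have := P.hk
  unfold Par.k
  positivity

lemma k_eq (P : Par) (j : ℕ) : (P.k j : ℝ) = P.k0 * 8 ^ j := by
  unfold Par.k
  push_cast
  rfl

lemma k_succ (P : Par) (j : ℕ) : (P.k (j + 1) : ℝ) = 8 * P.k j := by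
  rw [k_eq, k_eq, pow_succ]
  ring

lemma A_pos (P : Par) (j : ℕ) : 0 < P.A j := by
  unfold Par.A
  have := phie_pos
  have := r_pos P j
  have := k_pos P j
  positivity

lemma A_succ (P : Par) (j : ℕ) : P.A (j + 1) = P.A j / 64 := by
  unfold Par.A
  rw [r_succ, k_succ]
  have := (k_pos P j).ne'
  field_simp
  ring

lemma dA_eq (P : Par) (j : ℕ) : P.dA j = 63 / 64 * P.A j := by
  unfold Par.dA
  rw [A_succ]
  ring

lemma dA_pos (P : Par) (j : ℕ) : 0 < P.dA j := by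
  rw [dA_eq]
  have := A_pos P j
  positivity

lemma dA_le (P : Par) (j : ℕ) : P.dA j ≤ P.A j := by
  rw [dA_eq]
  have := A_pos P j
  linarith

lemma t_pos (P : Par) (j : ℕ) : 0 < P.t j := by
  unfold Par.t
  have := P.hT
  positivity

lemma t_succ (P : Par) (j : ℕ) : P.t (j + 1) = 3 / 4 * P.t j := by
  unfold Par.t
  rw [pow_succ]
  ring

lemma t_zero (P : Par) : P.t 0 = P.T := by
  unfold Par.t
  simp

lemma dl_eq (P : Par) (j : ℕ) : P.dl j = P.T / 4 * (3 / 4) ^ j := by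
  unfold Par.dl Par.t
  rw [pow_succ]
  ring

lemma dl_pos (P : Par) (j : ℕ) : 0 < P.dl j := by
  rw [dl_eq]
  have := P.hT
  positivity

lemma dl_succ (P : Par) (j : ℕ) : P.dl (j + 1) = 3 / 4 * P.dl j := by
  rw [dl_eq, dl_eq, pow_succ]
  ring

lemma t_anti (P : Par) {i j : ℕ} (h : i ≤ j) : P.t j ≤ P.t i := by
  unfold Par.t
  exact mul_le_mul_of_nonneg_left (pow_le_pow_of_le_one (by norm_num) (by norm_num) h) P.hT.le

/-- the force amplitude -/
lemma F_bd (hb : StmBump) (P : Par) (j : ℕ) (s : ℝ) :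
    0 ≤ P.F j s ∧ P.F j s ≤ 2 * (P.dA j / P.dl j) := by
  obtain ⟨-, h0, h2, -⟩ := hb
  have h3 : 0 < P.dA j / P.dl j := div_pos (dA_pos P j) (dl_pos P j)
  unfold Par.F
  refine ⟨mul_nonneg h3.le (h0 _), ?_⟩
  have := mul_le_mul_of_nonneg_left (h2 ((s - P.t (j + 1)) / P.dl j)) h3.le
  linarith

/-- `G_j` -/
noncomputable def bG (P : Par) (j : ℕ) : ℝ := P.A j * P.r j ^ (-(3 / 2) : ℝ)

lemma u_pos (P : Par) (j : ℕ) : 0 < P.r j ^ (-(3 / 2) : ℝ) := Real.rpow_pos_of_pos (r_pos P j) _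

lemma u_sq (P : Par) (j : ℕ) : (P.r j ^ (-(3 / 2) : ℝ)) ^ 2 = (P.r j ^ 3)⁻¹ := by
  have hr := r_pos P j
  rw [← Real.rpow_natCast, ← Real.rpow_mul hr.le]
  have : (-(3 / 2) : ℝ) * ((2 : ℕ) : ℝ) = -(3 : ℕ) := by push_cast; norm_num
  rw [this, Real.rpow_neg hr.le, Real.rpow_natCast]

lemma bG_pos (P : Par) (j : ℕ) : 0 < bG P j := mul_pos (A_pos P j) (u_pos P j)

lemma bG_sq (P : Par) (j : ℕ) : bG P j ^ 2 = P.A j ^ 2 * (P.r j ^ 3)⁻¹ := by
  unfold bG
  rw [mul_pow, u_sq]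

lemma bG_succ_sq (P : Par) (j : ℕ) : bG P (j + 1) ^ 2 = bG P j ^ 2 / 512 := by
  rw [bG_sq, bG_sq, A_succ, r_succ]
  have := (r_pos P j).ne'
  field_simp
  ring

lemma bG_succ (P : Par) (j : ℕ) : bG P (j + 1) ≤ bG P j / 2 := by
  have h1 := bG_succ_sq P j
  have h2 := bG_pos P j
  have h3 := bG_pos P (j + 1)
  nlinarith [sq_nonneg (bG P j)]

lemma bH_succ (P : Par) (j : ℕ) :
    bG P (j + 1) ^ 2 / P.dl (j + 1) = bG P j ^ 2 / P.dl j / 384 := by
  rw [bG_succ_sq, dl_succ]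
  have := (dl_pos P j).ne'
  field_simp
  ring

/-- the pointwise inequality in one stage -/
lemma boot_point {C m e' n F u B kr r32 r12 r72 r3 gq : ℝ} (hC : 0 < C) (hm : 0 < m) (hn : 0 ≤ n)
    (hF : 0 ≤ F) (hu : 0 ≤ u) (hFu : F * u ≤ 2 * B) (hkr : kr ≤ m) (h32 : r32 ≤ m)
    (hgq : gq ≤ m) (h12 : r12 ≤ B * m) (h72 : r72 ≤ 2 * B * m) (h3 : C * F * r3 ≤ 1 / 4)
    (h : e' ≤ - n ^ 2 + C * F * u * (kr + r32 + m + gq) * n + C * (r12 + r72) * n
      + C * F * r3 * n ^ 2) :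
    e' ≤ -(1 / 2) * n ^ 2 + (48 * C * m) ^ 2 / 16 * B ^ 2 := by
  have h1 : C * F * u * (kr + r32 + m + gq) * n ≤ 8 * C * m * B * n := by
    have h4 : C * F * u * (kr + r32 + m + gq) ≤ C * F * u * (4 * m) :=
      mul_le_mul_of_nonneg_left (by linarith) (by positivity)
    have h5 : C * F * u * (4 * m) = (4 * C * m) * (F * u) := by ring
    have h6 : (4 * C * m) * (F * u) ≤ (4 * C * m) * (2 * B) :=
      mul_le_mul_of_nonneg_left hFu (by positivity)
    have h7 := mul_le_mul_of_nonneg_right (h4.trans (h5.le.trans h6)) hn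
    linarith
  have h2 : C * (r12 + r72) * n ≤ 3 * C * m * B * n := by
    have h4 : C * (r12 + r72) ≤ C * (3 * B * m) := mul_le_mul_of_nonneg_left (by linarith) hC.le
    have := mul_le_mul_of_nonneg_right h4 hn
    linarith
  have h4 : C * F * r3 * n ^ 2 ≤ 1 / 4 * n ^ 2 := mul_le_mul_of_nonneg_right h3 (sq_nonneg n)
  have h5 : 0 ≤ (n / 2 - 11 * (C * m * B)) ^ 2 := sq_nonneg _
  have h6 : 0 ≤ (C * m * B) ^ 2 := sq_nonneg _
  nlinarith [h1, h2, h4, h5, h6]

theorem boot_holds (hb : StmBump) : StmBoot := by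
  intro C T d ε K hC hT hd hd1 hε
  -- the small parameter
  obtain ⟨μ, hμ0, hμ1, hμε, hμC⟩ : ∃ μ : ℝ, 0 < μ ∧ μ ≤ 1 ∧ μ ≤ ε ∧ 96 * C * μ ^ 3 ≤ 1 := by
    refine ⟨min (min 1 ε) (1 / (96 * C)), by positivity, (min_le_left _ _).trans (min_le_left _ _),
      (min_le_left _ _).trans (min_le_right _ _), ?_⟩
    set μ := min (min 1 ε) (1 / (96 * C)) with hμ
    have h0 : 0 < μ := by positivity
    have h1 : μ ≤ 1 := (min_le_left _ _).trans (min_le_left _ _)
    have h2 : μ ≤ 1 / (96 * C) := min_le_right _ _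
    have h3 : μ ^ 3 ≤ μ := by
      calc μ ^ 3 ≤ μ ^ 1 := pow_le_pow_of_le_one h0.le h1 (by norm_num)
        _ = μ := pow_one μ
    have h4 : 96 * C * (1 / (96 * C)) = 1 := by field_simp
    calc 96 * C * μ ^ 3 ≤ 96 * C * (1 / (96 * C)) :=
          mul_le_mul_of_nonneg_left (h3.trans h2) (by positivity)
      _ = 1 := h4
  set m : ℝ := μ ^ 8 with hm
  have hm0 : 0 < m := by positivity
  have hm1 : m ≤ 1 := pow_le_one₀ hμ0.le hμ1
  -- the outer radius
  obtain ⟨r0, hr0, hr0m, hr0T, hr0d⟩ : ∃ r0 : ℝ, 0 < r0 ∧ r0 ≤ m ∧ r0 ≤ T * m / 4 ∧ 4 * r0 ≤ d :=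
    ⟨min (min m (T * m / 4)) (d / 4), by positivity, (min_le_left _ _).trans (min_le_left _ _),
      (min_le_left _ _).trans (min_le_right _ _), by
        have := min_le_right (min m (T * m / 4)) (d / 4)
        linarith⟩
  -- the frequency
  obtain ⟨k0, hk0, hk0K, hk1, hk2, hk3⟩ : ∃ k0 : ℕ, 0 < k0 ∧ K ≤ k0 ∧ (m * r0)⁻¹ ≤ k0 ∧
      384 * C / T ≤ k0 ∧ 96 / (T * m) ≤ k0 := by
    refine ⟨K + 1 + ⌈(m * r0)⁻¹⌉₊ + ⌈384 * C / T⌉₊ + ⌈96 / (T * m)⌉₊, by omega, by omega, ?_, ?_, ?_⟩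
    · have h1 := Nat.le_ceil (m * r0)⁻¹
      push_cast
      linarith [Nat.cast_nonneg (α := ℝ) K, Nat.cast_nonneg (α := ℝ) ⌈384 * C / T⌉₊,
        Nat.cast_nonneg (α := ℝ) ⌈96 / (T * m)⌉₊]
    · have h1 := Nat.le_ceil (384 * C / T)
      push_cast
      linarith [Nat.cast_nonneg (α := ℝ) K, Nat.cast_nonneg (α := ℝ) ⌈(m * r0)⁻¹⌉₊,
        Nat.cast_nonneg (α := ℝ) ⌈96 / (T * m)⌉₊]
    · have h1 := Nat.le_ceil (96 / (T * m))
      push_cast
      linarith [Nat.cast_nonneg (α := ℝ) K, Nat.cast_nonneg (α := ℝ) ⌈(m * r0)⁻¹⌉₊,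
        Nat.cast_nonneg (α := ℝ) ⌈384 * C / T⌉₊]
  refine ⟨⟨d, r0, T, k0, hd, hd1, hr0, hr0d, hk0, hT⟩, rfl, rfl, hk0K, ?_⟩
  set P : Par := ⟨d, r0, T, k0, hd, hd1, hr0, hr0d, hk0, hT⟩ with hP
  have hPT : P.T = T := rfl
  have hPr : P.r0 = r0 := rfl
  have hPk : P.k0 = k0 := rfl
  intro J e e' n hJ hn hn0 he0 heJ he hineq
  have hk0' : (0 : ℝ) < k0 := by exact_mod_cast hk0
  -- the facts on the parameters
  have hrm : ∀ j, P.r j ≤ m := fun j => (r_le P j).trans hr0m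
  have hr1 : ∀ j, P.r j ≤ 1 := fun j => (hrm j).trans hm1
  have f1 : ∀ j, ((P.k j : ℝ) * P.r j)⁻¹ ≤ m := by
    intro j
    have h1 : (P.k j : ℝ) * P.r j = k0 * r0 * 4 ^ j := by
      rw [k_eq]
      unfold Par.r
      rw [hPk, hPr]
      have : (8 : ℝ) ^ j = 4 ^ j * 2 ^ j := by rw [← mul_pow]; norm_num
      rw [this]
      field_simp
    have h2 : (k0 : ℝ) * r0 ≤ k0 * r0 * 4 ^ j :=
      le_mul_of_one_le_right (by positivity) (one_le_pow₀ (by norm_num))
    have h3 : m⁻¹ ≤ k0 * r0 := by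
      have h4 := mul_le_mul_of_nonneg_right hk1 hr0.le
      have h5 : (m * r0)⁻¹ * r0 = m⁻¹ := by field_simp
      linarith
    rw [h1]
    exact inv_le_of_inv_le₀ hm0 (h3.trans h2)
  have f2 : ∀ j, P.r j ^ (3 / 2 : ℝ) ≤ m := by
    intro j
    calc P.r j ^ (3 / 2 : ℝ) ≤ P.r j ^ (1 : ℝ) :=
          Real.rpow_le_rpow_of_exponent_ge (r_pos P j) (hr1 j) (by norm_num)
      _ = P.r j := Real.rpow_one _
      _ ≤ m := hrm j
  have f3 : ∀ j, P.r j / P.dl j ≤ m := by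
    intro j
    rw [div_le_iff₀ (dl_pos P j), dl_eq, hPT]
    have h1 : P.r j ≤ r0 * (3 / 4) ^ j := by
      unfold Par.r
      rw [hPr, div_eq_mul_inv, ← inv_pow]
      exact mul_le_mul_of_nonneg_left (pow_le_pow_left₀ (by norm_num) (by norm_num) j) hr0.le
    have h2 : r0 * (3 / 4) ^ j ≤ T * m / 4 * (3 / 4) ^ j :=
      mul_le_mul_of_nonneg_right hr0T (by positivity)
    linarith
  have f4 : ∀ j s, P.F j s * (P.r j ^ 3)⁻¹ ≤ 96 / (k0 * T) := by
    intro j s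
    have h1 := (F_bd hb P j s).2
    have hr := r_pos P j
    have hdl := dl_pos P j
    have h2 : P.F j s * (P.r j ^ 3)⁻¹ ≤ 2 * (P.A j / P.dl j) * (P.r j ^ 3)⁻¹ := by
      apply mul_le_mul_of_nonneg_right _ (by positivity)
      have : P.dA j / P.dl j ≤ P.A j / P.dl j := div_le_div_of_nonneg_right (dA_le P j) hdl.le
      linarith
    have h3 : 2 * (P.A j / P.dl j) * (P.r j ^ 3)⁻¹ = 6 * phie / (P.k j * P.dl j) := by
      unfold Par.A
      have := (k_pos P j).ne'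
      field_simp
      ring
    have h4 : (P.k j : ℝ) * P.dl j = k0 * T / 4 * 6 ^ j := by
      rw [k_eq, dl_eq, hPT, hPk]
      have : (6 : ℝ) ^ j = 8 ^ j * (3 / 4) ^ j := by rw [← mul_pow]; norm_num
      rw [this]
      ring
    have h5 : k0 * T / 4 ≤ (P.k j : ℝ) * P.dl j := by
      rw [h4]
      exact le_mul_of_one_le_right (by positivity) (one_le_pow₀ (by norm_num))
    have h6 : 6 * phie / (P.k j * P.dl j) ≤ 6 * 4 / (k0 * T / 4) :=
      div_le_div₀ (by norm_num) (by linarith [phie_lt]) (by positivity) h5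
    have h7 : (6 * 4 / (k0 * T / 4) : ℝ) = 96 / (k0 * T) := by
      field_simp
      norm_num
    linarith
  have f5 : ∀ j s, C * P.F j s * P.r j ^ (-(3 : ℝ)) ≤ 1 / 4 := by
    intro j s
    have h1 : P.r j ^ (-(3 : ℝ)) = (P.r j ^ 3)⁻¹ := by
      rw [Real.rpow_neg (r_pos P j).le]
      congr 1
      exact_mod_cast Real.rpow_natCast (P.r j) 3
    rw [h1, mul_assoc]
    have h2 : C * (P.F j s * (P.r j ^ 3)⁻¹) ≤ C * (96 / (k0 * T)) :=
      mul_le_mul_of_nonneg_left (f4 j s) hC.le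
    have h3 : C * (96 / (k0 * T)) ≤ 1 / 4 := by
      rw [mul_div_assoc', div_le_iff₀ (by positivity)]
      rw [div_le_iff₀ hT] at hk2
      linarith
    linarith
  have f6 : ∀ j s, P.F j s * (P.r j ^ 2)⁻¹ ≤ m := by
    intro j s
    have hr := r_pos P j
    have h0 := (F_bd hb P j s).1
    have h1 : P.F j s * (P.r j ^ 2)⁻¹ = P.F j s * (P.r j ^ 3)⁻¹ * P.r j := by
      field_simp
    have h2 : P.F j s * (P.r j ^ 3)⁻¹ * P.r j ≤ P.F j s * (P.r j ^ 3)⁻¹ * 1 :=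
      mul_le_mul_of_nonneg_left (hr1 j) (by positivity)
    have h3 : (96 / (k0 * T) : ℝ) ≤ m := by
      rw [div_le_iff₀ (by positivity)]
      rw [div_le_iff₀ (by positivity)] at hk3
      linarith
    linarith [f4 j s]
  -- the constant
  set c : ℝ := 48 * C * m with hc
  have hc0 : 0 < c := by positivity
  have hcm : c ≤ μ ^ 5 / 2 := by
    have h1 : c = (96 * C * μ ^ 3) * (μ ^ 5 / 2) := by
      rw [hc, hm]
      ring
    rw [h1]
    exact mul_le_of_le_one_left (by positivity) hμC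
  -- one stage
  have hstage : ∀ j < J, ∀ s ∈ Icc (P.t (j + 1)) (P.t j),
      (∫ τ in P.t J..s, n τ) ≤ μ ^ 5 * bG P j →
      e' s ≤ -(1 / 2) * n s ^ 2
        + c ^ 2 / 16 * (P.dA j / P.dl j * P.r j ^ (-(3 / 2) : ℝ)) ^ 2 := by
    intro j hj s hs hg
    have hr := r_pos P j
    have hdl := dl_pos P j
    have hu := u_pos P j
    have hF := F_bd hb P j s
    have hdA : 0 < P.dA j / P.dl j := div_pos (dA_pos P j) hdl
    have hsJ : P.t J ≤ s := (t_anti P (by omega : j + 1 ≤ J)).trans hs.1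
    have hg0 : 0 ≤ ∫ τ in P.t J..s, n τ :=
      intervalIntegral.integral_nonneg hsJ fun τ _ => hn0 τ
    refine boot_point (u := P.r j ^ (-(3 / 2) : ℝ)) (F := P.F j s) hC hm0 (hn0 s) hF.1 hu.le
      ?_ (f1 j) (f2 j) ?_ ?_ ?_ (f5 j s) (hineq j hj s hs μ hμ0 hμ1)
    · calc P.F j s * P.r j ^ (-(3 / 2) : ℝ) ≤ 2 * (P.dA j / P.dl j) * P.r j ^ (-(3 / 2) : ℝ) :=
            mul_le_mul_of_nonneg_right hF.2 hu.le
        _ = 2 * (P.dA j / P.dl j * P.r j ^ (-(3 / 2) : ℝ)) := by ring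
    · have h1 : (∫ τ in P.t J..s, n τ) / (P.A j * P.r j ^ (-(3 / 2) : ℝ)) ≤ μ ^ 5 := by
        exact (div_le_iff₀ (show 0 < P.A j * P.r j ^ (-(3 / 2) : ℝ) from bG_pos P j)).2 hg
      have h2 : 0 ≤ (∫ τ in P.t J..s, n τ) / (P.A j * P.r j ^ (-(3 / 2) : ℝ)) :=
        div_nonneg hg0 (bG_pos P j).le
      calc ((∫ τ in P.t J..s, n τ) / (P.A j * P.r j ^ (-(3 / 2) : ℝ))) ^ 5 * (μ ^ 15)⁻¹
          ≤ (μ ^ 5) ^ 5 * (μ ^ 15)⁻¹ :=
            mul_le_mul_of_nonneg_right (pow_le_pow_left₀ h2 h1 5) (by positivity)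
        _ = μ ^ 10 := by
            field_simp
        _ ≤ μ ^ 8 := pow_le_pow_of_le_one hμ0.le hμ1 (by norm_num)
    · -- `dA / dl² r^(-1/2) ≤ B m`
      have h1 : P.r j ^ (-(1 / 2) : ℝ) = P.r j ^ (-(3 / 2) : ℝ) * P.r j := by
        nth_rewrite 3 [← Real.rpow_one (P.r j)]
        rw [← Real.rpow_add hr]
        norm_num
      have h2 : P.dA j / P.dl j ^ 2 * P.r j ^ (-(1 / 2) : ℝ) =
          P.dA j / P.dl j * P.r j ^ (-(3 / 2) : ℝ) * (P.r j / P.dl j) := by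
        rw [h1]
        field_simp
      rw [h2]
      exact mul_le_mul_of_nonneg_left (f3 j) (by positivity)
    · have h1 : P.r j ^ (-(7 / 2) : ℝ) = P.r j ^ (-(3 / 2) : ℝ) * (P.r j ^ 2)⁻¹ := by
        rw [← Real.rpow_natCast, ← Real.rpow_neg hr.le, ← Real.rpow_add hr]
        norm_num
      have h2 : P.F j s ^ 2 * P.r j ^ (-(7 / 2) : ℝ) =
          (P.F j s * P.r j ^ (-(3 / 2) : ℝ)) * (P.F j s * (P.r j ^ 2)⁻¹) := by
        rw [h1]
        ring
      rw [h2]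
      have h3 : P.F j s * P.r j ^ (-(3 / 2) : ℝ) ≤
          2 * (P.dA j / P.dl j * P.r j ^ (-(3 / 2) : ℝ)) := by
        calc P.F j s * P.r j ^ (-(3 / 2) : ℝ) ≤ 2 * (P.dA j / P.dl j) * P.r j ^ (-(3 / 2) : ℝ) :=
              mul_le_mul_of_nonneg_right hF.2 hu.le
          _ = 2 * (P.dA j / P.dl j * P.r j ^ (-(3 / 2) : ℝ)) := by ring
      exact mul_le_mul h3 (f6 j s) (mul_nonneg hF.1 (by positivity)) (by positivity)
  -- induction
  have hmain : ∀ i ≤ J, e (P.t (J - i)) + 1 / 2 * (∫ τ in P.t J..P.t (J - i), n τ ^ 2)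
        ≤ 2 * (c ^ 2 / 16) * (bG P (J - i) ^ 2 / P.dl (J - i)) ∧
      (∫ τ in P.t J..P.t (J - i), n τ) ≤ c * bG P (J - i) := by
    intro i
    induction i with
    | zero =>
      intro _
      simp only [Nat.sub_zero, intervalIntegral.integral_same, mul_zero, add_zero, heJ]
      have := bG_pos P J
      have := dl_pos P J
      constructor <;> positivity
    | succ i ih =>
      intro hi
      obtain ⟨h1, h2⟩ := ih (by omega)
      obtain ⟨j, hj⟩ : ∃ j, J - i = j + 1 := ⟨J - i - 1, by omega⟩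
      have hj' : J - (i + 1) = j := by omega
      rw [hj] at h1 h2
      rw [hj']
      have hG := bG_pos P j
      have hdl := dl_pos P j
      have htj : P.t j - P.t (j + 1) = P.dl j := rfl
      refine boot_stage hn hn0 (T := T) (m := μ ^ 5)
        (B2 := (P.dA j / P.dl j * P.r j ^ (-(3 / 2) : ℝ)) ^ 2) (H := bG P j ^ 2 / P.dl j)
        (t_anti P (by omega : j + 1 ≤ J)) (by linarith) ?_ hc0 hcm hG he he0
        (hstage j (by omega)) (by positivity) ?_ (by rw [htj]) ?_ ?_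
      · rw [← hPT, ← t_zero P]
        exact t_anti P (Nat.zero_le j)
      · rw [htj]
        have h3 : (P.dA j / P.dl j * P.r j ^ (-(3 / 2) : ℝ)) ^ 2 * P.dl j =
            (P.dA j * P.r j ^ (-(3 / 2) : ℝ)) ^ 2 / P.dl j := by
          field_simp
        rw [h3]
        apply div_le_div_of_nonneg_right _ hdl.le
        apply pow_le_pow_left₀ (mul_nonneg (dA_pos P j).le (u_pos P j).le)
        exact mul_le_mul_of_nonneg_right (dA_le P j) (u_pos P j).le
      · rw [bH_succ] at h1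
        have h3 : 0 < bG P j ^ 2 / P.dl j := by positivity
        have h4 : 0 < c ^ 2 / 16 * (bG P j ^ 2 / P.dl j) := by positivity
        linarith
      · have h3 := mul_le_mul_of_nonneg_left (bG_succ P j) hc0.le
        linarith
  have hfin := (hmain J le_rfl).2
  rw [Nat.sub_self, t_zero, hPT] at hfin
  have h1 : c * bG P 0 ≤ ε * bG P 0 := by
    apply mul_le_mul_of_nonneg_right _ (bG_pos P 0).le
    have h2 : μ ^ 5 ≤ μ := by
      calc μ ^ 5 ≤ μ ^ 1 := pow_le_pow_of_le_one hμ0.le hμ1 (by norm_num)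
        _ = μ := pow_one μ
    linarith
  exact hfin.trans h1

end N979MH
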