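import Pool.Agent.N979.MH.Stm

/-!
Project MH, module BUMP (helper322): the time bump function and the constant `Gm`.
-/

set_option autoImplicit false

open MeasureTheory Set Filter Topology

namespace N979MH

/-- the function `(max 0 x)²` -/
theorem Bump.quad (x h : ℝ) : |(max 0 (x + h)) ^ 2 - (max 0 x) ^ 2 - h • (2 * max 0 x)| ≤ h ^ 2 := by
  rw [smul_eq_mul, abs_le]
  rcases le_total 0 x with hx | hx
  · rw [max_eq_right hx]
    rcases le_total 0 (x + h) with hy | hy
    · rw [max_eq_right hy]
      constructor <;> nlinarith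
    · rw [max_eq_left hy]
      constructor <;> nlinarith
  · rw [max_eq_left hx]
    rcases le_total 0 (x + h) with hy | hy
    · rw [max_eq_right hy]
      constructor <;> nlinarith
    · rw [max_eq_left hy]
      constructor <;> nlinarith

theorem Bump.quad_deriv (x : ℝ) : HasDerivAt (fun y : ℝ => (max 0 y) ^ 2) (2 * max 0 x) x := by
  rw [hasDerivAt_iff_isLittleO_nhds_zero]
  refine Asymptotics.IsBigO.trans_isLittleO (g := fun h : ℝ => h ^ 2) ?_
    (Asymptotics.isLittleO_pow_id one_lt_two)
  refine Asymptotics.IsBigO.of_bound 1 (Eventually.of_forall fun h => ?_)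
  rw [Real.norm_eq_abs, Real.norm_eq_abs, abs_of_nonneg (sq_nonneg h), one_mul]
  exact Bump.quad x h

theorem Bump.hasDeriv (s : ℝ) : HasDerivAt bump (60 * max 0 (s * (1 - s)) * (1 - 2 * s)) s := by
  have h1 : HasDerivAt (fun s : ℝ => s * (1 - s)) (1 - 2 * s) s := by
    have := (hasDerivAt_id s).mul ((hasDerivAt_id s).const_sub 1)
    refine this.congr_deriv ?_
    simp only [id]
    ring
  have h2 := ((Bump.quad_deriv (s * (1 - s))).comp s h1).const_mul 30
  refine h2.congr_deriv ?_
  ring

theorem Bump.cont : Continuous bump := by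
  unfold bump
  fun_prop

theorem Bump.nonneg (s : ℝ) : 0 ≤ bump s := by
  unfold bump
  positivity

theorem Bump.zero_of_le {s : ℝ} (h : s ≤ 0) : bump s = 0 := by
  unfold bump
  rw [max_eq_left (by nlinarith)]
  norm_num

theorem Bump.zero_of_ge {s : ℝ} (h : 1 ≤ s) : bump s = 0 := by
  unfold bump
  rw [max_eq_left (by nlinarith)]
  norm_num

theorem Bump.I_deriv (s : ℝ) : HasDerivAt bumpI (bump s) s :=
  (Bump.cont.integral_hasStrictDerivAt 0 s).hasDerivAt

theorem Bump.I_zero {s : ℝ} (h : s ≤ 0) : bumpI s = 0 := by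
  unfold bumpI
  rw [intervalIntegral.integral_congr (g := fun _ => (0 : ℝ)), intervalIntegral.integral_zero]
  intro v hv
  rw [uIcc_of_ge h] at hv
  exact Bump.zero_of_le hv.2

theorem Bump.I_one : bumpI 1 = 1 := by
  unfold bumpI
  have h1 : ∫ v in (0 : ℝ)..1, bump v = ∫ v in (0 : ℝ)..1, (30 * v ^ 2 - 60 * v ^ 3 + 30 * v ^ 4) := by
    refine intervalIntegral.integral_congr fun v hv => ?_
    rw [uIcc_of_le (by norm_num)] at hv
    unfold bump
    rw [max_eq_right (mul_nonneg hv.1 (by linarith [hv.2]))]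
    ring
  rw [h1]
  have h2 : ∀ x ∈ uIcc (0 : ℝ) 1, HasDerivAt (fun v : ℝ => 10 * v ^ 3 - 15 * v ^ 4 + 6 * v ^ 5)
      (30 * x ^ 2 - 60 * x ^ 3 + 30 * x ^ 4) x := by
    intro x _
    have := (((hasDerivAt_pow 3 x).const_mul 10).sub ((hasDerivAt_pow 4 x).const_mul 15)).add
      ((hasDerivAt_pow 5 x).const_mul 6)
    refine this.congr_deriv ?_
    norm_num
    ring
  rw [intervalIntegral.integral_eq_sub_of_hasDerivAt h2
    (Continuous.intervalIntegrable (by fun_prop) _ _)]
  norm_num

theorem Bump.I_mono : Monotone bumpI := by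
  refine monotone_of_deriv_nonneg (fun s => (Bump.I_deriv s).differentiableAt) fun s => ?_
  rw [(Bump.I_deriv s).deriv]
  exact Bump.nonneg s

theorem Bump.I_of_ge {s : ℝ} (h : 1 ≤ s) : bumpI s = 1 := by
  have h1 : ∫ v in (0 : ℝ)..s, bump v = (∫ v in (0 : ℝ)..1, bump v) + ∫ v in (1 : ℝ)..s, bump v :=
    (intervalIntegral.integral_add_adjacent_intervals (Bump.cont.intervalIntegrable _ _)
      (Bump.cont.intervalIntegrable _ _)).symm
  have h2 : ∫ v in (1 : ℝ)..s, bump v = 0 := by
    rw [intervalIntegral.integral_congr (g := fun _ => (0 : ℝ)), intervalIntegral.integral_zero]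
    intro v hv
    rw [uIcc_of_le h] at hv
    exact Bump.zero_of_ge hv.1
  have h3 := Bump.I_one
  unfold bumpI at h3 ⊢
  rw [h1, h2, h3, add_zero]

/-- **BUMP** -/
theorem bump_holds : StmBump := by
  have hpi := Real.pi_pos
  have hgc0 : 0 < gc := by
    unfold gc
    apply Real.cos_pos_of_mem_Ioo
    constructor <;> linarith
  have hgc1 : gc < 1 := by
    unfold gc
    rw [← Real.cos_zero]
    exact Real.strictAntiOn_cos ⟨le_rfl, hpi.le⟩ ⟨by positivity, by linarith⟩ (by positivity)
  have hcont : Continuous (fun θ : ℝ => max (Real.sin θ - gc) 0) := by fun_prop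
  refine ⟨?_, Bump.nonneg, ?_, fun s h => Bump.zero_of_le h, fun s h => Bump.zero_of_ge h, ?_,
    fun s h => Bump.I_zero h, fun s h => Bump.I_of_ge h, ?_, ?_, Bump.I_deriv, ?_, ?_⟩
  · rw [contDiff_one_iff_deriv]
    refine ⟨fun s => (Bump.hasDeriv s).differentiableAt, ?_⟩
    have : deriv bump = fun s => 60 * max 0 (s * (1 - s)) * (1 - 2 * s) := by
      funext s
      exact (Bump.hasDeriv s).deriv
    rw [this]
    fun_prop
  · intro s
    unfold bump
    have h1 : max 0 (s * (1 - s)) ≤ 1 / 4 := by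
      apply max_le (by norm_num)
      nlinarith [sq_nonneg (s - 1 / 2)]
    have h2 : 0 ≤ max 0 (s * (1 - s)) := le_max_left _ _
    nlinarith
  · intro s
    rw [(Bump.hasDeriv s).deriv]
    rcases le_total 0 (s * (1 - s)) with h | h
    · rw [max_eq_right h]
      set p := s * (1 - s) with hp
      have h1 : (1 - 2 * s) ^ 2 = 1 - 4 * p := by rw [hp]; ring
      have h2 : (60 * p * (1 - 2 * s)) ^ 2 ≤ 6 ^ 2 := by
        have : (60 * p * (1 - 2 * s)) ^ 2 = 3600 * p ^ 2 * (1 - 4 * p) := by
          rw [mul_pow, h1]; ring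
        rw [this]
        have h3 : 0 ≤ (p - 1 / 6) ^ 2 * (p + 1 / 12) := by positivity
        nlinarith
      exact abs_le_of_sq_le_sq h2 (by norm_num)
    · rw [max_eq_left h]
      norm_num
  · intro s
    have := Bump.I_mono (min_le_left s 0)
    rw [Bump.I_zero (min_le_right s 0)] at this
    exact this
  · intro s
    have := Bump.I_mono (le_max_left s 1)
    rw [Bump.I_of_ge (le_max_right s 1)] at this
    exact this
  · unfold Gm
    refine div_pos ?_ (by positivity)
    refine intervalIntegral.integral_pos (by positivity) hcont.continuousOn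
      (fun x _ => le_max_right _ _) ⟨Real.pi / 2, ⟨by positivity, by linarith⟩, ?_⟩
    rw [Real.sin_pi_div_two]
    exact lt_max_of_lt_left (by linarith)
  · unfold Gm
    rw [div_lt_one (by positivity)]
    have h1 : ∀ x ∈ uIoc (0 : ℝ) (2 * Real.pi), ‖max (Real.sin x - gc) 0‖ ≤ 1 - gc := by
      intro x _
      rw [Real.norm_eq_abs, abs_of_nonneg (le_max_right _ _)]
      apply max_le
      · linarith [Real.sin_le_one x]
      · linarith
    have h2 := intervalIntegral.norm_integral_le_of_norm_le_const h1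
    have h3 := le_abs_self (∫ θ in (0 : ℝ)..(2 * Real.pi), max (Real.sin θ - gc) 0)
    rw [Real.norm_eq_abs, sub_zero, abs_of_pos (by positivity : 0 < 2 * Real.pi)] at h2
    nlinarith

end N979MH
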