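import Mathlib
import Pool.Agent.N979.MH.Stm

/-!
Project MH, module CONV: the initial densities converge in `L²`.
-/

open MeasureTheory Set Filter Topology
open scoped InnerProductSpace ENNReal ContDiff NNReal

namespace N979MH

open H772R2.NS

namespace Conv

lemma continuous_zc : Continuous zc := by
  have h : zc = fun x : E3 => ((x 0 : ℝ) : ℂ) + ((x 1 : ℝ) : ℂ) * Complex.I := by
    funext x
    apply Complex.ext <;> simp [zc]
  rw [h]
  fun_prop

lemma measurable_uz : Measurable uz := by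
  unfold uz
  exact continuous_zc.measurable.div
    (Complex.measurable_ofReal.comp continuous_zc.norm.measurable)

lemma measurableSet_shell (P : Par) (j : ℕ) : MeasurableSet (P.shell j) := by
  unfold Par.shell
  exact (measurableSet_lt measurable_const (measurable_norm.pow_const 2)).inter
    (measurableSet_lt (measurable_norm.pow_const 2) measurable_const)

lemma measurable_a (P : Par) (σ : ℝ) (J : ℕ) : Measurable (P.a σ J) := by
  classical
  have hset : MeasurableSet {x : E3 | ∃ j, x ∈ P.shell j ∧ 0 < (uz x ^ P.k j *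
      Complex.exp (((-(σ * P.k j * (if j < J then P.A J / (3 * ‖x‖ ^ 3) else 0)) : ℝ) : ℂ)
        * Complex.I)).re} := by
    have : {x : E3 | ∃ j, x ∈ P.shell j ∧ 0 < (uz x ^ P.k j *
      Complex.exp (((-(σ * P.k j * (if j < J then P.A J / (3 * ‖x‖ ^ 3) else 0)) : ℝ) : ℂ)
        * Complex.I)).re} = ⋃ j, (P.shell j ∩ {x : E3 | 0 < (uz x ^ P.k j *
      Complex.exp (((-(σ * P.k j * (if j < J then P.A J / (3 * ‖x‖ ^ 3) else 0)) : ℝ) : ℂ)
        * Complex.I)).re}) := by
      ext x; simp
    rw [this]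
    refine MeasurableSet.iUnion fun j => (measurableSet_shell P j).inter ?_
    refine measurableSet_lt measurable_const ?_
    refine Complex.measurable_re.comp ?_
    refine (measurable_uz.pow_const _).mul ?_
    refine Complex.measurable_exp.comp ?_
    refine Measurable.mul ?_ measurable_const
    refine Complex.measurable_ofReal.comp ?_
    by_cases hj : j < J
    · simp only [hj, if_true]
      exact (((measurable_const.div ((measurable_norm.pow_const 3).const_mul 3)).const_mul
        (σ * P.k j))).neg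
    · simp only [hj, if_false]
      exact measurable_const
  have : P.a σ J = fun x => if x ∈ {x : E3 | ∃ j, x ∈ P.shell j ∧ 0 < (uz x ^ P.k j *
      Complex.exp (((-(σ * P.k j * (if j < J then P.A J / (3 * ‖x‖ ^ 3) else 0)) : ℝ) : ℂ)
        * Complex.I)).re} then (2 : ℝ) else 1 := by
    funext x
    simp only [Par.a, mem_ofPred_eq]
  rw [this]
  exact Measurable.ite hset measurable_const measurable_const

lemma measurable_rho0 (P : Par) : Measurable P.rho0 := by
  classical
  have hset : MeasurableSet {x : E3 | ∃ j, x ∈ P.shell j ∧ 0 < (uz x ^ P.k j).re} := by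
    have : {x : E3 | ∃ j, x ∈ P.shell j ∧ 0 < (uz x ^ P.k j).re}
        = ⋃ j, (P.shell j ∩ {x : E3 | 0 < (uz x ^ P.k j).re}) := by
      ext x; simp
    rw [this]
    refine MeasurableSet.iUnion fun j => (measurableSet_shell P j).inter ?_
    refine measurableSet_lt measurable_const ?_
    exact Complex.measurable_re.comp (measurable_uz.pow_const _)
  have : P.rho0 = fun x => if x ∈ {x : E3 | ∃ j, x ∈ P.shell j ∧ 0 < (uz x ^ P.k j).re}
      then (2 : ℝ) else 1 := by
    funext x
    simp only [Par.rho0, mem_ofPred_eq]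
  rw [this]
  exact Measurable.ite hset measurable_const measurable_const

lemma a_eq (P : Par) (σ : ℝ) (J : ℕ) (x : E3) : P.a σ J x = 1 ∨ P.a σ J x = 2 := by
  unfold Par.a
  split_ifs
  · right; rfl
  · left; rfl

lemma rho0_eq (P : Par) (x : E3) : P.rho0 x = 1 ∨ P.rho0 x = 2 := by
  unfold Par.rho0
  split_ifs
  · right; rfl
  · left; rfl

/-- The section of the null set. -/
lemma finite_section (k : ℕ) (y : ℝ) : {x : ℝ | (((⟨x, y⟩ : ℂ)) ^ k).re = 0}.Finite := by
  open Polynomial in
  have hq : ((X + C (⟨0, y⟩ : ℂ)) ^ k + (X + C (⟨0, -y⟩ : ℂ)) ^ k : ℂ[X]) ≠ 0 := by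
    intro h
    have h2 := congrArg (fun q : ℂ[X] => q.coeff k) h
    simp only [coeff_add, coeff_X_add_C_pow, Nat.sub_self, pow_zero, Nat.choose_self,
      Nat.cast_one, mul_one, coeff_zero] at h2
    norm_num at h2
  open Polynomial in
  have hfin : {z : ℂ | ((X + C (⟨0, y⟩ : ℂ)) ^ k + (X + C (⟨0, -y⟩ : ℂ)) ^ k : ℂ[X]).eval z
      = 0}.Finite := by
    refine (Polynomial.finite_setOfPred_isRoot hq).subset ?_
    intro z hz
    exact hz
  refine (hfin.preimage (f := fun x : ℝ => (x : ℂ)) Complex.ofReal_injective.injOn).subset ?_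
  intro x hx
  simp only [mem_ofPred_eq, mem_preimage, Polynomial.eval_add, Polynomial.eval_pow,
    Polynomial.eval_X, Polynomial.eval_C] at hx ⊢
  have h1 : (x : ℂ) + ⟨0, y⟩ = ⟨x, y⟩ := by
    apply Complex.ext <;> simp
  have h2 : (x : ℂ) + ⟨0, -y⟩ = (starRingEnd ℂ) ⟨x, y⟩ := by
    apply Complex.ext <;> simp
  rw [h1, h2, ← map_pow, Complex.add_conj, hx]
  simp

lemma null_zc (k : ℕ) : (volume : Measure E3) {x : E3 | (zc x ^ k).re = 0} = 0 := by
  set S : Set E3 := {x : E3 | (zc x ^ k).re = 0} with hS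
  have hSm : MeasurableSet S := by
    have : S = (fun x : E3 => (zc x ^ k).re) ⁻¹' {0} := by
      ext x; simp [hS]
    rw [this]
    exact (Complex.measurable_re.comp (continuous_zc.measurable.pow_const k))
      (measurableSet_singleton 0)
  have e1 := (EuclideanSpace.volume_preserving_symm_measurableEquiv_toLp (Fin 3)).symm
  have e2 := (volume_preserving_piFinSuccAbove (fun _ : Fin 3 => ℝ) 0).symm
  have e3 := e1.comp e2
  have h := e3.measure_preimage hSm.nullMeasurableSet
  rw [← h]
  have hm : MeasurableSet ((⇑(MeasurableEquiv.toLp 2 (Fin 3 → ℝ)).symm.symm ∘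
    ⇑(MeasurableEquiv.piFinSuccAbove (fun _ : Fin 3 => ℝ) 0).symm) ⁻¹' S) :=
    e3.measurable hSm
  rw [show (volume : Measure (ℝ × (Fin 2 → ℝ))) = (volume : Measure ℝ).prod volume from rfl]
  rw [Measure.prod_apply_symm hm]
  rw [lintegral_eq_zero_iff']
  · filter_upwards with y
    simp only [Pi.zero_apply]
    refine Set.Finite.measure_zero ?_ _
    refine (finite_section k (y 0)).subset ?_
    intro x hx
    simp only [mem_preimage, mem_ofPred_eq, hS] at hx ⊢
    have hz : ({ re := x, im := y 0 } : ℂ) =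
        zc ((⇑(MeasurableEquiv.toLp 2 (Fin 3 → ℝ)).symm.symm ∘
          ⇑(MeasurableEquiv.piFinSuccAbove (fun _ : Fin 3 => ℝ) 0).symm) (x, y)) := by
      apply Complex.ext
      · rfl
      · rfl
    rw [hz]
    exact hx
  · exact (measurable_measure_prodMk_right hm).aemeasurable

lemma null_uz (k : ℕ) : (volume : Measure E3) {x : E3 | (uz x ^ k).re = 0} = 0 := by
  refine measure_mono_null ?_ (measure_union_null (null_zc k) (null_zc 1))
  intro x hx
  simp only [mem_ofPred_eq, mem_union, pow_one] at hx ⊢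
  by_cases h0 : zc x = 0
  · right; simp [h0]
  · left
    have hn : (‖zc x‖ : ℝ) ≠ 0 := norm_ne_zero_iff.mpr h0
    have h1 : uz x ^ k = ((‖zc x‖ ^ k)⁻¹ : ℝ) * zc x ^ k := by
      unfold uz
      rw [div_pow, div_eq_mul_inv, mul_comm]
      push_cast
      rfl
    rw [h1, Complex.re_ofReal_mul] at hx
    rcases mul_eq_zero.mp hx with h2 | h2
    · exact absurd h2 (inv_ne_zero (pow_ne_zero _ hn))
    · exact h2

lemma r_pos (P : Par) (j : ℕ) : 0 < P.r j := div_pos P.hr (by positivity)

lemma shell_unique (P : Par) {x : E3} {i j : ℕ} (hi : x ∈ P.shell i) (hj : x ∈ P.shell j) :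
    i = j := by
  have key : ∀ i j : ℕ, i < j → x ∈ P.shell i → x ∈ P.shell j → False := by
    intro i j hij hi hj
    have h1 : P.r i ^ 2 / 2 < ‖x‖ ^ 2 := hi.1
    have h2 : ‖x‖ ^ 2 < 3 * P.r j ^ 2 / 2 := hj.2
    have h3 : P.r j ≤ P.r i / 2 := by
      unfold Par.r
      rw [div_div, ← pow_succ]
      exact div_le_div_of_nonneg_left P.hr.le (by positivity)
        (pow_le_pow_right₀ (by norm_num) hij)
    have h4 : P.r j ^ 2 ≤ (P.r i / 2) ^ 2 := by
      have := (r_pos P j).le
      gcongr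
    have h5 := r_pos P i
    nlinarith
  rcases lt_trichotomy i j with h | h | h
  · exact (key i j h hi hj).elim
  · exact h
  · exact (key j i h hj hi).elim

lemma tendsto_A (P : Par) : Tendsto P.A atTop (𝓝 0) := by
  have h : ∀ j, P.A j = 3 * phie * P.r0 ^ 3 / P.k0 * (1 / 64) ^ j := by
    intro j
    have hk : (P.k0 : ℝ) ≠ 0 := by exact_mod_cast P.hk.ne'
    unfold Par.A Par.r Par.k
    push_cast
    rw [div_pow, ← pow_mul, div_pow, one_pow]
    have h2 : (2 : ℝ) ^ (j * 3) = 8 ^ j := by
      rw [mul_comm, pow_mul]; norm_num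
    rw [h2]
    have h3 : (64 : ℝ) ^ j = 8 ^ j * 8 ^ j := by
      rw [← mul_pow]; norm_num
    rw [h3]
    field_simp
  have h2 : Tendsto (fun j : ℕ => 3 * phie * P.r0 ^ 3 / P.k0 * (1 / 64 : ℝ) ^ j) atTop
      (𝓝 (3 * phie * P.r0 ^ 3 / P.k0 * 0)) :=
    (tendsto_pow_atTop_nhds_zero_of_lt_one (by norm_num) (by norm_num)).const_mul _
  rw [mul_zero] at h2
  exact h2.congr (fun j => (h j).symm)

lemma eventually_eq (P : Par) (σ : ℝ) (x : E3) (hx : ∀ j, (uz x ^ P.k j).re ≠ 0) :
    ∀ᶠ J in atTop, P.a σ J x = P.rho0 x := by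
  by_cases hs : ∃ j, x ∈ P.shell j
  · obtain ⟨j, hj⟩ := hs
    have hlim : Tendsto (fun J : ℕ => (uz x ^ P.k j *
      Complex.exp (((-(σ * P.k j * (P.A J / (3 * ‖x‖ ^ 3))) : ℝ) : ℂ)
        * Complex.I)).re) atTop (𝓝 (uz x ^ P.k j).re) := by
      have h1 : Tendsto (fun J : ℕ => -(σ * P.k j * (P.A J / (3 * ‖x‖ ^ 3)))) atTop
          (𝓝 (-(σ * P.k j * (0 / (3 * ‖x‖ ^ 3))))) :=
        (((tendsto_A P).div_const _).const_mul _).neg
      have h2 : Continuous (fun θ : ℝ => (uz x ^ P.k j * Complex.exp ((θ : ℂ) * Complex.I)).re) := by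
        fun_prop
      have h3 := (h2.tendsto _).comp h1
      have h4 : (uz x ^ P.k j * Complex.exp (((-(σ * P.k j * (0 / (3 * ‖x‖ ^ 3))) : ℝ) : ℂ)
          * Complex.I)).re = (uz x ^ P.k j).re := by
        simp
      rw [h4] at h3
      exact h3
    have hev : ∀ᶠ J in atTop, (0 < (uz x ^ P.k j *
      Complex.exp (((-(σ * P.k j * (P.A J / (3 * ‖x‖ ^ 3))) : ℝ) : ℂ)
        * Complex.I)).re ↔ 0 < (uz x ^ P.k j).re) := by
      rcases lt_or_gt_of_ne (hx j) with h | h
      · filter_upwards [hlim.eventually (gt_mem_nhds h)] with J hJ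
        constructor
        · intro h'; exact absurd h' (not_lt.mpr hJ.le)
        · intro h'; exact absurd h' (not_lt.mpr h.le)
      · filter_upwards [hlim.eventually (lt_mem_nhds h)] with J hJ
        exact ⟨fun _ => h, fun _ => hJ⟩
    filter_upwards [hev, eventually_gt_atTop j] with J hJ hjJ
    have hiff : (∃ j, x ∈ P.shell j ∧ 0 < (uz x ^ P.k j *
      Complex.exp (((-(σ * P.k j * (if j < J then P.A J / (3 * ‖x‖ ^ 3) else 0)) : ℝ) : ℂ)
        * Complex.I)).re) ↔ ∃ j, x ∈ P.shell j ∧ 0 < (uz x ^ P.k j).re := by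
      constructor
      · rintro ⟨i, hi, hi2⟩
        obtain rfl := shell_unique P hi hj
        rw [if_pos hjJ] at hi2
        exact ⟨i, hi, hJ.mp hi2⟩
      · rintro ⟨i, hi, hi2⟩
        obtain rfl := shell_unique P hi hj
        refine ⟨i, hi, ?_⟩
        rw [if_pos hjJ]
        exact hJ.mpr hi2
    unfold Par.a Par.rho0
    by_cases h : ∃ j, x ∈ P.shell j ∧ 0 < (uz x ^ P.k j).re
    · rw [if_pos h, if_pos (hiff.mpr h)]
    · rw [if_neg h, if_neg (fun h' => h (hiff.mp h'))]
  · refine Eventually.of_forall fun J => ?_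
    unfold Par.a Par.rho0
    rw [if_neg, if_neg]
    · rintro ⟨j, hj, -⟩; exact hs ⟨j, hj⟩
    · rintro ⟨j, hj, -⟩; exact hs ⟨j, hj⟩

end Conv

open Conv in
/-- Module CONV. -/
theorem conv_holds : StmConv := by
  intro P σ _
  refine ⟨measurable_a P σ, measurable_rho0 P, a_eq P σ, rho0_eq P, ?_⟩
  intro Ω hΩ
  have hfin : IsFiniteMeasure ((volume : Measure E3).restrict Ω) :=
    ⟨by rw [Measure.restrict_apply_univ]; exact hΩ.measure_lt_top⟩
  have hnull : ∀ᵐ x : E3 ∂(volume.restrict Ω), ∀ j, (uz x ^ P.k j).re ≠ 0 := by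
    apply ae_restrict_of_ae
    rw [ae_all_iff]
    intro j
    rw [ae_iff]
    simp only [ne_eq, not_not]
    exact null_uz (P.k j)
  have h := tendsto_integral_of_dominated_convergence
    (F := fun J : ℕ => fun x : E3 => |P.a σ J x - P.rho0 x| ^ 2) (f := fun _ => (0 : ℝ))
    (μ := volume.restrict Ω) (bound := fun _ => (1 : ℝ)) ?_ ?_ ?_ ?_
  · simpa using h
  · intro J
    exact (((measurable_a P σ J).sub (measurable_rho0 P)).abs.pow_const 2).aestronglyMeasurable
  · exact integrable_const _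
  · intro J
    refine Eventually.of_forall fun x => ?_
    rcases a_eq P σ J x with h1 | h1 <;> rcases rho0_eq P x with h2 | h2 <;>
      rw [h1, h2] <;> norm_num
  · filter_upwards [hnull] with x hx
    have := eventually_eq P σ x hx
    refine tendsto_const_nhds.congr' ?_
    filter_upwards [this] with J hJ
    rw [hJ]; simp

end N979MH
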