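import Mathlib
import Pool.Agent.N979.MH.Stm
import Pool.Agent.TH989.J1594

/-!
Project MH, module D6 (helper163): Minkowski's integral inequality and the Sobolev inequality along
a measure preserving flow.
-/

open MeasureTheory Set Filter Topology
open scoped InnerProductSpace ENNReal ContDiff NNReal

namespace N979MH

open H772R2.NS

namespace D6

variable {Ω : Set E3} {N : ℕ} {φ : Fin N → E3 → E3}

theorem isTest_sum {ι : Type*} (s : Finset ι) (f : ι → E3 → E3) (h : ∀ k ∈ s, IsTest Ω (f k)) :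
    IsTest Ω (∑ k ∈ s, f k) := by
  classical
  induction s using Finset.induction_on with
  | empty => simpa using (IsTest.zero : IsTest Ω (0 : E3 → E3))
  | insert a s ha ih =>
    rw [Finset.sum_insert ha]
    exact (h a (Finset.mem_insert_self a s)).add
      (ih fun k hk => h k (Finset.mem_insert_of_mem hk))

theorem jac_sum {ι : Type*} (s : Finset ι) (f : ι → E3 → E3) (h : ∀ k ∈ s, ContDiff ℝ ∞ (f k))
    (x : E3) : jac (∑ k ∈ s, f k) x = ∑ k ∈ s, jac (f k) x := by
  classical
  induction s using Finset.induction_on with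
  | empty => simpa using jac_zero x
  | insert a s ha ih =>
    rw [Finset.sum_insert ha, Finset.sum_insert ha,
      jac_add (h a (Finset.mem_insert_self a s))
        (by
          have : ContDiff ℝ ∞ (fun y => ∑ k ∈ s, f k y) :=
            ContDiff.sum fun k hk => h k (Finset.mem_insert_of_mem hk)
          have e : (∑ k ∈ s, f k) = fun y => ∑ k ∈ s, f k y := by
            ext1 y; simp
          rw [e]; exact this),
      ih fun k hk => h k (Finset.mem_insert_of_mem hk)]

theorem fld_eq (c : Fin N → ℝ) : fld φ c = ∑ k, c k • φ k := by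
  ext1 x
  simp [fld]

theorem isTest_fld (hφ : ∀ k, IsTest Ω (φ k)) (c : Fin N → ℝ) : IsTest Ω (fld φ c) := by
  rw [fld_eq]
  exact isTest_sum _ _ fun k _ => (hφ k).smul (c k)

theorem jac_fld (hφ : ∀ k, IsTest Ω (φ k)) (c : Fin N → ℝ) (x : E3) :
    jac (fld φ c) x = ∑ k, c k • jac (φ k) x := by
  rw [fld_eq, jac_sum _ _ fun k _ => ((hφ k).smul (c k)).smooth]
  exact Finset.sum_congr rfl fun k _ => jac_smul (c k) x

/-- the Dirichlet integral depends continuously on the coefficients -/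
theorem continuous_nM (hφ : ∀ k, IsTest Ω (φ k)) :
    Continuous fun c : Fin N → ℝ => nM (jac (fld φ c)) := by
  have hint : ∀ k l, Integrable (fun x => ⟪jac (φ k) x, jac (φ l) x⟫_ℝ)
      (volume : Measure E3) := fun k l => by
    have hc : Continuous fun x => ⟪jac (φ k) x, jac (φ l) x⟫_ℝ :=
      (continuous_jac (hφ k).smooth).inner (continuous_jac (hφ l).smooth)
    refine hc.integrable_of_hasCompactSupport ?_
    have h := hasCompactSupport_jac (hφ k).compact
    refine h.mono fun x hx => ?_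
    rw [Function.mem_support] at hx ⊢
    intro h0
    apply hx
    rw [h0, inner_zero_left]
  have heq : (fun c : Fin N → ℝ => nM (jac (fld φ c))) = fun c => Real.sqrt
      (∑ k, ∑ l, c k * (c l * ∫ x, ⟪jac (φ k) x, jac (φ l) x⟫_ℝ)) := by
    funext c
    unfold nM
    congr 1
    have h1 : ∀ x, ‖jac (fld φ c) x‖ ^ 2 =
        ∑ k, ∑ l, c k * (c l * ⟪jac (φ k) x, jac (φ l) x⟫_ℝ) := by
      intro x
      rw [jac_fld hφ, ← real_inner_self_eq_norm_sq, sum_inner]
      refine Finset.sum_congr rfl fun k _ => ?_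
      rw [inner_sum]
      refine Finset.sum_congr rfl fun l _ => ?_
      rw [real_inner_smul_left, real_inner_smul_right]
    simp_rw [h1]
    rw [integral_finsetSum _ fun k _ => integrable_finsetSum _ fun l _ =>
      ((hint k l).const_mul (c l)).const_mul (c k)]
    refine Finset.sum_congr rfl fun k _ => ?_
    rw [integral_finsetSum _ fun l _ => ((hint k l).const_mul (c l)).const_mul (c k)]
    refine Finset.sum_congr rfl fun l _ => ?_
    rw [integral_const_mul, integral_const_mul]
  rw [heq]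
  fun_prop

theorem eLpNorm_jac {w : E3 → E3} (hw : IsTest Ω w) :
    eLpNorm (jac w) 2 (volume : Measure E3) = ENNReal.ofReal (nM (jac w)) := by
  rw [(hw.jac_memLp 2).eLpNorm_eq_integral_rpow_norm (by norm_num) (by norm_num)]
  congr 1
  unfold nM
  rw [Real.sqrt_eq_rpow]
  norm_num

/-- the Sobolev inequality -/
theorem sobolev {w : E3 → E3} (hw : IsTest Ω w) :
    eLpNorm w 6 (volume : Measure E3) ≤ ENNReal.ofReal (CS * nM (jac w)) := by
  calc eLpNorm w 6 (volume : Measure E3) ≤ CS * eLpNorm (fderiv ℝ w) 2 (volume : Measure E3) :=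
        CS_spec w (hw.smooth.of_le (by simp)) hw.compact
    _ ≤ CS * eLpNorm (jac w) 2 (volume : Measure E3) := by
        gcongr
        exact eLpNorm_mono (fun x => norm_fderiv_le_jac x)
    _ = ENNReal.ofReal (CS * nM (jac w)) := by
        rw [eLpNorm_jac hw, ENNReal.ofReal_mul (NNReal.coe_nonneg _), ENNReal.ofReal_coe_nnreal]

theorem enorm_interval {g : ℝ → ℝ} (hc : Continuous g) (h0 : ∀ s, 0 ≤ g s) {t0 t : ℝ}
    (ht : t0 ≤ t) : ‖∫ s in t0..t, g s‖ₑ =
      ∫⁻ s, ENNReal.ofReal (g s) ∂(volume.restrict (Ioc t0 t)) := by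
  have hint : Integrable g (volume.restrict (Ioc t0 t)) := (hc.intervalIntegrable t0 t).1
  have hn : 0 ≤ ∫ s in t0..t, g s := intervalIntegral.integral_nonneg ht fun s _ => h0 s
  rw [Real.enorm_of_nonneg hn, intervalIntegral.integral_of_le ht,
    ofReal_integral_eq_lintegral_ofReal hint (Eventually.of_forall h0)]

theorem ofReal_interval {g : ℝ → ℝ} (hc : Continuous g) (h0 : ∀ s, 0 ≤ g s) {t0 t : ℝ}
    (ht : t0 ≤ t) : ENNReal.ofReal (∫ s in t0..t, g s) =
      ∫⁻ s, ENNReal.ofReal (g s) ∂(volume.restrict (Ioc t0 t)) := by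
  have hn : 0 ≤ ∫ s in t0..t, g s := intervalIntegral.integral_nonneg ht fun s _ => h0 s
  rw [← enorm_interval hc h0 ht, Real.enorm_of_nonneg hn]

end D6

open D6 in
theorem d6_holds : StmD6 := by
  intro Ω _ N φ hφ b hb X hX hmp t0 t ht
  have hg : Continuous fun p : ℝ × E3 => fld φ (b p.1) (X p.1 p.2) := by
    unfold fld
    refine continuous_finsetSum _ fun k _ => ?_
    exact ((continuous_apply k).comp (hb.comp continuous_fst)).smul
      ((hφ k).smooth.continuous.comp hX)
  have hgn : Continuous (Function.uncurry fun (α : E3) (s : ℝ) => ‖fld φ (b s) (X s α)‖) :=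
    (hg.comp continuous_swap).norm
  have hnM : Continuous fun s => nM (jac (fld φ (b s))) := (continuous_nM hφ).comp hb
  refine ⟨intervalIntegral.continuous_parametric_intervalIntegral_of_continuous' hgn t0 t, ?_⟩
  set μ : Measure ℝ := volume.restrict (Ioc t0 t) with hμ
  have h0 : ∀ α : E3, ‖∫ s in t0..t, ‖fld φ (b s) (X s α)‖‖ₑ =
      ∫⁻ s, ‖fld φ (b s) (X s α)‖ₑ ∂μ := by
    intro α
    have hcont : Continuous fun s => ‖fld φ (b s) (X s α)‖ :=
      hgn.uncurry_left α
    refine (enorm_interval hcont (fun s => norm_nonneg _) ht).trans ?_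
    exact lintegral_congr fun s => ofReal_norm _
  have hmeas : Measurable (Function.uncurry fun (α : E3) (s : ℝ) => ‖fld φ (b s) (X s α)‖ₑ) :=
    (hg.comp continuous_swap).measurable.enorm
  have hmink := Pool.Agent.TH989.FN.minkowski (μ := (volume : Measure E3)) (ν := μ) 6 (by norm_num)
    (fun (α : E3) (s : ℝ) => ‖fld φ (b s) (X s α)‖ₑ) hmeas
  have h6 : (6 : ℝ≥0∞) ≠ 0 := by norm_num
  have h6' : (6 : ℝ≥0∞) ≠ ⊤ := by norm_num
  have h6r : (6 : ℝ≥0∞).toReal = 6 := by norm_num
  calc eLpNorm (fun α => ∫ s in t0..t, ‖fld φ (b s) (X s α)‖) 6 (volume : Measure E3)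
      = (∫⁻ α, (∫⁻ s, ‖fld φ (b s) (X s α)‖ₑ ∂μ) ^ (6 : ℝ)) ^ (1 / (6 : ℝ)) := by
        rw [eLpNorm_eq_lintegral_rpow_enorm_toReal h6 h6', h6r]
        simp_rw [h0]
    _ ≤ ∫⁻ s, (∫⁻ α, ‖fld φ (b s) (X s α)‖ₑ ^ (6 : ℝ)) ^ (1 / (6 : ℝ)) ∂μ := hmink
    _ ≤ ∫⁻ s, ENNReal.ofReal (CS * nM (jac (fld φ (b s)))) ∂μ := by
        refine lintegral_mono fun s => ?_
        have h1 : (∫⁻ α, ‖fld φ (b s) (X s α)‖ₑ ^ (6 : ℝ)) ^ (1 / (6 : ℝ)) =
            eLpNorm (fld φ (b s) ∘ X s) 6 (volume : Measure E3) := by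
          rw [eLpNorm_eq_lintegral_rpow_enorm_toReal h6 h6', h6r]
          rfl
        have hw : IsTest Ω (fld φ (b s)) := isTest_fld hφ (b s)
        show (∫⁻ α, ‖fld φ (b s) (X s α)‖ₑ ^ (6 : ℝ)) ^ (1 / (6 : ℝ)) ≤ _
        rw [h1, eLpNorm_comp_measurePreserving hw.smooth.continuous.aestronglyMeasurable (hmp s)]
        exact sobolev hw
    _ = ENNReal.ofReal (CS * ∫ s in t0..t, nM (jac (fld φ (b s)))) := by
        have hc : Continuous fun s => (CS : ℝ) * nM (jac (fld φ (b s))) :=
          continuous_const.mul hnM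
        have h1 := ofReal_interval hc (fun s =>
          mul_nonneg (NNReal.coe_nonneg _) (Real.sqrt_nonneg _)) ht
        rw [intervalIntegral.integral_const_mul] at h1
        exact h1.symm

end N979MH
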