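import Pool.Agent.N64.DPL.Time
import Pool.Agent.N64.DPL.Lim

/-!
Project MH, module DPL: conservation of the `L²` norm of the density.
-/

open MeasureTheory Set Filter Topology
open scoped InnerProductSpace ENNReal ContDiff NNReal Convolution

namespace N979MH.DPL

open H772R2.NS

variable {Ω : Set E3} {k : E3 → ℝ}

theorem exists_kernels : ∃ C : ℝ≥0∞, C ≠ ⊤ ∧ ∀ δ : ℝ, 0 < δ → ∃ k : E3 → ℝ, ContDiff ℝ ∞ k ∧
    HasCompactSupport k ∧ (∀ x, k (-x) = k x) ∧ (∀ x, 0 ≤ k x) ∧ ∫ x, k x = 1 ∧ ck k ≤ C ∧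
    (∀ h, k h ≠ 0 → ‖h‖ < δ) ∧ (∀ h, fderiv ℝ k h ≠ 0 → ‖h‖ < δ) := by
  let f : ContDiffBump (0 : E3) := default
  let kk : E3 → ℝ := f.normed volume
  have hk : ContDiff ℝ ∞ kk := f.contDiff_normed
  have hkc : HasCompactSupport kk := f.hasCompactSupport_normed
  have hKc : Continuous (fderiv ℝ kk) := hk.continuous_fderiv (by simp)
  have hFc : Continuous (fun h : E3 => ‖fderiv ℝ kk h‖ₑ * ‖h‖ₑ) := by
    have h1 : Continuous (fun h : E3 => ENNReal.ofReal (‖fderiv ℝ kk h‖ * ‖h‖)) :=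
      ENNReal.continuous_ofReal.comp (hKc.norm.mul continuous_norm)
    refine h1.congr (fun h => ?_)
    rw [ENNReal.ofReal_mul (norm_nonneg _), ofReal_norm, ofReal_norm]
  have hfin : ck kk ≠ ⊤ := by
    have h1 : Integrable (fun h : E3 => ‖fderiv ℝ kk h‖ * ‖h‖) := by
      refine (hKc.norm.mul continuous_norm).integrable_of_hasCompactSupport ?_
      exact ((hkc.fderiv ℝ).norm).mul_right
    have h2 := ofReal_integral_eq_lintegral_ofReal h1
      (Eventually.of_forall (fun h => by positivity))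
    have h3 : ck kk = ENNReal.ofReal (∫ h : E3, ‖fderiv ℝ kk h‖ * ‖h‖) := by
      rw [h2, ck]
      refine lintegral_congr (fun h => ?_)
      rw [ENNReal.ofReal_mul (norm_nonneg _), ofReal_norm, ofReal_norm]
    rw [h3]
    exact ENNReal.ofReal_ne_top
  refine ⟨ck kk, hfin, fun δ hδ => ?_⟩
  have hro : f.rOut = 2 := rfl
  let e : ℝ := δ / 2
  have he : 0 < e := by positivity
  have hsupp : ∀ z : E3, kk z ≠ 0 → ‖z‖ < 2 := by
    intro z hz
    have h1 : z ∈ Function.support kk := hz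
    rw [f.support_normed_eq, hro] at h1
    simpa using h1
  have hsuppd : ∀ z : E3, fderiv ℝ kk z ≠ 0 → ‖z‖ ≤ 2 := by
    intro z hz
    have h1 : z ∈ tsupport kk := by
      by_contra h2
      apply hz
      exact image_eq_zero_of_notMem_tsupport (fun h3 => h2 (tsupport_fderiv_subset ℝ h3))
    rw [f.tsupport_normed_eq, hro] at h1
    simpa using h1
  let e' : ℝ := δ / 3
  have he' : 0 < e' := by positivity
  let k : E3 → ℝ := fun h => (e' ^ 3)⁻¹ * kk (e'⁻¹ • h)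
  have hkd : ContDiff ℝ ∞ k := contDiff_const.mul (hk.comp (contDiff_const_smul _))
  have hfd : ∀ h, fderiv ℝ k h = ((e' ^ 3)⁻¹ * e'⁻¹) • fderiv ℝ kk (e'⁻¹ • h) := by
    intro h
    have h1 : HasFDerivAt (fun h : E3 => e'⁻¹ • h) (e'⁻¹ • ContinuousLinearMap.id ℝ E3) h := by
      have h0 := (hasFDerivAt_id (𝕜 := ℝ) h).const_smul e'⁻¹
      exact h0
    have h2 : HasFDerivAt (fun h : E3 => kk (e'⁻¹ • h)) _ h :=
      HasFDerivAt.comp h (((hk.differentiable (by simp)) _).hasFDerivAt) h1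
    have h3 : HasFDerivAt k _ h := h2.const_mul ((e' ^ 3)⁻¹)
    rw [h3.fderiv]
    ext v
    simp
    ring
  have hnl : ∀ h : E3, ‖e'⁻¹ • h‖ ≤ 2 → ‖h‖ < δ := by
    intro h h1
    rw [norm_smul, norm_inv, Real.norm_of_nonneg he'.le, inv_mul_le_iff₀ he'] at h1
    have : e' = δ / 3 := rfl
    rw [this] at h1
    linarith
  refine ⟨k, hkd, ?_, ?_, ?_, ?_, ?_, ?_, ?_⟩
  · have h1 : HasCompactSupport (fun h : E3 => kk (e'⁻¹ • h)) :=
      hkc.comp_homeomorph (Homeomorph.smulOfNeZero e'⁻¹ (by positivity))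
    exact h1.mul_left
  · intro x
    show (e' ^ 3)⁻¹ * kk (e'⁻¹ • -x) = (e' ^ 3)⁻¹ * kk (e'⁻¹ • x)
    have h1 : kk (-(e'⁻¹ • x)) = kk (e'⁻¹ • x) := f.normed_neg _
    rw [smul_neg, h1]
  · intro x
    have : 0 ≤ kk (e'⁻¹ • x) := f.nonneg_normed _
    show 0 ≤ (e' ^ 3)⁻¹ * kk (e'⁻¹ • x)
    positivity
  · show ∫ x, (e' ^ 3)⁻¹ * kk (e'⁻¹ • x) = 1
    rw [integral_const_mul, Measure.integral_comp_smul, f.integral_normed]
    simp only [finrank_euclideanSpace, Fintype.card_fin, smul_eq_mul, mul_one]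
    rw [abs_of_pos (by positivity)]
    field_simp
  · refine le_of_eq ?_
    have h1 : ∀ h : E3, ‖fderiv ℝ k h‖ₑ * ‖h‖ₑ
        = ENNReal.ofReal ((e' ^ 3)⁻¹) * (‖fderiv ℝ kk (e'⁻¹ • h)‖ₑ * ‖e'⁻¹ • h‖ₑ) := by
      intro h
      rw [← ofReal_norm (fderiv ℝ k h), ← ofReal_norm h, ← ofReal_norm (fderiv ℝ kk (e'⁻¹ • h)),
        ← ofReal_norm (e'⁻¹ • h), ← ENNReal.ofReal_mul (norm_nonneg _),
        ← ENNReal.ofReal_mul (norm_nonneg _), ← ENNReal.ofReal_mul (by positivity), hfd,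
        norm_smul, norm_smul, norm_mul, norm_inv, norm_inv, norm_pow, Real.norm_of_nonneg he'.le]
      congr 1
      ring
    show ∫⁻ h : E3, ‖fderiv ℝ k h‖ₑ * ‖h‖ₑ = _
    simp_rw [h1]
    have h2 : Measurable (fun h : E3 => ‖fderiv ℝ kk (e'⁻¹ • h)‖ₑ * ‖e'⁻¹ • h‖ₑ) :=
      (hFc.comp (continuous_const_smul e'⁻¹)).measurable
    rw [lintegral_const_mul _ h2]
    have h3 : ∫⁻ h : E3, ‖fderiv ℝ kk (e'⁻¹ • h)‖ₑ * ‖e'⁻¹ • h‖ₑ
        = ∫⁻ z, ‖fderiv ℝ kk z‖ₑ * ‖z‖ₑ ∂(Measure.map (e'⁻¹ • ·) (volume : Measure E3)) :=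
      (lintegral_map hFc.measurable (measurable_const_smul e'⁻¹)).symm
    rw [h3, Measure.map_addHaar_smul _ (by positivity : e'⁻¹ ≠ 0), lintegral_smul_measure,
      smul_eq_mul, ← mul_assoc, ← ENNReal.ofReal_mul (by positivity)]
    simp only [finrank_euclideanSpace, Fintype.card_fin]
    have h4 : (e' ^ 3)⁻¹ * |((e'⁻¹) ^ 3)⁻¹| = 1 := by
      rw [abs_of_pos (by positivity)]
      field_simp
    rw [h4, ENNReal.ofReal_one, one_mul]
    rfl
  · intro h hh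
    refine hnl h (hsupp _ (fun h0 => hh ?_)).le
    show (e' ^ 3)⁻¹ * kk (e'⁻¹ • h) = 0
    rw [h0, mul_zero]
  · intro h hh
    refine hnl h (hsuppd _ (fun h0 => hh ?_))
    rw [hfd, h0, smul_zero]

theorem Fl_congr {a g : E3 → ℝ} {v v' : E3 → E3} (h : v =ᵐ[volume.restrict Ω] v') :
    Fl Ω k a v g = Fl Ω k a v' g := by
  refine integral_congr_ae ?_
  filter_upwards [h] with y hy
  rw [hy]

theorem integrable_of_supp {b : E3 → ℝ} (hΩ : MeasurableSet Ω) (hb : Bornology.IsBounded Ω)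
    (hb0 : ∀ x, x ∉ Ω → b x = 0) (hb2 : MemLp b 2 (volume : Measure E3)) : Integrable b := by
  have hfin : volume Ω < ⊤ := hb.measure_lt_top
  have : IsFiniteMeasure (volume.restrict Ω) := ⟨by simpa using hfin⟩
  have h1 : Integrable b (volume.restrict Ω) := (hb2.restrict Ω).integrable (by norm_num)
  have h2 : IntegrableOn b Ω := h1
  refine (integrable_indicator_iff hΩ).mpr h2 |>.congr (Eventually.of_forall (fun x => ?_))
  by_cases hx : x ∈ Ω
  · simp [hx]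
  · simp [hx, hb0 x hx]

/-- the uniform bound of the flux. -/
theorem flux_bound (hΩ : MeasurableSet Ω) (hb : Bornology.IsBounded Ω) (hk : ContDiff ℝ ∞ k)
    (hkc : HasCompactSupport k) (hke : ∀ x, k (-x) = k x) {C : ℝ≥0∞} (hC : C ≠ ⊤)
    (hck : ck k ≤ C) (a : L2S Ω) (ha : ∀ᵐ x ∂(volume.restrict Ω), 1 ≤ a x ∧ a x ≤ 2)
    {p : L2V Ω × L2M Ω} (hp : p ∈ graphW Ω) :
    |2 * Fl Ω k a p.1 a| ≤ 2 * C.toReal * (‖a‖ * ‖p.2‖) := by
  obtain ⟨A, Φ, D, hD0, hA, hΦ, hΦb⟩ := exists_Phi hΩ hb hk hkc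
  obtain ⟨m, hm0, hm⟩ := l1_le hb
  obtain ⟨b, hbm, hb2, hb0, hba, hbL, hbn⟩ := exists_b hΩ a ha
  have hbi := integrable_of_supp hΩ hb hb0 hbL
  have hcl : IsClosed {p : L2V Ω × L2M Ω | |2 * Fl Ω k a p.1 a| ≤ 2 * C.toReal * (‖a‖ * ‖p.2‖)} := by
    refine isClosed_le ?_ (by fun_prop)
    simp only [← hΦ, hA]
    fun_prop
  have hsub : (preW Ω : Set (L2V Ω × L2M Ω)) ⊆
      {p : L2V Ω × L2M Ω | |2 * Fl Ω k a p.1 a| ≤ 2 * C.toReal * (‖a‖ * ‖p.2‖)} := by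
    rintro q ⟨φ, h1, h2, h3⟩
    show |2 * Fl Ω k a q.1 a| ≤ 2 * C.toReal * (‖a‖ * ‖q.2‖)
    rw [Fl_congr h2, Fl_test hΩ hk hkc hke (hm a).1 hbi hb0 hba h1.smooth h1.compact]
    have h4 := (J_le hk hbm hb2 h1.smooth).trans (by gcongr :
      _ ≤ 2 * C * (eLpNorm b 2 (volume : Measure E3) * eLpNorm (jac φ) 2 (volume : Measure E3)))
    have h5 : ‖q.2‖ = (eLpNorm (jac φ) 2 (volume : Measure E3)).toReal := by
      rw [Lp.norm_def, eLpNorm_congr_ae h3, h1.eLpNorm_jac_restrict hΩ]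
    have h6 := ENNReal.toReal_mono (ENNReal.mul_ne_top (ENNReal.mul_ne_top (by norm_num) hC)
      (ENNReal.mul_ne_top hbL.2.ne (h1.jac_memLp 2).2.ne)) h4
    rw [ENNReal.toReal_mul, ENNReal.toReal_mul, ENNReal.toReal_mul, hbn, ← h5, toReal_enorm,
      Real.norm_eq_abs] at h6
    simpa using h6
  have hp' : p ∈ closure (preW Ω : Set (L2V Ω × L2M Ω)) := by
    have := hp
    unfold graphW at this
    rwa [← SetLike.mem_coe, Submodule.topologicalClosure_coe] at this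
  exact closure_minimal hsub hcl hp'

end N979MH.DPL

namespace N979MH

open H772R2.NS DPL

theorem dpl_holds : StmDPL := by
  intro Ω T ρ u G hΩo hb hT hρ hw hu hG hW htr t ht
  have hΩ : MeasurableSet Ω := hΩo.measurableSet
  obtain ⟨C, hC, hker⟩ := exists_kernels
  have hker' := fun n : ℕ => hker (1 / ((n : ℝ) + 1)) (by positivity)
  choose k hk hkc hke hk0 hk1 hck hks hkds using hker'
  obtain ⟨M, hM0, hM⟩ := norm_bd hb
  obtain ⟨m, hm0, hm⟩ := l1_le hb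
  have hδ : Tendsto (fun n : ℕ => 1 / ((n : ℝ) + 1)) atTop (𝓝 0) :=
    tendsto_one_div_add_atTop_nhds_zero_nat
  -- the diagonal terms
  have hdiag : ∀ s ∈ Icc 0 T, Tendsto (fun n => SS Ω (k n) (ρ s) (ρ s)) atTop (𝓝 (‖ρ s‖ ^ 2)) := by
    intro s hs
    obtain ⟨b, hbm, hb2, hb0, hba, hbL, hbn⟩ := exists_b hΩ (ρ s) (hρ s hs)
    have hbi := integrable_of_supp hΩ hb hb0 hbL
    rw [tendsto_iff_edist_tendsto_0, ENNReal.tendsto_nhds_zero]
    intro η hη
    have hη' : ∃ η' : ℝ≥0∞, 0 < η' ∧ eLpNorm b 2 (volume : Measure E3) * η' ≤ η := by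
      rcases eq_or_ne (eLpNorm b 2 (volume : Measure E3)) 0 with h0 | h0
      · exact ⟨1, one_pos, by simp [h0]⟩
      · rcases eq_or_ne η ⊤ with h1 | h1
        · exact ⟨1, one_pos, by simp [h1]⟩
        · refine ⟨η / eLpNorm b 2 (volume : Measure E3), ENNReal.div_pos hη.ne' hbL.2.ne, ?_⟩
          rw [ENNReal.mul_div_cancel h0 hbL.2.ne]
    obtain ⟨η', hη'0, hη'⟩ := hη'
    obtain ⟨δ, hδ0, hδ'⟩ := transl_cont hbL η' hη'0
    filter_upwards [hδ.eventually (gt_mem_nhds hδ0)] with n hn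
    rw [edist_eq_enorm_sub]
    refine (SS_lim hΩ (hk n) (hkc n) (hk0 n) (hk1 n) (ρ s) hbm hbi hb0 hba hbL
      (fun h hh => hδ' h ((hks n h hh).trans hn))).trans hη'
  -- the fluxes
  have hflux : ∀ (a : L2S Ω) (p : L2V Ω × L2M Ω),
      (∀ᵐ x ∂(volume.restrict Ω), 1 ≤ a x ∧ a x ≤ 2) → p ∈ graphW Ω →
      Tendsto (fun n => 2 * Fl Ω (k n) a p.1 a) atTop (𝓝 0) := by
    intro a p ha hp
    obtain ⟨b, hbm, hb2, hb0, hba, hbL, hbn⟩ := exists_b hΩ a ha
    have hbi := integrable_of_supp hΩ hb hb0 hbL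
    rw [Metric.tendsto_nhds]
    intro η hη
    have hp' : p ∈ closure (preW Ω : Set (L2V Ω × L2M Ω)) := by
      have := hp
      unfold graphW at this
      rwa [← SetLike.mem_coe, Submodule.topologicalClosure_coe] at this
    have hpos : 0 < 2 * C.toReal * ‖a‖ + 1 := by positivity
    obtain ⟨q, hq, hdist⟩ := Metric.mem_closure_iff.mp hp' (η / 2 / (2 * C.toReal * ‖a‖ + 1))
      (by positivity)
    have hqW : q ∈ graphW Ω := Submodule.le_topologicalClosure _ hq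
    have hd2 : ‖(p - q).2‖ < η / 2 / (2 * C.toReal * ‖a‖ + 1) := by
      refine lt_of_le_of_lt ?_ hdist
      rw [dist_eq_norm]
      exact norm_snd_le (p - q)
    have hb1 : ∀ n, |2 * Fl Ω (k n) a (p - q).1 a| < η / 2 := by
      intro n
      refine lt_of_le_of_lt (flux_bound hΩ hb (hk n) (hkc n) (hke n) hC (hck n) a ha
        ((graphW Ω).sub_mem hp hqW)) ?_
      have h1 : ‖(p - q).2‖ * (2 * C.toReal * ‖a‖ + 1) < η / 2 := by
        rwa [lt_div_iff₀ hpos] at hd2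
      have h2 := norm_nonneg (p - q).2
      nlinarith
    obtain ⟨φ, h1, h2, h3⟩ := hq
    obtain ⟨L, hL⟩ : ∃ L : ℝ≥0, LipschitzWith L φ :=
      h1.smooth.lipschitzWith_of_hasCompactSupport h1.compact (by simp)
    have hη' : ∃ η' : ℝ≥0∞, 0 < η' ∧
        L * C * (eLpNorm b 2 (volume : Measure E3) * η') ≤ ENNReal.ofReal (η / 3) := by
      have hne : L * C * eLpNorm b 2 (volume : Measure E3) ≠ ⊤ :=
        ENNReal.mul_ne_top (ENNReal.mul_ne_top ENNReal.coe_ne_top hC) hbL.2.ne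
      refine ⟨ENNReal.ofReal (η / 3) / (L * C * eLpNorm b 2 (volume : Measure E3) + 1),
        ENNReal.div_pos ?_ ?_, ?_⟩
      · simpa using by positivity
      · exact ENNReal.add_ne_top.mpr ⟨hne, by simp⟩
      · rw [← mul_assoc]
        calc L * C * eLpNorm b 2 (volume : Measure E3) * (ENNReal.ofReal (η / 3) /
              (L * C * eLpNorm b 2 (volume : Measure E3) + 1))
            ≤ (L * C * eLpNorm b 2 (volume : Measure E3) + 1) * (ENNReal.ofReal (η / 3) /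
              (L * C * eLpNorm b 2 (volume : Measure E3) + 1)) := by
              gcongr
              exact le_self_add
          _ = _ := ENNReal.mul_div_cancel (by simp)
              (ENNReal.add_ne_top.mpr ⟨hne, by simp⟩)
    obtain ⟨η', hη'0, hη'⟩ := hη'
    obtain ⟨δ, hδ0, hδ'⟩ := transl_cont hbL η' hη'0
    filter_upwards [hδ.eventually (gt_mem_nhds hδ0)] with n hn
    have h4 : |2 * Fl Ω (k n) a q.1 a| ≤ η / 3 := by
      rw [Fl_congr h2, Fl_test hΩ (hk n) (hkc n) (hke n) (hm a).1 hbi hb0 hba h1.smooth h1.compact]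
      have h5 := (J_lim (hk n) (hkc n) hbm hbi h1.smooth h1.compact h1.divfree hL
        (fun h hh => hδ' h ((hkds n h hh).trans hn))).trans ((by gcongr; exact hck n :
        _ ≤ L * C * (eLpNorm b 2 (volume : Measure E3) * η')).trans hη')
      have h6 := ENNReal.toReal_mono ENNReal.ofReal_ne_top h5
      rwa [toReal_enorm, ENNReal.toReal_ofReal (by positivity), Real.norm_eq_abs] at h6
    obtain ⟨A, Φ, D, hD0, hA, hΦ, hΦb⟩ := exists_Phi hΩ hb (hk n) (hkc n)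
    have h7 : Fl Ω (k n) a p.1 a = Fl Ω (k n) a (p - q).1 a + Fl Ω (k n) a q.1 a := by
      rw [← hΦ, ← hΦ, ← hΦ, hA, hA, hA, ← inner_add_right, ← map_add]
      simp
    rw [Real.dist_eq, sub_zero, h7, mul_add]
    calc |2 * Fl Ω (k n) a (p - q).1 a + 2 * Fl Ω (k n) a q.1 a|
        ≤ |2 * Fl Ω (k n) a (p - q).1 a| + |2 * Fl Ω (k n) a q.1 a| := abs_add_le _ _
      _ < η := by linarith [hb1 n]
  -- dominated convergence in time
  have hGi : Integrable G (volume.restrict (Ioc 0 T)) := hG.integrable (by norm_num)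
  have hlim : Tendsto (fun n => ∫ τ in (0 : ℝ)..t, 2 * Fl Ω (k n) (ρ τ) (u τ) (ρ τ)) atTop
      (𝓝 (∫ τ in (0 : ℝ)..t, (0 : ℝ))) := by
    have hWv : ∀ᵐ τ ∂(volume : Measure ℝ), τ ∈ Ioc 0 T → (u τ, G τ) ∈ H1graph Ω :=
      (ae_restrict_iff' measurableSet_Ioc).mp hW
    refine intervalIntegral.tendsto_integral_filter_of_dominated_convergence
      (fun τ => 2 * C.toReal * M * ‖G τ‖) ?_ ?_ ?_ ?_
    · exact Eventually.of_forall (fun n =>
        (time_part hΩ hb hρ hw hu htr (hk n) (hkc n) (hke n) t ht).2)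
    · refine Eventually.of_forall (fun n => ?_)
      filter_upwards [hWv] with τ h1 h2
      rw [uIoc_of_le ht.1] at h2
      have h3 : τ ∈ Ioc 0 T := ⟨h2.1, h2.2.trans ht.2⟩
      have h4 := flux_bound hΩ hb (hk n) (hkc n) (hke n) hC (hck n) (ρ τ) (hρ τ ⟨h3.1.le, h3.2⟩)
        (p := (u τ, G τ)) (mem_graphW.mpr (h1 h3))
      rw [Real.norm_eq_abs]
      refine h4.trans ?_
      have h5 := hM _ (hρ τ ⟨h3.1.le, h3.2⟩)
      calc 2 * C.toReal * (‖ρ τ‖ * ‖G τ‖) ≤ 2 * C.toReal * (M * ‖G τ‖) := by gcongr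
        _ = _ := by ring
    · rw [intervalIntegrable_iff_integrableOn_Ioc_of_le ht.1]
      have h1 : IntegrableOn (fun τ => 2 * C.toReal * M * ‖G τ‖) (Ioc 0 T) :=
        hGi.norm.const_mul _
      exact h1.mono_set (Ioc_subset_Ioc_right ht.2)
    · filter_upwards [hWv] with τ h1 h2
      rw [uIoc_of_le ht.1] at h2
      have h3 : τ ∈ Ioc 0 T := ⟨h2.1, h2.2.trans ht.2⟩
      exact hflux (ρ τ) (u τ, G τ) (hρ τ ⟨h3.1.le, h3.2⟩) (mem_graphW.mpr (h1 h3))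
  have h1 : Tendsto (fun n => SS Ω (k n) (ρ t) (ρ t) - SS Ω (k n) (ρ 0) (ρ 0)) atTop
      (𝓝 (‖ρ t‖ ^ 2 - ‖ρ 0‖ ^ 2)) := (hdiag t ht).sub (hdiag 0 ⟨le_rfl, hT.le⟩)
  have h2 : ∀ n, SS Ω (k n) (ρ t) (ρ t) - SS Ω (k n) (ρ 0) (ρ 0)
      = ∫ τ in (0 : ℝ)..t, 2 * Fl Ω (k n) (ρ τ) (u τ) (ρ τ) := fun n =>
    (time_part hΩ hb hρ hw hu htr (hk n) (hkc n) (hke n) t ht).1
  simp_rw [h2] at h1
  have h3 := tendsto_nhds_unique h1 hlim
  rw [intervalIntegral.integral_zero] at h3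
  have h4 : ‖ρ t‖ ^ 2 = ‖ρ 0‖ ^ 2 := by linarith
  exact (pow_left_inj₀ (norm_nonneg _) (norm_nonneg _) (by norm_num)).mp h4

end N979MH
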