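import Pool.Agent.N979.MH.Stm

/-!
Project MH, module DENSE: a countable dense family of test fields.
-/

open MeasureTheory Set Filter Topology
open scoped InnerProductSpace ENNReal ContDiff

namespace N979MH

open H772R2.NS

section

variable {α E : Type*} [MeasurableSpace α] {μ : Measure α} [NormedAddCommGroup E]

theorem sqrt_integral_eq {g : α → E} (hg : MemLp g 2 μ) :
    Real.sqrt (∫ x, ‖g x‖ ^ 2 ∂μ) = (eLpNorm g 2 μ).toReal := by
  rw [hg.eLpNorm_eq_integral_rpow_norm (by norm_num) (by norm_num)]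
  rw [ENNReal.toReal_ofReal (by positivity)]
  simp only [ENNReal.toReal_ofNat]
  rw [Real.sqrt_eq_rpow]
  norm_num

end

/-- The pair of classes of a test field and its Jacobian. -/
noncomputable def cls (Ω : Set E3) (φ : {φ : E3 → E3 // IsTest Ω φ}) :
    Lp E3 2 (volume : Measure E3) × Lp M3 2 (volume : Measure E3) :=
  ((φ.2.memLp 2).toLp _, (φ.2.jac_memLp 2).toLp _)

theorem dense_holds : StmDense := by
  intro Ω _
  have : Fact ((1 : ℝ≥0∞) ≤ 2) := ⟨by norm_num⟩
  have h1 : SecondCountableTopology (Lp E3 2 (volume : Measure E3)) := inferInstance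
  have h2 : SecondCountableTopology (Lp M3 2 (volume : Measure E3)) := inferInstance
  let tT : TopologicalSpace {φ : E3 → E3 // IsTest Ω φ} :=
    TopologicalSpace.induced (cls Ω) inferInstance
  have h3 : SecondCountableTopology {φ : E3 → E3 // IsTest Ω φ} :=
    TopologicalSpace.secondCountableTopology_induced _ _ (cls Ω)
  have : Nonempty {φ : E3 → E3 // IsTest Ω φ} := ⟨⟨0, IsTest.zero⟩⟩
  obtain ⟨ψ, hψ⟩ := TopologicalSpace.exists_dense_seq {φ : E3 → E3 // IsTest Ω φ}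
  refine ⟨fun n => (ψ n).1, fun n => (ψ n).2, fun φ hφ ε hε => ?_⟩
  have hc : Continuous (cls Ω) := continuous_induced_dom
  have ho : IsOpen {χ : {φ : E3 → E3 // IsTest Ω φ} | dist (cls Ω ⟨φ, hφ⟩) (cls Ω χ) < ε} :=
    isOpen_lt (by fun_prop) continuous_const
  obtain ⟨n, hn⟩ := hψ.exists_mem_open ho ⟨⟨φ, hφ⟩, by simpa using hε⟩
  refine ⟨n, ?_, ?_⟩
  · have h4 : dist ((hφ.memLp 2).toLp φ) (((ψ n).2.memLp 2).toLp (ψ n).1) < ε :=
      lt_of_le_of_lt (le_max_left _ _) hn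
    rw [dist_eq_norm, ← MemLp.toLp_sub, Lp.norm_toLp] at h4
    have h5 := sqrt_integral_eq ((hφ.memLp 2).sub ((ψ n).2.memLp 2))
    exact lt_of_eq_of_lt h5 h4
  · have h4 : dist ((hφ.jac_memLp 2).toLp (jac φ)) (((ψ n).2.jac_memLp 2).toLp (jac (ψ n).1)) < ε :=
      lt_of_le_of_lt (le_max_right _ _) hn
    rw [dist_eq_norm, ← MemLp.toLp_sub, Lp.norm_toLp] at h4
    have h5 := sqrt_integral_eq ((hφ.jac_memLp 2).sub ((ψ n).2.jac_memLp 2))
    exact lt_of_eq_of_lt h5 h4

end N979MH
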