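import Mathlib
import Pool.Agent.N979.MH.Stm
import Pool.Agent.N273.MH.Collect

/-!
Project MH, module EST: the Galerkin solution follows the main flow (assembly).
-/

open MeasureTheory Set Filter Topology
open scoped InnerProductSpace ENNReal ContDiff

namespace N979MH

open H772R2.NS N273.MH

section

variable {Ω : Set E3} {N : ℕ} {φ : Fin N → E3 → E3}

/-- coefficients of the main flow. -/
noncomputable def dd (P : Par) (σ : ℝ) (J : ℕ) (b : ℕ → Fin N → ℝ) (s : ℝ) : Fin N → ℝ :=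
  σ • ∑ j ∈ Finset.range J, P.F j s • b j

noncomputable def dd' (P : Par) (σ : ℝ) (J : ℕ) (b : ℕ → Fin N → ℝ) (s : ℝ) : Fin N → ℝ :=
  σ • ∑ j ∈ Finset.range J, N273.MH.F' P j s • b j

theorem hasDerivAt_dd (hb : StmBump) (P : Par) (σ : ℝ) (J : ℕ) (b : ℕ → Fin N → ℝ) (s : ℝ) :
    HasDerivAt (dd P σ J b) (dd' P σ J b s) s := by
  unfold dd dd'
  refine HasDerivAt.const_smul σ ?_
  exact HasDerivAt.fun_sum fun j _ => (hasDerivAt_F P hb j s).smul_const (b j)

theorem continuous_dd (hb : StmBump) (P : Par) (σ : ℝ) (J : ℕ) (b : ℕ → Fin N → ℝ) :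
    Continuous (dd P σ J b) :=
  continuous_iff_continuousAt.mpr fun s => (hasDerivAt_dd hb P σ J b s).continuousAt

theorem continuous_dd' (hb : StmBump) (P : Par) (σ : ℝ) (J : ℕ) (b : ℕ → Fin N → ℝ) :
    Continuous (dd' P σ J b) := by
  unfold dd'
  exact (continuous_finsetSum _ fun j _ =>
    (continuous_F' P hb j).smul continuous_const).const_smul σ

theorem fld_dd (P : Par) (σ : ℝ) (J : ℕ) (b : ℕ → Fin N → ℝ)
    (hbW : ∀ j < J, P.W j = fld φ (b j)) (s : ℝ) (x : E3) :
    fld φ (dd P σ J b s) x = P.us σ J s x := by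
  unfold dd Par.us
  rw [fld_smul]
  congr 1
  have : ∀ S : Finset ℕ, (∀ j ∈ S, j < J) → fld φ (∑ j ∈ S, P.F j s • b j) x
      = ∑ j ∈ S, P.F j s • P.W j x := by
    classical
    intro S
    induction S using Finset.induction_on with
    | empty => intro _; simp [fld_zero]
    | insert a S ha ih =>
      intro hS
      rw [Finset.sum_insert ha, Finset.sum_insert ha, fld_add, fld_smul,
        ih fun k hk => hS k (Finset.mem_insert_of_mem hk), hbW a (hS a (Finset.mem_insert_self _ _))]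
  exact this _ fun j hj => Finset.mem_range.mp hj

theorem dd_stage (hb : StmBump) (P : Par) {σ : ℝ} {j J : ℕ} (hj : j < J) (b : ℕ → Fin N → ℝ)
    {s : ℝ} (hs : s ∈ Icc (P.t (j + 1)) (P.t j)) :
    dd P σ J b s = (σ * P.F j s) • b j := by
  unfold dd
  rw [Finset.sum_eq_single_of_mem j (Finset.mem_range.mpr hj), smul_smul]
  intro i _ hij
  rw [F_zero P hb (outside_stage P hij hs), zero_smul]

theorem dd'_stage (hb : StmBump) (P : Par) {σ : ℝ} {j J : ℕ} (hj : j < J) (b : ℕ → Fin N → ℝ)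
    {s : ℝ} (hs : s ∈ Icc (P.t (j + 1)) (P.t j)) :
    dd' P σ J b s = (σ * N273.MH.F' P j s) • b j := by
  unfold dd'
  rw [Finset.sum_eq_single_of_mem j (Finset.mem_range.mpr hj), smul_smul]
  intro i _ hij
  rw [F'_zero P hb (outside_stage P hij hs), zero_smul]

theorem dd_start (hb : StmBump) (P : Par) {σ : ℝ} {J : ℕ} (b : ℕ → Fin N → ℝ) :
    dd P σ J b (P.t J) = 0 := by
  unfold dd
  rw [Finset.sum_eq_zero, smul_zero]
  intro j hj
  rw [F_zero P hb (Or.inl (t_anti P (Finset.mem_range.mp hj))), zero_smul]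

/-- the right side of the energy identity. -/
noncomputable def rhs (φ : Fin N → E3 → E3) (a : E3 → ℝ) (f : ℝ → E3 → E3)
    (c : ℝ → Fin N → ℝ) (X : ℝ → E3 → E3) (d d' : ℝ → Fin N → ℝ) (t : ℝ) : ℝ :=
  - nM (jac (fld φ (c t - d t))) ^ 2
    - (∫ x, ⟪jac (fld φ (d t)) x, jac (fld φ (c t - d t)) x⟫_ℝ)
    + (∫ x, a x * ⟪f t (X t x), fld φ (c t - d t) (X t x)⟫_ℝ)
    - ∫ x, a x * ⟪fld φ (d' t) (X t x)
        + fderiv ℝ (fld φ (d t)) (X t x) (fld φ (c t) (X t x)), fld φ (c t - d t) (X t x)⟫_ℝ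

/-- the energy identity in stage `j`. -/
theorem rhs_stage (hb : StmBump) (hF : StmForce) (P : Par) {σ : ℝ} {j J : ℕ} (hj : j < J)
    (b : ℕ → Fin N → ℝ) (hbW : ∀ j < J, P.W j = fld φ (b j))
    (a : E3 → ℝ) (c : ℝ → Fin N → ℝ) (X : ℝ → E3 → E3)
    {s : ℝ} (hs : s ∈ Icc (P.t (j + 1)) (P.t j)) :
    rhs φ a P.f c X (dd P σ J b) (dd' P σ J b) s
      = - nM (jac (fld φ (c s - dd P σ J b s))) ^ 2
        - σ * P.F j s * (∫ x, ⟪jac (P.W j) x, jac (fld φ (c s - dd P σ J b s)) x⟫_ℝ)
        + P.F j s * (∫ x, a x * ⟪P.fs j (X s x), fld φ (c s - dd P σ J b s) (X s x)⟫_ℝ)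
        - ∫ x, a x * ⟪(σ * N273.MH.F' P j s) • P.W j (X s x)
          + fderiv ℝ (fun x => (σ * P.F j s) • P.W j x) (X s x)
            ((σ * P.F j s) • P.W j (X s x) + fld φ (c s - dd P σ J b s) (X s x)),
            fld φ (c s - dd P σ J b s) (X s x)⟫_ℝ := by
  set w := fld φ (c s - dd P σ J b s) with hw
  have h1 : ∀ x, fld φ (dd P σ J b s) x = (σ * P.F j s) • P.W j x := by
    intro x
    rw [dd_stage hb P hj b hs, fld_smul, ← hbW j hj]
  have h1' : fld φ (dd P σ J b s) = fun x => (σ * P.F j s) • P.W j x := funext h1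
  have h1'' : fld φ (dd P σ J b s) = (σ * P.F j s) • P.W j := funext h1
  have h2 : ∀ x, fld φ (dd' P σ J b s) x = (σ * N273.MH.F' P j s) • P.W j x := by
    intro x
    rw [dd'_stage hb P hj b hs, fld_smul, ← hbW j hj]
  have h3 : ∀ x, fld φ (c s) x = (σ * P.F j s) • P.W j x + w x := by
    intro x
    rw [hw, fld_sub, h1]
    abel
  unfold rhs
  rw [← hw]
  congr 1
  · congr 1
    · congr 1
      rw [h1'', ← integral_const_mul]
      congr 1
      funext x
      rw [jac_smul, real_inner_smul_left]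
    · rw [← integral_const_mul]
      congr 1
      funext x
      rw [(hF P).2.2.2.2.1 j s hs, real_inner_smul_left]
      ring
  · congr 1
    funext x
    rw [h2, h3, h1']

end

theorem est_holds (h : StmProf) (hb : StmBump) (hW : StmW) (hF : StmForce) (hP : StmPoinc)
    (i1 : StmI1) (tr : StmTraj) (d6 : StmD6) (i2 : StmI2) (i4 : StmI4) (en : StmEN)
    (bo : StmBoot) : StmEst := by
  intro Ω d T hΩo hΩb hd hd1 hΩ hT
  obtain ⟨CW, c₁, hCW, hc₁, HW⟩ := hW d hd hd1
  obtain ⟨CP, hCP, HP⟩ := hP Ω hΩo hΩb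
  obtain ⟨C1, hC1, HI1⟩ := i1
  obtain ⟨K, HK⟩ := tr d hd hd1
  obtain ⟨C2, hC2, HI2⟩ := i2
  obtain ⟨C4, hC4, HI4⟩ := i4 Ω hΩo hΩb d hd hd1 hΩ
  set cs : ℝ := (CS : ℝ) ^ 5 with hcs
  have hcs0 : 0 ≤ cs := by positivity
  set C := C2 * (1 + cs) + C1 * (CP + 1) + CW * CP + 6 * C4 with hC
  have hC0 : 0 < C := by positivity
  obtain ⟨P, hPT, hPd, hPK, HB⟩ := bo C T d (Real.sqrt c₁ / 2) K hC0 hT hd hd1 (by positivity)
  have hr0 := r_pos P 0
  have hA0 := A_pos P 0
  refine ⟨P, hPd, hPT, P.A 0 * (c₁ / P.r 0 ^ 3) * (31 / 64), by positivity, ?_⟩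
  intro σ J N φ c c' X Y hσ hJ hφ hbW hgal
  have hbW' : ∀ j, ∃ b : Fin N → ℝ, j < J → P.W j = fld φ b := by
    intro j
    by_cases hj : j < J
    · obtain ⟨b, hb⟩ := hbW j hj
      exact ⟨b, fun _ => hb⟩
    · exact ⟨0, fun h => absurd h hj⟩
  choose b hbb using hbW'
  have htJ : P.t J < P.T := by
    have h1 := t_anti P hJ
    have h2 := dl_pos P 0
    unfold Par.dl at h2
    rw [zero_add, t_zero] at h2
    linarith
  set w : ℝ → E3 → E3 := fun s => fld φ (c s - dd P σ J b s) with hw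
  have hwt : ∀ s, IsTest Ω (w s) := fun s => isTest_fld hφ _
  set n : ℝ → ℝ := fun s => nM (jac (w s)) with hn
  have hnc : Continuous n := continuous_nM_fld hφ (hgal.cc.sub (continuous_dd hb P σ J b))
  have hn0 : ∀ s, 0 ≤ n s := fun s => nM_nonneg _
  set a := P.a σ J with ha
  set e : ℝ → ℝ := fun s => (1 / 2) * ∫ x, a x * ‖w s (X s x)‖ ^ 2 with he
  have hbase := HB J e (rhs φ a P.f c X (dd P σ J b) (dd' P σ J b)) n hJ hnc hn0
    (fun s _ => by
      have : 0 ≤ ∫ x, a x * ‖w s (X s x)‖ ^ 2 := by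
        refine integral_nonneg fun x => ?_
        have := (a_bounds P σ J x).1
        positivity
      simp only [he]; positivity)
    (by
      have h0 : ∀ x, w (P.t J) x = 0 := by
        intro x
        simp only [hw]
        rw [hgal.c0 _ le_rfl, dd_start hb P b, sub_zero, fld_zero]
      simp only [he, h0]
      simp)
    (by
      intro s hs
      rw [← hPT] at hs ⊢
      have hg2 : IsGal φ (P.t J) P.T a P.f c c' X Y := by rw [hPT]; exact hgal
      exact en Ω N φ hφ (P.t J) P.T a P.f c c' X Y htJ (measurable_a P σ J)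
        (fun x => a_bounds P σ J x)
        (fun t ht => by
          obtain ⟨L, hL, -, -⟩ := (hF P).2.2.2.2.2 J
          refine LipschitzWith.continuous (K := (Real.toNNReal L)) ?_
          refine LipschitzWith.of_dist_le_mul fun x y => ?_
          rw [dist_eq_norm, dist_eq_norm]
          refine (hL t ht x y).trans ?_
          gcongr
          exact Real.le_coe_toNNReal L)
        hg2 (dd P σ J b) (dd' P σ J b)
        (fun t _ => (hasDerivAt_dd hb P σ J b t).hasDerivWithinAt)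
        (continuous_dd' hb P σ J b).continuousOn s hs)
    ?_
  · -- final estimate
    set R := P.r 0 ^ (-(3 / 2) : ℝ) with hR
    have hR0 : 0 < R := by positivity
    have hRR : R ^ 2 = (P.r 0 ^ 3)⁻¹ := by
      rw [hR, ← Real.rpow_natCast, ← Real.rpow_mul hr0.le, ← Real.rpow_natCast,
        ← Real.rpow_neg hr0.le]
      norm_num
    set M := nM (jac (P.W 0)) with hM
    have hM0 : 0 ≤ M := nM_nonneg _
    have hWt : IsTest Ω (P.W 0) := (HW P hPd 0).1 Ω hΩ
    have hMlow : c₁ / P.r 0 ^ 3 ≤ M ^ 2 := (HW P hPd 0).2.2.2.1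
    have hMR : Real.sqrt c₁ * R ≤ M := by
      refine le_of_sq_le_sq ?_ hM0
      rw [mul_pow, Real.sq_sqrt hc₁.le, hRR]
      exact hMlow
    have ht1 : P.t 1 ≤ P.T := t_le_T P 1
    have hJ1 : P.t J ≤ P.t 1 := t_anti P hJ
    have hn1 : ∫ τ in P.t 1..T, n τ ≤ ∫ τ in P.t J..T, n τ := by
      rw [← intervalIntegral.integral_add_adjacent_intervals (hnc.intervalIntegrable (P.t J) (P.t 1))
        (hnc.intervalIntegrable (P.t 1) T)]
      have : 0 ≤ ∫ τ in P.t J..P.t 1, n τ :=
        intervalIntegral.integral_nonneg hJ1 fun s _ => hn0 s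
      linarith
    have hpoint : ∀ s ∈ Icc (P.t 1) T, P.F 0 s * M ^ 2 - M * n s
        ≤ σ * ∫ x, ⟪jac (fld φ (c s)) x, jac (P.W 0) x⟫_ℝ := by
      intro s hs
      have hs' : s ∈ Icc (P.t (0 + 1)) (P.t 0) := by
        rw [zero_add, t_zero, hPT]; exact hs
      have h1 : fld φ (c s) = (σ * P.F 0 s) • P.W 0 + w s := by
        funext x
        simp only [hw, Pi.add_apply, Pi.smul_apply]
        rw [fld_sub, dd_stage hb P (show 0 < J from hJ) b hs', fld_smul, ← hbb 0 hJ]
        abel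
      have h2 : ∫ x, ⟪jac (fld φ (c s)) x, jac (P.W 0) x⟫_ℝ
          = σ * P.F 0 s * M ^ 2 + ∫ x, ⟪jac (w s) x, jac (P.W 0) x⟫_ℝ := by
        have h3 : ∀ x, ⟪jac (fld φ (c s)) x, jac (P.W 0) x⟫_ℝ
            = σ * P.F 0 s * ⟪jac (P.W 0) x, jac (P.W 0) x⟫_ℝ
              + ⟪jac (w s) x, jac (P.W 0) x⟫_ℝ := by
          intro x
          rw [h1, jac_add (hWt.smul _).smooth (hwt s).smooth, jac_smul, inner_add_left,
            real_inner_smul_left]
        simp only [h3]
        rw [integral_add ((integrable_inner_jac hWt hWt).const_mul _)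
          (integrable_inner_jac (hwt s) hWt), integral_const_mul]
        congr 2
        rw [hM, nM_sq]
        congr 1
        funext x
        rw [real_inner_self_eq_norm_sq]
      have h3 := abs_integral_inner_le (hwt s) hWt
      have hσa : |σ| = 1 := by rcases hσ with h | h <;> simp [h]
      have hσ2 : σ * σ = 1 := by rcases hσ with h | h <;> simp [h]
      have h4 : -(M * n s) ≤ σ * ∫ x, ⟪jac (w s) x, jac (P.W 0) x⟫_ℝ := by
        have h5 : |σ * ∫ x, ⟪jac (w s) x, jac (P.W 0) x⟫_ℝ| ≤ M * n s := by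
          rw [abs_mul, hσa, one_mul, mul_comm]
          exact h3
        exact (abs_le.mp h5).1
      rw [h2]
      have h6 : σ * (σ * P.F 0 s * M ^ 2 + ∫ x, ⟪jac (w s) x, jac (P.W 0) x⟫_ℝ)
          = (σ * σ) * P.F 0 s * M ^ 2 + σ * ∫ x, ⟪jac (w s) x, jac (P.W 0) x⟫_ℝ := by ring
      rw [h6, hσ2, one_mul]
      linarith
    have hint : ∫ s in P.t 1..T, (P.F 0 s * M ^ 2 - M * n s)
        ≤ ∫ s in P.t 1..T, σ * ∫ x, ⟪jac (fld φ (c s)) x, jac (P.W 0) x⟫_ℝ := by
      have hFc := continuous_F P hb 0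
      refine intervalIntegral.integral_mono_on (by rw [← hPT]; exact ht1) ?_ ?_ hpoint
      · exact (by fun_prop : Continuous fun s => P.F 0 s * M ^ 2 - M * n s).intervalIntegrable _ _
      · exact ((continuous_inner_fld hφ hWt hgal.cc).const_mul σ).intervalIntegrable _ _
    rw [intervalIntegral.integral_const_mul] at hint
    refine le_trans ?_ hint
    have hFc := continuous_F P hb 0
    rw [intervalIntegral.integral_sub ((hFc.mul_const _).intervalIntegrable _ _)
      ((hnc.const_mul _).intervalIntegrable _ _), intervalIntegral.integral_mul_const,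
      intervalIntegral.integral_const_mul]
    have hF0 : ∫ s in P.t 1..T, P.F 0 s = 63 / 64 * P.A 0 := by
      rw [← dA_eq, ← integral_F P hb 0, zero_add, t_zero, hPT]
    rw [hF0]
    have h7 : M * ∫ τ in P.t 1..T, n τ ≤ M * (P.A 0 * M / 2) := by
      refine mul_le_mul_of_nonneg_left ?_ hM0
      refine (hn1.trans hbase).trans ?_
      have : Real.sqrt c₁ / 2 * (P.A 0 * R) = P.A 0 * (Real.sqrt c₁ * R) / 2 := by ring
      rw [this]
      gcongr
    have h8 : P.A 0 * (c₁ / P.r 0 ^ 3) * (31 / 64) ≤ P.A 0 * M ^ 2 * (31 / 64) := by gcongr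
    nlinarith
  · -- the differential inequality
    intro j hj s hs μ hμ hμ1
    have hrj := r_pos P j
    have hAj := A_pos P j
    have hsJ : P.t J ≤ s := (t_anti P hj).trans hs.1
    have hsT : s ≤ P.T := hs.2.trans (t_le_T P j)
    set S := ∫ τ in P.t J..s, n τ with hS
    have hS0 : 0 ≤ S := intervalIntegral.integral_nonneg hsJ fun s _ => hn0 s
    have hbc : Continuous fun s => c s - dd P σ J b s := hgal.cc.sub (continuous_dd hb P σ J b)
    obtain ⟨hDc, hD6⟩ := d6 Ω hΩb N φ hφ (fun s => c s - dd P σ J b s) hbc X hgal.Xc hgal.mp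
      (P.t J) s hsJ
    have hXs : Continuous (X s) := by
      have := hgal.Xc.comp (by fun_prop : Continuous fun x : E3 => (s, x))
      exact this
    set R := P.r j ^ (-(3 / 2) : ℝ) with hR
    have hR0 : 0 < R := by positivity
    have key2 := HI2 P j σ hσ Ω (w s) (hwt s) a (X s)
      (fun α => ∫ τ in P.t J..s, ‖fld φ (c τ - dd P σ J b τ) (X τ α)‖) ((CS : ℝ) * S)
      (measurable_a P σ J) (fun x => a_bounds P σ J x) hXs (hgal.mp s) hDc
      (fun α => intervalIntegral.integral_nonneg hsJ fun s _ => norm_nonneg _) (by positivity)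
      hD6 (by
        intro α hfs hDα
        have hres := HK P hPd hPK σ hσ j J hj s hs (fun τ => X τ α)
          (fun τ => fld φ (c τ - dd P σ J b τ) (X τ α)) ?_ ?_ hfs hDα
        · simp only [hgal.X0 (P.t J) le_rfl α] at hres
          exact hres
        · refine Continuous.continuousOn ?_
          have h1 : Continuous fun τ : ℝ => X τ α := by
            have := hgal.Xc.comp (by fun_prop : Continuous fun τ : ℝ => (τ, α))
            exact this
          have h2 : Continuous fun τ => ∑ k, (c τ - dd P σ J b τ) k • φ k (X τ α) := by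
            refine continuous_finsetSum _ fun k _ => ?_
            have h3 : Continuous fun τ => (c τ - dd P σ J b τ) k := (continuous_apply k).comp hbc
            exact h3.smul ((hφ k).smooth.continuous.comp h1)
          exact h2
        · intro τ hτ
          have h1 := hgal.dX τ ⟨hτ.1, by rw [← hPT]; exact hτ.2.trans hsT⟩ α
          have h2 : fld φ (c τ) (X τ α)
              = P.us σ J τ (X τ α) + fld φ (c τ - dd P σ J b τ) (X τ α) := by
            rw [fld_sub, fld_dd P σ J b hbb]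
            abel
          rw [h2] at h1
          exact h1.mono (Icc_subset_Icc le_rfl (by rw [← hPT]; exact hsT)))
      μ hμ hμ1
    have key1 := HI1 P j σ hσ Ω (w s) (hwt s)
    have keyW := (HW P hPd j).2.2.2.2 Ω (w s) (hwt s)
    have key4 := HI4 P hPd j (σ * P.F j s) (σ * N273.MH.F' P j s) (w s) (hwt s) a (X s)
      (measurable_a P σ J) (fun x => a_bounds P σ J x) hXs (hgal.mp s)
    rw [source_split h P σ j (hwt s)] at key1
    have hσa : |σ| = 1 := by rcases hσ with h | h <;> simp [h]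
    have hσ2 : σ ^ 2 = 1 := by rcases hσ with h | h <;> simp [h]
    rw [abs_mul σ (N273.MH.F' P j s), abs_mul σ (P.F j s), hσa, one_mul, one_mul, mul_pow, hσ2,
      one_mul] at key4
    have hGA : ((CS : ℝ) * S / (P.A j * R)) ^ 5 * (μ ^ 15)⁻¹
        = cs * ((S / (P.A j * R)) ^ 5 * (μ ^ 15)⁻¹) := by
      rw [hcs, mul_div_assoc, mul_pow]; ring
    rw [hGA] at key2
    refine collect (n := n s) (nv := nV (w s)) (F := P.F j s) (F' := N273.MH.F' P j s)
      (r := P.r j) (k := (P.k j : ℝ)) (q := P.dA j / P.dl j ^ 2)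
      (I1 := ∫ x, ⟪jac (P.W j) x, jac (w s) x⟫_ℝ) (Ig := ∫ x, ⟪P.g j x, w s x⟫_ℝ)
      (I2 := ∫ x, a x * ⟪P.fs j (X s x), w s (X s x)⟫_ℝ)
      (Ib := ∫ x, ⟪P.bs σ j x, w s x⟫_ℝ)
      (I3 := ∫ x, a x * ⟪(σ * N273.MH.F' P j s) • P.W j (X s x)
          + fderiv ℝ (fun x => (σ * P.F j s) • P.W j x) (X s x)
            ((σ * P.F j s) • P.W j (X s x) + w s (X s x)), w s (X s x)⟫_ℝ)
      (σ := σ) (R52 := P.r j ^ (-(5 / 2) : ℝ))
      (hn0 s) (HP (w s) (hwt s)) (F_nonneg P hb j s) hrj (r_le_one P j) (kr_pos P j)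
      (div_nonneg (dA_pos P j).le (by positivity)) (by positivity) (by positivity)
      hCW hCP hC1 hC2 hC4 hcs0 hσ hR0 (by positivity) (by positivity) (by positivity)
      (by positivity) ?_ ?_ keyW key2 key1 key4 (abs_F'_le P hb j s) ?_
    · rw [hR, ← Real.rpow_neg_one, ← Real.rpow_add hrj]
      norm_num
    · rw [hR, ← Real.rpow_add hrj]
      norm_num
    · exact rhs_stage hb hF P hj b hbb a c X hs

end N979MH
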