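import Mathlib
import Pool.Agent.N979.MH.Stm

/-!
Project MH: from integrated solutions to weak solutions of the MHD system with `B = 0`.
-/

open MeasureTheory Set Filter Topology
open scoped InnerProductSpace ENNReal ContDiff NNReal

namespace N979MH

open H772R2.NS

theorem finite_restrict {Ω : Set E3} (hb : Bornology.IsBounded Ω) :
    IsFiniteMeasure (volume.restrict Ω) :=
  ⟨by rw [Measure.restrict_apply_univ]; exact hb.measure_lt_top⟩

/-- `L²` convergence of functions bounded by `1` implies `L^p` convergence. -/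
theorem lp_of_l2 {Ω : Set E3} (hb : Bornology.IsBounded Ω) {ι : Type*} {F : Filter ι}
    {g : ι → E3 → ℝ} (hg : ∀ i, AEStronglyMeasurable (g i) (volume.restrict Ω))
    (h1 : ∀ᶠ i in F, ∀ᵐ x ∂(volume.restrict Ω), |g i x| ≤ 1)
    (h2 : Tendsto (fun i => eLpNorm (g i) 2 (volume.restrict Ω)) F (𝓝 0))
    (p : ℝ≥0∞) (hp1 : 1 ≤ p) (hp : p ≠ ⊤) :
    Tendsto (fun i => eLpNorm (g i) p (volume.restrict Ω)) F (𝓝 0) := by
  have hfin := finite_restrict hb
  rcases le_total p 2 with h | h
  · -- p ≤ 2
    set c : ℝ≥0∞ := (volume.restrict Ω) univ ^ (1 / p.toReal - 1 / (2 : ℝ≥0∞).toReal) with hc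
    have hc' : c ≠ ⊤ := by
      rw [hc]
      refine ENNReal.rpow_ne_top_of_nonneg ?_ (measure_ne_top _ _)
      have hp0 : 0 < p.toReal := ENNReal.toReal_pos (by
        intro h0; rw [h0] at hp1; simp at hp1) hp
      have h3 : p.toReal ≤ 2 := by
        have := ENNReal.toReal_mono (by norm_num) h
        simpa using this
      have : (1 : ℝ) / 2 ≤ 1 / p.toReal := by
        apply one_div_le_one_div_of_le hp0 h3
      simpa using this
    have h3 : Tendsto (fun i => eLpNorm (g i) 2 (volume.restrict Ω) * c) F (𝓝 (0 * c)) :=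
      ENNReal.Tendsto.mul_const h2 (Or.inr hc')
    rw [zero_mul] at h3
    refine tendsto_of_tendsto_of_tendsto_of_le_of_le tendsto_const_nhds h3 (fun i => zero_le)
      (fun i => ?_)
    exact eLpNorm_le_eLpNorm_mul_rpow_measure_univ h (hg i)
  · -- 2 ≤ p
    have hp0 : 0 < p.toReal := ENNReal.toReal_pos (by
      intro h0; rw [h0] at hp1; simp at hp1) hp
    have h2p : 2 ≤ p.toReal := by
      have := ENNReal.toReal_mono hp h
      simpa using this
    have hle : ∀ᶠ i in F, eLpNorm (g i) p (volume.restrict Ω)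
        ≤ (eLpNorm (g i) 2 (volume.restrict Ω)) ^ (2 / p.toReal) := by
      filter_upwards [h1] with i hi
      rw [eLpNorm_eq_lintegral_rpow_enorm_toReal (by
        intro h0; rw [h0] at hp1; simp at hp1) hp,
        eLpNorm_eq_lintegral_rpow_enorm_toReal (by norm_num) (by norm_num), ← ENNReal.rpow_mul]
      have e1 : (1 : ℝ) / (2 : ℝ≥0∞).toReal * (2 / p.toReal) = 1 / p.toReal := by
        simp only [ENNReal.toReal_ofNat]
        field_simp
      rw [e1]
      refine ENNReal.rpow_le_rpow ?_ (by positivity)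
      refine lintegral_mono_ae ?_
      filter_upwards [hi] with x hx
      have h4 : ‖g i x‖ₑ ≤ 1 := by
        rw [← ofReal_norm, Real.norm_eq_abs]
        exact ENNReal.ofReal_le_one.mpr hx
      simp only [ENNReal.toReal_ofNat]
      exact ENNReal.rpow_le_rpow_of_exponent_ge h4 h2p
    have h3 : Tendsto (fun i => (eLpNorm (g i) 2 (volume.restrict Ω)) ^ (2 / p.toReal)) F (𝓝 0) := by
      have hc : Continuous (fun y : ℝ≥0∞ => y ^ (2 / p.toReal)) :=
        ENNReal.continuous_rpow_const
      have := (hc.tendsto 0).comp h2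
      rw [ENNReal.zero_rpow_of_pos (by positivity)] at this
      exact this
    refine tendsto_of_tendsto_of_tendsto_of_le_of_le' tendsto_const_nhds h3
      (Eventually.of_forall fun i => zero_le) hle

theorem curlM_zero : curlM (0 : M3) = 0 := by
  ext i
  fin_cases i <;> simp [curlM]

theorem cross_zero_right (a : E3) : cross a 0 = 0 := by
  ext i
  fin_cases i <;> simp [cross]

theorem isMHD_of_int (hR : StmTestR) (hM : StmTestM) {Ω : Set E3} {T : ℝ} {f : ℝ → L2V Ω}
    {ρ : ℝ → L2S Ω} {u : ℝ → L2V Ω} {G : ℝ → L2M Ω} (hΩ : IsOpen Ω)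
    (hb : Bornology.IsBounded Ω) (hT : 0 < T) (S : IsIntSol Ω T f ρ u G) (hu0 : u 0 = 0) :
    IsMHDSolution Ω T (fun _ => 1) (fun _ => 1) f (ρ 0) 0 0 ρ u (fun _ => 0) G (fun _ => 0) := by
  have hrestr : (volume.restrict (Ioo 0 T) : Measure ℝ) = volume.restrict (Ioc 0 T) :=
    Measure.restrict_congr_set Ioo_ae_eq_Ioc
  have hz : ((0 : L2V Ω) : E3 → E3) =ᵐ[volume.restrict Ω] 0 := Lp.coeFn_zero _ _ _
  have hzM : ((0 : L2M Ω) : E3 → M3) =ᵐ[volume.restrict Ω] 0 := Lp.coeFn_zero _ _ _
  constructor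
  · refine ⟨2, fun t ht => ?_⟩
    filter_upwards [S.bd t ht] with x hx
    rw [abs_le]; constructor <;> linarith [hx.1, hx.2]
  · intro p hp1 hp t ht
    refine lp_of_l2 hb (fun s => ((Lp.aestronglyMeasurable (ρ s)).sub
      (Lp.aestronglyMeasurable (ρ t)))) ?_ ?_ p hp1 hp
    · filter_upwards [self_mem_nhdsWithin] with s hs
      filter_upwards [S.bd s hs, S.bd t ht] with x h1 h2
      simp only [Pi.sub_apply]
      rw [abs_le]; constructor <;> linarith [h1.1, h1.2, h2.1, h2.2]
    · have h1 := S.rcont t ht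
      have h2 : Tendsto (fun s => ‖ρ s - ρ t‖ₑ) (𝓝[Icc 0 T] t) (𝓝 0) := by
        have h3 := tendsto_iff_norm_sub_tendsto_zero.mp h1
        have h4 := (ENNReal.continuous_ofReal.tendsto 0).comp h3
        rw [ENNReal.ofReal_zero] at h4
        refine h4.congr (fun s => ?_)
        simp only [Function.comp]
        rw [ofReal_norm]
      refine h2.congr (fun s => ?_)
      rw [Lp.enorm_def]
      exact eLpNorm_congr_ae (Lp.coeFn_sub _ _)
  · rfl
  · exact hR Ω T f ρ u G hΩ hb hT S
  · exact S.ubd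
  · exact S.usol
  · exact S.ucont
  · rw [hrestr]; exact S.grad
  · rw [hrestr]; exact S.gradL2
  · exact ⟨0, fun t _ => by simp⟩
  · intro t _
    refine subset_closure ⟨0, IsTest.zero, ?_⟩
    exact hz
  · intro v
    simp only [inner_zero_left]
    exact continuousOn_const
  · refine Eventually.of_forall fun t => ?_
    intro ψ _ _ _ i j
    have e1 : ∫ x in Ω, (0 : L2V Ω) x i * fderiv ℝ ψ x (EuclideanSpace.single j 1) = 0 := by
      refine integral_eq_zero_of_ae ?_
      filter_upwards [hz] with x hx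
      rw [hx]; simp
    have e2 : ∫ x in Ω, (0 : L2M Ω) x (i, j) * ψ x = 0 := by
      refine integral_eq_zero_of_ae ?_
      filter_upwards [hzM] with x hx
      rw [hx]; simp
    rw [e1, e2, neg_zero]
  · exact (MemLp.zero : MemLp (0 : ℝ → L2M Ω) 2 (volume.restrict (Ioo 0 T)))
  · intro φ hφ
    have h1 := hM Ω T f ρ u G hΩ hb hT S hu0 φ hφ
    have e1 : ∫ x in Ω, ρ 0 x * ⟪(0 : L2V Ω) x, φ 0 x⟫_ℝ = 0 := by
      refine integral_eq_zero_of_ae ?_
      filter_upwards [hz] with x hx
      rw [hx]; simp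
    rw [e1, neg_zero]
    refine Eq.trans ?_ h1
    refine setIntegral_congr_fun measurableSet_Ioo (fun t _ => ?_)
    refine integral_congr_ae ?_
    filter_upwards [hz, hzM] with x h2 h3
    rw [h2, h3]
    simp only [Pi.zero_apply, cross_zero_right, inner_zero_left, add_zero, one_mul]
  · intro φ _ _ _
    have e1 : ∫ x in Ω, ⟪(0 : L2V Ω) x, φ 0 x⟫_ℝ = 0 := by
      refine integral_eq_zero_of_ae ?_
      filter_upwards [hz] with x hx
      rw [hx]; simp
    rw [e1, neg_zero]
    refine integral_eq_zero_of_ae (Eventually.of_forall fun t => ?_)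
    refine integral_eq_zero_of_ae ?_
    filter_upwards [hz, hzM] with x h2 h3
    rw [h2, h3]
    simp [cross_zero_right, curlM_zero]

end N979MH
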