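import Mathlib
import Pool.Agent.N979.MH.Fin1

/-!
Project MH: final assembly.
-/

open MeasureTheory Set Filter Topology
open scoped InnerProductSpace ENNReal ContDiff NNReal

namespace N979MH

open H772R2.NS

theorem Par.t_pos (P : Par) (j : ℕ) : 0 < P.t j := by
  have := P.hT
  unfold Par.t
  positivity

theorem Par.t_succ_lt (P : Par) (j : ℕ) : P.t (j + 1) < P.T := by
  have h := P.hT
  unfold Par.t
  have h1 : ((3 : ℝ) / 4) ^ (j + 1) < 1 := pow_lt_one₀ (by norm_num) (by norm_num) (by simp)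
  nlinarith

theorem Par.t_tendsto (P : Par) : Tendsto (fun J : ℕ => P.t (J + 1)) atTop (𝓝 0) := by
  have h1 : Tendsto (fun J : ℕ => ((3 : ℝ) / 4) ^ J) atTop (𝓝 0) :=
    tendsto_pow_atTop_nhds_zero_of_lt_one (by norm_num) (by norm_num)
  have h2 := ((tendsto_add_atTop_iff_nat 1).mpr h1).const_mul P.T
  simpa [Par.t] using h2

/-- One solution for each sign, with the sign of its pairing with the first vortex. -/
theorem one_sign (hGal : StmGal) (hLim : StmLim) (hConv : StmConv) (hForce : StmForce)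
    (hBasis : StmBasis) (hW : StmW) {Ω : Set E3} (hΩ : IsOpen Ω) (hb : Bornology.IsBounded Ω)
    {P : Par} (hd : Metric.closedBall 0 (2 * P.d) ⊆ Ω) {γ : ℝ}
    (hest : ∀ (σ : ℝ) (J N : ℕ) (φ : Fin N → E3 → E3) (c c' : ℝ → Fin N → ℝ) (X Y : ℝ → E3 → E3),
      (σ = 1 ∨ σ = -1) → 1 ≤ J → (∀ k, IsTest Ω (φ k)) → (∀ j < J, ∃ b, P.W j = fld φ b) →
      IsGal φ (P.t J) P.T (P.a σ J) P.f c c' X Y →
      γ ≤ σ * ∫ s in P.t 1..P.T, ∫ x, ⟪jac (fld φ (c s)) x, jac (P.W 0) x⟫_ℝ)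
    {ψ : ℕ → E3 → E3} (hψ : ∀ n, IsTest Ω (ψ n))
    (hψd : ∀ φ, IsTest Ω φ → ∀ ε : ℝ, 0 < ε → ∃ n, nV (fun x => φ x - ψ n x) < ε ∧
      nM (fun x => jac φ x - jac (ψ n) x) < ε)
    {ρ0L : L2S Ω} (hρ0 : ClsS ρ0L P.rho0) {fL : ℝ → L2V Ω} (hfL : ∀ s, ClsV (fL s) (P.f s))
    (hfm : StronglyMeasurable fL) {σ : ℝ} (hσ : σ = 1 ∨ σ = -1) :
    ∃ (ρ : ℝ → L2S Ω) (u : ℝ → L2V Ω) (G : ℝ → L2M Ω), IsIntSol Ω P.T fL ρ u G ∧ ρ 0 = ρ0L ∧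
      u 0 = 0 ∧
      (∀ t ∈ Icc 0 P.T, (1 / 2) * (∫ x in Ω, ρ t x * ‖u t x‖ ^ 2)
          + (∫ s in (0 : ℝ)..t, ‖G s‖ ^ 2)
        ≤ ∫ s in (0 : ℝ)..t, ∫ x in Ω, ρ s x * ⟪fL s x, u s x⟫_ℝ) ∧
      γ ≤ σ * ∫ t in P.t 1..P.T, ∫ x in Ω, ⟪G t x, jac (P.W 0) x⟫_ℝ := by
  obtain ⟨-, -, -, -, hWd⟩ : True ∧ True ∧ True ∧ True ∧ ∀ j, IsTest Ω (P.W j) := by
    obtain ⟨C, c1, -, -, h⟩ := hW P.d P.hd P.hd1
    exact ⟨trivial, trivial, trivial, trivial, fun j => (h P rfl j).1 Ω hd⟩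
  obtain ⟨ha, hr0m, ha12, hr12, hconv⟩ := hConv P σ hσ
  obtain ⟨⟨K, hK⟩, -, -, -, -, hL⟩ := hForce P
  -- the families
  have hfam : ∀ J : ℕ, ∃ (N : ℕ) (φ : Fin N → E3 → E3), (∀ k, IsTest Ω (φ k)) ∧
      LinearIndependent ℝ φ ∧ (∀ j < J + 1, ∃ b, P.W j = fld φ b) ∧
      (∀ n < J + 1, ∃ b, ψ n = fld φ b) := by
    intro J
    obtain ⟨N, φ, h1, h2, h3⟩ := hBasis Ω (2 * (J + 1))
      (fun i => if (i : ℕ) % 2 = 0 then P.W ((i : ℕ) / 2) else ψ ((i : ℕ) / 2)) (by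
        intro i
        by_cases hi : (i : ℕ) % 2 = 0
        · simp only [hi, if_true]; exact hWd _
        · simp only [hi, if_false]; exact hψ _)
    refine ⟨N, φ, h1, h2, fun j hj => ?_, fun n hn => ?_⟩
    · obtain ⟨b, hb'⟩ := h3 ⟨2 * j, by omega⟩
      refine ⟨b, ?_⟩
      rw [← hb']
      simp
    · obtain ⟨b, hb'⟩ := h3 ⟨2 * n + 1, by omega⟩
      refine ⟨b, ?_⟩
      rw [← hb']
      have e1 : (2 * n + 1) % 2 ≠ 0 := by omega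
      have e2 : (2 * n + 1) / 2 = n := by omega
      simp only [e1, if_false, e2]
  choose N φ hφ hli hWφ hψφ using hfam
  have hgal : ∀ J : ℕ, ∃ (c c' : ℝ → Fin (N J) → ℝ) (X Y : ℝ → E3 → E3),
      IsGal (φ J) (P.t (J + 1)) P.T (P.a σ (J + 1)) P.f c c' X Y := by
    intro J
    obtain ⟨L, h1, h2, h3⟩ := hL (J + 1)
    exact hGal Ω (N J) (φ J) hb (hφ J) (hli J) (P.t (J + 1)) P.T (P.a σ (J + 1)) P.f L
      (P.t_succ_lt J) (ha _) (fun x => by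
        rcases ha12 (J + 1) x with h | h <;> rw [h] <;> norm_num) h1 h2 h3
  choose c c' X Y hG using hgal
  obtain ⟨ρ, u, G, hS, h1, h2, h3, h4⟩ := hLim Ω P.T K P.rho0 P.f (fun J => P.t (J + 1))
    (fun J => P.a σ (J + 1)) N φ c c' X Y ψ ρ0L fL hΩ hb P.hT hr0m
    (fun x => by rcases hr12 x with h | h <;> rw [h] <;> norm_num) hρ0 hfL hfm hK
    (fun J => ⟨P.t_pos _, P.t_succ_lt J⟩) P.t_tendsto
    (fun J t ht => by
      obtain ⟨L, h1, -, -⟩ := hL (J + 1)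
      have hlip : LipschitzWith (Real.toNNReal L) (P.f t) := by
        refine LipschitzWith.of_dist_le_mul fun x y => ?_
        rw [dist_eq_norm, dist_eq_norm]
        refine (h1 t ht x y).trans ?_
        gcongr
        exact Real.le_coe_toNNReal L
      exact hlip.continuous)
    (fun J => ha _) (fun J x => by
        rcases ha12 (J + 1) x with h | h <;> rw [h] <;> norm_num)
    ((tendsto_add_atTop_iff_nat 1).mpr (hconv Ω hb)) hφ hψ hψd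
    (fun n => by
      filter_upwards [eventually_ge_atTop n] with J hJ
      exact hψφ J n (by omega))
    hG
  refine ⟨ρ, u, G, hS, h1, h2, h3, ?_⟩
  refine h4 (P.W 0) (hWd 0) (P.t 1) ⟨(P.t_pos 1).le, (P.t_succ_lt 0).le⟩ σ γ ?_
  exact Eventually.of_forall fun J => hest σ (J + 1) (N J) (φ J) (c J) (c' J) (X J) (Y J) hσ
    (by omega) (hφ J) (fun j hj => hWφ J j hj) (hG J)

/-- The main theorem from the modules. -/
theorem main_thm (hEst : StmEst) (hGal : StmGal) (hLim : StmLim) (hConv : StmConv)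
    (hForce : StmForce) (hForceL : StmForceL) (hDense : StmDense) (hBasis : StmBasis) (hW : StmW)
    (hR : StmTestR) (hM : StmTestM)
    (Ω : Set E3) (hΩ : IsOpen Ω) (hb : Bornology.IsBounded Ω) (h0 : (0 : E3) ∈ Ω)
    (T : ℝ) (hT : 0 < T) :
    ∃ (ρ₀ : L2S Ω) (f : ℝ → L2V Ω),
      (∀ᵐ x ∂(volume.restrict Ω), ρ₀ x = 1 ∨ ρ₀ x = 2) ∧
      StronglyMeasurable f ∧ (∃ K, ∀ t, ‖f t‖ ≤ K) ∧
      ∃ (ρ₁ ρ₂ : ℝ → L2S Ω) (u₁ u₂ : ℝ → L2V Ω) (G₁ G₂ : ℝ → L2M Ω),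
        IsMHDSolution Ω T (fun _ => 1) (fun _ => 1) f ρ₀ 0 0 ρ₁ u₁ (fun _ => 0) G₁ (fun _ => 0) ∧
        IsMHDSolution Ω T (fun _ => 1) (fun _ => 1) f ρ₀ 0 0 ρ₂ u₂ (fun _ => 0) G₂ (fun _ => 0) ∧
        (∀ t ∈ Icc 0 T, (1 / 2) * (∫ x in Ω, ρ₁ t x * ‖u₁ t x‖ ^ 2)
            + (∫ s in (0 : ℝ)..t, ‖G₁ s‖ ^ 2)
          ≤ ∫ s in (0 : ℝ)..t, ∫ x in Ω, ρ₁ s x * ⟪f s x, u₁ s x⟫_ℝ) ∧
        (∀ t ∈ Icc 0 T, (1 / 2) * (∫ x in Ω, ρ₂ t x * ‖u₂ t x‖ ^ 2)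
            + (∫ s in (0 : ℝ)..t, ‖G₂ s‖ ^ 2)
          ≤ ∫ s in (0 : ℝ)..t, ∫ x in Ω, ρ₂ s x * ⟪f s x, u₂ s x⟫_ℝ) ∧
        ∃ t ∈ Icc 0 T, u₁ t ≠ u₂ t := by
  -- the radius
  obtain ⟨d, hd0, hd1, hd⟩ : ∃ d : ℝ, 0 < d ∧ d ≤ 1 ∧ Metric.closedBall (0 : E3) (2 * d) ⊆ Ω := by
    obtain ⟨ε, hε, h⟩ := Metric.isOpen_iff.mp hΩ 0 h0
    refine ⟨min (ε / 4) 1, by positivity, min_le_right _ _, ?_⟩
    refine (Metric.closedBall_subset_ball ?_).trans h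
    have := min_le_left (ε / 4) 1
    linarith
  obtain ⟨P, hPd, hPT, γ, hγ, hest⟩ := hEst Ω d T hΩ hb hd0 hd1 hd hT
  subst hPd hPT
  obtain ⟨ψ, hψ, hψd⟩ := hDense Ω hΩ
  obtain ⟨fL, hfL, hfm, hfK⟩ := hForceL P Ω hΩ.measurableSet
  obtain ⟨-, hr0m, -, hr12, -⟩ := hConv P 1 (Or.inl rfl)
  have hfin := finite_restrict hb
  have hmem : MemLp P.rho0 2 (volume.restrict Ω) := by
    refine MemLp.of_bound hr0m.aestronglyMeasurable 2 (Eventually.of_forall fun x => ?_)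
    rcases hr12 x with h | h <;> rw [h] <;> norm_num
  have hcls : ClsS (hmem.toLp P.rho0) P.rho0 := hmem.coeFn_toLp
  obtain ⟨ρ₁, u₁, G₁, S1, i1, z1, e1, p1⟩ := one_sign hGal hLim hConv hForce hBasis hW hΩ hb hd
    hest hψ hψd hcls hfL hfm (Or.inl rfl : (1 : ℝ) = 1 ∨ (1 : ℝ) = -1)
  obtain ⟨ρ₂, u₂, G₂, S2, i2, z2, e2, p2⟩ := one_sign hGal hLim hConv hForce hBasis hW hΩ hb hd
    hest hψ hψd hcls hfL hfm (Or.inr rfl : (-1 : ℝ) = 1 ∨ (-1 : ℝ) = -1)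
  refine ⟨hmem.toLp P.rho0, fL, ?_, hfm, hfK, ρ₁, ρ₂, u₁, u₂, G₁, G₂, ?_, ?_, e1, e2, ?_⟩
  · filter_upwards [hcls] with x hx
    rw [hx]; exact hr12 x
  · have := isMHD_of_int hR hM hΩ hb hT S1 z1
    rwa [i1] at this
  · have := isMHD_of_int hR hM hΩ hb hT S2 z2
    rwa [i2] at this
  · by_contra hcon
    push Not at hcon
    have hG : ∀ᵐ t ∂(volume.restrict (Ioc 0 P.T)), G₁ t = G₂ t := by
      filter_upwards [S1.grad, S2.grad, ae_restrict_mem measurableSet_Ioc] with t g1 g2 ht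
      rw [hcon t (Ioc_subset_Icc_self ht)] at g1
      have h1 : (u₂ t, G₁ t) - (u₂ t, G₂ t) ∈ graphW Ω :=
        (graphW Ω).sub_mem (mem_graphW.mpr g1) (mem_graphW.mpr g2)
      rw [Prod.mk_sub_mk, sub_self] at h1
      exact sub_eq_zero.mp (graphW_uniq hΩ _ h1)
    have hI : ∫ t in P.t 1..P.T, ∫ x in Ω, ⟪G₁ t x, jac (P.W 0) x⟫_ℝ
        = ∫ t in P.t 1..P.T, ∫ x in Ω, ⟪G₂ t x, jac (P.W 0) x⟫_ℝ := by
      have hle : P.t 1 ≤ P.T := (P.t_succ_lt 0).le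
      rw [intervalIntegral.integral_of_le hle, intervalIntegral.integral_of_le hle]
      refine integral_congr_ae ?_
      have h1 : (volume.restrict (Ioc (P.t 1) P.T) : Measure ℝ) ≤ volume.restrict (Ioc 0 P.T) :=
        Measure.restrict_mono (Ioc_subset_Ioc_left (P.t_pos 1).le) le_rfl
      filter_upwards [ae_mono h1 hG] with t ht
      rw [ht]
    rw [hI] at p1
    linarith

end N979MH
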