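import Pool.Agent.N574.MH.FlowP

/-!
Project MH, module FLOW: measure preserving flows of time dependent divergence free fields.
-/

open Set MeasureTheory Metric Filter Topology
open scoped NNReal ENNReal InnerProductSpace ContDiff

set_option autoImplicit false

namespace N979MH

open H772R2.NS N574.MH

theorem flow_holds : StmFlow := by
  intro Ω N φ hΩ hφ b hb hM t0
  obtain ⟨M, hM⟩ := hM
  set m : ℝ≥0 := Real.toNNReal M with hm'
  have hm : ∀ s, ‖b s‖ ≤ m := fun s => (hM s).trans (Real.le_coe_toNNReal M)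
  obtain ⟨A, B, hAB⟩ := exists_consts hφ
  have h : Fd (fun t => fld φ (b t)) (m * B) (m * A) := by
    refine ⟨fun t => ?_, fun t x => ?_, fun x => ?_⟩
    · refine (hAB (b t)).1.weaken ?_
      have : ‖b t‖₊ ≤ m := by
        rw [← NNReal.coe_le_coe]
        exact hm t
      exact mul_le_mul_left this A
    · refine ((hAB (b t)).2 x).trans ?_
      push_cast
      exact mul_le_mul_of_nonneg_right (hm t) B.2
    · have : Continuous fun τ => fldL φ x (b τ) := (fldL φ x).continuous.comp hb
      simp_rw [fldL_apply] at this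
      exact this
  refine ⟨fun t x => Fl h t0 t x, fun t x => Fl h t t0 x, Fl_cont₁ h t0, Fl_cont₂ h t0,
    Fl_self h t0, fun t x => Fl_inv h t t0 x, fun t x => Fl_inv h t0 t x,
    fun t x => Fl_sol h t0 x t, fun t => ?_, fun t x hx => ?_⟩
  · have := mp_of (FlH h t0 t)
      (fun g ⟨L, hL⟩ hs h0 h1 => int_pres hΩ hφ hb hm hAB h t0 t hL hs h0 h1)
      (fun g ⟨L, hL⟩ hs h0 h1 => int_pres hΩ hφ hb hm hAB h t t0 hL hs h0 h1)
    exact this
  · exact Fl_const h t0 t fun τ => fld_zero hφ (b τ) hx

end N979MH
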