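import Mathlib
import Pool.Agent.N979.MH.Stm

/-!
Project MH, module FORCE: the force is bounded, measurable, and Lipschitz away from time zero.
-/

open MeasureTheory Set Filter Topology
open scoped InnerProductSpace ENNReal ContDiff NNReal

namespace N979MH

open H772R2.NS

namespace FF

/-! ### times and amplitudes -/

theorem r_pos (P : Par) (j : ℕ) : 0 < P.r j := by
  unfold Par.r
  have := P.hr
  positivity

theorem r_le (P : Par) (j : ℕ) : P.r j ≤ P.r0 := by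
  unfold Par.r
  exact div_le_self P.hr.le (one_le_pow₀ (by norm_num))

theorem t_pos (P : Par) (j : ℕ) : 0 < P.t j := by
  unfold Par.t
  have := P.hT
  positivity

theorem dl_eq (P : Par) (j : ℕ) : P.dl j = P.T / 4 * (3 / 4) ^ j := by
  unfold Par.dl Par.t
  rw [pow_succ]
  ring

theorem dl_pos (P : Par) (j : ℕ) : 0 < P.dl j := by
  rw [dl_eq]
  have := P.hT
  positivity

theorem t_succ_lt (P : Par) (j : ℕ) : P.t (j + 1) < P.t j := by
  have := dl_pos P j
  unfold Par.dl at this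
  linarith

theorem t_anti (P : Par) : Antitone P.t := antitone_nat_of_succ_le fun j => (t_succ_lt P j).le

theorem t_zero (P : Par) : P.t 0 = P.T := by simp [Par.t]

theorem phie_pos : 0 < phie := by
  unfold phie
  have := Real.pi_pos
  positivity

theorem A_eq (P : Par) (j : ℕ) : P.A j = P.A 0 * (1 / 64) ^ j := by
  unfold Par.A Par.r Par.k
  have h0 : (P.k0 : ℝ) ≠ 0 := by exact_mod_cast P.hk.ne'
  push_cast
  have h2 : ((1 : ℝ) / 64) ^ j = ((2 ^ j) ^ 3 * 8 ^ j)⁻¹ := by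
    rw [← pow_mul, mul_comm j 3, pow_mul, ← mul_pow, one_div_pow]
    norm_num
  rw [h2]
  field_simp

theorem A_pos (P : Par) (j : ℕ) : 0 < P.A j := by
  unfold Par.A Par.k
  have h1 := phie_pos
  have h2 := r_pos P j
  have h3 := P.hk
  positivity

theorem dA_eq (P : Par) (j : ℕ) : P.dA j = 63 / 64 * P.A 0 * (1 / 64) ^ j := by
  unfold Par.dA
  rw [A_eq P j, A_eq P (j + 1), pow_succ]
  ring

theorem dA_pos (P : Par) (j : ℕ) : 0 < P.dA j := by
  rw [dA_eq]
  have := A_pos P 0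
  positivity

variable {P : Par}

theorem F_ne (hb : StmBump) {j : ℕ} {s : ℝ} (h : P.F j s ≠ 0) :
    P.t (j + 1) < s ∧ s < P.t j := by
  obtain ⟨-, -, -, h0, h1, -⟩ := hb
  have hd := dl_pos P j
  have hne : bump ((s - P.t (j + 1)) / P.dl j) ≠ 0 := by
    intro h'
    exact h (by unfold Par.F; rw [h', mul_zero])
  constructor
  · by_contra hc
    push Not at hc
    exact hne (h0 _ (div_nonpos_of_nonpos_of_nonneg (by linarith) hd.le))
  · by_contra hc
    push Not at hc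
    refine hne (h1 _ ?_)
    rw [le_div_iff₀ hd]
    unfold Par.dl
    linarith

theorem F_cont (hb : StmBump) (j : ℕ) : Continuous (P.F j) := by
  unfold Par.F
  have := hb.1.continuous
  fun_prop

theorem F_nonneg (hb : StmBump) (j : ℕ) (s : ℝ) : 0 ≤ P.F j s := by
  unfold Par.F
  have h1 := dA_pos P j
  have h2 := dl_pos P j
  have h3 := hb.2.1 ((s - P.t (j + 1)) / P.dl j)
  positivity

theorem F_le (hb : StmBump) (j : ℕ) (s : ℝ) :
    P.F j s ≤ 8 * P.A 0 / P.T * (1 / 48) ^ j := by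
  have h3 := hb.2.2.1 ((s - P.t (j + 1)) / P.dl j)
  have h3' := hb.2.1 ((s - P.t (j + 1)) / P.dl j)
  have hA := A_pos P 0
  have hT := P.hT
  have h1 : P.dA j / P.dl j = 63 / 16 * P.A 0 / P.T * (1 / 48) ^ j := by
    rw [dA_eq, dl_eq]
    have h2 : ((1 : ℝ) / 64) ^ j = (1 / 48) ^ j * (3 / 4) ^ j := by
      rw [← mul_pow]
      norm_num
    rw [h2]
    field_simp
    norm_num
  unfold Par.F
  rw [h1]
  have h4 : 0 ≤ P.A 0 / P.T * (1 / 48) ^ j := by positivity
  calc 63 / 16 * P.A 0 / P.T * (1 / 48) ^ j * bump ((s - P.t (j + 1)) / P.dl j)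
      ≤ 63 / 16 * P.A 0 / P.T * (1 / 48) ^ j * 2 := by
        refine mul_le_mul_of_nonneg_left h3 ?_
        have : 63 / 16 * P.A 0 / P.T * (1 / 48) ^ j = 63 / 16 * (P.A 0 / P.T * (1 / 48) ^ j) := by
          ring
        rw [this]
        positivity
    _ = 63 / 8 * (P.A 0 / P.T * (1 / 48) ^ j) := by ring
    _ ≤ 8 * (P.A 0 / P.T * (1 / 48) ^ j) := by nlinarith
    _ = 8 * P.A 0 / P.T * (1 / 48) ^ j := by ring

/-! ### the sum -/

theorem F_other (hb : StmBump) {j : ℕ} {s : ℝ} (hs : s ∈ Icc (P.t (j + 1)) (P.t j)) {i : ℕ}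
    (hi : i ≠ j) : P.F i s = 0 := by
  by_contra h
  obtain ⟨h1, h2⟩ := F_ne hb h
  rcases lt_or_gt_of_ne hi with h3 | h3
  · have := t_anti P (show i + 1 ≤ j from h3)
    linarith [hs.2]
  · have := t_anti P (show j + 1 ≤ i from h3)
    linarith [hs.1]

theorem f_eq (hb : StmBump) {j : ℕ} {s : ℝ} (hs : s ∈ Icc (P.t (j + 1)) (P.t j)) (x : E3) :
    P.f s x = P.F j s • P.fs j x := by
  unfold Par.f
  rw [tsum_eq_single j]
  intro i hi
  rw [F_other hb hs hi, zero_smul]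

theorem f_cases (hb : StmBump) (s : ℝ) :
    P.f s = 0 ∨ ∃ j, s ∈ Icc (P.t (j + 1)) (P.t j) ∧ ∀ x, P.f s x = P.F j s • P.fs j x := by
  by_cases h : ∃ j, P.F j s ≠ 0
  · obtain ⟨j, hj⟩ := h
    obtain ⟨h1, h2⟩ := F_ne hb hj
    exact Or.inr ⟨j, ⟨h1.le, h2.le⟩, f_eq hb ⟨h1.le, h2.le⟩⟩
  · push Not at h
    left
    funext x
    unfold Par.f
    simp [h]

theorem f_sum (hb : StmBump) {J : ℕ} {s : ℝ} (hs : P.t J ≤ s) (x : E3) :
    P.f s x = ∑ j ∈ Finset.range J, P.F j s • P.fs j x := by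
  unfold Par.f
  refine tsum_eq_sum fun j hj => ?_
  have hj' : J ≤ j := by simpa using hj
  have : P.F j s = 0 := by
    by_contra h
    have h1 := (F_ne hb h).2
    have := t_anti P hj'
    linarith
  rw [this, zero_smul]

theorem f_summable (hb : StmBump) (s : ℝ) (x : E3) :
    Summable (fun j => P.F j s • P.fs j x) := by
  by_cases h : ∃ j, P.F j s ≠ 0
  · obtain ⟨j, hj⟩ := h
    obtain ⟨h1, h2⟩ := F_ne hb hj
    refine summable_of_ne_finset_zero (s := {j}) fun i hi => ?_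
    rw [F_other hb ⟨h1.le, h2.le⟩ (by simpa using hi), zero_smul]
  · push Not at h
    simp [h, summable_zero]

/-! ### the static force -/

theorem norm_E3_sq (x : E3) : ‖x‖ ^ 2 = x 0 ^ 2 + x 1 ^ 2 + x 2 ^ 2 := by
  rw [EuclideanSpace.norm_sq_eq]
  simp [Fin.sum_univ_three]

theorem norm_lam (x : E3) : ‖lam x‖ = ‖zc x‖ := by
  have h1 : ‖lam x‖ ^ 2 = ‖zc x‖ ^ 2 := by
    rw [norm_E3_sq, ← Complex.normSq_eq_norm_sq, Complex.normSq_apply]
    simp [lam, zc]
    ring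
  exact (sq_eq_sq₀ (norm_nonneg _) (norm_nonneg _)).1 h1

theorem norm_zc_le (x : E3) : ‖zc x‖ ≤ ‖x‖ := by
  have h1 : ‖zc x‖ ^ 2 ≤ ‖x‖ ^ 2 := by
    rw [norm_E3_sq, ← Complex.normSq_eq_norm_sq, Complex.normSq_apply]
    simp only [zc]
    nlinarith [sq_nonneg (x 2)]
  exact (sq_le_sq₀ (norm_nonneg _) (norm_nonneg _)).1 h1

theorem zc_sub (x y : E3) : zc x - zc y = zc (x - y) := by
  apply Complex.ext <;> simp [zc]

theorem lam_sub (x y : E3) : lam x - lam y = lam (x - y) := by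
  ext i
  fin_cases i <;> simp [lam] <;> ring

theorem lam_lip (x y : E3) : ‖lam x - lam y‖ ≤ ‖x - y‖ := by
  rw [lam_sub, norm_lam]
  exact norm_zc_le _

theorem uz_le (x : E3) : ‖uz x‖ ≤ 1 := by
  unfold uz
  rw [norm_div, Complex.norm_real, norm_norm]
  exact div_self_le_one _

theorem pow_lip (z w : ℂ) (hz : ‖z‖ ≤ 1) (hw : ‖w‖ ≤ 1) (k : ℕ) :
    ‖z ^ k - w ^ k‖ ≤ k * ‖z - w‖ := by
  induction k with
  | zero => simp
  | succ k ih =>
    have h1 : z ^ (k + 1) - w ^ (k + 1) = z ^ k * (z - w) + (z ^ k - w ^ k) * w := by ring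
    rw [h1]
    refine (norm_add_le _ _).trans ?_
    rw [norm_mul, norm_mul, norm_pow]
    have h2 : ‖z‖ ^ k ≤ 1 := pow_le_one₀ (norm_nonneg _) hz
    have h3 := norm_nonneg (z - w)
    have h4 : ‖z‖ ^ k * ‖z - w‖ ≤ 1 * ‖z - w‖ := mul_le_mul_of_nonneg_right h2 h3
    have h5 : ‖z ^ k - w ^ k‖ * ‖w‖ ≤ (k * ‖z - w‖) * 1 :=
      mul_le_mul ih hw (norm_nonneg _) (by positivity)
    push_cast
    linarith

theorem dir_lip (x y : E3) : ‖zc y‖ * ‖uz x - uz y‖ ≤ 2 * ‖zc x - zc y‖ := by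
  by_cases hy : zc y = 0
  · rw [hy]; simp
  by_cases hx : zc x = 0
  · have h1 : uz x = 0 := by simp [uz, hx]
    rw [h1, hx, zero_sub, zero_sub, norm_neg, norm_neg]
    have := uz_le y
    have h2 := norm_nonneg (zc y)
    nlinarith
  have hx' : 0 < ‖zc x‖ := norm_pos_iff.2 hx
  have hy' : 0 < ‖zc y‖ := norm_pos_iff.2 hy
  have hxc : ((‖zc x‖ : ℝ) : ℂ) ≠ 0 := by exact_mod_cast hx'.ne'
  have hyc : ((‖zc y‖ : ℝ) : ℂ) ≠ 0 := by exact_mod_cast hy'.ne'
  have h1 : ((‖zc y‖ : ℝ) : ℂ) * (uz x - uz y)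
      = uz x * (((‖zc y‖ - ‖zc x‖ : ℝ)) : ℂ) + (zc x - zc y) := by
    unfold uz
    push_cast
    field_simp
    ring
  have h2 : ‖zc y‖ * ‖uz x - uz y‖ = ‖((‖zc y‖ : ℝ) : ℂ) * (uz x - uz y)‖ := by
    rw [norm_mul, Complex.norm_real, norm_norm]
  rw [h2, h1]
  refine (norm_add_le _ _).trans ?_
  rw [norm_mul, Complex.norm_real, Real.norm_eq_abs]
  have h3 := abs_norm_sub_norm_le (zc y) (zc x)
  rw [norm_sub_rev] at h3
  have h4 : ‖uz x‖ * |‖zc y‖ - ‖zc x‖| ≤ 1 * ‖zc x - zc y‖ :=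
    mul_le_mul (uz_le x) h3 (abs_nonneg _) zero_le_one
  linarith

theorem gc_pos : 0 < gc := by
  unfold gc
  refine Real.cos_pos_of_mem_Ioo ⟨?_, ?_⟩ <;> linarith [Real.pi_pos]

theorem Gf_le {y : ℝ} (hy : |y| ≤ 1) : |Gf y| ≤ 1 := by
  have hg := gc_pos
  have := abs_le.1 hy
  unfold Gf
  rw [abs_le]
  constructor <;>
  · rcases max_cases (y - gc) 0 with h1 | h1 <;> rcases min_cases (y + gc) 0 with h2 | h2 <;>
    linarith [h1.1, h1.2, h2.1, h2.2]

theorem Gf_lip (y z : ℝ) : |Gf y - Gf z| ≤ 2 * |y - z| := by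
  unfold Gf
  have h1 : |max (y - gc) 0 - max (z - gc) 0| ≤ |y - z| := by
    have := abs_max_sub_max_le_abs (y - gc) (z - gc) 0
    rwa [sub_sub_sub_cancel_right] at this
  have h2 : |min (y + gc) 0 - min (z + gc) 0| ≤ |y - z| := by
    have := abs_min_sub_min_le_max (y + gc) 0 (z + gc) 0
    simp only [sub_self, abs_zero, add_sub_add_right_eq_sub] at this
    rwa [max_eq_left (abs_nonneg _)] at this
  have h3 : max (y - gc) 0 + min (y + gc) 0 - (max (z - gc) 0 + min (z + gc) 0)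
      = (max (y - gc) 0 - max (z - gc) 0) + (min (y + gc) 0 - min (z + gc) 0) := by ring
  rw [h3]
  refine (abs_add_le _ _).trans ?_
  linarith

theorem im_le (x : E3) (k : ℕ) : |(uz x ^ k).im| ≤ 1 := by
  refine (Complex.abs_im_le_norm _).trans ?_
  rw [norm_pow]
  exact pow_le_one₀ (norm_nonneg _) (uz_le x)

theorem ang_lip (k : ℕ) (x y : E3) :
    ‖Gf ((uz x ^ k).im) • lam x - Gf ((uz y ^ k).im) • lam y‖ ≤ (1 + 4 * k) * ‖x - y‖ := by
  have h1 : Gf ((uz x ^ k).im) • lam x - Gf ((uz y ^ k).im) • lam y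
      = Gf ((uz x ^ k).im) • (lam x - lam y)
        + (Gf ((uz x ^ k).im) - Gf ((uz y ^ k).im)) • lam y := by
    rw [smul_sub, sub_smul]
    abel
  rw [h1]
  refine (norm_add_le _ _).trans ?_
  rw [norm_smul, norm_smul, Real.norm_eq_abs, Real.norm_eq_abs, norm_lam]
  have h2 : |Gf ((uz x ^ k).im)| * ‖lam x - lam y‖ ≤ 1 * ‖x - y‖ :=
    mul_le_mul (Gf_le (im_le x k)) (lam_lip x y) (norm_nonneg _) zero_le_one
  have h3 : |Gf ((uz x ^ k).im) - Gf ((uz y ^ k).im)| ≤ 2 * (k * ‖uz x - uz y‖) := by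
    refine (Gf_lip _ _).trans ?_
    refine mul_le_mul_of_nonneg_left ?_ (by norm_num)
    rw [← Complex.sub_im]
    exact (Complex.abs_im_le_norm _).trans (pow_lip _ _ (uz_le x) (uz_le y) k)
  have h4 : |Gf ((uz x ^ k).im) - Gf ((uz y ^ k).im)| * ‖zc y‖ ≤ 2 * k * (2 * ‖x - y‖) := by
    calc |Gf ((uz x ^ k).im) - Gf ((uz y ^ k).im)| * ‖zc y‖
        ≤ (2 * (k * ‖uz x - uz y‖)) * ‖zc y‖ := mul_le_mul_of_nonneg_right h3 (norm_nonneg _)
      _ = 2 * k * (‖zc y‖ * ‖uz x - uz y‖) := by ring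
      _ ≤ 2 * k * (2 * ‖zc x - zc y‖) := mul_le_mul_of_nonneg_left (dir_lip x y) (by positivity)
      _ ≤ 2 * k * (2 * ‖x - y‖) := by
        refine mul_le_mul_of_nonneg_left ?_ (by positivity)
        rw [zc_sub]
        linarith [norm_zc_le (x - y)]
  linarith

theorem ang_le (k : ℕ) (x : E3) : ‖Gf ((uz x ^ k).im) • lam x‖ ≤ ‖x‖ := by
  rw [norm_smul, Real.norm_eq_abs, norm_lam]
  calc |Gf ((uz x ^ k).im)| * ‖zc x‖ ≤ 1 * ‖x‖ :=
        mul_le_mul (Gf_le (im_le x k)) (norm_zc_le x) (norm_nonneg _) zero_le_one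
    _ = ‖x‖ := one_mul _

/-- radial factor. -/
noncomputable def rad (P : Par) (j : ℕ) (x : E3) : ℝ :=
  Gm⁻¹ * ((P.r j ^ 5)⁻¹ * hh (‖x‖ ^ 2 / P.r j ^ 2))

theorem fs_eq (j : ℕ) (x : E3) :
    P.fs j x = rad P j x • (Gf ((uz x ^ P.k j).im) • lam x) := by
  unfold Par.fs Par.g rad
  rw [smul_smul, smul_smul]
  congr 1
  ring

theorem rad_supp (h : StmProf) (j : ℕ) {x : E3} (hx : rad P j x ≠ 0) : ‖x‖ ≤ 2 * P.r j := by
  obtain ⟨-, -, -, -, -, -, -, -, -, -, -, -, -, h1, -⟩ := h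
  have h2 : hh (‖x‖ ^ 2 / P.r j ^ 2) ≠ 0 := by
    intro h'
    exact hx (by unfold rad; rw [h', mul_zero, mul_zero])
  have h3 := (h1 _ h2).2
  have hr := r_pos P j
  rw [div_lt_iff₀ (by positivity)] at h3
  refine abs_le_of_sq_le_sq' ?_ (by positivity) |>.2
  nlinarith

theorem rad_smooth (h : StmProf) (j : ℕ) : ContDiff ℝ ∞ (rad P j) := by
  obtain ⟨-, -, h1, -⟩ := h
  unfold rad
  refine contDiff_const.mul (contDiff_const.mul (h1.comp ?_))
  exact (contDiff_norm_sq ℝ).div_const _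

theorem rad_compact (h : StmProf) (j : ℕ) : HasCompactSupport (rad P j) := by
  refine HasCompactSupport.intro (isCompact_closedBall (0 : E3) (2 * P.r j)) fun x hx => ?_
  by_contra h'
  exact hx (by simpa using rad_supp h j h')

theorem rad_lip (h : StmProf) (j : ℕ) : ∃ L : ℝ, 0 ≤ L ∧ ∀ x y, |rad P j x - rad P j y| ≤ L * ‖x - y‖ := by
  obtain ⟨C, hC⟩ := ContDiff.lipschitzWith_of_hasCompactSupport (𝕂 := ℝ) (rad_compact (P := P) h j)
    (rad_smooth h j) (by simp)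
  refine ⟨C, C.2, fun x y => ?_⟩
  have := hC.dist_le_mul x y
  rwa [Real.dist_eq, dist_eq_norm] at this

theorem fs_supp (h : StmProf) (j : ℕ) {x : E3} (hx : P.fs j x ≠ 0) : ‖x‖ ≤ 2 * P.r j := by
  refine rad_supp h j fun h' => hx ?_
  rw [fs_eq, h', zero_smul]

theorem fs_bd (h : StmProf) (hb : StmBump) : ∃ C : ℝ, 0 ≤ C ∧ ∀ (P : Par) (j : ℕ) (x : E3),
    ‖P.fs j x‖ ≤ C * (P.r j ^ 4)⁻¹ := by
  obtain ⟨C, hC⟩ : ∃ C, ∀ v, hh v ≤ C := by
    obtain ⟨-, -, -, -, -, -, -, -, -, -, -, -, -, -, h1, -⟩ := h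
    exact h1
  have h0 : ∀ v, 0 ≤ hh v := by
    obtain ⟨-, -, -, -, -, -, -, -, -, -, -, -, h1, -⟩ := h
    exact h1
  have hG : 0 < Gm := by
    obtain ⟨-, -, -, -, -, -, -, -, -, -, -, h1, -⟩ := hb
    exact h1
  have hC0 : 0 ≤ C := (h0 0).trans (hC 0)
  refine ⟨Gm⁻¹ * C * 2, by positivity, fun P j x => ?_⟩
  have hr := r_pos P j
  by_cases hx : P.fs j x = 0
  · rw [hx, norm_zero]
    positivity
  have hx' := fs_supp h j hx
  rw [fs_eq, norm_smul, Real.norm_eq_abs]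
  have h1 : |rad P j x| ≤ Gm⁻¹ * ((P.r j ^ 5)⁻¹ * C) := by
    unfold rad
    rw [abs_of_nonneg (by have := h0 (‖x‖ ^ 2 / P.r j ^ 2); positivity)]
    refine mul_le_mul_of_nonneg_left (mul_le_mul_of_nonneg_left (hC _) ?_) ?_ <;> positivity
  calc |rad P j x| * ‖Gf ((uz x ^ P.k j).im) • lam x‖
      ≤ Gm⁻¹ * ((P.r j ^ 5)⁻¹ * C) * (2 * P.r j) :=
        mul_le_mul h1 ((ang_le _ x).trans hx') (norm_nonneg _) (by positivity)
    _ = Gm⁻¹ * C * 2 * (P.r j ^ 4)⁻¹ := by
      field_simp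

theorem fs_lip (h : StmProf) (hb : StmBump) (P : Par) (j : ℕ) :
    ∃ L : ℝ, 0 ≤ L ∧ ∀ x y, ‖P.fs j x - P.fs j y‖ ≤ L * ‖x - y‖ := by
  obtain ⟨L, hL0, hL⟩ := rad_lip (P := P) h j
  have hr := r_pos P j
  obtain ⟨M, hM⟩ : ∃ M, ∀ x, |rad P j x| ≤ M := by
    have h1 := (rad_compact (P := P) h j).exists_bound_of_continuous (rad_smooth h j).continuous
    obtain ⟨M, hM⟩ := h1
    exact ⟨M, fun x => by simpa using hM x⟩
  have hM0 : 0 ≤ M := (abs_nonneg _).trans (hM 0)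
  -- one sided estimate
  have key : ∀ x y : E3, ‖y‖ ≤ 2 * P.r j → ‖P.fs j x - P.fs j y‖
      ≤ (M * (1 + 4 * P.k j) + L * (2 * P.r j)) * ‖x - y‖ := by
    intro x y hy
    rw [fs_eq, fs_eq]
    have h1 : rad P j x • (Gf ((uz x ^ P.k j).im) • lam x)
        - rad P j y • (Gf ((uz y ^ P.k j).im) • lam y)
        = rad P j x • (Gf ((uz x ^ P.k j).im) • lam x - Gf ((uz y ^ P.k j).im) • lam y)
          + (rad P j x - rad P j y) • (Gf ((uz y ^ P.k j).im) • lam y) := by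
      rw [smul_sub, sub_smul]
      abel
    rw [h1]
    refine (norm_add_le _ _).trans ?_
    rw [norm_smul, norm_smul, Real.norm_eq_abs, Real.norm_eq_abs]
    have h2 : |rad P j x| * ‖Gf ((uz x ^ P.k j).im) • lam x - Gf ((uz y ^ P.k j).im) • lam y‖
        ≤ M * ((1 + 4 * P.k j) * ‖x - y‖) :=
      mul_le_mul (hM x) (ang_lip _ x y) (norm_nonneg _) hM0
    have h3 : |rad P j x - rad P j y| * ‖Gf ((uz y ^ P.k j).im) • lam y‖
        ≤ (L * ‖x - y‖) * (2 * P.r j) :=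
      mul_le_mul (hL x y) ((ang_le _ y).trans hy) (norm_nonneg _) (by positivity)
    linarith
  refine ⟨M * (1 + 4 * P.k j) + L * (2 * P.r j), by positivity, fun x y => ?_⟩
  by_cases hy : ‖y‖ ≤ 2 * P.r j
  · exact key x y hy
  by_cases hx : ‖x‖ ≤ 2 * P.r j
  · rw [norm_sub_rev, norm_sub_rev x y]
    exact key y x hx
  have h1 : P.fs j x = 0 := by
    by_contra h'
    exact hx (fs_supp h j h')
  have h2 : P.fs j y = 0 := by
    by_contra h'
    exact hy (fs_supp h j h')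
  rw [h1, h2, sub_zero, norm_zero]
  positivity

theorem fs_cont (h : StmProf) (hb : StmBump) (P : Par) (j : ℕ) : Continuous (P.fs j) := by
  obtain ⟨L, hL0, hL⟩ := fs_lip h hb P j
  exact (LipschitzWith.of_dist_le_mul (K := ⟨L, hL0⟩) fun x y => by
    rw [dist_eq_norm, dist_eq_norm]; exact hL x y).continuous

/-! ### bounds for the force -/

theorem f_supp (h : StmProf) (hb : StmBump) (s : ℝ) {x : E3} (hx : P.f s x ≠ 0) :
    ‖x‖ ≤ 2 * P.r0 := by
  rcases f_cases (P := P) hb s with h0 | ⟨j, -, hj⟩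
  · exact absurd (by rw [h0]; rfl) hx
  · have h1 : P.fs j x ≠ 0 := by
      intro h'
      exact hx (by rw [hj, h', smul_zero])
    have := fs_supp h j h1
    linarith [r_le P j]

theorem f_bd (h : StmProf) (hb : StmBump) (P : Par) :
    ∃ M : ℝ, 0 ≤ M ∧ ∀ s x, ‖P.f s x‖ ≤ M := by
  obtain ⟨C, hC0, hC⟩ := fs_bd h hb
  have hA := A_pos P 0
  have hT := P.hT
  have hr0 := P.hr
  refine ⟨8 * P.A 0 / P.T * (C * (P.r0 ^ 4)⁻¹), by positivity, fun s x => ?_⟩
  rcases f_cases (P := P) hb s with h0 | ⟨j, -, hj⟩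
  · rw [h0]
    simp only [Pi.zero_apply, norm_zero]
    positivity
  · rw [hj, norm_smul, Real.norm_eq_abs, abs_of_nonneg (F_nonneg hb j s)]
    have h1 : (P.r j ^ 4)⁻¹ = 16 ^ j * (P.r0 ^ 4)⁻¹ := by
      unfold Par.r
      rw [div_pow, inv_div, ← pow_mul, mul_comm j 4, pow_mul]
      norm_num
      rw [div_eq_mul_inv]
    calc P.F j s * ‖P.fs j x‖
        ≤ (8 * P.A 0 / P.T * (1 / 48) ^ j) * (C * (P.r j ^ 4)⁻¹) :=
          mul_le_mul (F_le hb j s) (hC P j x) (norm_nonneg _) (by positivity)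
      _ = (8 * P.A 0 / P.T * (C * (P.r0 ^ 4)⁻¹)) * ((1 / 48) ^ j * 16 ^ j) := by
          rw [h1]; ring
      _ ≤ (8 * P.A 0 / P.T * (C * (P.r0 ^ 4)⁻¹)) * 1 := by
          refine mul_le_mul_of_nonneg_left ?_ (by positivity)
          rw [← mul_pow]
          exact pow_le_one₀ (by norm_num) (by norm_num)
      _ = _ := mul_one _

theorem f_meas (h : StmProf) (hb : StmBump) (P : Par) :
    Measurable (fun p : ℝ × E3 => P.f p.1 p.2) := by
  refine measurable_of_tendsto_metrizable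
    (f := fun (n : ℕ) (p : ℝ × E3) => ∑ j ∈ Finset.range n, P.F j p.1 • P.fs j p.2)
    (fun n => ?_) ?_
  · refine Continuous.measurable ?_
    refine continuous_finsetSum _ fun j _ => ?_
    exact ((F_cont hb j).comp continuous_fst).smul ((fs_cont h hb P j).comp continuous_snd)
  · rw [tendsto_pi_nhds]
    intro p
    exact (f_summable hb p.1 p.2).hasSum.tendsto_sum_nat

end FF

/-- module FORCE -/
theorem force_holds (h : StmProf) (hb : StmBump) : StmForce := by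
  intro P
  obtain ⟨M, hM0, hM⟩ := FF.f_bd h hb P
  have hm := FF.f_meas h hb P
  refine ⟨?_, hm, ?_, fun s x hx => FF.f_supp h hb s hx, fun j s hs x => FF.f_eq hb hs x, ?_⟩
  · -- square integrability
    set B : Set E3 := Metric.closedBall 0 (2 * P.r0) with hB
    have hBm : MeasurableSet B := Metric.isClosed_closedBall.measurableSet
    have hBf : volume B < ⊤ := (isCompact_closedBall (0 : E3) (2 * P.r0)).measure_lt_top
    have hint : Integrable (B.indicator fun _ : E3 => M ^ 2) := by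
      rw [integrable_indicator_iff hBm]
      exact integrableOn_const hBf.ne
    have hle : ∀ s x, ‖P.f s x‖ ^ 2 ≤ B.indicator (fun _ : E3 => M ^ 2) x := by
      intro s x
      by_cases hx : x ∈ B
      · rw [indicator_of_mem hx]
        exact pow_le_pow_left₀ (norm_nonneg _) (hM s x) 2
      · rw [indicator_of_notMem hx]
        have : P.f s x = 0 := by
          by_contra h'
          exact hx (by simpa [hB] using FF.f_supp h hb s h')
        rw [this]; simp
    have hfm : ∀ s, Measurable (fun x => P.f s x) := by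
      intro s
      have h1 : Measurable (fun x : E3 => (s, x)) := measurable_prodMk_left
      exact Measurable.comp (g := fun p : ℝ × E3 => P.f p.1 p.2) (f := fun x : E3 => (s, x)) hm h1
    have hI : ∀ s, Integrable (fun x => ‖P.f s x‖ ^ 2) := by
      intro s
      refine hint.mono' ?_ (Eventually.of_forall fun x => ?_)
      · exact ((hfm s).norm.pow_const 2).aestronglyMeasurable
      · rw [Real.norm_eq_abs, abs_of_nonneg (by positivity)]
        exact hle s x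
    exact ⟨∫ x, B.indicator (fun _ : E3 => M ^ 2) x, fun s => ⟨hI s,
      integral_mono (hI s) hint (hle s)⟩⟩
  · intro s hs
    rcases FF.f_cases (P := P) hb s with h0 | ⟨j, hj, -⟩
    · exact h0
    · linarith [hj.1, FF.t_pos P (j + 1)]
  · intro J
    choose L hL0 hL using FF.fs_lip h hb P
    have hc : ∀ j : ℕ, 0 ≤ 8 * P.A 0 / P.T * (1 / 48) ^ j := by
      intro j
      have hA := FF.A_pos P 0
      have hT := P.hT
      positivity
    refine ⟨(∑ j ∈ Finset.range J, 8 * P.A 0 / P.T * (1 / 48) ^ j * L j) + M, ?_, ?_, ?_⟩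
    · intro s hs x y
      rw [FF.f_sum hb hs.1, FF.f_sum hb hs.1, ← Finset.sum_sub_distrib]
      refine (norm_sum_le _ _).trans ?_
      calc ∑ j ∈ Finset.range J, ‖P.F j s • P.fs j x - P.F j s • P.fs j y‖
          ≤ ∑ j ∈ Finset.range J, 8 * P.A 0 / P.T * (1 / 48) ^ j * L j * ‖x - y‖ := by
            refine Finset.sum_le_sum fun j _ => ?_
            rw [← smul_sub, norm_smul, Real.norm_eq_abs, abs_of_nonneg (FF.F_nonneg hb j s),
              mul_assoc]
            exact mul_le_mul (FF.F_le hb j s) (hL j x y) (norm_nonneg _) (hc j)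
        _ = (∑ j ∈ Finset.range J, 8 * P.A 0 / P.T * (1 / 48) ^ j * L j) * ‖x - y‖ := by
            rw [Finset.sum_mul]
        _ ≤ _ := by
            refine mul_le_mul_of_nonneg_right ?_ (norm_nonneg _)
            linarith
    · intro s hs x
      refine (hM s x).trans ?_
      have : 0 ≤ ∑ j ∈ Finset.range J, 8 * P.A 0 / P.T * (1 / 48) ^ j * L j :=
        Finset.sum_nonneg fun j _ => mul_nonneg (hc j) (hL0 j)
      linarith
    · intro x
      have h1 : ContinuousOn (fun s => ∑ j ∈ Finset.range J, P.F j s • P.fs j x)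
          (Icc (P.t J) P.T) := by
        refine Continuous.continuousOn ?_
        refine continuous_finsetSum _ fun j _ => ?_
        exact (FF.F_cont hb j).smul continuous_const
      exact h1.congr fun s hs => FF.f_sum hb hs.1 x

end N979MH
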