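import Mathlib
import Pool.Agent.N979.MH.Stm

/-!
Project MH, module FORCEL: the force as a strongly measurable bounded map with values in `L²(Ω)`.
-/

open MeasureTheory Set Filter Topology
open scoped InnerProductSpace ENNReal ContDiff NNReal

namespace N979MH

open H772R2.NS

/-- A map into a second countable metric space is strongly measurable, if all distances to fixed
points are measurable. -/
theorem stronglyMeasurable_of_dist {α E : Type*} [MeasurableSpace α] [PseudoMetricSpace E]
    [SecondCountableTopology E] (F : α → E)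
    (h : ∀ (g : E), Measurable (fun s => dist (F s) g)) : StronglyMeasurable F := by
  borelize E
  refine Measurable.stronglyMeasurable ?_
  refine measurable_of_isOpen ?_
  intro U hU
  rcases isEmpty_or_nonempty E with hE | hE
  · have : U = ∅ := Set.eq_empty_of_isEmpty U
    rw [this]; simp
  let u : ℕ → E := TopologicalSpace.denseSeq E
  have hu : DenseRange u := TopologicalSpace.denseRange_denseSeq E
  have key : F ⁻¹' U = ⋃ n : ℕ, ⋃ m : ℕ, ⋃ (_ : Metric.ball (u n) (1 / ((m : ℝ) + 1)) ⊆ U),
      {s | dist (F s) (u n) < 1 / ((m : ℝ) + 1)} := by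
    ext s
    simp only [mem_preimage, mem_iUnion, mem_ofPred_eq, exists_prop]
    constructor
    · intro hs
      obtain ⟨ε, hε, hball⟩ := Metric.isOpen_iff.1 hU _ hs
      obtain ⟨m, hm⟩ := exists_nat_one_div_lt (half_pos hε)
      have hm0 : (0 : ℝ) < 1 / ((m : ℝ) + 1) := by positivity
      obtain ⟨n, hn⟩ := hu.exists_dist_lt (F s) hm0
      refine ⟨n, m, ?_, hn⟩
      intro y hy
      apply hball
      rw [Metric.mem_ball] at hy ⊢
      have h1 : dist y (F s) ≤ dist y (u n) + dist (u n) (F s) := dist_triangle _ _ _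
      rw [dist_comm (u n) (F s)] at h1
      linarith
    · rintro ⟨n, m, hsub, hlt⟩
      exact hsub hlt
  rw [key]
  refine MeasurableSet.iUnion fun n => MeasurableSet.iUnion fun m =>
    MeasurableSet.iUnion fun _ => ?_
  exact (h (u n)) measurableSet_Iio

/-- A jointly measurable family of square integrable functions is a strongly measurable map into
`L²`. -/
theorem stronglyMeasurable_toLp {Ω : Set E3} (f : ℝ → E3 → E3)
    (hm : Measurable (fun p : ℝ × E3 => f p.1 p.2)) (fL : ℝ → L2V Ω)
    (hcls : ∀ s, (fL s : E3 → E3) =ᵐ[volume.restrict Ω] f s) : StronglyMeasurable fL := by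
  apply stronglyMeasurable_of_dist
  intro g
  have h1 : ∀ s, dist (fL s) g
      = ((∫⁻ x in Ω, ‖f s x - g x‖ₑ ^ (2 : ℝ)) ^ (1 / 2 : ℝ)).toReal := by
    intro s
    rw [dist_eq_norm, Lp.norm_def]
    congr 1
    have h2 : eLpNorm (⇑(fL s - g)) 2 (volume.restrict Ω)
        = eLpNorm (fun x => f s x - g x) 2 (volume.restrict Ω) := by
      apply eLpNorm_congr_ae
      filter_upwards [Lp.coeFn_sub (fL s) g, hcls s] with x hx hx2
      rw [hx, Pi.sub_apply, hx2]
    rw [h2, eLpNorm_eq_lintegral_rpow_enorm_toReal (by norm_num) (by norm_num)]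
    norm_num
  have h3 : Measurable (fun s => ((∫⁻ x in Ω, ‖f s x - g x‖ₑ ^ (2 : ℝ)) ^ (1 / 2 : ℝ)).toReal) := by
    apply Measurable.ennreal_toReal
    apply Measurable.pow_const
    have hg : Measurable (fun x : E3 => g x) := (Lp.stronglyMeasurable g).measurable
    have h4 : Measurable (fun p : ℝ × E3 => ‖f p.1 p.2 - g p.2‖ₑ ^ (2 : ℝ)) := by
      apply Measurable.pow_const
      exact (hm.sub (hg.comp measurable_snd)).enorm
    exact h4.lintegral_prod_right'
  have : (fun s => dist (fL s) g)
      = (fun s => ((∫⁻ x in Ω, ‖f s x - g x‖ₑ ^ (2 : ℝ)) ^ (1 / 2 : ℝ)).toReal) := funext h1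
  rw [this]
  exact h3

/-- The general form. -/
theorem exists_toLp (Ω : Set E3) (f : ℝ → E3 → E3) (K : ℝ)
    (hm : Measurable (fun p : ℝ × E3 => f p.1 p.2))
    (hK : ∀ s, Integrable (fun x => ‖f s x‖ ^ 2) ∧ ∫ x, ‖f s x‖ ^ 2 ≤ K) :
    ∃ fL : ℝ → L2V Ω, (∀ s, (fL s : E3 → E3) =ᵐ[volume.restrict Ω] f s) ∧
    StronglyMeasurable fL ∧ ∃ K, ∀ s, ‖fL s‖ ≤ K := by
  have hms : ∀ s, Measurable (f s) := by
    intro s
    have h1 : Measurable (fun x : E3 => (s, x)) := measurable_prodMk_left
    exact hm.comp h1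
  have hML' : ∀ s, MemLp (f s) 2 (volume.restrict Ω) := by
    intro s
    have h1 : MemLp (f s) 2 (volume : Measure E3) :=
      (memLp_two_iff_integrable_sq_norm (hms s).aestronglyMeasurable).2 (hK s).1
    exact h1.restrict Ω
  have hcls : ∀ s, (((hML' s).toLp (f s) : L2V Ω) : E3 → E3) =ᵐ[volume.restrict Ω] f s :=
    fun s => (hML' s).coeFn_toLp
  refine ⟨fun s => (hML' s).toLp (f s), hcls, ?_, Real.sqrt K, ?_⟩
  · exact stronglyMeasurable_toLp f hm _ hcls
  · intro s
    apply Real.le_sqrt_of_sq_le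
    have h1 : ‖(hML' s).toLp (f s)‖ ^ 2 = ∫ x in Ω, ‖f s x‖ ^ 2 := by
      rw [← real_inner_self_eq_norm_sq, L2.inner_def]
      apply integral_congr_ae
      filter_upwards [hcls s] with x hx
      rw [hx, real_inner_self_eq_norm_sq]
    rw [h1]
    refine le_trans (setIntegral_le_integral (hK s).1 ?_) (hK s).2
    exact Eventually.of_forall fun x => by positivity

/-- module FORCEL -/
theorem forceL_holds (_h : StmProf) (_hb : StmBump) (hf : StmForce) : StmForceL := by
  intro P Ω _
  obtain ⟨⟨K, hK⟩, hm, -⟩ := hf P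
  exact exists_toLp Ω P.f K hm hK

end N979MH
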