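import Mathlib

/-!
Module GAL, part A: an existence theorem for ordinary differential equations with a bounded and
Lipschitz field in a Banach space, and a small calculus of bounded Lipschitz functions.
-/

open MeasureTheory Set Filter Topology
open scoped InnerProductSpace ENNReal ContDiff NNReal BoundedContinuousFunction

set_option linter.unusedSectionVars false

namespace N979MH.GalAux

theorem ode_exists {Z : Type*} [NormedAddCommGroup Z] [NormedSpace ℝ Z] [CompleteSpace Z]
    (G : ℝ → Z → Z) (t0 T : ℝ) (h : t0 ≤ T) (C K : ℝ) (hC : 0 ≤ C) (hK : 0 ≤ K)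
    (hl : ∀ t ∈ Icc t0 T, ∀ x y, ‖G t x - G t y‖ ≤ K * dist x y)
    (hb : ∀ t ∈ Icc t0 T, ∀ x, ‖G t x‖ ≤ C)
    (hc : ∀ x, ContinuousOn (fun t => G t x) (Icc t0 T)) (x0 : Z) :
    ∃ α : ℝ → Z, α t0 = x0 ∧
      ∀ t ∈ Icc t0 T, HasDerivWithinAt α (G t (α t)) (Icc t0 T) t := by
  have hT : 0 ≤ T - t0 := sub_nonneg.2 h
  have hP : IsPicardLindelof G (tmin := t0) (tmax := T) ⟨t0, ⟨le_refl _, h⟩⟩ x0
      (⟨C * (T - t0), by positivity⟩ : ℝ≥0) 0 ⟨C, hC⟩ ⟨K, hK⟩ := by
    refine ⟨?_, ?_, ?_, ?_⟩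
    · intro t ht
      refine LipschitzOnWith.of_dist_le_mul ?_
      intro x _ y _
      rw [dist_eq_norm]
      exact hl t ht x y
    · intro x _
      exact hc x
    · intro t ht x _
      exact hb t ht x
    · simp only [sub_self]
      rw [max_eq_left hT]
      show C * (T - t0) ≤ C * (T - t0) - ((0 : ℝ≥0) : ℝ)
      simp
  obtain ⟨α, h1, h2⟩ := hP.exists_eq_forall_mem_Icc_hasDerivWithinAt₀
  exact ⟨α, h1, h2⟩

/-- Bounded Lipschitz functions depending continuously on time. -/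
structure BL {Z V : Type*} [PseudoMetricSpace Z] [NormedAddCommGroup V] (I : Set ℝ)
    (F : ℝ → Z → V) : Prop where
  bd : ∃ C, 0 ≤ C ∧ ∀ t ∈ I, ∀ z, ‖F t z‖ ≤ C
  lip : ∃ C, 0 ≤ C ∧ ∀ t ∈ I, ∀ z w, ‖F t z - F t w‖ ≤ C * dist z w
  cont : ∀ z, ContinuousOn (fun t => F t z) I

section
variable {Z V W U : Type*} [PseudoMetricSpace Z] [NormedAddCommGroup V] [NormedSpace ℝ V]
  [NormedAddCommGroup W] [NormedSpace ℝ W] [NormedAddCommGroup U] [NormedSpace ℝ U]
  {I : Set ℝ}

theorem BL.const (v : V) : BL I (fun _ (_ : Z) => v) where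
  bd := ⟨‖v‖, norm_nonneg _, fun _ _ _ => le_rfl⟩
  lip := ⟨0, le_rfl, fun _ _ _ _ => by simp⟩
  cont _ := continuousOn_const

theorem BL.congr {F G : ℝ → Z → V} (h : BL I F) (h' : ∀ t ∈ I, ∀ z, G t z = F t z) : BL I G where
  bd := by
    obtain ⟨C, h0, hC⟩ := h.bd
    exact ⟨C, h0, fun t ht z => by rw [h' t ht z]; exact hC t ht z⟩
  lip := by
    obtain ⟨C, h0, hC⟩ := h.lip
    exact ⟨C, h0, fun t ht z w => by rw [h' t ht z, h' t ht w]; exact hC t ht z w⟩
  cont z := (h.cont z).congr fun t ht => h' t ht z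

theorem BL.add {F G : ℝ → Z → V} (hF : BL I F) (hG : BL I G) :
    BL I (fun t z => F t z + G t z) where
  bd := by
    obtain ⟨C, h0, hC⟩ := hF.bd
    obtain ⟨D, h0', hD⟩ := hG.bd
    exact ⟨C + D, by positivity, fun t ht z =>
      (norm_add_le _ _).trans (add_le_add (hC t ht z) (hD t ht z))⟩
  lip := by
    obtain ⟨C, h0, hC⟩ := hF.lip
    obtain ⟨D, h0', hD⟩ := hG.lip
    refine ⟨C + D, by positivity, fun t ht z w => ?_⟩
    have : F t z + G t z - (F t w + G t w) = (F t z - F t w) + (G t z - G t w) := by abel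
    rw [this, add_mul]
    exact (norm_add_le _ _).trans (add_le_add (hC t ht z w) (hD t ht z w))
  cont z := (hF.cont z).add (hG.cont z)

theorem BL.bilin (B : V →L[ℝ] W →L[ℝ] U) {F : ℝ → Z → V} {G : ℝ → Z → W} (hF : BL I F)
    (hG : BL I G) : BL I (fun t z => B (F t z) (G t z)) where
  bd := by
    obtain ⟨C, h0, hC⟩ := hF.bd
    obtain ⟨D, h0', hD⟩ := hG.bd
    refine ⟨‖B‖ * C * D, by positivity, fun t ht z => ?_⟩
    refine (B.le_opNorm₂ _ _).trans ?_
    have := hC t ht z
    have := hD t ht z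
    gcongr
  lip := by
    obtain ⟨C, h0, hC⟩ := hF.bd
    obtain ⟨D, h0', hD⟩ := hG.bd
    obtain ⟨C', h1, hC'⟩ := hF.lip
    obtain ⟨D', h1', hD'⟩ := hG.lip
    refine ⟨‖B‖ * (C * D' + C' * D), by positivity, fun t ht z w => ?_⟩
    have e : B (F t z) (G t z) - B (F t w) (G t w)
        = B (F t z) (G t z - G t w) + B (F t z - F t w) (G t w) := by
      simp only [map_sub, sub_apply]; abel
    rw [e]
    refine (norm_add_le _ _).trans ?_
    have a1 : ‖B (F t z) (G t z - G t w)‖ ≤ ‖B‖ * C * (D' * dist z w) := by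
      refine (B.le_opNorm₂ _ _).trans ?_
      have := hC t ht z
      have := hD' t ht z w
      gcongr
    have a2 : ‖B (F t z - F t w) (G t w)‖ ≤ ‖B‖ * (C' * dist z w) * D := by
      refine (B.le_opNorm₂ _ _).trans ?_
      have := hC' t ht z w
      have := hD t ht w
      gcongr
    calc _ ≤ ‖B‖ * C * (D' * dist z w) + ‖B‖ * (C' * dist z w) * D := add_le_add a1 a2
      _ = _ := by ring
  cont z := by
    have h1 : ContinuousOn (fun t => B (F t z)) I := B.continuous.comp_continuousOn (hF.cont z)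
    exact h1.clm_apply (hG.cont z)

theorem BL.smul {F : ℝ → Z → ℝ} {G : ℝ → Z → V} (hF : BL I F) (hG : BL I G) :
    BL I (fun t z => F t z • G t z) :=
  (hF.bilin (ContinuousLinearMap.lsmul ℝ ℝ) hG).congr fun _ _ _ => rfl

theorem BL.mul {F G : ℝ → Z → ℝ} (hF : BL I F) (hG : BL I G) :
    BL I (fun t z => F t z * G t z) := hF.smul hG

theorem BL.neg {F : ℝ → Z → V} (hF : BL I F) : BL I (fun t z => - F t z) :=
  ((BL.const (-1 : ℝ)).smul hF).congr fun t _ z => by simp

theorem BL.sub {F G : ℝ → Z → V} (hF : BL I F) (hG : BL I G) :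
    BL I (fun t z => F t z - G t z) :=
  (hF.add hG.neg).congr fun t _ z => by rw [sub_eq_add_neg]

theorem BL.sum {ι : Type*} (s : Finset ι) {F : ι → ℝ → Z → V} (hF : ∀ i ∈ s, BL I (F i)) :
    BL I (fun t z => ∑ i ∈ s, F i t z) := by
  classical
  induction s using Finset.induction_on with
  | empty => exact (BL.const (0 : V)).congr fun t _ z => by simp
  | insert a s ha ih =>
    refine ((hF a (Finset.mem_insert_self _ _)).add
      (ih fun i hi => hF i (Finset.mem_insert_of_mem hi))).congr fun t _ z => ?_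
    rw [Finset.sum_insert ha]

theorem BL.comp {Y : Type*} [PseudoMetricSpace Y] {F : ℝ → Z → V} (hF : BL I F) (g : Y → Z)
    {K : ℝ≥0} (hg : LipschitzWith K g) : BL I (fun t y => F t (g y)) where
  bd := by
    obtain ⟨C, h0, hC⟩ := hF.bd
    exact ⟨C, h0, fun t ht z => hC t ht _⟩
  lip := by
    obtain ⟨C, h0, hC⟩ := hF.lip
    refine ⟨C * K, by positivity, fun t ht z w => (hC t ht _ _).trans ?_⟩
    have := hg.dist_le_mul z w
    calc _ ≤ C * (K * dist z w) := by gcongr
      _ = _ := by ring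
  cont z := hF.cont _

theorem BL.pi {ι : Type*} [Fintype ι] {F : ι → ℝ → Z → ℝ} (hF : ∀ i, BL I (F i)) :
    BL I (fun t z => fun i => F i t z) where
  bd := by
    choose C h0 hC using fun i => (hF i).bd
    refine ⟨∑ i, C i, Finset.sum_nonneg fun i _ => h0 i, fun t ht z => ?_⟩
    refine (pi_norm_le_iff_of_nonneg (Finset.sum_nonneg fun i _ => h0 i)).2 fun i => ?_
    exact (hC i t ht z).trans (Finset.single_le_sum (fun i _ => h0 i) (Finset.mem_univ i))
  lip := by
    choose C h0 hC using fun i => (hF i).lip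
    refine ⟨∑ i, C i, Finset.sum_nonneg fun i _ => h0 i, fun t ht z w => ?_⟩
    have hs : 0 ≤ ∑ i, C i := Finset.sum_nonneg fun i _ => h0 i
    refine (pi_norm_le_iff_of_nonneg (by positivity)).2 fun i => ?_
    refine (hC i t ht z w).trans ?_
    have := Finset.single_le_sum (f := C) (fun i _ => h0 i) (Finset.mem_univ i)
    gcongr
  cont z := continuousOn_pi.2 fun i => (hF i).cont z

theorem BL.prodMk {F : ℝ → Z → V} {G : ℝ → Z → W} (hF : BL I F) (hG : BL I G) :
    BL I (fun t z => (F t z, G t z)) where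
  bd := by
    obtain ⟨C, h0, hC⟩ := hF.bd
    obtain ⟨D, h0', hD⟩ := hG.bd
    refine ⟨max C D, by positivity, fun t ht z => ?_⟩
    exact max_le_max (hC t ht z) (hD t ht z)
  lip := by
    obtain ⟨C, h0, hC⟩ := hF.lip
    obtain ⟨D, h0', hD⟩ := hG.lip
    refine ⟨max C D, by positivity, fun t ht z w => ?_⟩
    rw [max_mul_of_nonneg _ _ dist_nonneg]
    exact max_le_max (hC t ht z w) (hD t ht z w)
  cont z := (hF.cont z).prodMk (hG.cont z)

/-- a bounded Lipschitz function along a continuous curve is continuous in time. -/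
theorem BL.continuousOn_comp {F : ℝ → Z → V} (hF : BL I F) (α : ℝ → Z) (hα : ContinuousOn α I) :
    ContinuousOn (fun t => F t (α t)) I := by
  obtain ⟨C, h0, hC⟩ := hF.lip
  intro t ht
  have h1 : Tendsto (fun s => F s (α t)) (𝓝[I] t) (𝓝 (F t (α t))) := hF.cont (α t) t ht
  have h2 : Tendsto (fun s => F s (α s) - F s (α t)) (𝓝[I] t) (𝓝 0) := by
    have h3 : Tendsto (fun s => C * dist (α s) (α t)) (𝓝[I] t) (𝓝 0) := by
      have := (tendsto_iff_dist_tendsto_zero.1 (hα t ht)).const_mul C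
      simpa using this
    refine squeeze_zero_norm' ?_ h3
    filter_upwards [self_mem_nhdsWithin] with s hs
    exact hC s hs _ _
  have := h2.add h1
  simp only [sub_add_cancel, zero_add] at this
  exact this

theorem BL.ode_exists [CompleteSpace V] {t0 T : ℝ} (h : t0 ≤ T) {F : ℝ → V → V}
    (hF : BL (Icc t0 T) F) (x0 : V) :
    ∃ α : ℝ → V, α t0 = x0 ∧
      ∀ t ∈ Icc t0 T, HasDerivWithinAt α (F t (α t)) (Icc t0 T) t := by
  obtain ⟨C, h0, hC⟩ := hF.bd
  obtain ⟨D, h0', hD⟩ := hF.lip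
  exact GalAux.ode_exists F t0 T h C D h0 h0' hD hC hF.cont x0

end

section
variable {E V : Type*} [NormedAddCommGroup E] [NormedSpace ℝ E] [NormedAddCommGroup V]
  [NormedSpace ℝ V] {I : Set ℝ}

theorem BL.of_smooth {g : E → V} (hg : ContDiff ℝ 1 g) (hs : HasCompactSupport g) :
    BL I (fun _ y => g y) where
  bd := by
    obtain ⟨C, hC⟩ := hs.exists_bound_of_continuous hg.continuous
    exact ⟨max C 0, le_max_right _ _, fun t _ z => (hC z).trans (le_max_left _ _)⟩
  lip := by
    obtain ⟨C, hC⟩ := hg.lipschitzWith_of_hasCompactSupport hs one_ne_zero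
    exact ⟨C, C.2, fun t _ z w => by rw [← dist_eq_norm]; exact hC.dist_le_mul z w⟩
  cont z := continuousOn_const

end

/-- a Lipschitz real function truncated at height `R` is bounded Lipschitz -/
theorem BL.clamp {Z : Type*} [PseudoMetricSpace Z] {I : Set ℝ} {g : Z → ℝ} {K : ℝ≥0}
    (hg : LipschitzWith K g) {R : ℝ} (hR : 0 ≤ R) :
    BL I (fun _ z => max (-R) (min R (g z))) where
  bd := by
    refine ⟨R, hR, fun t _ z => ?_⟩
    rw [Real.norm_eq_abs, abs_le]
    constructor
    · exact le_max_left _ _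
    · exact max_le (by linarith) (min_le_left _ _)
  lip := by
    refine ⟨K, K.2, fun t _ z w => ?_⟩
    rw [← dist_eq_norm]
    exact ((hg.const_min R).const_max (-R)).dist_le_mul z w
  cont z := continuousOn_const

end N979MH.GalAux
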