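import Mathlib
import Pool.Agent.N979.MH.Stm
import Pool.Agent.N979.MH.GalA

/-!
Module GAL, part B: integral functionals of `id + Y`, `Y` bounded continuous; the Gram matrix.
-/

open MeasureTheory Set Filter Topology
open scoped InnerProductSpace ENNReal ContDiff NNReal BoundedContinuousFunction

set_option linter.unusedSectionVars false

namespace N979MH.GalAux

open H772R2.NS

/-- bounded continuous functions -/
abbrev BC := E3 →ᵇ E3

theorem continuous_addY (Y : BC) : Continuous fun x : E3 => x + Y x :=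
  continuous_id.add Y.continuous

/-- composition with `id + Y` -/
noncomputable def compB (φ : BC) (Y : BC) : BC :=
  φ.compContinuous ⟨fun x => x + Y x, continuous_addY Y⟩

theorem compB_apply (φ Y : BC) (x : E3) : compB φ Y x = φ (x + Y x) := rfl

theorem BL.compB {I : Set ℝ} (φ : BC) {K : ℝ≥0} (hK : LipschitzWith K φ) :
    BL I (fun _ (Y : BC) => compB φ Y) where
  bd := by
    refine ⟨‖φ‖, norm_nonneg _, fun t _ Y => ?_⟩
    exact (BoundedContinuousFunction.norm_le (norm_nonneg _)).2 fun x => φ.norm_coe_le_norm _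
  lip := by
    refine ⟨K, K.2, fun t _ Y Y' => ?_⟩
    refine (BoundedContinuousFunction.norm_le (by positivity)).2 fun x => ?_
    have h1 := hK.dist_le_mul (x + Y x) (x + Y' x)
    rw [dist_eq_norm] at h1
    refine h1.trans ?_
    rw [dist_add_left]
    have := BoundedContinuousFunction.dist_coe_le_dist (f := Y) (g := Y') x
    gcongr
  cont _ := continuousOn_const

section
variable {P : Type*} [PseudoMetricSpace P]

theorem BL.continuous {Z V : Type*} [PseudoMetricSpace Z] [NormedAddCommGroup V] {I : Set ℝ}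
    {F : ℝ → Z → V} (hF : BL I F) {t : ℝ} (ht : t ∈ I) : Continuous (F t) := by
  obtain ⟨C, h0, hC⟩ := hF.lip
  have : LipschitzWith ⟨C, h0⟩ (F t) := by
    refine LipschitzWith.of_dist_le_mul fun z w => ?_
    rw [dist_eq_norm]
    exact hC t ht z w
  exact this.continuous

/-- integral functionals -/
theorem BL.integral {I : Set ℝ} {D : Set E3} (hD : volume D < ⊤) {a : E3 → ℝ}
    (ha : Measurable a) (hab : ∀ x, |a x| ≤ 2) {h : ℝ → P × E3 → ℝ} (hh : BL I h) :
    BL I (fun t (z : P × BC) => ∫ x in D, a x * h t (z.1, x + z.2 x)) := by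
  have : IsFiniteMeasure (volume.restrict D) := ⟨by simpa using hD⟩
  have hc : ∀ t ∈ I, ∀ z : P × BC, Continuous fun x => h t (z.1, x + z.2 x) := fun t ht z =>
    (hh.continuous ht).comp (continuous_const.prodMk (continuous_addY z.2))
  have hm : ∀ t ∈ I, ∀ z : P × BC, AEStronglyMeasurable (fun x => a x * h t (z.1, x + z.2 x))
      (volume.restrict D) := fun t ht z =>
    (ha.aestronglyMeasurable).mul (hc t ht z).aestronglyMeasurable
  obtain ⟨C, h0, hC⟩ := hh.bd
  have hi : ∀ t ∈ I, ∀ z : P × BC, Integrable (fun x => a x * h t (z.1, x + z.2 x))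
      (volume.restrict D) := fun t ht z => by
    refine Integrable.of_bound (hm t ht z) (2 * C) (Eventually.of_forall fun x => ?_)
    rw [norm_mul, Real.norm_eq_abs]
    have := hab x
    have := hC t ht (z.1, x + z.2 x)
    gcongr
  refine ⟨?_, ?_, ?_⟩
  · refine ⟨2 * C * volume.real D, by positivity, fun t ht z => ?_⟩
    have := norm_integral_le_of_norm_le_const (μ := volume.restrict D)
      (f := fun x => a x * h t (z.1, x + z.2 x)) (C := 2 * C) (Eventually.of_forall fun x => by
        rw [norm_mul, Real.norm_eq_abs]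
        have := hab x
        have := hC t ht (z.1, x + z.2 x)
        gcongr)
    simpa using this
  · obtain ⟨K, h1, hK⟩ := hh.lip
    refine ⟨2 * K * volume.real D, by positivity, fun t ht z w => ?_⟩
    rw [← integral_sub (hi t ht z) (hi t ht w)]
    have := norm_integral_le_of_norm_le_const (μ := volume.restrict D)
      (f := fun x => a x * h t (z.1, x + z.2 x) - a x * h t (w.1, x + w.2 x))
      (C := 2 * (K * dist z w)) (Eventually.of_forall fun x => by
        rw [← mul_sub, norm_mul, Real.norm_eq_abs]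
        have := hab x
        have h2 := hK t ht (z.1, x + z.2 x) (w.1, x + w.2 x)
        have h3 : dist (z.1, x + z.2 x) (w.1, x + w.2 x) ≤ dist z w := by
          rw [Prod.dist_eq, Prod.dist_eq]
          refine max_le_max le_rfl ?_
          simp only [dist_add_left]
          exact BoundedContinuousFunction.dist_coe_le_dist (f := z.2) (g := w.2) x
        have h4 : ‖h t (z.1, x + z.2 x) - h t (w.1, x + w.2 x)‖ ≤ K * dist z w :=
          h2.trans (by gcongr)
        gcongr)
    refine this.trans (le_of_eq ?_)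
    simp
    ring
  · intro z t ht
    refine tendsto_integral_filter_of_dominated_convergence (fun _ => 2 * C) ?_ ?_ ?_ ?_
    · filter_upwards [self_mem_nhdsWithin] with s hs
      exact hm s hs z
    · filter_upwards [self_mem_nhdsWithin] with s hs
      refine Eventually.of_forall fun x => ?_
      rw [norm_mul, Real.norm_eq_abs]
      have := hab x
      have := hC s hs (z.1, x + z.2 x)
      gcongr
    · exact integrable_const _
    · refine Eventually.of_forall fun x => ?_
      exact (hh.cont (z.1, x + z.2 x) t ht).const_mul (a x)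

end

/-! ### measure preserving displacements -/

/-- `id + Y` is measure preserving and `Y = 0` outside of `Ω` -/
def good (Ω : Set E3) : Set BC :=
  {Y | MeasurePreserving (fun x => x + Y x) (volume : Measure E3) volume ∧ ∀ x, x ∉ Ω → Y x = 0}

section
variable {Ω : Set E3} {N : ℕ} {φ : Fin N → E3 → E3}

theorem fld_eq_zero (hφ : ∀ k, IsTest Ω (φ k)) (c : Fin N → ℝ) {x : E3} (hx : x ∉ Ω) :
    fld φ c x = 0 := by
  unfold fld
  refine Finset.sum_eq_zero fun k _ => ?_
  have : x ∉ tsupport (φ k) := fun h => hx ((hφ k).supp h)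
  rw [image_eq_zero_of_notMem_tsupport this, smul_zero]

theorem fld_test (hφ : ∀ k, IsTest Ω (φ k)) (c : Fin N → ℝ) : IsTest Ω (fld φ c) := by
  classical
  have : ∀ s : Finset (Fin N), IsTest Ω (∑ k ∈ s, c k • φ k) := by
    intro s
    induction s using Finset.induction_on with
    | empty => simpa using IsTest.zero
    | insert a s ha ih =>
      rw [Finset.sum_insert ha]
      exact ((hφ a).smul _).add ih
  have h := this Finset.univ
  have e : fld φ c = ∑ k, c k • φ k := by
    funext x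
    simp [fld, Finset.sum_apply]
  rw [e]; exact h

theorem inner_fld_self (c : Fin N → ℝ) (x : E3) :
    ‖fld φ c x‖ ^ 2 = ∑ k, ∑ l, c k * c l * ⟪φ k x, φ l x⟫_ℝ := by
  rw [← real_inner_self_eq_norm_sq]
  unfold fld
  rw [sum_inner]
  refine Finset.sum_congr rfl fun k _ => ?_
  rw [inner_sum]
  refine Finset.sum_congr rfl fun l _ => ?_
  rw [inner_smul_left, inner_smul_right]
  simp
  ring

theorem continuous_test {ψ : E3 → E3} (h : IsTest Ω ψ) : Continuous ψ := h.smooth.continuous

theorem integrable_inner_test (hφ : ∀ k, IsTest Ω (φ k)) (k l : Fin N) :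
    Integrable (fun x => ⟪φ k x, φ l x⟫_ℝ) :=
  ((continuous_test (hφ k)).inner (continuous_test (hφ l))).integrable_of_hasCompactSupport
    (by
      refine HasCompactSupport.intro (hφ k).compact fun x hx => ?_
      rw [image_eq_zero_of_notMem_tsupport hx, inner_zero_left])

/-- the quadratic form -/
noncomputable def QF (φ : Fin N → E3 → E3) (c : Fin N → ℝ) : ℝ := ∫ x, ‖fld φ c x‖ ^ 2

theorem QF_eq (hφ : ∀ k, IsTest Ω (φ k)) (c : Fin N → ℝ) :
    QF φ c = ∑ k, ∑ l, c k * c l * ∫ x, ⟪φ k x, φ l x⟫_ℝ := by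
  unfold QF
  simp_rw [inner_fld_self]
  rw [integral_finsetSum _ fun k _ => integrable_finsetSum _ fun l _ =>
    (integrable_inner_test hφ k l).const_mul _]
  refine Finset.sum_congr rfl fun k _ => ?_
  rw [integral_finsetSum _ fun l _ => (integrable_inner_test hφ k l).const_mul _]
  refine Finset.sum_congr rfl fun l _ => ?_
  rw [integral_const_mul]

theorem QF_continuous (hφ : ∀ k, IsTest Ω (φ k)) : Continuous (QF φ) := by
  have : QF φ = fun c => ∑ k, ∑ l, c k * c l * ∫ x, ⟪φ k x, φ l x⟫_ℝ := by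
    funext c; exact QF_eq hφ c
  rw [this]
  fun_prop

theorem QF_smul (r : ℝ) (c : Fin N → ℝ) : QF φ (r • c) = r ^ 2 * QF φ c := by
  unfold QF
  rw [← integral_const_mul]
  congr 1
  funext x
  have : fld φ (r • c) x = r • fld φ c x := by
    unfold fld
    rw [Finset.smul_sum]
    refine Finset.sum_congr rfl fun k _ => ?_
    rw [Pi.smul_apply, smul_eq_mul, mul_smul]
  rw [this, norm_smul, mul_pow, Real.norm_eq_abs, sq_abs]

theorem integrable_sq_test {ψ : E3 → E3} (h : IsTest Ω ψ) : Integrable (fun x => ‖ψ x‖ ^ 2) :=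
  ((continuous_test h).norm.pow 2).integrable_of_hasCompactSupport
    (by
      refine HasCompactSupport.intro h.compact fun x hx => ?_
      show ‖ψ x‖ ^ 2 = 0
      rw [image_eq_zero_of_notMem_tsupport hx]; simp)

theorem QF_pos (hφ : ∀ k, IsTest Ω (φ k)) (hli : LinearIndependent ℝ φ) {c : Fin N → ℝ}
    (hc : c ≠ 0) : 0 < QF φ c := by
  have hn : 0 ≤ QF φ c := integral_nonneg fun x => by positivity
  refine lt_of_le_of_ne hn fun h0 => hc ?_
  have ht := fld_test hφ c
  have h1 : (fun x => ‖fld φ c x‖ ^ 2) =ᵐ[volume] 0 :=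
    (integral_eq_zero_iff_of_nonneg (fun x => by positivity) (integrable_sq_test ht)).1 h0.symm
  have h2 : (fun x => ‖fld φ c x‖ ^ 2) = 0 :=
    (Continuous.ae_eq_iff_eq volume ((continuous_test ht).norm.pow 2) continuous_const).1 h1
  have h3 : ∑ k, c k • φ k = 0 := by
    funext x
    have := congrFun h2 x
    simp only [Pi.zero_apply, ne_eq, OfNat.ofNat_ne_zero, not_false_eq_true, pow_eq_zero_iff,
      norm_eq_zero] at this
    rw [Finset.sum_apply]
    simpa [fld] using this
  funext k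
  exact Fintype.linearIndependent_iff.1 hli c h3 k

theorem QF_coercive (hφ : ∀ k, IsTest Ω (φ k)) (hli : LinearIndependent ℝ φ) :
    ∃ lam : ℝ, 0 < lam ∧ ∀ c : Fin N → ℝ, lam * ‖c‖ ^ 2 ≤ QF φ c := by
  by_cases hne : (Metric.sphere (0 : Fin N → ℝ) 1).Nonempty
  · obtain ⟨c0, hc0, hmin⟩ := (isCompact_sphere (0 : Fin N → ℝ) 1).exists_isMinOn hne
      (QF_continuous hφ).continuousOn
    have hc0' : c0 ≠ 0 := by
      rintro rfl
      simp at hc0
    refine ⟨QF φ c0, QF_pos hφ hli hc0', fun c => ?_⟩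
    rcases eq_or_ne c 0 with rfl | hc
    · simp only [norm_zero]
      have : 0 ≤ QF φ (0 : Fin N → ℝ) := integral_nonneg fun x => by positivity
      simpa using this
    · have hn : 0 < ‖c‖ := norm_pos_iff.2 hc
      have h1 : (‖c‖⁻¹ • c) ∈ Metric.sphere (0 : Fin N → ℝ) 1 := by
        simp [norm_smul, hn.ne']
      have h2 : QF φ c0 ≤ QF φ (‖c‖⁻¹ • c) := hmin h1
      rw [QF_smul] at h2
      calc QF φ c0 * ‖c‖ ^ 2 ≤ (‖c‖⁻¹ ^ 2 * QF φ c) * ‖c‖ ^ 2 := by gcongr
        _ = QF φ c := by field_simp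
  · refine ⟨1, one_pos, fun c => ?_⟩
    rcases eq_or_ne c 0 with rfl | hc
    · have : 0 ≤ QF φ (0 : Fin N → ℝ) := integral_nonneg fun x => by positivity
      simpa using this
    · exfalso
      apply hne
      have hn : 0 < ‖c‖ := norm_pos_iff.2 hc
      exact ⟨‖c‖⁻¹ • c, by simp [norm_smul, hn.ne']⟩

/-- matrix entries -/
noncomputable def Mg (a : E3 → ℝ) (D : Set E3) (φ : Fin N → E3 → E3) (k l : Fin N) (Y : BC) : ℝ :=
  ∫ x in D, a x * ⟪φ k (x + Y x), φ l (x + Y x)⟫_ℝ

theorem Mg_symm (a : E3 → ℝ) (D : Set E3) (k l : Fin N) (Y : BC) :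
    Mg a D φ k l Y = Mg a D φ l k Y := by
  unfold Mg
  simp_rw [real_inner_comm]

theorem integrable_Mg (hφ : ∀ k, IsTest Ω (φ k)) {D : Set E3} (hD : volume D < ⊤)
    {a : E3 → ℝ} (ha : Measurable a) (hab : ∀ x, 1 ≤ a x ∧ a x ≤ 2) (Y : BC) (k l : Fin N) :
    Integrable (fun x => a x * ⟪φ k (x + Y x), φ l (x + Y x)⟫_ℝ) (volume.restrict D) := by
  have : IsFiniteMeasure (volume.restrict D) := ⟨by simpa using hD⟩
  have hbd : ∀ k, ∃ C, ∀ x, ‖φ k x‖ ≤ C := fun k =>
    (hφ k).compact.exists_bound_of_continuous (continuous_test (hφ k))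
  obtain ⟨C, hC⟩ := hbd k
  obtain ⟨C', hC'⟩ := hbd l
  refine Integrable.of_bound (C := 2 * (C * C')) ?_ (Eventually.of_forall fun x => ?_)
  · refine ha.aestronglyMeasurable.mul ?_
    exact (((continuous_test (hφ k)).comp (continuous_addY Y)).inner
      ((continuous_test (hφ l)).comp (continuous_addY Y))).aestronglyMeasurable
  · rw [norm_mul]
    have h1 : ‖a x‖ ≤ 2 := by
      rw [Real.norm_eq_abs, abs_le]; constructor <;> linarith [(hab x).1, (hab x).2]
    have h2 : ‖⟪φ k (x + Y x), φ l (x + Y x)⟫_ℝ‖ ≤ C * C' :=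
      (norm_inner_le_norm _ _).trans (mul_le_mul (hC _) (hC' _) (norm_nonneg _)
        ((norm_nonneg _).trans (hC (x + Y x))))
    gcongr

theorem Mg_quad (hφ : ∀ k, IsTest Ω (φ k)) {D : Set E3} (hD : volume D < ⊤)
    {a : E3 → ℝ} (ha : Measurable a) (hab : ∀ x, 1 ≤ a x ∧ a x ≤ 2) (Y : BC)
    (c : Fin N → ℝ) : ∑ k, ∑ l, c k * c l * Mg a D φ k l Y
      = ∫ x in D, a x * ‖fld φ c (x + Y x)‖ ^ 2 := by
  have hi := integrable_Mg hφ hD ha hab Y
  have : ∀ x, a x * ‖fld φ c (x + Y x)‖ ^ 2
      = ∑ k, ∑ l, c k * c l * (a x * ⟪φ k (x + Y x), φ l (x + Y x)⟫_ℝ) := by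
    intro x
    rw [inner_fld_self, Finset.mul_sum]
    refine Finset.sum_congr rfl fun k _ => ?_
    rw [Finset.mul_sum]
    refine Finset.sum_congr rfl fun l _ => ?_
    ring
  simp_rw [this]
  rw [integral_finsetSum _ fun k _ => integrable_finsetSum _ fun l _ => (hi k l).const_mul _]
  refine Finset.sum_congr rfl fun k _ => ?_
  rw [integral_finsetSum _ fun l _ => (hi k l).const_mul _]
  refine Finset.sum_congr rfl fun l _ => ?_
  rw [integral_const_mul]; rfl

/-- coercivity of the matrix -/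
theorem Mg_coercive (hφ : ∀ k, IsTest Ω (φ k)) {D : Set E3} (hΩD : Ω ⊆ D) (hD : volume D < ⊤)
    {a : E3 → ℝ} (ha : Measurable a) (hab : ∀ x, 1 ≤ a x ∧ a x ≤ 2) {Y : BC} (hY : Y ∈ good Ω)
    (c : Fin N → ℝ) : QF φ c ≤ ∑ k, ∑ l, c k * c l * Mg a D φ k l Y := by
  have : IsFiniteMeasure (volume.restrict D) := ⟨by simpa using hD⟩
  rw [Mg_quad hφ hD ha hab]
  have ht := fld_test hφ c
  have hcn : Continuous fun x => ‖fld φ c (x + Y x)‖ ^ 2 :=
    ((continuous_test ht).comp (continuous_addY Y)).norm.pow 2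
  have e2 : QF φ c = ∫ x, ‖fld φ c (x + Y x)‖ ^ 2 := by
    unfold QF
    rw [← hY.1.map_eq, integral_map hY.1.measurable.aemeasurable]
    rw [hY.1.map_eq]
    exact ((continuous_test ht).norm.pow 2).aestronglyMeasurable
  have e3 : ∫ x, ‖fld φ c (x + Y x)‖ ^ 2 = ∫ x in D, ‖fld φ c (x + Y x)‖ ^ 2 := by
    symm
    refine setIntegral_eq_integral_of_forall_compl_eq_zero fun x hx => ?_
    have hx' : x ∉ Ω := fun h => hx (hΩD h)
    rw [hY.2 x hx', add_zero, fld_eq_zero hφ c hx']
    simp
  rw [e2, e3]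
  obtain ⟨C, hC⟩ := ht.compact.exists_bound_of_continuous (continuous_test ht)
  have hC0 : 0 ≤ C := (norm_nonneg _).trans (hC 0)
  refine integral_mono ?_ ?_ fun x => ?_
  · refine Integrable.of_bound (C := C ^ 2) hcn.aestronglyMeasurable
      (Eventually.of_forall fun x => ?_)
    rw [norm_pow, norm_norm]
    have := hC (x + Y x)
    gcongr
  · refine Integrable.of_bound (C := 2 * C ^ 2) (ha.aestronglyMeasurable.mul
      hcn.aestronglyMeasurable) (Eventually.of_forall fun x => ?_)
    rw [norm_mul, norm_pow, norm_norm]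
    have h1 : ‖a x‖ ≤ 2 := by
      rw [Real.norm_eq_abs, abs_le]; constructor <;> linarith [(hab x).1, (hab x).2]
    have := hC (x + Y x)
    gcongr
  · have := (hab x).1
    have h0 : 0 ≤ ‖fld φ c (x + Y x)‖ ^ 2 := by positivity
    show ‖fld φ c (x + Y x)‖ ^ 2 ≤ a x * ‖fld φ c (x + Y x)‖ ^ 2
    nlinarith

end

end N979MH.GalAux
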