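import Mathlib
import Pool.Agent.N979.MH.Stm
import Pool.Agent.N979.MH.GalB

/-!
Module GAL, part C: the inverse of the matrix, extended to a bounded Lipschitz function.
-/

open MeasureTheory Set Filter Topology
open scoped InnerProductSpace ENNReal ContDiff NNReal BoundedContinuousFunction

set_option linter.unusedSectionVars false

namespace N979MH.GalAux

open H772R2.NS

section
variable {N : ℕ}

theorem mulVec_quad (A : Matrix (Fin N) (Fin N) ℝ) (v : Fin N → ℝ) :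
    ∑ k, ∑ l, v k * v l * A k l = v ⬝ᵥ (A.mulVec v) := by
  simp only [dotProduct, Matrix.mulVec]
  refine Finset.sum_congr rfl fun k _ => ?_
  rw [Finset.mul_sum]
  refine Finset.sum_congr rfl fun l _ => ?_
  ring

theorem det_ne_zero_of_coercive {A : Matrix (Fin N) (Fin N) ℝ} {lam : ℝ} (hl : 0 < lam)
    (h : ∀ c : Fin N → ℝ, lam * ‖c‖ ^ 2 ≤ ∑ k, ∑ l, c k * c l * A k l) : A.det ≠ 0 := by
  intro h0
  obtain ⟨v, hv, hv0⟩ := Matrix.exists_mulVec_eq_zero_iff.2 h0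
  have h1 := h v
  rw [mulVec_quad, hv0, dotProduct_zero] at h1
  have h2 : 0 < ‖v‖ := norm_pos_iff.2 hv
  have : 0 < lam * ‖v‖ ^ 2 := by positivity
  linarith

theorem inv_entry_le {A : Matrix (Fin N) (Fin N) ℝ} {lam : ℝ} (hl : 0 < lam)
    (h : ∀ c : Fin N → ℝ, lam * ‖c‖ ^ 2 ≤ ∑ k, ∑ l, c k * c l * A k l) (i l : Fin N) :
    |A⁻¹ i l| ≤ lam⁻¹ := by
  have hd := det_ne_zero_of_coercive hl h
  have hu : IsUnit A.det := isUnit_iff_ne_zero.2 hd
  set v : Fin N → ℝ := A⁻¹.mulVec (Pi.single l 1) with hv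
  have h1 : A.mulVec v = Pi.single l 1 := by
    rw [hv, Matrix.mulVec_mulVec, Matrix.mul_nonsing_inv _ hu, Matrix.one_mulVec]
  have h2 := h v
  rw [mulVec_quad, h1, dotProduct_single_one] at h2
  have h3 : v i = A⁻¹ i l := by
    rw [hv, Matrix.mulVec_single_one]; rfl
  rw [← h3]
  have h4 : v l ≤ ‖v‖ := (le_abs_self _).trans (norm_le_pi_norm v l)
  have h5 : |v i| ≤ ‖v‖ := norm_le_pi_norm v i
  refine h5.trans ?_
  rcases (norm_nonneg v).eq_or_lt' with h0 | h0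
  · rw [h0]; positivity
  · have : lam * ‖v‖ ≤ 1 := by
      have h6 : lam * ‖v‖ * ‖v‖ ≤ 1 * ‖v‖ := by nlinarith
      exact le_of_mul_le_mul_right h6 h0
    rw [← one_div, le_div_iff₀ hl]
    linarith

theorem inv_sub_le {A B : Matrix (Fin N) (Fin N) ℝ} {lam K : ℝ} (hl : 0 < lam)
    (hA : ∀ c : Fin N → ℝ, lam * ‖c‖ ^ 2 ≤ ∑ k, ∑ l, c k * c l * A k l)
    (hB : ∀ c : Fin N → ℝ, lam * ‖c‖ ^ 2 ≤ ∑ k, ∑ l, c k * c l * B k l)
    (hAB : ∀ k l, |A k l - B k l| ≤ K) (i l : Fin N) :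
    |A⁻¹ i l - B⁻¹ i l| ≤ N ^ 2 * (lam⁻¹ ^ 2) * K := by
  have hdA := det_ne_zero_of_coercive hl hA
  have hdB := det_ne_zero_of_coercive hl hB
  have hu : IsUnit A ↔ IsUnit B := by
    rw [Matrix.isUnit_iff_isUnit_det, Matrix.isUnit_iff_isUnit_det]
    exact ⟨fun _ => isUnit_iff_ne_zero.2 hdB, fun _ => isUnit_iff_ne_zero.2 hdA⟩
  have h1 := Matrix.inv_sub_inv hu
  have h2 : A⁻¹ i l - B⁻¹ i l = ∑ q, (∑ p, A⁻¹ i p * (B p q - A p q)) * B⁻¹ q l := by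
    rw [← Matrix.sub_apply, h1, Matrix.mul_apply]
    refine Finset.sum_congr rfl fun q _ => ?_
    rw [Matrix.mul_apply]
    rfl
  rw [h2]
  calc |∑ q, (∑ p, A⁻¹ i p * (B p q - A p q)) * B⁻¹ q l|
      ≤ ∑ q, |(∑ p, A⁻¹ i p * (B p q - A p q)) * B⁻¹ q l| := Finset.abs_sum_le_sum_abs _ _
    _ ≤ ∑ q : Fin N, (∑ p : Fin N, lam⁻¹ * K) * lam⁻¹ := by
        refine Finset.sum_le_sum fun q _ => ?_
        rw [abs_mul]
        have h3 := inv_entry_le hl hB q l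
        have h4 : |∑ p, A⁻¹ i p * (B p q - A p q)| ≤ ∑ p : Fin N, lam⁻¹ * K := by
          refine (Finset.abs_sum_le_sum_abs _ _).trans (Finset.sum_le_sum fun p _ => ?_)
          rw [abs_mul]
          have h5 := inv_entry_le hl hA i p
          have h6 := hAB p q
          rw [abs_sub_comm] at h6
          gcongr
        exact mul_le_mul h4 h3 (abs_nonneg _) ((abs_nonneg _).trans h4)
    _ = N ^ 2 * (lam⁻¹ ^ 2) * K := by
        simp
        ring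

end

section
variable {Ω : Set E3} {N : ℕ} {φ : Fin N → E3 → E3}

theorem BL.test {I : Set ℝ} {ψ : E3 → E3} (h : IsTest Ω ψ) : BL I (fun _ y => ψ y) :=
  BL.of_smooth (h.smooth.of_le (by simp)) h.compact

theorem BL.inner {Z : Type*} [PseudoMetricSpace Z] {I : Set ℝ} {F G : ℝ → Z → E3} (hF : BL I F)
    (hG : BL I G) : BL I (fun t z => ⟪F t z, G t z⟫_ℝ) :=
  (hF.bilin (innerSL ℝ) hG).congr fun _ _ _ => rfl

theorem BL.Mg {I : Set ℝ} (hφ : ∀ k, IsTest Ω (φ k)) {D : Set E3} (hD : volume D < ⊤)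
    {a : E3 → ℝ} (ha : Measurable a) (hab : ∀ x, |a x| ≤ 2) (k l : Fin N) :
    BL I (fun _ (Y : BC) => Mg a D φ k l Y) := by
  have h1 : BL I (fun _ (y : E3) => ⟪φ k y, φ l y⟫_ℝ) := (BL.test (hφ k)).inner (BL.test (hφ l))
  have h2 : BL I (fun _ (z : ℝ × E3) => ⟪φ k z.2, φ l z.2⟫_ℝ) :=
    h1.comp Prod.snd LipschitzWith.prod_snd
  have h3 := BL.integral hD ha hab h2
  exact h3.comp (fun Y : BC => ((0 : ℝ), Y)) (LipschitzWith.prodMk_left (0 : ℝ))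

/-- the matrix -/
noncomputable def MM (a : E3 → ℝ) (D : Set E3) (φ : Fin N → E3 → E3) (Y : BC) :
    Matrix (Fin N) (Fin N) ℝ := Matrix.of fun k l => Mg a D φ k l Y

theorem exists_S {I : Set ℝ} (hφ : ∀ k, IsTest Ω (φ k)) {D : Set E3} (hΩD : Ω ⊆ D)
    (hD : volume D < ⊤) {a : E3 → ℝ} (ha : Measurable a) (hab : ∀ x, 1 ≤ a x ∧ a x ≤ 2)
    (hli : LinearIndependent ℝ φ) :
    ∃ S : Fin N → Fin N → BC → ℝ, (∀ i l, BL I (fun _ Y => S i l Y)) ∧
      ∀ Y ∈ good Ω, ∀ i l, S i l Y = (MM a D φ Y)⁻¹ i l := by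
  obtain ⟨lam, hl, hlam⟩ := QF_coercive hφ hli
  have hab' : ∀ x, |a x| ≤ 2 := fun x => by
    rw [abs_le]; constructor <;> linarith [(hab x).1, (hab x).2]
  have hco : ∀ Y ∈ good Ω, ∀ c : Fin N → ℝ,
      lam * ‖c‖ ^ 2 ≤ ∑ k, ∑ l, c k * c l * (MM a D φ Y) k l := fun Y hY c =>
    (hlam c).trans (Mg_coercive hφ hΩD hD ha hab hY c)
  have hM : ∀ k l, ∃ K : ℝ, 0 ≤ K ∧ ∀ Y Y' : BC, |Mg a D φ k l Y - Mg a D φ k l Y'|
      ≤ K * dist Y Y' := fun k l => by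
    obtain ⟨K, h0, hK⟩ := (BL.Mg (I := univ) hφ hD ha hab' k l).lip
    exact ⟨K, h0, fun Y Y' => hK 0 (mem_univ _) Y Y'⟩
  choose K hK0 hK using hM
  set KK : ℝ := ∑ k, ∑ l, K k l with hKK
  have hKK0 : 0 ≤ KK := Finset.sum_nonneg fun k _ => Finset.sum_nonneg fun l _ => hK0 k l
  have hK' : ∀ k l, K k l ≤ KK := fun k l => by
    refine (Finset.single_le_sum (f := fun l => K k l) (fun l _ => hK0 k l)
      (Finset.mem_univ l)).trans ?_
    exact Finset.single_le_sum (f := fun k => ∑ l, K k l)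
      (fun k _ => Finset.sum_nonneg fun l _ => hK0 k l) (Finset.mem_univ k)
  have hlip : ∀ i l, LipschitzOnWith (⟨N ^ 2 * (lam⁻¹ ^ 2) * KK, by positivity⟩ : ℝ≥0)
      (fun Y => (MM a D φ Y)⁻¹ i l) (good Ω) := by
    intro i l
    refine LipschitzOnWith.of_dist_le_mul fun Y hY Y' hY' => ?_
    rw [Real.dist_eq]
    have := inv_sub_le (K := KK * dist Y Y') hl (hco Y hY) (hco Y' hY')
      (fun k l => (hK k l Y Y').trans (by have := hK' k l; gcongr)) i l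
    refine this.trans (le_of_eq ?_)
    show _ = (N ^ 2 * (lam⁻¹ ^ 2) * KK) * dist Y Y'
    ring
  choose g hg1 hg2 using fun i l => (hlip i l).extend_real
  refine ⟨fun i l Y => max (-lam⁻¹) (min lam⁻¹ (g i l Y)), fun i l => ?_, fun Y hY i l => ?_⟩
  · exact BL.clamp (hg1 i l) (by positivity)
  · have h1 : (MM a D φ Y)⁻¹ i l = g i l Y := hg2 i l hY
    have h2 := inv_entry_le hl (hco Y hY) i l
    rw [h1, abs_le] at h2
    show max (-lam⁻¹) (min lam⁻¹ (g i l Y)) = (MM a D φ Y)⁻¹ i l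
    rw [h1, min_eq_right h2.2, max_eq_right h2.1]

end

end N979MH.GalAux
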