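import Mathlib
import Pool.Agent.N979.MH.Stm
import Pool.Agent.N979.MH.GalC

/-!
Module GAL, part D: the truncated system.
-/

open MeasureTheory Set Filter Topology
open scoped InnerProductSpace ENNReal ContDiff NNReal BoundedContinuousFunction

set_option linter.unusedSectionVars false

namespace N979MH.GalAux

open H772R2.NS

section
variable {N : ℕ}

/-- cutoff -/
noncomputable def th (R : ℝ) (c : Fin N → ℝ) : ℝ := max 0 (min 1 (2 - ‖c‖ / R))

theorem th_nonneg (R : ℝ) (c : Fin N → ℝ) : 0 ≤ th R c := le_max_left _ _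

theorem th_le_one (R : ℝ) (c : Fin N → ℝ) : th R c ≤ 1 :=
  max_le zero_le_one (min_le_left _ _)

theorem th_eq_one {R : ℝ} (hR : 0 < R) {c : Fin N → ℝ} (h : ‖c‖ ≤ R) : th R c = 1 := by
  unfold th
  have : ‖c‖ / R ≤ 1 := (div_le_one hR).2 h
  rw [min_eq_left (by linarith)]
  simp

theorem th_eq_zero {R : ℝ} (hR : 0 < R) {c : Fin N → ℝ} (h : 2 * R ≤ ‖c‖) : th R c = 0 := by
  unfold th
  have : 2 ≤ ‖c‖ / R := (le_div_iff₀ hR).2 h
  apply max_eq_left
  exact (min_le_right _ _).trans (by linarith)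

theorem BL.cut {I : Set ℝ} {R : ℝ} (hR : 0 < R) : BL I (fun _ (c : Fin N → ℝ) => th R c) where
  bd := ⟨1, zero_le_one, fun _ _ c => by
    rw [Real.norm_eq_abs, abs_of_nonneg (th_nonneg R c)]; exact th_le_one R c⟩
  lip := by
    have h1 : LipschitzWith (⟨R⁻¹, by positivity⟩ : ℝ≥0) (fun c : Fin N → ℝ => 2 - ‖c‖ / R) := by
      refine LipschitzWith.of_dist_le_mul fun c c' => ?_
      rw [Real.dist_eq]
      have e : 2 - ‖c‖ / R - (2 - ‖c'‖ / R) = R⁻¹ * (‖c'‖ - ‖c‖) := by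
        field_simp
        ring
      rw [e, abs_mul, abs_of_pos (by positivity : 0 < R⁻¹)]
      have h2 : |‖c'‖ - ‖c‖| ≤ dist c c' := by
        rw [abs_sub_comm, dist_eq_norm]
        exact abs_norm_sub_norm_le c c'
      show R⁻¹ * |‖c'‖ - ‖c‖| ≤ R⁻¹ * dist c c'
      gcongr
    have h2 := (h1.const_min 1).const_max 0
    refine ⟨R⁻¹, by positivity, fun _ _ c c' => ?_⟩
    rw [← dist_eq_norm]
    exact h2.dist_le_mul c c'
  cont _ := continuousOn_const

theorem lipschitz_coord (j : Fin N) : LipschitzWith 1 (fun c : Fin N → ℝ => c j) :=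
  LipschitzWith.eval j

theorem clamp_eq {R : ℝ} {c : Fin N → ℝ} (h : ‖c‖ ≤ R) (j : Fin N) :
    max (-R) (min R (c j)) = c j := by
  have h1 : |c j| ≤ R := (norm_le_pi_norm c j).trans h
  rw [abs_le] at h1
  rw [min_eq_right h1.2, max_eq_right h1.1]

theorem BL.cutc {I : Set ℝ} {R : ℝ} (hR : 0 < R) (j : Fin N) :
    BL I (fun _ (c : Fin N → ℝ) => th R c * c j) := by
  refine ((BL.cut hR).mul (BL.clamp (lipschitz_coord j) (R := 2 * R) (by positivity))).congr
    fun _ _ c => ?_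
  rcases le_or_gt ‖c‖ (2 * R) with h | h
  · rw [clamp_eq h]
  · rw [th_eq_zero hR h.le]; simp

theorem BL.cutcc {I : Set ℝ} {R : ℝ} (hR : 0 < R) (j k : Fin N) :
    BL I (fun _ (c : Fin N → ℝ) => th R c * c j * c k) := by
  refine ((BL.cutc hR j).mul (BL.clamp (lipschitz_coord k) (R := 2 * R) (by positivity))).congr
    fun _ _ c => ?_
  rcases le_or_gt ‖c‖ (2 * R) with h | h
  · rw [clamp_eq h]
  · rw [th_eq_zero hR h.le]; simp

end

section
variable {Ω : Set E3} {N : ℕ} {φ : Fin N → E3 → E3}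

theorem differentiable_test {ψ : E3 → E3} (h : IsTest Ω ψ) : Differentiable ℝ ψ :=
  h.smooth.differentiable (by simp)

theorem fderiv_fld (hφ : ∀ k, IsTest Ω (φ k)) (c : Fin N → ℝ) (x : E3) :
    fderiv ℝ (fld φ c) x = ∑ k, c k • fderiv ℝ (φ k) x := by
  have h : HasFDerivAt (fld φ c) (∑ k, c k • fderiv ℝ (φ k) x) x := by
    have : fld φ c = fun y => ∑ k, c k • φ k y := rfl
    rw [this]
    exact HasFDerivAt.fun_sum fun k _ => ((differentiable_test (hφ k)) x).hasFDerivAt.const_smul (c k)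
  exact h.fderiv

theorem jac_fld (hφ : ∀ k, IsTest Ω (φ k)) (c : Fin N → ℝ) (x : E3) :
    jac (fld φ c) x = ∑ k, c k • jac (φ k) x := by
  ext p
  rw [jac_apply, fderiv_fld hφ]
  simp [jac_apply]

theorem jac_continuous {ψ : E3 → E3} (h : IsTest Ω ψ) : Continuous (jac ψ) :=
  continuous_jac h.smooth

theorem integrable_inner_jac {ψ χ : E3 → E3} (h : IsTest Ω ψ) (h' : IsTest Ω χ) :
    Integrable (fun x => ⟪jac ψ x, jac χ x⟫_ℝ) :=
  ((jac_continuous h).inner (jac_continuous h')).integrable_of_hasCompactSupport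
    (by
      refine HasCompactSupport.intro (hasCompactSupport_jac h.compact) fun x hx => ?_
      rw [image_eq_zero_of_notMem_tsupport hx, inner_zero_left])

theorem integral_jac_fld (hφ : ∀ k, IsTest Ω (φ k)) (c : Fin N → ℝ) {χ : E3 → E3}
    (h' : IsTest Ω χ) :
    ∫ x, ⟪jac (fld φ c) x, jac χ x⟫_ℝ = ∑ k, c k * ∫ x, ⟪jac (φ k) x, jac χ x⟫_ℝ := by
  have : ∀ x, ⟪jac (fld φ c) x, jac χ x⟫_ℝ = ∑ k, c k * ⟪jac (φ k) x, jac χ x⟫_ℝ := by
    intro x
    rw [jac_fld hφ, sum_inner]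
    refine Finset.sum_congr rfl fun k _ => ?_
    rw [inner_smul_left]; simp
  simp_rw [this]
  rw [integral_finsetSum _ fun k _ => (integrable_inner_jac (hφ k) h').const_mul _]
  refine Finset.sum_congr rfl fun k _ => ?_
  rw [integral_const_mul]

/-- the integrand -/
noncomputable def hB (R : ℝ) (φ : Fin N → E3 → E3) (f : ℝ → E3 → E3) (l : Fin N) (t : ℝ)
    (z : (Fin N → ℝ) × E3) : ℝ :=
  ⟪f t z.2 - th R z.1 • (fderiv ℝ (fld φ z.1) z.2 (fld φ z.1 z.2)), φ l z.2⟫_ℝ

theorem BL.bfderiv {I : Set ℝ} {ψ : E3 → E3} (h : IsTest Ω ψ) :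
    BL I (fun _ y => fderiv ℝ ψ y) :=
  BL.of_smooth ((h.smooth.fderiv_right (m := 1) (by norm_cast))) (h.compact.fderiv ℝ)

theorem BL.hBl {I : Set ℝ} (hφ : ∀ k, IsTest Ω (φ k)) {R : ℝ} (hR : 0 < R) {f : ℝ → E3 → E3}
    (hf : BL I f) (l : Fin N) : BL I (hB R φ f l) := by
  have h1 : BL I (fun t (z : (Fin N → ℝ) × E3) => ⟪f t z.2, φ l z.2⟫_ℝ) :=
    (hf.inner (BL.test (hφ l))).comp Prod.snd LipschitzWith.prod_snd
  have h2 : ∀ j k : Fin N, BL I (fun _ (z : (Fin N → ℝ) × E3) =>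
      (th R z.1 * z.1 j * z.1 k) * ⟪fderiv ℝ (φ j) z.2 (φ k z.2), φ l z.2⟫_ℝ) := by
    intro j k
    have e1 : BL I (fun _ (z : (Fin N → ℝ) × E3) => th R z.1 * z.1 j * z.1 k) :=
      (BL.cutcc hR j k).comp Prod.fst LipschitzWith.prod_fst
    have e2 : BL I (fun _ (y : E3) => fderiv ℝ (φ j) y (φ k y)) :=
      ((BL.bfderiv (hφ j)).bilin (ContinuousLinearMap.id ℝ (E3 →L[ℝ] E3))
        (BL.test (hφ k))).congr fun _ _ _ => rfl
    have e3 : BL I (fun _ (z : (Fin N → ℝ) × E3) =>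
        ⟪fderiv ℝ (φ j) z.2 (φ k z.2), φ l z.2⟫_ℝ) :=
      (e2.inner (BL.test (hφ l))).comp Prod.snd LipschitzWith.prod_snd
    exact e1.mul e3
  have h3 := h1.sub (BL.sum (I := I) Finset.univ
    (F := fun j t (z : (Fin N → ℝ) × E3) => ∑ k, (th R z.1 * z.1 j * z.1 k) *
      ⟪fderiv ℝ (φ j) z.2 (φ k z.2), φ l z.2⟫_ℝ)
    fun j _ => BL.sum Finset.univ fun k _ => h2 j k)
  refine h3.congr fun t _ z => ?_
  unfold hB
  rw [inner_sub_left]
  congr 1
  rw [fderiv_fld hφ, inner_smul_left]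
  simp only [RCLike.conj_to_real]
  rw [sum_apply, sum_inner, Finset.mul_sum]
  refine Finset.sum_congr rfl fun j _ => ?_
  rw [smul_apply, fld, map_sum, Finset.smul_sum, sum_inner, Finset.mul_sum]
  refine Finset.sum_congr rfl fun k _ => ?_
  rw [map_smul, inner_smul_left, inner_smul_left]
  simp only [RCLike.conj_to_real]
  ring

/-- right hand side -/
noncomputable def BB (R : ℝ) (a : E3 → ℝ) (D : Set E3) (φ : Fin N → E3 → E3) (f : ℝ → E3 → E3)
    (l : Fin N) (t : ℝ) (z : (Fin N → ℝ) × BC) : ℝ :=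
  (∫ x in D, a x * hB R φ f l t (z.1, x + z.2 x))
    - th R z.1 * ∫ x, ⟪jac (fld φ z.1) x, jac (φ l) x⟫_ℝ

theorem BL.bBB {I : Set ℝ} (hφ : ∀ k, IsTest Ω (φ k)) {R : ℝ} (hR : 0 < R) {f : ℝ → E3 → E3}
    (hf : BL I f) {D : Set E3} (hD : volume D < ⊤) {a : E3 → ℝ} (ha : Measurable a)
    (hab : ∀ x, |a x| ≤ 2) (l : Fin N) : BL I (BB R a D φ f l) := by
  have h1 := BL.integral hD ha hab (BL.hBl hφ hR hf l)
  have h2 : BL I (fun _ (z : (Fin N → ℝ) × BC) =>
      ∑ k, (th R z.1 * z.1 k) * ∫ x, ⟪jac (φ k) x, jac (φ l) x⟫_ℝ) := by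
    refine BL.sum Finset.univ fun k _ => ?_
    exact ((BL.cutc hR k).comp Prod.fst LipschitzWith.prod_fst).mul (BL.const _)
  refine (h1.sub h2).congr fun t _ z => ?_
  unfold BB
  congr 1
  rw [integral_jac_fld hφ _ (hφ l), Finset.mul_sum]
  refine Finset.sum_congr rfl fun k _ => ?_
  ring

/-- a test field as bounded continuous function -/
noncomputable def toBC {ψ : E3 → E3} (h : IsTest Ω ψ) : BC :=
  BoundedContinuousFunction.ofNormedAddCommGroup ψ h.smooth.continuous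
    (h.compact.exists_bound_of_continuous h.smooth.continuous).choose
    (h.compact.exists_bound_of_continuous h.smooth.continuous).choose_spec

theorem toBC_apply {ψ : E3 → E3} (h : IsTest Ω ψ) (x : E3) : toBC h x = ψ x := rfl

theorem toBC_lip {ψ : E3 → E3} (h : IsTest Ω ψ) : ∃ K : ℝ≥0, LipschitzWith K (toBC h) := by
  obtain ⟨C, hC⟩ := (h.smooth.of_le (by simp) : ContDiff ℝ 1 ψ).lipschitzWith_of_hasCompactSupport
    h.compact one_ne_zero
  exact ⟨C, hC⟩

/-- the field -/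
noncomputable def GG (R : ℝ) (a : E3 → ℝ) (D : Set E3) (hφ : ∀ k, IsTest Ω (φ k))
    (f : ℝ → E3 → E3) (S : Fin N → Fin N → BC → ℝ) (t : ℝ) (z : (Fin N → ℝ) × BC) :
    (Fin N → ℝ) × BC :=
  (fun i => ∑ l, S i l z.2 * BB R a D φ f l t z,
    ∑ k, (th R z.1 * z.1 k) • compB (toBC (hφ k)) z.2)

theorem BL.bGG {I : Set ℝ} (hφ : ∀ k, IsTest Ω (φ k)) {R : ℝ} (hR : 0 < R) {f : ℝ → E3 → E3}
    (hf : BL I f) {D : Set E3} (hD : volume D < ⊤) {a : E3 → ℝ} (ha : Measurable a)
    (hab : ∀ x, |a x| ≤ 2) {S : Fin N → Fin N → BC → ℝ}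
    (hS : ∀ i l, BL I (fun _ Y => S i l Y)) : BL I (GG R a D hφ f S) := by
  refine BL.prodMk (BL.pi fun i => ?_) ?_
  · refine BL.sum Finset.univ fun l _ => ?_
    exact ((hS i l).comp Prod.snd LipschitzWith.prod_snd).mul (BL.bBB hφ hR hf hD ha hab l)
  · refine BL.sum Finset.univ fun k _ => ?_
    obtain ⟨K, hK⟩ := toBC_lip (hφ k)
    exact ((BL.cutc hR k).comp Prod.fst LipschitzWith.prod_fst).smul
      ((BL.compB (toBC (hφ k)) hK).comp Prod.snd LipschitzWith.prod_snd)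

/-- solution of the truncated system -/
structure Trunc (Ω : Set E3) (φ : Fin N → E3 → E3) (t0 T : ℝ) (a : E3 → ℝ) (f : ℝ → E3 → E3)
    (D : Set E3) (R : ℝ) (c c' b : ℝ → Fin N → ℝ) (X Y : ℝ → E3 → E3) (Yd : ℝ → BC) : Prop where
  c0 : c t0 = 0
  cc : ContinuousOn c (Icc t0 T)
  cc' : ContinuousOn c' (Icc t0 T)
  dc : ∀ t ∈ Icc t0 T, HasDerivWithinAt c (c' t) (Icc t0 T) t
  bc : Continuous b
  hb : ∀ t ∈ Icc t0 T, b t = th R (c t) • c t
  Xc : Continuous (fun p : ℝ × E3 => X p.1 p.2)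
  Yc : Continuous (fun p : ℝ × E3 => Y p.1 p.2)
  X0 : ∀ x, X t0 x = x
  XY : ∀ t x, X t (Y t x) = x
  YX : ∀ t x, Y t (X t x) = x
  dX : ∀ t x, HasDerivAt (fun s => X s x) (fld φ (b t) (X t x)) t
  mp : ∀ t, MeasurePreserving (X t) volume volume
  fix : ∀ t x, x ∉ Ω → X t x = x
  Ydc : ContinuousOn Yd (Icc t0 T)
  Ydg : ∀ t ∈ Icc t0 T, Yd t ∈ good Ω
  XYd : ∀ t ∈ Icc t0 T, ∀ x, X t x = x + Yd t x
  eqn : ∀ t ∈ Icc t0 T, ∀ l,
    (∫ x in D, a x * ⟪fld φ (c' t) (X t x)
        + th R (c t) • fderiv ℝ (fld φ (c t)) (X t x) (fld φ (c t) (X t x))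
        - f t (X t x), φ l (X t x)⟫_ℝ)
      + th R (c t) * ∫ x, ⟪jac (fld φ (c t)) x, jac (φ l) x⟫_ℝ = 0

theorem fld_lip (hφ : ∀ k, IsTest Ω (φ k)) (M : ℝ) :
    ∃ K : ℝ≥0, ∀ b : Fin N → ℝ, ‖b‖ ≤ M → LipschitzWith K (fld φ b) := by
  have h : ∀ k, ∃ K : ℝ≥0, LipschitzWith K (φ k) := fun k => toBC_lip (hφ k)
  choose K hK using h
  refine ⟨∑ k, (Real.toNNReal M) * K k, fun b hb => ?_⟩
  refine LipschitzWith.of_dist_le_mul fun x y => ?_
  have hM : 0 ≤ M := (norm_nonneg b).trans hb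
  rw [dist_eq_norm]
  unfold fld
  rw [← Finset.sum_sub_distrib]
  refine (norm_sum_le _ _).trans ?_
  push_cast
  rw [Finset.sum_mul]
  refine Finset.sum_le_sum fun k _ => ?_
  rw [← smul_sub, norm_smul, Real.coe_toNNReal _ hM]
  have h1 : ‖b k‖ ≤ M := (norm_le_pi_norm b k).trans hb
  have h2 := (hK k).dist_le_mul x y
  rw [dist_eq_norm] at h2
  calc ‖b k‖ * ‖φ k x - φ k y‖ ≤ M * (K k * dist x y) := by gcongr
    _ = _ := by ring

theorem exists_trunc (hflow : StmFlow) (hΩ : Bornology.IsBounded Ω) (hφ : ∀ k, IsTest Ω (φ k))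
    (hli : LinearIndependent ℝ φ) {t0 T : ℝ} (hT : t0 < T) {a : E3 → ℝ} (ha : Measurable a)
    (hab : ∀ x, 1 ≤ a x ∧ a x ≤ 2) {f : ℝ → E3 → E3} (hf : BL (Icc t0 T) f) {D : Set E3}
    (hΩD : Ω ⊆ D) (hD : volume D < ⊤) {R : ℝ} (hR : 0 < R) :
    ∃ (c c' b : ℝ → Fin N → ℝ) (X Y : ℝ → E3 → E3) (Yd : ℝ → BC),
      Trunc Ω φ t0 T a f D R c c' b X Y Yd := by
  have hab' : ∀ x, |a x| ≤ 2 := fun x => by
    rw [abs_le]; constructor <;> linarith [(hab x).1, (hab x).2]
  obtain ⟨S, hS1, hS2⟩ := exists_S (I := Icc t0 T) hφ hΩD hD ha hab hli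
  have hG := BL.bGG hφ hR hf hD ha hab' hS1
  obtain ⟨α, hα0, hα⟩ := hG.ode_exists hT.le 0
  have hαc : ContinuousOn α (Icc t0 T) := fun t ht => (hα t ht).continuousWithinAt
  set c : ℝ → Fin N → ℝ := fun t => (α t).1 with hc
  set Yd : ℝ → BC := fun t => (α t).2 with hYd
  have hcc : ContinuousOn c (Icc t0 T) := continuous_fst.comp_continuousOn hαc
  have hYdc : ContinuousOn Yd (Icc t0 T) := continuous_snd.comp_continuousOn hαc
  set c' : ℝ → Fin N → ℝ := fun t => (GG R a D hφ f S t (α t)).1 with hc'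
  have hGc : ContinuousOn (fun t => GG R a D hφ f S t (α t)) (Icc t0 T) :=
    hG.continuousOn_comp α hαc
  have hc'c : ContinuousOn c' (Icc t0 T) := continuous_fst.comp_continuousOn hGc
  have hdc : ∀ t ∈ Icc t0 T, HasDerivWithinAt c (c' t) (Icc t0 T) t := fun t ht =>
    (hα t ht).fst
  have hdY : ∀ t ∈ Icc t0 T, HasDerivWithinAt Yd (GG R a D hφ f S t (α t)).2 (Icc t0 T) t :=
    fun t ht => (hα t ht).snd
  -- the field of the flow
  set b : ℝ → Fin N → ℝ := fun t => th R (c (projIcc t0 T hT.le t)) • c (projIcc t0 T hT.le t)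
    with hb
  have hcp : Continuous fun t => c (projIcc t0 T hT.le t) :=
    hcc.comp_continuous (continuous_subtype_val.comp continuous_projIcc) fun t => (projIcc t0 T hT.le t).2
  have hbc : Continuous b := by
    have h1 : Continuous (th R : (Fin N → ℝ) → ℝ) :=
      (BL.cut (N := N) (I := univ) hR).continuous (mem_univ 0)
    exact (h1.comp hcp).smul hcp
  have hbI : ∀ t ∈ Icc t0 T, b t = th R (c t) • c t := fun t ht => by
    simp only [hb]
    rw [projIcc_of_mem hT.le ht]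
  have hbM : ∀ t, ‖b t‖ ≤ 2 * R := by
    intro t
    simp only [hb]
    rw [norm_smul, Real.norm_eq_abs, abs_of_nonneg (th_nonneg _ _)]
    set v := c (projIcc t0 T hT.le t)
    rcases le_or_gt ‖v‖ (2 * R) with h | h
    · calc th R v * ‖v‖ ≤ 1 * (2 * R) := by
            have := th_le_one R v
            gcongr
        _ = _ := one_mul _
    · rw [th_eq_zero hR h.le]; simp; positivity
  obtain ⟨X, Y, hXc, hYc, hX0, hXY, hYX, hdX, hmp, hfix⟩ :=
    hflow Ω N φ hΩ hφ b hbc ⟨2 * R, hbM⟩ t0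
  -- identification
  have hXYd : ∀ t ∈ Icc t0 T, ∀ x, X t x = x + Yd t x := by
    intro t ht x
    obtain ⟨K, hK⟩ := fld_lip hφ (2 * R)
    have hsol : ∀ s ∈ Icc t0 T,
        HasDerivWithinAt (fun s => x + Yd s x) (fld φ (b s) (x + Yd s x)) (Icc t0 T) s := by
      intro s hs
      have h1 := (((BoundedContinuousFunction.evalCLM ℝ x).hasFDerivAt).comp_hasDerivWithinAt s
        (hdY s hs)).const_add x
      refine h1.congr_deriv ?_
      rw [hbI s hs]
      simp only [GG, BoundedContinuousFunction.evalCLM_apply, fld,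
        BoundedContinuousFunction.coe_sum, Finset.sum_apply,
        BoundedContinuousFunction.coe_smul, compB_apply, toBC_apply, Pi.smul_apply, smul_eq_mul]
      rfl
    have := ODE_solution_unique (v := fun s y => fld φ (b s) y) (K := K) (a := t0) (b := T)
      (f := fun s => X s x) (g := fun s => x + Yd s x) (fun s => hK _ (hbM s))
      (fun s _ => (hdX s x).continuousAt.continuousWithinAt)
      (fun s _ => (hdX s x).hasDerivWithinAt)
      (fun s hs => (hsol s hs).continuousWithinAt)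
      (fun s hs => (hsol s ⟨hs.1, hs.2.le⟩).mono_of_mem_nhdsWithin (Icc_mem_nhdsGE_of_mem hs))
      (by
        have : Yd t0 = 0 := by simp only [hYd]; rw [hα0]; rfl
        simp only [this, hX0]
        simp)
    exact this ht
  have hgood : ∀ t ∈ Icc t0 T, Yd t ∈ good Ω := by
    intro t ht
    refine ⟨?_, fun x hx => ?_⟩
    · have : (fun x => x + Yd t x) = X t := by
        funext x; exact (hXYd t ht x).symm
      rw [this]; exact hmp t
    · have h1 := hXYd t ht x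
      rw [hfix t x hx] at h1
      exact (left_eq_add.1 h1)
  refine ⟨c, c', b, X, Y, Yd, ⟨?_, hcc, hc'c, hdc, hbc, hbI, hXc, hYc, hX0, hXY, hYX, hdX, hmp,
    hfix, hYdc, hgood, hXYd, ?_⟩⟩
  · simp only [hc]; rw [hα0]; rfl
  · intro t ht l
    -- the matrix equation
    obtain ⟨lam, hl, hlam⟩ := QF_coercive hφ hli
    have hdet : (MM a D φ (Yd t)).det ≠ 0 := det_ne_zero_of_coercive hl fun v =>
      (hlam v).trans (Mg_coercive hφ hΩD hD ha hab (hgood t ht) v)
    have hc't : c' t = (MM a D φ (Yd t))⁻¹.mulVec (fun l => BB R a D φ f l t (α t)) := by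
      funext i
      simp only [hc', GG, Matrix.mulVec, dotProduct]
      refine Finset.sum_congr rfl fun l _ => ?_
      rw [hS2 _ (hgood t ht)]
    have h1 : (MM a D φ (Yd t)).mulVec (c' t) = fun l => BB R a D φ f l t (α t) := by
      rw [hc't, Matrix.mulVec_mulVec, Matrix.mul_nonsing_inv _ (isUnit_iff_ne_zero.2 hdet),
        Matrix.one_mulVec]
    have h2 : ∑ k, c' t k * Mg a D φ k l (Yd t) = BB R a D φ f l t (α t) := by
      rw [← congrFun h1 l]
      simp only [Matrix.mulVec, dotProduct, MM, Matrix.of_apply]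
      refine Finset.sum_congr rfl fun k _ => ?_
      rw [Mg_symm, mul_comm]
    have := hD
    have hfin : IsFiniteMeasure (volume.restrict D) := ⟨by simpa using hD⟩
    have hbd : ∀ k, ∃ C, ∀ x, ‖φ k x‖ ≤ C := fun k =>
      (hφ k).compact.exists_bound_of_continuous (continuous_test (hφ k))
    have hi : ∀ k l, Integrable (fun x => a x * ⟪φ k (x + Yd t x), φ l (x + Yd t x)⟫_ℝ)
        (volume.restrict D) := by
      intro k l
      obtain ⟨C, hC⟩ := hbd k
      obtain ⟨C', hC'⟩ := hbd l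
      refine Integrable.of_bound (C := 2 * (C * C')) ?_ (Eventually.of_forall fun x => ?_)
      · refine ha.aestronglyMeasurable.mul ?_
        exact (((continuous_test (hφ k)).comp (continuous_addY _)).inner
          ((continuous_test (hφ l)).comp (continuous_addY _))).aestronglyMeasurable
      · rw [norm_mul]
        have h1 : ‖a x‖ ≤ 2 := hab' x
        have h2 : ‖⟪φ k (x + Yd t x), φ l (x + Yd t x)⟫_ℝ‖ ≤ C * C' :=
          (norm_inner_le_norm _ _).trans (mul_le_mul (hC _) (hC' _) (norm_nonneg _)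
            ((norm_nonneg _).trans (hC (x + Yd t x))))
        gcongr
    have h3 : ∑ k, c' t k * Mg a D φ k l (Yd t)
        = ∫ x in D, a x * ⟪fld φ (c' t) (X t x), φ l (X t x)⟫_ℝ := by
      have : ∀ x, a x * ⟪fld φ (c' t) (X t x), φ l (X t x)⟫_ℝ
          = ∑ k, c' t k * (a x * ⟪φ k (x + Yd t x), φ l (x + Yd t x)⟫_ℝ) := by
        intro x
        rw [hXYd t ht x, fld, sum_inner, Finset.mul_sum]
        refine Finset.sum_congr rfl fun k _ => ?_
        rw [inner_smul_left]; simp; ring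
      simp_rw [this]
      rw [integral_finsetSum _ fun k _ => (hi k l).const_mul _]
      refine Finset.sum_congr rfl fun k _ => ?_
      rw [integral_const_mul]; rfl
    have hint1 : Integrable (fun x => a x * ⟪fld φ (c' t) (X t x), φ l (X t x)⟫_ℝ)
        (volume.restrict D) := by
      have : ∀ x, a x * ⟪fld φ (c' t) (X t x), φ l (X t x)⟫_ℝ
          = ∑ k, c' t k * (a x * ⟪φ k (x + Yd t x), φ l (x + Yd t x)⟫_ℝ) := by
        intro x
        rw [hXYd t ht x, fld, sum_inner, Finset.mul_sum]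
        refine Finset.sum_congr rfl fun k _ => ?_
        rw [inner_smul_left]; simp; ring
      simp_rw [this]
      exact integrable_finsetSum _ fun k _ => (hi k l).const_mul _
    have hint2 : Integrable (fun x => a x * hB R φ f l t ((α t).1, x + Yd t x))
        (volume.restrict D) := by
      obtain ⟨C, h0, hC⟩ := (BL.hBl hφ hR hf l).bd
      refine Integrable.of_bound (C := 2 * C) ?_ (Eventually.of_forall fun x => ?_)
      · refine ha.aestronglyMeasurable.mul ?_
        exact (((BL.hBl hφ hR hf l).continuous ht).comp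
          (continuous_const.prodMk (continuous_addY (Yd t)))).aestronglyMeasurable
      · rw [norm_mul]
        have h1 : ‖a x‖ ≤ 2 := hab' x
        have h2 := hC t ht ((α t).1, x + Yd t x)
        gcongr
    have h4 : (∫ x in D, a x * ⟪fld φ (c' t) (X t x)
        + th R (c t) • fderiv ℝ (fld φ (c t)) (X t x) (fld φ (c t) (X t x))
        - f t (X t x), φ l (X t x)⟫_ℝ)
        = (∫ x in D, a x * ⟪fld φ (c' t) (X t x), φ l (X t x)⟫_ℝ)
          - ∫ x in D, a x * hB R φ f l t ((α t).1, x + Yd t x) := by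
      rw [← integral_sub hint1 hint2]
      refine integral_congr_ae (Eventually.of_forall fun x => ?_)
      simp only [hB]
      rw [← hXYd t ht x, ← mul_sub, ← inner_sub_left]
      congr 2
      simp only [hc]
      abel
    rw [h4, ← h3, h2]
    simp only [BB]
    ring

end

end N979MH.GalAux
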