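import Mathlib
import Pool.Agent.N979.MH.Stm
import Pool.Agent.N979.MH.GalD

/-!
Module GAL, part E: the energy estimate.
-/

open MeasureTheory Set Filter Topology
open scoped InnerProductSpace ENNReal ContDiff NNReal BoundedContinuousFunction

set_option linter.unusedSectionVars false

namespace N979MH.GalAux

open H772R2.NS

section
variable {Ω : Set E3} {N : ℕ} {φ : Fin N → E3 → E3}

theorem fld_bound (hφ : ∀ k, IsTest Ω (φ k)) :
    ∃ C : ℝ, 0 ≤ C ∧ ∀ (c : Fin N → ℝ) x, ‖fld φ c x‖ ≤ C * ‖c‖ := by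
  have hbd : ∀ k, ∃ C, ∀ x, ‖φ k x‖ ≤ C := fun k =>
    (hφ k).compact.exists_bound_of_continuous (continuous_test (hφ k))
  choose C hC using hbd
  have h0 : ∀ k, 0 ≤ C k := fun k => (norm_nonneg _).trans (hC k 0)
  refine ⟨∑ k, C k, Finset.sum_nonneg fun k _ => h0 k, fun c x => ?_⟩
  unfold fld
  refine (norm_sum_le _ _).trans ?_
  rw [Finset.sum_mul]
  refine Finset.sum_le_sum fun k _ => ?_
  rw [norm_smul, mul_comm]
  have := hC k x
  have := norm_le_pi_norm c k
  have := h0 k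
  gcongr

theorem fderiv_fld_bound (hφ : ∀ k, IsTest Ω (φ k)) :
    ∃ C : ℝ, 0 ≤ C ∧ ∀ (c : Fin N → ℝ) x, ‖fderiv ℝ (fld φ c) x‖ ≤ C * ‖c‖ := by
  have hbd : ∀ k, ∃ C, ∀ x, ‖fderiv ℝ (φ k) x‖ ≤ C := fun k =>
    ((hφ k).compact.fderiv ℝ).exists_bound_of_continuous
      ((hφ k).smooth.continuous_fderiv (by simp))
  choose C hC using hbd
  have h0 : ∀ k, 0 ≤ C k := fun k => (norm_nonneg _).trans (hC k 0)
  refine ⟨∑ k, C k, Finset.sum_nonneg fun k _ => h0 k, fun c x => ?_⟩
  rw [fderiv_fld hφ]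
  refine (norm_sum_le _ _).trans ?_
  rw [Finset.sum_mul]
  refine Finset.sum_le_sum fun k _ => ?_
  rw [norm_smul, mul_comm]
  have := hC k x
  have := norm_le_pi_norm c k
  have := h0 k
  gcongr

theorem fld_smul (r : ℝ) (c : Fin N → ℝ) (x : E3) : fld φ (r • c) x = r • fld φ c x := by
  unfold fld
  rw [Finset.smul_sum]
  refine Finset.sum_congr rfl fun k _ => ?_
  rw [Pi.smul_apply, smul_eq_mul, mul_smul]

theorem hasDerivAt_path (hφ : ∀ k, IsTest Ω (φ k)) {c : ℝ → Fin N → ℝ} {c1 : Fin N → ℝ}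
    {y : ℝ → E3} {y1 : E3} {t : ℝ} (hc : HasDerivAt c c1 t) (hy : HasDerivAt y y1 t) :
    HasDerivAt (fun s => fld φ (c s) (y s))
      (fld φ c1 (y t) + fderiv ℝ (fld φ (c t)) (y t) y1) t := by
  unfold fld
  have h1 : ∀ k : Fin N, HasDerivAt (fun s => c s k • φ k (y s))
      (c t k • (fderiv ℝ (φ k) (y t) y1) + c1 k • φ k (y t)) t := fun k => by
    have hk : HasDerivAt (fun s => c s k) (c1 k) t := (hasDerivAt_pi.1 hc) k
    have hk2 : HasDerivAt (fun s => φ k (y s)) (fderiv ℝ (φ k) (y t) y1) t :=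
      ((differentiable_test (hφ k)) (y t)).hasFDerivAt.comp_hasDerivAt t hy
    exact hk.smul hk2
  have h2 := HasDerivAt.fun_sum (u := Finset.univ) fun k _ => h1 k
  refine h2.congr_deriv ?_
  have h3 := fderiv_fld hφ (c t) (y t)
  unfold fld at h3
  rw [h3, sum_apply, Finset.sum_add_distrib, add_comm]
  rfl

theorem continuous_fderiv_test {ψ : E3 → E3} (h : IsTest Ω ψ) : Continuous (fderiv ℝ ψ) :=
  h.smooth.continuous_fderiv (by simp)

theorem energy (hφ : ∀ k, IsTest Ω (φ k))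
    (hli : LinearIndependent ℝ φ) {t0 T : ℝ} (hT : t0 < T) {a : E3 → ℝ} (ha : Measurable a)
    (hab : ∀ x, 1 ≤ a x ∧ a x ≤ 2) {f : ℝ → E3 → E3} (hf : BL (Icc t0 T) f) {D : Set E3}
    (hΩD : Ω ⊆ D) (hD : volume D < ⊤) :
    ∃ Q : ℝ, 1 ≤ Q ∧ ∀ (R : ℝ) (c c' b : ℝ → Fin N → ℝ) (X Y : ℝ → E3 → E3) (Yd : ℝ → BC),
      Trunc Ω φ t0 T a f D R c c' b X Y Yd → ∀ t ∈ Icc t0 T, ‖c t‖ ≤ Q := by
  have hfin : IsFiniteMeasure (volume.restrict D) := ⟨by simpa using hD⟩
  have hab' : ∀ x, ‖a x‖ ≤ 2 := fun x => by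
    rw [Real.norm_eq_abs, abs_le]; constructor <;> linarith [(hab x).1, (hab x).2]
  obtain ⟨lam, hl, hlam⟩ := QF_coercive hφ hli
  obtain ⟨Cf, hCf0, hCf⟩ := hf.bd
  obtain ⟨Cp, hCp0, hCp⟩ := fld_bound hφ
  obtain ⟨Cd, hCd0, hCd⟩ := fderiv_fld_bound hφ
  set V : ℝ := (volume.restrict D).real univ with hV
  have hV0 : 0 ≤ V := measureReal_nonneg
  set C1 : ℝ := 4 * Cf * Cp * V with hC1
  have hC10 : 0 ≤ C1 := by positivity
  set K : ℝ := C1 / lam with hK
  have hK0 : 0 ≤ K := by positivity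
  refine ⟨Real.exp (K * (T - t0)), Real.one_le_exp (mul_nonneg hK0 (by linarith)), ?_⟩
  intro R c c' b X Y Yd h t ht
  -- the energy
  set E : ℝ → ℝ := fun s => ∫ x in D, a x * ‖fld φ (c s) (X s x)‖ ^ 2 with hE
  have hEq : ∀ s ∈ Icc t0 T, E s = ∑ k, ∑ l, c s k * c s l * Mg a D φ k l (Yd s) := by
    intro s hs
    rw [Mg_quad hφ hD ha hab]
    simp only [hE]
    simp_rw [h.XYd s hs]
  have hElow : ∀ s ∈ Icc t0 T, lam * ‖c s‖ ^ 2 ≤ E s := by
    intro s hs
    rw [hEq s hs]
    exact (hlam _).trans (Mg_coercive hφ hΩD hD ha hab (h.Ydg s hs) _)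
  have hEc : ContinuousOn E (Icc t0 T) := by
    have h1 : ContinuousOn (fun s => ∑ k, ∑ l, c s k * c s l * Mg a D φ k l (Yd s))
        (Icc t0 T) := by
      refine continuousOn_finsetSum _ fun k _ => continuousOn_finsetSum _ fun l _ => ?_
      have e1 : ContinuousOn (fun s => c s k) (Icc t0 T) := (continuousOn_pi.1 h.cc) k
      have e2 : ContinuousOn (fun s => c s l) (Icc t0 T) := (continuousOn_pi.1 h.cc) l
      have e3 : ContinuousOn (fun s => Mg a D φ k l (Yd s)) (Icc t0 T) :=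
        (BL.Mg (I := Icc t0 T) hφ hD ha hab' k l).continuousOn_comp Yd h.Ydc
      exact (e1.mul e2).mul e3
    exact h1.congr hEq
  -- bounds
  obtain ⟨M, hM⟩ := isCompact_Icc.exists_bound_of_continuousOn h.cc
  obtain ⟨M', hM'⟩ := isCompact_Icc.exists_bound_of_continuousOn h.cc'
  obtain ⟨Mb, hMb⟩ := isCompact_Icc.exists_bound_of_continuousOn
    (h.bc.continuousOn (s := Icc t0 T))
  have hM0 : 0 ≤ M := (norm_nonneg _).trans (hM t ht)
  have hM'0 : 0 ≤ M' := (norm_nonneg _).trans (hM' t ht)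
  have hMb0 : 0 ≤ Mb := (norm_nonneg _).trans (hMb t ht)
  have hXs : ∀ s, Continuous (X s) := fun s =>
    h.Xc.comp (continuous_const.prodMk continuous_id)
  set E' : ℝ → ℝ := fun s => ∫ x in D, a x * (2 * ⟪fld φ (c s) (X s x),
    fld φ (c' s) (X s x) + fderiv ℝ (fld φ (c s)) (X s x) (fld φ (b s) (X s x))⟫_ℝ) with hE'
  have hderiv : ∀ s ∈ Ioo t0 T, HasDerivAt E (E' s) s := by
    intro s hs
    have hsI := Ioo_subset_Icc_self hs
    refine (hasDerivAt_integral_of_dominated_loc_of_deriv_le (μ := volume.restrict D)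
      (F := fun s x => a x * ‖fld φ (c s) (X s x)‖ ^ 2)
      (F' := fun s x => a x * (2 * ⟪fld φ (c s) (X s x),
    fld φ (c' s) (X s x) + fderiv ℝ (fld φ (c s)) (X s x) (fld φ (b s) (X s x))⟫_ℝ))
      (bound := fun _ => 2 * (2 * ((Cp * M) * (Cp * M' + (Cd * M) * (Cp * Mb)))))
      (Ioo_mem_nhds hs.1 hs.2) ?_ ?_ ?_ ?_ ?_ ?_).2
    · refine Eventually.of_forall fun r => ?_
      exact ha.aestronglyMeasurable.mul
        (((continuous_test (fld_test hφ (c r))).comp (hXs r)).norm.pow 2).aestronglyMeasurable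
    · refine Integrable.of_bound (C := 2 * (Cp * M) ^ 2) (ha.aestronglyMeasurable.mul
        (((continuous_test (fld_test hφ (c s))).comp (hXs s)).norm.pow 2).aestronglyMeasurable)
        (Eventually.of_forall fun x => ?_)
      rw [norm_mul, norm_pow, norm_norm]
      have h1 := hab' x
      have h2 : ‖fld φ (c s) (X s x)‖ ≤ Cp * M :=
        (hCp _ _).trans (by have := hM s hsI; gcongr)
      gcongr
    · refine ha.aestronglyMeasurable.mul (Continuous.aestronglyMeasurable ?_)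
      refine continuous_const.mul ?_
      refine ((continuous_test (fld_test hφ (c s))).comp (hXs s)).inner ?_
      refine ((continuous_test (fld_test hφ (c' s))).comp (hXs s)).add ?_
      exact ((continuous_fderiv_test (fld_test hφ (c s))).comp (hXs s)).clm_apply
        ((continuous_test (fld_test hφ (b s))).comp (hXs s))
    · refine Eventually.of_forall fun x r hr => ?_
      have hrI := Ioo_subset_Icc_self hr
      rw [norm_mul, norm_mul]
      have h1 := hab' x
      have h2 : ‖fld φ (c r) (X r x)‖ ≤ Cp * M :=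
        (hCp _ _).trans (by have := hM r hrI; gcongr)
      have h3 : ‖fld φ (c' r) (X r x)‖ ≤ Cp * M' :=
        (hCp _ _).trans (by have := hM' r hrI; gcongr)
      have h4 : ‖fld φ (b r) (X r x)‖ ≤ Cp * Mb :=
        (hCp _ _).trans (by have := hMb r hrI; gcongr)
      have h5 : ‖fderiv ℝ (fld φ (c r)) (X r x)‖ ≤ Cd * M :=
        (hCd _ _).trans (by have := hM r hrI; gcongr)
      have h6 : ‖fderiv ℝ (fld φ (c r)) (X r x) (fld φ (b r) (X r x))‖
          ≤ (Cd * M) * (Cp * Mb) :=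
        (ContinuousLinearMap.le_opNorm _ _).trans (by gcongr)
      have h7 : ‖fld φ (c' r) (X r x) + fderiv ℝ (fld φ (c r)) (X r x) (fld φ (b r) (X r x))‖
          ≤ Cp * M' + (Cd * M) * (Cp * Mb) := (norm_add_le _ _).trans (add_le_add h3 h6)
      have h8 := (norm_inner_le_norm (𝕜 := ℝ) (fld φ (c r) (X r x)) (fld φ (c' r) (X r x)
        + fderiv ℝ (fld φ (c r)) (X r x) (fld φ (b r) (X r x)))).trans
        (mul_le_mul h2 h7 (norm_nonneg _) (by positivity))
      have h9 : ‖(2 : ℝ)‖ = 2 := by norm_num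
      rw [h9]
      gcongr
    · exact integrable_const _
    · refine Eventually.of_forall fun x r hr => ?_
      have hrI := Ioo_subset_Icc_self hr
      have h1 : HasDerivAt c (c' r) r := (h.dc r hrI).hasDerivAt (Icc_mem_nhds hr.1 hr.2)
      have h2 := hasDerivAt_path hφ h1 (h.dX r x)
      exact (h2.norm_sq).const_mul (a x)
  -- estimate of the derivative
  have hE'le : ∀ s ∈ Ioo t0 T, E' s ≤ K * (lam + E s) := by
    intro s hs
    have hsI := Ioo_subset_Icc_self hs
    set θ : ℝ := th R (c s) with hθ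
    set Vv : E3 → E3 := fun y => fld φ (c' s) y
        + θ • fderiv ℝ (fld φ (c s)) y (fld φ (c s) y) - f s y with hVv
    have hfc : Continuous (f s) := hf.continuous hsI
    have hVc : Continuous Vv := by
      refine ((continuous_test (fld_test hφ (c' s))).add ?_).sub hfc
      exact Continuous.const_smul ((continuous_fderiv_test (fld_test hφ (c s))).clm_apply
        (continuous_test (fld_test hφ (c s)))) θ
    have hVb : ∃ C, 0 ≤ C ∧ ∀ y, ‖Vv y‖ ≤ C := by
      refine ⟨Cp * ‖c' s‖ + |θ| * ((Cd * ‖c s‖) * (Cp * ‖c s‖)) + Cf, by positivity,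
        fun y => ?_⟩
      refine (norm_sub_le _ _).trans (add_le_add ((norm_add_le _ _).trans
        (add_le_add (hCp _ _) ?_)) (hCf s hsI y))
      rw [norm_smul, Real.norm_eq_abs]
      have h5 := hCd (c s) y
      have h4 := hCp (c s) y
      have := (ContinuousLinearMap.le_opNorm (fderiv ℝ (fld φ (c s)) y) (fld φ (c s) y)).trans
        (mul_le_mul h5 h4 (norm_nonneg _) (by positivity))
      gcongr
    obtain ⟨Cv, hCv0, hCv⟩ := hVb
    have hint : ∀ w : E3 → E3, Continuous w → (∃ C, ∀ y, ‖w y‖ ≤ C) →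
        ∀ u : E3 → E3, Continuous u → (∃ C, 0 ≤ C ∧ ∀ y, ‖u y‖ ≤ C) →
        Integrable (fun x => a x * ⟪u (X s x), w (X s x)⟫_ℝ) (volume.restrict D) := by
      intro w hw hwb u hu hub
      obtain ⟨C, hC⟩ := hwb
      obtain ⟨C', hC'0, hC'⟩ := hub
      refine Integrable.of_bound (C := 2 * (C' * C)) (ha.aestronglyMeasurable.mul
        ((hu.comp (hXs s)).inner (hw.comp (hXs s))).aestronglyMeasurable)
        (Eventually.of_forall fun x => ?_)
      rw [norm_mul]
      have h1 := hab' x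
      have h2 := (norm_inner_le_norm (𝕜 := ℝ) (u (X s x)) (w (X s x))).trans
        (mul_le_mul (hC' _) (hC _) (norm_nonneg _) hC'0)
      gcongr
    have hφb : ∀ l, ∃ C, ∀ y, ‖φ l y‖ ≤ C := fun l =>
      (hφ l).compact.exists_bound_of_continuous (continuous_test (hφ l))
    have hcb : ∃ C, ∀ y, ‖fld φ (c s) y‖ ≤ C := ⟨_, fun y => hCp (c s) y⟩
    -- tested equation
    have htest : (∫ x in D, a x * ⟪Vv (X s x), fld φ (c s) (X s x)⟫_ℝ)
        = - (θ * ∫ x, ⟪jac (fld φ (c s)) x, jac (fld φ (c s)) x⟫_ℝ) := by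
      have e1 : (∫ x in D, a x * ⟪Vv (X s x), fld φ (c s) (X s x)⟫_ℝ)
          = ∑ l, c s l * ∫ x in D, a x * ⟪Vv (X s x), φ l (X s x)⟫_ℝ := by
        have : ∀ x, a x * ⟪Vv (X s x), fld φ (c s) (X s x)⟫_ℝ
            = ∑ l, c s l * (a x * ⟪Vv (X s x), φ l (X s x)⟫_ℝ) := by
          intro x
          rw [fld, inner_sum, Finset.mul_sum]
          refine Finset.sum_congr rfl fun l _ => ?_
          rw [inner_smul_right]; ring
        simp_rw [this]
        rw [integral_finsetSum _ fun l _ => (hint (φ l) (continuous_test (hφ l)) (hφb l) Vv hVc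
          ⟨Cv, hCv0, hCv⟩).const_mul _]
        refine Finset.sum_congr rfl fun l _ => ?_
        rw [integral_const_mul]
      have e2 : ∫ x, ⟪jac (fld φ (c s)) x, jac (fld φ (c s)) x⟫_ℝ
          = ∑ l, c s l * ∫ x, ⟪jac (fld φ (c s)) x, jac (φ l) x⟫_ℝ := by
        rw [integral_jac_fld hφ _ (fld_test hφ (c s))]
        refine Finset.sum_congr rfl fun l _ => ?_
        simp_rw [real_inner_comm (jac (φ l) _)]
      rw [e1, e2, Finset.mul_sum, ← Finset.sum_neg_distrib]
      refine Finset.sum_congr rfl fun l _ => ?_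
      have := h.eqn s hsI l
      have e3 : (∫ x in D, a x * ⟪Vv (X s x), φ l (X s x)⟫_ℝ)
        = - (θ * ∫ x, ⟪jac (fld φ (c s)) x, jac (φ l) x⟫_ℝ) := by
        rw [eq_neg_iff_add_eq_zero]
        exact this
      rw [e3]; ring
    have hsplit : E' s = 2 * (∫ x in D, a x * ⟪Vv (X s x), fld φ (c s) (X s x)⟫_ℝ)
        + 2 * (∫ x in D, a x * ⟪f s (X s x), fld φ (c s) (X s x)⟫_ℝ) := by
      rw [← integral_const_mul, ← integral_const_mul, ← integral_add]
      · simp only [hE']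
        refine integral_congr_ae (Eventually.of_forall fun x => ?_)
        simp only [hVv]
        rw [h.hb s hsI, fld_smul, map_smul, real_inner_comm, inner_sub_left]
        ring
      · exact (hint _ (continuous_test (fld_test hφ (c s))) hcb Vv hVc
          ⟨Cv, hCv0, hCv⟩).const_mul _
      · exact (hint _ (continuous_test (fld_test hφ (c s))) hcb (f s) hfc
          ⟨Cf, hCf0, hCf s hsI⟩).const_mul _
    have hjac : 0 ≤ ∫ x, ⟪jac (fld φ (c s)) x, jac (fld φ (c s)) x⟫_ℝ :=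
      integral_nonneg fun x => real_inner_self_nonneg
    have hforce : (∫ x in D, a x * ⟪f s (X s x), fld φ (c s) (X s x)⟫_ℝ)
        ≤ 2 * (Cf * (Cp * ‖c s‖)) * V := by
      have := norm_integral_le_of_norm_le_const (μ := volume.restrict D)
        (f := fun x => a x * ⟪f s (X s x), fld φ (c s) (X s x)⟫_ℝ)
        (C := 2 * (Cf * (Cp * ‖c s‖))) (Eventually.of_forall fun x => by
          rw [norm_mul]
          have h1 := hab' x
          have h2 := (norm_inner_le_norm (𝕜 := ℝ) (f s (X s x)) (fld φ (c s) (X s x))).trans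
            (mul_le_mul (hCf s hsI _) (hCp _ _) (norm_nonneg _) hCf0)
          gcongr)
      exact (le_abs_self _).trans this
    have hθ0 : 0 ≤ θ := th_nonneg _ _
    have hlow := hElow s hsI
    have h1 : E' s ≤ C1 * ‖c s‖ := by
      rw [hsplit, htest]
      have : 0 ≤ θ * ∫ x, ⟪jac (fld φ (c s)) x, jac (fld φ (c s)) x⟫_ℝ :=
        mul_nonneg hθ0 hjac
      calc _ ≤ 2 * (2 * (Cf * (Cp * ‖c s‖)) * V) := by linarith
        _ = C1 * ‖c s‖ := by rw [hC1]; ring
    have h2 : ‖c s‖ ≤ 1 + ‖c s‖ ^ 2 := by nlinarith [sq_nonneg (‖c s‖ - 1), norm_nonneg (c s)]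
    have h3 : ‖c s‖ ^ 2 ≤ E s / lam := by
      rw [le_div_iff₀ hl]; linarith
    calc E' s ≤ C1 * ‖c s‖ := h1
      _ ≤ C1 * (1 + E s / lam) := by
        have : ‖c s‖ ≤ 1 + E s / lam := by linarith
        gcongr
      _ = K * (lam + E s) := by rw [hK]; field_simp
  -- Gronwall
  have hgr : AntitoneOn (fun s => (E s + lam) * Real.exp (-(K * (s - t0)))) (Icc t0 T) := by
    have hd : ∀ s ∈ Ioo t0 T, HasDerivAt (fun s => (E s + lam) * Real.exp (-(K * (s - t0))))
        (E' s * Real.exp (-(K * (s - t0)))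
          + (E s + lam) * (Real.exp (-(K * (s - t0))) * (-(K * 1)))) s := by
      intro s hs
      refine ((hderiv s hs).add_const lam).mul ?_
      exact ((((hasDerivAt_id s).sub_const t0).const_mul K).neg).exp
    refine antitoneOn_of_deriv_nonpos (convex_Icc t0 T) ?_ ?_ ?_
    · exact (hEc.add continuousOn_const).mul (by fun_prop)
    · rw [interior_Icc]
      intro s hs
      exact (hd s hs).differentiableAt.differentiableWithinAt
    · rw [interior_Icc]
      intro s hs
      rw [(hd s hs).deriv]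
      have h1 := hE'le s hs
      have h2 := Real.exp_pos (-(K * (s - t0)))
      nlinarith
  have h1 := hgr (left_mem_Icc.2 hT.le) ht ht.1
  simp only [sub_self, mul_zero, neg_zero, Real.exp_zero, mul_one] at h1
  have hE0 : E t0 = 0 := by
    rw [hEq t0 (left_mem_Icc.2 hT.le), h.c0]; simp
  rw [hE0, zero_add] at h1
  have h2 : E t + lam ≤ lam * Real.exp (K * (t - t0)) := by
    have h3 : Real.exp (-(K * (t - t0))) * Real.exp (K * (t - t0)) = 1 := by
      rw [← Real.exp_add]; simp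
    calc E t + lam = ((E t + lam) * Real.exp (-(K * (t - t0)))) * Real.exp (K * (t - t0)) := by
          rw [mul_assoc, h3, mul_one]
      _ ≤ lam * Real.exp (K * (t - t0)) := by gcongr
  have h3 : Real.exp (K * (t - t0)) ≤ Real.exp (K * (T - t0)) := by
    apply Real.exp_le_exp.2
    have := ht.2
    gcongr
  have h4 := hElow t ht
  set Q := Real.exp (K * (T - t0))
  have hQ1 : 1 ≤ Q := Real.one_le_exp (mul_nonneg hK0 (by linarith))
  have h5 : lam * ‖c t‖ ^ 2 ≤ lam * Q := by nlinarith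
  have h6 : ‖c t‖ ^ 2 ≤ Q := le_of_mul_le_mul_left h5 hl
  by_contra hcon
  push Not at hcon
  nlinarith [norm_nonneg (c t)]

end

end N979MH.GalAux
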