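import Mathlib
import Pool.Agent.N979.MH.Stm
import Pool.Agent.N979.MH.GalE

/-!
Module GAL: existence of Galerkin solutions.
-/

open MeasureTheory Set Filter Topology
open scoped InnerProductSpace ENNReal ContDiff NNReal BoundedContinuousFunction

namespace N979MH

open H772R2.NS GalAux

theorem gal_holds (hflow : StmFlow) : StmGal := by
  intro Ω N φ hΩ hφ hli t0 T a f L hT ha hab hfl hfb hfc
  obtain ⟨ρ, hρ⟩ := hΩ.subset_closedBall 0
  set D : Set E3 := Metric.closedBall 0 ρ with hDdef
  have hD : volume D < ⊤ := measure_closedBall_lt_top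
  have hL0 : 0 ≤ L := (norm_nonneg _).trans (hfb t0 (left_mem_Icc.2 hT.le) 0)
  have hf : BL (Icc t0 T) f :=
    ⟨⟨L, hL0, hfb⟩, ⟨L, hL0, fun s hs x y => by rw [dist_eq_norm]; exact hfl s hs x y⟩, hfc⟩
  obtain ⟨Q, hQ1, hQ⟩ := energy hφ hli hT ha hab hf hρ hD
  have hQ0 : 0 < Q := by linarith
  obtain ⟨c, c', b, X, Y, Yd, h⟩ := exists_trunc hflow hΩ hφ hli hT ha hab hf hρ hD hQ0
  have hc := hQ Q c c' b X Y Yd h
  have hth : ∀ t ∈ Icc t0 T, th Q (c t) = 1 := fun t ht => th_eq_one hQ0 (hc t ht)
  have hb : ∀ t ∈ Icc t0 T, b t = c t := fun t ht => by rw [h.hb t ht, hth t ht, one_smul]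
  have hp : Continuous fun t : ℝ => ((projIcc t0 T hT.le t : Icc t0 T) : ℝ) :=
    continuous_subtype_val.comp continuous_projIcc
  have hpI : ∀ t ∈ Icc t0 T, ((projIcc t0 T hT.le t : Icc t0 T) : ℝ) = t := fun t ht => by
    rw [projIcc_of_mem hT.le ht]
  have hp0 : ∀ t ≤ t0, ((projIcc t0 T hT.le t : Icc t0 T) : ℝ) = t0 := fun t ht => by
    rw [projIcc_of_le_left hT.le ht]
  refine ⟨fun t => c (projIcc t0 T hT.le t), fun t => c' (projIcc t0 T hT.le t),
    fun t => X (projIcc t0 T hT.le t), fun t => Y (projIcc t0 T hT.le t), ?_⟩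
  refine
    { cc := h.cc.comp_continuous hp fun t => (projIcc t0 T hT.le t).2
      cc' := h.cc'.comp_continuous hp fun t => (projIcc t0 T hT.le t).2
      dc := ?_
      c0 := ?_
      Xc := h.Xc.comp ((hp.comp continuous_fst).prodMk continuous_snd)
      Yc := h.Yc.comp ((hp.comp continuous_fst).prodMk continuous_snd)
      X0 := ?_
      XY := fun t x => h.XY _ x
      YX := fun t x => h.YX _ x
      dX := ?_
      mp := fun t => h.mp _
      fix := ?_
      eqn := ?_ }
  · intro t ht
    simp only [hpI t ht]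
    exact (h.dc t ht).congr (fun s hs => by simp only [hpI s hs]) (by simp only [hpI t ht])
  · intro t ht
    simp only [hp0 t ht]
    exact h.c0
  · intro t ht x
    simp only [hp0 t ht]
    exact h.X0 x
  · intro t ht x
    simp only [hpI t ht]
    have h1 := (h.dX t x).hasDerivWithinAt (s := Icc t0 T)
    rw [hb t ht] at h1
    exact h1.congr (fun s hs => by simp only [hpI s hs]) (by simp only [hpI t ht])
  · intro x hx t
    obtain ⟨B, hB⟩ := isCompact_Icc.exists_bound_of_continuousOn
      (h.bc.continuousOn (s := Icc t0 T))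
    obtain ⟨K, hK⟩ := fld_lip hφ B
    have h0 : ∀ v : Fin N → ℝ, fld φ v x = 0 := fun v => by
      unfold fld
      exact Finset.sum_eq_zero fun k _ => by rw [hx k, smul_zero]
    have := ODE_solution_unique_of_mem_Icc_right (v := fun s y => fld φ (b s) y) (K := K)
      (s := fun _ => univ) (a := t0) (b := T) (f := fun s => X s x) (g := fun _ => x)
      (fun s hs => (hK _ (hB s ⟨hs.1, hs.2.le⟩)).lipschitzOnWith)
      (fun s _ => (h.dX s x).continuousAt.continuousWithinAt)
      (fun s _ => (h.dX s x).hasDerivWithinAt)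
      (fun s _ => mem_univ _)
      continuousOn_const
      (fun s _ => by
        rw [h0]
        exact (hasDerivAt_const s x).hasDerivWithinAt)
      (fun s _ => mem_univ _)
      (h.X0 x)
    exact this (projIcc t0 T hT.le t).2
  · intro t ht l
    simp only [hpI t ht]
    have h1 := h.eqn t ht l
    rw [hth t ht] at h1
    simp only [one_smul, one_mul] at h1
    rw [← h1]
    congr 1
    symm
    refine setIntegral_eq_integral_of_forall_compl_eq_zero fun x hx => ?_
    have hx' : x ∉ Ω := fun h' => hx (hρ h')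
    have h2 : φ l (X t x) = 0 := by
      rw [h.fix t x hx']
      exact image_eq_zero_of_notMem_tsupport fun h' => hx' ((hφ l).supp h')
    rw [h2, inner_zero_right, mul_zero]

end N979MH
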