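import Mathlib
import Pool.Agent.H772R2.NS.Space1
import Pool.Agent.N979.MH.Stm

/-!
Module I1: averaging over rotations (rapidly oscillating stripes).
-/

open MeasureTheory Set Filter Topology
open scoped InnerProductSpace ENNReal ContDiff

namespace N979MH

open H772R2.NS

namespace I1

/-! ### Rotations -/

/-- rotation by the angle `s` about the third axis. -/
noncomputable def rot (s : ℝ) (x : E3) : E3 :=
  WithLp.toLp 2 ![Real.cos s * x 0 - Real.sin s * x 1, Real.sin s * x 0 + Real.cos s * x 1, x 2]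

theorem rot0 (s : ℝ) (x : E3) : rot s x 0 = Real.cos s * x 0 - Real.sin s * x 1 := rfl
theorem rot1 (s : ℝ) (x : E3) : rot s x 1 = Real.sin s * x 0 + Real.cos s * x 1 := rfl
theorem rot2 (s : ℝ) (x : E3) : rot s x 2 = x 2 := rfl

theorem lam0 (x : E3) : lam x 0 = -x 1 := rfl
theorem lam1 (x : E3) : lam x 1 = x 0 := rfl
theorem lam2 (x : E3) : lam x 2 = 0 := rfl

theorem ext3 {x y : E3} (h0 : x 0 = y 0) (h1 : x 1 = y 1) (h2 : x 2 = y 2) : x = y := by
  ext i; fin_cases i <;> simpa

theorem norm_sq3 (x : E3) : ‖x‖ ^ 2 = x 0 ^ 2 + x 1 ^ 2 + x 2 ^ 2 := by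
  rw [EuclideanSpace.norm_sq_eq, Fin.sum_univ_three]; simp

theorem rot_norm (s : ℝ) (x : E3) : ‖rot s x‖ = ‖x‖ := by
  have h : ‖rot s x‖ ^ 2 = ‖x‖ ^ 2 := by
    rw [norm_sq3, norm_sq3, rot0, rot1, rot2]
    nlinarith [Real.sin_sq_add_cos_sq s]
  exact (sq_eq_sq₀ (norm_nonneg _) (norm_nonneg _)).1 h

theorem rot_neg_rot (s : ℝ) (x : E3) : rot (-s) (rot s x) = x := by
  have h := Real.sin_sq_add_cos_sq s
  apply ext3
  · rw [rot0, rot0, rot1, Real.cos_neg, Real.sin_neg]
    linear_combination (x 0) * h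
  · rw [rot1, rot0, rot1, Real.cos_neg, Real.sin_neg]
    linear_combination (x 1) * h
  · rw [rot2, rot2]

theorem rot_zero (x : E3) : rot 0 x = x := by
  apply ext3
  · rw [rot0]; simp
  · rw [rot1]; simp
  · rw [rot2]

/-- the rotation as a linear isometry. -/
noncomputable def rotE (s : ℝ) : E3 ≃ₗᵢ[ℝ] E3 where
  toFun := rot s
  invFun := rot (-s)
  map_add' x y := by
    apply ext3
    · simp only [PiLp.add_apply, rot0]; ring
    · simp only [PiLp.add_apply, rot1]; ring
    · simp only [PiLp.add_apply, rot2]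
  map_smul' c x := by
    apply ext3
    · simp only [PiLp.smul_apply, rot0, smul_eq_mul, RingHom.id_apply]; ring
    · simp only [PiLp.smul_apply, rot1, smul_eq_mul, RingHom.id_apply]; ring
    · simp only [PiLp.smul_apply, rot2, smul_eq_mul, RingHom.id_apply]
  left_inv x := rot_neg_rot s x
  right_inv x := by
    have := rot_neg_rot (-s) x
    rwa [neg_neg] at this
  norm_map' x := rot_norm s x

theorem integral_rot {G : Type*} [NormedAddCommGroup G] [NormedSpace ℝ G] (s : ℝ) (F : E3 → G) :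
    ∫ x, F (rot s x) = ∫ x, F x :=
  (rotE s).measurePreserving.integral_comp (rotE s).toHomeomorph.measurableEmbedding F

theorem zc_rot (s : ℝ) (x : E3) : zc (rot s x) = Complex.exp (s * Complex.I) * zc x := by
  rw [Complex.exp_mul_I]
  apply Complex.ext
  · simp [zc, rot0, Complex.mul_re, Complex.cos_ofReal_re, Complex.sin_ofReal_re]
  · simp [zc, rot1, Complex.mul_im, Complex.cos_ofReal_re, Complex.sin_ofReal_re]; ring

theorem uz_rot (s : ℝ) (x : E3) : uz (rot s x) = Complex.exp (s * Complex.I) * uz x := by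
  unfold uz
  rw [zc_rot, norm_mul, Complex.norm_exp_ofReal_mul_I, one_mul, mul_div_assoc]

theorem continuous_rot : Continuous (fun p : ℝ × E3 => rot p.1 p.2) := by
  unfold rot
  refine (PiLp.continuous_toLp 2 _).comp ?_
  refine continuous_pi fun i => ?_
  fin_cases i
  · simp only [Fin.zero_eta, Fin.isValue, Matrix.cons_val_zero]; fun_prop
  · simp only [Fin.mk_one, Fin.isValue, Matrix.cons_val_one, Matrix.cons_val_zero]; fun_prop
  · simp only [Fin.reduceFinMk, Fin.isValue, Matrix.cons_val]; fun_prop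

theorem norm_lam_le (x : E3) : ‖lam x‖ ≤ ‖x‖ := by
  have h : ‖lam x‖ ^ 2 ≤ ‖x‖ ^ 2 := by
    rw [norm_sq3, norm_sq3, lam0, lam1, lam2]
    nlinarith [sq_nonneg (x 2)]
  exact (sq_le_sq₀ (norm_nonneg _) (norm_nonneg _)).1 h

/-- `lam` as a linear map. -/
noncomputable def lamL : E3 →ₗ[ℝ] E3 where
  toFun := lam
  map_add' x y := by
    apply ext3
    · simp only [PiLp.add_apply, lam0]; ring
    · simp only [PiLp.add_apply, lam1]
    · simp only [PiLp.add_apply, lam2]; ring
  map_smul' c x := by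
    apply ext3
    · simp only [PiLp.smul_apply, lam0, smul_eq_mul, RingHom.id_apply]; ring
    · simp only [PiLp.smul_apply, lam1, smul_eq_mul, RingHom.id_apply]
    · simp only [PiLp.smul_apply, lam2, smul_eq_mul, RingHom.id_apply]; ring

/-- `lam` as a continuous linear map. -/
noncomputable def lamC : E3 →L[ℝ] E3 := lamL.mkContinuous 1 (fun x => by
  rw [one_mul]; exact norm_lam_le x)

theorem lamC_apply (x : E3) : lamC x = lam x := rfl

theorem continuous_lam : Continuous lam := lamC.continuous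

theorem rot_eq (s : ℝ) (x : E3) : rot s x =
    Real.cos s • (WithLp.toLp 2 ![x 0, x 1, 0] : E3) + Real.sin s • lam x
      + (WithLp.toLp 2 ![0, 0, x 2] : E3) := by
  apply ext3
  · simp only [PiLp.add_apply, PiLp.smul_apply, rot0, lam0, smul_eq_mul]; simp; ring
  · simp only [PiLp.add_apply, PiLp.smul_apply, rot1, lam1, smul_eq_mul]; simp; ring
  · simp only [PiLp.add_apply, PiLp.smul_apply, rot2, lam2, smul_eq_mul]; simp

theorem hasDerivAt_rot (s : ℝ) (x : E3) :
    HasDerivAt (fun s => rot s x) (lam (rot s x)) s := by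
  have h : HasDerivAt (fun s => Real.cos s • (WithLp.toLp 2 ![x 0, x 1, 0] : E3)
      + Real.sin s • lam x + (WithLp.toLp 2 ![0, 0, x 2] : E3))
      ((-Real.sin s) • (WithLp.toLp 2 ![x 0, x 1, 0] : E3) + Real.cos s • lam x) s := by
    have h1 := (Real.hasDerivAt_cos s).smul_const (WithLp.toLp 2 ![x 0, x 1, 0] : E3)
    have h2 := (Real.hasDerivAt_sin s).smul_const (lam x)
    simpa using (h1.add h2).add_const (WithLp.toLp 2 ![0, 0, x 2] : E3)
  have e : (fun s => rot s x) = fun s => Real.cos s • (WithLp.toLp 2 ![x 0, x 1, 0] : E3)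
      + Real.sin s • lam x + (WithLp.toLp 2 ![0, 0, x 2] : E3) := by
    funext s; exact rot_eq s x
  rw [e]
  convert h using 1
  apply ext3
  · simp only [PiLp.add_apply, PiLp.smul_apply, rot1, lam0, smul_eq_mul]; simp; ring
  · simp only [PiLp.add_apply, PiLp.smul_apply, rot0, lam1, smul_eq_mul]; simp; ring
  · simp only [PiLp.add_apply, PiLp.smul_apply, lam2, smul_eq_mul]; simp

/-! ### The oscillating factor -/

/-- `fs`, `bs` and `g` as a function of `w = uz x ^ k`. -/
noncomputable def Bf (σ : ℝ) (w : ℂ) : ℝ :=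
  (if 0 < σ * w.im then (2 : ℝ) else 1) * (Gm⁻¹ * Gf w.im) - σ

theorem gc_pos : 0 < gc := by
  unfold gc
  apply Real.cos_pos_of_mem_Ioo
  constructor <;> linarith [Real.pi_pos]

theorem Gf_abs_le (y : ℝ) : |Gf y| ≤ |y| := by
  have h := gc_pos
  unfold Gf
  rcases le_total 0 y with h0 | h0
  · rw [min_eq_right (by linarith), add_zero, abs_of_nonneg h0, abs_of_nonneg (le_max_right _ _)]
    exact max_le (by linarith) h0
  · rw [max_eq_right (by linarith), zero_add, abs_of_nonpos h0, abs_of_nonpos (min_le_right _ _),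
      neg_le_neg_iff]
    exact le_min (by linarith) h0

theorem measurable_Gf : Measurable Gf := by
  unfold Gf; fun_prop

theorem continuous_Gf : Continuous Gf := by
  unfold Gf; fun_prop

theorem measurable_Bf (σ : ℝ) : Measurable (Bf σ) := by
  unfold Bf
  refine Measurable.sub (Measurable.mul (Measurable.ite ?_ measurable_const measurable_const) ?_)
    measurable_const
  · exact measurableSet_lt measurable_const (Complex.measurable_im.const_mul σ)
  · exact (measurable_Gf.comp Complex.measurable_im).const_mul _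

theorem Bf_abs_le (hG : 0 < Gm) {σ : ℝ} (hσ : σ = 1 ∨ σ = -1) {w : ℂ} (hw : ‖w‖ ≤ 1) :
    |Bf σ w| ≤ 2 * Gm⁻¹ + 1 := by
  have h1 : |w.im| ≤ 1 := (Complex.abs_im_le_norm w).trans hw
  have h2 : |Gf w.im| ≤ 1 := (Gf_abs_le _).trans h1
  have h3 : |σ| = 1 := by rcases hσ with h | h <;> simp [h]
  have h4 : |(if 0 < σ * w.im then (2 : ℝ) else 1)| ≤ 2 := by split_ifs <;> norm_num
  have hG' : 0 < Gm⁻¹ := inv_pos.2 hG
  unfold Bf
  calc |(if 0 < σ * w.im then (2 : ℝ) else 1) * (Gm⁻¹ * Gf w.im) - σ|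
      ≤ |(if 0 < σ * w.im then (2 : ℝ) else 1) * (Gm⁻¹ * Gf w.im)| + |σ| := abs_sub _ _
    _ = |(if 0 < σ * w.im then (2 : ℝ) else 1)| * (Gm⁻¹ * |Gf w.im|) + 1 := by
        rw [abs_mul, abs_mul, abs_of_pos hG', h3]
    _ ≤ 2 * (Gm⁻¹ * 1) + 1 := by gcongr
    _ = 2 * Gm⁻¹ + 1 := by ring

/-- the factor in the direction `exp (i y)`. -/
noncomputable def bb (σ y : ℝ) : ℝ := Bf σ (Complex.exp (y * Complex.I))

theorem bb_eq (σ y : ℝ) : bb σ y =
    (if 0 < σ * Real.sin y then (2 : ℝ) else 1) * (Gm⁻¹ * Gf (Real.sin y)) - σ := by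
  unfold bb Bf
  rw [Complex.exp_ofReal_mul_I_im]

theorem bb_periodic (σ : ℝ) : Function.Periodic (bb σ) (2 * Real.pi) := by
  intro y
  rw [bb_eq, bb_eq, Real.sin_add_two_pi]

theorem int_plus : ∫ θ in (0 : ℝ)..(2 * Real.pi), max (Real.sin θ - gc) 0 = 2 * Real.pi * Gm := by
  unfold Gm
  field_simp

theorem int_minus : ∫ θ in (0 : ℝ)..(2 * Real.pi), min (Real.sin θ + gc) 0
    = - (2 * Real.pi * Gm) := by
  rw [← int_plus]
  have hp : Function.Periodic (fun θ => max (Real.sin θ - gc) 0) (2 * Real.pi) := by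
    intro y; simp only [Real.sin_add_two_pi]
  have h1 : ∫ θ in (0 : ℝ)..(2 * Real.pi), max (Real.sin θ - gc) 0
      = ∫ θ in (Real.pi)..(Real.pi + 2 * Real.pi), max (Real.sin θ - gc) 0 := by
    have := hp.intervalIntegral_add_eq 0 Real.pi
    rwa [zero_add] at this
  have h2 : ∫ θ in (0 : ℝ)..(2 * Real.pi), max (Real.sin (θ + Real.pi) - gc) 0
      = ∫ θ in (Real.pi)..(Real.pi + 2 * Real.pi), max (Real.sin θ - gc) 0 := by
    rw [intervalIntegral.integral_comp_add_right (fun θ => max (Real.sin θ - gc) 0)]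
    rw [zero_add, add_comm]
  rw [h1, ← h2, ← intervalIntegral.integral_neg]
  congr 1
  funext θ
  rw [Real.sin_add_pi, ← min_neg_neg]
  congr 1 <;> ring

theorem mean_bb (hG : 0 < Gm) {σ : ℝ} (hσ : σ = 1 ∨ σ = -1) :
    ∫ y in (0 : ℝ)..(2 * Real.pi), bb σ y = 0 := by
  have hgc := gc_pos
  have i1 : IntervalIntegrable (fun θ => max (Real.sin θ - gc) 0) volume 0 (2 * Real.pi) :=
    Continuous.intervalIntegrable (by fun_prop) _ _
  have i2 : IntervalIntegrable (fun θ => min (Real.sin θ + gc) 0) volume 0 (2 * Real.pi) :=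
    Continuous.intervalIntegrable (by fun_prop) _ _
  rcases hσ with h | h
  · subst h
    have e : (bb 1) = fun y => Gm⁻¹ * (2 * max (Real.sin y - gc) 0 + min (Real.sin y + gc) 0) - 1 := by
      funext y
      rw [bb_eq, one_mul]
      unfold Gf
      split_ifs with h0
      · rw [min_eq_right (by linarith : (0:ℝ) ≤ Real.sin y + gc)]; ring
      · rw [max_eq_right (by linarith : Real.sin y - gc ≤ 0)]; ring
    rw [e, intervalIntegral.integral_sub, intervalIntegral.integral_const_mul,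
      intervalIntegral.integral_add, intervalIntegral.integral_const_mul, int_plus, int_minus,
      intervalIntegral.integral_const]
    · simp only [smul_eq_mul]; field_simp; ring
    · exact i1.const_mul 2
    · exact i2
    · exact ((i1.const_mul 2).add i2).const_mul _
    · exact intervalIntegrable_const
  · subst h
    have e : (bb (-1)) = fun y => Gm⁻¹ * (max (Real.sin y - gc) 0 + 2 * min (Real.sin y + gc) 0) + 1 := by
      funext y
      rw [bb_eq]
      unfold Gf
      split_ifs with h0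
      · rw [max_eq_right (by linarith : Real.sin y - gc ≤ 0)]; ring
      · rw [min_eq_right (by linarith : (0:ℝ) ≤ Real.sin y + gc)]; ring
    rw [e, intervalIntegral.integral_add, intervalIntegral.integral_const_mul,
      intervalIntegral.integral_add, intervalIntegral.integral_const_mul, int_plus, int_minus,
      intervalIntegral.integral_const]
    · simp only [smul_eq_mul]; field_simp; ring
    · exact i1
    · exact i2.const_mul 2
    · exact (i1.add (i2.const_mul 2)).const_mul _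
    · exact intervalIntegrable_const

/-- averages over one period of the oscillation vanish. -/
theorem mean_Bf (hG : 0 < Gm) {σ : ℝ} (hσ : σ = 1 ∨ σ = -1) {k : ℕ} (hk : 0 < k) {u : ℂ}
    (hu : ‖u‖ = 1) :
    ∫ s in (0 : ℝ)..(2 * Real.pi / k), Bf σ ((Complex.exp (s * Complex.I) * u) ^ k) = 0 := by
  have hk' : (k : ℝ) ≠ 0 := by exact_mod_cast hk.ne'
  obtain ⟨θ, hθ⟩ : ∃ θ : ℝ, u = Complex.exp (θ * Complex.I) :=
    ⟨Complex.arg u, by
      have := Complex.norm_mul_exp_arg_mul_I u
      rw [hu] at this; simpa using this.symm⟩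
  have e : ∀ s : ℝ, Bf σ ((Complex.exp (s * Complex.I) * u) ^ k) = bb σ (k * s + k * θ) := by
    intro s
    unfold bb
    rw [hθ, ← Complex.exp_add, ← Complex.exp_nat_mul]
    congr 2
    push_cast; ring
  simp_rw [e]
  have h1 := intervalIntegral.integral_comp_mul_add (a := 0) (b := 2 * Real.pi / k) (bb σ) hk'
    (k * θ)
  rw [h1]
  have h2 : (k : ℝ) * (2 * Real.pi / k) + k * θ = k * θ + 2 * Real.pi := by
    field_simp; ring
  rw [h2, mul_zero, zero_add, (bb_periodic σ).intervalIntegral_add_eq (k * θ) 0, zero_add,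
    mean_bb hG hσ, smul_zero]

/-! ### The smooth factor -/

/-- radial factor of `g`. -/
noncomputable def cf (P : Par) (j : ℕ) (x : E3) : ℝ := (P.r j ^ 5)⁻¹ * hh (‖x‖ ^ 2 / P.r j ^ 2)

/-- `⟪g, w⟫`. -/
noncomputable def af (P : Par) (j : ℕ) (w : E3 → E3) (x : E3) : ℝ := ⟪P.g j x, w x⟫_ℝ

/-- majorant of the derivative of `⟪g, w⟫` along rotations. -/
noncomputable def mf (P : Par) (j : ℕ) (w : E3 → E3) (x : E3) : ℝ :=
  cf P j x * (‖x‖ * ‖w x‖ + ‖x‖ ^ 2 * ‖fderiv ℝ w x‖)

theorem r_pos (P : Par) (j : ℕ) : 0 < P.r j := by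
  unfold Par.r
  have := P.hr
  positivity

theorem k_pos (P : Par) (j : ℕ) : 0 < P.k j := by
  unfold Par.k
  have := P.hk
  positivity

theorem cf_rot (P : Par) (j : ℕ) (s : ℝ) (x : E3) : cf P j (rot s x) = cf P j x := by
  unfold cf; rw [rot_norm]

theorem af_eq (P : Par) (j : ℕ) (w : E3 → E3) (x : E3) :
    af P j w x = cf P j x * ⟪lam x, w x⟫_ℝ := by
  unfold af Par.g cf
  rw [real_inner_smul_left]

theorem cf_nonneg (h : StmProf) (P : Par) (j : ℕ) (x : E3) : 0 ≤ cf P j x := by
  have := h.2.2.2.2.2.2.2.2.2.2.2.2.1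
  unfold cf
  have := r_pos P j
  have := ‹∀ v, 0 ≤ hh v› (‖x‖ ^ 2 / P.r j ^ 2)
  positivity

theorem norm_le_of_cf (h : StmProf) (P : Par) (j : ℕ) (x : E3) (hx : cf P j x ≠ 0) :
    ‖x‖ ≤ 2 * P.r j := by
  have h1 := h.2.2.2.2.2.2.2.2.2.2.2.2.2.1
  have hr := r_pos P j
  have h2 : hh (‖x‖ ^ 2 / P.r j ^ 2) ≠ 0 := fun h0 => hx (by unfold cf; rw [h0, mul_zero])
  have h3 := (h1 _ h2).2
  rw [div_lt_iff₀ (by positivity)] at h3
  nlinarith [norm_nonneg x]

theorem continuous_cf (h : StmProf) (P : Par) (j : ℕ) : Continuous (cf P j) := by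
  have h1 : Continuous hh := h.2.2.1.continuous
  unfold cf
  exact continuous_const.mul (h1.comp (by fun_prop))

theorem continuous_af (h : StmProf) (P : Par) (j : ℕ) {w : E3 → E3} (hw : Continuous w) :
    Continuous (af P j w) := by
  have e : af P j w = fun x => cf P j x * ⟪lam x, w x⟫_ℝ := funext (af_eq P j w)
  rw [e]
  exact (continuous_cf h P j).mul (continuous_lam.inner hw)

theorem continuous_mf (h : StmProf) (P : Par) (j : ℕ) {w : E3 → E3} (hw : Continuous w)
    (hw' : Continuous (fderiv ℝ w)) : Continuous (mf P j w) := by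
  unfold mf
  have := continuous_cf h P j
  fun_prop

theorem mf_nonneg (h : StmProf) (P : Par) (j : ℕ) (w : E3 → E3) (x : E3) : 0 ≤ mf P j w x := by
  unfold mf
  have := cf_nonneg h P j x
  positivity

theorem mf_eq_zero (h : StmProf) (P : Par) (j : ℕ) (w : E3 → E3) (x : E3)
    (hx : 2 * P.r j < ‖x‖) : mf P j w x = 0 := by
  unfold mf
  rw [show cf P j x = 0 from by
    by_contra h0
    linarith [norm_le_of_cf h P j x h0], zero_mul]

theorem af_eq_zero (h : StmProf) (P : Par) (j : ℕ) (w : E3 → E3) (x : E3)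
    (hx : 2 * P.r j < ‖x‖) : af P j w x = 0 := by
  rw [af_eq, show cf P j x = 0 from by
    by_contra h0
    linarith [norm_le_of_cf h P j x h0], zero_mul]

theorem hasCompactSupport_of {f : E3 → ℝ} {R : ℝ} (h : ∀ x, R < ‖x‖ → f x = 0) :
    HasCompactSupport f :=
  HasCompactSupport.intro (isCompact_closedBall (0 : E3) R) (fun x hx => by
    apply h
    simpa [Metric.mem_closedBall, dist_zero_right] using hx)

theorem hasDerivAt_af (P : Par) (j : ℕ) {w : E3 → E3} (hw : Differentiable ℝ w) (s : ℝ) (x : E3) :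
    HasDerivAt (fun s => af P j w (rot s x))
      (cf P j x * (⟪lam (rot s x), fderiv ℝ w (rot s x) (lam (rot s x))⟫_ℝ
        + ⟪lam (lam (rot s x)), w (rot s x)⟫_ℝ)) s := by
  have e : (fun s => af P j w (rot s x)) = fun s => cf P j x * ⟪lam (rot s x), w (rot s x)⟫_ℝ := by
    funext s; rw [af_eq, cf_rot]
  rw [e]
  refine HasDerivAt.const_mul _ ?_
  have h1 := hasDerivAt_rot s x
  have h2 : HasDerivAt (fun s => lam (rot s x)) (lam (lam (rot s x))) s := by
    have := (lamC.hasFDerivAt (x := rot s x)).comp_hasDerivAt s h1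
    exact this
  have h3 : HasDerivAt (fun s => w (rot s x)) (fderiv ℝ w (rot s x) (lam (rot s x))) s :=
    (hw (rot s x)).hasFDerivAt.comp_hasDerivAt s h1
  exact h2.inner ℝ h3

theorem abs_af_sub_le (h : StmProf) (P : Par) (j : ℕ) {w : E3 → E3} (hw : ContDiff ℝ 1 w)
    {s : ℝ} (hs : 0 ≤ s) (x : E3) :
    |af P j w (rot s x) - af P j w x| ≤ ∫ τ in (0 : ℝ)..s, mf P j w (rot τ x) := by
  have hw0 : Continuous w := hw.continuous
  have hw1 : Continuous (fderiv ℝ w) := hw.continuous_fderiv (by norm_num)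
  have hr : Continuous (fun τ : ℝ => rot τ x) :=
    continuous_iff_continuousAt.2 fun τ => (hasDerivAt_rot τ x).continuousAt
  have hl : Continuous (fun τ : ℝ => lam (rot τ x)) := continuous_lam.comp hr
  have hll : Continuous (fun τ : ℝ => lam (lam (rot τ x))) := continuous_lam.comp hl
  have hc : Continuous (fun s : ℝ => cf P j x *
      (⟪lam (rot s x), fderiv ℝ w (rot s x) (lam (rot s x))⟫_ℝ
        + ⟪lam (lam (rot s x)), w (rot s x)⟫_ℝ)) := by
    refine continuous_const.mul ((hl.inner ?_).add (hll.inner (hw0.comp hr)))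
    exact (hw1.comp hr).clm_apply hl
  have h1 := intervalIntegral.integral_eq_sub_of_hasDerivAt (a := 0) (b := s)
    (fun τ _ => hasDerivAt_af P j (hw.differentiable (by norm_num)) τ x)
    (hc.intervalIntegrable _ _)
  rw [rot_zero] at h1
  rw [← h1]
  refine (intervalIntegral.abs_integral_le_integral_abs hs).trans ?_
  refine intervalIntegral.integral_mono_on hs (hc.abs.intervalIntegrable _ _)
    (((continuous_mf h P j hw0 hw1).comp hr).intervalIntegrable _ _) (fun τ _ => ?_)
  have hcf := cf_nonneg h P j x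
  unfold mf
  rw [cf_rot, abs_mul, abs_of_nonneg hcf]
  refine mul_le_mul_of_nonneg_left ?_ hcf
  refine (abs_add_le _ _).trans ?_
  rw [add_comm]
  refine add_le_add ?_ ?_
  · refine (abs_real_inner_le_norm _ _).trans ?_
    gcongr
    exact (norm_lam_le _).trans (norm_lam_le _)
  · refine (abs_real_inner_le_norm _ _).trans ?_
    calc ‖lam (rot τ x)‖ * ‖fderiv ℝ w (rot τ x) (lam (rot τ x))‖
        ≤ ‖rot τ x‖ * (‖fderiv ℝ w (rot τ x)‖ * ‖rot τ x‖) := by
          gcongr
          · exact norm_lam_le _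
          · exact ((fderiv ℝ w (rot τ x)).le_opNorm _).trans (by
              gcongr; exact norm_lam_le _)
      _ = ‖rot τ x‖ ^ 2 * ‖fderiv ℝ w (rot τ x)‖ := by ring

/-! ### Integrals on products -/

theorem integrable_prod {F : ℝ × E3 → ℝ} (hF : Measurable F) {M R L : ℝ}
    (hM : ∀ p, |F p| ≤ M) (hR : ∀ p : ℝ × E3, R < ‖p.2‖ → F p = 0) :
    Integrable F ((volume.restrict (Ioc 0 L)).prod volume) := by
  have hf : volume (Metric.closedBall (0 : E3) R) < ⊤ := measure_closedBall_lt_top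
  have h0 : Integrable ((Metric.closedBall (0 : E3) R).indicator (fun _ => M))
      (volume : Measure E3) := by
    rw [integrable_indicator_iff measurableSet_closedBall]
    exact integrableOn_const hf.ne
  have h1 : Integrable (fun p : ℝ × E3 =>
      (1 : ℝ) * (Metric.closedBall (0 : E3) R).indicator (fun _ => M) p.2)
      ((volume.restrict (Ioc 0 L)).prod volume) :=
    Integrable.mul_prod (f := fun _ : ℝ => (1 : ℝ)) (integrable_const _) h0
  refine h1.mono' hF.aestronglyMeasurable (ae_of_all _ fun p => ?_)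
  rw [Real.norm_eq_abs, one_mul]
  by_cases hp : p.2 ∈ Metric.closedBall (0 : E3) R
  · rw [indicator_of_mem hp]; exact hM p
  · rw [indicator_of_notMem hp, hR p (by simpa [Metric.mem_closedBall, dist_zero_right] using hp)]
    simp

theorem measurable_uz : Measurable uz := by
  have : Measurable zc := by
    have h : Continuous (fun x : E3 => ((x 0 : ℝ) : ℂ) + ((x 1 : ℝ) : ℂ) * Complex.I) := by
      fun_prop
    have e : zc = (fun x : E3 => ((x 0 : ℝ) : ℂ) + ((x 1 : ℝ) : ℂ) * Complex.I) := by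
      funext x; apply Complex.ext <;> simp [zc]
    rw [e]; exact h.measurable
  unfold uz
  exact this.div (Complex.measurable_ofReal.comp this.norm)

theorem norm_uz_le (x : E3) : ‖uz x‖ ≤ 1 := by
  unfold uz
  rw [norm_div, Complex.norm_real, norm_norm]
  exact div_self_le_one _

theorem lam_eq_zero {x : E3} (hx : zc x = 0) : lam x = 0 := by
  have h0 : x 0 = 0 := congrArg Complex.re hx
  have h1 : x 1 = 0 := congrArg Complex.im hx
  apply ext3
  · rw [lam0, h1]; simp
  · rw [lam1, h0]; simp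
  · rw [lam2]; simp

/-- the `L¹` bound of the increments. -/
theorem int_abs_sub_le (h : StmProf) (P : Par) (j : ℕ) {w : E3 → E3} (hw : ContDiff ℝ 1 w)
    {s : ℝ} (hs : 0 ≤ s) :
    ∫ x, |af P j w (rot s x) - af P j w x| ≤ s * ∫ x, mf P j w x := by
  have hw0 : Continuous w := hw.continuous
  have hw1 : Continuous (fderiv ℝ w) := hw.continuous_fderiv (by norm_num)
  have hm := continuous_mf h P j hw0 hw1
  obtain ⟨M, hM⟩ := hm.bounded_above_of_compact_support
    (hasCompactSupport_of (fun x hx => mf_eq_zero h P j w x hx))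
  have hint : Integrable (fun p : ℝ × E3 => mf P j w (rot p.1 p.2))
      ((volume.restrict (Ioc 0 s)).prod volume) := by
    refine integrable_prod (F := fun p : ℝ × E3 => mf P j w (rot p.1 p.2))
      (M := M) (R := 2 * P.r j) (hm.comp continuous_rot).measurable
      (fun p => by simpa using hM (rot p.1 p.2)) (fun p hp => ?_)
    apply mf_eq_zero h
    rwa [rot_norm]
  have h1 : ∫ x, |af P j w (rot s x) - af P j w x|
      ≤ ∫ x, ∫ τ in Ioc 0 s, mf P j w (rot τ x) := by
    refine integral_mono_of_nonneg (ae_of_all _ fun x => abs_nonneg _) hint.integral_prod_right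
      (ae_of_all _ fun x => ?_)
    have := abs_af_sub_le h P j hw hs x
    rwa [intervalIntegral.integral_of_le hs] at this
  refine h1.trans (le_of_eq ?_)
  have h2 := integral_integral_swap (f := fun (τ : ℝ) (x : E3) => mf P j w (rot τ x)) hint
  rw [← h2]
  simp_rw [integral_rot _ (mf P j w)]
  rw [integral_const]
  simp [hs]

/-- the main estimate. -/
theorem main_bound (h : StmProf) (hG : 0 < Gm) (P : Par) (j : ℕ) {σ : ℝ} (hσ : σ = 1 ∨ σ = -1)
    {w : E3 → E3} (hw : ContDiff ℝ 1 w) :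
    |∫ x, Bf σ (uz x ^ P.k j) * af P j w x|
      ≤ (2 * Gm⁻¹ + 1) * (2 * Real.pi / P.k j) * ∫ x, mf P j w x := by
  have hw0 : Continuous w := hw.continuous
  have hw1 : Continuous (fderiv ℝ w) := hw.continuous_fderiv (by norm_num)
  have hkk := k_pos P j
  have hk : (0 : ℝ) < P.k j := by exact_mod_cast hkk
  set k := P.k j with hkdef
  set L : ℝ := 2 * Real.pi / k with hL
  have hL0 : 0 < L := by positivity
  set CB : ℝ := 2 * Gm⁻¹ + 1 with hCB
  have hCB0 : 0 < CB := by positivity
  set I0 := ∫ x, Bf σ (uz x ^ k) * af P j w x with hI0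
  have hac := continuous_af h P j hw0
  obtain ⟨M, hM⟩ := hac.bounded_above_of_compact_support
    (hasCompactSupport_of (fun x hx => af_eq_zero h P j w x hx))
  set μ : Measure (ℝ × E3) := (volume.restrict (Ioc 0 L)).prod volume with hμ
  -- the two functions
  set E : ℝ × E3 → ℝ := fun p => Bf σ (uz (rot p.1 p.2) ^ k) with hE
  have hEm : Measurable E :=
    (measurable_Bf σ).comp ((measurable_uz.comp continuous_rot.measurable).pow_const k)
  have hEb : ∀ p, |E p| ≤ CB := fun p => Bf_abs_le hG hσ (by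
    rw [norm_pow]; exact pow_le_one₀ (norm_nonneg _) (norm_uz_le _))
  have hG1 : Integrable (fun p : ℝ × E3 => E p * af P j w (rot p.1 p.2)) μ := by
    refine integrable_prod (F := fun p : ℝ × E3 => E p * af P j w (rot p.1 p.2))
      (M := CB * M) (R := 2 * P.r j)
      (hEm.mul (hac.comp continuous_rot).measurable) (fun p => ?_) (fun p hp => ?_)
    · rw [abs_mul]
      exact mul_le_mul (hEb p) (by simpa using hM (rot p.1 p.2)) (abs_nonneg _) hCB0.le
    · rw [af_eq_zero h P j w _ (by rwa [rot_norm]), mul_zero]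
  have hG0 : Integrable (fun p : ℝ × E3 => E p * af P j w p.2) μ := by
    refine integrable_prod (F := fun p : ℝ × E3 => E p * af P j w p.2)
      (M := CB * M) (R := 2 * P.r j)
      (hEm.mul (hac.comp continuous_snd).measurable) (fun p => ?_) (fun p hp => ?_)
    · rw [abs_mul]
      exact mul_le_mul (hEb p) (by simpa using hM p.2) (abs_nonneg _) hCB0.le
    · rw [af_eq_zero h P j w _ hp, mul_zero]
  have e1 : ∫ p, E p * af P j w (rot p.1 p.2) ∂μ = L * I0 := by
    rw [hμ, integral_prod _ hG1]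
    have : ∀ s : ℝ, ∫ x, E (s, x) * af P j w (rot s x) = I0 := by
      intro s
      exact integral_rot s (fun x => Bf σ (uz x ^ k) * af P j w x)
    simp_rw [this]
    rw [integral_const]
    simp [hL0.le]
  have e0 : ∫ p, E p * af P j w p.2 ∂μ = 0 := by
    rw [hμ, integral_prod_symm _ hG0]
    have : ∀ x : E3, ∫ s in Ioc 0 L, E (s, x) * af P j w x = 0 := by
      intro x
      rw [integral_mul_const]
      by_cases hx : zc x = 0
      · rw [af_eq, lam_eq_zero hx]; simp
      · have hu : ‖uz x‖ = 1 := by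
          unfold uz
          rw [norm_div, Complex.norm_real, norm_norm]
          exact div_self (norm_ne_zero_iff.2 hx)
        have hmean := mean_Bf hG hσ hkk hu
        rw [intervalIntegral.integral_of_le (by positivity)] at hmean
        have : ∫ s in Ioc 0 L, E (s, x) = 0 := by
          refine Eq.trans ?_ hmean
          refine setIntegral_congr_fun measurableSet_Ioc (fun s _ => ?_)
          simp only [hE, uz_rot]
        rw [this, zero_mul]
    simp_rw [this]
    simp
  have e2 : L * I0 = ∫ p, E p * (af P j w (rot p.1 p.2) - af P j w p.2) ∂μ := by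
    have := integral_sub hG1 hG0
    rw [e1, e0, sub_zero] at this
    rw [← this]
    congr 1
    funext p; ring
  have hD : Integrable (fun p : ℝ × E3 => |af P j w (rot p.1 p.2) - af P j w p.2|) μ := by
    refine integrable_prod (F := fun p : ℝ × E3 => |af P j w (rot p.1 p.2) - af P j w p.2|)
      (M := M + M) (R := 2 * P.r j)
      ((hac.comp continuous_rot).sub (hac.comp continuous_snd)).abs.measurable
      (fun p => ?_) (fun p hp => ?_)
    · rw [abs_abs]
      refine (abs_sub _ _).trans (add_le_add ?_ ?_)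
      · simpa using hM (rot p.1 p.2)
      · simpa using hM p.2
    · rw [af_eq_zero h P j w _ hp, af_eq_zero h P j w _ (by rwa [rot_norm])]; simp
  have hmn : 0 ≤ ∫ x, mf P j w x := integral_nonneg fun x => mf_nonneg h P j w x
  have e3 : |L * I0| ≤ CB * (L * (L * ∫ x, mf P j w x)) := by
    rw [e2]
    calc |∫ p, E p * (af P j w (rot p.1 p.2) - af P j w p.2) ∂μ|
        ≤ ∫ p, |E p * (af P j w (rot p.1 p.2) - af P j w p.2)| ∂μ := abs_integral_le_integral_abs
      _ ≤ ∫ p, CB * |af P j w (rot p.1 p.2) - af P j w p.2| ∂μ := by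
          refine integral_mono_of_nonneg (ae_of_all _ fun p => abs_nonneg _) (hD.const_mul _)
            (ae_of_all _ fun p => ?_)
          simp only [abs_mul]
          exact mul_le_mul_of_nonneg_right (hEb p) (abs_nonneg _)
      _ = CB * ∫ p, |af P j w (rot p.1 p.2) - af P j w p.2| ∂μ := integral_const_mul _ _
      _ = CB * ∫ s in Ioc 0 L, ∫ x, |af P j w (rot s x) - af P j w x| := by
          rw [hμ, integral_prod _ hD]
      _ ≤ CB * ∫ s in Ioc 0 L, (L * ∫ x, mf P j w x) := by
          refine mul_le_mul_of_nonneg_left ?_ hCB0.le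
          refine setIntegral_mono_on hD.integral_prod_left (integrable_const _) measurableSet_Ioc
            (fun s hs => ?_)
          exact (int_abs_sub_le h P j hw hs.1.le).trans
            (mul_le_mul_of_nonneg_right hs.2 hmn)
      _ = CB * (L * (L * ∫ x, mf P j w x)) := by
          rw [integral_const]; simp [hL0.le]
  rw [abs_mul, abs_of_pos hL0] at e3
  have e4 : L * |I0| ≤ L * (CB * L * ∫ x, mf P j w x) := by
    refine e3.trans (le_of_eq ?_); ring
  exact le_of_mul_le_mul_left e4 hL0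

/-- Cauchy-Schwarz on a ball. -/
theorem cs_ball {f : E3 → ℝ} (hf : Continuous f) (hfc : HasCompactSupport f) (hn : ∀ x, 0 ≤ f x)
    (S : Set E3) (hS : MeasurableSet S) (hfin : volume S < ⊤) :
    ∫ x in S, f x ≤ Real.sqrt (volume.real S) * Real.sqrt (∫ x, f x ^ 2) := by
  have hfm : MemLp f 2 volume := hf.memLp_of_hasCompactSupport hfc
  have h2 : Integrable (fun x => f x ^ 2) := hfm.integrable_sq
  have hc : (2 : ℝ).HolderConjugate 2 := by constructor <;> norm_num
  have h2' : ENNReal.ofReal 2 = 2 := by norm_num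
  have := integral_mul_le_Lp_mul_Lq_of_nonneg (μ := volume.restrict S) hc
    (f := fun _ => (1 : ℝ)) (g := f) (ae_of_all _ fun x => by simp) (ae_of_all _ hn)
    (by
      have : IsFiniteMeasure (volume.restrict S) := ⟨by simpa using hfin⟩
      exact memLp_const _)
    (by rw [h2']; exact hfm.restrict S)
  simp only [one_mul, integral_const, smul_eq_mul, mul_one, Real.rpow_two, one_pow] at this
  rw [← Real.sqrt_eq_rpow, ← Real.sqrt_eq_rpow] at this
  have e : (volume.restrict S).real univ = volume.real S := by simp [Measure.real]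
  rw [e] at this
  refine this.trans ?_
  refine mul_le_mul_of_nonneg_left (Real.sqrt_le_sqrt ?_) (Real.sqrt_nonneg _)
  exact setIntegral_le_integral h2 (ae_of_all _ fun x => sq_nonneg (f x))

theorem vol_ball (R : ℝ) (hR : 0 ≤ R) :
    volume.real (Metric.closedBall (0 : E3) R) = R ^ 3 * volume.real (Metric.ball (0 : E3) 1) := by
  unfold Measure.real
  rw [Measure.addHaar_closedBall _ _ hR]
  rw [ENNReal.toReal_mul, ENNReal.toReal_ofReal (by positivity)]
  simp

theorem int_mf_le (h : StmProf) {Ch : ℝ} (hCh0 : 0 ≤ Ch) (hCh : ∀ v, hh v ≤ Ch) (P : Par) (j : ℕ)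
    {Ω : Set E3} {w : E3 → E3} (hw : IsTest Ω w) :
    ∫ x, mf P j w x ≤ 4 * Ch * Real.sqrt (8 * volume.real (Metric.ball (0 : E3) 1)) *
      (P.r j ^ (-(5 / 2) : ℝ) * nV w + P.r j ^ (-(3 / 2) : ℝ) * nM (jac w)) := by
  have hr := r_pos P j
  set r := P.r j with hrdef
  have hw0 : Continuous w := hw.smooth.continuous
  have hw1 : Continuous (fderiv ℝ w) := hw.smooth.continuous_fderiv (by simp)
  have hwj : Continuous (jac w) := continuous_jac hw.smooth
  set S := Metric.closedBall (0 : E3) (2 * r) with hS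
  have hSm : MeasurableSet S := measurableSet_closedBall
  have hfin : volume S < ⊤ := measure_closedBall_lt_top
  have hSmem : ∀ x : E3, x ∈ S ↔ ‖x‖ ≤ 2 * r := fun x => by
    rw [hS, Metric.mem_closedBall, dist_zero_right]
  set v := volume.real (Metric.ball (0 : E3) 1) with hv
  have hv0 : 0 ≤ v := measureReal_nonneg
  have hVs : Real.sqrt (volume.real S) = Real.sqrt (8 * v) * r ^ (3 / 2 : ℝ) := by
    rw [hS, vol_ball _ (by positivity), ← hv]
    have e : (2 * r) ^ 3 * v = (8 * v) * r ^ 3 := by ring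
    rw [e, Real.sqrt_mul (by positivity)]
    congr 1
    rw [Real.sqrt_eq_rpow, ← Real.rpow_natCast, ← Real.rpow_mul hr.le]
    norm_num
  have e1 : ∫ x, mf P j w x = ∫ x in S, mf P j w x := by
    symm
    apply setIntegral_eq_integral_of_forall_compl_eq_zero
    intro x hx
    apply mf_eq_zero h
    rw [hSmem] at hx
    linarith
  have i1 : IntegrableOn (fun x => ‖w x‖) S :=
    (hw0.norm.integrable_of_hasCompactSupport hw.compact.norm).integrableOn
  have i2 : IntegrableOn (fun x => ‖jac w x‖) S :=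
    (hwj.norm.integrable_of_hasCompactSupport (hasCompactSupport_jac hw.compact).norm).integrableOn
  have e2 : ∫ x in S, mf P j w x
      ≤ ∫ x in S, ((r ^ 5)⁻¹ * Ch * (2 * r) * ‖w x‖ + (r ^ 5)⁻¹ * Ch * (4 * r ^ 2) * ‖jac w x‖) := by
    refine setIntegral_mono_on ?_ ((i1.const_mul _).add (i2.const_mul _)) hSm (fun x hx => ?_)
    · exact ((continuous_mf h P j hw0 hw1).integrable_of_hasCompactSupport
        (hasCompactSupport_of (fun x hx => mf_eq_zero h P j w x hx))).integrableOn
    · have hx' := (hSmem x).1 hx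
      have hh0 : 0 ≤ hh (‖x‖ ^ 2 / r ^ 2) := h.2.2.2.2.2.2.2.2.2.2.2.2.1 _
      have hx2 : ‖x‖ ^ 2 ≤ 4 * r ^ 2 := by nlinarith [norm_nonneg x]
      unfold mf cf
      calc (P.r j ^ 5)⁻¹ * hh (‖x‖ ^ 2 / P.r j ^ 2) * (‖x‖ * ‖w x‖ + ‖x‖ ^ 2 * ‖fderiv ℝ w x‖)
          ≤ (r ^ 5)⁻¹ * Ch * ((2 * r) * ‖w x‖ + (4 * r ^ 2) * ‖jac w x‖) := by
            gcongr
            · exact hCh _
            · exact norm_fderiv_le_jac x
        _ = _ := by ring
  have c1 : ∫ x in S, ‖w x‖ ≤ Real.sqrt (volume.real S) * nV w :=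
    cs_ball hw0.norm hw.compact.norm (fun x => norm_nonneg _) S hSm hfin
  have c2 : ∫ x in S, ‖jac w x‖ ≤ Real.sqrt (volume.real S) * nM (jac w) :=
    cs_ball hwj.norm (hasCompactSupport_jac hw.compact).norm (fun x => norm_nonneg _) S hSm hfin
  have p1 : (r ^ 5)⁻¹ * r * r ^ (3 / 2 : ℝ) = r ^ (-(5 / 2) : ℝ) := by
    rw [← Real.rpow_natCast, ← Real.rpow_neg hr.le]
    nth_rewrite 2 [← Real.rpow_one r]
    rw [← Real.rpow_add hr, ← Real.rpow_add hr]
    norm_num
  have p2 : (r ^ 5)⁻¹ * r ^ 2 * r ^ (3 / 2 : ℝ) = r ^ (-(3 / 2) : ℝ) := by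
    rw [← Real.rpow_natCast, ← Real.rpow_neg hr.le, ← Real.rpow_natCast, ← Real.rpow_add hr,
      ← Real.rpow_add hr]
    norm_num
  rw [e1]
  refine e2.trans ?_
  rw [integral_add (i1.const_mul _) (i2.const_mul _), integral_const_mul, integral_const_mul]
  have hnV : 0 ≤ nV w := Real.sqrt_nonneg _
  have hq : 0 ≤ r ^ (-(5 / 2) : ℝ) := Real.rpow_nonneg hr.le _
  have hs0 : 0 ≤ Real.sqrt (8 * v) := Real.sqrt_nonneg _
  calc (r ^ 5)⁻¹ * Ch * (2 * r) * (∫ x in S, ‖w x‖) +
        (r ^ 5)⁻¹ * Ch * (4 * r ^ 2) * ∫ x in S, ‖jac w x‖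
      ≤ (r ^ 5)⁻¹ * Ch * (2 * r) * (Real.sqrt (8 * v) * r ^ (3 / 2 : ℝ) * nV w) +
        (r ^ 5)⁻¹ * Ch * (4 * r ^ 2) * (Real.sqrt (8 * v) * r ^ (3 / 2 : ℝ) * nM (jac w)) := by
        rw [hVs] at c1 c2
        gcongr
    _ = 2 * Ch * Real.sqrt (8 * v) * (((r ^ 5)⁻¹ * r * r ^ (3 / 2 : ℝ)) * nV w)
        + 4 * Ch * Real.sqrt (8 * v) * (((r ^ 5)⁻¹ * r ^ 2 * r ^ (3 / 2 : ℝ)) * nM (jac w)) := by
        ring
    _ = 2 * Ch * Real.sqrt (8 * v) * (r ^ (-(5 / 2) : ℝ) * nV w)
        + 4 * Ch * Real.sqrt (8 * v) * (r ^ (-(3 / 2) : ℝ) * nM (jac w)) := by rw [p1, p2]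
    _ ≤ 4 * Ch * Real.sqrt (8 * v) * (r ^ (-(5 / 2) : ℝ) * nV w)
        + 4 * Ch * Real.sqrt (8 * v) * (r ^ (-(3 / 2) : ℝ) * nM (jac w)) := by
        gcongr
        norm_num
    _ = _ := by ring

theorem bs_sub (P : Par) (j : ℕ) (σ : ℝ) (w : E3 → E3) (x : E3) :
    ⟪P.bs σ j x - σ • P.g j x, w x⟫_ℝ = Bf σ (uz x ^ P.k j) * af P j w x := by
  unfold Par.bs Par.fs Bf af
  rw [smul_smul, ← sub_smul, real_inner_smul_left]

end I1

open I1 in
/-- module I1 -/
theorem i1_holds (h : StmProf) (hb : StmBump) : StmI1 := by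
  have hG : 0 < Gm := hb.2.2.2.2.2.2.2.2.2.2.2.1
  obtain ⟨Ch, hCh⟩ := h.2.2.2.2.2.2.2.2.2.2.2.2.2.2.1
  have hCh0 : 0 ≤ Ch := (h.2.2.2.2.2.2.2.2.2.2.2.2.1 0).trans (hCh 0)
  set s8 := Real.sqrt (8 * volume.real (Metric.ball (0 : E3) 1)) with hs8
  have hs80 : 0 ≤ s8 := Real.sqrt_nonneg _
  have hCB : 0 < 2 * Gm⁻¹ + 1 := by positivity
  refine ⟨(2 * Gm⁻¹ + 1) * (2 * Real.pi) * (4 * Ch * s8) + 1, by positivity, ?_⟩
  intro P j σ hσ Ω w hw
  have hk : (0 : ℝ) < P.k j := by exact_mod_cast k_pos P j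
  have hr := r_pos P j
  simp_rw [bs_sub]
  have h1 := main_bound h hG P j hσ (hw.smooth.of_le (by simp) : ContDiff ℝ 1 w)
  have h2 := int_mf_le h hCh0 hCh P j hw
  set Q := P.r j ^ (-(5 / 2) : ℝ) * nV w + P.r j ^ (-(3 / 2) : ℝ) * nM (jac w) with hQ
  have hQ0 : 0 ≤ Q := by
    have : 0 ≤ nV w := Real.sqrt_nonneg _
    have : 0 ≤ nM (jac w) := Real.sqrt_nonneg _
    positivity
  refine h1.trans ?_
  calc (2 * Gm⁻¹ + 1) * (2 * Real.pi / P.k j) * ∫ x, mf P j w x
      ≤ (2 * Gm⁻¹ + 1) * (2 * Real.pi / P.k j) * (4 * Ch * s8 * Q) := by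
        gcongr
    _ = ((2 * Gm⁻¹ + 1) * (2 * Real.pi) * (4 * Ch * s8)) / P.k j * Q := by ring
    _ ≤ ((2 * Gm⁻¹ + 1) * (2 * Real.pi) * (4 * Ch * s8) + 1) / P.k j * Q := by
        gcongr
        linarith

end N979MH
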