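import Pool.Agent.N979.MH.Stm

/-!
Project MH: the error made by the density (bad set estimate), module I2.
-/

open MeasureTheory Set Filter Topology
open scoped InnerProductSpace ENNReal ContDiff NNReal

namespace N979MH

open H772R2.NS

namespace I2

/-! ### elementary facts -/

theorem norm_lam (x : E3) : ‖lam x‖ = ‖zc x‖ := by
  have h1 : ‖lam x‖ ^ 2 = ‖zc x‖ ^ 2 := by
    rw [norm_sq_E3, ← Complex.normSq_eq_norm_sq, Complex.normSq_apply, Fin.sum_univ_three]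
    simp [lam, zc]
    ring
  exact (pow_left_inj₀ (norm_nonneg _) (norm_nonneg _) (by norm_num)).mp h1

theorem norm_zc_le (x : E3) : ‖zc x‖ ≤ ‖x‖ := by
  have h1 : ‖zc x‖ ^ 2 ≤ ‖x‖ ^ 2 := by
    rw [norm_sq_E3, ← Complex.normSq_eq_norm_sq, Complex.normSq_apply, Fin.sum_univ_three]
    simp only [zc]
    nlinarith [sq_nonneg (x 2)]
  exact (pow_le_pow_iff_left₀ (norm_nonneg _) (norm_nonneg _) (by norm_num)).mp h1

theorem norm_uz_le (x : E3) : ‖uz x‖ ≤ 1 := by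
  unfold uz
  rw [norm_div, Complex.norm_real, norm_norm]
  exact div_self_le_one _

theorem abs_im_le (x : E3) (k : ℕ) : |(uz x ^ k).im| ≤ 1 := by
  refine (Complex.abs_im_le_norm _).trans ?_
  rw [norm_pow]
  exact pow_le_one₀ (norm_nonneg _) (norm_uz_le x)

theorem gc_nonneg : 0 ≤ gc := by
  unfold gc
  apply Real.cos_nonneg_of_mem_Icc
  constructor
  · have := Real.pi_pos; linarith
  · have := Real.pi_pos; linarith

theorem abs_Gf_le (y : ℝ) : |Gf y| ≤ |y| := by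
  have hg := gc_nonneg
  unfold Gf
  rcases le_total 0 y with h | h
  · rw [min_eq_right (by linarith : (0 : ℝ) ≤ y + gc), add_zero, abs_of_nonneg (le_max_right _ _),
      abs_of_nonneg h]
    exact max_le (by linarith) h
  · rw [max_eq_right (by linarith : y - gc ≤ 0), zero_add, abs_of_nonpos (min_le_right _ _),
      abs_of_nonpos h]
    have : y ≤ min (y + gc) 0 := le_min (by linarith) h
    linarith

theorem r_pos (P : Par) (j : ℕ) : 0 < P.r j := by
  unfold Par.r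
  have := P.hr
  positivity

theorem k_pos (P : Par) (j : ℕ) : (0 : ℝ) < P.k j := by
  unfold Par.k
  have := P.hk
  positivity

theorem phie_pos : 0 < phie := by
  unfold phie
  have := Real.pi_pos
  positivity

/-- `2` or `1` -/
noncomputable def pr (σ : ℝ) (k : ℕ) (x : E3) : ℝ := if 0 < σ * (uz x ^ k).im then 2 else 1

theorem continuous_lam : Continuous lam := by
  unfold lam
  refine (PiLp.continuous_toLp 2 _).comp ?_
  refine continuous_pi fun i => ?_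
  fin_cases i <;> simp <;> fun_prop

theorem continuous_zc : Continuous zc := by
  have : zc = fun x : E3 => ((x 0 : ℝ) : ℂ) + ((x 1 : ℝ) : ℂ) * Complex.I := by
    funext x
    unfold zc
    apply Complex.ext <;> simp
  rw [this]
  fun_prop

theorem measurable_uz : Measurable uz := by
  unfold uz
  exact continuous_zc.measurable.div
    ((Complex.continuous_ofReal.comp (continuous_norm.comp continuous_zc)).measurable)

theorem measurable_im (k : ℕ) : Measurable fun x : E3 => (uz x ^ k).im :=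
  Complex.measurable_im.comp (measurable_uz.pow_const k)

theorem continuous_Gf : Continuous Gf := by
  unfold Gf
  fun_prop

theorem measurable_pr (σ : ℝ) (k : ℕ) : Measurable (pr σ k) := by
  unfold pr
  exact Measurable.ite (measurableSet_lt measurable_const ((measurable_im k).const_mul σ))
    measurable_const measurable_const

variable {P : Par} {j : ℕ}

theorem measurable_fs (h : StmProf) : Measurable (P.fs j) := by
  obtain ⟨-, -, hh1, -⟩ := h
  unfold Par.fs Par.g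
  have h1 : Continuous fun x : E3 => ((P.r j ^ 5)⁻¹ * hh (‖x‖ ^ 2 / P.r j ^ 2)) • lam x := by
    have := hh1.continuous
    have := continuous_lam
    fun_prop
  exact (((continuous_Gf.measurable.comp (measurable_im _)).const_mul _)).smul h1.measurable

theorem bs_eq (σ : ℝ) (x : E3) : P.bs σ j x = pr σ (P.k j) x • P.fs j x := rfl

theorem pr_mem (σ : ℝ) (k : ℕ) (x : E3) : 1 ≤ pr σ k x ∧ pr σ k x ≤ 2 := by
  unfold pr
  split_ifs <;> norm_num

/-- the size of the force -/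
theorem norm_fs_le (hb : StmBump) {Ch : ℝ} (h0 : ∀ v, 0 ≤ hh v) (hC : ∀ v, hh v ≤ Ch) (x : E3) :
    ‖P.fs j x‖ ≤ Gm⁻¹ * Ch * (P.r j ^ 5)⁻¹ * ‖zc x‖ := by
  obtain ⟨-, -, -, -, -, -, -, -, -, -, -, hG, -⟩ := hb
  have hr := r_pos P j
  have hCh : 0 ≤ Ch := (h0 0).trans (hC 0)
  unfold Par.fs Par.g
  rw [norm_smul, norm_smul, norm_lam, Real.norm_eq_abs, Real.norm_eq_abs, abs_mul, abs_mul,
    abs_of_pos (inv_pos.2 hG), abs_of_pos (by positivity : 0 < (P.r j ^ 5)⁻¹),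
    abs_of_nonneg (h0 _)]
  have h1 : |Gf ((uz x ^ P.k j).im)| ≤ 1 := (abs_Gf_le _).trans (abs_im_le _ _)
  calc Gm⁻¹ * |Gf ((uz x ^ P.k j).im)| * ((P.r j ^ 5)⁻¹ * hh (‖x‖ ^ 2 / P.r j ^ 2) * ‖zc x‖)
      ≤ Gm⁻¹ * 1 * ((P.r j ^ 5)⁻¹ * Ch * ‖zc x‖) := by
        have := hC (‖x‖ ^ 2 / P.r j ^ 2)
        have := h0 (‖x‖ ^ 2 / P.r j ^ 2)
        gcongr
    _ = _ := by ring

theorem norm_le_of_fs (hv : ∀ v, hh v ≠ 0 → 1 < v ∧ v < 6 / 5) {x : E3} (hx : P.fs j x ≠ 0) :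
    ‖x‖ ≤ 2 * P.r j := by
  have hr := r_pos P j
  have h1 : hh (‖x‖ ^ 2 / P.r j ^ 2) ≠ 0 := by
    intro h
    apply hx
    unfold Par.fs Par.g
    rw [h, mul_zero, zero_smul, smul_zero]
  have h2 := (hv _ h1).2
  rw [div_lt_iff₀ (by positivity)] at h2
  refine le_of_sq_le_sq ?_ (by positivity)
  nlinarith [sq_nonneg (P.r j)]

/-! ### measures of the bad sets -/

theorem vol_box {ρ r : ℝ} (hρ : 0 ≤ ρ) (hr : 0 ≤ r) :
    volume {x : E3 | ‖zc x‖ < ρ ∧ ‖x‖ ≤ 2 * r} ≤ ENNReal.ofReal (16 * ρ ^ 2 * r) := by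
  have hsub : {x : E3 | ‖zc x‖ < ρ ∧ ‖x‖ ≤ 2 * r} ⊆
      (@WithLp.ofLp 2 (Fin 3 → ℝ)) ⁻¹' (Icc ![-ρ, -ρ, -(2 * r)] ![ρ, ρ, 2 * r]) := by
    rintro x ⟨h1, h2⟩
    have a0 : |x 0| ≤ ρ := (Complex.abs_re_le_norm (zc x)).trans h1.le
    have a1 : |x 1| ≤ ρ := (Complex.abs_im_le_norm (zc x)).trans h1.le
    have a2 : |x 2| ≤ 2 * r := (PiLp.norm_apply_le x 2).trans h2
    rw [abs_le] at a0 a1 a2
    rw [Set.mem_preimage, Set.mem_Icc]
    constructor
    · intro i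
      fin_cases i
      · exact a0.1
      · exact a1.1
      · exact a2.1
    · intro i
      fin_cases i
      · exact a0.2
      · exact a1.2
      · exact a2.2
  refine (measure_mono hsub).trans ?_
  rw [(PiLp.volume_preserving_ofLp (Fin 3)).measure_preimage measurableSet_Icc.nullMeasurableSet,
    Real.volume_Icc_pi, Fin.prod_univ_three]
  have e0 : (![ρ, ρ, 2 * r] : Fin 3 → ℝ) 0 - (![-ρ, -ρ, -(2 * r)] : Fin 3 → ℝ) 0 = 2 * ρ := by
    simp; ring
  have e1 : (![ρ, ρ, 2 * r] : Fin 3 → ℝ) 1 - (![-ρ, -ρ, -(2 * r)] : Fin 3 → ℝ) 1 = 2 * ρ := by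
    simp; ring
  have e2 : (![ρ, ρ, 2 * r] : Fin 3 → ℝ) 2 - (![-ρ, -ρ, -(2 * r)] : Fin 3 → ℝ) 2 = 4 * r := by
    simp; ring
  rw [e0, e1, e2, ← ENNReal.ofReal_mul (by positivity), ← ENNReal.ofReal_mul (by positivity)]
  apply ENNReal.ofReal_le_ofReal
  apply le_of_eq
  ring

theorem vol_cheb {D : E3 → ℝ} (hD : Continuous D) {G e : ℝ} (he : 0 < e)
    (h : eLpNorm D 6 (volume : Measure E3) ≤ ENNReal.ofReal G) :
    volume {α : E3 | e ≤ D α} ≤ ENNReal.ofReal (G / e) ^ 6 := by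
  have h1 := meas_ge_le_mul_pow_eLpNorm_enorm (volume : Measure E3) (p := 6) (by norm_num)
    (by norm_num) (f := D) hD.aestronglyMeasurable (ε := ENNReal.ofReal e)
    (by simpa using he) (fun h => absurd h ENNReal.ofReal_ne_top)
  have h2 : {α : E3 | e ≤ D α} ⊆ {x | ENNReal.ofReal e ≤ ‖D x‖ₑ} := by
    intro x hx
    have hx' : e ≤ D x := hx
    show ENNReal.ofReal e ≤ ‖D x‖ₑ
    rw [← ofReal_norm]
    apply ENNReal.ofReal_le_ofReal
    rw [Real.norm_eq_abs]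
    exact hx'.trans (le_abs_self _)
  refine (measure_mono h2).trans (h1.trans ?_)
  have h3 : (6 : ℝ≥0∞).toReal = ((6 : ℕ) : ℝ) := by norm_num
  rw [h3, ENNReal.rpow_natCast, ENNReal.rpow_natCast, ← mul_pow]
  refine pow_le_pow_left' ?_ 6
  calc (ENNReal.ofReal e)⁻¹ * eLpNorm D 6 volume ≤ (ENNReal.ofReal e)⁻¹ * ENNReal.ofReal G := by
        gcongr
    _ = ENNReal.ofReal (G / e) := by
        rw [← ENNReal.ofReal_inv_of_pos he, ← ENNReal.ofReal_mul (by positivity), mul_comm,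
          div_eq_mul_inv]

/-- Hölder -/
theorem holder {v : E3 → E3} (hv : AEStronglyMeasurable v (volume : Measure E3)) {B : Set E3}
    {b : ℝ} (hB : volume B ≤ ENNReal.ofReal b ^ 6) :
    ∫⁻ α in B, ‖v α‖ₑ ≤ eLpNorm v 6 (volume : Measure E3) * ENNReal.ofReal b ^ 5 := by
  have h1 := eLpNorm_le_eLpNorm_mul_rpow_measure_univ (p := 1) (q := 6)
    (μ := (volume : Measure E3).restrict B) (by norm_num) (f := v) hv.restrict
  rw [eLpNorm_one_eq_lintegral_enorm, Measure.restrict_apply_univ] at h1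
  refine h1.trans ?_
  have h2 : (1 / (1 : ℝ≥0∞).toReal - 1 / (6 : ℝ≥0∞).toReal : ℝ) = 5 / 6 := by norm_num
  rw [h2]
  refine mul_le_mul' (eLpNorm_mono_measure _ Measure.restrict_le_self) ?_
  calc volume B ^ (5 / 6 : ℝ) ≤ (ENNReal.ofReal b ^ 6) ^ (5 / 6 : ℝ) :=
        ENNReal.rpow_le_rpow hB (by norm_num)
    _ = ENNReal.ofReal b ^ 5 := by
        rw [← ENNReal.rpow_natCast, ← ENNReal.rpow_mul, ← ENNReal.rpow_natCast]
        congr 1
        norm_num

theorem eLpNorm_jac {Ω : Set E3} {w : E3 → E3} (hw : IsTest Ω w) :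
    eLpNorm (jac w) 2 (volume : Measure E3) = ENNReal.ofReal (nM (jac w)) := by
  rw [(hw.jac_memLp 2).eLpNorm_eq_integral_rpow_norm (by norm_num) (by norm_num)]
  congr 1
  unfold nM
  have h2 : (2 : ℝ≥0∞).toReal = ((2 : ℕ) : ℝ) := by norm_num
  rw [h2, Real.sqrt_eq_rpow]
  congr 1
  · congr 1
    funext x
    rw [Real.rpow_natCast]
  · norm_num

theorem sob {Ω : Set E3} {w : E3 → E3} (hw : IsTest Ω w) :
    eLpNorm w 6 (volume : Measure E3) ≤ ENNReal.ofReal (CS * nM (jac w)) := by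
  refine (CS_spec w (hw.smooth.of_le (by simp)) hw.compact).trans ?_
  rw [ENNReal.ofReal_mul (NNReal.coe_nonneg _), ENNReal.ofReal_coe_nnreal, ← eLpNorm_jac hw]
  gcongr
  exact eLpNorm_mono (fun x => norm_fderiv_le_jac x)

end I2

open I2

/-- **I2** -/
theorem i2_holds (h : StmProf) (hb : StmBump) : StmI2 := by
  have hmeas := fun (P : Par) (j : ℕ) => measurable_fs (P := P) (j := j) h
  obtain ⟨-, -, -, -, -, -, -, -, -, -, -, -, hh0, hhv, ⟨Ch, hCh⟩, -⟩ := h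
  have hGm : 0 < Gm := by
    obtain ⟨-, -, -, -, -, -, -, -, -, -, -, hG, -⟩ := hb
    exact hG
  have hCh0 : 0 ≤ Ch := (hh0 0).trans (hCh 0)
  obtain ⟨Cf, hCf⟩ : ∃ Cf : ℝ, Cf = Gm⁻¹ * Ch := ⟨_, rfl⟩
  have hCf0 : 0 ≤ Cf := by rw [hCf]; positivity
  have hphie := phie_pos
  have hCS : (0 : ℝ) ≤ CS := NNReal.coe_nonneg _
  refine ⟨Cf * CS * (32 + 2 * (400 * (3 * phie)) ^ 5) + 1, by positivity, ?_⟩
  intro P j σ hσ Ω w hw a X D G ham ha hXc hmp hDc hD0 hG0 hD6 hyp μ hμ0 hμ1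
  have hr := r_pos P j
  have hk := k_pos P j
  have hfs : ∀ x, ‖P.fs j x‖ ≤ Cf * (P.r j ^ 5)⁻¹ * ‖zc x‖ := fun x => by
    rw [hCf]; exact norm_fs_le hb hh0 hCh x
  have hfs2 : ∀ x, P.fs j x ≠ 0 → ‖x‖ ≤ 2 * P.r j := fun x hx => norm_le_of_fs hhv hx
  obtain ⟨M, hM⟩ : ∃ M : ℝ, M = Cf * (P.r j ^ 5)⁻¹ * (2 * P.r j) := ⟨_, rfl⟩
  have hM0 : 0 ≤ M := by rw [hM]; positivity
  have hfs3 : ∀ x, ‖P.fs j x‖ ≤ M := by
    intro x
    by_cases hx : P.fs j x = 0
    · rw [hx, norm_zero]; exact hM0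
    · rw [hM]
      refine (hfs x).trans ?_
      have := (norm_zc_le x).trans (hfs2 x hx)
      gcongr
  have hwc : Continuous w := hw.smooth.continuous
  have hwi : Integrable (fun α => w (X α)) (volume : Measure E3) :=
    hmp.integrable_comp_of_integrable (hwc.integrable_of_hasCompactSupport hw.compact)
  have hfm : Measurable (P.fs j) := hmeas P j
  have hpm : Measurable (pr σ (P.k j)) := measurable_pr σ _
  have hip : Measurable (fun x => ⟪P.fs j x, w x⟫_ℝ) := hfm.inner hwc.measurable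
  -- the second integral
  have hI2 : ∫ x, ⟪P.bs σ j x, w x⟫_ℝ =
      ∫ α, pr σ (P.k j) (X α) * ⟪P.fs j (X α), w (X α)⟫_ℝ := by
    have e1 : (fun x => ⟪P.bs σ j x, w x⟫_ℝ) =
        fun x => pr σ (P.k j) x * ⟪P.fs j x, w x⟫_ℝ := by
      funext x
      rw [bs_eq, real_inner_smul_left]
    have e2 := integral_map (μ := (volume : Measure E3)) (φ := X) hmp.aemeasurable
      (f := fun x => pr σ (P.k j) x * ⟪P.fs j x, w x⟫_ℝ) (hpm.mul hip).aestronglyMeasurable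
    rw [hmp.map_eq] at e2
    rw [e1, e2]
  have hbd : ∀ α, ‖⟪P.fs j (X α), w (X α)⟫_ℝ‖ ≤ M * ‖w (X α)‖ := fun α =>
    (norm_inner_le_norm _ _).trans (mul_le_mul_of_nonneg_right (hfs3 _) (norm_nonneg _))
  have hipX : Measurable (fun α => ⟪P.fs j (X α), w (X α)⟫_ℝ) := hip.comp hXc.measurable
  have hgen : ∀ q : E3 → ℝ, Measurable q → (∀ x, 1 ≤ q x ∧ q x ≤ 2) →
      Integrable (fun α => q α * ⟪P.fs j (X α), w (X α)⟫_ℝ) (volume : Measure E3) := by
    intro q hq1 hq2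
    refine (hwi.norm.const_mul (2 * M)).mono' (hq1.mul hipX).aestronglyMeasurable ?_
    filter_upwards with α
    rw [norm_mul, Real.norm_eq_abs (q α), abs_of_nonneg (by linarith [(hq2 α).1])]
    calc q α * ‖⟪P.fs j (X α), w (X α)⟫_ℝ‖ ≤ 2 * (M * ‖w (X α)‖) := by
          have := (hq2 α).2
          have := hbd α
          have := (hq2 α).1
          gcongr
      _ = 2 * M * ‖w (X α)‖ := by ring
  have hint1 := hgen a ham ha
  have hint2 := hgen (fun α => pr σ (P.k j) (X α)) (hpm.comp hXc.measurable)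
    (fun α => pr_mem _ _ _)
  rw [hI2, ← integral_sub hint1 hint2]
  -- the pointwise estimate
  obtain ⟨ρ, hρ⟩ : ∃ ρ : ℝ, ρ = μ ^ 3 * P.r j := ⟨_, rfl⟩
  have hρ0 : 0 < ρ := by rw [hρ]; positivity
  obtain ⟨e, he⟩ : ∃ e : ℝ, e = ρ / (400 * P.k j) := ⟨_, rfl⟩
  have he0 : 0 < e := by rw [he]; positivity
  obtain ⟨c1, hc1⟩ : ∃ c : ℝ, c = Cf * (P.r j ^ 5)⁻¹ * ρ := ⟨_, rfl⟩
  have hc10 : 0 ≤ c1 := by rw [hc1]; positivity
  set B1 : Set E3 := {x : E3 | ‖zc x‖ < ρ ∧ ‖x‖ ≤ 2 * P.r j} with hB1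
  set B2 : Set E3 := {α : E3 | e ≤ D α} with hB2
  have mB1 : MeasurableSet B1 :=
    ((isOpen_lt (continuous_norm.comp continuous_zc) continuous_const).measurableSet).inter
      ((isClosed_le continuous_norm continuous_const).measurableSet)
  have mB2 : MeasurableSet B2 := (isClosed_le continuous_const hDc).measurableSet
  have hpt : ∀ α, ‖a α * ⟪P.fs j (X α), w (X α)⟫_ℝ -
      pr σ (P.k j) (X α) * ⟪P.fs j (X α), w (X α)⟫_ℝ‖ₑ ≤
      ENNReal.ofReal c1 * (X ⁻¹' B1).indicator (fun α => ‖w (X α)‖ₑ) α +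
        ENNReal.ofReal M * B2.indicator (fun α => ‖w (X α)‖ₑ) α := by
    intro α
    by_cases hx : P.fs j (X α) = 0
    · rw [hx, inner_zero_left, mul_zero, mul_zero, sub_zero, enorm_zero]
      exact zero_le
    by_cases hDa : D α ≤ ‖zc (X α)‖ / (400 * P.k j)
    · have h1 : a α = pr σ (P.k j) (X α) := hyp α hx hDa
      rw [h1, sub_self, enorm_zero]
      exact zero_le
    push Not at hDa
    have hdiff : |a α - pr σ (P.k j) (X α)| ≤ 1 := by
      have h1 := ha α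
      have h2 := pr_mem σ (P.k j) (X α)
      rw [abs_le]
      constructor <;> linarith [h1.1, h1.2, h2.1, h2.2]
    have hle : ∀ c : ℝ, 0 ≤ c → ‖P.fs j (X α)‖ ≤ c →
        ‖a α * ⟪P.fs j (X α), w (X α)⟫_ℝ -
          pr σ (P.k j) (X α) * ⟪P.fs j (X α), w (X α)⟫_ℝ‖ₑ ≤ ENNReal.ofReal c * ‖w (X α)‖ₑ := by
      intro c hc hfc
      rw [← ofReal_norm, ← ofReal_norm, ← ENNReal.ofReal_mul hc]
      apply ENNReal.ofReal_le_ofReal
      rw [← sub_mul, norm_mul, Real.norm_eq_abs]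
      calc |a α - pr σ (P.k j) (X α)| * ‖⟪P.fs j (X α), w (X α)⟫_ℝ‖
          ≤ 1 * (‖P.fs j (X α)‖ * ‖w (X α)‖) :=
            mul_le_mul hdiff (norm_inner_le_norm _ _) (norm_nonneg _) zero_le_one
        _ ≤ c * ‖w (X α)‖ := by
            rw [one_mul]
            exact mul_le_mul_of_nonneg_right hfc (norm_nonneg _)
    by_cases hs : ‖zc (X α)‖ < ρ
    · have hmem : α ∈ X ⁻¹' B1 := ⟨hs, hfs2 _ hx⟩
      rw [Set.indicator_of_mem hmem]
      refine (hle c1 hc10 ?_).trans le_self_add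
      refine (hfs _).trans ?_
      rw [hc1]
      gcongr
    · push Not at hs
      have hmem : α ∈ B2 := by
        show e ≤ D α
        rw [he]
        refine le_trans ?_ hDa.le
        gcongr
      rw [Set.indicator_of_mem hmem]
      exact (hle M hM0 (hfs3 _)).trans le_add_self
  -- the integrals
  obtain ⟨s, hs⟩ : ∃ s : ℝ, s = Real.sqrt (P.r j) := ⟨_, rfl⟩
  have hs0 : 0 < s := by rw [hs]; exact Real.sqrt_pos.2 hr
  have hs2 : P.r j = s ^ 2 := by rw [hs, Real.sq_sqrt hr.le]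
  have hwX : AEStronglyMeasurable (fun α => w (X α)) (volume : Measure E3) :=
    (hwc.comp hXc).aestronglyMeasurable
  have hn6 : eLpNorm (fun α => w (X α)) 6 (volume : Measure E3) ≤
      ENNReal.ofReal (CS * nM (jac w)) := by
    have := eLpNorm_comp_measurePreserving (p := 6) hwc.aestronglyMeasurable hmp
    have e1 : (fun α => w (X α)) = w ∘ X := rfl
    rw [e1, this]
    exact sob hw
  have hv1 : volume (X ⁻¹' B1) ≤ ENNReal.ofReal (2 * μ * s) ^ 6 := by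
    rw [hmp.measure_preimage mB1.nullMeasurableSet, ← ENNReal.ofReal_pow (by positivity)]
    refine (vol_box hρ0.le hr.le).trans (ENNReal.ofReal_le_ofReal ?_)
    rw [hρ, hs2]
    have : 0 ≤ μ ^ 6 * s ^ 6 := by positivity
    nlinarith
  have hv2 : volume B2 ≤ ENNReal.ofReal (G / e) ^ 6 := vol_cheb hDc he0 hD6
  have hnM : 0 ≤ nM (jac w) := Real.sqrt_nonneg _
  have hGe : 0 ≤ G / e := by positivity
  have htot : ‖∫ α, (a α * ⟪P.fs j (X α), w (X α)⟫_ℝ -
      pr σ (P.k j) (X α) * ⟪P.fs j (X α), w (X α)⟫_ℝ)‖ₑ ≤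
      ENNReal.ofReal (c1 * (CS * nM (jac w) * (2 * μ * s) ^ 5) +
        M * (CS * nM (jac w) * (G / e) ^ 5)) := by
    refine (enorm_integral_le_lintegral_enorm _).trans ((lintegral_mono hpt).trans ?_)
    have hm1 : Measurable fun α : E3 => ‖w (X α)‖ₑ := (hwc.comp hXc).measurable.enorm
    rw [lintegral_add_left ((hm1.indicator (hXc.measurable mB1)).const_mul _),
      lintegral_const_mul _ (hm1.indicator (hXc.measurable mB1)),
      lintegral_const_mul _ (hm1.indicator mB2), lintegral_indicator (hXc.measurable mB1),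
      lintegral_indicator mB2,
      ENNReal.ofReal_add (by positivity) (by positivity), ENNReal.ofReal_mul hc10,
      ENNReal.ofReal_mul hM0, ENNReal.ofReal_mul (by positivity),
      ENNReal.ofReal_mul (p := CS * nM (jac w)) (by positivity), ENNReal.ofReal_pow (by positivity),
      ENNReal.ofReal_pow hGe]
    refine add_le_add (mul_le_mul' le_rfl ?_) (mul_le_mul' le_rfl ?_)
    · exact (holder hwX hv1).trans (mul_le_mul' hn6 le_rfl)
    · exact (holder hwX hv2).trans (mul_le_mul' hn6 le_rfl)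
  rw [← ofReal_norm, ENNReal.ofReal_le_ofReal_iff (by positivity), Real.norm_eq_abs] at htot
  refine htot.trans ?_
  -- algebra
  obtain ⟨q, hq⟩ : ∃ q : ℝ, q = G / (P.A j * P.r j ^ (-(3 / 2) : ℝ)) := ⟨_, rfl⟩
  rw [← hq]
  have hrp : P.r j ^ (-(3 / 2) : ℝ) = (s ^ 3)⁻¹ := by
    rw [hs2, ← Real.rpow_natCast s 2, ← Real.rpow_mul hs0.le, ← Real.rpow_natCast s 3,
      ← Real.rpow_neg hs0.le]
    congr 1
    norm_num
  have hA : P.A j = 3 * phie * s ^ 6 / P.k j := by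
    unfold Par.A
    rw [hs2]
    ring
  rw [hrp] at hq ⊢
  rw [hA] at hq
  have hq0 : 0 ≤ q := by rw [hq]; positivity
  have hGq : G = q * (3 * phie * s ^ 3 / P.k j) := by
    rw [hq]
    field_simp
  have e1 : c1 * (CS * nM (jac w) * (2 * μ * s) ^ 5) =
      Cf * CS * 32 * (s ^ 3)⁻¹ * μ ^ 8 * nM (jac w) := by
    rw [hc1, hρ, hs2]
    field_simp
    ring
  have e2 : M * (CS * nM (jac w) * (G / e) ^ 5) =
      Cf * CS * (2 * (400 * (3 * phie)) ^ 5) * (s ^ 3)⁻¹ * (q ^ 5 * (μ ^ 15)⁻¹) * nM (jac w) := by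
    rw [hM, he, hρ, hGq, hs2]
    field_simp
  rw [e1, e2]
  obtain ⟨N, hN⟩ : ∃ N : ℝ, N = nM (jac w) := ⟨_, rfl⟩
  rw [← hN] at hnM ⊢
  obtain ⟨S, hS⟩ : ∃ S : ℝ, S = (s ^ 3)⁻¹ := ⟨_, rfl⟩
  have hS0 : 0 ≤ S := by rw [hS]; positivity
  rw [← hS]
  obtain ⟨U, hU⟩ : ∃ U : ℝ, U = μ ^ 8 := ⟨_, rfl⟩
  have hU0 : 0 ≤ U := by rw [hU]; positivity
  rw [← hU]
  obtain ⟨V, hV⟩ : ∃ V : ℝ, V = q ^ 5 * (μ ^ 15)⁻¹ := ⟨_, rfl⟩
  have hV0 : 0 ≤ V := by rw [hV]; positivity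
  rw [← hV]
  obtain ⟨Z, hZ⟩ : ∃ Z : ℝ, Z = 2 * (400 * (3 * phie)) ^ 5 := ⟨_, rfl⟩
  have hZ0 : 0 ≤ Z := by rw [hZ]; positivity
  rw [← hZ]
  have a1 : 0 ≤ Cf * CS * (32 * S * V * N) := by positivity
  have a2 : 0 ≤ Cf * CS * (Z * S * U * N) := by positivity
  have a3 : 0 ≤ S * (U + V) * N := by positivity
  nlinarith

end N979MH
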