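import Mathlib
import Pool.Agent.N979.MH.Stm

/-!
Project MH, module I4: Cauchy-Schwarz bounds for the inertial terms.
-/

open MeasureTheory Set Filter Topology
open scoped InnerProductSpace ENNReal ContDiff NNReal

namespace N979MH

open H772R2.NS

theorem I4_nV_nonneg (v : E3 → E3) : 0 ≤ nV v := Real.sqrt_nonneg _

theorem I4_nM_nonneg (v : E3 → M3) : 0 ≤ nM v := Real.sqrt_nonneg _

theorem I4_cs {Ω : Set E3} {u v : E3 → E3} (hu : IsTest Ω u) (hv : IsTest Ω v) :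
    ∫ x, ‖u x‖ * ‖v x‖ ≤ nV u * nV v := by
  have h := integral_mul_norm_le_Lp_mul_Lq (μ := (volume : Measure E3)) (f := u) (g := v)
    (p := 2) (q := 2) Real.HolderConjugate.two_two (by simpa using hu.memLp 2)
    (by simpa using hv.memLp 2)
  simpa [nV, Real.sqrt_eq_rpow] using h

theorem I4_nV_sq (v : E3 → E3) : nV v ^ 2 = ∫ x, ‖v x‖ ^ 2 := by
  rw [nV, Real.sq_sqrt (integral_nonneg fun x => by positivity)]

theorem I4_integrable {Ω : Set E3} {u v : E3 → E3} (hu : IsTest Ω u) (hv : IsTest Ω v) :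
    Integrable (fun x => ‖u x‖ * ‖v x‖) (volume : Measure E3) := by
  refine Continuous.integrable_of_hasCompactSupport
    (hu.smooth.continuous.norm.mul hv.smooth.continuous.norm) ?_
  exact HasCompactSupport.mul_right hu.compact.norm

theorem i4_holds (hW : StmW) (hP : StmPoinc) : StmI4 := by
  intro Ω hΩ hb d hd hd1 hball
  obtain ⟨C₁, c₁, hC₁, -, hC⟩ := hW d hd hd1
  obtain ⟨Cp, hCp, hpoinc⟩ := hP Ω hΩ hb
  refine ⟨2 * Real.sqrt C₁ * Cp + 2 * C₁ * Real.sqrt C₁ * Cp + 2 * C₁ * Cp ^ 2, by positivity, ?_⟩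
  intro P hPd j A A' w hw a X ha ha12 hX hmp
  obtain ⟨h1, h2, h3, -, -⟩ := hC P hPd j
  have hWt : IsTest Ω (P.W j) := h1 Ω hball
  have hr : 0 < P.r j := by
    have := P.hr
    unfold Par.r; positivity
  set W := P.W j with hWdef
  set r := P.r j with hrdef
  set K : ℝ := C₁ / r ^ 3 with hK
  have hK0 : 0 ≤ K := by positivity
  -- the dominating function
  set h : E3 → ℝ := fun y => (2 * |A'| + 2 * A ^ 2 * K) * (‖W y‖ * ‖w y‖)
    + 2 * |A| * K * (‖w y‖ * ‖w y‖) with hh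
  have hhint : Integrable h (volume : Measure E3) :=
    ((I4_integrable hWt hw).const_mul _).add ((I4_integrable hw hw).const_mul _)
  have hhcont : Continuous h := by
    have c1 := hWt.smooth.continuous
    have c2 := hw.smooth.continuous
    fun_prop
  have hXm : AEMeasurable X (volume : Measure E3) := hmp.measurable.aemeasurable
  have hcomp_int : Integrable (fun α => h (X α)) (volume : Measure E3) :=
    hmp.integrable_comp_of_integrable hhint
  have hcomp : ∫ α, h (X α) = ∫ y, h y := by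
    have := integral_map (μ := (volume : Measure E3)) hXm
      (f := h) (hhcont.aestronglyMeasurable)
    rw [hmp.map_eq] at this
    exact this.symm
  have hpt : ∀ α, ‖a α * ⟪A' • W (X α)
        + fderiv ℝ (fun x => A • W x) (X α) (A • W (X α) + w (X α)), w (X α)⟫_ℝ‖ ≤ h (X α) := by
    intro α
    set y := X α
    have hfd : fderiv ℝ (fun x => A • W x) y = A • fderiv ℝ W y := by
      have := fderiv_fun_const_smul (𝕜 := ℝ) (x := y) (f := W)
        (hWt.smooth.contDiffAt.differentiableAt (by simp)) A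
      exact this
    rw [hfd]
    have hA : ‖a α‖ ≤ 2 := by
      rw [Real.norm_eq_abs, abs_of_nonneg (by linarith [(ha12 α).1])]
      exact (ha12 α).2
    have hin : ‖⟪A' • W y + (A • fderiv ℝ W y) (A • W y + w y), w y⟫_ℝ‖
        ≤ (|A'| * ‖W y‖ + |A| * K * (|A| * ‖W y‖ + ‖w y‖)) * ‖w y‖ := by
      refine (norm_inner_le_norm _ _).trans ?_
      refine mul_le_mul_of_nonneg_right ?_ (norm_nonneg _)
      refine (norm_add_le _ _).trans ?_
      have e1 : ‖A' • W y‖ = |A'| * ‖W y‖ := by rw [norm_smul, Real.norm_eq_abs]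
      have e2 : ‖(A • fderiv ℝ W y) (A • W y + w y)‖ ≤ |A| * K * (|A| * ‖W y‖ + ‖w y‖) := by
        have e3 : ‖(A • fderiv ℝ W y) (A • W y + w y)‖
            = |A| * ‖(fderiv ℝ W y) (A • W y + w y)‖ := by
          rw [ContinuousLinearMap.smul_apply, norm_smul, Real.norm_eq_abs]
        rw [e3, mul_assoc]
        refine mul_le_mul_of_nonneg_left ?_ (abs_nonneg _)
        refine ((fderiv ℝ W y).le_opNorm _).trans ?_
        refine mul_le_mul (h3 y) ?_ (norm_nonneg _) hK0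
        refine (norm_add_le _ _).trans ?_
        rw [norm_smul, Real.norm_eq_abs]
      rw [e1]
      linarith
    rw [norm_mul]
    calc ‖a α‖ * ‖⟪A' • W y + (A • fderiv ℝ W y) (A • W y + w y), w y⟫_ℝ‖
        ≤ 2 * ((|A'| * ‖W y‖ + |A| * K * (|A| * ‖W y‖ + ‖w y‖)) * ‖w y‖) :=
          mul_le_mul hA hin (norm_nonneg _) (by norm_num)
      _ = h y := by
          simp only [hh]
          have : |A| * |A| = A ^ 2 := by rw [← sq, sq_abs]
          linear_combination (2 * K * ‖W y‖ * ‖w y‖) * this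
  have hmain := norm_integral_le_of_norm_le hcomp_int (Eventually.of_forall hpt)
  rw [hcomp, Real.norm_eq_abs] at hmain
  refine hmain.trans ?_
  have hint : ∫ y, h y = (2 * |A'| + 2 * A ^ 2 * K) * (∫ y, ‖W y‖ * ‖w y‖)
      + 2 * |A| * K * nV w ^ 2 := by
    simp only [hh]
    rw [integral_add ((I4_integrable hWt hw).const_mul _) ((I4_integrable hw hw).const_mul _),
      integral_const_mul, integral_const_mul, I4_nV_sq]
    congr 2
    refine integral_congr_ae (Eventually.of_forall fun y => ?_)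
    simp only []
    ring
  rw [hint]
  have hWw : ∫ y, ‖W y‖ * ‖w y‖ ≤ nV W * nV w := I4_cs hWt hw
  have hp : nV w ≤ Cp * nM (jac w) := hpoinc w hw
  set n := nM (jac w) with hn
  have hn0 : 0 ≤ n := I4_nM_nonneg _
  have hw0 : 0 ≤ nV w := I4_nV_nonneg _
  have hWn : nV W ≤ Real.sqrt C₁ * r ^ (-(1 / 2) : ℝ) := by
    have e1 : nV W ≤ Real.sqrt (C₁ / r) := by
      refine Real.le_sqrt_of_sq_le ?_
      exact h2
    refine e1.trans (le_of_eq ?_)
    rw [Real.sqrt_div hC₁.le, Real.rpow_neg hr.le, Real.sqrt_eq_rpow r, div_eq_mul_inv]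
  have hW0 : 0 ≤ nV W := I4_nV_nonneg _
  have hr1 : 0 ≤ r ^ (-(1 / 2) : ℝ) := (Real.rpow_pos_of_pos hr _).le
  have hKr : K * r ^ (-(1 / 2) : ℝ) = C₁ * r ^ (-(7 / 2) : ℝ) := by
    rw [hK, div_mul_eq_mul_div, mul_div_assoc]
    congr 1
    rw [← Real.rpow_natCast r 3, ← Real.rpow_sub hr]
    norm_num
  have hK3 : K = C₁ * r ^ (-(3 : ℝ)) := by
    rw [hK, Real.rpow_neg hr.le, div_eq_mul_inv]
    congr 2
    exact_mod_cast (Real.rpow_natCast r 3).symm
  have hWw2 : ∫ y, ‖W y‖ * ‖w y‖ ≤ Real.sqrt C₁ * Cp * (r ^ (-(1 / 2) : ℝ) * n) := by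
    refine hWw.trans ?_
    calc nV W * nV w ≤ (Real.sqrt C₁ * r ^ (-(1 / 2) : ℝ)) * (Cp * n) :=
          mul_le_mul hWn hp hw0 (by positivity)
      _ = _ := by ring
  have hw2 : nV w ^ 2 ≤ Cp ^ 2 * n ^ 2 := by
    calc nV w ^ 2 ≤ (Cp * n) ^ 2 := pow_le_pow_left₀ hw0 hp 2
      _ = _ := by ring
  have s1 : (2 * |A'| + 2 * A ^ 2 * K) * (∫ y, ‖W y‖ * ‖w y‖)
      ≤ (2 * |A'| + 2 * A ^ 2 * K) * (Real.sqrt C₁ * Cp * (r ^ (-(1 / 2) : ℝ) * n)) :=
    mul_le_mul_of_nonneg_left hWw2 (by positivity)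
  have s2 : 2 * |A| * K * nV w ^ 2 ≤ 2 * |A| * K * (Cp ^ 2 * n ^ 2) :=
    mul_le_mul_of_nonneg_left hw2 (by positivity)
  refine (add_le_add s1 s2).trans ?_
  have e1 : (2 * |A'| + 2 * A ^ 2 * K) * (Real.sqrt C₁ * Cp * (r ^ (-(1 / 2) : ℝ) * n))
      = 2 * Real.sqrt C₁ * Cp * (|A'| * r ^ (-(1 / 2) : ℝ)) * n
        + 2 * C₁ * Real.sqrt C₁ * Cp * (A ^ 2 * r ^ (-(7 / 2) : ℝ)) * n := by
    linear_combination (2 * A ^ 2 * Real.sqrt C₁ * Cp * n) * hKr
  have e2 : 2 * |A| * K * (Cp ^ 2 * n ^ 2) = 2 * C₁ * Cp ^ 2 * (|A| * r ^ (-(3 : ℝ))) * n ^ 2 := by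
    rw [hK3]; ring
  rw [e1, e2]
  have p7 : 0 ≤ r ^ (-(7 / 2) : ℝ) := (Real.rpow_pos_of_pos hr _).le
  have p3 : 0 ≤ r ^ (-(3 : ℝ)) := (Real.rpow_pos_of_pos hr _).le
  have q1 : 0 ≤ (|A'| * r ^ (-(1 / 2) : ℝ)) * n := by positivity
  have q2 : 0 ≤ (A ^ 2 * r ^ (-(7 / 2) : ℝ)) * n := by positivity
  have q3 : 0 ≤ (|A| * r ^ (-(3 : ℝ))) * n ^ 2 := by positivity
  have c1 : 0 ≤ 2 * Real.sqrt C₁ * Cp := by positivity
  have c2 : 0 ≤ 2 * C₁ * Real.sqrt C₁ * Cp := by positivity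
  have c3 : 0 ≤ 2 * C₁ * Cp ^ 2 := by positivity
  nlinarith [mul_nonneg c1 q2, mul_nonneg c1 q3, mul_nonneg c2 q1, mul_nonneg c2 q3,
    mul_nonneg c3 q1, mul_nonneg c3 q2]

end N979MH
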