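import Mathlib
import Pool.Agent.N979.MH.Stm

/-!
Module J: a Galerkin solution in terms of classes of functions.
-/

set_option linter.unusedSectionVars false

open MeasureTheory Set Filter Topology
open scoped InnerProductSpace ENNReal ContDiff NNReal

namespace N979MH

namespace JLev

open H772R2.NS

/-! ### Linear combinations of test fields -/

section fld

variable {Ω : Set E3} {N : ℕ} {φ : Fin N → E3 → E3}

theorem fld_eq (φ : Fin N → E3 → E3) (c : Fin N → ℝ) : fld φ c = ∑ k, c k • φ k := by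
  funext x
  simp [fld, Finset.sum_apply]

theorem isTest_sum (hφ : ∀ k, IsTest Ω (φ k)) (c : Fin N → ℝ) (s : Finset (Fin N)) :
    IsTest Ω (∑ k ∈ s, c k • φ k) := by
  classical
  induction s using Finset.induction_on with
  | empty => simpa using (IsTest.zero : IsTest Ω (0 : E3 → E3))
  | insert k s hk ih =>
      rw [Finset.sum_insert hk]
      exact ((hφ k).smul (c k)).add ih

theorem isTest_fld (hφ : ∀ k, IsTest Ω (φ k)) (c : Fin N → ℝ) : IsTest Ω (fld φ c) := by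
  rw [fld_eq]
  exact isTest_sum hφ c _

theorem fderiv_fld (hφ : ∀ k, IsTest Ω (φ k)) (c : Fin N → ℝ) (x : E3) :
    fderiv ℝ (fld φ c) x = ∑ k, c k • fderiv ℝ (φ k) x := by
  have hd : ∀ k, DifferentiableAt ℝ (φ k) x := fun k =>
    ((hφ k).smooth.differentiable (by simp)) x
  have h : HasFDerivAt (fld φ c) (∑ k, c k • fderiv ℝ (φ k) x) x := by
    unfold fld
    exact HasFDerivAt.fun_sum (fun k _ => (hd k).hasFDerivAt.const_smul (c k))
  exact h.fderiv

theorem jac_fld (hφ : ∀ k, IsTest Ω (φ k)) (c : Fin N → ℝ) (x : E3) :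
    jac (fld φ c) x = ∑ k, c k • jac (φ k) x := by
  ext p
  rw [jac_apply, fderiv_fld hφ]
  simp [jac_apply, Finset.sum_apply]

theorem fld_zero (φ : Fin N → E3 → E3) : fld φ 0 = 0 := by
  funext x; simp [fld]

theorem fld_zero' (φ : Fin N → E3 → E3) (x : E3) : fld φ 0 x = 0 := by
  simp [fld]

/-- joint continuity of `(t, x) ↦ fld φ (c t) (X t x)`. -/
theorem cont_fld (hφ : ∀ k, IsTest Ω (φ k)) {c : ℝ → Fin N → ℝ} (hc : Continuous c)
    {X : ℝ → E3 → E3} (hX : Continuous (fun p : ℝ × E3 => X p.1 p.2)) :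
    Continuous (fun p : ℝ × E3 => fld φ (c p.1) (X p.1 p.2)) := by
  unfold fld
  refine continuous_finsetSum _ (fun k _ => ?_)
  exact ((continuous_apply k).comp (hc.comp continuous_fst)).smul
    ((hφ k).smooth.continuous.comp hX)

/-- joint continuity of `(t, x) ↦ D (fld φ (c t)) (X t x) (v t x)`. -/
theorem cont_fderiv_fld (hφ : ∀ k, IsTest Ω (φ k)) {c : ℝ → Fin N → ℝ} (hc : Continuous c)
    {X : ℝ → E3 → E3} (hX : Continuous (fun p : ℝ × E3 => X p.1 p.2))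
    {v : ℝ → E3 → E3} (hv : Continuous (fun p : ℝ × E3 => v p.1 p.2)) :
    Continuous (fun p : ℝ × E3 => fderiv ℝ (fld φ (c p.1)) (X p.1 p.2) (v p.1 p.2)) := by
  simp_rw [fderiv_fld hφ]
  refine Continuous.clm_apply ?_ hv
  refine continuous_finsetSum _ (fun k _ => ?_)
  exact ((continuous_apply k).comp (hc.comp continuous_fst)).smul
    (((hφ k).smooth.continuous_fderiv (by simp)).comp hX)

theorem test_zero_of_notMem {ψ : E3 → E3} (h : IsTest Ω ψ) {x : E3} (hx : x ∉ Ω) : ψ x = 0 :=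
  image_eq_zero_of_notMem_tsupport (fun hc => hx (h.supp hc))

theorem jac_zero_of_notMem {ψ : E3 → E3} (h : IsTest Ω ψ) {x : E3} (hx : x ∉ Ω) :
    jac ψ x = 0 :=
  image_eq_zero_of_notMem_tsupport (fun hc => hx (h.supp (tsupport_jac_subset hc)))

end fld

/-! ### Fubini and the fundamental theorem -/

theorem integrable_of_cont {Ω : Set E3} (hΩ : MeasurableSet Ω) (hb : Bornology.IsBounded Ω)
    {a : E3 → ℝ} (ha : Measurable a) (hab : ∀ x, |a x| ≤ 2) {g : E3 → ℝ} (hg : Continuous g) :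
    Integrable (fun y => a y * g y) (volume.restrict Ω) := by
  have hK : IsCompact (closure Ω) := hb.isCompact_closure
  obtain ⟨C, hC⟩ := hK.exists_bound_of_continuousOn hg.continuousOn
  have : IsFiniteMeasure (volume.restrict Ω : Measure E3) :=
    ⟨by
      rw [Measure.restrict_apply_univ]
      exact (measure_mono subset_closure).trans_lt hK.measure_lt_top⟩
  refine Integrable.of_bound (C := 2 * C)
    ((ha.mul hg.measurable).aestronglyMeasurable) ?_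
  refine ae_restrict_of_forall_mem hΩ (fun y hy => ?_)
  rw [norm_mul]
  exact mul_le_mul (hab y) (hC y (subset_closure hy)) (norm_nonneg _) (by norm_num)

theorem int_ftc {Ω : Set E3} (hΩ : MeasurableSet Ω) (hb : Bornology.IsBounded Ω)
    {a : E3 → ℝ} (ha : Measurable a) (hab : ∀ x, |a x| ≤ 2) {g g' : ℝ → E3 → ℝ} {s t : ℝ}
    (hst : s ≤ t) (hg : Continuous (fun p : ℝ × E3 => g p.1 p.2))
    (hg' : Continuous (fun p : ℝ × E3 => g' p.1 p.2))
    (hd : ∀ τ ∈ Ioo s t, ∀ y, HasDerivWithinAt (fun r => g r y) (g' τ y) (Ioi τ) τ) :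
    (∫ y in Ω, a y * g t y) - (∫ y in Ω, a y * g s y)
      = ∫ τ in s..t, ∫ y in Ω, a y * g' τ y := by
  have hgt : Continuous (g t) := hg.comp (by fun_prop : Continuous fun y : E3 => (t, y))
  have hgs : Continuous (g s) := hg.comp (by fun_prop : Continuous fun y : E3 => (s, y))
  rw [← integral_sub (integrable_of_cont hΩ hb ha hab hgt)
    (integrable_of_cont hΩ hb ha hab hgs)]
  have h1 : ∀ y, a y * g t y - a y * g s y = ∫ τ in s..t, a y * g' τ y := by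
    intro y
    have hy : Continuous (fun τ : ℝ => g τ y) :=
      hg.comp (by fun_prop : Continuous fun τ : ℝ => (τ, y))
    have hy' : Continuous (fun τ : ℝ => g' τ y) :=
      hg'.comp (by fun_prop : Continuous fun τ : ℝ => (τ, y))
    rw [intervalIntegral.integral_const_mul,
      intervalIntegral.integral_eq_sub_of_hasDeriv_right_of_le hst hy.continuousOn
        (fun τ hτ => hd τ hτ y) (hy'.intervalIntegrable _ _)]
    ring
  simp_rw [h1, intervalIntegral.integral_of_le hst]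
  rw [integral_integral_swap]
  -- integrability on the product
  have hK : IsCompact (closure Ω) := hb.isCompact_closure
  have hK2 : IsCompact (Icc s t ×ˢ closure Ω) := isCompact_Icc.prod hK
  obtain ⟨C, hC⟩ := hK2.exists_bound_of_continuousOn hg'.continuousOn
  have hfin : IsFiniteMeasure (volume.restrict Ω : Measure E3) :=
    ⟨by
      rw [Measure.restrict_apply_univ]
      exact (measure_mono subset_closure).trans_lt hK.measure_lt_top⟩
  refine Integrable.of_bound (C := 2 * C) ?_ ?_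
  · have hm : Measurable (fun p : E3 × ℝ => a p.1 * g' p.2 p.1) :=
      (ha.comp measurable_fst).mul
        (hg'.comp (by fun_prop : Continuous fun p : E3 × ℝ => (p.2, p.1))).measurable
    exact hm.aestronglyMeasurable
  · rw [Measure.prod_restrict]
    refine ae_restrict_of_forall_mem (hΩ.prod measurableSet_Ioc) (fun p hp => ?_)
    simp only [Function.uncurry]
    rw [norm_mul]
    exact mul_le_mul (hab p.1) (hC (p.2, p.1) ⟨Ioc_subset_Icc_self hp.2, subset_closure hp.1⟩)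
      (norm_nonneg _) (by norm_num)

/-! ### The flow -/

section flow

variable {Ω : Set E3} {N : ℕ} {φ : Fin N → E3 → E3} {t0 T : ℝ} {a : E3 → ℝ} {f : ℝ → E3 → E3}
  {c c' : ℝ → Fin N → ℝ} {X Y : ℝ → E3 → E3}

theorem X_fix (hφ : ∀ k, IsTest Ω (φ k)) (G : IsGal φ t0 T a f c c' X Y) (t : ℝ) {x : E3}
    (hx : x ∉ Ω) : X t x = x :=
  G.fix x (fun k => test_zero_of_notMem (hφ k) hx) t

theorem X_mem_iff (hφ : ∀ k, IsTest Ω (φ k)) (G : IsGal φ t0 T a f c c' X Y) (t : ℝ) (y : E3) :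
    X t y ∈ Ω ↔ y ∈ Ω := by
  constructor
  · intro h
    by_contra hy
    rw [X_fix hφ G t hy] at h
    exact hy h
  · intro hy
    by_contra h
    have h1 : X t (X t y) = X t y := X_fix hφ G t h
    have h2 : X t y = y := by
      have := congrArg (Y t) h1
      rwa [G.YX, G.YX] at this
    rw [h2] at h
    exact h hy

theorem Y_zero (G : IsGal φ t0 T a f c c' X Y) {t : ℝ} (ht : t ≤ t0) (x : E3) : Y t x = x := by
  have := G.YX t x
  rwa [G.X0 t ht x] at this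

theorem X_cont (G : IsGal φ t0 T a f c c' X Y) (t : ℝ) : Continuous (X t) :=
  G.Xc.comp (by fun_prop : Continuous fun y : E3 => (t, y))

theorem Y_cont (G : IsGal φ t0 T a f c c' X Y) (t : ℝ) : Continuous (Y t) :=
  G.Yc.comp (by fun_prop : Continuous fun y : E3 => (t, y))

/-- the flow as a homeomorphism -/
noncomputable def hX (G : IsGal φ t0 T a f c c' X Y) (t : ℝ) : E3 ≃ₜ E3 where
  toFun := X t
  invFun := Y t
  left_inv := G.YX t
  right_inv := G.XY t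
  continuous_toFun := X_cont G t
  continuous_invFun := Y_cont G t

theorem emb (G : IsGal φ t0 T a f c c' X Y) (t : ℝ) : MeasurableEmbedding (X t) :=
  (hX G t).measurableEmbedding

theorem mpY (G : IsGal φ t0 T a f c c' X Y) (t : ℝ) : MeasurePreserving (Y t) volume volume := by
  have h : MeasurePreserving (hX G t).toMeasurableEquiv volume volume := G.mp t
  exact h.symm

theorem change (hφ : ∀ k, IsTest Ω (φ k)) (G : IsGal φ t0 T a f c c' X Y) (t : ℝ)
    (F : E3 → E3 → ℝ) :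
    ∫ x in Ω, F (Y t x) x = ∫ y in Ω, F y (X t y) := by
  have h := (G.mp t).setIntegral_preimage_emb (emb G t) (fun x => F (Y t x) x) Ω
  have hpre : X t ⁻¹' Ω = Ω := by
    ext y
    exact X_mem_iff hφ G t y
  rw [hpre] at h
  rw [← h]
  simp_rw [G.YX]

/-- right derivative of the flow, at all times in `[0, T)` -/
theorem dX_right (G : IsGal φ t0 T a f c c' X Y) {t : ℝ} (htT : t < T) (x : E3) :
    HasDerivWithinAt (fun s => X s x) (fld φ (c t) (X t x)) (Ioi t) t := by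
  rcases lt_or_ge t t0 with h | h
  · rw [G.c0 t h.le, fld_zero']
    have : (fun s => X s x) =ᶠ[𝓝 t] fun _ => x := by
      filter_upwards [gt_mem_nhds h] with s hs
      exact G.X0 s hs.le x
    exact ((hasDerivAt_const t x).congr_of_eventuallyEq this).hasDerivWithinAt
  · exact (G.dX t ⟨h, htT.le⟩ x).mono_of_mem_nhdsWithin
      (mem_of_superset (Ioc_mem_nhdsGT htT) (fun s hs => ⟨h.trans hs.1.le, hs.2⟩))


/-! ### Classes -/

/-- the class of the velocity -/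
noncomputable def uL (hφ : ∀ k, IsTest Ω (φ k)) (b : Fin N → ℝ) : L2V Ω :=
  ∑ k, b k • (((hφ k).memLp 2).restrict Ω).toLp (φ k)

/-- the class of the gradient -/
noncomputable def zL (hφ : ∀ k, IsTest Ω (φ k)) (b : Fin N → ℝ) : L2M Ω :=
  ∑ k, b k • (((hφ k).jac_memLp 2).restrict Ω).toLp (jac (φ k))

theorem cont_uL (hφ : ∀ k, IsTest Ω (φ k)) : Continuous (uL hφ) := by
  unfold uL
  fun_prop

theorem cont_zL (hφ : ∀ k, IsTest Ω (φ k)) : Continuous (zL hφ) := by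
  unfold zL
  fun_prop

theorem coeFn_sum_smul {E : Type*} [NormedAddCommGroup E] [NormedSpace ℝ E]
    {μ : Measure E3} (v : Fin N → Lp E 2 μ) (b : Fin N → ℝ) (s : Finset (Fin N)) :
    ((∑ k ∈ s, b k • v k : Lp E 2 μ) : E3 → E) =ᵐ[μ] fun x => ∑ k ∈ s, b k • v k x := by
  classical
  induction s using Finset.induction_on with
  | empty =>
      simp only [Finset.sum_empty]
      exact Lp.coeFn_zero _ _ _
  | insert k s hk ih =>
      rw [Finset.sum_insert hk]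
      filter_upwards [Lp.coeFn_add (b k • v k) (∑ k ∈ s, b k • v k), Lp.coeFn_smul (b k) (v k), ih]
        with x h1 h2 h3
      rw [h1, Finset.sum_insert hk, Pi.add_apply, h2, h3]
      rfl

theorem uL_cls (hφ : ∀ k, IsTest Ω (φ k)) (b : Fin N → ℝ) : ClsV (uL hφ b) (fld φ b) := by
  unfold ClsV uL
  have h1 : ∀ k, (((((hφ k).memLp 2).restrict Ω).toLp (φ k) : L2V Ω) : E3 → E3)
      =ᵐ[volume.restrict Ω] φ k := fun k => MemLp.coeFn_toLp _
  filter_upwards [coeFn_sum_smul (fun k => (((hφ k).memLp 2).restrict Ω).toLp (φ k)) b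
    Finset.univ, ae_all_iff.mpr h1] with x h2 h3
  rw [h2]
  simp only [fld, h3]

theorem zL_cls (hφ : ∀ k, IsTest Ω (φ k)) (b : Fin N → ℝ) : ClsM (zL hφ b) (jac (fld φ b)) := by
  unfold ClsM zL
  have h1 : ∀ k, (((((hφ k).jac_memLp 2).restrict Ω).toLp (jac (φ k)) : L2M Ω) : E3 → M3)
      =ᵐ[volume.restrict Ω] jac (φ k) := fun k => MemLp.coeFn_toLp _
  filter_upwards [coeFn_sum_smul (fun k => (((hφ k).jac_memLp 2).restrict Ω).toLp (jac (φ k))) b
    Finset.univ, ae_all_iff.mpr h1] with x h2 h3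
  rw [h2, jac_fld hφ]
  simp only [h3]

theorem mem_W (hφ : ∀ k, IsTest Ω (φ k)) (b : Fin N → ℝ) : (uL hφ b, zL hφ b) ∈ graphW Ω := by
  refine Submodule.le_topologicalClosure _ ?_
  exact ⟨fld φ b, isTest_fld hφ b, uL_cls hφ b, zL_cls hφ b⟩

theorem uL_zero (hφ : ∀ k, IsTest Ω (φ k)) : uL hφ 0 = 0 := by simp [uL]

theorem zL_zero (hφ : ∀ k, IsTest Ω (φ k)) : zL hφ 0 = 0 := by simp [zL]

theorem norm_sq_Lp {E : Type*} [NormedAddCommGroup E] [InnerProductSpace ℝ E] {μ : Measure E3}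
    (v : Lp E 2 μ) : ‖v‖ ^ 2 = ∫ x, ‖v x‖ ^ 2 ∂μ := by
  rw [← real_inner_self_eq_norm_sq, L2.inner_def]
  simp_rw [real_inner_self_eq_norm_sq]

theorem norm_zL (hφ : ∀ k, IsTest Ω (φ k)) (b : Fin N → ℝ) :
    ‖zL hφ b‖ ^ 2 = nM (jac (fld φ b)) ^ 2 := by
  rw [norm_sq_Lp, nM, Real.sq_sqrt (integral_nonneg fun x => by positivity)]
  have h1 : ∫ x in Ω, ‖zL hφ b x‖ ^ 2 = ∫ x in Ω, ‖jac (fld φ b) x‖ ^ 2 := by
    apply integral_congr_ae
    filter_upwards [zL_cls hφ b] with x hx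
    rw [hx]
  rw [h1]
  apply setIntegral_eq_integral_of_forall_compl_eq_zero
  intro x hx
  rw [jac_zero_of_notMem (isTest_fld hφ b) hx]
  simp

/-- the indicator of `Ω` times `a`, as a class on the whole space -/
theorem memLp_ind (hΩ : MeasurableSet Ω) (hb : Bornology.IsBounded Ω) (ha : Measurable a)
    (hab : ∀ x, 1 ≤ a x ∧ a x ≤ 2) : MemLp (Ω.indicator a) 2 (volume : Measure E3) := by
  rw [memLp_indicator_iff_restrict hΩ]
  have hK : IsCompact (closure Ω) := hb.isCompact_closure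
  have hfin : IsFiniteMeasure (volume.restrict Ω : Measure E3) :=
    ⟨by
      rw [Measure.restrict_apply_univ]
      exact (measure_mono subset_closure).trans_lt hK.measure_lt_top⟩
  refine MemLp.of_bound ha.aestronglyMeasurable 2 (Eventually.of_forall (fun x => ?_))
  rw [Real.norm_eq_abs, abs_le]
  constructor <;> linarith [(hab x).1, (hab x).2]

/-- the class of the density -/
noncomputable def rL (hΩ : MeasurableSet Ω) (hb : Bornology.IsBounded Ω) (ha : Measurable a)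
    (hab : ∀ x, 1 ≤ a x ∧ a x ≤ 2) (G : IsGal φ t0 T a f c c' X Y) (t : ℝ) : L2S Ω :=
  LpToLpRestrictCLM E3 ℝ ℝ volume 2 Ω
    (Lp.compMeasurePreserving (Y t) (mpY G t) ((memLp_ind hΩ hb ha hab).toLp _))

theorem rL_cls (hφ : ∀ k, IsTest Ω (φ k)) (hΩ : MeasurableSet Ω) (hb : Bornology.IsBounded Ω)
    (ha : Measurable a) (hab : ∀ x, 1 ≤ a x ∧ a x ≤ 2) (G : IsGal φ t0 T a f c c' X Y) (t : ℝ) :
    ClsS (rL hΩ hb ha hab G t) (fun x => a (Y t x)) := by
  unfold ClsS rL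
  refine (LpToLpRestrictCLM_coeFn ℝ Ω _).trans ?_
  have h1 := Lp.coeFn_compMeasurePreserving ((memLp_ind hΩ hb ha hab).toLp _) (mpY G t)
  have h2 := (mpY G t).quasiMeasurePreserving.ae_eq_comp (memLp_ind hΩ hb ha hab).coeFn_toLp
  have h3 := ae_restrict_of_ae (s := Ω) (h1.trans h2)
  filter_upwards [h3, ae_restrict_mem hΩ] with x h4 h5
  rw [h4, Function.comp_apply, indicator_of_mem]
  have := (X_mem_iff hφ G t (Y t x)).mp (by rwa [G.XY])
  exact this

theorem cont_rL (hΩ : MeasurableSet Ω) (hb : Bornology.IsBounded Ω)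
    (ha : Measurable a) (hab : ∀ x, 1 ≤ a x ∧ a x ≤ 2) (G : IsGal φ t0 T a f c c' X Y) :
    Continuous (rL hΩ hb ha hab G) := by
  unfold rL
  refine (LpToLpRestrictCLM E3 ℝ ℝ volume 2 Ω).continuous.comp ?_
  let g : ℝ → C(E3, E3) := fun t => ⟨Y t, Y_cont G t⟩
  have hg : Continuous g := (ContinuousMap.curry ⟨fun p : ℝ × E3 => Y p.1 p.2, G.Yc⟩).continuous
  exact Continuous.compMeasurePreservingLp (f := fun _ : ℝ => (memLp_ind hΩ hb ha hab).toLp _)
    (g := g) continuous_const hg (mpY G) (by simp)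

theorem rL_bd (hφ : ∀ k, IsTest Ω (φ k)) (hΩ : MeasurableSet Ω) (hb : Bornology.IsBounded Ω)
    (ha : Measurable a) (hab : ∀ x, 1 ≤ a x ∧ a x ≤ 2) (G : IsGal φ t0 T a f c c' X Y) (t : ℝ) :
    ∀ᵐ x ∂(volume.restrict Ω), 1 ≤ rL hΩ hb ha hab G t x ∧ rL hΩ hb ha hab G t x ≤ 2 := by
  filter_upwards [rL_cls hφ hΩ hb ha hab G t] with x hx
  rw [hx]
  exact hab _

/-- integrals against the density -/
theorem int_rL (hφ : ∀ k, IsTest Ω (φ k)) (hΩ : MeasurableSet Ω) (hb : Bornology.IsBounded Ω)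
    (ha : Measurable a) (hab : ∀ x, 1 ≤ a x ∧ a x ≤ 2) (G : IsGal φ t0 T a f c c' X Y) (t : ℝ)
    {F F' : E3 → ℝ} (hF : F =ᵐ[volume.restrict Ω] F') :
    ∫ x in Ω, rL hΩ hb ha hab G t x * F x = ∫ y in Ω, a y * F' (X t y) := by
  rw [← change hφ G t (fun y x => a y * F' x)]
  apply integral_congr_ae
  filter_upwards [rL_cls hφ hΩ hb ha hab G t, hF] with x h1 h2
  rw [h1, h2]

theorem norm_rL (hφ : ∀ k, IsTest Ω (φ k)) (hΩ : MeasurableSet Ω) (hb : Bornology.IsBounded Ω)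
    (ha : Measurable a) (hab : ∀ x, 1 ≤ a x ∧ a x ≤ 2) (G : IsGal φ t0 T a f c c' X Y) (t : ℝ) :
    ‖rL hΩ hb ha hab G t‖ ^ 2 = ∫ y in Ω, a y ^ 2 := by
  rw [norm_sq_Lp]
  rw [← change hφ G t (fun y _ => a y ^ 2)]
  apply integral_congr_ae
  filter_upwards [rL_cls hφ hΩ hb ha hab G t] with x h1
  rw [h1, Real.norm_eq_abs, sq_abs]


/-! ### Multiplication operators -/

theorem mulV_cont (h2 : StmMul) (hΩ : MeasurableSet Ω) {ρ : ℝ → L2S Ω} {v : ℝ → L2V Ω}
    (hρ : Continuous ρ) (hv : Continuous v)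
    (hbd : ∀ t, ∀ᵐ x ∂(volume.restrict Ω), 1 ≤ ρ t x ∧ ρ t x ≤ 2) :
    Continuous (fun t => mulV (ρ t) (v t)) := by
  rw [continuous_iff_continuousAt]
  intro t
  have hs : Tendsto (fun s => mulV (ρ s) (v t)) (𝓝 t) (𝓝 (mulV (ρ t) (v t))) :=
    (h2 Ω hΩ (ρ t) (hbd t)).2.2.2.2.2.2.1 ℝ (𝓝 t) ρ hbd (hρ.tendsto t) (v t)
  have hd : Tendsto (fun s => mulV (ρ s) (v s) - mulV (ρ s) (v t)) (𝓝 t) (𝓝 0) := by
    have hb : ∀ s, ‖mulV (ρ s) (v s) - mulV (ρ s) (v t)‖ ≤ 2 * ‖v s - v t‖ := by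
      intro s
      obtain ⟨⟨R, hR⟩, -, -, -, -, hn, -⟩ := h2 Ω hΩ (ρ s) (hbd s)
      rw [← hR, ← hR, ← map_sub, hR]
      exact hn _
    refine squeeze_zero_norm hb ?_
    have h3 : Tendsto (fun s => 2 * ‖v s - v t‖) (𝓝 t) (𝓝 (2 * ‖v t - v t‖)) := by
      have : Continuous (fun s => 2 * ‖v s - v t‖) := by fun_prop
      exact this.tendsto t
    simpa using h3
  have := hd.add hs
  simpa [ContinuousAt] using this

/-- `⟪mulV ρ v, w⟫` for the density of a Galerkin solution -/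
theorem inner_mul (h2 : StmMul) (hφ : ∀ k, IsTest Ω (φ k)) (hΩ : MeasurableSet Ω)
    (hb : Bornology.IsBounded Ω) (ha : Measurable a) (hab : ∀ x, 1 ≤ a x ∧ a x ≤ 2)
    (G : IsGal φ t0 T a f c c' X Y) (t : ℝ) {v w : L2V Ω} {v' w' : E3 → E3} (hv : ClsV v v')
    (hw : ClsV w w') (hw0 : ∀ x, x ∉ Ω → w' x = 0) :
    ⟪mulV (rL hΩ hb ha hab G t) v, w⟫_ℝ = ∫ x, a x * ⟪v' (X t x), w' (X t x)⟫_ℝ := by
  rw [(h2 Ω hΩ _ (rL_bd hφ hΩ hb ha hab G t)).2.2.1 v w]
  have hF : (fun x => ⟪v x, w x⟫_ℝ) =ᵐ[volume.restrict Ω] fun x => ⟪v' x, w' x⟫_ℝ := by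
    filter_upwards [hv, hw] with x h1 h2
    rw [h1, h2]
  rw [int_rL hφ hΩ hb ha hab G t hF]
  apply setIntegral_eq_integral_of_forall_compl_eq_zero
  intro x hx
  rw [hw0 (X t x) (by rwa [X_mem_iff hφ G t x])]
  simp

/-- the energy -/
noncomputable def en (hφ : ∀ k, IsTest Ω (φ k)) (hΩ : MeasurableSet Ω)
    (hb : Bornology.IsBounded Ω) (ha : Measurable a) (hab : ∀ x, 1 ≤ a x ∧ a x ≤ 2)
    (G : IsGal φ t0 T a f c c' X Y) (t : ℝ) : ℝ :=
  (1 / 2) * ⟪mulV (rL hΩ hb ha hab G t) (uL hφ (c t)), uL hφ (c t)⟫_ℝ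

theorem en_eq (h2 : StmMul) (hφ : ∀ k, IsTest Ω (φ k)) (hΩ : MeasurableSet Ω)
    (hb : Bornology.IsBounded Ω) (ha : Measurable a) (hab : ∀ x, 1 ≤ a x ∧ a x ≤ 2)
    (G : IsGal φ t0 T a f c c' X Y) (t : ℝ) :
    en hφ hΩ hb ha hab G t = (1 / 2) * ∫ x, a x * ‖fld φ (c t) (X t x)‖ ^ 2 := by
  unfold en
  rw [inner_mul h2 hφ hΩ hb ha hab G t (uL_cls hφ (c t)) (uL_cls hφ (c t))
    (fun x hx => test_zero_of_notMem (isTest_fld hφ _) hx)]
  simp_rw [real_inner_self_eq_norm_sq]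

theorem en_cont (h2 : StmMul) (hφ : ∀ k, IsTest Ω (φ k)) (hΩ : MeasurableSet Ω)
    (hb : Bornology.IsBounded Ω) (ha : Measurable a) (hab : ∀ x, 1 ≤ a x ∧ a x ≤ 2)
    (G : IsGal φ t0 T a f c c' X Y) : Continuous (en hφ hΩ hb ha hab G) := by
  unfold en
  have h3 : Continuous (fun t => uL hφ (c t)) := (cont_uL hφ).comp G.cc
  exact continuous_const.mul
    ((mulV_cont h2 hΩ (cont_rL hΩ hb ha hab G) h3 (rL_bd hφ hΩ hb ha hab G)).inner h3)

/-- the power of the force -/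
noncomputable def pw (hφ : ∀ k, IsTest Ω (φ k)) (hΩ : MeasurableSet Ω)
    (hb : Bornology.IsBounded Ω) (ha : Measurable a) (hab : ∀ x, 1 ≤ a x ∧ a x ≤ 2)
    (G : IsGal φ t0 T a f c c' X Y) (fL : ℝ → L2V Ω) (t : ℝ) : ℝ :=
  ⟪mulV (rL hΩ hb ha hab G t) (fL t), uL hφ (c t)⟫_ℝ

theorem en_deriv (h1 : StmEN) (h2 : StmMul) (hφ : ∀ k, IsTest Ω (φ k)) (hΩ : MeasurableSet Ω)
    (hb : Bornology.IsBounded Ω) (ht0 : t0 < T) (ha : Measurable a) (hab : ∀ x, 1 ≤ a x ∧ a x ≤ 2)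
    (hf : ∀ t ∈ Icc t0 T, Continuous (f t))
    (G : IsGal φ t0 T a f c c' X Y) {fL : ℝ → L2V Ω} (hfL : ∀ s, ClsV (fL s) (f s))
    {t : ℝ} (htT : t < T) :
    HasDerivWithinAt (en hφ hΩ hb ha hab G)
      (- ‖zL hφ (c t)‖ ^ 2 + pw hφ hΩ hb ha hab G fL t) (Ioi t) t := by
  rcases lt_or_ge t t0 with h | h
  · have hz : ‖zL hφ (c t)‖ = 0 := by rw [G.c0 t h.le, zL_zero, norm_zero]
    have hp : pw hφ hΩ hb ha hab G fL t = 0 := by
      unfold pw
      rw [G.c0 t h.le, uL_zero, inner_zero_right]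
    rw [hz, hp]
    have h0 : en hφ hΩ hb ha hab G =ᶠ[𝓝 t] fun _ => 0 := by
      filter_upwards [gt_mem_nhds h] with s hs
      unfold en
      rw [G.c0 s hs.le, uL_zero, inner_zero_right, mul_zero]
    have := ((hasDerivAt_const t (0 : ℝ)).congr_of_eventuallyEq h0).hasDerivWithinAt (s := Ioi t)
    simpa using this
  · have htI : t ∈ Icc t0 T := ⟨h, htT.le⟩
    have hE := h1 Ω N φ hφ t0 T a f c c' X Y ht0 ha hab hf G (fun _ => 0) (fun _ => 0)
      (fun s _ => hasDerivWithinAt_const _ _ _) continuousOn_const t htI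
    have hj0 : ∀ x, jac (fld φ 0) x = 0 := by
      intro x
      rw [fld_zero, jac_zero]
    have hf0 : ∀ x v, fderiv ℝ (fld φ 0) x v = 0 := by
      intro x v
      rw [fld_zero]
      simp
    simp only [sub_zero, hj0, hf0, fld_zero', inner_zero_left, integral_zero, add_zero,
      mul_zero] at hE
    have he : en hφ hΩ hb ha hab G
        = fun s => (1 / 2) * ∫ x, a x * ‖fld φ (c s) (X s x)‖ ^ 2 := by
      funext s
      exact en_eq h2 hφ hΩ hb ha hab G s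
    rw [he, norm_zL]
    unfold pw
    rw [inner_mul h2 hφ hΩ hb ha hab G t (hfL t) (uL_cls hφ (c t))
      (fun x hx => test_zero_of_notMem (isTest_fld hφ _) hx)]
    exact hE.mono_of_mem_nhdsWithin
      (mem_of_superset (Ioc_mem_nhdsGT htT) (fun s hs => ⟨h.trans hs.1.le, hs.2⟩))

theorem norm_fL {K : ℝ} {fL : ℝ → L2V Ω}
    (hK : ∀ s, Integrable (fun x => ‖f s x‖ ^ 2) ∧ ∫ x, ‖f s x‖ ^ 2 ≤ K)
    (hfL : ∀ s, ClsV (fL s) (f s)) (s : ℝ) : ‖fL s‖ ^ 2 ≤ |K| := by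
  rw [norm_sq_Lp]
  have h1 : ∫ x in Ω, ‖fL s x‖ ^ 2 = ∫ x in Ω, ‖f s x‖ ^ 2 := by
    apply integral_congr_ae
    filter_upwards [hfL s] with x hx
    rw [hx]
  rw [h1]
  exact (setIntegral_le_integral (hK s).1 (Eventually.of_forall (fun x => by positivity))).trans
    ((hK s).2.trans (le_abs_self K))

theorem pw_le (h2 : StmMul) (hφ : ∀ k, IsTest Ω (φ k)) (hΩ : MeasurableSet Ω)
    (hb : Bornology.IsBounded Ω) (ha : Measurable a) (hab : ∀ x, 1 ≤ a x ∧ a x ≤ 2)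
    (G : IsGal φ t0 T a f c c' X Y) {K : ℝ} {fL : ℝ → L2V Ω}
    (hK : ∀ s, Integrable (fun x => ‖f s x‖ ^ 2) ∧ ∫ x, ‖f s x‖ ^ 2 ≤ K)
    (hfL : ∀ s, ClsV (fL s) (f s)) (t : ℝ) :
    |pw hφ hΩ hb ha hab G fL t| ≤ 2 * |K| + en hφ hΩ hb ha hab G t := by
  obtain ⟨-, -, -, -, hlow, hn, -⟩ := h2 Ω hΩ _ (rL_bd hφ hΩ hb ha hab G t)
  have h3 : |pw hφ hΩ hb ha hab G fL t| ≤ 2 * ‖fL t‖ * ‖uL hφ (c t)‖ :=
    (abs_real_inner_le_norm _ _).trans (mul_le_mul_of_nonneg_right (hn _) (norm_nonneg _))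
  have h4 := hlow (uL hφ (c t))
  have h5 := norm_fL hK hfL t
  have h6 : en hφ hΩ hb ha hab G t
      = (1 / 2) * ⟪mulV (rL hΩ hb ha hab G t) (uL hφ (c t)), uL hφ (c t)⟫_ℝ := rfl
  nlinarith [sq_nonneg (2 * ‖fL t‖ - ‖uL hφ (c t)‖)]

theorem en_low (h2 : StmMul) (hφ : ∀ k, IsTest Ω (φ k)) (hΩ : MeasurableSet Ω)
    (hb : Bornology.IsBounded Ω) (ha : Measurable a) (hab : ∀ x, 1 ≤ a x ∧ a x ≤ 2)
    (G : IsGal φ t0 T a f c c' X Y) (t : ℝ) :
    (1 / 2) * ‖uL hφ (c t)‖ ^ 2 ≤ en hφ hΩ hb ha hab G t := by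
  obtain ⟨-, -, -, -, hlow, hn, -⟩ := h2 Ω hΩ _ (rL_bd hφ hΩ hb ha hab G t)
  have h4 := hlow (uL hφ (c t))
  have h6 : en hφ hΩ hb ha hab G t
      = (1 / 2) * ⟪mulV (rL hΩ hb ha hab G t) (uL hφ (c t)), uL hφ (c t)⟫_ℝ := rfl
  linarith

theorem pw_meas (h2 : StmMul) (hφ : ∀ k, IsTest Ω (φ k)) (hΩ : MeasurableSet Ω)
    (hb : Bornology.IsBounded Ω) (ha : Measurable a) (hab : ∀ x, 1 ≤ a x ∧ a x ≤ 2)
    (G : IsGal φ t0 T a f c c' X Y) {fL : ℝ → L2V Ω} (hm : StronglyMeasurable fL) :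
    StronglyMeasurable (pw hφ hΩ hb ha hab G fL) := by
  have h3 : Continuous (fun t => uL hφ (c t)) := (cont_uL hφ).comp G.cc
  have h4 := mulV_cont h2 hΩ (cont_rL hΩ hb ha hab G) h3 (rL_bd hφ hΩ hb ha hab G)
  have h5 : pw hφ hΩ hb ha hab G fL
      = fun t => ⟪fL t, mulV (rL hΩ hb ha hab G t) (uL hφ (c t))⟫_ℝ := by
    funext t
    unfold pw
    exact (h2 Ω hΩ _ (rL_bd hφ hΩ hb ha hab G t)).2.2.2.1 _ _
  rw [h5]
  exact hm.inner h4.stronglyMeasurable

theorem pw_int (h2 : StmMul) (hφ : ∀ k, IsTest Ω (φ k)) (hΩ : MeasurableSet Ω)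
    (hb : Bornology.IsBounded Ω) (ha : Measurable a) (hab : ∀ x, 1 ≤ a x ∧ a x ≤ 2)
    (G : IsGal φ t0 T a f c c' X Y) {K : ℝ} {fL : ℝ → L2V Ω}
    (hK : ∀ s, Integrable (fun x => ‖f s x‖ ^ 2) ∧ ∫ x, ‖f s x‖ ^ 2 ≤ K)
    (hfL : ∀ s, ClsV (fL s) (f s)) (hm : StronglyMeasurable fL) (s t : ℝ) :
    IntervalIntegrable (pw hφ hΩ hb ha hab G fL) volume s t := by
  have hc : Continuous (fun t => 2 * |K| + en hφ hΩ hb ha hab G t) :=
    continuous_const.add (en_cont h2 hφ hΩ hb ha hab G)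
  refine (hc.intervalIntegrable s t).mono_fun' 
    (pw_meas h2 hφ hΩ hb ha hab G hm).aestronglyMeasurable ?_
  exact Eventually.of_forall (fun r => pw_le h2 hφ hΩ hb ha hab G hK hfL r)

/-- the energy balance -/
theorem en_balance (h1 : StmEN) (h2 : StmMul) (hφ : ∀ k, IsTest Ω (φ k)) (hΩ : MeasurableSet Ω)
    (hb : Bornology.IsBounded Ω) (ht0 : t0 < T) (ha : Measurable a) (hab : ∀ x, 1 ≤ a x ∧ a x ≤ 2)
    (hf : ∀ t ∈ Icc t0 T, Continuous (f t))
    (G : IsGal φ t0 T a f c c' X Y) {K : ℝ} {fL : ℝ → L2V Ω}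
    (hK : ∀ s, Integrable (fun x => ‖f s x‖ ^ 2) ∧ ∫ x, ‖f s x‖ ^ 2 ≤ K)
    (hfL : ∀ s, ClsV (fL s) (f s)) (hm : StronglyMeasurable fL) (h0 : 0 < t0)
    {t : ℝ} (ht : t ∈ Icc 0 T) :
    en hφ hΩ hb ha hab G t + (∫ s in (0 : ℝ)..t, ‖zL hφ (c s)‖ ^ 2)
      = ∫ s in (0 : ℝ)..t, pw hφ hΩ hb ha hab G fL s := by
  have hz : Continuous (fun s => ‖zL hφ (c s)‖ ^ 2) :=
    (((cont_zL hφ).comp G.cc).norm).pow 2
  have hp := pw_int h2 hφ hΩ hb ha hab G hK hfL hm 0 t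
  have hz' : IntervalIntegrable (fun s => -‖zL hφ (c s)‖ ^ 2) volume 0 t :=
    hz.neg.intervalIntegrable _ _
  have hFT := intervalIntegral.integral_eq_sub_of_hasDeriv_right_of_le ht.1
    (en_cont h2 hφ hΩ hb ha hab G).continuousOn
    (fun τ hτ => en_deriv h1 h2 hφ hΩ hb ht0 ha hab hf G hfL (hτ.2.trans_le ht.2))
    (hz'.add hp)
  rw [intervalIntegral.integral_add hz' hp, intervalIntegral.integral_neg] at hFT
  have he0 : en hφ hΩ hb ha hab G 0 = 0 := by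
    unfold en
    rw [G.c0 0 h0.le, uL_zero, inner_zero_right, mul_zero]
  rw [he0] at hFT
  linarith

/-- Gronwall -/
theorem en_up (h1 : StmEN) (h2 : StmMul) (hφ : ∀ k, IsTest Ω (φ k)) (hΩ : MeasurableSet Ω)
    (hb : Bornology.IsBounded Ω) (ht0 : t0 < T) (ha : Measurable a) (hab : ∀ x, 1 ≤ a x ∧ a x ≤ 2)
    (hf : ∀ t ∈ Icc t0 T, Continuous (f t))
    (G : IsGal φ t0 T a f c c' X Y) {K : ℝ} {fL : ℝ → L2V Ω}
    (hK : ∀ s, Integrable (fun x => ‖f s x‖ ^ 2) ∧ ∫ x, ‖f s x‖ ^ 2 ≤ K)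
    (hfL : ∀ s, ClsV (fL s) (f s)) (h0 : 0 < t0)
    {t : ℝ} (ht : t ∈ Icc 0 T) :
    en hφ hΩ hb ha hab G t ≤ 2 * |K| * (Real.exp T - 1) := by
  have he0 : en hφ hΩ hb ha hab G 0 = 0 := by
    unfold en
    rw [G.c0 0 h0.le, uL_zero, inner_zero_right, mul_zero]
  have hg := le_gronwallBound_of_liminf_deriv_right_le (f := en hφ hΩ hb ha hab G)
    (f' := fun s => - ‖zL hφ (c s)‖ ^ 2 + pw hφ hΩ hb ha hab G fL s) (δ := 0) (K := 1)
    (ε := 2 * |K|) (a := 0) (b := T) (en_cont h2 hφ hΩ hb ha hab G).continuousOn ?_ he0.le ?_ t ht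
  · rw [sub_zero, gronwallBound_of_K_ne_0 one_ne_zero] at hg
    have hexp : Real.exp (1 * t) ≤ Real.exp T := Real.exp_le_exp.mpr (by linarith [ht.2])
    have h3 : 0 ≤ 2 * |K| := by positivity
    calc en hφ hΩ hb ha hab G t ≤ 0 * Real.exp (1 * t) + 2 * |K| / 1 * (Real.exp (1 * t) - 1) :=
          hg
      _ ≤ 2 * |K| * (Real.exp T - 1) := by
          rw [zero_mul, zero_add, div_one]
          exact mul_le_mul_of_nonneg_left (by linarith) h3
  · intro x hx r hr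
    have hd := en_deriv h1 h2 hφ hΩ hb ht0 ha hab hf G hfL hx.2
    have := (hd.limsup_slope_le' (lt_irrefl x) hr).frequently
    refine this.mono (fun z hz => ?_)
    rw [slope_def_field] at hz
    rw [inv_mul_eq_div]
    exact hz
  · intro x hx
    have h3 := (le_abs_self _).trans (pw_le h2 hφ hΩ hb ha hab G hK hfL x)
    have h4 : 0 ≤ ‖zL hφ (c x)‖ ^ 2 := by positivity
    linarith


/-! ### Transport and momentum -/

theorem transport (hφ : ∀ k, IsTest Ω (φ k)) (hΩ : MeasurableSet Ω)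
    (hb : Bornology.IsBounded Ω) (ha : Measurable a) (hab : ∀ x, 1 ≤ a x ∧ a x ≤ 2)
    (G : IsGal φ t0 T a f c c' X Y) {q : E3 → ℝ} (hq : ContDiff ℝ ∞ q) {s t : ℝ}
    (hst : s ≤ t) (htT : t ≤ T) :
    (∫ x in Ω, rL hΩ hb ha hab G t x * q x) - (∫ x in Ω, rL hΩ hb ha hab G s x * q x)
      = ∫ τ in s..t, ∫ x in Ω, rL hΩ hb ha hab G τ x * fderiv ℝ q x (uL hφ (c τ) x) := by
  have habs : ∀ x, |a x| ≤ 2 := fun x => by
    rw [abs_le]; constructor <;> linarith [(hab x).1, (hab x).2]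
  have hcf := cont_fld hφ G.cc G.Xc
  rw [int_rL hφ hΩ hb ha hab G t (F := q) (F' := q) (EventuallyEq.refl _ _),
    int_rL hφ hΩ hb ha hab G s (F := q) (F' := q) (EventuallyEq.refl _ _),
    int_ftc hΩ hb ha habs (g := fun r y => q (X r y))
      (g' := fun r y => fderiv ℝ q (X r y) (fld φ (c r) (X r y))) hst
      (hq.continuous.comp G.Xc)
      (((hq.continuous_fderiv (by simp)).comp G.Xc).clm_apply hcf)
      (fun τ hτ y => by
        have hd : HasFDerivAt q (fderiv ℝ q (X τ y)) (X τ y) :=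
          ((hq.differentiable (by simp)) _).hasFDerivAt
        exact hd.comp_hasDerivWithinAt τ (dX_right G (hτ.2.trans_le htT) y))]
  apply intervalIntegral.integral_congr
  intro τ _
  simp only
  rw [int_rL hφ hΩ hb ha hab G τ (F := fun x => fderiv ℝ q x (uL hφ (c τ) x))
    (F' := fun x => fderiv ℝ q x (fld φ (c τ) x))]
  filter_upwards [uL_cls hφ (c τ)] with x hx
  rw [hx]

/-- time derivative of the velocity along the flow -/
theorem vel_deriv (hφ : ∀ k, IsTest Ω (φ k)) (G : IsGal φ t0 T a f c c' X Y) {t : ℝ}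
    (ht : t0 ≤ t) (htT : t < T) (y : E3) :
    HasDerivWithinAt (fun r => fld φ (c r) (X r y))
      (fld φ (c' t) (X t y) + fderiv ℝ (fld φ (c t)) (X t y) (fld φ (c t) (X t y)))
      (Ioi t) t := by
  have hc : HasDerivWithinAt c (c' t) (Ioi t) t :=
    (G.dc t ⟨ht, htT.le⟩).mono_of_mem_nhdsWithin
      (mem_of_superset (Ioc_mem_nhdsGT htT) (fun s hs => ⟨ht.trans hs.1.le, hs.2⟩))
  have hX := dX_right G htT y
  have hk : ∀ k, HasDerivWithinAt (fun r => c r k • φ k (X r y))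
      (c t k • fderiv ℝ (φ k) (X t y) (fld φ (c t) (X t y)) + c' t k • φ k (X t y)) (Ioi t) t := by
    intro k
    have h1 : HasDerivWithinAt (fun r => c r k) (c' t k) (Ioi t) t :=
      (hasDerivWithinAt_pi.mp hc) k
    have h2 : HasFDerivAt (φ k) (fderiv ℝ (φ k) (X t y)) (X t y) :=
      (((hφ k).smooth.differentiable (by simp)) _).hasFDerivAt
    exact h1.smul (h2.comp_hasDerivWithinAt t hX)
  have hs := HasDerivWithinAt.fun_sum (u := Finset.univ) (fun k _ => hk k)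
  have he : fld φ (c' t) (X t y) + fderiv ℝ (fld φ (c t)) (X t y) (fld φ (c t) (X t y))
      = ∑ k, (c t k • fderiv ℝ (φ k) (X t y) (fld φ (c t) (X t y)) + c' t k • φ k (X t y)) := by
    rw [fderiv_fld hφ, Finset.sum_add_distrib, add_comm, _root_.sum_apply]
    rfl
  rw [he]
  exact hs

/-- the Galerkin equation for a combination of the basis, integrated over `Ω` -/
theorem eqn_fld (hφ : ∀ k, IsTest Ω (φ k)) (hΩ : MeasurableSet Ω)
    (hb : Bornology.IsBounded Ω) (ha : Measurable a) (hab : ∀ x, 1 ≤ a x ∧ a x ≤ 2)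
    (hf : ∀ t ∈ Icc t0 T, Continuous (f t))
    (G : IsGal φ t0 T a f c c' X Y) (b : Fin N → ℝ) {t : ℝ} (ht : t ∈ Icc t0 T) :
    (∫ x in Ω, a x * ⟪fld φ (c' t) (X t x)
        + fderiv ℝ (fld φ (c t)) (X t x) (fld φ (c t) (X t x)) - f t (X t x),
          fld φ b (X t x)⟫_ℝ)
      + ∫ x in Ω, ⟪jac (fld φ (c t)) x, jac (fld φ b) x⟫_ℝ = 0 := by
  have habs : ∀ x, |a x| ≤ 2 := fun x => by
    rw [abs_le]; constructor <;> linarith [(hab x).1, (hab x).2]
  set A : E3 → E3 := fun x => fld φ (c' t) (X t x)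
        + fderiv ℝ (fld φ (c t)) (X t x) (fld φ (c t) (X t x)) - f t (X t x) with hA
  have hsl : Continuous (fun y : E3 => ((t, y) : ℝ × E3)) := by fun_prop
  have hAc : Continuous A := by
    have h1 := (cont_fld hφ G.cc' G.Xc).comp hsl
    have h2 := (cont_fderiv_fld hφ G.cc G.Xc (v := fun r y => fld φ (c r) (X r y))
      (cont_fld hφ G.cc G.Xc)).comp hsl
    have h3 := (hf t ht).comp (X_cont G t)
    exact (h1.add h2).sub h3
  have hl : ∀ l, (∫ x in Ω, a x * ⟪A x, φ l (X t x)⟫_ℝ)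
      + ∫ x in Ω, ⟪jac (fld φ (c t)) x, jac (φ l) x⟫_ℝ = 0 := by
    intro l
    have h := G.eqn t ht l
    rw [setIntegral_eq_integral_of_forall_compl_eq_zero,
      setIntegral_eq_integral_of_forall_compl_eq_zero]
    · exact h
    · intro x hx
      rw [jac_zero_of_notMem (hφ l) hx, inner_zero_right]
    · intro x hx
      rw [test_zero_of_notMem (hφ l) (by rwa [X_mem_iff hφ G t x]), inner_zero_right, mul_zero]
  have e1 : ∫ x in Ω, a x * ⟪A x, fld φ b (X t x)⟫_ℝ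
      = ∑ l, b l * ∫ x in Ω, a x * ⟪A x, φ l (X t x)⟫_ℝ := by
    have : ∀ x, a x * ⟪A x, fld φ b (X t x)⟫_ℝ = ∑ l, b l * (a x * ⟪A x, φ l (X t x)⟫_ℝ) := by
      intro x
      simp only [fld, inner_sum, inner_smul_right, Finset.mul_sum]
      exact Finset.sum_congr rfl (fun l _ => by ring)
    simp_rw [this]
    rw [integral_finsetSum]
    · exact Finset.sum_congr rfl (fun l _ => integral_const_mul _ _)
    · intro l _
      refine Integrable.const_mul (integrable_of_cont hΩ hb ha habs ?_) _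
      exact hAc.inner ((hφ l).smooth.continuous.comp (X_cont G t))
  have e2 : ∫ x in Ω, ⟪jac (fld φ (c t)) x, jac (fld φ b) x⟫_ℝ
      = ∑ l, b l * ∫ x in Ω, ⟪jac (fld φ (c t)) x, jac (φ l) x⟫_ℝ := by
    have : ∀ x, ⟪jac (fld φ (c t)) x, jac (fld φ b) x⟫_ℝ
        = ∑ l, b l * ⟪jac (fld φ (c t)) x, jac (φ l) x⟫_ℝ := by
      intro x
      rw [jac_fld hφ b]
      simp only [inner_sum, inner_smul_right]
    simp_rw [this]
    rw [integral_finsetSum]
    · exact Finset.sum_congr rfl (fun l _ => integral_const_mul _ _)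
    · intro l _
      refine Integrable.const_mul ?_ _
      have := integrable_of_cont hΩ hb (a := fun _ => 1) measurable_const (fun x => by norm_num)
        (g := fun x => ⟪jac (fld φ (c t)) x, jac (φ l) x⟫_ℝ)
        ((continuous_jac (isTest_fld hφ _).smooth).inner (continuous_jac (hφ l).smooth))
      simpa using this
  rw [e1, e2, ← Finset.sum_add_distrib]
  refine Finset.sum_eq_zero (fun l _ => ?_)
  rw [← mul_add, hl l, mul_zero]

theorem momentum (hφ : ∀ k, IsTest Ω (φ k)) (hΩ : MeasurableSet Ω)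
    (hb : Bornology.IsBounded Ω) (ha : Measurable a) (hab : ∀ x, 1 ≤ a x ∧ a x ≤ 2)
    (hf : ∀ t ∈ Icc t0 T, Continuous (f t))
    (G : IsGal φ t0 T a f c c' X Y) {fL : ℝ → L2V Ω} (hfL : ∀ s, ClsV (fL s) (f s))
    (b : Fin N → ℝ) {s t : ℝ} (hs : t0 ≤ s)
    (hst : s ≤ t) (htT : t ≤ T) :
    (∫ x in Ω, rL hΩ hb ha hab G t x * ⟪uL hφ (c t) x, fld φ b x⟫_ℝ)
      - (∫ x in Ω, rL hΩ hb ha hab G s x * ⟪uL hφ (c s) x, fld φ b x⟫_ℝ)
      = ∫ τ in s..t, momI (rL hΩ hb ha hab G τ) (uL hφ (c τ)) (zL hφ (c τ)) (fL τ)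
          (fld φ b) := by
  have habs : ∀ x, |a x| ≤ 2 := fun x => by
    rw [abs_le]; constructor <;> linarith [(hab x).1, (hab x).2]
  have hψ := isTest_fld hφ b
  set ψ := fld φ b with hψdef
  have hψd : ∀ x, HasFDerivAt ψ (fderiv ℝ ψ x) x := fun x =>
    ((hψ.smooth.differentiable (by simp)) x).hasFDerivAt
  have hψc : Continuous (fderiv ℝ ψ) := hψ.smooth.continuous_fderiv (by simp)
  have hcf := cont_fld hφ G.cc G.Xc
  have hcf' := cont_fld hφ G.cc' G.Xc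
  have hcd := cont_fderiv_fld hφ G.cc G.Xc (v := fun r y => fld φ (c r) (X r y)) hcf
  have hU : ∀ r, (fun x => ⟪uL hφ (c r) x, ψ x⟫_ℝ) =ᵐ[volume.restrict Ω]
      fun x => ⟪fld φ (c r) x, ψ x⟫_ℝ := by
    intro r
    filter_upwards [uL_cls hφ (c r)] with x hx
    rw [hx]
  rw [int_rL hφ hΩ hb ha hab G t (hU t), int_rL hφ hΩ hb ha hab G s (hU s),
    int_ftc hΩ hb ha habs (g := fun r y => ⟪fld φ (c r) (X r y), ψ (X r y)⟫_ℝ)
      (g' := fun r y => ⟪fld φ (c r) (X r y), fderiv ℝ ψ (X r y) (fld φ (c r) (X r y))⟫_ℝ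
        + ⟪fld φ (c' r) (X r y) + fderiv ℝ (fld φ (c r)) (X r y) (fld φ (c r) (X r y)),
            ψ (X r y)⟫_ℝ) hst
      (hcf.inner (hψ.smooth.continuous.comp G.Xc))
      ((hcf.inner ((hψc.comp G.Xc).clm_apply hcf)).add
        ((hcf'.add hcd).inner (hψ.smooth.continuous.comp G.Xc)))
      (fun τ hτ y => by
        have hτT : τ < T := hτ.2.trans_le htT
        have h1 := vel_deriv hφ G (hs.trans hτ.1.le) hτT y
        have h2 := (hψd (X τ y)).comp_hasDerivWithinAt τ (dX_right G hτT y)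
        exact h1.inner ℝ h2)]
  apply intervalIntegral.integral_congr
  intro τ hτ
  rw [uIcc_of_le hst] at hτ
  have hτI : τ ∈ Icc t0 T := ⟨hs.trans hτ.1, hτ.2.trans htT⟩
  simp only
  have hsl : Continuous (fun y : E3 => ((τ, y) : ℝ × E3)) := by fun_prop
  -- integrability
  have i1 : Integrable (fun y => a y * ⟪fld φ (c τ) (X τ y),
      fderiv ℝ ψ (X τ y) (fld φ (c τ) (X τ y))⟫_ℝ) (volume.restrict Ω) :=
    integrable_of_cont hΩ hb ha habs
      ((hcf.inner ((hψc.comp G.Xc).clm_apply hcf)).comp hsl)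
  have i2 : Integrable (fun y => a y * ⟪fld φ (c' τ) (X τ y)
      + fderiv ℝ (fld φ (c τ)) (X τ y) (fld φ (c τ) (X τ y)), ψ (X τ y)⟫_ℝ)
      (volume.restrict Ω) :=
    integrable_of_cont hΩ hb ha habs
      (((hcf'.add hcd).inner (hψ.smooth.continuous.comp G.Xc)).comp hsl)
  have i3 : Integrable (fun y => a y * ⟪f τ (X τ y), ψ (X τ y)⟫_ℝ) (volume.restrict Ω) :=
    integrable_of_cont hΩ hb ha habs
      (((hf τ hτI).comp (X_cont G τ)).inner (hψ.smooth.continuous.comp (X_cont G τ)))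
  have hE := eqn_fld hφ hΩ hb ha hab hf G b hτI
  rw [← hψdef] at hE
  have e0 : (∫ x in Ω, a x * ⟪fld φ (c' τ) (X τ x)
        + fderiv ℝ (fld φ (c τ)) (X τ x) (fld φ (c τ) (X τ x)) - f τ (X τ x), ψ (X τ x)⟫_ℝ)
      = (∫ x in Ω, a x * ⟪fld φ (c' τ) (X τ x)
        + fderiv ℝ (fld φ (c τ)) (X τ x) (fld φ (c τ) (X τ x)), ψ (X τ x)⟫_ℝ)
        - ∫ x in Ω, a x * ⟪f τ (X τ x), ψ (X τ x)⟫_ℝ := by
    rw [← integral_sub i2 i3]
    congr 1
    funext x
    rw [inner_sub_left]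
    ring
  rw [e0] at hE
  unfold momI
  have m1 : ∫ x in Ω, rL hΩ hb ha hab G τ x * ⟪uL hφ (c τ) x, fderiv ℝ ψ x (uL hφ (c τ) x)⟫_ℝ
      = ∫ y in Ω, a y * ⟪fld φ (c τ) (X τ y), fderiv ℝ ψ (X τ y) (fld φ (c τ) (X τ y))⟫_ℝ :=
    int_rL hφ hΩ hb ha hab G τ
      (F' := fun x => ⟪fld φ (c τ) x, fderiv ℝ ψ x (fld φ (c τ) x)⟫_ℝ) (by
        filter_upwards [uL_cls hφ (c τ)] with x hx
        rw [hx])
  have m2 : ∫ x in Ω, ⟪zL hφ (c τ) x, jac ψ x⟫_ℝ
      = ∫ x in Ω, ⟪jac (fld φ (c τ)) x, jac ψ x⟫_ℝ := by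
    apply integral_congr_ae
    filter_upwards [zL_cls hφ (c τ)] with x hx
    rw [hx]
  have m3 : ∫ x in Ω, rL hΩ hb ha hab G τ x * ⟪fL τ x, ψ x⟫_ℝ
      = ∫ y in Ω, a y * ⟪f τ (X τ y), ψ (X τ y)⟫_ℝ :=
    int_rL hφ hΩ hb ha hab G τ (F' := fun x => ⟪f τ x, ψ x⟫_ℝ) (by
        filter_upwards [hfL τ] with x hx
        rw [hx])
  rw [m1, m2, m3]
  have e1 : (∫ y in Ω, a y * (⟪fld φ (c τ) (X τ y),
      fderiv ℝ ψ (X τ y) (fld φ (c τ) (X τ y))⟫_ℝ
        + ⟪fld φ (c' τ) (X τ y) + fderiv ℝ (fld φ (c τ)) (X τ y) (fld φ (c τ) (X τ y)),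
            ψ (X τ y)⟫_ℝ))
      = (∫ y in Ω, a y * ⟪fld φ (c τ) (X τ y), fderiv ℝ ψ (X τ y) (fld φ (c τ) (X τ y))⟫_ℝ)
        + ∫ y in Ω, a y * ⟪fld φ (c' τ) (X τ y)
          + fderiv ℝ (fld φ (c τ)) (X τ y) (fld φ (c τ) (X τ y)), ψ (X τ y)⟫_ℝ := by
    rw [← integral_add i1 i2]
    congr 1
    funext y
    ring
  rw [e1]
  linarith

end flow

end JLev

open JLev in
theorem j_holds (h1 : StmEN) (h2 : StmMul) : StmJ := by
  intro T K hT
  set E : ℝ := 2 * |K| * (Real.exp T - 1) with hE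
  have hexp : 0 ≤ Real.exp T - 1 := by
    have := Real.add_one_le_exp T
    linarith
  have hE0 : 0 ≤ E := by positivity
  set M : ℝ := 1 + 2 * E + T * (2 * |K| + E) with hM
  have hTE : 0 ≤ T * (2 * |K| + E) := by positivity
  have hM1 : 1 ≤ M := by linarith
  have hMM : M ≤ M ^ 2 := by nlinarith
  refine ⟨M, ?_⟩
  intro Ω N φ t0 a f c c' X Y fL hΩo hb hφ h0 ht0 ha hab hf hK hfL hm G
  have hΩ : MeasurableSet Ω := hΩo.measurableSet
  have hup := fun (t : ℝ) (ht : t ∈ Icc 0 T) =>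
    en_up h1 h2 hφ hΩ hb ht0 ha hab hf G hK hfL h0 ht
  have hbal := fun (t : ℝ) (ht : t ∈ Icc 0 T) =>
    en_balance h1 h2 hφ hΩ hb ht0 ha hab hf G hK hfL hm h0 ht
  refine ⟨rL hΩ hb ha hab G, fun t => uL hφ (c t), fun t => zL hφ (c t), ?_, ?_,
    fun t => uL_cls hφ (c t), fun t => zL_cls hφ (c t), ?_⟩
  · refine
      { bd := fun t _ => rL_bd hφ hΩ hb ha hab G t
        rc := (cont_rL hΩ hb ha hab G).continuousOn
        rn := ?_
        tr := fun q hq _ s t _ hst htT => transport hφ hΩ hb ha hab G hq hst htT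
        memW := fun t _ => mem_W hφ (c t)
        ub := ?_
        uc := ((cont_uL hφ).comp G.cc).continuousOn
        zc := ((cont_zL hφ).comp G.cc).continuousOn
        zb := ?_
        u0 := ?_
        en := ?_ }
    · intro t _
      have e1 := norm_rL hφ hΩ hb ha hab G t
      have e2 := norm_rL hφ hΩ hb ha hab G 0
      rw [← e2] at e1
      exact (pow_left_inj₀ (norm_nonneg _) (norm_nonneg _) (by norm_num)).mp e1
    · intro t ht
      have e1 := en_low h2 hφ hΩ hb ha hab G t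
      have e2 := hup t ht
      have e3 : ‖uL hφ (c t)‖ ^ 2 ≤ M ^ 2 := by linarith
      exact (pow_le_pow_iff_left₀ (norm_nonneg _) (by linarith) (by norm_num)).mp e3
    · have e1 := hbal T ⟨hT.le, le_rfl⟩
      have e2 := en_low h2 hφ hΩ hb ha hab G T
      have e3 : ∫ s in (0 : ℝ)..T, JLev.pw hφ hΩ hb ha hab G fL s ≤ T * (2 * |K| + E) := by
        have hle : ∀ s ∈ Icc 0 T, JLev.pw hφ hΩ hb ha hab G fL s ≤ 2 * |K| + E := by
          intro s hs
          have := (le_abs_self _).trans (pw_le h2 hφ hΩ hb ha hab G hK hfL s)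
          have h4 := hup s hs
          linarith
        have := intervalIntegral.integral_mono_on hT.le
          (pw_int h2 hφ hΩ hb ha hab G hK hfL hm 0 T)
          (intervalIntegrable_const (c := 2 * |K| + E)) hle
        rw [intervalIntegral.integral_const] at this
        simpa using this
      have e4 : ∫ t in Ioc 0 T, ‖zL hφ (c t)‖ ^ 2 = ∫ s in (0 : ℝ)..T, ‖zL hφ (c s)‖ ^ 2 :=
        (intervalIntegral.integral_of_le hT.le).symm
      have e5 : 0 ≤ ‖uL hφ (c T)‖ ^ 2 := by positivity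
      rw [e4]
      linarith
    · intro t ht
      rw [G.c0 t ht.2, uL_zero]
    · intro t ht
      exact hbal t ht
  · show ClsS (rL hΩ hb ha hab G 0) a
    unfold ClsS
    filter_upwards [rL_cls hφ hΩ hb ha hab G 0] with x hx
    rw [hx, Y_zero G h0.le]
  · intro b s t hs hst htT
    exact momentum hφ hΩ hb ha hab hf G hfL b hs hst htT

end N979MH
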