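import Pool.Agent.N979.MH.Stm

/-!
Project MH, module LIM: limit of Galerkin solutions, from the modules J and LIMJ.
-/

open MeasureTheory Set Filter Topology
open scoped InnerProductSpace ENNReal ContDiff NNReal

namespace N979MH

open H772R2.NS

theorem lim_normV {Ω : Set E3} {K : ℝ} {v : L2V Ω} {g : E3 → E3} (hv : ClsV v g)
    (hg : Integrable (fun x => ‖g x‖ ^ 2)) (hK : ∫ x, ‖g x‖ ^ 2 ≤ K) : ‖v‖ ≤ Real.sqrt K := by
  apply Real.le_sqrt_of_sq_le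
  have e1 : ‖v‖ ^ 2 = ∫ x in Ω, ‖g x‖ ^ 2 := by
    rw [← real_inner_self_eq_norm_sq, L2.inner_def]
    apply integral_congr_ae
    filter_upwards [hv] with x hx
    rw [hx, real_inner_self_eq_norm_sq]
  rw [e1]
  refine le_trans ?_ hK
  exact setIntegral_le_integral hg (Eventually.of_forall fun x => by positivity)

theorem lim_normS {Ω : Set E3} {v w : L2S Ω} {g h : E3 → ℝ} (hv : ClsS v g) (hw : ClsS w h) :
    ‖v - w‖ ^ 2 = ∫ x in Ω, |g x - h x| ^ 2 := by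
  rw [← real_inner_self_eq_norm_sq, L2.inner_def]
  apply integral_congr_ae
  filter_upwards [hv, hw, Lp.coeFn_sub v w] with x h1 h2 h3
  rw [h3, Pi.sub_apply, h1, h2, real_inner_self_eq_norm_sq, Real.norm_eq_abs]

theorem lim_tendsto {Ω : Set E3} {v : ℕ → L2S Ω} {w : L2S Ω} {g : ℕ → E3 → ℝ} {h : E3 → ℝ}
    (hv : ∀ n, ClsS (v n) (g n)) (hw : ClsS w h)
    (ht : Tendsto (fun n => ∫ x in Ω, |g n x - h x| ^ 2) atTop (𝓝 0)) :
    Tendsto v atTop (𝓝 w) := by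
  rw [tendsto_iff_norm_sub_tendsto_zero]
  have s0 : Tendsto Real.sqrt (𝓝 0) (𝓝 0) := by
    simpa using Real.continuous_sqrt.tendsto 0
  refine (s0.comp ht).congr (fun n => ?_)
  simp only [Function.comp]
  rw [← lim_normS (hv n) hw, Real.sqrt_sq (norm_nonneg _)]

theorem lim_int {Ω : Set E3} {z : L2M Ω} {g : E3 → M3} (hz : ClsM z g) {Z : E3 → E3}
    (hZ : IsTest Ω Z) :
    ∫ x, ⟪g x, jac Z x⟫_ℝ = ∫ x in Ω, ⟪z x, jac Z x⟫_ℝ := by
  have e1 : ∫ x in Ω, ⟪z x, jac Z x⟫_ℝ = ∫ x in Ω, ⟪g x, jac Z x⟫_ℝ := by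
    apply integral_congr_ae
    filter_upwards [hz] with x hx
    rw [hx]
  rw [e1, setIntegral_eq_integral_of_forall_compl_eq_zero]
  intro x hx
  have : jac Z x = 0 := by
    apply image_eq_zero_of_notMem_tsupport
    intro hc
    exact hx (hZ.supp (tsupport_jac_subset hc))
  rw [this, inner_zero_right]

/-- module LIM. -/
theorem lim_holds (h1 : StmJ) (h2 : StmLimJ) : StmLim := by
  intro Ω T K ρ0 f τ a N φ c c' X Y ψ ρ0L fL hΩ hb hT hρm hρb hρ0L hfL hfm hfK hτ hτ0 hfc ham hab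
    hconv hφ hψ hdense hev hgal
  obtain ⟨M, hM⟩ := h1 T K hT
  have hJ : ∀ J, ∃ (ρ : ℝ → L2S Ω) (u : ℝ → L2V Ω) (z : ℝ → L2M Ω), JSol Ω (τ J) T M fL ρ u z ∧
    ClsS (ρ 0) (a J) ∧ (∀ t, ClsV (u t) (fld (φ J) (c J t))) ∧
    (∀ t, ClsM (z t) (jac (fld (φ J) (c J t)))) ∧
    ∀ b : Fin (N J) → ℝ, ∀ s t, τ J ≤ s → s ≤ t → t ≤ T →
      (∫ x in Ω, ρ t x * ⟪u t x, fld (φ J) b x⟫_ℝ) - (∫ x in Ω, ρ s x * ⟪u s x, fld (φ J) b x⟫_ℝ)
        = ∫ τ in s..t, momI (ρ τ) (u τ) (z τ) (fL τ) (fld (φ J) b) := fun J =>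
    hM Ω (N J) (φ J) (τ J) (a J) f (c J) (c' J) (X J) (Y J) fL hΩ hb (hφ J) (hτ J).1 (hτ J).2
      (ham J) (hab J) (hfc J) hfK hfL hfm (hgal J)
  choose ρ u z hsol hρ0 hu hz hmom using hJ
  obtain ⟨ρ', u', G, r1, r2, r3, r4, r5⟩ := h2 Ω T M (Real.sqrt K) fL τ ρ u z ψ ρ0L hΩ hb hT hfm
    (fun s => lim_normV (hfL s) (hfK s).1 (hfK s).2) hτ hτ0 hsol
    (lim_tendsto (fun J => hρ0 J) hρ0L hconv) hψ hdense (by
      intro n
      filter_upwards [hev n] with J hJ s t hs hst ht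
      obtain ⟨b, hb⟩ := hJ
      rw [hb]
      exact hmom J b s t hs hst ht)
  refine ⟨ρ', u', G, r1, r2, r3, r4, ?_⟩
  intro Z hZ s hs σ γ hγ
  refine r5 Z hZ s hs σ γ ?_
  filter_upwards [hγ] with J hJ
  refine hJ.trans (le_of_eq ?_)
  congr 1
  apply intervalIntegral.integral_congr
  intro t _
  exact lim_int (hz J t) hZ

end N979MH
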