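import Mathlib
import Pool.Agent.N979.MH.Stm
import Pool.Agent.H772R2.NSR.Rell
import Pool.Agent.H772R2.NSR.Weak

/-!
Project MH, module LIMJ, part 1: classes of test fields, the frame, the densities.
-/

set_option linter.unusedSectionVars false

open MeasureTheory Set Filter Topology
open scoped InnerProductSpace ENNReal ContDiff NNReal

namespace N979MH
namespace LimJ

open H772R2.NS H772R2.NSR

/-- clamp to `[0,T]` -/
noncomputable def cl (T t : ℝ) : ℝ := max 0 (min t T)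

theorem cl_mem {T : ℝ} (hT : 0 < T) (t : ℝ) : cl T t ∈ Icc 0 T :=
  ⟨le_max_left _ _, max_le hT.le (min_le_right _ _)⟩

theorem cl_eq {T t : ℝ} (ht : t ∈ Icc 0 T) : cl T t = t := by
  unfold cl; rw [min_eq_left ht.2, max_eq_right ht.1]

theorem cl_cont (T : ℝ) : Continuous (cl T) := by unfold cl; fun_prop

theorem normsq_L2 {α E : Type*} [MeasurableSpace α] {μ : Measure α} [NormedAddCommGroup E]
    [InnerProductSpace ℝ E] (v : Lp E 2 μ) : ‖v‖ ^ 2 = ∫ x, ‖v x‖ ^ 2 ∂μ := by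
  rw [← real_inner_self_eq_norm_sq, L2.inner_def]
  simp

section test

variable {Ω : Set E3} {φ ψ : E3 → E3}

/-- class of a test field -/
noncomputable def clV (h : IsTest Ω φ) : L2V Ω := ((h.memLp 2).restrict Ω).toLp φ

/-- class of the Jacobian of a test field -/
noncomputable def clM (h : IsTest Ω φ) : L2M Ω := ((h.jac_memLp 2).restrict Ω).toLp (jac φ)

theorem clV_coe (h : IsTest Ω φ) : (clV h : E3 → E3) =ᵐ[volume.restrict Ω] φ :=
  MemLp.coeFn_toLp _

theorem clM_coe (h : IsTest Ω φ) : (clM h : E3 → M3) =ᵐ[volume.restrict Ω] jac φ :=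
  MemLp.coeFn_toLp _

theorem cl_mem_W (h : IsTest Ω φ) : (clV h, clM h) ∈ graphW Ω :=
  Submodule.le_topologicalClosure _ ⟨φ, h, clV_coe h, clM_coe h⟩

theorem IsTest_sub (h1 : IsTest Ω φ) (h2 : IsTest Ω ψ) : IsTest Ω (fun x => φ x - ψ x) := by
  have := h1.add (h2.smul (-1))
  have e : φ + (-1 : ℝ) • ψ = fun x => φ x - ψ x := by
    funext x; simp [sub_eq_add_neg]
  rwa [e] at this

theorem jac_sub (h1 : IsTest Ω φ) (h2 : IsTest Ω ψ) (x : E3) :
    jac (fun x => φ x - ψ x) x = jac φ x - jac ψ x := by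
  have e : (fun x => φ x - ψ x) = φ + (-1 : ℝ) • ψ := by
    funext x; simp [sub_eq_add_neg]
  rw [e, jac_add h1.smooth (h2.smul (-1)).smooth, jac_smul]
  simp [sub_eq_add_neg]

theorem norm_clV_le (h : IsTest Ω φ) : ‖clV h‖ ≤ nV φ := by
  have h1 : ‖clV h‖ ^ 2 ≤ ∫ x, ‖φ x‖ ^ 2 := by
    rw [normsq_L2]
    have e : ∫ x in Ω, ‖clV h x‖ ^ 2 = ∫ x in Ω, ‖φ x‖ ^ 2 := by
      apply integral_congr_ae
      filter_upwards [clV_coe h] with x hx
      rw [hx]
    rw [e]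
    apply setIntegral_le_integral
    · exact (h.memLp 2).integrable_norm_pow (by norm_num)
    · exact Eventually.of_forall fun x => by positivity
  unfold nV
  exact Real.le_sqrt_of_sq_le h1

theorem norm_clM_le (h : IsTest Ω φ) : ‖clM h‖ ≤ nM (jac φ) := by
  have h1 : ‖clM h‖ ^ 2 ≤ ∫ x, ‖jac φ x‖ ^ 2 := by
    rw [normsq_L2]
    have e : ∫ x in Ω, ‖clM h x‖ ^ 2 = ∫ x in Ω, ‖jac φ x‖ ^ 2 := by
      apply integral_congr_ae
      filter_upwards [clM_coe h] with x hx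
      rw [hx]
    rw [e]
    apply setIntegral_le_integral
    · exact (h.jac_memLp 2).integrable_norm_pow (by norm_num)
    · exact Eventually.of_forall fun x => by positivity
  unfold nM
  exact Real.le_sqrt_of_sq_le h1

theorem clV_sub (h1 : IsTest Ω φ) (h2 : IsTest Ω ψ) :
    clV h1 - clV h2 = clV (IsTest_sub h1 h2) := by
  apply Lp.ext
  filter_upwards [Lp.coeFn_sub (clV h1) (clV h2), clV_coe h1, clV_coe h2,
    clV_coe (IsTest_sub h1 h2)] with x a b c d
  rw [a, d]; simp only [Pi.sub_apply]; rw [b, c]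

theorem clM_sub (h1 : IsTest Ω φ) (h2 : IsTest Ω ψ) :
    clM h1 - clM h2 = clM (IsTest_sub h1 h2) := by
  apply Lp.ext
  filter_upwards [Lp.coeFn_sub (clM h1) (clM h2), clM_coe h1, clM_coe h2,
    clM_coe (IsTest_sub h1 h2)] with x a b c d
  rw [a, d, jac_sub h1 h2]; simp only [Pi.sub_apply]; rw [b, c]

/-- the frame -/
theorem frame (hΩ : IsOpen Ω) (hb : Bornology.IsBounded Ω) {ψ : ℕ → E3 → E3}
    (hψ : ∀ n, IsTest Ω (ψ n))
    (hd : ∀ φ, IsTest Ω φ → ∀ ε : ℝ, 0 < ε → ∃ n, nV (fun x => φ x - ψ n x) < ε ∧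
      nM (fun x => jac φ x - jac (ψ n) x) < ε) :
    AFrame (graphW Ω) {v : L2V Ω | ∃ n, v = clV (hψ n)} where
  closedW := graphW_closed Ω
  uniq := fun z hz => graphW_uniq hΩ z hz
  comp := rellich_W hΩ hb 1
  dens := by
    intro p hp
    have hp' : p ∈ closure (preW Ω : Set (L2V Ω × L2M Ω)) := by
      have := hp
      unfold graphW at this
      rwa [← SetLike.mem_coe, Submodule.topologicalClosure_coe] at this
    have h1 : p.1 ∈ closure (Prod.fst '' (preW Ω : Set (L2V Ω × L2M Ω))) :=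
      image_closure_subset_closure_image continuous_fst ⟨p, hp', rfl⟩
    refine closure_minimal ?_ isClosed_closure h1
    rintro _ ⟨q, ⟨φ, k1, k2, k3⟩, rfl⟩
    rw [Metric.mem_closure_iff]
    intro ε hε
    obtain ⟨n, hn, -⟩ := hd φ k1 ε hε
    refine ⟨clV (hψ n), ⟨n, rfl⟩, ?_⟩
    have e : q.1 = clV k1 := Lp.ext (k2.trans (clV_coe k1).symm)
    rw [dist_eq_norm, e, clV_sub]
    exact (norm_clV_le _).trans_lt hn
  mem := by
    rintro _ ⟨n, rfl⟩
    exact ⟨clM (hψ n), cl_mem_W (hψ n)⟩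

end test

section dens

variable {Ω : Set E3}

theorem norm_rho_le (hfin : volume Ω < ⊤) : ∃ B : ℝ, ∀ ρ : L2S Ω,
    (∀ᵐ x ∂(volume.restrict Ω), 1 ≤ ρ x ∧ ρ x ≤ 2) → ‖ρ‖ ≤ B := by
  have : IsFiniteMeasure (volume.restrict Ω : Measure E3) :=
    ⟨by rwa [Measure.restrict_apply_univ]⟩
  refine ⟨_, fun ρ h => Lp.norm_le_of_ae_bound (C := 2) (by norm_num) ?_⟩
  filter_upwards [h] with x hx
  rw [Real.norm_of_nonneg (by linarith)]
  exact hx.2

theorem weak_bounds {ι : Type*} (hfin : volume Ω < ⊤) {F : Filter ι}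
    [F.NeBot] {ρi : ι → L2S Ω} {ρ0 : L2S Ω}
    (h : ∀ i, ∀ᵐ x ∂(volume.restrict Ω), 1 ≤ ρi i x ∧ ρi i x ≤ 2)
    (hw : ∀ g, Tendsto (fun i => ⟪ρi i, g⟫_ℝ) F (𝓝 ⟪ρ0, g⟫_ℝ)) :
    ∀ᵐ x ∂(volume.restrict Ω), 1 ≤ ρ0 x ∧ ρ0 x ≤ 2 := by
  have : IsFiniteMeasure (volume.restrict Ω : Measure E3) :=
    ⟨by rwa [Measure.restrict_apply_univ]⟩
  have hI : ∀ (ρ : L2S Ω), Integrable ρ (volume.restrict Ω) := fun ρ =>
    (Lp.memLp ρ).integrable (by norm_num)
  have key : ∀ s : Set E3, MeasurableSet s →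
      Tendsto (fun i => ∫ x in s, ρi i x ∂(volume.restrict Ω)) F
        (𝓝 (∫ x in s, ρ0 x ∂(volume.restrict Ω))) := by
    intro s hs
    have h1 := hw (indicatorConstLp 2 hs (measure_ne_top _ _) (1 : ℝ))
    have e : ∀ ρ : L2S Ω, ⟪ρ, indicatorConstLp 2 hs (measure_ne_top _ _) (1 : ℝ)⟫_ℝ
        = ∫ x in s, ρ x ∂(volume.restrict Ω) := by
      intro ρ
      rw [real_inner_comm, L2.inner_indicatorConstLp_one]
    simpa only [e] using h1
  have hlo : (fun _ => (1 : ℝ)) ≤ᵐ[volume.restrict Ω] ρ0 := by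
    refine ae_le_of_forall_setIntegral_le (integrable_const _) (hI ρ0) ?_
    intro s hs _
    refine ge_of_tendsto (key s hs) (Eventually.of_forall fun i => ?_)
    refine integral_mono_ae (integrable_const _).integrableOn (hI _).integrableOn ?_
    filter_upwards [ae_restrict_of_ae (h i)] with x hx using hx.1
  have hhi : ρ0 ≤ᵐ[volume.restrict Ω] (fun _ => (2 : ℝ)) := by
    refine ae_le_of_forall_setIntegral_le (hI ρ0) (integrable_const _) ?_
    intro s hs _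
    refine le_of_tendsto (key s hs) (Eventually.of_forall fun i => ?_)
    refine integral_mono_ae (hI _).integrableOn (integrable_const _).integrableOn ?_
    filter_upwards [ae_restrict_of_ae (h i)] with x hx using hx.2
  filter_upwards [hlo, hhi] with x a b using ⟨a, b⟩

/-- class of a smooth function with compact support -/
theorem memLp_q {q : E3 → ℝ} (hq : ContDiff ℝ ∞ q) (hc : HasCompactSupport q) (p : ℝ≥0∞) :
    MemLp q p (volume.restrict Ω) :=
  (hq.continuous.memLp_of_hasCompactSupport hc).restrict Ω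

/-- the gradient field of a function -/
noncomputable def gr (q : E3 → ℝ) (x : E3) : E3 :=
  (InnerProductSpace.toDual ℝ E3).symm (fderiv ℝ q x)

theorem gr_inner (q : E3 → ℝ) (x v : E3) : ⟪gr q x, v⟫_ℝ = fderiv ℝ q x v := by
  unfold gr
  rw [InnerProductSpace.toDual_symm_apply]

theorem memLp_gr {q : E3 → ℝ} (hq : ContDiff ℝ ∞ q) (hc : HasCompactSupport q) (p : ℝ≥0∞) :
    MemLp (gr q) p (volume.restrict Ω) := by
  have h1 : Continuous (fderiv ℝ q) := hq.continuous_fderiv (by simp)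
  have h2 : Continuous (gr q) := (LinearIsometryEquiv.continuous _).comp h1
  have h3 : HasCompactSupport (gr q) := by
    refine (hc.fderiv ℝ).mono fun x hx h0 => hx ?_
    simp only [gr, h0, map_zero]
  exact (h2.memLp_of_hasCompactSupport h3).restrict Ω

theorem inner_q {q : E3 → ℝ} (ρ g : L2S Ω) (hg : (g : E3 → ℝ) =ᵐ[volume.restrict Ω] q) :
    ⟪ρ, g⟫_ℝ = ∫ x in Ω, ρ x * q x := by
  rw [L2.inner_def]
  apply integral_congr_ae
  filter_upwards [hg] with x hx
  rw [hx]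
  simp [mul_comm]

/-- `∫ ρ u·∇q = ⟪ρ ∇q, u⟫` -/
theorem inner_gr (mu : StmMul) (hΩ : MeasurableSet Ω) {q : E3 → ℝ} {ρ : L2S Ω}
    (hρ : ∀ᵐ x ∂(volume.restrict Ω), 1 ≤ ρ x ∧ ρ x ≤ 2) (V u : L2V Ω)
    (hV : (V : E3 → E3) =ᵐ[volume.restrict Ω] gr q) :
    ⟪mulV ρ V, u⟫_ℝ = ∫ x in Ω, ρ x * fderiv ℝ q x (u x) := by
  rw [(mu Ω hΩ ρ hρ).2.2.1 V u]
  apply integral_congr_ae
  filter_upwards [hV] with x hx
  rw [hx, gr_inner]

end dens

end LimJ
end N979MH
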