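import Mathlib
import Pool.Agent.N979.MH.LimJ1

/-!
Project MH, module LIMJ, part 2: limit density and the multiplication operators.
-/

set_option linter.unusedSectionVars false

open MeasureTheory Set Filter Topology
open scoped InnerProductSpace ENNReal ContDiff NNReal

namespace N979MH
namespace LimJ

open H772R2.NS H772R2.NSR

variable {Ω : Set E3}

/-- equicontinuity of the densities -/
theorem rho_equi (mu : StmMul) (hΩ : MeasurableSet Ω) {T M : ℝ} {q : E3 → ℝ}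
    (hq : ContDiff ℝ ∞ q) (hc : HasCompactSupport q) :
    ∃ C : ℝ, 0 ≤ C ∧ ∀ (t0 : ℝ) (fL : ℝ → L2V Ω) (ρ : ℝ → L2S Ω) (u : ℝ → L2V Ω)
      (z : ℝ → L2M Ω), JSol Ω t0 T M fL ρ u z → ∀ a ∈ Icc 0 T, ∀ b ∈ Icc 0 T,
      |(∫ x in Ω, ρ a x * q x) - ∫ x in Ω, ρ b x * q x| ≤ C * |a - b| := by
  set V : L2V Ω := (memLp_gr hq hc 2).toLp (gr q) with hV
  have hVc : (V : E3 → E3) =ᵐ[volume.restrict Ω] gr q := MemLp.coeFn_toLp _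
  refine ⟨2 * ‖V‖ * |M|, by positivity, ?_⟩
  intro t0 fL ρ u z hJ
  have key : ∀ a ∈ Icc 0 T, ∀ b ∈ Icc 0 T, a ≤ b →
      |(∫ x in Ω, ρ b x * q x) - ∫ x in Ω, ρ a x * q x| ≤ 2 * ‖V‖ * |M| * |b - a| := by
    intro a ha b hb hab
    rw [hJ.tr q hq hc a b ha.1 hab hb.2]
    have := intervalIntegral.norm_integral_le_of_norm_le_const (a := a) (b := b)
      (f := fun τ => ∫ x in Ω, ρ τ x * fderiv ℝ q x (u τ x)) (C := 2 * ‖V‖ * |M|) ?_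
    · simpa [Real.norm_eq_abs] using this
    · intro τ hτ
      rw [uIoc_of_le hab] at hτ
      have hτI : τ ∈ Icc 0 T := ⟨ha.1.trans hτ.1.le, hτ.2.trans hb.2⟩
      rw [← inner_gr mu hΩ (hJ.bd τ hτI) V (u τ) hVc]
      calc ‖⟪mulV (ρ τ) V, u τ⟫_ℝ‖ ≤ ‖mulV (ρ τ) V‖ * ‖u τ‖ := norm_inner_le_norm _ _
        _ ≤ (2 * ‖V‖) * |M| := by
            have h1 := (mu Ω hΩ (ρ τ) (hJ.bd τ hτI)).2.2.2.2.2.1 V
            have h2 := (hJ.ub τ hτI).trans (le_abs_self M)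
            gcongr
  intro a ha b hb
  rcases le_total a b with hab | hab
  · rw [abs_sub_comm, abs_sub_comm a b]; exact key a ha b hb hab
  · exact key b hb a ha hab

/-- the limit density -/
theorem exists_rho (a1 : StmA1a) (mu : StmMul) (hΩ : IsOpen Ω) (hb : Bornology.IsBounded Ω)
    {T M : ℝ} (hT : 0 < T) {fL : ℝ → L2V Ω} {τ : ℕ → ℝ} {ρ : ℕ → ℝ → L2S Ω}
    {u : ℕ → ℝ → L2V Ω} {z : ℕ → ℝ → L2M Ω}
    (hJ : ∀ J, JSol Ω (τ J) T M fL (ρ J) (u J) (z J)) (F : Ultrafilter ℕ) :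
    ∃ ρ' : ℝ → L2S Ω, (∀ t, ∀ᵐ x ∂(volume.restrict Ω), 1 ≤ ρ' t x ∧ ρ' t x ≤ 2) ∧
      (∀ t ∈ Icc 0 T, ∀ g, Tendsto (fun i => ⟪ρ i t, g⟫_ℝ) F (𝓝 ⟪ρ' t, g⟫_ℝ)) ∧
      (∀ g, ContinuousOn (fun t => ⟪ρ' t, g⟫_ℝ) (Icc 0 T)) ∧
      (∀ g, ∀ ε : ℝ, 0 < ε → ∀ᶠ i in F, ∀ t ∈ Icc 0 T, |⟪ρ i t - ρ' t, g⟫_ℝ| ≤ ε) := by
  have hfin : volume Ω < ⊤ := hb.measure_lt_top
  obtain ⟨B, hB⟩ := norm_rho_le (Ω := Ω) hfin
  have hex : ∀ t : ℝ, ∃ r : L2S Ω, ∀ g, Tendsto (fun i => ⟪ρ i (cl T t), g⟫_ℝ) F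
      (𝓝 ⟪r, g⟫_ℝ) := by
    intro t
    obtain ⟨r, -, hr⟩ := exists_weak_limit F (fun i => ρ i (cl T t)) B
      (Eventually.of_forall fun i => hB _ ((hJ i).bd _ (cl_mem hT t)))
    exact ⟨r, hr⟩
  choose ρ' hρ' using hex
  have hbd : ∀ t, ∀ᵐ x ∂(volume.restrict Ω), 1 ≤ ρ' t x ∧ ρ' t x ≤ 2 := fun t =>
    weak_bounds hfin (F := (F : Filter ℕ)) (fun i => (hJ i).bd _ (cl_mem hT t)) (hρ' t)
  have hlim : ∀ t ∈ Icc 0 T, ∀ g, Tendsto (fun i => ⟪ρ i t, g⟫_ℝ) F (𝓝 ⟪ρ' t, g⟫_ℝ) := by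
    intro t ht g
    have := hρ' t g
    rwa [cl_eq ht] at this
  set D : Set (L2S Ω) := {f | ∃ (g : E3 → ℝ), f =ᵐ[volume.restrict Ω] g ∧ HasCompactSupport g ∧
    ContDiff ℝ ∞ g} with hD
  have hdense : Dense D := MeasureTheory.Lp.dense_hasCompactSupport_contDiff (by norm_num)
  have hcl : ∀ g : L2S Ω, g ∈ closure D := fun g => hdense g
  have hA := a1 (L2S Ω) D (F : Filter ℕ) T B ρ ρ' (fun i t ht => hB _ ((hJ i).bd t ht))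
    (fun t _ => hB _ (hbd t)) ?_ (fun φ _ t ht => hlim t ht φ)
  · exact ⟨ρ', hbd, hlim, fun g => hA.1 g (hcl g), fun g => hA.2 g (hcl g)⟩
  · rintro g ⟨q, hgq, hqc, hq⟩ ε hε
    obtain ⟨C, hC0, hC⟩ := rho_equi (M := M) (T := T) mu hΩ.measurableSet hq hqc
    refine ⟨ε / (C + 1), by positivity, Eventually.of_forall fun i a ha b hb' hab => ?_⟩
    have h1 := hC (τ i) fL (ρ i) (u i) (z i) (hJ i) a ha b hb'
    rw [inner_sub_left, inner_q _ _ hgq, inner_q _ _ hgq]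
    refine h1.trans ?_
    have h2 : C * |a - b| ≤ C * (ε / (C + 1)) := by gcongr
    refine h2.trans ?_
    rw [mul_div_assoc', div_le_iff₀ (by positivity)]
    nlinarith

/-- the multiplication operators -/
theorem exists_ops (mu : StmMul) (hΩ : MeasurableSet Ω) {T : ℝ} (hT : 0 < T) {F : Filter ℕ}
    {ρ : ℕ → ℝ → L2S Ω} {ρ' : ℝ → L2S Ω}
    (hbd : ∀ i, ∀ t ∈ Icc 0 T, ∀ᵐ x ∂(volume.restrict Ω), 1 ≤ ρ i t x ∧ ρ i t x ≤ 2)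
    (hbd' : ∀ t, ∀ᵐ x ∂(volume.restrict Ω), 1 ≤ ρ' t x ∧ ρ' t x ≤ 2)
    (hc : ∀ i, ContinuousOn (ρ i) (Icc 0 T))
    (hc' : ∀ g, ContinuousOn (fun t => ⟪ρ' t, g⟫_ℝ) (Icc 0 T))
    (hu : ∀ g, ∀ ε : ℝ, 0 < ε → ∀ᶠ i in F, ∀ t ∈ Icc 0 T, |⟪ρ i t - ρ' t, g⟫_ℝ| ≤ ε) :
    ∃ (R : ℕ → ℝ → L2V Ω →L[ℝ] L2V Ω) (R0 : ℝ → L2V Ω →L[ℝ] L2V Ω),
      (∀ i, ∀ t ∈ Icc 0 T, ∀ v, R i t v = mulV (ρ i t) v) ∧
      (∀ t ∈ Icc 0 T, ∀ v, R0 t v = mulV (ρ' t) v) ∧ AOps F T R R0 := by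
  have hex : ∀ i t, ∃ R : L2V Ω →L[ℝ] L2V Ω, ∀ v, R v = mulV (ρ i (cl T t)) v := fun i t =>
    (mu Ω hΩ (ρ i (cl T t)) (hbd i _ (cl_mem hT t))).1
  choose R hR using hex
  have hex0 : ∀ t, ∃ R : L2V Ω →L[ℝ] L2V Ω, ∀ v, R v = mulV (ρ' t) v := fun t =>
    (mu Ω hΩ (ρ' t) (hbd' t)).1
  choose R0 hR0 using hex0
  have hR' : ∀ i, ∀ t ∈ Icc 0 T, ∀ v, R i t v = mulV (ρ i t) v := by
    intro i t ht v
    rw [hR, cl_eq ht]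
  refine ⟨R, R0, hR', fun t _ => hR0 t, ?_⟩
  constructor
  · intro i t ht v w
    rw [hR' i t ht, hR' i t ht]
    exact (mu Ω hΩ (ρ i t) (hbd i t ht)).2.2.2.1 v w
  · intro t ht v w
    rw [hR0, hR0]
    exact (mu Ω hΩ (ρ' t) (hbd' t)).2.2.2.1 v w
  · intro i t ht v
    rw [hR' i t ht]
    exact (mu Ω hΩ (ρ i t) (hbd i t ht)).2.2.2.2.1 v
  · intro t ht v
    rw [hR0]
    exact (mu Ω hΩ (ρ' t) (hbd' t)).2.2.2.2.1 v
  · intro i t ht v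
    rw [hR' i t ht]
    exact (mu Ω hΩ (ρ i t) (hbd i t ht)).2.2.2.2.2.1 v
  · intro t ht v
    rw [hR0]
    exact (mu Ω hΩ (ρ' t) (hbd' t)).2.2.2.2.2.1 v
  · intro i v w t ht
    have h1 : Tendsto (fun s => ρ i (cl T s)) (𝓝[Icc 0 T] t) (𝓝 (ρ i t)) := by
      refine (hc i t ht).tendsto.congr' ?_
      filter_upwards [self_mem_nhdsWithin] with s hs
      rw [cl_eq hs]
    have h2 := (mu Ω hΩ (ρ i t) (hbd i t ht)).2.2.2.2.2.2.1 ℝ (𝓝[Icc 0 T] t)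
      (fun s => ρ i (cl T s)) (fun s => hbd i _ (cl_mem hT s)) h1 v
    have h3 := h2.inner (tendsto_const_nhds (x := w)) (𝕜 := ℝ)
    show Tendsto _ _ (𝓝 ⟪R i t v, w⟫_ℝ)
    rw [hR' i t ht]
    refine h3.congr' (Eventually.of_forall fun s => ?_)
    show _ = ⟪R i s v, w⟫_ℝ
    rw [hR]
  · intro v w t ht
    have h1 := (mu Ω hΩ (ρ' t) (hbd' t)).2.2.2.2.2.2.2 ℝ Unit (𝓝[Icc 0 T] t)
      (fun s _ => ρ' s) (fun _ => ρ' t) (fun s _ => hbd' s) (fun _ => hbd' t) (by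
        intro g ε hε
        have h2 := Metric.tendsto_nhds.mp (hc' g t ht).tendsto ε hε
        filter_upwards [h2] with s hs _
        rw [Real.dist_eq, ← inner_sub_left] at hs
        exact hs.le) v w
    show Tendsto _ _ (𝓝 ⟪R0 t v, w⟫_ℝ)
    rw [Metric.tendsto_nhds]
    intro ε hε
    filter_upwards [h1 (ε / 2) (by positivity)] with s hs
    rw [Real.dist_eq, ← inner_sub_left, hR0, hR0]
    have := hs ()
    linarith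
  · intro v w ε hε
    have h1 := (mu Ω hΩ (ρ' 0) (hbd' 0)).2.2.2.2.2.2.2 ℕ (Icc (0 : ℝ) T) F
      (fun i s => ρ i s) (fun s => ρ' s) (fun i s => hbd i s s.2) (fun s => hbd' s) (by
        intro g ε hε
        filter_upwards [hu g ε hε] with i hi s
        exact hi s s.2) v w ε hε
    filter_upwards [h1] with i hi t ht
    rw [hR' i t ht, hR0]
    exact hi ⟨t, ht⟩

end LimJ
end N979MH
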