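import Mathlib
import Pool.Agent.N979.MH.LimJ2

/-!
Project MH, module LIMJ, part 3: the momentum functional.
-/

set_option linter.unusedSectionVars false

open MeasureTheory Set Filter Topology
open scoped InnerProductSpace ENNReal ContDiff NNReal

namespace N979MH
namespace LimJ

open H772R2.NS H772R2.NSR

variable {Ω : Set E3}

theorem fderiv_comp (φ : E3 → E3) (x v : E3) (i : Fin 3) :
    fderiv ℝ φ x v i = ∑ j, jac φ x (i, j) * v j := by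
  have hv : v = ∑ j, v j • ev j := by
    ext i
    simp [Finset.sum_apply, Pi.single_apply]
  conv_lhs => rw [hv]
  rw [map_sum]
  simp only [map_smul, PiLp.smul_apply, smul_eq_mul, WithLp.ofLp_sum, Finset.sum_apply, jac_apply]
  refine Finset.sum_congr rfl (fun j _ => ?_)
  simp [mul_comm]

theorem inner_fderiv_tens (φ : E3 → E3) (x v : E3) :
    ⟪v, fderiv ℝ φ x v⟫_ℝ = ⟪tens v, jac φ x⟫_ℝ := by
  rw [inner_E3, inner_M3]
  refine Finset.sum_congr rfl fun i _ => ?_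
  rw [fderiv_comp, Finset.mul_sum]
  refine Finset.sum_congr rfl fun j _ => ?_
  rw [tens_apply]
  ring

theorem pair_mom (mu : StmMul) (hΩ : MeasurableSet Ω) {ρ : L2S Ω}
    (hρ : ∀ᵐ x ∂(volume.restrict Ω), 1 ≤ ρ x ∧ ρ x ≤ 2) (u : L2V Ω) {φ : E3 → E3}
    (h : IsTest Ω φ) : ∫ x in Ω, ρ x * ⟪u x, φ x⟫_ℝ = ⟪mulV ρ u, clV h⟫_ℝ := by
  rw [(mu Ω hΩ ρ hρ).2.2.1 u (clV h)]
  apply integral_congr_ae
  filter_upwards [clV_coe h] with x hx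
  rw [hx]

theorem momI_eq (mu : StmMul) (hΩ : MeasurableSet Ω) {ρ : L2S Ω}
    (hρ : ∀ᵐ x ∂(volume.restrict Ω), 1 ≤ ρ x ∧ ρ x ≤ 2) (u : L2V Ω) (z : L2M Ω) (g : L2V Ω)
    {φ : E3 → E3} (h : IsTest Ω φ) {A : L2V Ω →L[ℝ] L2V Ω}
    (hA : ∀ v, (A v : E3 → E3) =ᵐ[volume.restrict Ω] fun x => fderiv ℝ φ x (v x)) :
    momI ρ u z g φ = ⟪mulV ρ u, A u⟫_ℝ - ⟪z, clM h⟫_ℝ + ⟪mulV ρ g, clV h⟫_ℝ := by
  unfold momI
  rw [pair_mom mu hΩ hρ g h, (mu Ω hΩ ρ hρ).2.2.1 u (A u)]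
  have e1 : ∫ x in Ω, ρ x * ⟪u x, fderiv ℝ φ x (u x)⟫_ℝ = ∫ x in Ω, ρ x * ⟪u x, A u x⟫_ℝ := by
    apply integral_congr_ae
    filter_upwards [hA u] with x hx
    rw [hx]
  have e2 : ∫ x in Ω, ⟪z x, jac φ x⟫_ℝ = ⟪z, clM h⟫_ℝ := by
    rw [L2.inner_def]
    apply integral_congr_ae
    filter_upwards [clM_coe h] with x hx
    rw [hx]
  rw [e1, e2]

theorem mulV_zero (mu : StmMul) (hΩ : MeasurableSet Ω) {ρ : L2S Ω}
    (hρ : ∀ᵐ x ∂(volume.restrict Ω), 1 ≤ ρ x ∧ ρ x ≤ 2) : mulV ρ (0 : L2V Ω) = 0 := by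
  have := (mu Ω hΩ ρ hρ).2.2.2.2.2.1 0
  rw [norm_zero, mul_zero] at this
  exact norm_le_zero_iff.mp this

/-- bound of the momentum integrand -/
theorem momI_le (mu : StmMul) (mA : StmMulA) (hΩ : MeasurableSet Ω) (M K : ℝ) {φ : E3 → E3}
    (h : IsTest Ω φ) : ∃ C : ℝ, 0 < C ∧ ∀ (ρ : L2S Ω) (u : L2V Ω) (z : L2M Ω) (g : L2V Ω),
      (∀ᵐ x ∂(volume.restrict Ω), 1 ≤ ρ x ∧ ρ x ≤ 2) → ‖u‖ ≤ M → ‖g‖ ≤ K →
      |momI ρ u z g φ| ≤ C * (1 + ‖z‖) := by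
  obtain ⟨A, hA⟩ := mA Ω φ h
  refine ⟨2 * |M| * (‖A‖ * |M|) + ‖clM h‖ + 2 * |K| * ‖clV h‖ + 1, by positivity, ?_⟩
  intro ρ u z g hρ hu hg
  rw [momI_eq mu hΩ hρ u z g h hA]
  have h1 : |⟪mulV ρ u, A u⟫_ℝ| ≤ 2 * |M| * (‖A‖ * |M|) := by
    have k1 := (mu Ω hΩ ρ hρ).2.2.2.2.2.1 u
    have k2 := A.le_opNorm u
    have k3 := hu.trans (le_abs_self M)
    calc |⟪mulV ρ u, A u⟫_ℝ| ≤ ‖mulV ρ u‖ * ‖A u‖ := abs_real_inner_le_norm _ _
      _ ≤ (2 * ‖u‖) * (‖A‖ * ‖u‖) := by gcongr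
      _ ≤ (2 * |M|) * (‖A‖ * |M|) := by gcongr
  have h2 : |⟪z, clM h⟫_ℝ| ≤ ‖z‖ * ‖clM h‖ := abs_real_inner_le_norm _ _
  have h3 : |⟪mulV ρ g, clV h⟫_ℝ| ≤ 2 * |K| * ‖clV h‖ := by
    have k1 := (mu Ω hΩ ρ hρ).2.2.2.2.2.1 g
    have k3 := hg.trans (le_abs_self K)
    calc |⟪mulV ρ g, clV h⟫_ℝ| ≤ ‖mulV ρ g‖ * ‖clV h‖ := abs_real_inner_le_norm _ _
      _ ≤ (2 * ‖g‖) * ‖clV h‖ := by gcongr
      _ ≤ (2 * |K|) * ‖clV h‖ := by gcongr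
  have h4 : |⟪mulV ρ u, A u⟫_ℝ - ⟪z, clM h⟫_ℝ + ⟪mulV ρ g, clV h⟫_ℝ|
      ≤ |⟪mulV ρ u, A u⟫_ℝ| + |⟪z, clM h⟫_ℝ| + |⟪mulV ρ g, clV h⟫_ℝ| := by
    refine (abs_add_le _ _).trans ?_
    gcongr
    exact abs_sub _ _
  refine h4.trans ?_
  have p1 : 0 ≤ 2 * |M| * (‖A‖ * |M|) := by positivity
  have p2 : 0 ≤ 2 * |K| * ‖clV h‖ := by positivity
  have p3 := norm_nonneg z
  have p4 := norm_nonneg (clM h)
  nlinarith [mul_nonneg p1 p3, mul_nonneg p2 p3]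

/-- the momentum identity -/
def MomId (Ω : Set E3) (t0 T : ℝ) (fL : ℝ → L2V Ω) (ρ : ℝ → L2S Ω) (u : ℝ → L2V Ω)
    (z : ℝ → L2M Ω) (φ : E3 → E3) : Prop := ∀ s t, t0 ≤ s → s ≤ t → t ≤ T →
      (∫ x in Ω, ρ t x * ⟪u t x, φ x⟫_ℝ) - (∫ x in Ω, ρ s x * ⟪u s x, φ x⟫_ℝ)
        = ∫ r in s..t, momI (ρ r) (u r) (z r) (fL r) φ

theorem mom_equi (mu : StmMul) (mA : StmMulA) (hΩ : MeasurableSet Ω) {T M K : ℝ}
    {φ : E3 → E3} (h : IsTest Ω φ) {ε : ℝ} (hε : 0 < ε) : ∃ δ : ℝ, 0 < δ ∧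
      ∀ (t0 : ℝ) (fL : ℝ → L2V Ω) (ρ : ℝ → L2S Ω) (u : ℝ → L2V Ω) (z : ℝ → L2M Ω), 0 < t0 →
      t0 < T → (∀ s, ‖fL s‖ ≤ K) → JSol Ω t0 T M fL ρ u z → MomId Ω t0 T fL ρ u z φ →
      ∀ a ∈ Icc 0 T, ∀ b ∈ Icc 0 T, |a - b| < δ →
        |⟪mulV (ρ a) (u a) - mulV (ρ b) (u b), clV h⟫_ℝ| ≤ ε := by
  obtain ⟨C, hC0, hC⟩ := momI_le mu mA hΩ M K h
  -- choose η
  set η : ℝ := ε / (2 * C * (M ^ 2 + 1)) with hη
  have hη0 : 0 < η := by positivity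
  set C1 : ℝ := C * (1 + 1 / (4 * η)) with hC1
  have hC10 : 0 < C1 := by positivity
  refine ⟨ε / (2 * C1), by positivity, ?_⟩
  intro t0 fL ρ u z ht0 ht0T hfK hJ hm
  have key : ∀ a ∈ Icc 0 T, ∀ b ∈ Icc 0 T, a ≤ b → b - a < ε / (2 * C1) →
      |⟪mulV (ρ b) (u b) - mulV (ρ a) (u a), clV h⟫_ℝ| ≤ ε := by
    intro a ha b hb hab hd
    have hz0 : ∀ c ∈ Icc 0 T, ⟪mulV (ρ c) (u c), clV h⟫_ℝ
        = ∫ x in Ω, ρ (max c t0) x * ⟪u (max c t0) x, φ x⟫_ℝ := by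
      intro c hc
      have hc' : max c t0 ∈ Icc 0 T := ⟨hc.1.trans (le_max_left _ _), max_le hc.2 ht0T.le⟩
      rw [pair_mom mu hΩ (hJ.bd _ hc') _ h]
      rcases le_total t0 c with hct | hct
      · rw [max_eq_left hct]
      · rw [max_eq_right hct, hJ.u0 c ⟨hc.1, hct⟩, hJ.u0 t0 ⟨ht0.le, le_rfl⟩,
          mulV_zero mu hΩ (hJ.bd c hc), mulV_zero mu hΩ (hJ.bd t0 ⟨ht0.le, ht0T.le⟩)]
    rw [inner_sub_left, hz0 a ha, hz0 b hb]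
    set a' := max a t0 with ha'
    set b' := max b t0 with hb'
    have hab' : a' ≤ b' := max_le_max hab le_rfl
    have hb'T : b' ≤ T := max_le hb.2 ht0T.le
    have ha'0 : 0 ≤ a' := ha.1.trans (le_max_left _ _)
    rw [hm a' b' (le_max_right _ _) hab' hb'T]
    have hzc : ContinuousOn (fun r => ‖z r‖ ^ 2) (Icc 0 T) := hJ.zc.norm.pow 2
    have hzi : IntervalIntegrable (fun r => ‖z r‖ ^ 2) volume a' b' := by
      refine (hzc.mono ?_).intervalIntegrable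
      rw [uIcc_of_le hab']
      exact Icc_subset_Icc ha'0 hb'T
    have hbound : IntervalIntegrable (fun r => C1 + C * η * ‖z r‖ ^ 2) volume a' b' :=
      intervalIntegrable_const.add (hzi.const_mul _)
    have h1 : ‖∫ r in a'..b', momI (ρ r) (u r) (z r) (fL r) φ‖
        ≤ ∫ r in a'..b', (C1 + C * η * ‖z r‖ ^ 2) := by
      refine intervalIntegral.norm_integral_le_of_norm_le hab' ?_ hbound
      refine Eventually.of_forall fun r hr => ?_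
      have hrI : r ∈ Icc 0 T := ⟨ha'0.trans hr.1.le, hr.2.trans hb'T⟩
      rw [Real.norm_eq_abs]
      refine (hC _ _ _ _ (hJ.bd r hrI) (hJ.ub r hrI) (hfK r)).trans ?_
      have h2 : ‖z r‖ ≤ 1 / (4 * η) + η * ‖z r‖ ^ 2 := by
        have h3 : 0 ≤ (2 * η * ‖z r‖ - 1) ^ 2 / (4 * η) := by positivity
        have h4 : (2 * η * ‖z r‖ - 1) ^ 2 / (4 * η) = η * ‖z r‖ ^ 2 - ‖z r‖ + 1 / (4 * η) := by
          field_simp
          ring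
        linarith
      rw [hC1]
      nlinarith
    rw [Real.norm_eq_abs] at h1
    refine h1.trans ?_
    rw [intervalIntegral.integral_add intervalIntegrable_const (hzi.const_mul _),
      intervalIntegral.integral_const, intervalIntegral.integral_const_mul, smul_eq_mul]
    have h5 : ∫ r in a'..b', ‖z r‖ ^ 2 ≤ M ^ 2 := by
      rw [intervalIntegral.integral_of_le hab']
      refine le_trans ?_ hJ.zb
      refine setIntegral_mono_set ?_ (Eventually.of_forall fun r => by positivity) ?_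
      · exact (hzc.integrableOn_Icc).mono_set Ioc_subset_Icc_self
      · exact (Ioc_subset_Ioc ha'0 hb'T).eventuallyLE
    have h6 : b' - a' ≤ b - a := by
      rw [ha', hb']
      rcases le_total t0 a with h7 | h7
      · rw [max_eq_left h7, max_eq_left (h7.trans hab)]
      · rw [max_eq_right h7]
        rcases le_total t0 b with h8 | h8
        · rw [max_eq_left h8]; linarith
        · rw [max_eq_right h8]; linarith
    have h7 : (b' - a') * C1 ≤ ε / 2 := by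
      calc (b' - a') * C1 ≤ ε / (2 * C1) * C1 := by
            gcongr; linarith
        _ = ε / 2 := by field_simp
    have h8 : C * η * ∫ r in a'..b', ‖z r‖ ^ 2 ≤ ε / 2 := by
      calc C * η * ∫ r in a'..b', ‖z r‖ ^ 2 ≤ C * η * (M ^ 2 + 1) := by
            gcongr; linarith
        _ = ε / 2 := by rw [hη]; field_simp
    linarith
  intro a ha b hb hab
  rcases le_total a b with h1 | h1
  · have h2 := key a ha b hb h1 (by rwa [abs_sub_comm, abs_of_nonneg (by linarith)] at hab)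
    rw [← abs_neg, ← inner_neg_left, neg_sub]
    exact h2
  · exact key b hb a ha h1 (by rwa [abs_of_nonneg (by linarith)] at hab)

/-- the bound of the convective term in `H¹` -/
theorem conv_bound (hΩ : MeasurableSet Ω) (hb : Bornology.IsBounded Ω) :
    ∃ k : ℝ, 0 ≤ k ∧ ∀ (ρ : L2S Ω) (u : L2V Ω) (z : L2M Ω),
      (∀ᵐ x ∂(volume.restrict Ω), 1 ≤ ρ x ∧ ρ x ≤ 2) → (u, z) ∈ graphW Ω →
      ∀ (φ : E3 → E3) (h : IsTest Ω φ),
        |∫ x in Ω, ρ x * ⟪u x, fderiv ℝ φ x (u x)⟫_ℝ| ≤ k * ‖z‖ ^ 2 * ‖clM h‖ := by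
  obtain ⟨cP, hcP0, hcP⟩ := exists_poinc hΩ hb
  refine ⟨2 * Real.sqrt ((CS : ℝ) ^ 3 * cP), by positivity, ?_⟩
  intro ρ u z hρ hW φ h
  have h1 : ‖tensL u‖ ≤ Real.sqrt ((CS : ℝ) ^ 3 * cP) * ‖z‖ ^ 2 := by
    have h2 := norm_tensL_sq_le hΩ hW
    have h3 := hcP _ hW
    simp only at h2 h3
    have h4 : ‖tensL u‖ ^ 2 ≤ (CS : ℝ) ^ 3 * cP * (‖z‖ ^ 2) ^ 2 := by
      calc ‖tensL u‖ ^ 2 ≤ (CS : ℝ) ^ 3 * (‖u‖ * ‖z‖ ^ 3) := h2
        _ ≤ (CS : ℝ) ^ 3 * ((cP * ‖z‖) * ‖z‖ ^ 3) := by gcongr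
        _ = _ := by ring
    have h5 := Real.sqrt_le_sqrt h4
    rwa [Real.sqrt_sq (norm_nonneg _), Real.sqrt_mul (by positivity),
      Real.sqrt_sq (by positivity)] at h5
  have hint : Integrable (fun x => ‖tensL u x‖ * ‖clM h x‖) (volume.restrict Ω) := by
    have k1 := (Lp.memLp (tensL u)).norm.integrable_mul (Lp.memLp (clM h)).norm
    exact k1
  have h6 : |∫ x in Ω, ρ x * ⟪u x, fderiv ℝ φ x (u x)⟫_ℝ|
      ≤ ∫ x in Ω, 2 * (‖tensL u x‖ * ‖clM h x‖) := by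
    rw [← Real.norm_eq_abs]
    refine norm_integral_le_of_norm_le (hint.const_mul 2) ?_
    filter_upwards [hρ, tensL_coe hΩ hW, clM_coe h] with x a b c
    have b' : tensL u x = tens (u x) := b
    rw [inner_fderiv_tens, norm_mul, Real.norm_eq_abs, abs_of_nonneg (by linarith), b', c]
    have := norm_inner_le_norm (𝕜 := ℝ) (tens (u x)) (jac φ x)
    have p1 : 0 ≤ ‖⟪tens (u x), jac φ x⟫_ℝ‖ := norm_nonneg _
    calc ρ x * ‖⟪tens (u x), jac φ x⟫_ℝ‖ ≤ 2 * ‖⟪tens (u x), jac φ x⟫_ℝ‖ := by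
          gcongr; exact a.2
      _ ≤ _ := by gcongr
  have h7 : ∫ x in Ω, ‖tensL u x‖ * ‖clM h x‖ ≤ ‖tensL u‖ * ‖clM h‖ := by
    have := integral_mul_norm_le_Lp_mul_Lq (μ := volume.restrict Ω) Real.HolderConjugate.two_two
      (f := (tensL u : E3 → M3)) (g := (clM h : E3 → M3))
      (by simpa using Lp.memLp (tensL u)) (by simpa using Lp.memLp (clM h))
    refine this.trans (le_of_eq ?_)
    have e : ∀ v : L2M Ω, (∫ x in Ω, ‖v x‖ ^ (2 : ℝ)) ^ ((1 : ℝ) / 2) = ‖v‖ := by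
      intro v
      have : ∫ x in Ω, ‖v x‖ ^ (2 : ℝ) = ‖v‖ ^ 2 := by
        rw [normsq_L2]
        simp
      rw [this, ← Real.sqrt_eq_rpow, Real.sqrt_sq (norm_nonneg _)]
    rw [e, e]
  rw [integral_const_mul] at h6
  calc _ ≤ 2 * (‖tensL u‖ * ‖clM h‖) := h6.trans (by gcongr)
    _ ≤ 2 * ((Real.sqrt ((CS : ℝ) ^ 3 * cP) * ‖z‖ ^ 2) * ‖clM h‖) := by gcongr
    _ = _ := by ring

end LimJ
end N979MH
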