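import Mathlib
import Pool.Agent.N979.MH.LimJ3

/-!
Project MH, module LIMJ, part 4: passage to the limit.
-/

set_option linter.unusedSectionVars false

open MeasureTheory Set Filter Topology
open scoped InnerProductSpace ENNReal ContDiff NNReal

namespace N979MH
namespace LimJ

open H772R2.NS H772R2.NSR

/-- the data of the limit -/
structure LimData (Ω : Set E3) (T M K : ℝ) (fL : ℝ → L2V Ω) (τ : ℕ → ℝ) (ρ : ℕ → ℝ → L2S Ω)
    (u : ℕ → ℝ → L2V Ω) (z : ℕ → ℝ → L2M Ω) (F : Ultrafilter ℕ) (ρ' : ℝ → L2S Ω)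
    (R : ℕ → ℝ → L2V Ω →L[ℝ] L2V Ω) (R0 : ℝ → L2V Ω →L[ℝ] L2V Ω) (U : ℝ → L2V Ω)
    (Z : ℝ → L2M Ω) : Prop where
  hΩ : IsOpen Ω
  hb : Bornology.IsBounded Ω
  hT : 0 < T
  fm : StronglyMeasurable fL
  fK : ∀ s, ‖fL s‖ ≤ K
  hτ : ∀ J, 0 < τ J ∧ τ J < T
  τ0 : Tendsto τ atTop (𝓝 0)
  hF : (F : Filter ℕ) ≤ atTop
  hJ : ∀ J, JSol Ω (τ J) T M fL (ρ J) (u J) (z J)
  bd' : ∀ t, ∀ᵐ x ∂(volume.restrict Ω), 1 ≤ ρ' t x ∧ ρ' t x ≤ 2
  wl : ∀ t ∈ Icc 0 T, ∀ g, Tendsto (fun i => ⟪ρ i t, g⟫_ℝ) F (𝓝 ⟪ρ' t, g⟫_ℝ)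
  hR : ∀ i, ∀ t ∈ Icc 0 T, ∀ v, R i t v = mulV (ρ i t) v
  hR0 : ∀ t ∈ Icc 0 T, ∀ v, R0 t v = mulV (ρ' t) v
  ops : AOps (F : Filter ℕ) T R R0
  U2 : MemLp U 2 (volume.restrict (Ioc 0 T))
  Z2 : MemLp Z 2 (volume.restrict (Ioc 0 T))
  UZ : ∀ᵐ t ∂(volume.restrict (Ioc 0 T)), (U t, Z t) ∈ graphW Ω
  us : Tendsto (fun i => ∫ t in Ioc 0 T, ‖u i t - U t‖ ^ 2) F (𝓝 0)
  zw : ∀ y : ℝ → L2M Ω, MemLp y 2 (volume.restrict (Ioc 0 T)) →
      Tendsto (fun i => ∫ t in Ioc 0 T, ⟪z i t, y t⟫_ℝ) F (𝓝 (∫ t in Ioc 0 T, ⟪Z t, y t⟫_ℝ))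

/-- integrability of pairings -/
theorem intOps {H : Type*} [NormedAddCommGroup H] [InnerProductSpace ℝ H] {μ : Measure ℝ}
    {V Z Y : ℝ → H} (hY : AEStronglyMeasurable Y μ) (hYV : ∀ᵐ t ∂μ, ‖Y t‖ ≤ 2 * ‖V t‖)
    (hV : MemLp V 2 μ) (hZ : MemLp Z 2 μ) : Integrable (fun t => ⟪Y t, Z t⟫_ℝ) μ := by
  have h1 : Integrable (fun t => 2 * (‖V t‖ ^ 2 + ‖Z t‖ ^ 2)) μ :=
    ((hV.integrable_norm_pow (by norm_num)).add (hZ.integrable_norm_pow (by norm_num))).const_mul 2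
  refine h1.mono' (hY.inner hZ.1) ?_
  filter_upwards [hYV] with t ht
  calc ‖⟪Y t, Z t⟫_ℝ‖ ≤ ‖Y t‖ * ‖Z t‖ := norm_inner_le_norm _ _
    _ ≤ (2 * ‖V t‖) * ‖Z t‖ := by gcongr
    _ ≤ 2 * (‖V t‖ ^ 2 + ‖Z t‖ ^ 2) := by
        nlinarith [sq_nonneg (‖V t‖ - ‖Z t‖), sq_nonneg (‖V t‖), sq_nonneg (‖Z t‖)]

theorem ii_of_ioc {T s t : ℝ} {g : ℝ → ℝ} (hg : Integrable g (volume.restrict (Ioc 0 T)))
    (hs : 0 ≤ s) (hst : s ≤ t) (ht : t ≤ T) : IntervalIntegrable g volume s t := by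
  rw [intervalIntegrable_iff_integrableOn_Ioc_of_le hst]
  exact IntegrableOn.mono_set hg (Ioc_subset_Ioc hs ht)

theorem wint {K : Type*} [NormedAddCommGroup K] [InnerProductSpace ℝ K] (Z : ℝ → K) (y0 : K)
    {s t T : ℝ} (hs : 0 ≤ s) (hst : s ≤ t) (ht : t ≤ T) :
    ∫ r in Ioc 0 T, ⟪Z r, (Ioc s t).indicator (fun _ => y0) r⟫_ℝ = ∫ r in s..t, ⟪Z r, y0⟫_ℝ := by
  have e : (fun r => ⟪Z r, (Ioc s t).indicator (fun _ => y0) r⟫_ℝ)
      = (Ioc s t).indicator (fun r => ⟪Z r, y0⟫_ℝ) := by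
    funext r
    by_cases hr : r ∈ Ioc s t
    · rw [indicator_of_mem hr, indicator_of_mem hr]
    · rw [indicator_of_notMem hr, indicator_of_notMem hr, inner_zero_right]
  rw [e, setIntegral_indicator measurableSet_Ioc, intervalIntegral.integral_of_le hst,
    inter_eq_self_of_subset_right (Ioc_subset_Ioc hs ht)]

section lim

variable {Ω : Set E3} {T M K : ℝ} {fL : ℝ → L2V Ω} {τ : ℕ → ℝ} {ρ : ℕ → ℝ → L2S Ω}
    {u : ℕ → ℝ → L2V Ω} {z : ℕ → ℝ → L2M Ω} {F : Ultrafilter ℕ} {ρ' : ℝ → L2S Ω}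
    {R : ℕ → ℝ → L2V Ω →L[ℝ] L2V Ω} {R0 : ℝ → L2V Ω →L[ℝ] L2V Ω} {U : ℝ → L2V Ω}
    {Z : ℝ → L2M Ω}

theorem LimData.u2 (L : LimData Ω T M K fL τ ρ u z F ρ' R R0 U Z) (i : ℕ) :
    MemLp (u i) 2 (volume.restrict (Ioc 0 T)) := by
  have h1 : AEStronglyMeasurable (u i) (volume.restrict (Icc 0 T)) :=
    (L.hJ i).uc.aestronglyMeasurable measurableSet_Icc
  have h2 : AEStronglyMeasurable (u i) (volume.restrict (Ioc 0 T)) :=
    h1.mono_measure (Measure.restrict_mono Ioc_subset_Icc_self le_rfl)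
  refine MemLp.of_bound h2 M ?_
  filter_upwards [ae_restrict_mem measurableSet_Ioc] with t ht
  exact (L.hJ i).ub t (Ioc_subset_Icc_self ht)

theorem LimData.f2 (L : LimData Ω T M K fL τ ρ u z F ρ' R R0 U Z) :
    MemLp fL 2 (volume.restrict (Ioc 0 T)) :=
  MemLp.of_bound L.fm.aestronglyMeasurable K (Eventually.of_forall L.fK)

theorem LimData.sq0 (T : ℝ) (F : Filter ℕ) {H : Type*} [NormedAddCommGroup H] (V : ℝ → H) :
    Tendsto (fun _ : ℕ => ∫ t in Ioc 0 T, ‖V t - V t‖ ^ 2) F (𝓝 0) := by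
  simpa using tendsto_const_nhds

/-- the transport equation of the limit -/
theorem LimData.transport (L : LimData Ω T M K fL τ ρ u z F ρ' R R0 U Z) (a2 : StmA2)
    (mu : StmMul) (q : E3 → ℝ) (hq : ContDiff ℝ ∞ q) (hqc : HasCompactSupport q) (s t : ℝ)
    (hs : 0 ≤ s) (hst : s ≤ t) (ht : t ≤ T) :
    (∫ x in Ω, ρ' t x * q x) - (∫ x in Ω, ρ' s x * q x)
      = ∫ r in s..t, ∫ x in Ω, ρ' r x * fderiv ℝ q x (U r x) := by
  have := secondCountable_L2V Ω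
  have hm := L.hΩ.measurableSet
  set V : L2V Ω := (memLp_gr hq hqc 2).toLp (gr q) with hV
  have hVc : (V : E3 → E3) =ᵐ[volume.restrict Ω] gr q := MemLp.coeFn_toLp _
  set g : L2S Ω := (memLp_q hq hqc 2).toLp q with hg
  have hgc : (g : E3 → ℝ) =ᵐ[volume.restrict Ω] q := MemLp.coeFn_toLp _
  have hV2 : MemLp (fun _ : ℝ => V) 2 (volume.restrict (Ioc 0 T)) := memLp_const _
  obtain ⟨-, -, h3⟩ := a2 (L2V Ω) (F : Filter ℕ) T R R0 L.hT L.ops (fun _ _ => V) u (fun _ => V) U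
    (fun _ => hV2) L.u2 hV2 L.U2 (LimData.sq0 T F _) L.us
  have h4 := h3 s t hs hst ht
  have hsI : s ∈ Icc 0 T := ⟨hs, hst.trans ht⟩
  have htI : t ∈ Icc 0 T := ⟨hs.trans hst, ht⟩
  have h5 : Tendsto (fun i => ⟪ρ i t, g⟫_ℝ - ⟪ρ i s, g⟫_ℝ) F (𝓝 (⟪ρ' t, g⟫_ℝ - ⟪ρ' s, g⟫_ℝ)) :=
    (L.wl t htI g).sub (L.wl s hsI g)
  have e1 : ∀ i, ⟪ρ i t, g⟫_ℝ - ⟪ρ i s, g⟫_ℝ = ∫ r in s..t, ⟪R i r V, u i r⟫_ℝ := by
    intro i
    rw [inner_q _ _ hgc, inner_q _ _ hgc, (L.hJ i).tr q hq hqc s t hs hst ht]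
    apply intervalIntegral.integral_congr
    intro r hr
    rw [uIcc_of_le hst] at hr
    have hrI : r ∈ Icc 0 T := ⟨hs.trans hr.1, hr.2.trans ht⟩
    simp only
    rw [L.hR i r hrI, inner_gr mu hm ((L.hJ i).bd r hrI) V (u i r) hVc]
  have h6 := tendsto_nhds_unique (h5.congr e1) h4
  rw [← inner_q _ _ hgc, ← inner_q _ _ hgc, h6]
  apply intervalIntegral.integral_congr
  intro r hr
  rw [uIcc_of_le hst] at hr
  have hrI : r ∈ Icc 0 T := ⟨hs.trans hr.1, hr.2.trans ht⟩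
  simp only
  rw [L.hR0 r hrI, inner_gr mu hm (L.bd' r) V (U r) hVc]

/-- integrability, approximations -/
theorem LimData.intR (L : LimData Ω T M K fL τ ρ u z F ρ' R R0 U Z) (a2 : StmA2) (i : ℕ)
    {V Y : ℝ → L2V Ω} (hV : MemLp V 2 (volume.restrict (Ioc 0 T)))
    (hY : MemLp Y 2 (volume.restrict (Ioc 0 T))) :
    Integrable (fun t => ⟪R i t (V t), Y t⟫_ℝ) (volume.restrict (Ioc 0 T)) := by
  have := secondCountable_L2V Ω
  obtain ⟨-, h2, -⟩ := a2 (L2V Ω) (F : Filter ℕ) T R R0 L.hT L.ops (fun _ => V) (fun _ => Y) V Y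
    (fun _ => hV) (fun _ => hY) hV hY (LimData.sq0 T F _) (LimData.sq0 T F _)
  refine intOps (h2 i) ?_ hV hY
  filter_upwards [ae_restrict_mem measurableSet_Ioc] with t ht
  exact L.ops.up i t (Ioc_subset_Icc_self ht) _

theorem LimData.intR0 (L : LimData Ω T M K fL τ ρ u z F ρ' R R0 U Z) (a2 : StmA2)
    {V Y : ℝ → L2V Ω} (hV : MemLp V 2 (volume.restrict (Ioc 0 T)))
    (hY : MemLp Y 2 (volume.restrict (Ioc 0 T))) :
    Integrable (fun t => ⟪R0 t (V t), Y t⟫_ℝ) (volume.restrict (Ioc 0 T)) := by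
  have := secondCountable_L2V Ω
  obtain ⟨h1, -, -⟩ := a2 (L2V Ω) (F : Filter ℕ) T R R0 L.hT L.ops (fun _ => V) (fun _ => Y) V Y
    (fun _ => hV) (fun _ => hY) hV hY (LimData.sq0 T F _) (LimData.sq0 T F _)
  refine intOps h1 ?_ hV hY
  filter_upwards [ae_restrict_mem measurableSet_Ioc] with t ht
  exact L.ops.up0 t (Ioc_subset_Icc_self ht) _

theorem intZ {V : ℝ → L2M Ω} (hV : MemLp V 2 (volume.restrict (Ioc 0 T))) (y : L2M Ω) :
    Integrable (fun t => ⟪V t, y⟫_ℝ) (volume.restrict (Ioc 0 T)) := by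
  have hy : MemLp (fun _ : ℝ => y) 2 (volume.restrict (Ioc 0 T)) := memLp_const _
  refine intOps (V := V) hV.1 (Eventually.of_forall fun t => ?_) hV hy
  have := norm_nonneg (V t)
  linarith

theorem LimData.z2 (L : LimData Ω T M K fL τ ρ u z F ρ' R R0 U Z) (i : ℕ) :
    MemLp (z i) 2 (volume.restrict (Ioc 0 T)) := by
  have h1 : AEStronglyMeasurable (z i) (volume.restrict (Icc 0 T)) :=
    (L.hJ i).zc.aestronglyMeasurable measurableSet_Icc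
  have h2 : AEStronglyMeasurable (z i) (volume.restrict (Ioc 0 T)) :=
    h1.mono_measure (Measure.restrict_mono Ioc_subset_Icc_self le_rfl)
  obtain ⟨C, hC⟩ := (isCompact_Icc (a := (0 : ℝ)) (b := T)).exists_bound_of_continuousOn (L.hJ i).zc
  refine MemLp.of_bound h2 C ?_
  filter_upwards [ae_restrict_mem measurableSet_Ioc] with t ht
  exact hC t (Ioc_subset_Icc_self ht)

theorem memLp_A (A : L2V Ω →L[ℝ] L2V Ω) {V : ℝ → L2V Ω}
    (hV : MemLp V 2 (volume.restrict (Ioc 0 T))) :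
    MemLp (fun t => A (V t)) 2 (volume.restrict (Ioc 0 T)) := by
  exact A.comp_memLp' hV

/-- weak convergence of the gradients on intervals -/
theorem LimData.zint (L : LimData Ω T M K fL τ ρ u z F ρ' R R0 U Z) (y : L2M Ω) {s t : ℝ}
    (hs : 0 ≤ s) (hst : s ≤ t) (ht : t ≤ T) :
    Tendsto (fun i => ∫ r in s..t, ⟪z i r, y⟫_ℝ) F (𝓝 (∫ r in s..t, ⟪Z r, y⟫_ℝ)) := by
  have h1 := L.zw ((Ioc s t).indicator fun _ => y) ((memLp_const y).indicator measurableSet_Ioc)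
  simp only [wint _ _ hs hst ht] at h1
  exact h1

/-- the momentum integrand of the limit -/
noncomputable def mI (R0 : ℝ → L2V Ω →L[ℝ] L2V Ω) (U : ℝ → L2V Ω) (Z : ℝ → L2M Ω)
    (fL : ℝ → L2V Ω) (A : L2V Ω →L[ℝ] L2V Ω) (v : L2V Ω) (y : L2M Ω) (r : ℝ) : ℝ :=
  ⟪R0 r (U r), A (U r)⟫_ℝ - ⟪Z r, y⟫_ℝ + ⟪R0 r (fL r), v⟫_ℝ

theorem LimData.mI_int (L : LimData Ω T M K fL τ ρ u z F ρ' R R0 U Z) (a2 : StmA2)
    (A : L2V Ω →L[ℝ] L2V Ω) (v : L2V Ω) (y : L2M Ω) :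
    Integrable (mI R0 U Z fL A v y) (volume.restrict (Ioc 0 T)) := by
  have hv : MemLp (fun _ : ℝ => v) 2 (volume.restrict (Ioc 0 T)) := memLp_const _
  exact ((L.intR0 a2 L.U2 (memLp_A A L.U2)).sub (intZ L.Z2 y)).add (L.intR0 a2 L.f2 hv)

/-- the momentum equation of the limit, tested with one of the `ψ n`, `0 < s`. -/
theorem LimData.mom_pos (L : LimData Ω T M K fL τ ρ u z F ρ' R R0 U Z) (a2 : StmA2)
    (mu : StmMul) {φ : E3 → E3} (h : IsTest Ω φ) {A : L2V Ω →L[ℝ] L2V Ω}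
    (hA : ∀ v, (A v : E3 → E3) =ᵐ[volume.restrict Ω] fun x => fderiv ℝ φ x (v x))
    (hm : ∀ᶠ J in atTop, MomId Ω (τ J) T fL (ρ J) (u J) (z J) φ) {m : ℝ → ℝ}
    (hlim : ∀ t ∈ Icc 0 T, Tendsto (fun i => ⟪R i t (u i t), clV h⟫_ℝ) F (𝓝 (m t)))
    {s t : ℝ} (hs : 0 < s) (hst : s ≤ t) (ht : t ≤ T) :
    m t - m s = ∫ r in s..t, mI R0 U Z fL A (clV h) (clM h) r := by
  have := secondCountable_L2V Ω
  have hmΩ := L.hΩ.measurableSet
  have hsI : s ∈ Icc 0 T := ⟨hs.le, hst.trans ht⟩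
  have htI : t ∈ Icc 0 T := ⟨hs.le.trans hst, ht⟩
  have hv2 : MemLp (fun _ : ℝ => clV h) 2 (volume.restrict (Ioc 0 T)) := memLp_const _
  have h1 : Tendsto (fun i => ⟪R i t (u i t), clV h⟫_ℝ - ⟪R i s (u i s), clV h⟫_ℝ) F
      (𝓝 (m t - m s)) := (hlim t htI).sub (hlim s hsI)
  -- convergence of the three integrals
  have hAs : Tendsto (fun i => ∫ t in Ioc 0 T, ‖A (u i t) - A (U t)‖ ^ 2) F (𝓝 0) := by
    have k1 := L.us.const_mul (‖A‖ ^ 2)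
    rw [mul_zero] at k1
    refine squeeze_zero (fun i => integral_nonneg fun t => by positivity) (fun i => ?_) k1
    rw [← integral_const_mul]
    have k2 : Integrable (fun t => ‖A‖ ^ 2 * ‖u i t - U t‖ ^ 2) (volume.restrict (Ioc 0 T)) :=
      (((L.u2 i).sub L.U2).integrable_norm_pow (by norm_num)).const_mul _
    refine integral_mono_of_nonneg (Eventually.of_forall fun t => by positivity) k2
      (Eventually.of_forall fun t => ?_)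
    simp only
    rw [← map_sub, ← mul_pow]
    gcongr
    exact A.le_opNorm _
  obtain ⟨-, -, ha⟩ := a2 (L2V Ω) (F : Filter ℕ) T R R0 L.hT L.ops u (fun i r => A (u i r)) U
    (fun r => A (U r)) L.u2 (fun i => memLp_A A (L.u2 i)) L.U2 (memLp_A A L.U2) L.us hAs
  obtain ⟨-, -, hc⟩ := a2 (L2V Ω) (F : Filter ℕ) T R R0 L.hT L.ops (fun _ => fL)
    (fun _ _ => clV h) fL (fun _ => clV h) (fun _ => L.f2) (fun _ => hv2) L.f2 hv2
    (LimData.sq0 T F _) (LimData.sq0 T F _)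
  have hlim2 := ((ha s t hs.le hst ht).sub (L.zint (clM h) hs.le hst ht)).add (hc s t hs.le hst ht)
  have hR0I : (∫ r in s..t, ⟪R0 r (U r), A (U r)⟫_ℝ) - (∫ r in s..t, ⟪Z r, clM h⟫_ℝ)
      + (∫ r in s..t, ⟪R0 r (fL r), clV h⟫_ℝ)
      = ∫ r in s..t, mI R0 U Z fL A (clV h) (clM h) r := by
    have i1 := ii_of_ioc (L.intR0 a2 L.U2 (memLp_A A L.U2)) hs.le hst ht
    have i2 := ii_of_ioc (intZ L.Z2 (clM h)) hs.le hst ht
    have i3 := ii_of_ioc (L.intR0 a2 L.f2 hv2) hs.le hst ht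
    unfold mI
    rw [intervalIntegral.integral_add (i1.sub i2) i3, intervalIntegral.integral_sub i1 i2]
  rw [hR0I] at hlim2
  refine tendsto_nhds_unique (h1.congr' ?_) hlim2
  have hev : ∀ᶠ i in (F : Filter ℕ), τ i < s := L.hF ((L.τ0).eventually (gt_mem_nhds hs))
  filter_upwards [hev, L.hF hm] with i hi hmi
  have k1 := hmi s t hi.le hst ht
  have bdi := (L.hJ i).bd
  rw [pair_mom mu hmΩ (bdi t htI) _ h, pair_mom mu hmΩ (bdi s hsI) _ h] at k1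
  rw [L.hR i t htI, L.hR i s hsI, k1]
  have i1 := ii_of_ioc (L.intR a2 i (L.u2 i) (memLp_A A (L.u2 i))) hs.le hst ht
  have i2 := ii_of_ioc (intZ (L.z2 i) (clM h)) hs.le hst ht
  have i3 := ii_of_ioc (L.intR a2 i L.f2 hv2) hs.le hst ht
  rw [← intervalIntegral.integral_sub i1 i2, ← intervalIntegral.integral_add (i1.sub i2) i3]
  apply intervalIntegral.integral_congr
  intro r hr
  rw [uIcc_of_le hst] at hr
  have hrI : r ∈ Icc 0 T := ⟨hs.le.trans hr.1, hr.2.trans ht⟩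
  simp only
  rw [momI_eq mu hmΩ (bdi r hrI) _ _ _ h hA, L.hR i r hrI, L.hR i r hrI]

end lim

end LimJ
end N979MH
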