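import Mathlib
import Pool.Agent.N979.MH.LimJ4

/-!
Project MH, module LIMJ, part 5: the momentum equation of the limit.
-/

set_option linter.unusedSectionVars false

open MeasureTheory Set Filter Topology
open scoped InnerProductSpace ENNReal ContDiff NNReal

namespace N979MH
namespace LimJ

open H772R2.NS H772R2.NSR

theorem ext_zero {m g : ℝ → ℝ} {T : ℝ} (hm : ContinuousOn m (Icc 0 T))
    (hg : Integrable g (volume.restrict (Ioc 0 T)))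
    (h : ∀ s t, 0 < s → s ≤ t → t ≤ T → m t - m s = ∫ r in s..t, g r) :
    ∀ s t, 0 ≤ s → s ≤ t → t ≤ T → m t - m s = ∫ r in s..t, g r := by
  intro s t hs hst ht
  rcases hs.lt_or_eq with h0 | h0
  · exact h s t h0 hst ht
  subst h0
  rcases hst.lt_or_eq with h1 | h1
  swap
  · subst h1; simp
  have e : EqOn (fun s => m t - m s) (fun s => ∫ r in s..t, g r) (Icc 0 t) := by
    refine EqOn.of_subset_closure (s := Ioc 0 t) (fun s hs => h s t hs.1 hs.2 ht) ?_ ?_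
      Ioc_subset_Icc_self ?_
    · exact continuousOn_const.sub (hm.mono (Icc_subset_Icc le_rfl ht))
    · have hi := ii_of_ioc hg le_rfl h1.le ht
      have h2 := intervalIntegral.continuousOn_primitive_interval' hi
        (right_mem_uIcc (a := (0 : ℝ)) (b := t))
      rw [uIcc_of_le h1.le] at h2
      refine h2.neg.congr fun s _ => ?_
      exact intervalIntegral.integral_symm _ _
    · rw [closure_Ioc h1.ne]
  exact e ⟨le_rfl, h1.le⟩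

theorem fderiv_op_sub {Ω : Set E3} {φ ψ : E3 → E3} (h1 : IsTest Ω φ) (h2 : IsTest Ω ψ)
    {A B C : L2V Ω →L[ℝ] L2V Ω}
    (hA : ∀ v, (A v : E3 → E3) =ᵐ[volume.restrict Ω] fun x => fderiv ℝ φ x (v x))
    (hB : ∀ v, (B v : E3 → E3) =ᵐ[volume.restrict Ω] fun x => fderiv ℝ ψ x (v x))
    (hC : ∀ v, (C v : E3 → E3) =ᵐ[volume.restrict Ω]
      fun x => fderiv ℝ (fun x => φ x - ψ x) x (v x)) (v : L2V Ω) : A v - B v = C v := by
  apply Lp.ext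
  filter_upwards [Lp.coeFn_sub (A v) (B v), hA v, hB v, hC v] with x a b c d
  rw [a, d]
  simp only [Pi.sub_apply]
  rw [b, c]
  have k1 : DifferentiableAt ℝ φ x := (h1.smooth.differentiable (by simp)) x
  have k2 : DifferentiableAt ℝ ψ x := (h2.smooth.differentiable (by simp)) x
  rw [fderiv_fun_sub k1 k2]
  rfl

theorem arith1 {X1 X2 X3 aM aK k T I J cv cm ts : ℝ} (b1 : X1 ≤ 2 * aM * cv)
    (b2 : X2 ≤ 2 * aM * cv) (h2 : X3 ≤ ts * ((k + 1) * cm + 2 * aK * cv) + (k + 1) * cm * J)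
    (ht : ts ≤ T) (hJ : J ≤ I) (haM : 0 ≤ aM) (haK : 0 ≤ aK) (hk : 0 ≤ k)
    (hT : 0 ≤ T) (hI : 0 ≤ I) (hcv : 0 ≤ cv) (hcm : 0 ≤ cm) :
    X1 + X2 + X3 ≤ (4 * aM + (k + 1) * (T + I) + 2 * aK * T) * (cv + cm) := by
  have h5 : ts * ((k + 1) * cm + 2 * aK * cv) ≤ T * ((k + 1) * cm + 2 * aK * cv) := by gcongr
  have h6 : (k + 1) * cm * J ≤ (k + 1) * cm * I := by gcongr
  have d1 : 0 ≤ 4 * aM * cm := by positivity
  have d2 : 0 ≤ (k + 1) * (T + I) * cv := by positivity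
  have d3 : 0 ≤ 2 * aK * T * cm := by positivity
  nlinarith

theorem arith2 {x y z k Z cm cv aK : ℝ} (a1 : x ≤ k * Z ^ 2 * cm) (a2 : y ≤ Z * cm)
    (a3 : z ≤ 2 * aK * cv) (hcm : 0 ≤ cm) :
    x + y + z ≤ ((k + 1) * cm + 2 * aK * cv) + (k + 1) * cm * Z ^ 2 + k * cm * (-1) := by
  have a5 : Z ≤ 1 + Z ^ 2 := by nlinarith [sq_nonneg (Z - 1 / 2)]
  have a7 : Z * cm ≤ (1 + Z ^ 2) * cm := by gcongr
  nlinarith

section lim

variable {Ω : Set E3} {T M K : ℝ} {fL : ℝ → L2V Ω} {τ : ℕ → ℝ} {ρ : ℕ → ℝ → L2S Ω}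
    {u : ℕ → ℝ → L2V Ω} {z : ℕ → ℝ → L2M Ω} {F : Ultrafilter ℕ} {ρ' : ℝ → L2S Ω}
    {R : ℕ → ℝ → L2V Ω →L[ℝ] L2V Ω} {R0 : ℝ → L2V Ω →L[ℝ] L2V Ω} {U : ℝ → L2V Ω}
    {Z : ℝ → L2M Ω}

theorem mI_sub {A B C : L2V Ω →L[ℝ] L2V Ω}
    (h : ∀ v, A v - B v = C v) (v1 v2 : L2V Ω) (y1 y2 : L2M Ω) (r : ℝ) :
    mI R0 U Z fL A v1 y1 r - mI R0 U Z fL B v2 y2 r = mI R0 U Z fL C (v1 - v2) (y1 - y2) r := by
  unfold mI
  rw [← h]
  simp only [inner_sub_right]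
  ring

/-- the bound of the momentum functional -/
theorem mI_bound (L : LimData Ω T M K fL τ ρ u z F ρ' R R0 U Z) (mu : StmMul)
    {û : ℝ → L2V Ω} (hM : ∀ t ∈ Icc 0 T, ‖û t‖ ≤ M) :
    ∃ C : ℝ, 0 ≤ C ∧ ∀ (φ : E3 → E3) (h : IsTest Ω φ) (A : L2V Ω →L[ℝ] L2V Ω),
      (∀ v, (A v : E3 → E3) =ᵐ[volume.restrict Ω] fun x => fderiv ℝ φ x (v x)) →
      ∀ s t, 0 ≤ s → s ≤ t → t ≤ T →
      |⟪R0 t (û t), clV h⟫_ℝ - ⟪R0 s (û s), clV h⟫_ℝ
        - ∫ r in s..t, mI R0 U Z fL A (clV h) (clM h) r| ≤ C * (‖clV h‖ + ‖clM h‖) := by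
  have hmΩ := L.hΩ.measurableSet
  obtain ⟨k, hk0, hk⟩ := conv_bound hmΩ L.hb
  set I : ℝ := ∫ r in Ioc 0 T, ‖Z r‖ ^ 2 with hI
  have hI0 : 0 ≤ I := integral_nonneg fun r => by positivity
  have hT := L.hT
  refine ⟨4 * |M| + (k + 1) * (T + I) + 2 * |K| * T, by positivity, ?_⟩
  intro φ h A hA s t hs hst ht
  have hsI : s ∈ Icc 0 T := ⟨hs, hst.trans ht⟩
  have htI : t ∈ Icc 0 T := ⟨hs.trans hst, ht⟩
  have h1 : ∀ r ∈ Icc 0 T, |⟪R0 r (û r), clV h⟫_ℝ| ≤ 2 * |M| * ‖clV h‖ := by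
    intro r hr
    have k1 := L.ops.up0 r hr (û r)
    have k2 := (hM r hr).trans (le_abs_self M)
    calc |⟪R0 r (û r), clV h⟫_ℝ| ≤ ‖R0 r (û r)‖ * ‖clV h‖ := abs_real_inner_le_norm _ _
      _ ≤ (2 * ‖û r‖) * ‖clV h‖ := by gcongr
      _ ≤ (2 * |M|) * ‖clV h‖ := by gcongr
  have hZint : Integrable (fun r => ‖Z r‖ ^ 2) (volume.restrict (Ioc 0 T)) :=
    L.Z2.integrable_norm_pow (by norm_num)
  have hZi : IntervalIntegrable (fun r => ‖Z r‖ ^ 2) volume s t := ii_of_ioc hZint hs hst ht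
  have hbi : IntervalIntegrable (fun r => ((k + 1) * ‖clM h‖ + 2 * |K| * ‖clV h‖)
      + (k + 1) * ‖clM h‖ * ‖Z r‖ ^ 2) volume s t :=
    intervalIntegrable_const.add (hZi.const_mul _)
  have h2 : ‖∫ r in s..t, mI R0 U Z fL A (clV h) (clM h) r‖
      ≤ ∫ r in s..t, (((k + 1) * ‖clM h‖ + 2 * |K| * ‖clV h‖)
        + (k + 1) * ‖clM h‖ * ‖Z r‖ ^ 2) := by
    refine intervalIntegral.norm_integral_le_of_norm_le hst ?_ hbi
    have k1 : ∀ᵐ r ∂volume, r ∈ Ioc 0 T → (U r, Z r) ∈ graphW Ω :=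
      (ae_restrict_iff' measurableSet_Ioc).mp L.UZ
    filter_upwards [k1] with r hr hrst
    have hrI : r ∈ Ioc 0 T := ⟨hs.trans_lt hrst.1, hrst.2.trans ht⟩
    have hrI' := Ioc_subset_Icc_self hrI
    have hW := hr hrI
    unfold mI
    have a1 : |⟪R0 r (U r), A (U r)⟫_ℝ| ≤ k * ‖Z r‖ ^ 2 * ‖clM h‖ := by
      have := hk (ρ' r) (U r) (Z r) (L.bd' r) hW φ h
      rw [L.hR0 r hrI', (mu Ω hmΩ (ρ' r) (L.bd' r)).2.2.1 (U r) (A (U r))]
      convert this using 2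
      apply integral_congr_ae
      filter_upwards [hA (U r)] with x hx
      rw [hx]
    have a2 : |⟪Z r, clM h⟫_ℝ| ≤ ‖Z r‖ * ‖clM h‖ := abs_real_inner_le_norm _ _
    have a3 : |⟪R0 r (fL r), clV h⟫_ℝ| ≤ 2 * |K| * ‖clV h‖ := by
      have k1 := L.ops.up0 r hrI' (fL r)
      have k2 := (L.fK r).trans (le_abs_self K)
      calc |⟪R0 r (fL r), clV h⟫_ℝ| ≤ ‖R0 r (fL r)‖ * ‖clV h‖ := abs_real_inner_le_norm _ _
        _ ≤ (2 * ‖fL r‖) * ‖clV h‖ := by gcongr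
        _ ≤ (2 * |K|) * ‖clV h‖ := by gcongr
    have a4 : ‖⟪R0 r (U r), A (U r)⟫_ℝ - ⟪Z r, clM h⟫_ℝ + ⟪R0 r (fL r), clV h⟫_ℝ‖
        ≤ |⟪R0 r (U r), A (U r)⟫_ℝ| + |⟪Z r, clM h⟫_ℝ| + |⟪R0 r (fL r), clV h⟫_ℝ| := by
      rw [Real.norm_eq_abs]
      refine (abs_add_le _ _).trans ?_
      gcongr
      exact abs_sub _ _
    refine a4.trans ((arith2 a1 a2 a3 (norm_nonneg _)).trans ?_)
    have a8 : 0 ≤ k * ‖clM h‖ := mul_nonneg hk0 (norm_nonneg _)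
    linarith
  rw [intervalIntegral.integral_add intervalIntegrable_const (hZi.const_mul _),
    intervalIntegral.integral_const, intervalIntegral.integral_const_mul, smul_eq_mul,
    Real.norm_eq_abs] at h2
  have h3 : ∫ r in s..t, ‖Z r‖ ^ 2 ≤ I := by
    rw [intervalIntegral.integral_of_le hst, hI]
    exact setIntegral_mono_set hZint (Eventually.of_forall fun r => by positivity)
      (Ioc_subset_Ioc hs ht).eventuallyLE
  have h4 : t - s ≤ T := by linarith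
  have h7 : |⟪R0 t (û t), clV h⟫_ℝ - ⟪R0 s (û s), clV h⟫_ℝ
        - ∫ r in s..t, mI R0 U Z fL A (clV h) (clM h) r|
      ≤ |⟪R0 t (û t), clV h⟫_ℝ| + |⟪R0 s (û s), clV h⟫_ℝ|
        + |∫ r in s..t, mI R0 U Z fL A (clV h) (clM h) r| := by
    refine (abs_sub _ _).trans ?_
    gcongr
    exact abs_sub _ _
  exact h7.trans (arith1 (h1 t htI) (h1 s hsI) h2 h4 h3 (abs_nonneg _) (abs_nonneg _) hk0 hT.le
    hI0 (norm_nonneg _) (norm_nonneg _))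

/-- the momentum equation of the limit -/
theorem mom_all (L : LimData Ω T M K fL τ ρ u z F ρ' R R0 U Z) (a2 : StmA2)
    (mu : StmMul) (mA : StmMulA) {ψ : ℕ → E3 → E3} (hψ : ∀ n, IsTest Ω (ψ n))
    (hd : ∀ φ, IsTest Ω φ → ∀ ε : ℝ, 0 < ε → ∃ n, nV (fun x => φ x - ψ n x) < ε ∧
      nM (fun x => jac φ x - jac (ψ n) x) < ε)
    (hm : ∀ n, ∀ᶠ J in atTop, MomId Ω (τ J) T fL (ρ J) (u J) (z J) (ψ n))
    {û : ℝ → L2V Ω} (hM : ∀ t ∈ Icc 0 T, ‖û t‖ ≤ M)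
    (hûc : ∀ v, ContinuousOn (fun t => ⟪û t, v⟫_ℝ) (Icc 0 T))
    (hRu : ∀ t ∈ Icc 0 T, ∀ v, Tendsto (fun i => ⟪R i t (u i t), v⟫_ℝ) F (𝓝 ⟪R0 t (û t), v⟫_ℝ))
    (hRc : ∀ v, ContinuousOn (fun t => R0 t v) (Icc 0 T))
    {φ : E3 → E3} (h : IsTest Ω φ) {A : L2V Ω →L[ℝ] L2V Ω}
    (hA : ∀ v, (A v : E3 → E3) =ᵐ[volume.restrict Ω] fun x => fderiv ℝ φ x (v x))
    {s t : ℝ} (hs : 0 ≤ s) (hst : s ≤ t) (ht : t ≤ T) :
    ⟪R0 t (û t), clV h⟫_ℝ - ⟪R0 s (û s), clV h⟫_ℝ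
      = ∫ r in s..t, mI R0 U Z fL A (clV h) (clM h) r := by
  obtain ⟨C, hC0, hC⟩ := mI_bound L mu hM
  have hn : ∀ n, ∀ B : L2V Ω →L[ℝ] L2V Ω,
      (∀ v, (B v : E3 → E3) =ᵐ[volume.restrict Ω] fun x => fderiv ℝ (ψ n) x (v x)) →
      ⟪R0 t (û t), clV (hψ n)⟫_ℝ - ⟪R0 s (û s), clV (hψ n)⟫_ℝ
      = ∫ r in s..t, mI R0 U Z fL B (clV (hψ n)) (clM (hψ n)) r := by
    intro n B hB
    have hcont : ContinuousOn (fun r => ⟪R0 r (û r), clV (hψ n)⟫_ℝ) (Icc 0 T) := by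
      intro r hr
      have k1 : Tendsto (fun r => ⟪û r, R0 r (clV (hψ n))⟫_ℝ) (𝓝[Icc 0 T] r)
          (𝓝 ⟪û r, R0 r (clV (hψ n))⟫_ℝ) :=
        tendsto_inner_weak_strong (c := M)
          (by filter_upwards [self_mem_nhdsWithin] with s hs using hM s hs)
          (fun y => hûc y r hr) (hRc _ r hr)
      show Tendsto _ _ (𝓝 ⟪R0 r (û r), clV (hψ n)⟫_ℝ)
      rw [L.ops.sa0 r hr]
      refine k1.congr' ?_
      filter_upwards [self_mem_nhdsWithin] with s hs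
      rw [L.ops.sa0 s hs]
    refine ext_zero (m := fun r => ⟪R0 r (û r), clV (hψ n)⟫_ℝ) hcont
      (L.mI_int a2 B (clV (hψ n)) (clM (hψ n))) ?_ s t hs hst ht
    intro s t hs hst ht
    exact L.mom_pos a2 mu (hψ n) hB (hm n) (fun r hr => hRu r hr _) hs hst ht
  -- density
  rw [← sub_eq_zero]
  have key : ∀ ε : ℝ, 0 < ε → |⟪R0 t (û t), clV h⟫_ℝ - ⟪R0 s (û s), clV h⟫_ℝ
      - ∫ r in s..t, mI R0 U Z fL A (clV h) (clM h) r| ≤ 2 * C * ε := by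
    intro ε hε
    obtain ⟨n, hn1, hn2⟩ := hd φ h ε hε
    obtain ⟨B, hB⟩ := mA Ω (ψ n) (hψ n)
    have hsub := IsTest_sub h (hψ n)
    obtain ⟨D, hD⟩ := mA Ω (fun x => φ x - ψ n x) hsub
    have h1 := hn n B hB
    have h2 := hC _ hsub D hD s t hs hst ht
    have h3 : ‖clV hsub‖ ≤ ε := (norm_clV_le hsub).trans hn1.le
    have h4 : ‖clM hsub‖ ≤ ε := by
      refine (norm_clM_le hsub).trans ?_
      have : jac (fun x => φ x - ψ n x) = fun x => jac φ x - jac (ψ n) x := by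
        funext x; exact jac_sub h (hψ n) x
      rw [this]
      exact hn2.le
    have hAB := fderiv_op_sub h (hψ n) hA hB hD
    have i1 := ii_of_ioc (L.mI_int a2 A (clV h) (clM h)) hs hst ht
    have i2 := ii_of_ioc (L.mI_int a2 B (clV (hψ n)) (clM (hψ n))) hs hst ht
    have h5 : (∫ r in s..t, mI R0 U Z fL A (clV h) (clM h) r)
        - (∫ r in s..t, mI R0 U Z fL B (clV (hψ n)) (clM (hψ n)) r)
        = ∫ r in s..t, mI R0 U Z fL D (clV hsub) (clM hsub) r := by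
      rw [← intervalIntegral.integral_sub i1 i2]
      apply intervalIntegral.integral_congr
      intro r _
      simp only
      rw [mI_sub hAB, clV_sub, clM_sub]
    have h6 : ⟪R0 t (û t), clV h⟫_ℝ - ⟪R0 s (û s), clV h⟫_ℝ
        - ∫ r in s..t, mI R0 U Z fL A (clV h) (clM h) r
        = ⟪R0 t (û t), clV hsub⟫_ℝ - ⟪R0 s (û s), clV hsub⟫_ℝ
        - ∫ r in s..t, mI R0 U Z fL D (clV hsub) (clM hsub) r := by
      rw [← h5, ← clV_sub h (hψ n)]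
      simp only [inner_sub_right]
      linarith
    rw [h6]
    refine h2.trans ?_
    nlinarith
  have h0 : |⟪R0 t (û t), clV h⟫_ℝ - ⟪R0 s (û s), clV h⟫_ℝ
      - ∫ r in s..t, mI R0 U Z fL A (clV h) (clM h) r| ≤ 0 := by
    refine le_of_forall_pos_le_add fun ε hε => ?_
    have := key (ε / (2 * C + 1)) (by positivity)
    refine this.trans ?_
    rw [zero_add, mul_div_assoc', div_le_iff₀ (by positivity)]
    nlinarith
  exact abs_nonpos_iff.mp h0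

end lim

end LimJ
end N979MH
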