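import Mathlib
import Pool.Agent.N979.MH.LimJ5

/-!
Project MH, module LIMJ: limit of a sequence of approximate solutions.
-/

set_option linter.unusedSectionVars false

open MeasureTheory Set Filter Topology
open scoped InnerProductSpace ENNReal ContDiff NNReal

namespace N979MH
namespace LimJ

open H772R2.NS H772R2.NSR

section lim

variable {Ω : Set E3} {T M K : ℝ} {fL : ℝ → L2V Ω} {τ : ℕ → ℝ} {ρ : ℕ → ℝ → L2S Ω}
    {u : ℕ → ℝ → L2V Ω} {z : ℕ → ℝ → L2M Ω} {F : Ultrafilter ℕ} {ρ' : ℝ → L2S Ω}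
    {R : ℕ → ℝ → L2V Ω →L[ℝ] L2V Ω} {R0 : ℝ → L2V Ω →L[ℝ] L2V Ω} {U : ℝ → L2V Ω}
    {Z : ℝ → L2M Ω}

/-- the family for A3 -/
theorem fam (mu : StmMul) (mA : StmMulA) (hΩ : IsOpen Ω) (hfK : ∀ s, ‖fL s‖ ≤ K)
    (hτ : ∀ J, 0 < τ J ∧ τ J < T) (hF : (F : Filter ℕ) ≤ atTop)
    (hJ : ∀ J, JSol Ω (τ J) T M fL (ρ J) (u J) (z J)) {ψ : ℕ → E3 → E3}
    (hψ : ∀ n, IsTest Ω (ψ n))
    (hm : ∀ n, ∀ᶠ J in atTop, MomId Ω (τ J) T fL (ρ J) (u J) (z J) (ψ n))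
    (hR : ∀ i, ∀ t ∈ Icc 0 T, ∀ v, R i t v = mulV (ρ i t) v) :
    AFam (graphW Ω) {v : L2V Ω | ∃ n, v = clV (hψ n)} (F : Filter ℕ) T M R u z where
  memW := fun i => (hJ i).memW
  ub := fun i => (hJ i).ub
  uc := fun i => (hJ i).uc
  zc := fun i => (hJ i).zc
  zb := fun i => (hJ i).zb
  equi := by
    rintro _ ⟨n, rfl⟩ ε hε
    obtain ⟨δ, hδ, h⟩ := mom_equi (T := T) (M := M) (K := K) mu mA hΩ.measurableSet (hψ n) hε
    refine ⟨δ, hδ, ?_⟩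
    filter_upwards [hF (hm n)] with i hi a ha b hb hab
    rw [hR i a ha, hR i b hb]
    exact h (τ i) fL (ρ i) (u i) (z i) (hτ i).1 (hτ i).2 hfK (hJ i) hi a ha b hb hab

/-- the energy inequality of the limit -/
theorem energy (L : LimData Ω T M K fL τ ρ u z F ρ' R R0 U Z) (a2 : StmA2) (mu : StmMul)
    {û : ℝ → L2V Ω} (hûU : ∀ᵐ t ∂(volume.restrict (Ioc 0 T)), û t = U t)
    (hE : ∀ t ∈ Icc 0 T, ∀ b : ℝ, (∀ᶠ i in (F : Filter ℕ), ⟪R i t (u i t), u i t⟫_ℝ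
        + 2 * (∫ s in (0 : ℝ)..t, ‖z i s‖ ^ 2) ≤ b) →
      ⟪R0 t (û t), û t⟫_ℝ + 2 * (∫ s in (0 : ℝ)..t, ‖Z s‖ ^ 2) ≤ b)
    {t : ℝ} (ht : t ∈ Icc 0 T) :
    (1 / 2) * (∫ x in Ω, ρ' t x * ‖û t x‖ ^ 2) + (∫ s in (0 : ℝ)..t, ‖Z s‖ ^ 2)
      ≤ ∫ s in (0 : ℝ)..t, ∫ x in Ω, ρ' s x * ⟪fL s x, û s x⟫_ℝ := by
  have := secondCountable_L2V Ω
  have hm := L.hΩ.measurableSet
  obtain ⟨-, -, h3⟩ := a2 (L2V Ω) (F : Filter ℕ) T R R0 L.hT L.ops (fun _ => fL) u fL U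
    (fun _ => L.f2) L.u2 L.f2 L.U2 (LimData.sq0 T F _) L.us
  have h4 := h3 0 t le_rfl ht.1 ht.2
  have e1 : ∫ s in (0 : ℝ)..t, ∫ x in Ω, ρ' s x * ⟪fL s x, û s x⟫_ℝ
      = ∫ s in (0 : ℝ)..t, ⟪R0 s (fL s), U s⟫_ℝ := by
    apply intervalIntegral.integral_congr_ae
    have k1 : ∀ᵐ r ∂volume, r ∈ Ioc 0 T → û r = U r :=
      (ae_restrict_iff' measurableSet_Ioc).mp hûU
    filter_upwards [k1] with r hr hrt
    rw [uIoc_of_le ht.1] at hrt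
    have hrI : r ∈ Ioc 0 T := ⟨hrt.1, hrt.2.trans ht.2⟩
    rw [← hr hrI, L.hR0 r (Ioc_subset_Icc_self hrI), (mu Ω hm (ρ' r) (L.bd' r)).2.2.1]
  have e2 : ∫ x in Ω, ρ' t x * ‖û t x‖ ^ 2 = ⟪R0 t (û t), û t⟫_ℝ := by
    rw [L.hR0 t ht, (mu Ω hm (ρ' t) (L.bd' t)).2.2.1]
    simp only [real_inner_self_eq_norm_sq]
  rw [e1, e2]
  have key : ⟪R0 t (û t), û t⟫_ℝ + 2 * (∫ s in (0 : ℝ)..t, ‖Z s‖ ^ 2)
      ≤ 2 * ∫ s in (0 : ℝ)..t, ⟪R0 s (fL s), U s⟫_ℝ := by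
    refine le_of_forall_pos_le_add fun ε hε => ?_
    refine hE t ht _ ?_
    have h5 := (h4.const_mul 2).eventually
      (gt_mem_nhds (show 2 * ∫ s in (0 : ℝ)..t, ⟪R0 s (fL s), U s⟫_ℝ
        < 2 * (∫ s in (0 : ℝ)..t, ⟪R0 s (fL s), U s⟫_ℝ) + ε by linarith))
    filter_upwards [h5] with i hi
    have h6 := (L.hJ i).en t ht
    rw [← L.hR i t ht] at h6
    have e3 : ∫ s in (0 : ℝ)..t, ⟪mulV (ρ i s) (fL s), u i s⟫_ℝ
        = ∫ s in (0 : ℝ)..t, ⟪R i s (fL s), u i s⟫_ℝ := by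
      apply intervalIntegral.integral_congr
      intro r hr
      rw [uIcc_of_le ht.1] at hr
      simp only
      rw [L.hR i r ⟨hr.1, hr.2.trans ht.2⟩]
    rw [e3] at h6
    linarith
  linarith

end lim

end LimJ

open LimJ H772R2.NS H772R2.NSR in
theorem limJ_holds (a1 : StmA1a) (a2 : StmA2) (a3 : StmA3) (a4 : StmA4) (m : StmMul)
    (mA : StmMulA) (dpl : StmDPL) : StmLimJ := by
  intro Ω T M K fL τ ρ u z ψ ρ0L hΩ hb hT hfm hfK hτ hτ0 hJ hρ0 hψ hd hmom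
  have hmΩ := hΩ.measurableSet
  have := secondCountable_L2V Ω
  have := secondCountable_L2M Ω
  set F : Ultrafilter ℕ := hyperfilter ℕ with hFdef
  have hF : (F : Filter ℕ) ≤ atTop := Nat.hyperfilter_le_atTop
  have hmom' : ∀ n, ∀ᶠ J in atTop, MomId Ω (τ J) T fL (ρ J) (u J) (z J) (ψ n) := hmom
  obtain ⟨ρ', hbd', hwl, hρc, hρu⟩ := exists_rho a1 m hΩ hb hT hJ F
  obtain ⟨R, R0, hR, hR0, hops⟩ := exists_ops m hmΩ hT (F := (F : Filter ℕ))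
    (fun i => (hJ i).bd) hbd' (fun i => (hJ i).rc) hρc hρu
  have hfr := frame hΩ hb hψ hd
  have hfam := fam (K := K) m mA hΩ hfK hτ hF hJ hψ hmom' hR
  obtain ⟨U, Z, hU, hZ, hUZ, hus, hzw, hmw⟩ := a3 (L2V Ω) (L2M Ω) (graphW Ω) _ hfr F T M R R0 u z
    hT hops hfam
  have L : LimData Ω T M K fL τ ρ u z F ρ' R R0 U Z :=
    ⟨hΩ, hb, hT, hfm, hfK, hτ, hτ0, hF, hJ, hbd', hwl, hR, hR0, hops, hU, hZ, hUZ, hus, hzw⟩
  -- transport and conservation of the norm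
  have htr := L.transport a2 m
  have hnorm : ∀ t ∈ Icc 0 T, ‖ρ' t‖ = ‖ρ' 0‖ := by
    refine dpl Ω T ρ' U Z hΩ hb hT (fun t _ => hbd' t) hρc hU hZ ?_ ?_
    · filter_upwards [hUZ] with t ht
      exact mem_graphW.mp ht
    · intro q hq hqc s t hs hst ht
      exact htr q hq hqc s t hs hst ht
  have h00 : (0 : ℝ) ∈ Icc 0 T := ⟨le_rfl, hT.le⟩
  have hρ0F : Tendsto (fun i => ρ i 0) F (𝓝 ρ0L) := hρ0.mono_left hF
  have hinit : ρ' 0 = ρ0L := by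
    refine ext_inner_right ℝ fun g => ?_
    exact tendsto_nhds_unique (hwl 0 h00 g) (hρ0F.inner tendsto_const_nhds)
  have hstr : ∀ t ∈ Icc 0 T, Tendsto (fun i => ρ i t) F (𝓝 (ρ' t)) := by
    intro t ht
    refine tendsto_of_weak_norm (hwl t ht) ?_
    rw [hnorm t ht, hinit]
    refine hρ0F.norm.congr fun i => ?_
    rw [(hJ i).rn t ht]
  have hrcont : ContinuousOn ρ' (Icc 0 T) := by
    intro t ht
    refine tendsto_of_weak_norm (fun y => hρc y t ht) ?_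
    refine tendsto_const_nhds.congr' ?_
    filter_upwards [self_mem_nhdsWithin] with s hs
    rw [hnorm s hs, hnorm t ht]
  have hRs : ∀ t ∈ Icc 0 T, ∀ v, Tendsto (fun i => R i t v) F (𝓝 (R0 t v)) := by
    intro t ht v
    have h1 := (m Ω hmΩ (ρ' t) (hbd' t)).2.2.2.2.2.2.1 ℕ (F : Filter ℕ) (fun i => ρ i t)
      (fun i => (hJ i).bd t ht) (hstr t ht) v
    rw [hR0 t ht]
    refine h1.congr fun i => ?_
    rw [hR i t ht]
  have hRc : ∀ v, ContinuousOn (fun t => R0 t v) (Icc 0 T) := by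
    intro v t ht
    have h1 := (m Ω hmΩ (ρ' t) (hbd' t)).2.2.2.2.2.2.1 ℝ (𝓝[Icc 0 T] t) ρ'
      hbd' (hrcont t ht) v
    show Tendsto _ _ (𝓝 (R0 t v))
    rw [hR0 t ht]
    refine h1.congr' ?_
    filter_upwards [self_mem_nhdsWithin] with s hs
    rw [hR0 s hs]
  obtain ⟨û, hûM, hûD, hûw, hûc, hûU, hRu, hE⟩ := a4 (L2V Ω) (L2M Ω) (graphW Ω) _ hfr F T M R R0
    u z U Z hT hops hfam hU hZ hUZ hus hzw hmw hRs hRc
  refine ⟨ρ', û, Z, ?_, hinit, ?_, ?_, ?_⟩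
  · constructor
    · exact fun t _ => hbd' t
    · exact hrcont
    · exact ⟨M, hûM⟩
    · intro t ht
      have h1 := hûD t ht
      unfold L2sigma
      refine closure_mono ?_ h1
      rintro _ ⟨n, rfl⟩
      exact ⟨ψ n, hψ n, clV_coe (hψ n)⟩
    · exact hûc
    · filter_upwards [hUZ, hûU] with t h1 h2
      rw [h2]
      exact mem_graphW.mp h1
    · exact hZ
    · exact L.f2
    · intro q hq hqc s t hs hst ht
      rw [htr q hq hqc s t hs hst ht]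
      apply intervalIntegral.integral_congr_ae
      have k1 : ∀ᵐ r ∂volume, r ∈ Ioc 0 T → û r = U r :=
        (ae_restrict_iff' measurableSet_Ioc).mp hûU
      filter_upwards [k1] with r hr hrt
      rw [uIoc_of_le hst] at hrt
      rw [hr ⟨hs.trans_lt hrt.1, hrt.2.trans ht⟩]
    · intro φ h s t hs hst ht
      obtain ⟨A, hA⟩ := mA Ω φ h
      have hsI : s ∈ Icc 0 T := ⟨hs, hst.trans ht⟩
      have htI : t ∈ Icc 0 T := ⟨hs.trans hst, ht⟩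
      have h1 := mom_all L a2 m mA hψ hd hmom' hûM hûc hRu hRc h hA hs hst ht
      rw [pair_mom m hmΩ (hbd' t) _ h, pair_mom m hmΩ (hbd' s) _ h, ← hR0 t htI, ← hR0 s hsI, h1]
      apply intervalIntegral.integral_congr_ae
      have k1 : ∀ᵐ r ∂volume, r ∈ Ioc 0 T → û r = U r :=
        (ae_restrict_iff' measurableSet_Ioc).mp hûU
      filter_upwards [k1] with r hr hrt
      rw [uIoc_of_le hst] at hrt
      have hrI : r ∈ Ioc 0 T := ⟨hs.trans_lt hrt.1, hrt.2.trans ht⟩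
      have hrI' := Ioc_subset_Icc_self hrI
      have h2 := momI_eq m hmΩ (hbd' r) (û r) (Z r) (fL r) h hA
      unfold momI at h2
      rw [h2]
      unfold mI
      rw [hr hrI, hR0 r hrI', hR0 r hrI']
  · have h1 : ∀ v, ⟪û 0, v⟫_ℝ = 0 := by
      intro v
      have h2 := hûw 0 h00 v
      have h3 : (fun i => ⟪u i 0, v⟫_ℝ) = fun _ => (0 : ℝ) := by
        funext i
        rw [(hJ i).u0 0 ⟨le_rfl, (hτ i).1.le⟩, inner_zero_left]
      rw [h3] at h2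
      exact tendsto_nhds_unique h2 tendsto_const_nhds
    refine ext_inner_right ℝ fun v => ?_
    rw [h1, inner_zero_left]
  · intro t ht
    exact energy L a2 m hûU hE ht
  · intro Y hY s hs σ γ hev
    have h1 := L.zint (clM hY) hs.1 hs.2 le_rfl
    have e : ∀ z : L2M Ω, ∫ x in Ω, ⟪z x, jac Y x⟫_ℝ = ⟪z, clM hY⟫_ℝ := by
      intro z
      rw [L2.inner_def]
      apply integral_congr_ae
      filter_upwards [clM_coe hY] with x hx
      rw [hx]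
    simp only [e] at hev ⊢
    exact ge_of_tendsto (h1.const_mul σ) (hF hev)

end N979MH
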