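import Pool.Agent.N979.MH.Stm

/-!
Project MH, module MUL: multiplication operators by densities on `L²`.
-/

set_option autoImplicit false

open MeasureTheory Set Filter Topology
open scoped InnerProductSpace ENNReal ContDiff NNReal

namespace N979MH

open H772R2.NS

namespace Mul

variable {μ : Measure E3}

/-- pointwise linear operators on `L²` -/
theorem memLp_op (T : E3 → E3 →L[ℝ] E3) (hT : AEStronglyMeasurable T μ) (C : ℝ)
    (hC : ∀ᵐ x ∂μ, ‖T x‖ ≤ C) (v : Lp E3 2 μ) : MemLp (fun x => T x (v x)) 2 μ := by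
  refine MemLp.of_le_mul (c := C) (Lp.memLp v) ?_ ?_
  · exact (ContinuousLinearMap.apply ℝ E3).aestronglyMeasurable_comp₂
      (Lp.aestronglyMeasurable v) hT
  · filter_upwards [hC] with x hx
    exact (ContinuousLinearMap.le_opNorm _ _).trans
      (mul_le_mul_of_nonneg_right hx (norm_nonneg _))

theorem norm_op_le (T : E3 → E3 →L[ℝ] E3) (hT : AEStronglyMeasurable T μ) (C : ℝ)
    (hC : ∀ᵐ x ∂μ, ‖T x‖ ≤ C) (v : Lp E3 2 μ) :
    ‖(memLp_op T hT C hC v).toLp _‖ ≤ C * ‖v‖ := by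
  refine Lp.norm_le_mul_norm_of_ae_le_mul ?_
  filter_upwards [hC, (memLp_op T hT C hC v).coeFn_toLp] with x hx h1
  rw [h1]
  exact (ContinuousLinearMap.le_opNorm _ _).trans
      (mul_le_mul_of_nonneg_right hx (norm_nonneg _))

theorem exists_op (T : E3 → E3 →L[ℝ] E3) (hT : AEStronglyMeasurable T μ) (C : ℝ)
    (hC : ∀ᵐ x ∂μ, ‖T x‖ ≤ C) :
    ∃ A : Lp E3 2 μ →L[ℝ] Lp E3 2 μ, ∀ v, (A v : E3 → E3) =ᵐ[μ] fun x => T x (v x) := by
  let L : Lp E3 2 μ →ₗ[ℝ] Lp E3 2 μ :=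
    { toFun := fun v => (memLp_op T hT C hC v).toLp _
      map_add' := by
        intro v w
        ext1
        filter_upwards [(memLp_op T hT C hC (v + w)).coeFn_toLp,
          (memLp_op T hT C hC v).coeFn_toLp, (memLp_op T hT C hC w).coeFn_toLp,
          Lp.coeFn_add v w, Lp.coeFn_add ((memLp_op T hT C hC v).toLp _)
            ((memLp_op T hT C hC w).toLp _)] with x h1 h2 h3 h4 h5
        rw [h1, h5, Pi.add_apply, h2, h3, h4, Pi.add_apply, map_add]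
      map_smul' := by
        intro c v
        ext1
        filter_upwards [(memLp_op T hT C hC (c • v)).coeFn_toLp,
          (memLp_op T hT C hC v).coeFn_toLp, Lp.coeFn_smul c v,
          Lp.coeFn_smul c ((memLp_op T hT C hC v).toLp _)] with x h1 h2 h4 h5
        rw [h1, RingHom.id_apply, h5, Pi.smul_apply, h2, h4, Pi.smul_apply, map_smul] }
  refine ⟨L.mkContinuous C fun v => norm_op_le T hT C hC v, fun v => ?_⟩
  exact (memLp_op T hT C hC v).coeFn_toLp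

end Mul

theorem mulA_holds : StmMulA := by
  intro Ω φ hφ
  have hc : Continuous (fderiv ℝ φ) := hφ.smooth.continuous_fderiv (by simp)
  have hcs : HasCompactSupport (fderiv ℝ φ) := hφ.compact.fderiv (𝕜 := ℝ)
  obtain ⟨C, hC⟩ := hcs.exists_bound_of_continuous hc
  exact Mul.exists_op (fderiv ℝ φ) hc.aestronglyMeasurable C
    (Eventually.of_forall fun x => hC x)

namespace Mul

variable {Ω : Set E3}

theorem norm_smul_id (r : ℝ) : ‖r • ContinuousLinearMap.id ℝ E3‖ ≤ |r| := by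
  rw [norm_smul, Real.norm_eq_abs]
  calc |r| * ‖ContinuousLinearMap.id ℝ E3‖ ≤ |r| * 1 :=
        mul_le_mul_of_nonneg_left ContinuousLinearMap.norm_id_le (abs_nonneg _)
    _ = |r| := mul_one _

/-- bounded densities -/
theorem memLp_mul (ρ : L2S Ω) (C : ℝ) (hρ : ∀ᵐ x ∂(volume.restrict Ω), |ρ x| ≤ C) (v : L2V Ω) :
    MemLp (fun x => ρ x • v x) 2 (volume.restrict Ω) := by
  refine MemLp.of_le_mul (c := C) (Lp.memLp v)
    ((Lp.aestronglyMeasurable ρ).smul (Lp.aestronglyMeasurable v)) ?_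
  filter_upwards [hρ] with x hx
  rw [norm_smul, Real.norm_eq_abs]
  exact mul_le_mul_of_nonneg_right hx (norm_nonneg _)

theorem abs_le_two {ρ : L2S Ω} (h : ∀ᵐ x ∂(volume.restrict Ω), 1 ≤ ρ x ∧ ρ x ≤ 2) :
    ∀ᵐ x ∂(volume.restrict Ω), |ρ x| ≤ 2 := by
  filter_upwards [h] with x hx
  rw [abs_le]
  constructor <;> linarith [hx.1, hx.2]

theorem mulV_coe {ρ : L2S Ω} (h : ∀ᵐ x ∂(volume.restrict Ω), 1 ≤ ρ x ∧ ρ x ≤ 2) (v : L2V Ω) :
    (mulV ρ v : E3 → E3) =ᵐ[volume.restrict Ω] fun x => ρ x • v x := by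
  have h1 := memLp_mul ρ 2 (abs_le_two h) v
  rw [mulV, dif_pos h1]
  exact h1.coeFn_toLp

theorem inner_mulV {ρ : L2S Ω} (h : ∀ᵐ x ∂(volume.restrict Ω), 1 ≤ ρ x ∧ ρ x ≤ 2)
    (v w : L2V Ω) : ⟪mulV ρ v, w⟫_ℝ = ∫ x in Ω, ρ x * ⟪v x, w x⟫_ℝ := by
  rw [L2.inner_def]
  refine integral_congr_ae ?_
  filter_upwards [mulV_coe h v] with x hx
  rw [hx, real_inner_smul_left]

/-- difference of two multiplications -/
theorem mulV_sub_coe {ρ ρ' : L2S Ω} (h : ∀ᵐ x ∂(volume.restrict Ω), 1 ≤ ρ x ∧ ρ x ≤ 2)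
    (h' : ∀ᵐ x ∂(volume.restrict Ω), 1 ≤ ρ' x ∧ ρ' x ≤ 2) (v : L2V Ω) :
    ((mulV ρ v - mulV ρ' v : L2V Ω) : E3 → E3) =ᵐ[volume.restrict Ω]
      fun x => (ρ x - ρ' x) • v x := by
  filter_upwards [mulV_coe h v, mulV_coe h' v, Lp.coeFn_sub (mulV ρ v) (mulV ρ' v)]
    with x h1 h2 h3
  rw [h3, Pi.sub_apply, h1, h2, sub_smul]

theorem integrable_inner (v w : L2V Ω) :
    Integrable (fun x => ⟪v x, w x⟫_ℝ) (volume.restrict Ω) := L2.integrable_inner v w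

theorem sub_abs_le {ρ ρ' : L2S Ω} (h : ∀ᵐ x ∂(volume.restrict Ω), 1 ≤ ρ x ∧ ρ x ≤ 2)
    (h' : ∀ᵐ x ∂(volume.restrict Ω), 1 ≤ ρ' x ∧ ρ' x ≤ 2) :
    ∀ᵐ x ∂(volume.restrict Ω), |ρ x - ρ' x| ≤ 1 := by
  filter_upwards [h, h'] with x h1 h2
  rw [abs_le]
  constructor <;> linarith [h1.1, h1.2, h2.1, h2.2]

/-- strong convergence, quantitative: `v = g + (v - g)`, `g` bounded -/
theorem norm_mulV_sub_le {ρ ρ' : L2S Ω} (h : ∀ᵐ x ∂(volume.restrict Ω), 1 ≤ ρ x ∧ ρ x ≤ 2)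
    (h' : ∀ᵐ x ∂(volume.restrict Ω), 1 ≤ ρ' x ∧ ρ' x ≤ 2) (v g : L2V Ω) (B : ℝ)
    (hg : ∀ᵐ x ∂(volume.restrict Ω), ‖g x‖ ≤ B) :
    ‖mulV ρ v - mulV ρ' v‖ ≤ B * ‖ρ - ρ'‖ + ‖v - g‖ := by
  -- the two pieces
  have hm1 : MemLp (fun x => (ρ x - ρ' x) • g x) 2 (volume.restrict Ω) := by
    refine MemLp.of_le_mul (c := B) (Lp.memLp (ρ - ρ'))
      (((Lp.aestronglyMeasurable ρ).sub (Lp.aestronglyMeasurable ρ')).smul
        (Lp.aestronglyMeasurable g)) ?_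
    filter_upwards [hg, Lp.coeFn_sub ρ ρ'] with x hx hs
    rw [norm_smul, hs, Pi.sub_apply, mul_comm]
    exact mul_le_mul_of_nonneg_right hx (norm_nonneg _)
  have hm2 : MemLp (fun x => (ρ x - ρ' x) • (v x - g x)) 2 (volume.restrict Ω) := by
    refine MemLp.of_le_mul (c := 1) (Lp.memLp (v - g))
      (((Lp.aestronglyMeasurable ρ).sub (Lp.aestronglyMeasurable ρ')).smul
        ((Lp.aestronglyMeasurable v).sub (Lp.aestronglyMeasurable g))) ?_
    filter_upwards [sub_abs_le h h', Lp.coeFn_sub v g] with x hx hs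
    rw [norm_smul, hs, Pi.sub_apply, Real.norm_eq_abs]
    exact mul_le_mul_of_nonneg_right hx (norm_nonneg _)
  have e : mulV ρ v - mulV ρ' v = hm1.toLp _ + hm2.toLp _ := by
    ext1
    filter_upwards [mulV_sub_coe h h' v, hm1.coeFn_toLp, hm2.coeFn_toLp,
      Lp.coeFn_add (hm1.toLp _) (hm2.toLp _)] with x h1 h2 h3 h4
    rw [h1, h4, Pi.add_apply, h2, h3, ← smul_add]
    congr 1
    abel
  rw [e]
  refine (norm_add_le _ _).trans (add_le_add ?_ ?_)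
  · refine Lp.norm_le_mul_norm_of_ae_le_mul ?_
    filter_upwards [hm1.coeFn_toLp, hg, Lp.coeFn_sub ρ ρ'] with x h1 hx hs
    rw [h1, norm_smul, hs, Pi.sub_apply, mul_comm]
    exact mul_le_mul_of_nonneg_right hx (norm_nonneg _)
  · refine Lp.norm_le_norm_of_ae_le ?_
    filter_upwards [hm2.coeFn_toLp, sub_abs_le h h', Lp.coeFn_sub v g] with x h1 hx hs
    rw [h1, norm_smul, hs, Pi.sub_apply, Real.norm_eq_abs]
    calc |ρ x - ρ' x| * ‖v x - g x‖ ≤ 1 * ‖v x - g x‖ :=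
          mul_le_mul_of_nonneg_right hx (norm_nonneg _)
      _ = _ := one_mul _

/-- density of bounded fields -/
theorem exists_bounded (v : L2V Ω) (ε : ℝ) (hε : 0 < ε) :
    ∃ (g : L2V Ω) (B : ℝ), 0 < B ∧ (∀ᵐ x ∂(volume.restrict Ω), ‖g x‖ ≤ B) ∧ ‖v - g‖ ≤ ε := by
  obtain ⟨g, hg1, hg2⟩ := (Lp.memLp v).exists_simpleFunc_eLpNorm_sub_lt (by norm_num)
    (ε := ENNReal.ofReal ε) (by simpa using hε)
  obtain ⟨B, hB⟩ := g.exists_forall_norm_le
  refine ⟨hg2.toLp _, max B 1, by positivity, ?_, ?_⟩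
  · filter_upwards [hg2.coeFn_toLp] with x hx
    rw [hx]
    exact (hB x).trans (le_max_left _ _)
  · rw [Lp.norm_def]
    have e : eLpNorm ((v - hg2.toLp _ : L2V Ω) : E3 → E3) 2 (volume.restrict Ω)
        = eLpNorm ((v : E3 → E3) - ⇑g) 2 (volume.restrict Ω) := by
      refine eLpNorm_congr_ae ?_
      filter_upwards [Lp.coeFn_sub v (hg2.toLp _), hg2.coeFn_toLp] with x h1 h2
      rw [h1, Pi.sub_apply, Pi.sub_apply, h2]
    rw [e]
    exact ENNReal.toReal_le_of_le_ofReal hε.le hg1.le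

theorem strong {ρ : L2S Ω} (h : ∀ᵐ x ∂(volume.restrict Ω), 1 ≤ ρ x ∧ ρ x ≤ 2) {ι : Type}
    (F : Filter ι) (ρi : ι → L2S Ω)
    (hi : ∀ i, ∀ᵐ x ∂(volume.restrict Ω), 1 ≤ ρi i x ∧ ρi i x ≤ 2) (ht : Tendsto ρi F (𝓝 ρ))
    (v : L2V Ω) : Tendsto (fun i => mulV (ρi i) v) F (𝓝 (mulV ρ v)) := by
  rw [tendsto_iff_norm_sub_tendsto_zero] at ht ⊢
  rw [Metric.tendsto_nhds] at ht ⊢
  intro ε hε
  obtain ⟨g, B, hB, hg, hvg⟩ := exists_bounded v (ε / 3) (by positivity)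
  filter_upwards [ht (ε / (3 * B)) (by positivity)] with i hi'
  rw [Real.dist_eq, sub_zero, abs_of_nonneg (norm_nonneg _)] at hi' ⊢
  have h1 := norm_mulV_sub_le (hi i) h v g B hg
  have h2 : B * ‖ρi i - ρ‖ ≤ ε / 3 := by
    calc B * ‖ρi i - ρ‖ ≤ B * (ε / (3 * B)) := mul_le_mul_of_nonneg_left hi'.le hB.le
      _ = ε / 3 := by field_simp
  linarith

/-- weak convergence: comparison with a function in `L²` -/
theorem abs_inner_sub_le {ρ ρ' : L2S Ω} (h : ∀ᵐ x ∂(volume.restrict Ω), 1 ≤ ρ x ∧ ρ x ≤ 2)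
    (h' : ∀ᵐ x ∂(volume.restrict Ω), 1 ≤ ρ' x ∧ ρ' x ≤ 2) (v w : L2V Ω) (g : L2S Ω)
    (hg : Integrable (fun x => g x) (volume.restrict Ω)) :
    |⟪mulV ρ v - mulV ρ' v, w⟫_ℝ| ≤ |⟪ρ - ρ', g⟫_ℝ| + ∫ x in Ω, |⟪v x, w x⟫_ℝ - g x| := by
  have e1 : ⟪mulV ρ v - mulV ρ' v, w⟫_ℝ
      = ∫ x in Ω, (ρ x - ρ' x) * ⟪v x, w x⟫_ℝ := by
    rw [L2.inner_def]
    refine integral_congr_ae ?_
    filter_upwards [mulV_sub_coe h h' v] with x hx
    rw [hx, real_inner_smul_left]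
  have e2 : ⟪ρ - ρ', g⟫_ℝ = ∫ x in Ω, (ρ x - ρ' x) * g x := by
    rw [L2.inner_def]
    refine integral_congr_ae ?_
    filter_upwards [Lp.coeFn_sub ρ ρ'] with x hx
    rw [hx, Pi.sub_apply, real_inner_eq_re_inner, RCLike.inner_apply]
    simp [mul_comm]
  have i0 : AEStronglyMeasurable (fun x => ρ x - ρ' x) (volume.restrict Ω) :=
    (Lp.aestronglyMeasurable ρ).sub (Lp.aestronglyMeasurable ρ')
  have i1 : Integrable (fun x => (ρ x - ρ' x) * ⟪v x, w x⟫_ℝ) (volume.restrict Ω) := by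
    refine (integrable_inner v w).norm.mono (i0.mul (integrable_inner v w).1) ?_
    filter_upwards [sub_abs_le h h'] with x hx
    rw [norm_mul, Real.norm_eq_abs, norm_norm]
    calc |ρ x - ρ' x| * ‖⟪v x, w x⟫_ℝ‖ ≤ 1 * ‖⟪v x, w x⟫_ℝ‖ :=
          mul_le_mul_of_nonneg_right hx (norm_nonneg _)
      _ = _ := one_mul _
  have i2 : Integrable (fun x => (ρ x - ρ' x) * g x) (volume.restrict Ω) := by
    refine hg.norm.mono (i0.mul hg.1) ?_
    filter_upwards [sub_abs_le h h'] with x hx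
    rw [norm_mul, Real.norm_eq_abs, norm_norm]
    calc |ρ x - ρ' x| * ‖g x‖ ≤ 1 * ‖g x‖ :=
          mul_le_mul_of_nonneg_right hx (norm_nonneg _)
      _ = _ := one_mul _
  have e3 : (∫ x in Ω, (ρ x - ρ' x) * ⟪v x, w x⟫_ℝ) =
      (∫ x in Ω, (ρ x - ρ' x) * g x) + ∫ x in Ω, (ρ x - ρ' x) * (⟪v x, w x⟫_ℝ - g x) := by
    rw [← integral_add i2 (by
      have := i1.sub i2
      refine this.congr (Eventually.of_forall fun x => ?_)
      simp only [Pi.sub_apply]; ring)]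
    refine integral_congr_ae (Eventually.of_forall fun x => ?_)
    simp only; ring
  rw [e1, e2, e3]
  refine (abs_add_le _ _).trans (add_le_add le_rfl ?_)
  rw [← Real.norm_eq_abs]
  refine (norm_integral_le_integral_norm _).trans ?_
  refine integral_mono_ae ?_ ((integrable_inner v w).sub hg).norm ?_
  · refine ((i1.sub i2).norm).congr (Eventually.of_forall fun x => ?_)
    simp only [Pi.sub_apply]
    congr 1; ring
  · filter_upwards [sub_abs_le h h'] with x hx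
    rw [norm_mul, Real.norm_eq_abs]
    calc |ρ x - ρ' x| * ‖⟪v x, w x⟫_ℝ - g x‖ ≤ 1 * ‖⟪v x, w x⟫_ℝ - g x‖ :=
          mul_le_mul_of_nonneg_right hx (norm_nonneg _)
      _ = |⟪v x, w x⟫_ℝ - g x| := by rw [one_mul, Real.norm_eq_abs]

theorem exists_L2_of_integrable {h : E3 → ℝ} (hh : Integrable h (volume.restrict Ω)) (ε : ℝ)
    (hε : 0 < ε) : ∃ g : L2S Ω, Integrable (fun x => g x) (volume.restrict Ω) ∧
      ∫ x in Ω, |h x - g x| ≤ ε := by
  obtain ⟨g, hg1, hg2⟩ := (memLp_one_iff_integrable.2 hh).exists_simpleFunc_eLpNorm_sub_lt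
    (by norm_num) (ε := ENNReal.ofReal ε) (by simpa using hε)
  have hgi : Integrable g (volume.restrict Ω) := memLp_one_iff_integrable.1 hg2
  have hg3 : MemLp g 2 (volume.restrict Ω) :=
    (SimpleFunc.memLp_iff_integrable (by norm_num) (by norm_num)).2 hgi
  refine ⟨hg3.toLp _, hgi.congr hg3.coeFn_toLp.symm, ?_⟩
  have e : (∫ x in Ω, |h x - (hg3.toLp g : E3 → ℝ) x|) = ∫ x in Ω, ‖(h - g) x‖ := by
    refine integral_congr_ae ?_
    filter_upwards [hg3.coeFn_toLp] with x hx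
    rw [hx, Real.norm_eq_abs, Pi.sub_apply]
  rw [e, integral_norm_eq_lintegral_enorm (hh.1.sub hgi.1)]
  rw [eLpNorm_one_eq_lintegral_enorm] at hg1
  exact ENNReal.toReal_le_of_le_ofReal hε.le hg1.le

theorem weak {ι S : Type} (F : Filter ι) (ρi : ι → S → L2S Ω) (ρ0 : S → L2S Ω)
    (hi : ∀ i s, ∀ᵐ x ∂(volume.restrict Ω), 1 ≤ ρi i s x ∧ ρi i s x ≤ 2)
    (h0 : ∀ s, ∀ᵐ x ∂(volume.restrict Ω), 1 ≤ ρ0 s x ∧ ρ0 s x ≤ 2)
    (hw : ∀ g : L2S Ω, ∀ ε : ℝ, 0 < ε → ∀ᶠ i in F, ∀ s, |⟪ρi i s - ρ0 s, g⟫_ℝ| ≤ ε)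
    (v w : L2V Ω) (ε : ℝ) (hε : 0 < ε) :
    ∀ᶠ i in F, ∀ s, |⟪mulV (ρi i s) v - mulV (ρ0 s) v, w⟫_ℝ| ≤ ε := by
  obtain ⟨g, hg, hg'⟩ := exists_L2_of_integrable (integrable_inner v w) (ε / 2) (by positivity)
  filter_upwards [hw g (ε / 2) (by positivity)] with i h1 s
  have h2 := abs_inner_sub_le (hi i s) (h0 s) v w g hg
  linarith [h1 s]

end Mul

theorem mul_holds : StmMul := by
  intro Ω hΩ ρ hρ
  have h2 := Mul.abs_le_two hρ
  have hcoe := Mul.mulV_coe hρ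
  have hT : AEStronglyMeasurable (fun x => ρ x • ContinuousLinearMap.id ℝ E3)
      (volume.restrict Ω) := (Lp.aestronglyMeasurable ρ).smul_const _
  refine ⟨?_, hcoe, Mul.inner_mulV hρ, fun v w => ?_, fun v => ?_, fun v => ?_, ?_, ?_⟩
  · obtain ⟨A, hA⟩ := Mul.exists_op (fun x => ρ x • ContinuousLinearMap.id ℝ E3) hT 2
      (by
        filter_upwards [h2] with x hx
        exact (Mul.norm_smul_id _).trans hx)
    refine ⟨A, fun v => ?_⟩
    ext1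
    filter_upwards [hA v, hcoe v] with x h1 h3
    rw [h1, h3]
    simp
  · rw [Mul.inner_mulV hρ, real_inner_comm, Mul.inner_mulV hρ]
    refine integral_congr_ae (Eventually.of_forall fun x => ?_)
    simp only
    rw [real_inner_comm]
  · rw [Mul.inner_mulV hρ, ← real_inner_self_eq_norm_sq, L2.inner_def]
    refine integral_mono_ae (Mul.integrable_inner v v) ?_ ?_
    · have := Mul.integrable_inner (mulV ρ v) v
      refine this.congr ?_
      filter_upwards [hcoe v] with x hx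
      rw [hx, real_inner_smul_left]
    · filter_upwards [hρ] with x hx
      have : 0 ≤ ⟪v x, v x⟫_ℝ := real_inner_self_nonneg
      nlinarith [hx.1]
  · refine Lp.norm_le_mul_norm_of_ae_le_mul ?_
    filter_upwards [hcoe v, h2] with x h1 h3
    rw [h1, norm_smul, Real.norm_eq_abs]
    exact mul_le_mul_of_nonneg_right h3 (norm_nonneg _)
  · intro ι F ρi hi ht v
    exact Mul.strong hρ F ρi hi ht v
  · intro ι S F ρi ρ0 hi h0 hw v w ε hε
    exact Mul.weak F ρi ρ0 hi h0 hw v w ε hε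

end N979MH
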