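import Mathlib
import Pool.Agent.N979.MH.Stm

/-!
Project MH, module POINC: the Poincare inequality for test fields in a bounded open set.
-/

open MeasureTheory Set Filter Topology
open scoped InnerProductSpace ENNReal ContDiff NNReal

namespace N979MH

open H772R2.NS

theorem eLpNorm_two_toReal {E : Type*} [NormedAddCommGroup E] [NormedSpace ℝ E] {g : E3 → E}
    (hg : MemLp g 2 (volume : Measure E3)) :
    (eLpNorm g 2 (volume : Measure E3)).toReal = Real.sqrt (∫ x, ‖g x‖ ^ 2) := by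
  have h0 := hg.eLpNorm_eq_integral_rpow_norm (by norm_num) (by norm_num)
  rw [h0]
  have h1 : (2 : ℝ≥0∞).toReal = 2 := by norm_num
  rw [h1]
  have h2 : ∀ x, ‖g x‖ ^ (2 : ℝ) = ‖g x‖ ^ 2 := fun x => by
    rw [← Real.rpow_natCast]; norm_num
  simp_rw [h2]
  rw [ENNReal.toReal_ofReal (by positivity), Real.sqrt_eq_rpow]
  norm_num

theorem poinc_holds : StmPoinc := by
  intro Ω hΩ hb
  have hfin : volume Ω < ⊤ := hb.measure_lt_top
  set V : ℝ≥0∞ := (volume Ω) ^ (1 / (2 : ℝ≥0∞).toReal - 1 / (6 : ℝ≥0∞).toReal) with hV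
  have hVfin : V ≠ ⊤ := by
    rw [hV]
    refine (ENNReal.rpow_lt_top_of_nonneg ?_ hfin.ne).ne
    norm_num
  refine ⟨(CS : ℝ) * V.toReal + 1, by positivity, ?_⟩
  intro w hw
  have e0 : eLpNorm w 2 (volume : Measure E3) = eLpNorm w 2 (volume.restrict Ω) := by
    rw [← eLpNorm_indicator_eq_eLpNorm_restrict hΩ.measurableSet]
    congr 1
    symm
    rw [Set.indicator_eq_self]
    exact (subset_tsupport w).trans hw.supp
  have h6 : eLpNorm w 6 (volume.restrict Ω) ≤ CS * eLpNorm (jac w) 2 (volume : Measure E3) := by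
    calc eLpNorm w 6 (volume.restrict Ω) ≤ eLpNorm w 6 (volume : Measure E3) :=
          eLpNorm_mono_measure _ Measure.restrict_le_self
      _ ≤ CS * eLpNorm (fderiv ℝ w) 2 (volume : Measure E3) :=
          CS_spec w (hw.smooth.of_le (by simp)) hw.compact
      _ ≤ CS * eLpNorm (jac w) 2 (volume : Measure E3) := by
          gcongr
          exact eLpNorm_mono (fun x => norm_fderiv_le_jac x)
  have h7 : eLpNorm w 2 (volume.restrict Ω) ≤ eLpNorm w 6 (volume.restrict Ω) * V := by
    have := eLpNorm_le_eLpNorm_mul_rpow_measure_univ (μ := volume.restrict Ω) (p := 2) (q := 6)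
      (by norm_num) (f := w) hw.smooth.continuous.aestronglyMeasurable
    rwa [Measure.restrict_apply_univ] at this
  have h8 : eLpNorm w 2 (volume : Measure E3)
      ≤ CS * V * eLpNorm (jac w) 2 (volume : Measure E3) := by
    rw [e0]
    refine h7.trans ?_
    calc eLpNorm w 6 (volume.restrict Ω) * V
        ≤ (CS * eLpNorm (jac w) 2 (volume : Measure E3)) * V := by gcongr
      _ = _ := by ring
  have h9 := ENNReal.toReal_mono
    (ENNReal.mul_ne_top (ENNReal.mul_ne_top ENNReal.coe_ne_top hVfin)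
      (hw.jac_memLp 2).eLpNorm_lt_top.ne) h8
  rw [ENNReal.toReal_mul, ENNReal.toReal_mul, ENNReal.coe_toReal,
    eLpNorm_two_toReal (hw.memLp 2), eLpNorm_two_toReal (hw.jac_memLp 2)] at h9
  have h10 : nV w = Real.sqrt (∫ x, ‖w x‖ ^ 2) := rfl
  have h11 : nM (jac w) = Real.sqrt (∫ x, ‖jac w x‖ ^ 2) := rfl
  rw [h10, h11]
  refine h9.trans ?_
  have := Real.sqrt_nonneg (∫ x, ‖jac w x‖ ^ 2)
  nlinarith

end N979MH
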