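import Mathlib
import Pool.Agent.N979.MH.Stm

/-!
Project MH (helper979), module PROF (written by helper196): the smooth profiles `Psi`, `psi`, `hh`.
-/

open MeasureTheory Set Filter Topology
open scoped ENNReal ContDiff

namespace N979MH

namespace Prof

theorem chi_contDiff : ContDiff ℝ ∞ chi := by
  unfold chi
  exact Real.smoothTransition.contDiff.comp
    (contDiff_const.mul (contDiff_id.sub contDiff_const))

theorem chi_nonneg (v : ℝ) : 0 ≤ chi v := Real.smoothTransition.nonneg _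

theorem chi_le_one (v : ℝ) : chi v ≤ 1 := Real.smoothTransition.le_one _

theorem chi_zero (v : ℝ) (h : v ≤ 1) : chi v = 0 :=
  Real.smoothTransition.zero_of_nonpos (by linarith)

theorem chi_one (v : ℝ) (h : 6 / 5 ≤ v) : chi v = 1 :=
  Real.smoothTransition.one_of_one_le (by linarith)

theorem chi_mono : Monotone chi := by
  intro a b hab
  exact Real.smoothTransition.monotone (by linarith)

theorem chi_cont_deriv : Continuous (deriv chi) :=
  chi_contDiff.continuous_deriv (by norm_cast)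

theorem dchi_zero_lt (v : ℝ) (h : v < 1) : deriv chi v = 0 := by
  have e : chi =ᶠ[𝓝 v] fun _ => 0 := by
    filter_upwards [Iio_mem_nhds h] with x hx
    exact chi_zero x (le_of_lt hx)
  rw [e.deriv_eq]; simp

theorem dchi_zero_gt (v : ℝ) (h : 6 / 5 < v) : deriv chi v = 0 := by
  have e : chi =ᶠ[𝓝 v] fun _ => 1 := by
    filter_upwards [Ioi_mem_nhds h] with x hx
    exact chi_one x (le_of_lt hx)
  rw [e.deriv_eq]; simp

theorem dchi_zero (v : ℝ) (h : v ≤ 1) : deriv chi v = 0 := by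
  have hcl : IsClosed {x : ℝ | deriv chi x = 0} := isClosed_eq chi_cont_deriv continuous_const
  have hsub : Iio (1 : ℝ) ⊆ {x : ℝ | deriv chi x = 0} := fun x hx => dchi_zero_lt x hx
  have h2 : closure (Iio (1 : ℝ)) ⊆ {x : ℝ | deriv chi x = 0} := closure_minimal hsub hcl
  rw [closure_Iio] at h2
  exact h2 h

theorem dchi_zero' (v : ℝ) (h : 6 / 5 ≤ v) : deriv chi v = 0 := by
  have hcl : IsClosed {x : ℝ | deriv chi x = 0} := isClosed_eq chi_cont_deriv continuous_const
  have hsub : Ioi (6 / 5 : ℝ) ⊆ {x : ℝ | deriv chi x = 0} := fun x hx => dchi_zero_gt x hx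
  have h2 : closure (Ioi (6 / 5 : ℝ)) ⊆ {x : ℝ | deriv chi x = 0} := closure_minimal hsub hcl
  rw [closure_Ioi] at h2
  exact h2 h

theorem dchi_nonneg (v : ℝ) : 0 ≤ deriv chi v := chi_mono.deriv_nonneg

theorem psi_zero (v : ℝ) (h : v ≤ 1) : psi v = 0 := by
  rw [psi, chi_zero v h]; simp

theorem psi_nonneg (v : ℝ) : 0 ≤ psi v := by
  rcases le_or_gt v 1 with h | h
  · rw [psi_zero v h]
  · unfold psi
    have := chi_nonneg v
    positivity

theorem psi_le (v : ℝ) (hv : 0 < v) : psi v ≤ v ^ (-(5 / 2) : ℝ) / 2 := by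
  unfold psi
  have h1 := chi_le_one v
  have h2 : 0 < v ^ (-(5 / 2) : ℝ) := Real.rpow_pos_of_pos hv _
  nlinarith

theorem psi_eq (v : ℝ) (h : 6 / 5 ≤ v) : psi v = v ^ (-(5 / 2) : ℝ) / 2 := by
  unfold psi
  rw [chi_one v h, one_mul]

theorem psi_contDiff : ContDiff ℝ ∞ psi := by
  rw [contDiff_iff_contDiffAt]
  intro v
  rcases lt_or_ge v 1 with h | h
  · have e : psi =ᶠ[𝓝 v] fun _ => 0 := by
      filter_upwards [Iio_mem_nhds h] with x hx
      exact psi_zero x (le_of_lt hx)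
    exact contDiffAt_const.congr_of_eventuallyEq e
  · unfold psi
    exact (chi_contDiff.contDiffAt.mul (Real.contDiffAt_rpow_const_of_ne (by linarith))).div_const _

theorem hh_zero (v : ℝ) (h : v ≤ 1) : hh v = 0 := by
  rw [hh, dchi_zero v h]; simp

theorem hh_zero' (v : ℝ) (h : 6 / 5 ≤ v) : hh v = 0 := by
  rw [hh, dchi_zero' v h]; simp

theorem hh_nonneg (v : ℝ) : 0 ≤ hh v := by
  rcases le_or_gt v 1 with h | h
  · rw [hh_zero v h]
  · unfold hh
    have := dchi_nonneg v
    positivity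

theorem hh_contDiff : ContDiff ℝ ∞ hh := by
  have hd : ContDiff ℝ ∞ (deriv chi) := (contDiff_infty_iff_deriv.mp chi_contDiff).2
  rw [contDiff_iff_contDiffAt]
  intro v
  rcases lt_or_ge v 1 with h | h
  · have e : hh =ᶠ[𝓝 v] fun _ => 0 := by
      filter_upwards [Iio_mem_nhds h] with x hx
      exact hh_zero x (le_of_lt hx)
    exact contDiffAt_const.congr_of_eventuallyEq e
  · unfold hh
    exact (contDiffAt_const.mul hd.contDiffAt).mul (Real.contDiffAt_rpow_const_of_ne (by linarith))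

theorem hh_supp (v : ℝ) (h : hh v ≠ 0) : 1 < v ∧ v < 6 / 5 := by
  constructor
  · by_contra h2
    exact h (hh_zero v (not_lt.mp h2))
  · by_contra h2
    exact h (hh_zero' v (not_lt.mp h2))

theorem hh_bdd : ∃ C, ∀ v, hh v ≤ C := by
  obtain ⟨x, -, hx⟩ := (isCompact_Icc (a := (1 : ℝ)) (b := 6 / 5)).exists_isMaxOn
    ⟨1, by norm_num, by norm_num⟩ hh_contDiff.continuous.continuousOn
  refine ⟨max (hh x) 0, fun v => ?_⟩
  by_cases h : hh v = 0
  · rw [h]; exact le_max_right _ _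
  · have := hh_supp v h
    exact (hx ⟨this.1.le, this.2.le⟩).trans (le_max_left _ _)

theorem ode (y : ℝ) : 4 * y * deriv psi y + 10 * psi y = hh y := by
  rcases lt_or_ge y 1 with h | h
  · have e : psi =ᶠ[𝓝 y] fun _ => 0 := by
      filter_upwards [Iio_mem_nhds h] with x hx
      exact psi_zero x (le_of_lt hx)
    rw [e.deriv_eq, psi_zero y h.le, hh_zero y h.le]; simp
  · have hy : 0 < y := by linarith
    have hc : HasDerivAt chi (deriv chi y) y :=
      (chi_contDiff.differentiable (by simp)).differentiableAt.hasDerivAt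
    have hp : HasDerivAt (fun v : ℝ => v ^ (-(5 / 2) : ℝ)) (-(5 / 2) * y ^ (-(5 / 2) - 1 : ℝ)) y :=
      Real.hasDerivAt_rpow_const (Or.inl hy.ne')
    have hpsi : HasDerivAt psi ((deriv chi y * y ^ (-(5 / 2) : ℝ) +
        chi y * (-(5 / 2) * y ^ (-(5 / 2) - 1 : ℝ))) / 2) y := (hc.mul hp).div_const 2
    rw [hpsi.deriv, psi, hh]
    have e1 : y * y ^ (-(5 / 2) - 1 : ℝ) = y ^ (-(5 / 2) : ℝ) := by
      rw [Real.rpow_sub_one hy.ne']; field_simp
    have e2 : y * y ^ (-(5 / 2) : ℝ) = y ^ (-(3 / 2) : ℝ) := by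
      rw [show (-(5 / 2) : ℝ) = -(3 / 2) - 1 by norm_num, Real.rpow_sub_one hy.ne']; field_simp
    have : 4 * y * ((deriv chi y * y ^ (-(5 / 2) : ℝ) +
        chi y * (-(5 / 2) * y ^ (-(5 / 2) - 1 : ℝ))) / 2) + 10 * (chi y * y ^ (-(5 / 2) : ℝ) / 2) =
        2 * deriv chi y * (y * y ^ (-(5 / 2) : ℝ)) - 5 * chi y * (y * y ^ (-(5 / 2) - 1 : ℝ)) +
          5 * chi y * y ^ (-(5 / 2) : ℝ) := by ring
    rw [this, e1, e2]; ring

theorem psi_cont : Continuous psi := psi_contDiff.continuous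

theorem psi_int_Ioi (a : ℝ) (ha : 0 < a) : IntegrableOn psi (Ioi a) := by
  have h := (integrableOn_Ioi_rpow_of_lt (a := (-(5 / 2) : ℝ)) (by norm_num) ha).div_const 2
  refine Integrable.mono' h psi_cont.aestronglyMeasurable ?_
  rw [ae_restrict_iff' measurableSet_Ioi]
  refine Eventually.of_forall fun v hv => ?_
  rw [Real.norm_of_nonneg (psi_nonneg v)]
  exact psi_le v (lt_trans ha hv)

theorem psi_integrableOn (y : ℝ) : IntegrableOn psi (Ioi y) := by
  rcases lt_or_ge 0 y with h | h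
  · exact psi_int_Ioi y h
  · have h1 : IntegrableOn psi (Ioc y 1) := psi_cont.integrableOn_Ioc
    have h2 := h1.union (psi_int_Ioi 1 one_pos)
    rwa [Ioc_union_Ioi_eq_Ioi (by linarith)] at h2

theorem Psi_eq (y a : ℝ) : Psi y = (∫ v in y..a, psi v) + Psi a := by
  unfold Psi
  exact (intervalIntegral.integral_interval_add_Ioi' (psi_cont.intervalIntegrable _ _)
    (psi_integrableOn a)).symm

theorem Psi_deriv (y : ℝ) : HasDerivAt Psi (-psi y) y := by
  have e : Psi = fun y => Psi 0 - ∫ v in (0 : ℝ)..y, psi v := by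
    funext y
    rw [Psi_eq y 0, intervalIntegral.integral_symm]; ring
  rw [e]
  have := (intervalIntegral.integral_hasDerivAt_right (psi_cont.intervalIntegrable 0 y)
    psi_cont.stronglyMeasurable.stronglyMeasurableAtFilter psi_cont.continuousAt).const_sub (Psi 0)
  exact this

theorem Psi_contDiff : ContDiff ℝ ∞ Psi := by
  rw [contDiff_infty_iff_deriv]
  refine ⟨fun y => (Psi_deriv y).differentiableAt, ?_⟩
  have : deriv Psi = fun y => -psi y := funext fun y => (Psi_deriv y).deriv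
  rw [this]
  exact psi_contDiff.neg

theorem rpow_int (y : ℝ) (hy : 0 < y) : ∫ v in Ioi y, v ^ (-(5 / 2) : ℝ) / 2 = y ^ (-(3 / 2) : ℝ) / 3 := by
  rw [integral_div, integral_Ioi_rpow_of_lt (by norm_num) hy]
  rw [show (-(5 / 2) + 1 : ℝ) = -(3 / 2) by norm_num]
  ring

theorem Psi_large (y : ℝ) (hy : 6 / 5 ≤ y) : Psi y = y ^ (-(3 / 2) : ℝ) / 3 := by
  rw [← rpow_int y (by linarith)]
  unfold Psi
  apply setIntegral_congr_fun measurableSet_Ioi
  intro v hv
  exact psi_eq v (hy.trans (le_of_lt hv))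

theorem Psi_le (y : ℝ) (hy : 0 < y) : Psi y ≤ y ^ (-(3 / 2) : ℝ) / 3 := by
  rw [← rpow_int y hy]
  unfold Psi
  apply setIntegral_mono_on (psi_integrableOn y) _ measurableSet_Ioi
  · intro v hv
    exact psi_le v (lt_trans hy hv)
  · exact (integrableOn_Ioi_rpow_of_lt (by norm_num) hy).div_const 2

theorem Psi_anti : Antitone Psi :=
  antitone_of_deriv_nonpos (fun y => (Psi_deriv y).differentiableAt)
    (fun y => by rw [(Psi_deriv y).deriv]; linarith [psi_nonneg y])

theorem Psi_small (y : ℝ) (hy : y ≤ 1) : Psi y = Psi 1 := by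
  rw [Psi_eq y 1]
  have : ∫ v in y..1, psi v = 0 := by
    rw [intervalIntegral.integral_congr (g := fun _ => (0 : ℝ))]
    · simp
    · intro v hv
      rw [uIcc_of_le hy] at hv
      exact psi_zero v hv.2
  rw [this, zero_add]

theorem Psi_pos (y : ℝ) : 0 < Psi y := by
  have h1 : Psi (max y (6 / 5)) ≤ Psi y := Psi_anti (le_max_left _ _)
  have h2 : 6 / 5 ≤ max y (6 / 5) := le_max_right _ _
  rw [Psi_large _ h2] at h1
  have h3 : 0 < (max y (6 / 5)) ^ (-(3 / 2) : ℝ) := Real.rpow_pos_of_pos (by linarith) _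
  linarith

end Prof

open Prof in
theorem prof_holds : StmProf :=
  ⟨Psi_contDiff, psi_contDiff, hh_contDiff, Psi_deriv, Psi_large, Psi_small, Psi_pos, Psi_anti,
    Psi_le, psi_nonneg, psi_zero, psi_le, hh_nonneg, hh_supp, hh_bdd, ode⟩

end N979MH
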