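import Mathlib
import Pool.Agent.N979.MH.Stm
import Pool.Agent.N528.MH.TimeAbs
import Pool.Agent.N528.MH.Meas
import Pool.Agent.N528.MH.SpaceTime

/-!
Project MH: the continuity equation with space-time test functions (module TESTR).
-/

open MeasureTheory Set Filter Topology
open scoped InnerProductSpace ENNReal ContDiff NNReal

namespace N979MH

open H772R2.NS

/-- continuous functions with compact support. -/
def cSub (F : Type*) [NormedAddCommGroup F] [NormedSpace ℝ F] : Submodule ℝ (E3 → F) where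
  carrier := {q | Continuous q ∧ HasCompactSupport q}
  zero_mem' := ⟨continuous_const, HasCompactSupport.zero⟩
  add_mem' := fun h1 h2 => ⟨h1.1.add h2.1, h1.2.add h2.2⟩
  smul_mem' := fun c _ h => ⟨h.1.const_smul c, h.2.smul_left (f := fun _ => c)⟩

/-- smooth functions with compact support. -/
def sSub (F : Type*) [NormedAddCommGroup F] [NormedSpace ℝ F] : Submodule ℝ (E3 → F) where
  carrier := {q | ContDiff ℝ ∞ q ∧ HasCompactSupport q}
  zero_mem' := ⟨contDiff_const, HasCompactSupport.zero⟩
  add_mem' := fun h1 h2 => ⟨h1.1.add h2.1, h1.2.add h2.2⟩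
  smul_mem' := fun c _ h => ⟨contDiff_const.smul h.1, h.2.smul_left (f := fun _ => c)⟩

theorem testR_holds : StmTestR := by
  intro Ω T f ρ u G hΩ hb hT h ψ hψ hc hs
  have : IsFiniteMeasure (volume.restrict Ω) :=
    ⟨by rw [Measure.restrict_apply_univ]; exact hb.measure_lt_top⟩
  have := secondCountable_L2V Ω
  obtain ⟨M, hM⟩ := h.ubd
  obtain ⟨K, hK0, hK⟩ := int_norm_le (E := E3) (μ := volume.restrict Ω)
  have hum : AEStronglyMeasurable u (volume.restrict (Ioc 0 T)) := aesm_of_weak hT.le h.ucont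
  obtain ⟨c, hc0, b1, b2, b3, b4⟩ := st_all hψ hc
  have hM0 : 0 ≤ M := (norm_nonneg _).trans (hM 0 ⟨le_rfl, hT.le⟩)
  let m : ℝ → (E3 → ℝ) → ℝ := fun t q => ∫ x in Ω, ρ t x * q x
  let N : ℝ → (E3 → ℝ) → ℝ := fun t q => ∫ x in Ω, ρ t x * fderiv ℝ q x (u t x)
  have hqi : ∀ q : E3 → ℝ, Continuous q ∧ HasCompactSupport q → Integrable q (volume.restrict Ω) :=
    fun q hq => (hq.1.integrable_of_hasCompactSupport hq.2).restrict
  -- integrability of the derivative term
  have hdi : ∀ q : E3 → ℝ, ContDiff ℝ ∞ q ∧ HasCompactSupport q → ∀ v : L2V Ω,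
      Integrable (fun x => fderiv ℝ q x (v x)) (volume.restrict Ω) := by
    intro q hq v
    have hcq : Continuous (fderiv ℝ q) := hq.1.continuous_fderiv (by simp)
    obtain ⟨C, hC⟩ := (hq.2.fderiv (𝕜 := ℝ)).exists_bound_of_continuous hcq
    refine Integrable.mono' ((hK v).1.const_mul C) ?_ ?_
    · exact (continuous_fst.clm_apply continuous_snd : Continuous fun q : (E3 →L[ℝ] ℝ) × E3 =>
        q.1 q.2).comp_aestronglyMeasurable
        (hcq.aestronglyMeasurable.prodMk (Lp.aestronglyMeasurable v))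
    · exact Eventually.of_forall (fun x => (fderiv ℝ q x).le_of_opNorm_le (hC x) _)
  have main := time_test (V := E3 → ℝ) (sSub ℝ) (cSub ℝ) (fun q hq => ⟨hq.1.continuous, hq.2⟩)
    (fun q c => ∀ x, ‖q x‖ ≤ c) (fun q c => ∀ x, ‖q x‖ ≤ c ∧ ‖fderiv ℝ q x‖ ≤ c) (T := T)
    (C := 2 * (volume.restrict Ω).real univ) hT (by positivity) (m := m) (N := N)
    (n := fun _ => 2 * (K * M)) (integrable_const _) (fun _ => by positivity)
    (by
      intro t ht q hq q' hq'
      simp only [m]
      rw [← integral_sub (integrable_rho_mul (h.bd t ht) (hqi q hq))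
        (integrable_rho_mul (h.bd t ht) (hqi q' hq'))]
      simp [mul_sub])
    (by
      intro t ht c q hq
      simp only [m]
      rw [← integral_const_mul]
      congr 1
      funext x
      simp only [Pi.smul_apply, smul_eq_mul]
      ring)
    (by
      intro t ht q hq c hc hb
      simp only [m]
      refine (norm_integral_rho_mul_le (h.bd t ht) (hqi q hq)).trans ?_
      have h1 : ∫ x in Ω, ‖q x‖ ≤ ∫ x in Ω, c :=
        integral_mono (hqi q hq).norm (integrable_const _) hb
      rw [integral_const, smul_eq_mul] at h1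
      linarith)
    (by
      intro t ht q hq q' hq'
      have ht' : t ∈ Icc 0 T := Ioc_subset_Icc_self ht
      simp only [N]
      rw [← integral_sub (integrable_rho_mul (h.bd t ht') (hdi q hq _))
        (integrable_rho_mul (h.bd t ht') (hdi q' hq' _))]
      congr 1
      funext x
      rw [fderiv_sub ((hq.1.differentiable (by simp)) x) ((hq'.1.differentiable (by simp)) x)]
      rw [sub_apply, mul_sub])
    (by
      intro t ht q hq c hc hb
      have ht' : t ∈ Icc 0 T := Ioc_subset_Icc_self ht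
      simp only [N]
      refine (norm_integral_rho_mul_le (h.bd t ht') (hdi q hq _)).trans ?_
      have h1 : ∫ x in Ω, ‖fderiv ℝ q x (u t x)‖ ≤ ∫ x in Ω, c * ‖u t x‖ :=
        integral_mono (hdi q hq _).norm ((hK _).1.const_mul c)
          (fun x => (fderiv ℝ q x).le_of_opNorm_le (hb x).2 _)
      rw [integral_const_mul] at h1
      have h2 := (hK (u t)).2
      have h3 := hM t ht'
      calc 2 * ∫ x in Ω, ‖fderiv ℝ q x (u t x)‖ ≤ 2 * (c * ∫ x in Ω, ‖u t x‖) := by gcongr
        _ ≤ 2 * (c * (K * M)) := by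
            gcongr
            exact h2.trans (by gcongr)
        _ = 2 * (K * M) * c := by ring)
    (by
      intro q hq
      have hcq : Continuous (fderiv ℝ q) := hq.1.continuous_fderiv (by simp)
      obtain ⟨C, hC⟩ := (hq.2.fderiv (𝕜 := ℝ)).exists_bound_of_continuous hcq
      have hC0 : 0 ≤ C := (norm_nonneg _).trans (hC 0)
      exact lin_aesm (B := fun _ x => fderiv ℝ q x) hT.le h.rcont h.bd hC0 (fun _ => hcq)
        (fun _ x => hC x) (fun r s x => by simp; positivity) hum)
    (by
      intro q hq s t h1 h2 h3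
      exact h.transport q hq.1 hq.2 s t h1 h2 h3)
    (ψ := ψ) (ψ' := dt ψ) (fun t => ⟨st_slice hψ t, st_slice_compact hc t⟩)
    (fun t => ⟨(st_slice (st_dt_smooth hψ) t).continuous, st_slice_compact (st_dt_compact hψ hc) t⟩)
    (c := c) hc0 b1 b2 b3 b4
    (by
      refine lin_aesm (B := fun t x => fderiv ℝ (ψ t) x) hT.le h.rcont h.bd hc0 (fun r => ?_)
        (fun r x => (b1 r x).2) (fun r s x => ?_) hum
      · exact (st_slice hψ r).continuous_fderiv (by simp)
      · have := (b2 s r x).2
        rwa [fderiv_sub (((st_slice hψ r).differentiable (by simp)) x)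
          (((st_slice hψ s).differentiable (by simp)) x)] at this)
  obtain ⟨i1, i2, main⟩ := main
  have hψT : ψ T = 0 := st_zero_of_not_mem hs le_rfl
  have hmT : m T (ψ T) = 0 := by simp [m, hψT]
  rw [hmT, zero_sub, intervalIntegral.integral_of_le hT.le, integral_Ioc_eq_integral_Ioo] at main
  rw [show (- ∫ x in Ω, ρ 0 x * ψ 0 x) = - m 0 (ψ 0) from rfl, main]
  refine setIntegral_congr_fun measurableSet_Ioo (fun t ht => ?_)
  have ht' : t ∈ Icc 0 T := Ioo_subset_Icc_self ht
  have hq1 : Continuous (dt ψ t) ∧ HasCompactSupport (dt ψ t) :=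
    ⟨(st_slice (st_dt_smooth hψ) t).continuous, st_slice_compact (st_dt_compact hψ hc) t⟩
  have hq2 : ContDiff ℝ ∞ (ψ t) ∧ HasCompactSupport (ψ t) := ⟨st_slice hψ t, st_slice_compact hc t⟩
  simp only [m, N]
  rw [← integral_add (integrable_rho_mul (h.bd t ht') (hqi _ hq1))
    (integrable_rho_mul (h.bd t ht') (hdi _ hq2 _))]
  congr 1
  funext x
  ring

end N979MH
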