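import Mathlib
import Pool.Agent.N979.MH.Stm
import Pool.Agent.N979.MH.TestR
import Pool.Agent.N528.MH.Cross

/-!
Project MH: the momentum equation with space-time test fields (module TESTM).
-/

open MeasureTheory Set Filter Topology
open scoped InnerProductSpace ENNReal ContDiff NNReal

namespace N979MH

open H772R2.NS

set_option linter.unusedSectionVars false

/-- the test fields form a submodule. -/
def tSub (Ω : Set E3) : Submodule ℝ (E3 → E3) where
  carrier := {q | IsTest Ω q}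
  zero_mem' := IsTest.zero
  add_mem' := fun h1 h2 => h1.add h2
  smul_mem' := fun c _ h => h.smul c

theorem inner_fderiv_eq (φ : E3 → E3) (x u : E3) :
    ⟪u, fderiv ℝ φ x u⟫_ℝ = ∑ i, ∑ j, u i * u j * jac φ x (i, j) := by
  have hv : u = ∑ j, u j • ev j := by
    ext i
    simp [Finset.sum_apply, Pi.single_apply]
  have hcomp : ∀ i, fderiv ℝ φ x u i = ∑ j, jac φ x (i, j) * u j := by
    intro i
    conv_lhs => rw [hv]
    rw [map_sum]
    simp only [map_smul, PiLp.smul_apply, smul_eq_mul, WithLp.ofLp_sum, Finset.sum_apply, jac_apply]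
    refine Finset.sum_congr rfl (fun j _ => ?_)
    simp [mul_comm]
  rw [inner_E3]
  refine Finset.sum_congr rfl (fun i _ => ?_)
  rw [hcomp, Finset.mul_sum]
  exact Finset.sum_congr rfl (fun j _ => by ring)

section ints

variable {Ω : Set E3} [IsFiniteMeasure (volume.restrict Ω)]

theorem int_inner {E : Type*} [NormedAddCommGroup E] [InnerProductSpace ℝ E] {q : E3 → E}
    (hq : Continuous q) {C : ℝ} (hC : ∀ x, ‖q x‖ ≤ C) (v : Lp E 2 (volume.restrict Ω)) :
    Integrable (fun x => ⟪v x, q x⟫_ℝ) (volume.restrict Ω) ∧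
    ∫ x in Ω, ‖⟪v x, q x⟫_ℝ‖ ≤ C * ∫ x in Ω, ‖v x‖ := by
  obtain ⟨K, hK0, hK⟩ := int_norm_le (E := E) (μ := volume.restrict Ω)
  have h1 : ∀ x, ‖⟪v x, q x⟫_ℝ‖ ≤ C * ‖v x‖ := by
    intro x
    calc _ ≤ ‖v x‖ * ‖q x‖ := norm_inner_le_norm _ _
      _ ≤ ‖v x‖ * C := by
          gcongr
          exact hC x
      _ = _ := mul_comm _ _
  have h2 : Integrable (fun x => ⟪v x, q x⟫_ℝ) (volume.restrict Ω) := by
    refine Integrable.mono' ((hK v).1.const_mul C)
      ((Lp.aestronglyMeasurable v).inner hq.aestronglyMeasurable) ?_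
    exact Eventually.of_forall h1
  refine ⟨h2, ?_⟩
  rw [← integral_const_mul]
  exact integral_mono h2.norm ((hK v).1.const_mul C) h1

theorem int_quad {A : E3 → (E3 →L[ℝ] E3)} (hA : Continuous A) {C : ℝ} (hC : ∀ x, ‖A x‖ ≤ C)
    (v : L2V Ω) :
    Integrable (fun x => ⟪v x, A x (v x)⟫_ℝ) (volume.restrict Ω) ∧
    ∫ x in Ω, ‖⟪v x, A x (v x)⟫_ℝ‖ ≤ C * (‖v‖ * ‖v‖) := by
  have hC0 : 0 ≤ C := (norm_nonneg _).trans (hC 0)
  have h1 : ∀ x, ‖⟪v x, A x (v x)⟫_ℝ‖ ≤ C * (‖v x‖ * ‖v x‖) := by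
    intro x
    calc _ ≤ ‖v x‖ * ‖A x (v x)‖ := norm_inner_le_norm _ _
      _ ≤ ‖v x‖ * (C * ‖v x‖) := by
          gcongr
          exact (A x).le_of_opNorm_le (hC x) _
      _ = _ := by ring
  have h2 : Integrable (fun x => ⟪v x, A x (v x)⟫_ℝ) (volume.restrict Ω) := by
    refine Integrable.mono' ((cs_integrable v v).const_mul C)
      ((Lp.aestronglyMeasurable v).inner ((continuous_fst.clm_apply continuous_snd :
        Continuous fun q : (E3 →L[ℝ] E3) × E3 => q.1 q.2).comp_aestronglyMeasurable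
        (hA.aestronglyMeasurable.prodMk (Lp.aestronglyMeasurable v)))) ?_
    exact Eventually.of_forall h1
  refine ⟨h2, ?_⟩
  calc _ ≤ ∫ x in Ω, C * (‖v x‖ * ‖v x‖) :=
        integral_mono h2.norm ((cs_integrable v v).const_mul C) h1
    _ = C * ∫ x in Ω, ‖v x‖ * ‖v x‖ := integral_const_mul _ _
    _ ≤ _ := by
        gcongr
        exact cs_int v v

end ints

theorem testM_holds : StmTestM := by
  intro Ω T f ρ u G hΩ hb hT h hu0 φ hφ
  have : IsFiniteMeasure (volume.restrict Ω) :=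
    ⟨by rw [Measure.restrict_apply_univ]; exact hb.measure_lt_top⟩
  have := secondCountable_L2V Ω
  obtain ⟨M, hM⟩ := h.ubd
  obtain ⟨K, hK0, hK⟩ := int_norm_le (E := E3) (μ := volume.restrict Ω)
  obtain ⟨K', hK0', hK'⟩ := int_norm_le (E := M3) (μ := volume.restrict Ω)
  have hum : AEStronglyMeasurable u (volume.restrict (Ioc 0 T)) := aesm_of_weak hT.le h.ucont
  have hψ := hφ.smooth
  have hc := hφ.compact
  have hs := hφ.supp
  obtain ⟨c, hc0, b1, b2, b3, b4⟩ := st_all hψ hc
  have hM0 : 0 ≤ M := (norm_nonneg _).trans (hM 0 ⟨le_rfl, hT.le⟩)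
  let m : ℝ → (E3 → E3) → ℝ := fun t q => ∫ x in Ω, ρ t x * ⟪u t x, q x⟫_ℝ
  let N : ℝ → (E3 → E3) → ℝ := fun t q => (∫ x in Ω, ρ t x * ⟪u t x, fderiv ℝ q x (u t x)⟫_ℝ)
    - (∫ x in Ω, ⟪G t x, jac q x⟫_ℝ) + ∫ x in Ω, ρ t x * ⟪f t x, q x⟫_ℝ
  -- bounds of test fields
  have hqb : ∀ q : E3 → E3, Continuous q ∧ HasCompactSupport q → ∃ C, ∀ x, ‖q x‖ ≤ C :=
    fun q hq => hq.2.exists_bound_of_continuous hq.1
  have hin : ∀ q : E3 → E3, Continuous q ∧ HasCompactSupport q → ∀ v : L2V Ω,
      Integrable (fun x => ⟪v x, q x⟫_ℝ) (volume.restrict Ω) := by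
    intro q hq v
    obtain ⟨C, hC⟩ := hqb q hq
    exact (int_inner hq.1 hC v).1
  have hin' : ∀ q : E3 → E3, IsTest Ω q → ∀ v : L2V Ω,
      Integrable (fun x => ⟪v x, q x⟫_ℝ) (volume.restrict Ω) := fun q hq v =>
    hin q ⟨hq.smooth.continuous, hq.compact⟩ v
  have hcd : ∀ q : E3 → E3, IsTest Ω q → Continuous (fderiv ℝ q) := fun q hq =>
    hq.smooth.continuous_fderiv (by simp)
  have hcb : ∀ q : E3 → E3, IsTest Ω q → ∃ C, ∀ x, ‖fderiv ℝ q x‖ ≤ C := fun q hq =>
    (hq.compact.fderiv (𝕜 := ℝ)).exists_bound_of_continuous (hcd q hq)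
  have hid : ∀ q : E3 → E3, IsTest Ω q → ∀ v : L2V Ω,
      Integrable (fun x => ⟪v x, fderiv ℝ q x (v x)⟫_ℝ) (volume.restrict Ω) := by
    intro q hq v
    obtain ⟨C, hC⟩ := hcb q hq
    exact (int_quad (hcd q hq) hC v).1
  have hij : ∀ q : E3 → E3, IsTest Ω q → ∀ z : L2M Ω,
      Integrable (fun x => ⟪z x, jac q x⟫_ℝ) (volume.restrict Ω) := by
    intro q hq z
    obtain ⟨C, hC⟩ := hcb q hq
    exact (int_inner (continuous_jac hq.smooth) (C := 3 * C)
      (fun x => (norm_jac_le x).trans (by linarith [hC x])) z).1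
  have hjsub : ∀ (q q' : E3 → E3), IsTest Ω q → IsTest Ω q' → ∀ x,
      jac (q - q') x = jac q x - jac q' x := by
    intro q q' hq hq' x
    ext p
    rw [PiLp.sub_apply, jac_apply, jac_apply, jac_apply,
      fderiv_sub ((hq.smooth.differentiable (by simp)) x)
        ((hq'.smooth.differentiable (by simp)) x)]
    rfl
  have hG1 : IntegrableOn (fun t => ‖G t‖) (Ioc 0 T) := (h.gradL2.integrable (by norm_num)).norm
  have hf1 : IntegrableOn (fun t => ‖f t‖) (Ioc 0 T) := (h.force.integrable (by norm_num)).norm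
  have testφ : ∀ t, IsTest Ω (φ t) := fun t =>
    ⟨st_slice hψ t, st_slice_compact hc t, st_slice_tsupport hs t, hφ.divfree t⟩
  -- measurability
  have Nmeas : ∀ q : ℝ → E3 → E3, (∀ t, IsTest Ω (q t)) → ∀ C : ℝ, 0 ≤ C →
      (∀ t x, ‖q t x‖ ≤ C ∧ ‖fderiv ℝ (q t) x‖ ≤ C) →
      (∀ s t x, ‖(q t - q s) x‖ ≤ C * |t - s| ∧ ‖fderiv ℝ (q t - q s) x‖ ≤ C * |t - s|) →
      AEStronglyMeasurable (fun t => N t (q t)) (volume.restrict (Ioc 0 T)) := by
    intro q hq C hC0 hb1 hb2
    have hfd : ∀ s t x, fderiv ℝ (q t - q s) x = fderiv ℝ (q t) x - fderiv ℝ (q s) x :=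
      fun s t x => fderiv_sub (((hq t).smooth.differentiable (by simp)) x)
        (((hq s).smooth.differentiable (by simp)) x)
    have m1 : AEStronglyMeasurable (fun t => ∫ x in Ω, ρ t x * ⟪u t x, fderiv ℝ (q t) x (u t x)⟫_ℝ)
        (volume.restrict (Ioc 0 T)) := by
      refine quad_aesm (A := fun t x => fderiv ℝ (q t) x) hT.le h.rcont h.bd hC0
        (fun r => hcd _ (hq r)) (fun r x => (hb1 r x).2) (fun r s x => ?_) hum
      rw [← hfd]
      exact (hb2 s r x).2
    have m2 : AEStronglyMeasurable (fun t => ∫ x in Ω, ⟪G t x, jac (q t) x⟫_ℝ)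
        (volume.restrict (Ioc 0 T)) := by
      have := lin_aesm_one (Ω := Ω) (E := M3) (B := fun t x => innerSL ℝ (jac (q t) x)) (C := 3 * C)
        hT.le (by positivity) (fun r => (innerSL ℝ).continuous.comp (continuous_jac (hq r).smooth))
        (fun r x => by
          rw [innerSL_apply_norm]
          exact (norm_jac_le x).trans (by linarith [(hb1 r x).2]))
        (fun r s x => by
          rw [← map_sub, innerSL_apply_norm, ← hjsub _ _ (hq r) (hq s)]
          refine (norm_jac_le x).trans ?_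
          have := (hb2 s r x).2
          linarith) (w := G) h.gradL2.1
      refine this.congr (Eventually.of_forall (fun t => ?_))
      refine integral_congr_ae (Eventually.of_forall (fun x => ?_))
      show innerSL ℝ (jac (q t) x) (G t x) = ⟪G t x, jac (q t) x⟫_ℝ
      rw [innerSL_apply_apply]
      exact real_inner_comm _ _
    have m3 : AEStronglyMeasurable (fun t => ∫ x in Ω, ρ t x * ⟪f t x, q t x⟫_ℝ)
        (volume.restrict (Ioc 0 T)) := by
      have := lin_aesm (Ω := Ω) (E := E3) (B := fun t x => innerSL ℝ (q t x)) (C := C)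
        hT.le h.rcont h.bd hC0
        (fun r => (innerSL ℝ).continuous.comp (hq r).smooth.continuous)
        (fun r x => by
          rw [innerSL_apply_norm]
          exact (hb1 r x).1)
        (fun r s x => by
          rw [← map_sub, innerSL_apply_norm]
          exact (hb2 s r x).1) (w := f) h.force.1
      refine this.congr (Eventually.of_forall (fun t => ?_))
      refine integral_congr_ae (Eventually.of_forall (fun x => ?_))
      show ρ t x * innerSL ℝ (q t x) (f t x) = ρ t x * ⟪f t x, q t x⟫_ℝ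
      rw [innerSL_apply_apply, real_inner_comm]
    exact (m1.sub m2).add m3
  have main := time_test (V := E3 → E3) (tSub Ω) (cSub E3)
    (fun q hq => ⟨hq.smooth.continuous, hq.compact⟩)
    (fun q c => ∀ x, ‖q x‖ ≤ c) (fun q c => ∀ x, ‖q x‖ ≤ c ∧ ‖fderiv ℝ q x‖ ≤ c) (T := T)
    (C := 2 * (K * M)) hT (by positivity) (m := m) (N := N)
    (n := fun t => 2 * (M * M) + 3 * K' * ‖G t‖ + 2 * K * ‖f t‖)
    (((integrable_const _).add (hG1.const_mul _)).add (hf1.const_mul _)) (fun _ => by positivity)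
    (by
      intro t ht q hq q' hq'
      simp only [m]
      rw [← integral_sub (integrable_rho_mul (h.bd t ht) (hin q hq _))
        (integrable_rho_mul (h.bd t ht) (hin q' hq' _))]
      simp [mul_sub, inner_sub_right])
    (by
      intro t ht c q hq
      simp only [m]
      rw [← integral_const_mul]
      congr 1
      funext x
      simp only [Pi.smul_apply, inner_smul_right]
      ring)
    (by
      intro t ht q hq c hc hb
      simp only [m]
      refine (norm_integral_rho_mul_le (h.bd t ht) (hin q hq _)).trans ?_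
      have h1 := (int_inner hq.1 hb (u t)).2
      have h2 := (hK (u t)).2
      have h3 := hM t ht
      calc 2 * ∫ x in Ω, ‖⟪u t x, q x⟫_ℝ‖ ≤ 2 * (c * (K * M)) := by
            gcongr
            exact h1.trans (by gcongr; exact h2.trans (by gcongr))
        _ = 2 * (K * M) * c := by ring)
    (by
      intro t ht q hq q' hq'
      have ht' : t ∈ Icc 0 T := Ioc_subset_Icc_self ht
      have hfd : ∀ x, fderiv ℝ (q - q') x = fderiv ℝ q x - fderiv ℝ q' x :=
        fun x => fderiv_sub ((hq.smooth.differentiable (by simp)) x)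
          ((hq'.smooth.differentiable (by simp)) x)
      have e1 : ∫ x in Ω, ρ t x * ⟪u t x, fderiv ℝ (q - q') x (u t x)⟫_ℝ
          = (∫ x in Ω, ρ t x * ⟪u t x, fderiv ℝ q x (u t x)⟫_ℝ)
            - ∫ x in Ω, ρ t x * ⟪u t x, fderiv ℝ q' x (u t x)⟫_ℝ := by
        rw [← integral_sub (integrable_rho_mul (h.bd t ht') (hid q hq _))
          (integrable_rho_mul (h.bd t ht') (hid q' hq' _))]
        congr 1
        funext x
        rw [hfd, sub_apply, inner_sub_right, mul_sub]
      have e2 : ∫ x in Ω, ⟪G t x, jac (q - q') x⟫_ℝ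
          = (∫ x in Ω, ⟪G t x, jac q x⟫_ℝ) - ∫ x in Ω, ⟪G t x, jac q' x⟫_ℝ := by
        rw [← integral_sub (hij q hq _) (hij q' hq' _)]
        congr 1
        funext x
        rw [hjsub q q' hq hq', inner_sub_right]
      have e3 : ∫ x in Ω, ρ t x * ⟪f t x, (q - q') x⟫_ℝ
          = (∫ x in Ω, ρ t x * ⟪f t x, q x⟫_ℝ) - ∫ x in Ω, ρ t x * ⟪f t x, q' x⟫_ℝ := by
        rw [← integral_sub (integrable_rho_mul (h.bd t ht') (hin' q hq _))
          (integrable_rho_mul (h.bd t ht') (hin' q' hq' _))]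
        congr 1
        funext x
        rw [Pi.sub_apply, inner_sub_right, mul_sub]
      simp only [N]
      rw [e1, e2, e3]
      ring)
    (by
      intro t ht q hq c hc hb
      have ht' : t ∈ Icc 0 T := Ioc_subset_Icc_self ht
      simp only [N]
      have a1 : |∫ x in Ω, ρ t x * ⟪u t x, fderiv ℝ q x (u t x)⟫_ℝ| ≤ 2 * (c * (M * M)) := by
        refine (norm_integral_rho_mul_le (h.bd t ht') (hid q hq _)).trans ?_
        have h1 := (int_quad (hcd q hq) (fun x => (hb x).2) (u t)).2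
        have h3 := hM t ht'
        gcongr
        exact h1.trans (by gcongr)
      have a2 : |∫ x in Ω, ⟪G t x, jac q x⟫_ℝ| ≤ 3 * c * (K' * ‖G t‖) := by
        have h1 := (int_inner (continuous_jac hq.smooth) (C := 3 * c)
          (fun x => (norm_jac_le x).trans (by linarith [(hb x).2])) (G t)).2
        refine (norm_integral_le_integral_norm _).trans (h1.trans ?_)
        gcongr
        exact (hK' (G t)).2
      have a3 : |∫ x in Ω, ρ t x * ⟪f t x, q x⟫_ℝ| ≤ 2 * (c * (K * ‖f t‖)) := by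
        refine (norm_integral_rho_mul_le (h.bd t ht') (hin' q hq _)).trans ?_
        have h1 := (int_inner hq.smooth.continuous (fun x => (hb x).1) (f t)).2
        gcongr
        refine h1.trans ?_
        gcongr
        exact (hK (f t)).2
      calc _ ≤ |∫ x in Ω, ρ t x * ⟪u t x, fderiv ℝ q x (u t x)⟫_ℝ|
            + |∫ x in Ω, ⟪G t x, jac q x⟫_ℝ| + |∫ x in Ω, ρ t x * ⟪f t x, q x⟫_ℝ| := by
            refine (abs_add_le _ _).trans ?_
            gcongr
            exact abs_sub _ _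
        _ ≤ 2 * (c * (M * M)) + 3 * c * (K' * ‖G t‖) + 2 * (c * (K * ‖f t‖)) := by linarith
        _ = (2 * (M * M) + 3 * K' * ‖G t‖ + 2 * K * ‖f t‖) * c := by ring)
    (by
      intro q hq
      obtain ⟨C1, hC1⟩ := hqb q ⟨hq.smooth.continuous, hq.compact⟩
      obtain ⟨C2, hC2⟩ := hcb q hq
      have hC10 : 0 ≤ C1 := (norm_nonneg _).trans (hC1 0)
      have hC20 : 0 ≤ C2 := (norm_nonneg _).trans (hC2 0)
      refine Nmeas (fun _ => q) (fun _ => hq) (C1 + C2) (by positivity)
        (fun t x => ⟨by linarith [hC1 x], by linarith [hC2 x]⟩) (fun s t x => ?_)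
      have : q - q = 0 := sub_self q
      rw [this]
      have h0 : fderiv ℝ (0 : E3 → E3) x = 0 := by
        simp
      rw [h0]
      simp only [Pi.zero_apply, norm_zero]
      exact ⟨by positivity, by positivity⟩)
    (by
      intro q hq s t h1 h2 h3
      exact h.momentum q hq s t h1 h2 h3)
    (ψ := φ) (ψ' := dt φ) testφ
    (fun t => ⟨(st_slice (st_dt_smooth hψ) t).continuous, st_slice_compact (st_dt_compact hψ hc) t⟩)
    (c := c) hc0 b1 b2 b3 b4 (Nmeas φ testφ c hc0 b1 b2)
  obtain ⟨i1, i2, main⟩ := main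
  have hφT : φ T = 0 := st_zero_of_not_mem hs le_rfl
  have hmT : m T (φ T) = 0 := by simp [m, hφT]
  have hm0 : m 0 (φ 0) = 0 := by
    simp only [m]
    rw [hu0]
    have : ∀ᵐ x ∂(volume.restrict Ω), ρ 0 x * ⟪(0 : L2V Ω) x, φ 0 x⟫_ℝ = 0 := by
      filter_upwards [Lp.coeFn_zero E3 2 (volume.restrict Ω)] with x hx
      rw [hx]
      simp
    rw [integral_congr_ae this]
    simp
  rw [hmT, hm0, sub_zero, intervalIntegral.integral_of_le hT.le,
    integral_Ioc_eq_integral_Ioo] at main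
  refine Eq.trans ?_ main.symm
  apply integral_congr_ae
  have hg : ∀ᵐ t ∂(volume.restrict (Ioo 0 T)), (u t, G t) ∈ H1graph Ω := by
    have : (volume.restrict (Ioo 0 T) : Measure ℝ) = volume.restrict (Ioc 0 T) :=
      Measure.restrict_congr_set Ioo_ae_eq_Ioc
    rw [this]
    exact h.grad
  rw [EventuallyEq]
  filter_upwards [hg, ae_restrict_mem measurableSet_Ioo] with t hgt ht
  have ht' : t ∈ Icc 0 T := Ioo_subset_Icc_self ht
  have hq1 : Continuous (dt φ t) ∧ HasCompactSupport (dt φ t) :=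
    ⟨(st_slice (st_dt_smooth hψ) t).continuous, st_slice_compact (st_dt_compact hψ hc) t⟩
  have hq2 := testφ t
  have hcz := cross_zero hq2 (mem_graphW.mpr hgt)
  -- integrability of the transposed term
  have hJi : Integrable (fun x => ∑ i, ∑ j, G t x (j, i) * jac (φ t) x (i, j))
      (volume.restrict Ω) := by
    let J : E3 → M3 := fun x => WithLp.toLp 2 fun q => jac (φ t) x (q.2, q.1)
    have hJc : Continuous J := by
      refine (PiLp.continuous_toLp 2 _).comp (continuous_pi (fun q => ?_))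
      exact (EuclideanSpace.proj (𝕜 := ℝ) (q.2, q.1) : M3 →L[ℝ] ℝ).continuous.comp
        (continuous_jac hq2.smooth)
    have hJs : HasCompactSupport J := by
      refine (hasCompactSupport_jac hq2.compact).mono (fun x hx => ?_)
      intro h0
      apply hx
      ext q
      simp [J, h0]
    obtain ⟨C, hC⟩ := hJs.exists_bound_of_continuous hJc
    have := (int_inner hJc hC (G t)).1
    refine this.congr (Eventually.of_forall (fun x => ?_))
    show ⟪G t x, J x⟫_ℝ = _
    rw [inner_M3, Finset.sum_comm]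
  simp only [m, N]
  have j1 := integrable_rho_mul (h.bd t ht') (hin _ hq1 (u t))
  have j2 := integrable_rho_mul (h.bd t ht') (hid _ hq2 (u t))
  have j3 := hij _ hq2 (G t)
  have j4 := integrable_rho_mul (h.bd t ht') (hin' _ hq2 (f t))
  have e : ∀ x, (ρ t x * ⟪u t x, dt φ t x⟫_ℝ
        + ρ t x * ∑ i, ∑ j, u t x i * u t x j * jac (φ t) x (i, j)
        - ∑ i, ∑ j, (G t x (i, j) + G t x (j, i)) * jac (φ t) x (i, j)
        + ρ t x * ⟪f t x, φ t x⟫_ℝ)
      = (ρ t x * ⟪u t x, dt φ t x⟫_ℝ + (ρ t x * ⟪u t x, fderiv ℝ (φ t) x (u t x)⟫_ℝ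
        - ⟪G t x, jac (φ t) x⟫_ℝ + ρ t x * ⟪f t x, φ t x⟫_ℝ))
        - ∑ i, ∑ j, G t x (j, i) * jac (φ t) x (i, j) := by
    intro x
    rw [inner_fderiv_eq, inner_M3]
    simp only [add_mul, Finset.sum_add_distrib]
    ring
  simp_rw [e]
  have s1 := integral_sub (j1.add ((j2.sub j3).add j4)) hJi
  have s2 := integral_add j1 ((j2.sub j3).add j4)
  have s3 := integral_add (j2.sub j3) j4
  have s4 := integral_sub j2 j3
  simp only [Pi.add_apply, Pi.sub_apply] at s1 s2 s3 s4
  rw [s1, s2, s3, s4, hcz, sub_zero]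

end N979MH
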