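import Pool.Agent.N979.MH.Stm

/-!
Project MH, module TRAJ: the density seen along a perturbed trajectory.
-/

open MeasureTheory Set Filter Topology
open scoped InnerProductSpace ENNReal ContDiff NNReal

set_option autoImplicit false

namespace N979MH

open H772R2.NS

namespace Traj

/-! ### the cutoff -/

theorem exists_sT_bound : ∃ C : ℝ, 0 ≤ C ∧ ∀ x, |deriv Real.smoothTransition x| ≤ C := by
  have hc : Continuous (deriv Real.smoothTransition) :=
    (Real.smoothTransition.contDiff (n := 1)).continuous_deriv le_rfl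
  obtain ⟨C, hC⟩ := (isCompact_Icc (a := (0 : ℝ)) (b := 1)).exists_bound_of_continuousOn
    hc.continuousOn
  refine ⟨max C 0, le_max_right _ _, fun x => ?_⟩
  by_cases h1 : x < 0
  · have h : deriv Real.smoothTransition x = 0 := by
      have : Real.smoothTransition =ᶠ[𝓝 x] fun _ => 0 := by
        filter_upwards [Iio_mem_nhds h1] with z hz
        exact Real.smoothTransition.zero_of_nonpos (le_of_lt hz)
      rw [this.deriv_eq]; simp
    simp [h]
  by_cases h2 : 1 < x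
  · have h : deriv Real.smoothTransition x = 0 := by
      have : Real.smoothTransition =ᶠ[𝓝 x] fun _ => 1 := by
        filter_upwards [Ioi_mem_nhds h2] with z hz
        exact Real.smoothTransition.one_of_one_le (le_of_lt hz)
      rw [this.deriv_eq]; simp
    simp [h]
  push Not at h1 h2
  exact (hC x ⟨h1, h2⟩).trans (le_max_left _ _)

theorem hasDerivAt_zeta (d q : ℝ) :
    HasDerivAt (zeta d)
      (deriv Real.smoothTransition ((4 * d ^ 2 - q) / (3 * d ^ 2)) * (-1 / (3 * d ^ 2))) q := by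
  have h1 : HasDerivAt (fun y : ℝ => (4 * d ^ 2 - y) / (3 * d ^ 2)) (-1 / (3 * d ^ 2)) q := by
    have := ((hasDerivAt_id q).const_sub (4 * d ^ 2)).div_const (3 * d ^ 2)
    simpa using this
  have h2 : HasDerivAt Real.smoothTransition
      (deriv Real.smoothTransition ((4 * d ^ 2 - q) / (3 * d ^ 2)))
      ((4 * d ^ 2 - q) / (3 * d ^ 2)) :=
    ((Real.smoothTransition.contDiff (n := 1)).differentiable one_ne_zero _).hasDerivAt
  exact h2.comp q h1

theorem zeta_eq_one {d q : ℝ} (hd : 0 < d) (h : q ≤ d ^ 2) : zeta d q = 1 := by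
  apply Real.smoothTransition.one_of_one_le
  rw [le_div_iff₀ (by positivity)]
  linarith

theorem dzeta_bound {C d q : ℝ} (hC : ∀ x, |deriv Real.smoothTransition x| ≤ C) (hd : 0 < d) : 2 * q * |deriv (zeta d) q| ≤ 8 / 3 * C ∧ (q < d ^ 2 → deriv (zeta d) q = 0) := by
  have hC0 : 0 ≤ C := (abs_nonneg _).trans (hC 0)
  have hd2 : 0 < 3 * d ^ 2 := by positivity
  refine ⟨?_, fun h => ?_⟩
  · by_cases h4 : 4 * d ^ 2 < q
    · have h0 : deriv (zeta d) q = 0 := by
        have : zeta d =ᶠ[𝓝 q] fun _ => 0 := by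
          filter_upwards [Ioi_mem_nhds h4] with z hz
          apply Real.smoothTransition.zero_of_nonpos
          have : (4 * d ^ 2 - z) ≤ 0 := by
            have := mem_Ioi.1 hz
            linarith
          exact div_nonpos_of_nonpos_of_nonneg this hd2.le
        rw [this.deriv_eq]; simp
      rw [h0]; simp; positivity
    · push Not at h4
      rw [(hasDerivAt_zeta d q).deriv, abs_mul, abs_div, abs_neg, abs_one, abs_of_pos hd2]
      have h1 := hC ((4 * d ^ 2 - q) / (3 * d ^ 2))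
      set D := |deriv Real.smoothTransition ((4 * d ^ 2 - q) / (3 * d ^ 2))|
      have hD : 0 ≤ D := abs_nonneg _
      have h2 : 2 * q * (D * (1 / (3 * d ^ 2))) = (2 * q) / (3 * d ^ 2) * D := by
        field_simp
      rw [h2]
      have h3 : (2 * q) / (3 * d ^ 2) ≤ 8 / 3 := by
        rw [div_le_iff₀ hd2]; nlinarith
      calc (2 * q) / (3 * d ^ 2) * D ≤ 8 / 3 * D := by gcongr
        _ ≤ 8 / 3 * C := by gcongr
  · have : zeta d =ᶠ[𝓝 q] fun _ => 1 := by
      filter_upwards [Iio_mem_nhds h] with z hz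
      exact zeta_eq_one hd (le_of_lt hz)
    rw [this.deriv_eq]; simp

/-! ### parameters -/

section par

variable (P : Par)

theorem r_pos (j : ℕ) : 0 < P.r j := by
  unfold Par.r; have := P.hr; positivity

theorem r_succ (j : ℕ) : P.r (j + 1) = P.r j / 2 := by
  unfold Par.r; rw [pow_succ]; field_simp

theorem r_anti {i j : ℕ} (h : i ≤ j) : P.r j ≤ P.r i := by
  induction j, h using Nat.le_induction with
  | base => exact le_rfl
  | succ n _ ih => rw [r_succ]; linarith [r_pos P n]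

theorem r_le (j : ℕ) : P.r j ≤ P.r0 := by
  have := r_anti P (Nat.zero_le j)
  simpa [Par.r] using this

theorem r_lt {i j : ℕ} (h : i < j) : P.r j ≤ P.r i / 2 := by
  rw [← r_succ]; exact r_anti P h

theorem k_pos (j : ℕ) : 0 < P.k j := by
  unfold Par.k; have := P.hk; positivity

theorem kR_pos (j : ℕ) : (0 : ℝ) < P.k j := by exact_mod_cast k_pos P j

theorem k_succ (j : ℕ) : (P.k (j + 1) : ℝ) = 8 * P.k j := by
  unfold Par.k; push_cast; rw [pow_succ]; ring

theorem phie_pos : 0 < phie := by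
  unfold phie; have := Real.pi_pos; positivity

theorem phie_lt : phie < 3.12 := by
  unfold phie; have := Real.pi_lt_d2; linarith

theorem A_pos (j : ℕ) : 0 < P.A j := by
  unfold Par.A
  have := phie_pos; have := r_pos P j; have := kR_pos P j
  positivity

theorem A_succ (j : ℕ) : P.A (j + 1) = P.A j / 64 := by
  unfold Par.A
  rw [r_succ, k_succ]
  have := (kR_pos P j).ne'
  field_simp
  ring

theorem dA_nonneg (j : ℕ) : 0 ≤ P.dA j := by
  unfold Par.dA; rw [A_succ]; linarith [A_pos P j]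

theorem dA_le (j : ℕ) : P.dA j ≤ P.A j := by
  unfold Par.dA; linarith [A_pos P (j + 1)]

theorem t_succ (j : ℕ) : P.t (j + 1) = P.t j * (3 / 4) := by
  unfold Par.t; rw [pow_succ]; ring

theorem t_pos (j : ℕ) : 0 < P.t j := by
  unfold Par.t; have := P.hT; positivity

theorem dl_pos (j : ℕ) : 0 < P.dl j := by
  unfold Par.dl; rw [t_succ]; linarith [t_pos P j]

theorem t_anti {i j : ℕ} (h : i ≤ j) : P.t j ≤ P.t i := by
  induction j, h using Nat.le_induction with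
  | base => exact le_rfl
  | succ n _ ih => rw [t_succ]; linarith [t_pos P n]

/-- the radial profile as a function of the square of the radius -/
noncomputable def etq (j : ℕ) (q : ℝ) : ℝ :=
  (P.r j ^ 3)⁻¹ * Psi (q / P.r j ^ 2) * zeta P.d q

noncomputable def detq (j : ℕ) (q : ℝ) : ℝ :=
  (P.r j ^ 3)⁻¹ * (-psi (q / P.r j ^ 2) / P.r j ^ 2 * zeta P.d q
    + Psi (q / P.r j ^ 2) * deriv (zeta P.d) q)

theorem et_eq (j : ℕ) (s : ℝ) : P.et j s = etq P j (s ^ 2) := rfl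

theorem hasDerivAt_etq (h : StmProf) (j : ℕ) (q : ℝ) :
    HasDerivAt (etq P j) (detq P j q) q := by
  have hP := h.2.2.2.1 (q / P.r j ^ 2)
  have h1 : HasDerivAt (fun y : ℝ => y / P.r j ^ 2) (1 / P.r j ^ 2) q :=
    (hasDerivAt_id q).div_const _
  have h2 : HasDerivAt (Psi ∘ fun y : ℝ => (y / P.r j ^ 2))
      (-psi (q / P.r j ^ 2) * (1 / P.r j ^ 2)) q := HasDerivAt.comp q hP h1
  have h3 : HasDerivAt (zeta P.d) (deriv (zeta P.d) q) q :=
    (hasDerivAt_zeta P.d q).differentiableAt.hasDerivAt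
  have h4 := (h2.const_mul ((P.r j ^ 3)⁻¹)).mul h3
  refine h4.congr_deriv ?_
  unfold detq
  simp only [Function.comp]
  ring

theorem detq_bound (h : StmProf) {C : ℝ} (hC : ∀ x, |deriv Real.smoothTransition x| ≤ C)
    (j : ℕ) {q : ℝ} (hq : 0 ≤ q) :
    2 * q * |detq P j q| ≤ (P.r j ^ 3)⁻¹ * (1 + C) := by
  obtain ⟨-, -, -, -, hPs, -, hPpos, -, hPle, hps0, hps1, hpsle, -⟩ := h
  have hC0 : 0 ≤ C := (abs_nonneg _).trans (hC 0)
  have hr := r_pos P j
  have hr3 : 0 < (P.r j ^ 3)⁻¹ := by positivity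
  rcases hq.eq_or_lt with rfl | hq
  · simp; positivity
  set v := q / P.r j ^ 2 with hv
  have hvp : 0 < v := by positivity
  unfold detq
  rw [← hv, abs_mul, abs_of_pos hr3]
  have e1 : 2 * q * ((P.r j ^ 3)⁻¹ * |-psi v / P.r j ^ 2 * zeta P.d q
      + Psi v * deriv (zeta P.d) q|) = (P.r j ^ 3)⁻¹ * (2 * q * |-psi v / P.r j ^ 2 * zeta P.d q
      + Psi v * deriv (zeta P.d) q|) := by ring
  rw [e1]
  refine mul_le_mul_of_nonneg_left ?_ hr3.le
  -- first term
  have t1 : 2 * q * |-psi v / P.r j ^ 2 * zeta P.d q| ≤ 1 := by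
    have z0 : 0 ≤ zeta P.d q := Real.smoothTransition.nonneg _
    have z1 : zeta P.d q ≤ 1 := Real.smoothTransition.le_one _
    have e2 : 2 * q * |-psi v / P.r j ^ 2 * zeta P.d q| = 2 * (v * psi v) * zeta P.d q := by
      rw [abs_mul, abs_div, abs_neg, abs_of_nonneg (hps0 v), abs_of_nonneg z0,
        abs_of_pos (by positivity : 0 < P.r j ^ 2), hv]
      ring
    rw [e2]
    have e3 : 2 * (v * psi v) ≤ 1 := by
      rcases le_or_gt v 1 with h1 | h1
      · rw [hps1 v h1]; simp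
      · have h2 := hpsle v hvp
        have h3 : v ^ (-(5 / 2) : ℝ) ≤ v ^ (-1 : ℝ) :=
          Real.rpow_le_rpow_of_exponent_le h1.le (by norm_num)
        rw [Real.rpow_neg_one] at h3
        have h4 : v * psi v ≤ v * (v⁻¹ / 2) := by
          apply mul_le_mul_of_nonneg_left _ hvp.le
          linarith
        have h5 : v * (v⁻¹ / 2) = 1 / 2 := by field_simp
        linarith
    have e4 : 0 ≤ 2 * (v * psi v) := by have := hps0 v; positivity
    nlinarith
  have t2 : 2 * q * |Psi v * deriv (zeta P.d) q| ≤ C := by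
    obtain ⟨b1, b2⟩ := dzeta_bound (q := q) hC P.hd
    rcases lt_or_ge q (P.d ^ 2) with h1 | h1
    · rw [b2 h1]; simpa using hC0
    · have h2 : 1 ≤ v := by
        rw [hv, le_div_iff₀ (by positivity)]
        have h3 : P.r j ≤ P.d := by
          have := r_le P j; have := P.hrd; have := P.hr; linarith
        nlinarith
      have h3 : Psi v ≤ 1 / 3 := by
        have h4 := hPle v hvp
        have h5 : v ^ (-(3 / 2) : ℝ) ≤ 1 :=
          Real.rpow_le_one_of_one_le_of_nonpos h2 (by norm_num)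
        linarith
      rw [abs_mul, abs_of_pos (hPpos v)]
      have h6 : 0 ≤ 2 * q * |deriv (zeta P.d) q| := by positivity
      have h7 := hPpos v
      nlinarith
  calc 2 * q * |-psi v / P.r j ^ 2 * zeta P.d q + Psi v * deriv (zeta P.d) q|
      ≤ 2 * q * (|-psi v / P.r j ^ 2 * zeta P.d q| + |Psi v * deriv (zeta P.d) q|) := by
        gcongr; exact abs_add_le _ _
    _ ≤ 1 + C := by linarith

theorem hasDerivAt_Phi (hb : StmBump) (j : ℕ) (s : ℝ) :
    HasDerivAt (P.Phi j) (P.F j s) s := by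
  have hB := hb.2.2.2.2.2.2.2.2.2.2.1 ((s - P.t (j + 1)) / P.dl j)
  have h1 : HasDerivAt (fun y : ℝ => (y - P.t (j + 1)) / P.dl j) (1 / P.dl j) s :=
    ((hasDerivAt_id s).sub_const _).div_const _
  have h2 := (hB.comp s h1).const_mul (P.dA j)
  refine h2.congr_deriv ?_
  unfold Par.F
  ring

theorem Phi_nonneg (hb : StmBump) (j : ℕ) (s : ℝ) : 0 ≤ P.Phi j s :=
  mul_nonneg (dA_nonneg P j) (hb.2.2.2.2.2.2.2.2.1 _)

theorem Phi_le (hb : StmBump) (j : ℕ) (s : ℝ) : P.Phi j s ≤ P.dA j := by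
  have := mul_le_mul_of_nonneg_left (hb.2.2.2.2.2.2.2.2.2.1 ((s - P.t (j + 1)) / P.dl j))
    (dA_nonneg P j)
  unfold Par.Phi; linarith

theorem Phi_zero (hb : StmBump) {j : ℕ} {s : ℝ} (hs : s ≤ P.t (j + 1)) : P.Phi j s = 0 := by
  unfold Par.Phi
  rw [hb.2.2.2.2.2.2.1 _ (div_nonpos_of_nonpos_of_nonneg (by linarith) (dl_pos P j).le), mul_zero]

theorem Phi_one (hb : StmBump) {j : ℕ} {s : ℝ} (hs : P.t j ≤ s) : P.Phi j s = P.dA j := by
  unfold Par.Phi
  rw [hb.2.2.2.2.2.2.2.1 _, mul_one]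
  rw [le_div_iff₀ (dl_pos P j)]
  unfold Par.dl
  linarith

theorem rpow_sq {x : ℝ} (hx : 0 < x) : (x ^ 2) ^ (-(3 / 2) : ℝ) = (x ^ 3)⁻¹ := by
  rw [← Real.rpow_natCast x 2, ← Real.rpow_mul hx.le, ← Real.rpow_natCast x 3,
    ← Real.rpow_neg hx.le]
  norm_num

theorem etq_far (h : StmProf) {j : ℕ} {s : ℝ} (hs : 0 < s) (h1 : 6 / 5 * P.r j ^ 2 ≤ s ^ 2)
    (h2 : s ^ 2 ≤ P.d ^ 2) : etq P j (s ^ 2) = 1 / (3 * s ^ 3) := by
  obtain ⟨-, -, -, -, hPs, -⟩ := h
  have hr := r_pos P j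
  unfold etq
  rw [zeta_eq_one P.hd h2, hPs _ (by rw [le_div_iff₀ (by positivity)]; exact h1), ← div_pow,
    rpow_sq (by positivity)]
  field_simp

theorem etq_le (h : StmProf) (j : ℕ) {s : ℝ} (hs : 0 < s) :
    etq P j (s ^ 2) ≤ 1 / (3 * s ^ 3) := by
  obtain ⟨-, -, -, -, -, -, hPpos, -, hPle, -⟩ := h
  have hr := r_pos P j
  unfold etq
  have z0 : 0 ≤ zeta P.d (s ^ 2) := Real.smoothTransition.nonneg _
  have z1 : zeta P.d (s ^ 2) ≤ 1 := Real.smoothTransition.le_one _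
  have h1 := hPle (s ^ 2 / P.r j ^ 2) (by positivity)
  rw [← div_pow, rpow_sq (by positivity)] at h1
  rw [← div_pow]
  have h3 := hPpos ((s / P.r j) ^ 2)
  calc (P.r j ^ 3)⁻¹ * Psi ((s / P.r j) ^ 2) * zeta P.d (s ^ 2)
      ≤ (P.r j ^ 3)⁻¹ * (((s / P.r j) ^ 3)⁻¹ / 3) * 1 := by gcongr
    _ = 1 / (3 * s ^ 3) := by field_simp

theorem etq_nonneg (h : StmProf) (j : ℕ) (q : ℝ) : 0 ≤ etq P j q := by
  obtain ⟨-, -, -, -, -, -, hPpos, -⟩ := h
  have hr := r_pos P j
  unfold etq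
  have z0 : 0 ≤ zeta P.d q := Real.smoothTransition.nonneg _
  have h3 := hPpos (q / P.r j ^ 2)
  positivity

/-- the angle of rotation -/
noncomputable def th (J : ℕ) (q τ : ℝ) : ℝ :=
  ∑ i ∈ Finset.range J, etq P i q * P.Phi i τ + P.A J * etq P J q

/-- its derivative in `q` -/
noncomputable def dth (J : ℕ) (q τ : ℝ) : ℝ :=
  ∑ i ∈ Finset.range J, detq P i q * P.Phi i τ + P.A J * detq P J q

theorem sum_inv_k_le (n : ℕ) : ∑ i ∈ Finset.range n, (1 : ℝ) / P.k i ≤ 8 / 7 / P.k0 := by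
  have hk : (0 : ℝ) < P.k0 := by exact_mod_cast P.hk
  have h : ∑ i ∈ Finset.range n, (1 : ℝ) / P.k i = 8 / 7 / P.k0 * (1 - (1 / 8) ^ n) := by
    induction n with
    | zero => simp
    | succ n ih =>
      rw [Finset.sum_range_succ, ih]
      unfold Par.k
      push_cast
      rw [pow_succ, div_pow, one_pow]
      field_simp
      ring
  rw [h]
  have h1 : (0 : ℝ) ≤ (1 / 8) ^ n := by positivity
  have h2 : 0 ≤ 8 / 7 / (P.k0 : ℝ) := by positivity
  nlinarith

theorem dth_bound (h : StmProf) (hb : StmBump) {C : ℝ}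
    (hC : ∀ x, |deriv Real.smoothTransition x| ≤ C) (hk : 12 * (1 + C) ≤ P.k0) (J : ℕ) {q : ℝ}
    (hq : 0 ≤ q) (τ : ℝ) : 2 * q * |dth P J q τ| ≤ 1 := by
  have hC0 : 0 ≤ C := (abs_nonneg _).trans (hC 0)
  have hk0 : (0 : ℝ) < P.k0 := by exact_mod_cast P.hk
  have key : ∀ i : ℕ, ∀ p : ℝ, 0 ≤ p → p ≤ P.A i →
      2 * q * |detq P i q| * p ≤ 3 * phie * (1 + C) * (1 / P.k i) := by
    intro i p hp0 hp
    have h1 := detq_bound P h hC i hq
    have h2 : (P.r i ^ 3)⁻¹ * (1 + C) * P.A i = 3 * phie * (1 + C) * (1 / P.k i) := by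
      unfold Par.A
      have := (r_pos P i).ne'
      field_simp
    rw [← h2]
    have := r_pos P i
    have := abs_nonneg (detq P i q)
    gcongr
  unfold dth
  calc 2 * q * |∑ i ∈ Finset.range J, detq P i q * P.Phi i τ + P.A J * detq P J q|
      ≤ 2 * q * (∑ i ∈ Finset.range J, |detq P i q * P.Phi i τ| + |P.A J * detq P J q|) := by
        gcongr
        exact (abs_add_le _ _).trans (add_le_add (Finset.abs_sum_le_sum_abs _ _) le_rfl)
    _ = ∑ i ∈ Finset.range J, 2 * q * |detq P i q| * P.Phi i τ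
          + 2 * q * |detq P J q| * P.A J := by
        rw [mul_add, Finset.mul_sum]
        congr 1
        · refine Finset.sum_congr rfl fun i _ => ?_
          rw [abs_mul, abs_of_nonneg (Phi_nonneg P hb i τ)]; ring
        · rw [abs_mul, abs_of_pos (A_pos P J)]; ring
    _ ≤ ∑ i ∈ Finset.range J, 3 * phie * (1 + C) * (1 / P.k i)
          + 3 * phie * (1 + C) * (1 / P.k J) := by
        refine add_le_add (Finset.sum_le_sum fun i _ => ?_) ?_
        · exact key i _ (Phi_nonneg P hb i τ) ((Phi_le P hb i τ).trans (dA_le P i))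
        · exact key J _ (A_pos P J).le le_rfl
    _ = 3 * phie * (1 + C) * ∑ i ∈ Finset.range (J + 1), (1 : ℝ) / P.k i := by
        rw [Finset.sum_range_succ, mul_add (3 * phie * (1 + C)), Finset.mul_sum]
    _ ≤ 3 * phie * (1 + C) * (8 / 7 / P.k0) := by
        have := phie_pos
        gcongr
        exact sum_inv_k_le P (J + 1)
    _ ≤ 1 := by
        have h1 : 3 * phie * (1 + C) * (8 / 7 / P.k0) = (3 * phie * (8 / 7) * (1 + C)) / P.k0 := by
          field_simp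
        rw [h1, div_le_one hk0]
        refine le_trans ?_ hk
        have := phie_lt
        have := phie_pos
        gcongr
        linarith

/-! ### the path -/

noncomputable def zcL : E3 →L[ℝ] ℂ :=
  LinearMap.toContinuousLinearMap
    { toFun := zc
      map_add' := by intro x y; apply Complex.ext <;> simp [zc]
      map_smul' := by intro c x; apply Complex.ext <;> simp [zc] }

theorem zcL_apply (x : E3) : zcL x = zc x := rfl

theorem zc_add (x y : E3) : zc (x + y) = zc x + zc y := zcL.map_add x y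

theorem zc_smul (c : ℝ) (x : E3) : zc (c • x) = (c : ℂ) * zc x := by
  rw [← zcL_apply, map_smul, zcL_apply]; simp

theorem normsq_eq (x : E3) : ‖x‖ ^ 2 = ‖zc x‖ ^ 2 + x 2 ^ 2 := by
  rw [EuclideanSpace.norm_sq_eq, Fin.sum_univ_three, ← Complex.normSq_eq_norm_sq]
  simp [zc, Complex.normSq]
  ring

theorem norm_zc_le (x : E3) : ‖zc x‖ ≤ ‖x‖ := by
  have := normsq_eq x
  exact (le_abs_self _).trans
    (abs_le_of_sq_le_sq (by nlinarith [sq_nonneg (x 2)]) (norm_nonneg _))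

theorem abs_two_le (x : E3) : |x 2| ≤ ‖x‖ := by
  have := normsq_eq x
  refine abs_le_of_sq_le_sq (by nlinarith [sq_nonneg ‖zc x‖]) (norm_nonneg _)

theorem zc_lam (x : E3) : zc (lam x) = Complex.I * zc x := by
  apply Complex.ext <;> simp [zc, lam]

theorem lam_two (x : E3) : lam x 2 = 0 := by simp [lam]

theorem inner_lam (x : E3) : ⟪x, lam x⟫_ℝ = 0 := by
  rw [EuclideanSpace.inner_eq_star_dotProduct]
  simp [lam, dotProduct, Fin.sum_univ_three]
  ring

theorem us_eq (σ : ℝ) (J : ℕ) (s : ℝ) (x : E3) :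
    P.us σ J s x = (σ * ∑ i ∈ Finset.range J, etq P i (‖x‖ ^ 2) * P.F i s) • lam x := by
  unfold Par.us Par.W
  rw [mul_smul, Finset.sum_smul]
  congr 1
  refine Finset.sum_congr rfl fun i _ => ?_
  rw [et_eq, smul_smul, mul_comm]

/-- the rotated horizontal component -/
noncomputable def ZZ (σ : ℝ) (J : ℕ) (τ : ℝ) (x : E3) : ℂ :=
  zc x * Complex.exp (((-(σ * th P J (‖x‖ ^ 2) τ) : ℝ) : ℂ) * Complex.I)

theorem norm_ZZ (σ : ℝ) (J : ℕ) (τ : ℝ) (x : E3) : ‖ZZ P σ J τ x‖ = ‖zc x‖ := by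
  unfold ZZ
  rw [norm_mul, Complex.norm_exp_ofReal_mul_I, mul_one]

section path

variable {P}
variable {σ a b : ℝ} {J : ℕ} {y v : ℝ → E3}

theorem path_q {s : ℝ}
    (hy : HasDerivWithinAt y (P.us σ J s (y s) + v s) (Icc a b) s) :
    HasDerivWithinAt (fun τ => ‖y τ‖ ^ 2) (2 * ⟪y s, v s⟫_ℝ) (Icc a b) s := by
  have h1 := hy.norm_sq
  refine h1.congr_deriv ?_
  rw [inner_add_right, us_eq, inner_smul_right, inner_lam]
  ring

theorem path_th (h : StmProf) (hb : StmBump) {s : ℝ}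
    (hy : HasDerivWithinAt y (P.us σ J s (y s) + v s) (Icc a b) s) :
    HasDerivWithinAt (fun τ => th P J (‖y τ‖ ^ 2) τ)
      (∑ i ∈ Finset.range J, etq P i (‖y s‖ ^ 2) * P.F i s
        + dth P J (‖y s‖ ^ 2) s * (2 * ⟪y s, v s⟫_ℝ)) (Icc a b) s := by
  have hq := path_q hy
  have h1 : ∀ i, HasDerivWithinAt (fun τ => etq P i (‖y τ‖ ^ 2))
      (detq P i (‖y s‖ ^ 2) * (2 * ⟪y s, v s⟫_ℝ)) (Icc a b) s := fun i =>
    HasDerivAt.comp_hasDerivWithinAt (h₂ := etq P i) s (hasDerivAt_etq P h i (‖y s‖ ^ 2)) hq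
  have h2 : ∀ i, HasDerivWithinAt (fun τ => etq P i (‖y τ‖ ^ 2) * P.Phi i τ)
      (detq P i (‖y s‖ ^ 2) * (2 * ⟪y s, v s⟫_ℝ) * P.Phi i s + etq P i (‖y s‖ ^ 2) * P.F i s)
      (Icc a b) s := fun i => (h1 i).mul (hasDerivAt_Phi P hb i s).hasDerivWithinAt
  have h3 := (HasDerivWithinAt.fun_sum fun i (_ : i ∈ Finset.range J) => h2 i).add
    ((h1 J).const_mul (P.A J))
  refine h3.congr_deriv ?_
  unfold dth
  rw [Finset.sum_add_distrib, add_mul, Finset.sum_mul]
  have e : ∑ i ∈ Finset.range J, detq P i (‖y s‖ ^ 2) * (2 * ⟪y s, v s⟫_ℝ) * P.Phi i s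
      = ∑ i ∈ Finset.range J, detq P i (‖y s‖ ^ 2) * P.Phi i s * (2 * ⟪y s, v s⟫_ℝ) :=
    Finset.sum_congr rfl fun i _ => by ring
  rw [e]
  ring

theorem path_Z (h : StmProf) (hb : StmBump) (hσ : σ = 1 ∨ σ = -1) {C : ℝ}
    (hC : ∀ x, |deriv Real.smoothTransition x| ≤ C) (hk : 12 * (1 + C) ≤ P.k0) {s : ℝ}
    (hy : HasDerivWithinAt y (P.us σ J s (y s) + v s) (Icc a b) s) :
    ∃ Z', HasDerivWithinAt (fun τ => ZZ P σ J τ (y τ)) Z' (Icc a b) s ∧ ‖Z'‖ ≤ 2 * ‖v s‖ := by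
  have hth := path_th h hb hy
  have hz : HasDerivWithinAt (fun τ => zc (y τ)) (zc (P.us σ J s (y s) + v s)) (Icc a b) s :=
    zcL.hasFDerivAt.comp_hasDerivWithinAt s hy
  set S := ∑ i ∈ Finset.range J, etq P i (‖y s‖ ^ 2) * P.F i s with hS
  set E := dth P J (‖y s‖ ^ 2) s with hE
  set q' := 2 * ⟪y s, v s⟫_ℝ with hq'
  have h1 : HasDerivWithinAt (fun τ => ((-(σ * th P J (‖y τ‖ ^ 2) τ) : ℝ) : ℂ) * Complex.I)
      (((-(σ * (S + E * q')) : ℝ) : ℂ) * Complex.I) (Icc a b) s :=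
    ((hth.const_mul σ).neg.ofReal_comp).mul_const Complex.I
  have h2 := hz.mul h1.cexp
  refine ⟨_, h2, ?_⟩
  have e1 : zc (P.us σ J s (y s) + v s) = (σ * S : ℝ) * (Complex.I * zc (y s)) + zc (v s) := by
    rw [zc_add, us_eq, zc_smul, zc_lam]
  rw [e1]
  set ex := Complex.exp (((-(σ * th P J (‖y s‖ ^ 2) s) : ℝ) : ℂ) * Complex.I) with hex
  have e2 : ((σ * S : ℝ) * (Complex.I * zc (y s)) + zc (v s)) * ex
      + zc (y s) * (ex * (((-(σ * (S + E * q')) : ℝ) : ℂ) * Complex.I))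
      = (zc (v s) - ((σ * (E * q') : ℝ) : ℂ) * Complex.I * zc (y s)) * ex := by
    push_cast; ring
  rw [e2, norm_mul, hex, Complex.norm_exp_ofReal_mul_I, mul_one]
  refine (norm_sub_le _ _).trans ?_
  rw [norm_mul, norm_mul, Complex.norm_I, mul_one, Complex.norm_real, Real.norm_eq_abs, abs_mul,
    abs_mul]
  have hs1 : |σ| = 1 := by rcases hσ with rfl | rfl <;> simp
  rw [hs1, one_mul]
  have b1 : |q'| ≤ 2 * (‖y s‖ * ‖v s‖) := by
    rw [hq', abs_mul, abs_two]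
    have := abs_real_inner_le_norm (y s) (v s)
    linarith
  have b2 := dth_bound P h hb hC hk J (sq_nonneg ‖y s‖) s
  rw [← hE] at b2
  have b3 := norm_zc_le (y s)
  have b4 := norm_zc_le (v s)
  have b5 : |E| * |q'| * ‖zc (y s)‖ ≤ |E| * (2 * (‖y s‖ * ‖v s‖)) * ‖y s‖ := by
    gcongr
  have b6 : |E| * (2 * (‖y s‖ * ‖v s‖)) * ‖y s‖ = (2 * ‖y s‖ ^ 2 * |E|) * ‖v s‖ := by ring
  have b7 : (2 * ‖y s‖ ^ 2 * |E|) * ‖v s‖ ≤ 1 * ‖v s‖ :=
    mul_le_mul_of_nonneg_right b2 (norm_nonneg _)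
  linarith

theorem path_two {s : ℝ}
    (hy : HasDerivWithinAt y (P.us σ J s (y s) + v s) (Icc a b) s) :
    ∃ Z', HasDerivWithinAt (fun τ => y τ 2) Z' (Icc a b) s ∧ ‖Z'‖ ≤ ‖v s‖ := by
  have h1 : HasDerivWithinAt (fun τ => y τ 2) ((P.us σ J s (y s) + v s) 2) (Icc a b) s :=
    (EuclideanSpace.proj (𝕜 := ℝ) (2 : Fin 3)).hasFDerivAt.comp_hasDerivWithinAt s hy
  refine ⟨_, h1, ?_⟩
  rw [us_eq]
  simp only [PiLp.add_apply, PiLp.smul_apply, lam_two, smul_zero, zero_add]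
  exact abs_two_le _

theorem mvt {E : Type*} [NormedAddCommGroup E] [NormedSpace ℝ E] (hab : a ≤ b) (f : ℝ → E)
    (g : ℝ → ℝ) (hg : ContinuousOn g (Icc a b))
    (hf : ∀ s ∈ Icc a b, ∃ f', HasDerivWithinAt f f' (Icc a b) s ∧ ‖f'‖ ≤ g s) :
    ‖f b - f a‖ ≤ ∫ s in a..b, g s := by
  apply norm_sub_le_integral_of_norm_deriv_le_of_le hab
  · intro s hs
    obtain ⟨f', h, -⟩ := hf s hs
    exact h.continuousWithinAt
  · intro s hs
    obtain ⟨f', h, -⟩ := hf s (Ioo_subset_Icc_self hs)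
    exact (h.differentiableWithinAt.mono Ioo_subset_Icc_self)
  · refine Eventually.of_forall fun s hs => ?_
    obtain ⟨f', h, hb⟩ := hf s (Ioo_subset_Icc_self hs)
    rw [(h.hasDerivAt (Icc_mem_nhds hs.1 hs.2)).deriv]
    exact hb
  · apply ContinuousOn.intervalIntegrable
    rwa [uIcc_of_le hab]

theorem path_bound (h : StmProf) (hb : StmBump) (hσ : σ = 1 ∨ σ = -1) {C : ℝ}
    (hC : ∀ x, |deriv Real.smoothTransition x| ≤ C) (hk : 12 * (1 + C) ≤ P.k0) (hab : a ≤ b)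
    (hv : ContinuousOn v (Icc a b))
    (hy : ∀ s ∈ Icc a b, HasDerivWithinAt y (P.us σ J s (y s) + v s) (Icc a b) s) :
    ‖ZZ P σ J b (y b) - ZZ P σ J a (y a)‖ ≤ 2 * ∫ s in a..b, ‖v s‖ ∧
    |y b 2 - y a 2| ≤ ∫ s in a..b, ‖v s‖ := by
  constructor
  · have h1 := mvt hab (fun τ => ZZ P σ J τ (y τ)) (fun s => 2 * ‖v s‖)
      (continuousOn_const.mul hv.norm) fun s hs => path_Z h hb hσ hC hk (hy s hs)
    rwa [intervalIntegral.integral_const_mul] at h1
  · exact mvt hab (fun τ => y τ 2) (fun s => ‖v s‖) hv.norm fun s hs => path_two (hy s hs)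

end path

/-! ### the angles -/

theorem th_first (h : StmProf) (hb : StmBump) {J : ℕ} {s : ℝ} (hs : 0 < s)
    (h1 : 6 / 5 * P.r J ^ 2 ≤ s ^ 2) (h2 : s ^ 2 ≤ P.d ^ 2) :
    th P J (s ^ 2) (P.t J) = P.A J / (3 * s ^ 3) := by
  unfold th
  rw [etq_far P h hs h1 h2, Finset.sum_eq_zero]
  · ring
  · intro i hi
    rw [Phi_zero P hb (t_anti P (Finset.mem_range.1 hi)), mul_zero]

theorem th_last (h : StmProf) (hb : StmBump) {j J : ℕ} (hJ : j < J) {s t : ℝ} (hs : 0 < s)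
    (h1 : P.r j ^ 2 < s ^ 2) (h2 : s ^ 2 ≤ P.d ^ 2) (ht : t ∈ Icc (P.t (j + 1)) (P.t j)) :
    th P J (s ^ 2) t = etq P j (s ^ 2) * P.Phi j t + P.A (j + 1) / (3 * s ^ 3) := by
  have hfar : ∀ i, j < i → etq P i (s ^ 2) = 1 / (3 * s ^ 3) := by
    intro i hi
    refine etq_far P h hs ?_ h2
    have h3 := r_lt P hi
    have h4 := r_pos P i
    nlinarith
  unfold th
  rw [hfar J hJ]
  have key : ∀ J, j + 1 ≤ J → ∑ i ∈ Finset.range J, etq P i (s ^ 2) * P.Phi i t
      + P.A J * (1 / (3 * s ^ 3)) = etq P j (s ^ 2) * P.Phi j t + P.A (j + 1) / (3 * s ^ 3) := by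
    intro J hJ
    induction J, hJ using Nat.le_induction with
    | base =>
      rw [Finset.sum_range_succ, Finset.sum_eq_zero, zero_add]
      · ring
      · intro i hi
        rw [Phi_zero P hb (ht.2.trans (t_anti P (Finset.mem_range.1 hi))), mul_zero]
    | succ n hn ih =>
      rw [Finset.sum_range_succ, hfar n hn, Phi_one P hb ((t_anti P hn).trans ht.1), ← ih]
      unfold Par.dA
      ring
  exact key J hJ

/-- the angle is between `π/100` and `99π/100` -/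
theorem th_range (h : StmProf) (hb : StmBump) {j J : ℕ} (hJ : j < J) {s t : ℝ} (hs : 0 < s)
    (h1 : P.r j ^ 2 < s ^ 2) (h1' : s ^ 2 < 6 / 5 * P.r j ^ 2) (h2 : s ^ 2 ≤ P.d ^ 2)
    (ht : t ∈ Icc (P.t (j + 1)) (P.t j)) :
    Real.pi / 100 ≤ P.k j * th P J (s ^ 2) t ∧ P.k j * th P J (s ^ 2) t ≤ 99 * Real.pi / 100 := by
  have hr := r_pos P j
  have hk := kR_pos P j
  have hph := phie_pos
  rw [th_last P h hb hJ hs h1 h2 ht]
  have e0 := etq_nonneg P h j (s ^ 2)
  have e1 := etq_le P h j hs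
  have p0 := Phi_nonneg P hb j t
  have p1 := Phi_le P hb j t
  have hrs : P.r j < s := lt_of_pow_lt_pow_left₀ 2 hs.le h1
  set ρ := P.r j / s with hρ
  have hρ0 : 0 < ρ := by positivity
  have hρ1 : ρ < 1 := by rw [hρ, div_lt_one hs]; exact hrs
  have eA : P.k j * (P.A j / (3 * s ^ 3)) = phie * ρ ^ 3 := by
    unfold Par.A
    rw [hρ]
    field_simp
  have eA1 : P.k j * (P.A (j + 1) / (3 * s ^ 3)) = phie * ρ ^ 3 / 64 := by
    rw [A_succ, ← eA]; ring
  constructor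
  · have h3 : P.k j * (P.A (j + 1) / (3 * s ^ 3))
        ≤ P.k j * (etq P j (s ^ 2) * P.Phi j t + P.A (j + 1) / (3 * s ^ 3)) := by
      have : 0 ≤ etq P j (s ^ 2) * P.Phi j t := mul_nonneg e0 p0
      gcongr
      linarith
    refine le_trans ?_ h3
    rw [eA1]
    -- ρ² > 5/6, ρ³ > 0.76
    have h4 : 5 / 6 < ρ ^ 2 := by
      rw [hρ, div_pow, lt_div_iff₀ (by positivity)]
      linarith
    have h5 : 0.9128 < ρ := by
      by_contra h6
      push Not at h6
      nlinarith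
    have h6 : 0.7606 < ρ ^ 3 := by
      have : ρ ^ 3 = ρ ^ 2 * ρ := by ring
      rw [this]
      nlinarith
    unfold phie
    have := Real.pi_pos
    nlinarith
  · have h3 : etq P j (s ^ 2) * P.Phi j t ≤ 1 / (3 * s ^ 3) * P.dA j := by gcongr
    have h4 : P.k j * (etq P j (s ^ 2) * P.Phi j t + P.A (j + 1) / (3 * s ^ 3))
        ≤ P.k j * (P.A j / (3 * s ^ 3)) := by
      gcongr
      have h5 : P.A j / (3 * s ^ 3) = 1 / (3 * s ^ 3) * P.dA j + P.A (j + 1) / (3 * s ^ 3) := by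
        unfold Par.dA; ring
      rw [h5]; linarith
    refine h4.trans ?_
    rw [eA]
    have h6 : ρ ^ 3 ≤ 1 := pow_le_one₀ hρ0.le hρ1.le
    have h7 : phie * ρ ^ 3 ≤ phie * 1 := by gcongr
    have h8 : phie = 99 * Real.pi / 100 := rfl
    linarith

/-! ### complex numbers -/

theorem unit_sub (z w : ℂ) (hz : z ≠ 0) (hw : w ≠ 0) :
    ‖z / (‖z‖ : ℂ) - w / (‖w‖ : ℂ)‖ ≤ 2 * ‖z - w‖ / ‖w‖ := by
  have hz' : (‖z‖ : ℂ) ≠ 0 := by simpa using hz
  have hw' : (‖w‖ : ℂ) ≠ 0 := by simpa using hw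
  have e : z / (‖z‖ : ℂ) - w / (‖w‖ : ℂ)
      = (z / (‖z‖ : ℂ)) * (((‖w‖ - ‖z‖ : ℝ) : ℂ) / (‖w‖ : ℂ)) + (z - w) / (‖w‖ : ℂ) := by
    push_cast
    field_simp
    ring
  rw [e]
  refine (norm_add_le _ _).trans ?_
  rw [norm_mul, norm_div, norm_div, norm_div, Complex.norm_real, Complex.norm_real,
    Complex.norm_real, norm_norm, norm_norm, div_self (norm_ne_zero_iff.2 hz), one_mul]
  have h1 : ‖(‖w‖ - ‖z‖ : ℝ)‖ ≤ ‖z - w‖ := by
    rw [← norm_neg (z - w), neg_sub, Real.norm_eq_abs]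
    exact abs_norm_sub_norm_le w z
  have h2 : 0 < ‖w‖ := norm_pos_iff.2 hw
  rw [← add_div]
  gcongr
  linarith

theorem pow_sub_pow (z w : ℂ) (hz : ‖z‖ = 1) (hw : ‖w‖ = 1) (k : ℕ) :
    ‖z ^ k - w ^ k‖ ≤ k * ‖z - w‖ := by
  induction k with
  | zero => simp
  | succ n ih =>
    have e : z ^ (n + 1) - w ^ (n + 1) = z * (z ^ n - w ^ n) + (z - w) * w ^ n := by ring
    rw [e]
    refine (norm_add_le _ _).trans ?_
    rw [norm_mul, norm_mul, norm_pow, hz, hw, one_pow, one_mul, mul_one]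
    push_cast
    linarith

/-- the real part of a unit vector which is almost vertical after a rotation -/
theorem re_rot {W : ℂ} (hW : ‖W‖ = 1) {σ β : ℝ} (hσ : σ = 1 ∨ σ = -1)
    (hβ : Real.pi / 100 ≤ β) (hβ' : β ≤ 99 * Real.pi / 100) (hI : gc < |W.im|) :
    (0 < σ * W.im → 1 / 100 < (W * Complex.exp (((-(σ * β) : ℝ) : ℂ) * Complex.I)).re) ∧
    (σ * W.im < 0 → (W * Complex.exp (((-(σ * β) : ℝ) : ℂ) * Complex.I)).re < -(1 / 100)) := by
  have hpi := Real.pi_pos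
  have hs : Real.sin (Real.pi / 200) > 1 / 100 := by
    have h1 : Real.pi / 200 ≤ 1 := by have := Real.pi_lt_d2; linarith
    have h2 := Real.sin_gt_sub_cube (x := Real.pi / 200) (by positivity)
    have h3 := Real.pi_gt_d2
    have h4 := Real.pi_lt_d2
    have h5 : (Real.pi / 200) ^ 3 ≤ (1 / 50) ^ 3 := by
      apply pow_le_pow_left₀ (by positivity)
      linarith
    norm_num at h5
    linarith
  -- the real part of W
  have hsin0 : 0 < Real.sin (Real.pi / 200) := by linarith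
  have hcos0 : 0 < Real.cos (Real.pi / 200) :=
    Real.cos_pos_of_mem_Ioo ⟨by linarith, by linarith⟩
  have hre : |W.re| < Real.sin (Real.pi / 200) := by
    have h1 : W.re ^ 2 + W.im ^ 2 = 1 := by
      have := Complex.sq_norm W
      rw [hW, Complex.normSq_apply] at this
      nlinarith
    have h2 := Real.sin_sq_add_cos_sq (Real.pi / 200)
    refine abs_lt_of_sq_lt_sq ?_ hsin0.le
    unfold gc at hI
    have h3 : Real.cos (Real.pi / 200) ^ 2 < |W.im| ^ 2 := by gcongr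
    rw [sq_abs] at h3
    linarith
  have ere : (W * Complex.exp (((-(σ * β) : ℝ) : ℂ) * Complex.I)).re
      = W.re * Real.cos β + σ * W.im * Real.sin β := by
    rw [Complex.mul_re, Complex.exp_ofReal_mul_I_re, Complex.exp_ofReal_mul_I_im]
    rcases hσ with rfl | rfl
    · simp
    · simp
      ring
  rw [ere]
  have hsb : 0 < Real.sin β := Real.sin_pos_of_pos_of_lt_pi (by linarith) (by linarith)
  have hmin : Real.sin (Real.pi / 200)
      ≤ Real.cos (Real.pi / 200) * Real.sin β - Real.sin (Real.pi / 200) * |Real.cos β| := by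
    rcases le_total 0 (Real.cos β) with hc | hc
    · rw [abs_of_nonneg hc]
      have e : Real.cos (Real.pi / 200) * Real.sin β - Real.sin (Real.pi / 200) * Real.cos β
          = Real.sin (β - Real.pi / 200) := by rw [Real.sin_sub]; ring
      rw [e]
      rcases le_total (β - Real.pi / 200) (Real.pi / 2) with h | h
      · exact Real.sin_le_sin_of_le_of_le_pi_div_two (by linarith) h (by linarith)
      · rw [← Real.sin_pi_sub (β - Real.pi / 200)]
        exact Real.sin_le_sin_of_le_of_le_pi_div_two (by linarith) (by linarith) (by linarith)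
    · rw [abs_of_nonpos hc]
      have e : Real.cos (Real.pi / 200) * Real.sin β - Real.sin (Real.pi / 200) * -Real.cos β
          = Real.sin (β + Real.pi / 200) := by rw [Real.sin_add]; ring
      rw [e]
      rcases le_total (β + Real.pi / 200) (Real.pi / 2) with h | h
      · exact Real.sin_le_sin_of_le_of_le_pi_div_two (by linarith) h (by linarith)
      · rw [← Real.sin_pi_sub (β + Real.pi / 200)]
        exact Real.sin_le_sin_of_le_of_le_pi_div_two (by linarith) (by linarith) (by linarith)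
  have hrc : |W.re * Real.cos β| ≤ Real.sin (Real.pi / 200) * |Real.cos β| := by
    rw [abs_mul]; gcongr
  have hrc' := abs_le.1 hrc
  have hσI : |σ * W.im| = |W.im| := by rcases hσ with rfl | rfl <;> simp
  constructor
  · intro hp
    rw [abs_of_pos hp] at hσI
    have h1 : Real.cos (Real.pi / 200) * Real.sin β ≤ σ * W.im * Real.sin β := by
      rw [hσI]; unfold gc at hI; gcongr
    linarith [hrc'.1]
  · intro hp
    rw [abs_of_neg hp] at hσI
    have h1 : Real.cos (Real.pi / 200) * Real.sin β ≤ -(σ * W.im) * Real.sin β := by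
      rw [hσI]; unfold gc at hI; gcongr
    linarith [hrc'.2]

theorem unit_ZZ (σ : ℝ) (J : ℕ) (τ : ℝ) (x : E3) (k : ℕ) :
    (ZZ P σ J τ x / (‖ZZ P σ J τ x‖ : ℂ)) ^ k
      = uz x ^ k * Complex.exp (((-(σ * (k * th P J (‖x‖ ^ 2) τ)) : ℝ) : ℂ) * Complex.I) := by
  rw [norm_ZZ]
  unfold ZZ uz
  have e : zc x * Complex.exp (((-(σ * th P J (‖x‖ ^ 2) τ) : ℝ) : ℂ) * Complex.I) / (‖zc x‖ : ℂ)
      = zc x / (‖zc x‖ : ℂ) * Complex.exp (((-(σ * th P J (‖x‖ ^ 2) τ) : ℝ) : ℂ) * Complex.I) := by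
    ring
  rw [e, mul_pow, ← Complex.exp_nat_mul]
  congr 2
  push_cast
  ring

theorem gc_pos : 0 < gc := by
  unfold gc
  have := Real.pi_pos
  exact Real.cos_pos_of_mem_Ioo ⟨by linarith, by linarith⟩

theorem Gf_ne {y : ℝ} (hy : Gf y ≠ 0) : gc < |y| := by
  by_contra hc
  push Not at hc
  apply hy
  have := abs_le.1 hc
  unfold Gf
  rw [max_eq_right (by linarith), min_eq_right (by linarith)]
  simp

theorem shell_unique {j i : ℕ} {x : E3} (h1 : x ∈ P.shell j) (h2 : x ∈ P.shell i) : i = j := by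
  rcases lt_trichotomy i j with h | h | h
  · exfalso
    have h3 := r_lt P h
    have := r_pos P j
    have a1 := h1.2
    have a2 := h2.1
    nlinarith
  · exact h
  · exfalso
    have h3 := r_lt P h
    have := r_pos P i
    have a1 := h2.2
    have a2 := h1.1
    nlinarith

end par

end Traj

open Traj

theorem traj_holds (h : StmProf) (hb : StmBump) : StmTraj := by
  obtain ⟨C, hC0, hC⟩ := exists_sT_bound
  intro d hd hd1
  refine ⟨⌈12 * (1 + C)⌉₊, fun P hPd hK σ hσ j J hJ t ht y v hv hy hfs hD => ?_⟩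
  have hk : 12 * (1 + C) ≤ P.k0 := (Nat.le_ceil _).trans (by exact_mod_cast hK)
  have hab : P.t J ≤ t := (t_anti P (Nat.succ_le_of_lt hJ)).trans ht.1
  have hD0 : 0 ≤ ∫ s in P.t J..t, ‖v s‖ :=
    intervalIntegral.integral_nonneg hab (fun _ _ => norm_nonneg _)
  obtain ⟨b1, b2⟩ := path_bound h hb hσ hC hk hab hv hy
  set D := ∫ s in P.t J..t, ‖v s‖ with hDdef
  set x := y t with hx
  set α := y (P.t J) with hα
  have hkj := kR_pos P j
  have hkj1 : (1 : ℝ) ≤ P.k j := by exact_mod_cast k_pos P j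
  have hr := r_pos P j
  -- consequences of `fs ≠ 0`
  unfold Par.fs Par.g at hfs
  obtain ⟨f1, f2⟩ := smul_ne_zero_iff.1 hfs
  obtain ⟨f3, f4⟩ := smul_ne_zero_iff.1 f2
  have hG : gc < |(uz x ^ P.k j).im| := Gf_ne (mul_ne_zero_iff.1 f1).2
  obtain ⟨g1, g2⟩ := h.2.2.2.2.2.2.2.2.2.2.2.2.2.1 _ (mul_ne_zero_iff.1 f3).2
  rw [lt_div_iff₀ (by positivity), one_mul] at g1
  rw [div_lt_iff₀ (by positivity)] at g2
  have hz : zc x ≠ 0 := by
    intro h0
    apply f4
    have e0 : x 0 = 0 := congrArg Complex.re h0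
    have e1 : x 1 = 0 := congrArg Complex.im h0
    ext i
    fin_cases i <;> simp [lam, e0, e1]
  have hA : 0 < ‖zc x‖ := norm_pos_iff.2 hz
  have hxpos : 0 < ‖x‖ := hA.trans_le (norm_zc_le x)
  have hrd := P.hrd
  have hr0 := P.hr
  have hrr0 := r_le P j
  have hDA : D ≤ ‖zc x‖ / 400 := by
    refine hD.trans ?_
    rw [div_le_div_iff₀ (by positivity) (by norm_num)]
    have := mul_le_mul_of_nonneg_left hkj1 hA.le
    linarith
  -- the norm of `α`
  have c1 : |‖zc x‖ - ‖zc α‖| ≤ 2 * D := by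
    have := abs_norm_sub_norm_le (ZZ P σ J t x) (ZZ P σ J (P.t J) α)
    rw [norm_ZZ, norm_ZZ] at this
    exact this.trans b1
  have c2 := abs_le.1 c1
  have c3 := abs_le.1 b2
  have n1 := normsq_eq x
  have n2 := normsq_eq α
  have hA2 : ‖zc x‖ * |x 2| ≤ (‖zc x‖ ^ 2 + x 2 ^ 2) / 2 := by
    have h0 := sq_nonneg (‖zc x‖ - |x 2|)
    have e0 := sq_abs (x 2)
    have e1 : (‖zc x‖ - |x 2|) ^ 2 = ‖zc x‖ ^ 2 - 2 * (‖zc x‖ * |x 2|) + |x 2| ^ 2 := by ring
    linarith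
  have hx2 : |α 2 - x 2| ≤ ‖zc x‖ / 400 := by
    rw [abs_sub_comm]; exact b2.trans hDA
  have e := sq_abs (x 2)
  have sA := sq_nonneg ‖zc x‖
  have sX := sq_nonneg (x 2)
  have up : ‖α‖ ^ 2 ≤ 11 / 10 * ‖x‖ ^ 2 := by
    have u1 : ‖zc α‖ ≤ 201 / 200 * ‖zc x‖ := by linarith
    have u2 : ‖zc α‖ ^ 2 ≤ (201 / 200 * ‖zc x‖) ^ 2 :=
      pow_le_pow_left₀ (norm_nonneg _) u1 2
    have u3 : α 2 ^ 2 ≤ (|x 2| + ‖zc x‖ / 400) ^ 2 := by
      rw [← sq_abs (α 2)]
      have : |α 2| ≤ |x 2| + ‖zc x‖ / 400 := by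
        have := abs_sub_abs_le_abs_sub (α 2) (x 2)
        linarith
      exact pow_le_pow_left₀ (abs_nonneg _) this 2
    have u4 : (|x 2| + ‖zc x‖ / 400) ^ 2
        = x 2 ^ 2 + ‖zc x‖ * |x 2| / 200 + ‖zc x‖ ^ 2 / 160000 := by rw [← e]; ring
    rw [mul_pow] at u2
    rw [n1, n2]
    linarith
  have lo : 9 / 10 * ‖x‖ ^ 2 ≤ ‖α‖ ^ 2 := by
    have u1 : 199 / 200 * ‖zc x‖ ≤ ‖zc α‖ := by linarith
    have u2 : (199 / 200 * ‖zc x‖) ^ 2 ≤ ‖zc α‖ ^ 2 :=
      pow_le_pow_left₀ (by positivity) u1 2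
    rw [mul_pow] at u2
    have u3 : x 2 ^ 2 - ‖zc x‖ * |x 2| / 200 ≤ α 2 ^ 2 := by
      have e' := sq_abs (α 2)
      have e2 : |x 2| - ‖zc x‖ / 400 ≤ |α 2| := by
        have := abs_sub_abs_le_abs_sub (x 2) (α 2)
        rw [abs_sub_comm] at hx2
        linarith
      rcases le_total (‖zc x‖ / 400) |x 2| with h6 | h6
      · have h7 : (|x 2| - ‖zc x‖ / 400) ^ 2 ≤ |α 2| ^ 2 :=
          pow_le_pow_left₀ (by linarith) e2 2
        have u4 : (|x 2| - ‖zc x‖ / 400) ^ 2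
          = x 2 ^ 2 - ‖zc x‖ * |x 2| / 200 + ‖zc x‖ ^ 2 / 160000 := by rw [← e]; ring
        linarith
      · have h7 := abs_nonneg (x 2)
        have h8 : 0 ≤ |x 2| * (‖zc x‖ / 200 - |x 2|) := by
          apply mul_nonneg h7; linarith
        have h9 : |x 2| * (‖zc x‖ / 200 - |x 2|) = ‖zc x‖ * |x 2| / 200 - x 2 ^ 2 := by
          rw [← e]; ring
        have := sq_nonneg (α 2)
        linarith
    rw [n1, n2]
    linarith
  have hαpos : 0 < ‖α‖ := by
    have : 0 < ‖α‖ ^ 2 := lt_of_lt_of_le (by positivity) lo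
    exact lt_of_le_of_ne (norm_nonneg _) fun h0 => by rw [← h0] at this; simp at this
  have hr2 : 0 < P.r j ^ 2 := by positivity
  have hshell : α ∈ P.shell j := by
    constructor
    · linarith
    · linarith
  have hzα : zc α ≠ 0 := by
    rw [← norm_pos_iff]; linarith
  -- sizes
  have hrq : P.r j ^ 2 ≤ (P.d / 4) ^ 2 := pow_le_pow_left₀ hr.le (by linarith) 2
  have hd2 : 0 ≤ P.d ^ 2 := sq_nonneg _
  rw [div_pow] at hrq
  have hxd : ‖x‖ ^ 2 ≤ P.d ^ 2 := by linarith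
  have hαd : ‖α‖ ^ 2 ≤ P.d ^ 2 := by linarith
  have hαJ : 6 / 5 * P.r J ^ 2 ≤ ‖α‖ ^ 2 := by
    have h3 : P.r J ^ 2 ≤ (P.r j / 2) ^ 2 := pow_le_pow_left₀ (r_pos P J).le (r_lt P hJ) 2
    rw [div_pow] at h3
    linarith
  -- the two unit vectors
  have hZx : ZZ P σ J t x ≠ 0 := by rw [← norm_pos_iff, norm_ZZ]; exact hA
  have hZα : ZZ P σ J (P.t J) α ≠ 0 := by rw [← norm_pos_iff, norm_ZZ]; exact norm_pos_iff.2 hzα
  have nrm : ∀ z : ℂ, z ≠ 0 → ‖z / (‖z‖ : ℂ)‖ = 1 := by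
    intro z hz
    rw [norm_div, Complex.norm_real, norm_norm, div_self (norm_ne_zero_iff.2 hz)]
  have d1 := pow_sub_pow _ _ (nrm _ hZα) (nrm _ hZx) (P.k j)
  have d2 := unit_sub _ _ hZα hZx
  have nx : ‖ZZ P σ J t x‖ = ‖zc x‖ := norm_ZZ P σ J t x
  have b1' : ‖ZZ P σ J (P.t J) α - ZZ P σ J t x‖ ≤ 2 * D := by rw [norm_sub_rev]; exact b1
  have d3 : ‖(ZZ P σ J (P.t J) α / (‖ZZ P σ J (P.t J) α‖ : ℂ)) ^ P.k j
      - (ZZ P σ J t x / (‖ZZ P σ J t x‖ : ℂ)) ^ P.k j‖ ≤ 1 / 100 := by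
    refine d1.trans ?_
    have d4 : ‖ZZ P σ J (P.t J) α / (‖ZZ P σ J (P.t J) α‖ : ℂ)
        - ZZ P σ J t x / (‖ZZ P σ J t x‖ : ℂ)‖ ≤ 1 / (100 * P.k j) := by
      refine d2.trans ?_
      rw [nx, div_le_div_iff₀ hA (by positivity)]
      rw [le_div_iff₀ (by positivity)] at hD
      have := mul_le_mul_of_nonneg_right b1' hkj.le
      linarith
    calc (P.k j : ℝ) * _ ≤ P.k j * (1 / (100 * P.k j)) := by gcongr
      _ = 1 / 100 := by field_simp
  rw [unit_ZZ, unit_ZZ, th_first P h hb hαpos hαJ hαd] at d3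
  have d4 := (Complex.abs_re_le_norm _).trans d3
  rw [Complex.sub_re] at d4
  have d5 := abs_le.1 d4
  obtain ⟨r1, r2⟩ := th_range P h hb hJ hxpos g1 g2 hxd ht
  have hW : ‖uz x ^ P.k j‖ = 1 := by
    rw [norm_pow]; unfold uz; rw [nrm _ hz, one_pow]
  obtain ⟨s1, s2⟩ := re_rot hW hσ r1 r2 hG
  have him : σ * (uz x ^ P.k j).im ≠ 0 := by
    apply mul_ne_zero
    · rcases hσ with rfl | rfl <;> norm_num
    · intro h0
      rw [h0, abs_zero] at hG
      exact absurd hG (not_lt.2 gc_pos.le)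
  unfold Par.a
  classical
  refine if_congr (Iff.intro ?_ ?_) rfl rfl
  · rintro ⟨i, hi, hp⟩
    obtain rfl := shell_unique P hshell hi
    rw [if_pos hJ] at hp
    rcases lt_or_gt_of_ne him with hneg | hpos
    · exfalso
      have := s2 hneg
      have e : σ * P.k i * (P.A J / (3 * ‖α‖ ^ 3)) = σ * (P.k i * (P.A J / (3 * ‖α‖ ^ 3))) := by
        ring
      rw [e] at hp
      linarith [d5.2]
    · exact hpos
  · intro hpos
    refine ⟨j, hshell, ?_⟩
    rw [if_pos hJ]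
    have := s1 hpos
    have e : σ * P.k j * (P.A J / (3 * ‖α‖ ^ 3)) = σ * (P.k j * (P.A J / (3 * ‖α‖ ^ 3))) := by
      ring
    rw [e]
    linarith [d5.1]

end N979MH
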