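import Mathlib
import Pool.Agent.N979.MH.Stm

/-!
Project MH, module W: the vortex fields `W j`.
-/

open MeasureTheory Set Filter Topology
open scoped InnerProductSpace ENNReal ContDiff NNReal

namespace N979MH

open H772R2.NS

namespace WF

/-! ### the map `lam` -/

theorem lam0 (x : E3) : lam x 0 = - x 1 := rfl
theorem lam1 (x : E3) : lam x 1 = x 0 := rfl
theorem lam2 (x : E3) : lam x 2 = 0 := rfl

/-- `lam` as a linear map -/
noncomputable def lamL : E3 →L[ℝ] E3 := LinearMap.toContinuousLinearMap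
  { toFun := lam
    map_add' := fun x y => by
      ext i; fin_cases i <;> simp [lam]; ring
    map_smul' := fun c x => by
      ext i; fin_cases i <;> simp [lam] }

theorem lamL_apply (x : E3) : lamL x = lam x := rfl

theorem norm_lam_sq (x : E3) : ‖lam x‖ ^ 2 = x 0 ^ 2 + x 1 ^ 2 := by
  rw [norm_sq_E3, Fin.sum_univ_three, lam0, lam1, lam2]; ring

theorem norm_lam_le (x : E3) : ‖lam x‖ ≤ ‖x‖ := by
  have h : ‖lam x‖ ^ 2 ≤ ‖x‖ ^ 2 := by
    rw [norm_lam_sq, norm_sq_E3, Fin.sum_univ_three]; nlinarith [sq_nonneg (x 2)]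
  exact (pow_le_pow_iff_left₀ (norm_nonneg _) (norm_nonneg _) (by norm_num)).mp h

theorem inner_ev (x : E3) (j : Fin 3) : ⟪x, ev j⟫_ℝ = x j := by
  rw [EuclideanSpace.inner_single_right]; simp

theorem sum_lam_ev (x : E3) (i : Fin 3) : ∑ j, x j * lam (ev j) i = lam x i := by
  fin_cases i <;> simp [lam]

/-! ### fields `E(|x|²) lam x` -/

/-- the field `E(|x|²) lam x` -/
noncomputable def VE (E : ℝ → ℝ) (x : E3) : E3 := E (‖x‖ ^ 2) • lam x

variable {E : ℝ → ℝ}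

theorem contDiff_VE (hE : ContDiff ℝ ∞ E) : ContDiff ℝ ∞ (VE E) := by
  have h1 : ContDiff ℝ ∞ (fun x : E3 => ‖x‖ ^ 2) := contDiff_norm_sq ℝ
  exact (hE.comp h1).smul lamL.contDiff

theorem hasFDerivAt_comp (hE : ContDiff ℝ ∞ E) (x : E3) :
    HasFDerivAt (fun x : E3 => E (‖x‖ ^ 2)) ((2 * deriv E (‖x‖ ^ 2)) • innerSL ℝ x) x := by
  have h1 : HasFDerivAt (fun x : E3 => ‖x‖ ^ 2) (2 • (innerSL ℝ x)) x :=
    (hasStrictFDerivAt_norm_sq x).hasFDerivAt
  have h2 : HasDerivAt E (deriv E (‖x‖ ^ 2)) (‖x‖ ^ 2) :=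
    ((hE.differentiable (by simp)) _).hasDerivAt
  have h3 := h2.comp_hasFDerivAt x h1
  refine h3.congr_fderiv ?_
  ext v
  simp
  ring

theorem hasFDerivAt_VE (hE : ContDiff ℝ ∞ E) (x : E3) :
    HasFDerivAt (VE E) (E (‖x‖ ^ 2) • lamL
      + ((2 * deriv E (‖x‖ ^ 2)) • innerSL ℝ x).smulRight (lam x)) x :=
  (hasFDerivAt_comp hE x).smul lamL.hasFDerivAt

theorem fderiv_VE (hE : ContDiff ℝ ∞ E) (x h : E3) :
    fderiv ℝ (VE E) x h = E (‖x‖ ^ 2) • lam h + (2 * deriv E (‖x‖ ^ 2) * ⟪x, h⟫_ℝ) • lam x := by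
  rw [(hasFDerivAt_VE hE x).fderiv]
  simp [lamL_apply]

theorem jac_VE (hE : ContDiff ℝ ∞ E) (x : E3) (i j : Fin 3) :
    jac (VE E) x (i, j) = E (‖x‖ ^ 2) * lam (ev j) i + 2 * deriv E (‖x‖ ^ 2) * x j * lam x i := by
  rw [jac_apply, fderiv_VE hE, inner_ev]
  simp

theorem div_VE (hE : ContDiff ℝ ∞ E) (x : E3) : ∑ i, jac (VE E) x (i, i) = 0 := by
  simp only [jac_VE hE, Fin.sum_univ_three]
  simp [lam]
  ring

theorem norm_fderiv_VE (hE : ContDiff ℝ ∞ E) (x : E3) :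
    ‖fderiv ℝ (VE E) x‖ ≤ |E (‖x‖ ^ 2)| + 2 * (‖x‖ ^ 2 * |deriv E (‖x‖ ^ 2)|) := by
  refine ContinuousLinearMap.opNorm_le_bound _ (by positivity) (fun h => ?_)
  rw [fderiv_VE hE]
  refine (norm_add_le _ _).trans ?_
  rw [norm_smul, norm_smul, Real.norm_eq_abs, Real.norm_eq_abs, abs_mul, abs_mul]
  have h1 := norm_lam_le h
  have h2 := norm_lam_le x
  have h3 := abs_real_inner_le_norm x h
  have h4 : |E (‖x‖ ^ 2)| * ‖lam h‖ ≤ |E (‖x‖ ^ 2)| * ‖h‖ := by gcongr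
  have h5 : |2| * |deriv E (‖x‖ ^ 2)| * |⟪x, h⟫_ℝ| * ‖lam x‖
      ≤ |2| * |deriv E (‖x‖ ^ 2)| * (‖x‖ * ‖h‖) * ‖x‖ := by gcongr
  have h6 : |(2 : ℝ)| = 2 := by norm_num
  rw [h6] at h5 ⊢
  nlinarith

/-- integration by parts -/
theorem int_jac_VE (hE : ContDiff ℝ ∞ E) {Ω : Set E3} {w : E3 → E3} (hw : IsTest Ω w) :
    ∫ x, ⟪jac (VE E) x, jac w x⟫_ℝ
      = - ∫ x, (4 * ‖x‖ ^ 2 * deriv (deriv E) (‖x‖ ^ 2) + 10 * deriv E (‖x‖ ^ 2))
          * ⟪lam x, w x⟫_ℝ := by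
  have hE' : ContDiff ℝ ∞ (deriv E) := (contDiff_infty_iff_deriv.mp hE).2
  have hE'' : ContDiff ℝ ∞ (deriv (deriv E)) := (contDiff_infty_iff_deriv.mp hE').2
  let Fd : Fin 3 → Fin 3 → E3 → ℝ := fun i j x =>
    E (‖x‖ ^ 2) * lam (ev j) i + 2 * deriv E (‖x‖ ^ 2) * x j * lam x i
  let D : Fin 3 → Fin 3 → E3 → ℝ := fun i j x =>
    2 * deriv E (‖x‖ ^ 2) * x j * lam (ev j) i
      + (4 * deriv (deriv E) (‖x‖ ^ 2) * x j * x j * lam x i
        + 2 * deriv E (‖x‖ ^ 2) * lam x i + 2 * deriv E (‖x‖ ^ 2) * x j * lam (ev j) i)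
  have hpc : ∀ j : Fin 3, Continuous (fun x : E3 => x j) := fun j => by fun_prop
  have hlc : ∀ i : Fin 3, Continuous (fun x : E3 => lam x i) := fun i =>
    (hpc i).comp lamL.continuous
  have hnc : Continuous (fun x : E3 => ‖x‖ ^ 2) := by fun_prop
  have c0 : Continuous (fun x : E3 => E (‖x‖ ^ 2)) := hE.continuous.comp hnc
  have c1 : Continuous (fun x : E3 => deriv E (‖x‖ ^ 2)) := hE'.continuous.comp hnc
  have c2 : Continuous (fun x : E3 => deriv (deriv E) (‖x‖ ^ 2)) := hE''.continuous.comp hnc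
  have hFc : ∀ i j, Continuous (Fd i j) := fun i j => by
    have := hpc j
    have := hlc i
    show Continuous fun x : E3 =>
      E (‖x‖ ^ 2) * lam (ev j) i + 2 * deriv E (‖x‖ ^ 2) * x j * lam x i
    fun_prop
  have hDc : ∀ i j, Continuous (D i j) := fun i j => by
    have := hpc j
    have := hlc i
    show Continuous fun x : E3 => 2 * deriv E (‖x‖ ^ 2) * x j * lam (ev j) i
      + (4 * deriv (deriv E) (‖x‖ ^ 2) * x j * x j * lam x i
        + 2 * deriv E (‖x‖ ^ 2) * lam x i + 2 * deriv E (‖x‖ ^ 2) * x j * lam (ev j) i)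
    fun_prop
  have hFd : ∀ i j x, HasFDerivAt (Fd i j)
      (lam (ev j) i • ((2 * deriv E (‖x‖ ^ 2)) • innerSL ℝ x)
        + ((2 * deriv E (‖x‖ ^ 2) * x j) • ((EuclideanSpace.proj (𝕜 := ℝ) i : E3 →L[ℝ] ℝ).comp lamL)
          + lam x i • ((2 * deriv E (‖x‖ ^ 2)) • (EuclideanSpace.proj (𝕜 := ℝ) j : E3 →L[ℝ] ℝ)
            + x j • ((2 : ℝ) • ((2 * deriv (deriv E) (‖x‖ ^ 2)) • innerSL ℝ x))))) x := by
    intro i j x
    have a0 := hasFDerivAt_comp hE x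
    have a1 := hasFDerivAt_comp hE' x
    have b1 : HasFDerivAt (fun x : E3 => x j) (EuclideanSpace.proj (𝕜 := ℝ) j : E3 →L[ℝ] ℝ) x :=
      (EuclideanSpace.proj (𝕜 := ℝ) j : E3 →L[ℝ] ℝ).hasFDerivAt
    have b2 : HasFDerivAt (fun x : E3 => lam x i)
      ((EuclideanSpace.proj (𝕜 := ℝ) i : E3 →L[ℝ] ℝ).comp lamL) x :=
      ((EuclideanSpace.proj (𝕜 := ℝ) i : E3 →L[ℝ] ℝ).comp lamL).hasFDerivAt
    exact (a0.mul_const _).add (((a1.const_mul 2).mul b1).mul b2)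
  have hFD : ∀ i j x, fderiv ℝ (Fd i j) x (ev j) = D i j x := by
    intro i j x
    rw [(hFd i j x).fderiv]
    simp only [add_apply, smul_apply, smul_eq_mul,
      innerSL_apply_apply, inner_ev, ContinuousLinearMap.comp_apply, lamL_apply]
    have h1 : (EuclideanSpace.proj (𝕜 := ℝ) i : E3 →L[ℝ] ℝ) (lam (ev j)) = lam (ev j) i := rfl
    have h2 : (EuclideanSpace.proj (𝕜 := ℝ) j : E3 →L[ℝ] ℝ) (ev j) = 1 := by
      simp [ev]
    rw [h1, h2]
    simp only [D]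
    ring
  have hwc : ∀ i, Continuous (fun x => w x i) := fun i => (contDiff_coord hw.smooth i).continuous
  have hdw : ∀ i j, Continuous (fun x => fderiv ℝ (fun y => w y i) x (ev j)) := fun i j =>
    ((contDiff_coord hw.smooth i).continuous_fderiv (by simp)).clm_apply continuous_const
  have hws : ∀ i, HasCompactSupport (fun x => w x i) := fun i =>
    hasCompactSupport_coord hw.compact i
  have hibp : ∀ i j, ∫ x, Fd i j x * fderiv ℝ (fun y => w y i) x (ev j)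
      = - ∫ x, D i j x * w x i := by
    intro i j
    rw [integral_mul_fderiv_eq_neg_fderiv_mul_of_integrable]
    · simp_rw [hFD]
    · simp_rw [hFD]
      exact ((hDc i j).mul (hwc i)).integrable_of_hasCompactSupport ((hws i).mul_left)
    · exact ((hFc i j).mul (hdw i j)).integrable_of_hasCompactSupport
        (((hws i).fderiv_apply ℝ _).mul_left)
    · exact ((hFc i j).mul (hwc i)).integrable_of_hasCompactSupport ((hws i).mul_left)
    · exact fun x _ => (hFd i j x).differentiableAt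
    · exact fun x _ => ((contDiff_coord hw.smooth i).differentiable (by simp)) x
  have hpt : ∀ x, ⟪jac (VE E) x, jac w x⟫_ℝ
      = ∑ i, ∑ j, Fd i j x * fderiv ℝ (fun y => w y i) x (ev j) := by
    intro x
    rw [inner_M3]
    refine Finset.sum_congr rfl fun i _ => Finset.sum_congr rfl fun j _ => ?_
    rw [jac_VE hE, fderiv_coord hw.smooth, jac_apply]
  have hpt2 : ∀ x, ∑ i, ∑ j, D i j x * w x i
      = (4 * ‖x‖ ^ 2 * deriv (deriv E) (‖x‖ ^ 2) + 10 * deriv E (‖x‖ ^ 2)) * ⟪lam x, w x⟫_ℝ := by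
    intro x
    have hn : ‖x‖ ^ 2 = x 0 ^ 2 + x 1 ^ 2 + x 2 ^ 2 := by
      rw [norm_sq_E3, Fin.sum_univ_three]
    rw [inner_E3]
    simp only [D]
    generalize deriv E (‖x‖ ^ 2) = e1
    generalize deriv (deriv E) (‖x‖ ^ 2) = e2
    rw [hn]
    simp only [Fin.sum_univ_three]
    simp [lam]
    ring
  have i1 : ∀ i j, Integrable (fun x => Fd i j x * fderiv ℝ (fun y => w y i) x (ev j)) :=
    fun i j => ((hFc i j).mul (hdw i j)).integrable_of_hasCompactSupport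
        (((hws i).fderiv_apply ℝ _).mul_left)
  have i2 : ∀ i j, Integrable (fun x => D i j x * w x i) := fun i j =>
    ((hDc i j).mul (hwc i)).integrable_of_hasCompactSupport ((hws i).mul_left)
  simp_rw [hpt, ← hpt2]
  rw [integral_finsetSum _ (fun i _ => integrable_finsetSum _ (fun j _ => i1 i j)),
    integral_finsetSum _ (fun i _ => integrable_finsetSum _ (fun j _ => i2 i j)),
    ← Finset.sum_neg_distrib]
  refine Finset.sum_congr rfl fun i _ => ?_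
  rw [integral_finsetSum _ (fun j _ => i1 i j), integral_finsetSum _ (fun j _ => i2 i j),
    ← Finset.sum_neg_distrib]
  exact Finset.sum_congr rfl fun j _ => hibp i j

/-! ### the profile -/

/-- the profile as a function of `y = |x|²` -/
noncomputable def EE (d r y : ℝ) : ℝ := (r ^ 3)⁻¹ * Psi (y / r ^ 2) * zeta d y

theorem contDiff_zeta (d : ℝ) : ContDiff ℝ ∞ (zeta d) := by
  unfold zeta
  exact Real.smoothTransition.contDiff.comp ((contDiff_const.sub contDiff_id).div_const _)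

theorem zeta_nonneg (d y : ℝ) : 0 ≤ zeta d y := Real.smoothTransition.nonneg _
theorem zeta_le_one (d y : ℝ) : zeta d y ≤ 1 := Real.smoothTransition.le_one _

theorem zeta_one {d y : ℝ} (hd : 0 < d) (hy : y ≤ d ^ 2) : zeta d y = 1 := by
  unfold zeta
  apply Real.smoothTransition.one_of_one_le
  rw [le_div_iff₀ (by positivity)]
  linarith

theorem zeta_zero {d y : ℝ} (hd : 0 < d) (hy : 4 * d ^ 2 ≤ y) : zeta d y = 0 := by
  unfold zeta
  apply Real.smoothTransition.zero_of_nonpos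
  apply div_nonpos_of_nonpos_of_nonneg
  · linarith
  · positivity

section prof

variable (h : StmProf) {d r : ℝ}
include h

theorem contDiff_EE : ContDiff ℝ ∞ (EE d r) := by
  obtain ⟨h1, -⟩ := h
  unfold EE
  exact (contDiff_const.mul (h1.comp (contDiff_id.div_const _))).mul (contDiff_zeta d)

theorem Psi_one_le : Psi 1 ≤ 1 / 3 := by
  obtain ⟨-, -, -, -, -, -, -, -, h9, -⟩ := h
  simpa using h9 1 one_pos

theorem Psi_le (y : ℝ) : Psi y ≤ 1 / 3 := by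
  have h0 := Psi_one_le h
  obtain ⟨-, -, -, -, -, h6, -, h8, -⟩ := h
  rcases le_total y 1 with hy | hy
  · rw [h6 y hy]; exact h0
  · exact (h8 hy).trans h0

theorem Psi_nonneg (y : ℝ) : 0 ≤ Psi y := by
  obtain ⟨-, -, -, -, -, -, h7, -⟩ := h
  exact (h7 y).le

theorem EE_nonneg (hr : 0 < r) (y : ℝ) : 0 ≤ EE d r y :=
  mul_nonneg (mul_nonneg (by positivity) (Psi_nonneg h _)) (zeta_nonneg _ _)

theorem EE_le (hr : 0 < r) (y : ℝ) : EE d r y ≤ 1 / (3 * r ^ 3) := by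
  have h1 := Psi_le h (y / r ^ 2)
  have h2 := Psi_nonneg h (y / r ^ 2)
  have h3 := zeta_nonneg d y
  have h4 := zeta_le_one d y
  calc EE d r y ≤ (r ^ 3)⁻¹ * (1 / 3) * 1 := by unfold EE; gcongr
    _ = 1 / (3 * r ^ 3) := by field_simp

/-- the derivative of the profile -/
theorem hasDerivAt_EE (y : ℝ) : HasDerivAt (EE d r)
    ((r ^ 3)⁻¹ * (-psi (y / r ^ 2) * (1 / r ^ 2)) * zeta d y
      + (r ^ 3)⁻¹ * Psi (y / r ^ 2) * deriv (zeta d) y) y := by
  obtain ⟨-, -, -, h4, -⟩ := h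
  have a1 : HasDerivAt (fun y : ℝ => y / r ^ 2) (1 / r ^ 2) y := (hasDerivAt_id y).div_const _
  have a2 := ((h4 (y / r ^ 2)).comp y a1).const_mul ((r ^ 3)⁻¹)
  have a3 : HasDerivAt (zeta d) (deriv (zeta d) y) y :=
    (((contDiff_zeta d).differentiable (by simp)) y).hasDerivAt
  exact a2.mul a3

theorem psi_bound {v : ℝ} : v * psi v ≤ 1 / 2 := by
  obtain ⟨-, -, -, -, -, -, -, -, -, h10, h11, h12, -⟩ := h
  rcases le_or_gt v 1 with h1 | h1
  · rw [h11 v h1]; norm_num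
  · have h2 := h12 v (by linarith)
    calc v * psi v ≤ v * (v ^ (-(5 / 2) : ℝ) / 2) := by gcongr
      _ = v ^ (-(3 / 2) : ℝ) / 2 := by
        have : v * v ^ (-(5 / 2) : ℝ) = v ^ (-(3 / 2) : ℝ) := by
          conv_lhs => rw [← Real.rpow_one v]
          rw [← Real.rpow_mul (by linarith), ← Real.rpow_add (by linarith)]
          norm_num
        rw [← mul_div_assoc, this]
      _ ≤ 1 / 2 := by
        have : v ^ (-(3 / 2) : ℝ) ≤ 1 := Real.rpow_le_one_of_one_le_of_nonpos h1.le (by norm_num)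
        linarith

omit h in
theorem deriv_zeta_zero {d y : ℝ} (hd : 0 < d) (hy : 4 * d ^ 2 < y) : deriv (zeta d) y = 0 := by
  have : zeta d =ᶠ[𝓝 y] fun _ => 0 := by
    filter_upwards [lt_mem_nhds hy] with z hz
    exact zeta_zero hd hz.le
  rw [this.deriv_eq]; simp

omit h in
theorem deriv_zeta_zero' {d y : ℝ} (hd : 0 < d) (hy : y < d ^ 2) : deriv (zeta d) y = 0 := by
  have : zeta d =ᶠ[𝓝 y] fun _ => 1 := by
    filter_upwards [gt_mem_nhds hy] with z hz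
    exact zeta_one hd (le_of_lt hz)
  rw [this.deriv_eq]; simp

omit h in
theorem exists_dz {d : ℝ} (hd : 0 < d) : ∃ C : ℝ, 0 ≤ C ∧ ∀ y, 0 ≤ y →
    y * |deriv (zeta d) y| ≤ C := by
  have hc : Continuous (fun y => y * |deriv (zeta d) y|) := by
    have : Continuous (deriv (zeta d)) := (contDiff_infty_iff_deriv.mp (contDiff_zeta d)).2.continuous
    fun_prop
  obtain ⟨C, hC⟩ := (isCompact_Icc (a := (0 : ℝ)) (b := 4 * d ^ 2)).exists_bound_of_continuousOn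
    hc.continuousOn
  refine ⟨C, (norm_nonneg _).trans (hC 0 ⟨le_rfl, by positivity⟩), fun y hy => ?_⟩
  rcases le_or_gt y (4 * d ^ 2) with h1 | h1
  · exact (le_abs_self _).trans (hC y ⟨hy, h1⟩)
  · rw [deriv_zeta_zero hd h1]
    have := (norm_nonneg _).trans (hC 0 ⟨le_rfl, by positivity⟩)
    simpa using this

theorem dEE_bound {C : ℝ} (hC : ∀ y, 0 ≤ y → y * |deriv (zeta d) y| ≤ C) (hr : 0 < r) {y : ℝ}
    (hy : 0 ≤ y) : y * |deriv (EE d r) y| ≤ (1 / 2 + C / 3) / r ^ 3 := by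
  have hp : 0 ≤ psi (y / r ^ 2) := by
    obtain ⟨-, -, -, -, -, -, -, -, -, h10, -⟩ := h
    exact h10 _
  have h1 := psi_bound h (v := y / r ^ 2)
  have h2 := hC y hy
  have h3 := Psi_le h (y / r ^ 2)
  have h4 := Psi_nonneg h (y / r ^ 2)
  have h5 := zeta_nonneg d y
  have h6 := zeta_le_one d y
  rw [(hasDerivAt_EE h y).deriv]
  have e1 : |(r ^ 3)⁻¹ * (-psi (y / r ^ 2) * (1 / r ^ 2)) * zeta d y
      + (r ^ 3)⁻¹ * Psi (y / r ^ 2) * deriv (zeta d) y|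
      ≤ (r ^ 3)⁻¹ * (psi (y / r ^ 2) * (1 / r ^ 2)) * zeta d y
        + (r ^ 3)⁻¹ * Psi (y / r ^ 2) * |deriv (zeta d) y| := by
    refine (abs_add_le _ _).trans (le_of_eq ?_)
    rw [abs_mul, abs_mul, abs_mul, abs_mul, abs_mul, abs_neg, abs_of_nonneg hp,
      abs_of_nonneg h4, abs_of_nonneg h5, abs_of_pos (by positivity : 0 < (r ^ 3)⁻¹),
      abs_of_pos (by positivity : 0 < 1 / r ^ 2)]
  calc y * |(r ^ 3)⁻¹ * (-psi (y / r ^ 2) * (1 / r ^ 2)) * zeta d y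
      + (r ^ 3)⁻¹ * Psi (y / r ^ 2) * deriv (zeta d) y|
      ≤ y * ((r ^ 3)⁻¹ * (psi (y / r ^ 2) * (1 / r ^ 2)) * zeta d y
        + (r ^ 3)⁻¹ * Psi (y / r ^ 2) * |deriv (zeta d) y|) := by gcongr
    _ = (r ^ 3)⁻¹ * ((y / r ^ 2 * psi (y / r ^ 2)) * zeta d y
        + Psi (y / r ^ 2) * (y * |deriv (zeta d) y|)) := by ring
    _ ≤ (r ^ 3)⁻¹ * ((1 / 2) * 1 + (1 / 3) * C) := by
        gcongr
    _ = _ := by field_simp

theorem EE_near (hr : 0 < r) (hrd : r ≤ d) {y : ℝ} (hy : y < r ^ 2) :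
    EE d r y = (r ^ 3)⁻¹ * Psi 1 ∧ deriv (EE d r) y = 0 := by
  have hd : 0 < d := hr.trans_le hrd
  have hy2 : y < d ^ 2 := hy.trans_le (by gcongr)
  have h1 : y / r ^ 2 ≤ 1 := by rw [div_le_one (by positivity)]; exact hy.le
  constructor
  · unfold EE
    rw [zeta_one hd hy2.le, mul_one]
    obtain ⟨-, -, -, -, -, h6, -⟩ := h
    rw [h6 _ h1]
  · rw [(hasDerivAt_EE h y).deriv, deriv_zeta_zero' hd hy2]
    obtain ⟨-, -, -, -, -, -, -, -, -, -, h11, -⟩ := h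
    rw [h11 _ h1]; simp

/-- the operator `4 y E'' + 10 E'` -/
noncomputable def TT (E : ℝ → ℝ) (y : ℝ) : ℝ := 4 * y * deriv (deriv E) y + 10 * deriv E y

omit h in
theorem TT_congr {E E' : ℝ → ℝ} {y : ℝ} (hE : E =ᶠ[𝓝 y] E') : TT E y = TT E' y := by
  unfold TT
  rw [hE.deriv.deriv_eq, hE.deriv_eq]

theorem TT_near (hr : 0 < r) (hd : 0 < d) {y : ℝ} (hy : y < d ^ 2) :
    TT (EE d r) y = - ((r ^ 5)⁻¹ * hh (y / r ^ 2)) := by
  have e1 : EE d r =ᶠ[𝓝 y] fun y => (r ^ 3)⁻¹ * Psi (y / r ^ 2) := by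
    filter_upwards [gt_mem_nhds hy] with z hz
    unfold EE
    rw [zeta_one hd (le_of_lt hz), mul_one]
  rw [TT_congr e1]
  obtain ⟨-, h2, -, h4, -, -, -, -, -, -, -, -, -, -, -, h16⟩ := h
  have a1 : ∀ y, HasDerivAt (fun y : ℝ => y / r ^ 2) (1 / r ^ 2) y :=
    fun y => (hasDerivAt_id y).div_const _
  have a2 : deriv (fun y => (r ^ 3)⁻¹ * Psi (y / r ^ 2))
      = fun y => (r ^ 3)⁻¹ * (-psi (y / r ^ 2) * (1 / r ^ 2)) := by
    funext y
    exact (((h4 (y / r ^ 2)).comp y (a1 y)).const_mul ((r ^ 3)⁻¹)).deriv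
  have a3 : deriv (fun y => (r ^ 3)⁻¹ * (-psi (y / r ^ 2) * (1 / r ^ 2))) y
      = (r ^ 3)⁻¹ * (-(deriv psi (y / r ^ 2) * (1 / r ^ 2)) * (1 / r ^ 2)) := by
    have : HasDerivAt psi (deriv psi (y / r ^ 2)) (y / r ^ 2) :=
      ((h2.differentiable (by simp)) _).hasDerivAt
    exact ((((this.comp y (a1 y))).neg.mul_const (1 / r ^ 2)).const_mul ((r ^ 3)⁻¹)).deriv
  unfold TT
  rw [a2, a3, ← h16 (y / r ^ 2)]
  field_simp
  ring

omit h in
theorem TT_zero {d r y : ℝ} (hd : 0 < d) (hy : 4 * d ^ 2 < y) : TT (EE d r) y = 0 := by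
  have e1 : EE d r =ᶠ[𝓝 y] fun _ => 0 := by
    filter_upwards [lt_mem_nhds hy] with z hz
    unfold EE
    rw [zeta_zero hd (le_of_lt hz), mul_zero]
  rw [TT_congr e1]
  simp [TT]

theorem EE_far (hr : 0 < r) {y : ℝ} (hy : 6 / 5 * r ^ 2 ≤ y) :
    EE d r y = y ^ (-(3 / 2) : ℝ) / 3 * zeta d y := by
  obtain ⟨-, -, -, -, h5, -⟩ := h
  have hy0 : 0 < y := lt_of_lt_of_le (by positivity) hy
  have h1 : 6 / 5 ≤ y / r ^ 2 := by rwa [le_div_iff₀ (by positivity)]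
  unfold EE
  rw [h5 _ h1, Real.div_rpow hy0.le (by positivity)]
  have h2 : (r ^ 2) ^ (-(3 / 2) : ℝ) = (r ^ 3)⁻¹ := by
    rw [Real.rpow_neg (by positivity), ← Real.rpow_natCast, ← Real.rpow_mul hr.le]
    norm_num
  rw [h2]
  field_simp

theorem TT_ref (hr : 0 < r) (hrd : 4 * r ≤ d) {y : ℝ} (hy : d ^ 2 ≤ y) :
    TT (EE d r) y = TT (EE d (d / 4)) y := by
  have hd : 0 < d := by linarith
  apply TT_congr
  have h1 : 6 / 5 * (d / 4) ^ 2 < y := by nlinarith [sq_nonneg d, hd]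
  filter_upwards [lt_mem_nhds h1] with z hz
  have h2 : 6 / 5 * r ^ 2 ≤ z := by nlinarith [sq_nonneg (d / 4 - r)]
  rw [EE_far h hr h2, EE_far h (by positivity) (le_of_lt hz)]

theorem exists_TT {d : ℝ} (hd : 0 < d) : ∃ C : ℝ, 0 ≤ C ∧ ∀ r : ℝ, 0 < r → 4 * r ≤ d → ∀ y,
    (y ≤ 4 * d ^ 2 → |TT (EE d r) y + (r ^ 5)⁻¹ * hh (y / r ^ 2)| ≤ C) ∧
    (4 * d ^ 2 < y → TT (EE d r) y + (r ^ 5)⁻¹ * hh (y / r ^ 2) = 0) := by
  have hE : ContDiff ℝ ∞ (EE d (d / 4)) := contDiff_EE h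
  have hE' : ContDiff ℝ ∞ (deriv (EE d (d / 4))) := (contDiff_infty_iff_deriv.mp hE).2
  have hE'' : ContDiff ℝ ∞ (deriv (deriv (EE d (d / 4)))) := (contDiff_infty_iff_deriv.mp hE').2
  have hc : Continuous (TT (EE d (d / 4))) := by
    unfold TT
    have := hE'.continuous
    have := hE''.continuous
    fun_prop
  obtain ⟨C, hC⟩ := (isCompact_Icc (a := (0 : ℝ)) (b := 4 * d ^ 2)).exists_bound_of_continuousOn
    hc.continuousOn
  have hC0 : 0 ≤ C := (norm_nonneg _).trans (hC 0 ⟨le_rfl, by positivity⟩)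
  have hz : ∀ r : ℝ, 0 < r → 4 * r ≤ d → ∀ y, d ^ 2 ≤ y → hh (y / r ^ 2) = 0 := by
    intro r hr hrd y hy
    by_contra hcon
    obtain ⟨-, -, -, -, -, -, -, -, -, -, -, -, -, h14, -⟩ := h
    have h1 := (h14 _ hcon).2
    rw [div_lt_iff₀ (by positivity)] at h1
    nlinarith
  refine ⟨C, hC0, fun r hr hrd y => ⟨fun hy => ?_, fun hy => ?_⟩⟩
  · rcases lt_or_ge y (d ^ 2) with h1 | h1
    · rw [TT_near h hr hd h1]; simpa using hC0
    · rw [hz r hr hrd y h1, TT_ref h hr hrd h1, mul_zero, add_zero]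
      exact hC y ⟨(sq_nonneg d).trans h1, hy⟩
  · rw [TT_zero hd hy, hz r hr hrd y (by nlinarith), mul_zero, add_zero]

end prof

/-! ### estimates for the fields -/

theorem W_eq (P : Par) (j : ℕ) : P.W j = VE (EE P.d (P.r j)) := rfl

theorem r_pos (P : Par) (j : ℕ) : 0 < P.r j := div_pos P.hr (by positivity)

theorem r_le (P : Par) (j : ℕ) : 4 * P.r j ≤ P.d := by
  have h1 : P.r j ≤ P.r0 := div_le_self P.hr.le (one_le_pow₀ (by norm_num))
  linarith [P.hrd]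

theorem r_le' (P : Par) (j : ℕ) : P.r j ≤ P.d := by
  linarith [r_le P j, r_pos P j]

theorem VE_zero_of {d r : ℝ} (hd : 0 < d) {x : E3} (hx : 2 * d ≤ ‖x‖) : VE (EE d r) x = 0 := by
  have : EE d r (‖x‖ ^ 2) = 0 := by
    unfold EE
    rw [zeta_zero hd (by nlinarith), mul_zero]
  simp [VE, this]

theorem isTest (h : StmProf) {d r : ℝ} (hd : 0 < d) {Ω : Set E3}
    (hΩ : Metric.closedBall 0 (2 * d) ⊆ Ω) : IsTest Ω (VE (EE d r)) := by
  have hts : tsupport (VE (EE d r)) ⊆ Metric.closedBall 0 (2 * d) := by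
    refine closure_minimal ?_ Metric.isClosed_closedBall
    intro x hx
    by_contra hcon
    rw [mem_closedBall_zero_iff, not_le] at hcon
    exact hx (VE_zero_of hd hcon.le)
  exact {
    smooth := contDiff_VE (contDiff_EE h)
    compact := (isCompact_closedBall (0 : E3) (2 * d)).of_isClosed_subset (isClosed_tsupport _) hts
    supp := hts.trans hΩ
    divfree := div_VE (contDiff_EE h) }

theorem nV_sq (v : E3 → E3) : nV v ^ 2 = ∫ x, ‖v x‖ ^ 2 :=
  Real.sq_sqrt (integral_nonneg fun _ => by positivity)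

theorem nM_sq (v : E3 → M3) : nM v ^ 2 = ∫ x, ‖v x‖ ^ 2 :=
  Real.sq_sqrt (integral_nonneg fun _ => by positivity)

theorem nV_nonneg (v : E3 → E3) : 0 ≤ nV v := Real.sqrt_nonneg _

/-- the integral in (b) -/
noncomputable def cb : ℝ := ∫ x : E3, (1 + ‖x‖) ^ (-(4 : ℝ))

theorem integrable_cb : Integrable (fun x : E3 => (1 + ‖x‖) ^ (-(4 : ℝ))) :=
  integrable_one_add_norm (by simp; norm_num)

theorem norm_VE_sq_le (h : StmProf) {d r : ℝ} (hr : 0 < r) (x : E3) :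
    ‖VE (EE d r) x‖ ^ 2 ≤ 16 / 9 * (r ^ 4)⁻¹ * (1 + ‖r⁻¹ • x‖) ^ (-(4 : ℝ)) := by
  have hn : ‖VE (EE d r) x‖ ≤ EE d r (‖x‖ ^ 2) * ‖x‖ := by
    unfold VE
    rw [norm_smul, Real.norm_eq_abs, abs_of_nonneg (EE_nonneg h hr _)]
    exact mul_le_mul_of_nonneg_left (norm_lam_le x) (EE_nonneg h hr _)
  have hu : ‖r⁻¹ • x‖ = ‖x‖ / r := by
    rw [norm_smul, norm_inv, Real.norm_eq_abs, abs_of_pos hr]; field_simp
  rw [hu]
  set u := ‖x‖ / r with hudef
  have hxu : ‖x‖ = u * r := by rw [hudef]; field_simp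
  have hu0 : 0 ≤ u := by positivity
  have hpos : 0 < 1 + u := by linarith
  have e4 : (1 + u) ^ (-(4 : ℝ)) = ((1 + u) ^ 4)⁻¹ := by
    rw [Real.rpow_neg hpos.le]
    norm_num
  rw [e4]
  have hE0 := EE_nonneg (d := d) h hr (‖x‖ ^ 2)
  -- |VE| ≤ (1/3) r^{-2} min(u, u^{-2})
  have key : EE d r (‖x‖ ^ 2) * ‖x‖ * (3 * r ^ 2) ≤ 4 / (1 + u) ^ 2 := by
    rcases le_or_gt u 1 with h1 | h1
    · have h2 := EE_le (d := d) h hr (‖x‖ ^ 2)
      calc EE d r (‖x‖ ^ 2) * ‖x‖ * (3 * r ^ 2) ≤ 1 / (3 * r ^ 3) * (u * r) * (3 * r ^ 2) := by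
            rw [← hxu]; gcongr
        _ = u := by field_simp
        _ ≤ 4 / (1 + u) ^ 2 := by
            rw [le_div_iff₀ (by positivity)]
            nlinarith [mul_nonneg hu0 (by linarith : (0 : ℝ) ≤ 1 - u),
              mul_nonneg (mul_nonneg hu0 hu0) (by linarith : (0 : ℝ) ≤ 1 - u)]
    · have h9 := h.2.2.2.2.2.2.2.2.1
      have h2 : Psi (‖x‖ ^ 2 / r ^ 2) ≤ 1 / (3 * u ^ 3) := by
        have e : ‖x‖ ^ 2 / r ^ 2 = u ^ 2 := by rw [hxu]; field_simp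
        rw [e]
        refine (h9 (u ^ 2) (by positivity)).trans (le_of_eq ?_)
        have : (u ^ 2) ^ (-(3 / 2) : ℝ) = (u ^ 3)⁻¹ := by
          rw [Real.rpow_neg (by positivity), ← Real.rpow_natCast, ← Real.rpow_mul hu0]
          norm_num
        rw [this]; field_simp
      have h3 : EE d r (‖x‖ ^ 2) ≤ (r ^ 3)⁻¹ * (1 / (3 * u ^ 3)) * 1 := by
        unfold EE
        have := Psi_nonneg h (‖x‖ ^ 2 / r ^ 2)
        have := zeta_nonneg d (‖x‖ ^ 2)
        have := zeta_le_one d (‖x‖ ^ 2)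
        gcongr
      calc EE d r (‖x‖ ^ 2) * ‖x‖ * (3 * r ^ 2)
          ≤ ((r ^ 3)⁻¹ * (1 / (3 * u ^ 3)) * 1) * (u * r) * (3 * r ^ 2) := by
            rw [← hxu]; gcongr
        _ = 1 / u ^ 2 := by
            have : u ≠ 0 := by positivity
            field_simp
        _ ≤ 4 / (1 + u) ^ 2 := by
            rw [div_le_div_iff₀ (by positivity) (by positivity)]
            nlinarith
  have hn2 : ‖VE (EE d r) x‖ * (3 * r ^ 2) ≤ 4 / (1 + u) ^ 2 :=
    (mul_le_mul_of_nonneg_right hn (by positivity)).trans key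
  have hn3 : (‖VE (EE d r) x‖ * (3 * r ^ 2)) ^ 2 ≤ (4 / (1 + u) ^ 2) ^ 2 :=
    pow_le_pow_left₀ (by positivity) hn2 2
  have hn4 : ‖VE (EE d r) x‖ ^ 2 = (‖VE (EE d r) x‖ * (3 * r ^ 2)) ^ 2 / (9 * r ^ 4) := by
    field_simp; ring
  rw [hn4, div_le_iff₀ (by positivity)]
  refine hn3.trans (le_of_eq ?_)
  field_simp
  ring

theorem nV_bound (h : StmProf) {d r : ℝ} (hr : 0 < r) :
    nV (VE (EE d r)) ^ 2 ≤ (16 / 9 * cb) / r := by
  rw [nV_sq]
  have hint : Integrable (fun x : E3 => 16 / 9 * (r ^ 4)⁻¹ * (1 + ‖r⁻¹ • x‖) ^ (-(4 : ℝ))) :=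
    (integrable_cb.comp_smul (inv_ne_zero hr.ne')).const_mul _
  calc ∫ x, ‖VE (EE d r) x‖ ^ 2
      ≤ ∫ x : E3, 16 / 9 * (r ^ 4)⁻¹ * (1 + ‖r⁻¹ • x‖) ^ (-(4 : ℝ)) :=
        integral_mono_of_nonneg (Eventually.of_forall fun x => by positivity) hint
          (Eventually.of_forall fun x => norm_VE_sq_le h hr x)
    _ = 16 / 9 * (r ^ 4)⁻¹ * (r ^ 3 * cb) := by
        rw [integral_const_mul]
        congr 1
        have := Measure.integral_comp_smul (volume : Measure E3)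
          (fun x : E3 => (1 + ‖x‖) ^ (-(4 : ℝ))) r⁻¹
        rw [this]
        simp only [cb, finrank_euclideanSpace, Fintype.card_fin, smul_eq_mul]
        congr 1
        rw [inv_pow, inv_inv, abs_of_pos (by positivity)]
    _ = _ := by field_simp

theorem norm_fderiv_bound (h : StmProf) {d r C : ℝ} (hr : 0 < r)
    (hC : ∀ y, 0 ≤ y → y * |deriv (zeta d) y| ≤ C) (x : E3) :
    ‖fderiv ℝ (VE (EE d r)) x‖ ≤ (4 / 3 + 2 * C / 3) / r ^ 3 := by
  refine (norm_fderiv_VE (contDiff_EE h) x).trans ?_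
  have h1 := EE_le (d := d) h hr (‖x‖ ^ 2)
  have h2 := EE_nonneg (d := d) h hr (‖x‖ ^ 2)
  have h3 := dEE_bound (d := d) h hC hr (y := ‖x‖ ^ 2) (by positivity)
  rw [abs_of_nonneg h2]
  calc EE d r (‖x‖ ^ 2) + 2 * (‖x‖ ^ 2 * |deriv (EE d r) (‖x‖ ^ 2)|)
      ≤ 1 / (3 * r ^ 3) + 2 * ((1 / 2 + C / 3) / r ^ 3) := by gcongr
    _ = _ := by field_simp; ring

theorem low_bound (h : StmProf) {d r : ℝ} (hr : 0 < r) (hrd : r ≤ d) :
    (2 * Psi 1 ^ 2 * (volume (Metric.ball (0 : E3) 1)).toReal) / r ^ 3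
      ≤ nM (jac (VE (EE d r))) ^ 2 := by
  rw [nM_sq]
  have hd : 0 < d := hr.trans_le hrd
  have hT : IsTest univ (VE (EE d r)) := isTest h hd (subset_univ _)
  have hint : Integrable (fun x => ‖jac (VE (EE d r)) x‖ ^ 2) :=
    (hT.jac_memLp 2).integrable_norm_pow (by norm_num)
  have hv : (volume (Metric.ball (0 : E3) r)).toReal
      = r ^ 3 * (volume (Metric.ball (0 : E3) 1)).toReal := by
    rw [Measure.addHaar_ball_of_pos _ _ hr]
    simp [ENNReal.toReal_mul, ENNReal.toReal_ofReal, hr.le]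
  calc (2 * Psi 1 ^ 2 * (volume (Metric.ball (0 : E3) 1)).toReal) / r ^ 3
      = ∫ x in Metric.ball (0 : E3) r, 2 * ((r ^ 3)⁻¹ * Psi 1) ^ 2 := by
        rw [setIntegral_const, Measure.real, hv, smul_eq_mul]
        field_simp
    _ ≤ ∫ x in Metric.ball (0 : E3) r, ‖jac (VE (EE d r)) x‖ ^ 2 := by
        refine setIntegral_mono_on (integrableOn_const measure_ball_lt_top.ne) hint.integrableOn
          measurableSet_ball (fun x hx => ?_)
        rw [mem_ball_zero_iff] at hx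
        have hx2 : ‖x‖ ^ 2 < r ^ 2 := by
          have := norm_nonneg x
          gcongr
        obtain ⟨e1, e2⟩ := EE_near (d := d) h hr hrd hx2
        rw [norm_sq_M3]
        simp only [jac_VE (contDiff_EE h), e1, e2]
        simp [Fin.sum_univ_three, lam]
        nlinarith [sq_nonneg ((r ^ 3)⁻¹ * Psi 1)]
    _ ≤ ∫ x, ‖jac (VE (EE d r)) x‖ ^ 2 :=
        setIntegral_le_integral hint (Eventually.of_forall fun x => by positivity)

theorem lap_bound (h : StmProf) {d : ℝ} (hd : 0 < d) : ∃ C : ℝ, 0 ≤ C ∧ ∀ r : ℝ, 0 < r →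
    4 * r ≤ d → ∀ (Ω : Set E3) (w : E3 → E3), IsTest Ω w →
    |(∫ x, ⟪jac (VE (EE d r)) x, jac w x⟫_ℝ)
      - ∫ x, ⟪((r ^ 5)⁻¹ * hh (‖x‖ ^ 2 / r ^ 2)) • lam x, w x⟫_ℝ| ≤ C * nV w := by
  obtain ⟨C0, hC0, hC⟩ := exists_TT h hd
  -- the bounding function
  let B : E3 → ℝ := (Metric.closedBall (0 : E3) (2 * d)).indicator (fun _ => C0 * (2 * d))
  have hB : MemLp B 2 (volume : Measure E3) :=
    memLp_indicator_const 2 measurableSet_closedBall _ (Or.inr (by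
      exact (isCompact_closedBall _ _).measure_lt_top.ne))
  refine ⟨(∫ x, B x ^ 2) ^ ((1 : ℝ) / 2), by
    apply Real.rpow_nonneg; exact integral_nonneg fun _ => sq_nonneg _,
    fun r hr hrd Ω w hw => ?_⟩
  have hE := contDiff_EE (d := d) (r := r) h
  have hE' : ContDiff ℝ ∞ (deriv (EE d r)) := (contDiff_infty_iff_deriv.mp hE).2
  have hE'' : ContDiff ℝ ∞ (deriv (deriv (EE d r))) := (contDiff_infty_iff_deriv.mp hE').2
  have hhc : Continuous hh := h.2.2.1.continuous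
  have hn : Continuous (fun x : E3 => ‖x‖ ^ 2) := by fun_prop
  have c1 : Continuous (fun x : E3 => deriv (EE d r) (‖x‖ ^ 2)) := hE'.continuous.comp hn
  have c2 : Continuous (fun x : E3 => deriv (deriv (EE d r)) (‖x‖ ^ 2)) := hE''.continuous.comp hn
  have c3 : Continuous (fun x : E3 => hh (‖x‖ ^ 2 / r ^ 2)) := hhc.comp (hn.div_const _)
  have c4 : Continuous (fun x : E3 => ⟪lam x, w x⟫_ℝ) :=
    (lamL.continuous).inner hw.smooth.continuous
  have hs : HasCompactSupport (fun x : E3 => ⟪lam x, w x⟫_ℝ) := by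
    refine hw.compact.mono (fun x hx => ?_)
    intro h0; apply hx
    have : w x = 0 := h0
    simp [this]
  have hcT : Continuous (fun x : E3 => 4 * ‖x‖ ^ 2 * deriv (deriv (EE d r)) (‖x‖ ^ 2)
      + 10 * deriv (EE d r) (‖x‖ ^ 2)) := by fun_prop
  have i1 : Integrable (fun x : E3 => (4 * ‖x‖ ^ 2 * deriv (deriv (EE d r)) (‖x‖ ^ 2)
      + 10 * deriv (EE d r) (‖x‖ ^ 2)) * ⟪lam x, w x⟫_ℝ) :=
    (hcT.mul c4).integrable_of_hasCompactSupport hs.mul_left
  have i2 : Integrable (fun x : E3 => ((r ^ 5)⁻¹ * hh (‖x‖ ^ 2 / r ^ 2)) * ⟪lam x, w x⟫_ℝ) :=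
    ((continuous_const.mul c3).mul c4).integrable_of_hasCompactSupport hs.mul_left
  rw [int_jac_VE hE hw]
  simp_rw [real_inner_smul_left]
  have i1' : Integrable (fun x : E3 => -((4 * ‖x‖ ^ 2 * deriv (deriv (EE d r)) (‖x‖ ^ 2)
      + 10 * deriv (EE d r) (‖x‖ ^ 2)) * ⟪lam x, w x⟫_ℝ)) := i1.neg
  rw [← integral_neg, ← integral_sub i1' i2]
  have hpt : ∀ x : E3, ‖-((4 * ‖x‖ ^ 2 * deriv (deriv (EE d r)) (‖x‖ ^ 2)
      + 10 * deriv (EE d r) (‖x‖ ^ 2)) * ⟪lam x, w x⟫_ℝ)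
      - ((r ^ 5)⁻¹ * hh (‖x‖ ^ 2 / r ^ 2)) * ⟪lam x, w x⟫_ℝ‖ ≤ B x * ‖w x‖ := by
    intro x
    have e : -((4 * ‖x‖ ^ 2 * deriv (deriv (EE d r)) (‖x‖ ^ 2)
      + 10 * deriv (EE d r) (‖x‖ ^ 2)) * ⟪lam x, w x⟫_ℝ)
      - ((r ^ 5)⁻¹ * hh (‖x‖ ^ 2 / r ^ 2)) * ⟪lam x, w x⟫_ℝ
      = - ((TT (EE d r) (‖x‖ ^ 2) + (r ^ 5)⁻¹ * hh (‖x‖ ^ 2 / r ^ 2)) * ⟪lam x, w x⟫_ℝ) := by
      unfold TT; ring
    rw [e, norm_neg, norm_mul, Real.norm_eq_abs, Real.norm_eq_abs]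
    obtain ⟨b1, b2⟩ := hC r hr hrd (‖x‖ ^ 2)
    by_cases hx : x ∈ Metric.closedBall (0 : E3) (2 * d)
    · have hx' : ‖x‖ ≤ 2 * d := by simpa using hx
      have b3 := b1 (by nlinarith [norm_nonneg x])
      have b4 : |⟪lam x, w x⟫_ℝ| ≤ (2 * d) * ‖w x‖ :=
        (abs_real_inner_le_norm _ _).trans
          (mul_le_mul_of_nonneg_right ((norm_lam_le x).trans hx') (norm_nonneg _))
      have hBx : B x = C0 * (2 * d) := indicator_of_mem hx _
      rw [hBx, mul_assoc]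
      gcongr
    · have hx' : 2 * d < ‖x‖ := by simpa using hx
      rw [b2 (by nlinarith)]
      have hBx : B x = 0 := indicator_of_notMem hx _
      simp [hBx]
  have hBn : ∀ x, 0 ≤ B x := fun x => indicator_nonneg (fun _ _ => by positivity) x
  refine (norm_integral_le_of_norm_le (g := fun x => B x * ‖w x‖) ?_
    (Eventually.of_forall hpt)).trans ?_
  · exact (hw.memLp 2).norm.integrable_mul hB |>.congr (Eventually.of_forall fun x => by
      simp [mul_comm])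
  · have hol := integral_mul_le_Lp_mul_Lq_of_nonneg (μ := (volume : Measure E3))
      Real.HolderConjugate.two_two (f := B) (g := fun x => ‖w x‖)
      (Eventually.of_forall hBn) (Eventually.of_forall fun x => norm_nonneg _)
      (by simpa using hB) (by simpa using (hw.memLp 2).norm)
    refine hol.trans (le_of_eq ?_)
    simp only [Real.rpow_two]
    congr 1
    rw [nV, Real.sqrt_eq_rpow]

end WF

open WF in
/-- module W -/
theorem w_holds (h : StmProf) : StmW := by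
  intro d hd hd1
  obtain ⟨C1, hC1, hz⟩ := exists_dz hd
  obtain ⟨C2, hC2, hl⟩ := lap_bound h hd
  have hcb : 0 ≤ cb := integral_nonneg fun _ => by positivity
  have hPsi : 0 < Psi 1 := h.2.2.2.2.2.2.1 1
  have hvol : 0 < (volume (Metric.ball (0 : E3) 1)).toReal :=
    ENNReal.toReal_pos (Metric.measure_ball_pos _ _ one_pos).ne' (by
      exact measure_ball_lt_top.ne)
  refine ⟨16 / 9 * cb + (4 / 3 + 2 * C1 / 3) + C2,
    2 * Psi 1 ^ 2 * (volume (Metric.ball (0 : E3) 1)).toReal, by positivity, by positivity, ?_⟩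
  intro P hP j
  have hr := r_pos P j
  have hrd := r_le P j
  have hrd' := r_le' P j
  rw [hP] at hrd hrd'
  have hW : P.W j = VE (EE d (P.r j)) := by rw [W_eq, hP]
  rw [hW]
  refine ⟨fun Ω hΩ => isTest h hd hΩ, ?_, ?_, low_bound h hr hrd', ?_⟩
  · refine (nV_bound h hr).trans ?_
    gcongr
    linarith [div_nonneg (mul_nonneg (by norm_num : (0 : ℝ) ≤ 2) hC1) (by norm_num : (0 : ℝ) ≤ 3)]
  · intro x
    refine (norm_fderiv_bound h hr hz x).trans ?_
    refine div_le_div_of_nonneg_right ?_ (by positivity)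
    linarith
  · intro Ω w hw
    refine (hl (P.r j) hr hrd Ω w hw).trans ?_
    have := nV_nonneg w
    gcongr
    linarith [div_nonneg (mul_nonneg (by norm_num : (0 : ℝ) ≤ 2) hC1) (by norm_num : (0 : ℝ) ≤ 3)]

end N979MH
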